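import Mathlib

/-! The six subgroups of `(ℤ/3)²`. -/

namespace SZ

/-- The subgroup of `(ℤ/3)²` cut out by two linear forms. -/
def cutSub (a b : ZMod 3 × ZMod 3) : Subgroup (Multiplicative (ZMod 3 × ZMod 3)) where
  carrier := {g | a.1 * g.toAdd.1 + a.2 * g.toAdd.2 = 0 ∧ b.1 * g.toAdd.1 + b.2 * g.toAdd.2 = 0}
  mul_mem' := by
    rintro g h ⟨g1, g2⟩ ⟨h1, h2⟩
    simp only [Set.mem_ofPred_eq, toAdd_mul, Prod.fst_add, Prod.snd_add]
    constructor
    · linear_combination g1 + h1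
    · linear_combination g2 + h2
  one_mem' := by simp
  inv_mem' := by
    rintro g ⟨g1, g2⟩
    simp only [Set.mem_ofPred_eq, toAdd_inv, Prod.fst_neg, Prod.snd_neg]
    constructor
    · linear_combination -g1
    · linear_combination -g2

/-- The pairs of linear forms defining the six subgroups. -/
def forms : Fin 6 → (ZMod 3 × ZMod 3) × (ZMod 3 × ZMod 3) :=
  ![((0, 0), (0, 0)), ((1, 0), (0, 0)), ((0, 1), (0, 0)), ((1, 1), (0, 0)), ((1, 2), (0, 0)),
    ((1, 0), (0, 1))]

theorem six_subgroups :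
    Function.Injective fun i : Fin 6 => cutSub (forms i).1 (forms i).2 := by
  have key : ∀ i j : Fin 6, (∀ g : ZMod 3 × ZMod 3,
      ((forms i).1.1 * g.1 + (forms i).1.2 * g.2 = 0 ∧
        (forms i).2.1 * g.1 + (forms i).2.2 * g.2 = 0) ↔
      ((forms j).1.1 * g.1 + (forms j).1.2 * g.2 = 0 ∧
        (forms j).2.1 * g.1 + (forms j).2.2 * g.2 = 0)) → i = j := by decide
  intro i j h
  exact key i j fun g => SetLike.ext_iff.1 h (Multiplicative.ofAdd g)

end SZ
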