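import Mathlib

/-!
Abstract index theory of a symmetric odd operator `D` on a graded real pre-Hilbert space `C`
(think: smooth compactly supported spinors). All notions live in the completion of `C`.
-/

noncomputable section

namespace SZ

open UniformSpace Filter Topology
open scoped RealInnerProductSpace

variable {C : Type} [NormedAddCommGroup C] [InnerProductSpace ℝ C]

/-- `D u = f` weakly. -/
def Weak (D : C →ₗ[ℝ] C) (u f : Completion C) : Prop :=
  ∀ ψ : C, ⟪u, ((D ψ : C) : Completion C)⟫ = ⟪f, (ψ : Completion C)⟫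

/-- The closure of the graph of `D`. -/
def gcl (D : C →ₗ[ℝ] C) : Set (Completion C × Completion C) :=
  closure (Set.range fun ψ : C => ((ψ : Completion C), ((D ψ : C) : Completion C)))

/-- Essential self-adjointness: weak solutions are strong solutions. -/
def ESA (D : C →ₗ[ℝ] C) : Prop := ∀ u f, Weak D u f → (u, f) ∈ gcl D

/-- Properness: a bounded sequence with Cauchy image has a Cauchy subsequence. -/
def Proper (D : C →ₗ[ℝ] C) : Prop :=
  ∀ ψ : ℕ → C, (∀ k, ‖ψ k‖ ≤ 1) → CauchySeq (fun k => D (ψ k)) →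
    ∃ φ : ℕ → ℕ, StrictMono φ ∧ CauchySeq (ψ ∘ φ)

/-- `T` is compact for the graph norm of `D`. -/
def GCpt {C' : Type} [NormedAddCommGroup C'] [InnerProductSpace ℝ C'] (D : C →ₗ[ℝ] C)
    (T : C →ₗ[ℝ] C') : Prop :=
  TotallyBounded (T '' {ψ | ‖ψ‖ ≤ 1 ∧ ‖D ψ‖ ≤ 1})

/-- `T` is bounded. -/
def Bdd {C' : Type} [NormedAddCommGroup C'] [InnerProductSpace ℝ C'] (T : C →ₗ[ℝ] C') : Prop :=
  ∃ c : ℝ, ∀ ψ, ‖T ψ‖ ≤ c * ‖ψ‖

/-- `T` is symmetric. -/
def Sym (T : C →ₗ[ℝ] C) : Prop := ∀ x y, ⟪T x, y⟫ = ⟪x, T y⟫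

/-- `M` maps weak solutions into the domain of the closure (`v` is the image of `u` under the
adjoint of `M`). -/
def Reg (D M : C →ₗ[ℝ] C) : Prop :=
  ∀ u f, Weak D u f → ∃ v g, (v, g) ∈ gcl D ∧
    ∀ ψ : C, ⟪v, (ψ : Completion C)⟫ = ⟪u, ((M ψ : C) : Completion C)⟫

/-- A symmetric odd essentially self-adjoint proper operator `D` with grading `ε`. -/
structure Fred (D ε : C →ₗ[ℝ] C) : Prop where
  sym : Sym D
  εsym : Sym ε
  εsq : ∀ x, ε (ε x) = x
  odd : ∀ x, D (ε x) = -ε (D x)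
  esa : ESA D
  proper : Proper D

/-- The part of the weak kernel of `D` on which `ε` acts as `p`. -/
def Ker (D ε : C →ₗ[ℝ] C) (p : ℝ) : Submodule ℝ (Completion C) where
  carrier := {u | Weak D u 0 ∧
    ∀ ψ : C, ⟪u, ((ε ψ : C) : Completion C)⟫ = p * ⟪u, (ψ : Completion C)⟫}
  add_mem' := by
    rintro u v ⟨hu, hu'⟩ ⟨hv, hv'⟩
    refine ⟨fun ψ => ?_, fun ψ => ?_⟩
    · have h1 := hu ψ
      have h2 := hv ψ
      rw [inner_zero_left] at h1 h2
      rw [inner_add_left, h1, h2, inner_zero_left, add_zero]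
    · rw [inner_add_left, inner_add_left, hu', hv', mul_add]
  zero_mem' := ⟨fun ψ => by simp, fun ψ => by simp⟩
  smul_mem' := by
    rintro c u ⟨hu, hu'⟩
    refine ⟨fun ψ => ?_, fun ψ => ?_⟩
    · have h1 := hu ψ
      rw [inner_zero_left] at h1
      rw [real_inner_smul_left, h1, inner_zero_left, mul_zero]
    · rw [real_inner_smul_left, real_inner_smul_left, hu']; ring

/-- The index. -/
def ind (D ε : C →ₗ[ℝ] C) : ℝ :=
  (Module.finrank ℝ (Ker D ε 1) : ℝ) - (Module.finrank ℝ (Ker D ε (-1)) : ℝ)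

end SZ
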