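import Pool.Agent.P.MP_8db816_gt.SZ.AbsHom

/-! The abstract cut-and-paste theorem (Bunke). -/

noncomputable section

namespace SZ

open UniformSpace Filter Topology
open scoped RealInnerProductSpace

variable {C : Type} [NormedAddCommGroup C] [InnerProductSpace ℝ C]

namespace CPAux

variable {A B : Type} [NormedAddCommGroup A] [InnerProductSpace ℝ A]
  [NormedAddCommGroup B] [InnerProductSpace ℝ B]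

theorem norm_eq_of_inner (U : A →ₗ[ℝ] B) (hi : ∀ x y, ⟪U x, U y⟫ = ⟪x, y⟫) (x : A) :
    ‖U x‖ = ‖x‖ := by
  have h := hi x x
  rw [real_inner_self_eq_norm_sq, real_inner_self_eq_norm_sq] at h
  exact (sq_eq_sq₀ (norm_nonneg _) (norm_nonneg _)).1 h

theorem bdd_add {S T : A →ₗ[ℝ] B} (hS : Bdd S) (hT : Bdd T) : Bdd (S + T) := by
  obtain ⟨a, ha⟩ := hS
  obtain ⟨b, hb⟩ := hT
  refine ⟨a + b, fun x => ?_⟩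
  calc ‖(S + T) x‖ = ‖S x + T x‖ := rfl
    _ ≤ ‖S x‖ + ‖T x‖ := norm_add_le _ _
    _ ≤ a * ‖x‖ + b * ‖x‖ := add_le_add (ha x) (hb x)
    _ = (a + b) * ‖x‖ := by ring

theorem bdd_comp {E : Type} [NormedAddCommGroup E] [InnerProductSpace ℝ E]
    {S : B →ₗ[ℝ] E} {T : A →ₗ[ℝ] B} (hS : Bdd S) (hT : Bdd T) : Bdd (S ∘ₗ T) := by
  obtain ⟨a, ha⟩ := hS
  obtain ⟨b, hb⟩ := hT
  refine ⟨|a| * |b|, fun x => ?_⟩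
  calc ‖(S ∘ₗ T) x‖ = ‖S (T x)‖ := rfl
    _ ≤ a * ‖T x‖ := ha _
    _ ≤ |a| * ‖T x‖ := mul_le_mul_of_nonneg_right (le_abs_self a) (norm_nonneg _)
    _ ≤ |a| * (|b| * ‖x‖) := by
        refine mul_le_mul_of_nonneg_left ((hb x).trans ?_) (abs_nonneg a)
        exact mul_le_mul_of_nonneg_right (le_abs_self b) (norm_nonneg _)
    _ = |a| * |b| * ‖x‖ := by ring

theorem gcpt_comp_right {E : Type} [NormedAddCommGroup E] [InnerProductSpace ℝ E]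
    {D : A →ₗ[ℝ] A} {D' : B →ₗ[ℝ] B} {T : B →ₗ[ℝ] E} (h : GCpt D' T) (P : A →ₗ[ℝ] B)
    (hP : ∀ x, ‖P x‖ ≤ ‖x‖) (hD : ∀ x, D' (P x) = P (D x)) : GCpt D (T ∘ₗ P) := by
  refine TotallyBounded.subset ?_ h
  rintro _ ⟨x, ⟨h1, h2⟩, rfl⟩
  refine ⟨P x, ⟨(hP x).trans h1, ?_⟩, rfl⟩
  rw [hD]
  exact (hP _).trans h2

/-- First inclusion. -/
def inl (A B : Type) [NormedAddCommGroup A] [InnerProductSpace ℝ A]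
    [NormedAddCommGroup B] [InnerProductSpace ℝ B] : A →ₗ[ℝ] WithLp 2 (A × B) :=
  (WithLp.linearEquiv 2 ℝ (A × B)).symm.toLinearMap ∘ₗ LinearMap.inl ℝ A B

/-- Second inclusion. -/
def inr (A B : Type) [NormedAddCommGroup A] [InnerProductSpace ℝ A]
    [NormedAddCommGroup B] [InnerProductSpace ℝ B] : B →ₗ[ℝ] WithLp 2 (A × B) :=
  (WithLp.linearEquiv 2 ℝ (A × B)).symm.toLinearMap ∘ₗ LinearMap.inr ℝ A B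

/-- First projection. -/
def pr1 (A B : Type) [NormedAddCommGroup A] [InnerProductSpace ℝ A]
    [NormedAddCommGroup B] [InnerProductSpace ℝ B] : WithLp 2 (A × B) →ₗ[ℝ] A :=
  LinearMap.fst ℝ A B ∘ₗ (WithLp.linearEquiv 2 ℝ (A × B)).toLinearMap

/-- Second projection. -/
def pr2 (A B : Type) [NormedAddCommGroup A] [InnerProductSpace ℝ A]
    [NormedAddCommGroup B] [InnerProductSpace ℝ B] : WithLp 2 (A × B) →ₗ[ℝ] B :=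
  LinearMap.snd ℝ A B ∘ₗ (WithLp.linearEquiv 2 ℝ (A × B)).toLinearMap

@[simp] theorem pr1_inl (x : A) : pr1 A B (inl A B x) = x := rfl
@[simp] theorem pr1_inr (y : B) : pr1 A B (inr A B y) = 0 := rfl
@[simp] theorem pr2_inl (x : A) : pr2 A B (inl A B x) = 0 := rfl
@[simp] theorem pr2_inr (y : B) : pr2 A B (inr A B y) = y := rfl

theorem inner_eq (z w : WithLp 2 (A × B)) :
    ⟪z, w⟫ = ⟪pr1 A B z, pr1 A B w⟫ + ⟪pr2 A B z, pr2 A B w⟫ :=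
  WithLp.prod_inner_apply z w

theorem ext' {z w : WithLp 2 (A × B)} (h1 : pr1 A B z = pr1 A B w) (h2 : pr2 A B z = pr2 A B w) :
    z = w := by
  apply (WithLp.linearEquiv 2 ℝ (A × B)).injective
  exact Prod.ext h1 h2

theorem decomp (z : WithLp 2 (A × B)) : z = inl A B (pr1 A B z) + inr A B (pr2 A B z) := by
  apply ext' <;> simp

theorem norm_sq_eq (z : WithLp 2 (A × B)) : ‖z‖ ^ 2 = ‖pr1 A B z‖ ^ 2 + ‖pr2 A B z‖ ^ 2 := by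
  rw [← real_inner_self_eq_norm_sq, inner_eq, real_inner_self_eq_norm_sq,
    real_inner_self_eq_norm_sq]

theorem norm_pr1 (z : WithLp 2 (A × B)) : ‖pr1 A B z‖ ≤ ‖z‖ := by
  have h := norm_sq_eq z
  exact (sq_le_sq₀ (norm_nonneg _) (norm_nonneg _)).1 (by nlinarith [sq_nonneg ‖pr2 A B z‖])

theorem norm_pr2 (z : WithLp 2 (A × B)) : ‖pr2 A B z‖ ≤ ‖z‖ := by
  have h := norm_sq_eq z
  exact (sq_le_sq₀ (norm_nonneg _) (norm_nonneg _)).1 (by nlinarith [sq_nonneg ‖pr1 A B z‖])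

theorem inner_inl (x y : A) : ⟪inl A B x, inl A B y⟫ = ⟪x, y⟫ := by
  rw [inner_eq]; simp

theorem inner_inr (x y : B) : ⟪inr A B x, inr A B y⟫ = ⟪x, y⟫ := by
  rw [inner_eq]; simp

theorem inner_inl_inr (x : A) (y : B) : ⟪inl A B x, inr A B y⟫ = 0 := by
  rw [inner_eq]; simp

theorem bdd_pr1 : Bdd (pr1 A B) := ⟨1, fun z => by simpa using norm_pr1 z⟩

theorem bdd_pr2 : Bdd (pr2 A B) := ⟨1, fun z => by simpa using norm_pr2 z⟩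

theorem bdd_inl : Bdd (inl A B) :=
  ⟨1, fun z => by rw [norm_eq_of_inner _ inner_inl, one_mul]⟩

theorem bdd_inr : Bdd (inr A B) :=
  ⟨1, fun z => by rw [norm_eq_of_inner _ inner_inr, one_mul]⟩

/-- Block diagonal operator. -/
def dg (S : A →ₗ[ℝ] A) (T : B →ₗ[ℝ] B) : WithLp 2 (A × B) →ₗ[ℝ] WithLp 2 (A × B) :=
  inl A B ∘ₗ S ∘ₗ pr1 A B + inr A B ∘ₗ T ∘ₗ pr2 A B

@[simp] theorem pr1_dg (S : A →ₗ[ℝ] A) (T : B →ₗ[ℝ] B) (z : WithLp 2 (A × B)) :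
    pr1 A B (dg S T z) = S (pr1 A B z) := by simp [dg]

@[simp] theorem pr2_dg (S : A →ₗ[ℝ] A) (T : B →ₗ[ℝ] B) (z : WithLp 2 (A × B)) :
    pr2 A B (dg S T z) = T (pr2 A B z) := by simp [dg]

theorem fred_dg {D₁ ε₁ : A →ₗ[ℝ] A} {D₂ ε₂ : B →ₗ[ℝ] B} (h₁ : Fred D₁ ε₁) (h₂ : Fred D₂ ε₂) :
    Fred (dg D₁ D₂) (dg ε₁ ε₂) ∧ ind (dg D₁ D₂) (dg ε₁ ε₂) = ind D₁ ε₁ + ind D₂ ε₂ := by
  refine ind_add h₁ h₂ (inl A B) (inr A B) inner_inl inner_inr inner_inl_inr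
    (fun z => ⟨_, _, decomp z⟩) ?_ ?_ ?_ ?_ <;>
  · intro x
    apply ext' <;> simp

end CPAux

/-- A unitary that intertwines two operators up to a bounded graph-compact error. -/
theorem ind_eq_of_unitary_cpt {C' : Type} [NormedAddCommGroup C'] [InnerProductSpace ℝ C']
    {D ε : C →ₗ[ℝ] C} {D' ε' : C' →ₗ[ℝ] C'} (h : Fred D ε) (h' : Fred D' ε')
    (U : C →ₗ[ℝ] C') (hi : ∀ x y, ⟪U x, U y⟫ = ⟪x, y⟫) (hs : Function.Surjective U)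
    (he : ∀ x, ε' (U x) = U (ε x)) (hb : Bdd (D' ∘ₗ U - U ∘ₗ D))
    (hc : GCpt D (D' ∘ₗ U - U ∘ₗ D)) : ind D' ε' = ind D ε := by
  have hn := CPAux.norm_eq_of_inner U hi
  have hinj : Function.Injective U := by
    intro x y hxy
    have h0 : ‖x - y‖ = 0 := by rw [← hn, map_sub, hxy, sub_self, norm_zero]
    exact sub_eq_zero.1 (norm_eq_zero.1 h0)
  let e : C ≃ₗ[ℝ] C' := LinearEquiv.ofBijective U ⟨hinj, hs⟩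
  let V : C' →ₗ[ℝ] C := e.symm.toLinearMap
  have hUV : ∀ z, U (V z) = z := fun z => e.apply_symm_apply z
  have hVb : Bdd V := ⟨1, fun z => by rw [← hn, hUV, one_mul]⟩
  let K : C →ₗ[ℝ] C := V ∘ₗ (D' ∘ₗ U - U ∘ₗ D)
  have hUK : ∀ x, U (K x) = D' (U x) - U (D x) := fun x => hUV _
  have hKs : Sym K := by
    intro x y
    rw [← hi (K x) y, ← hi x (K y), hUK, hUK, inner_sub_left, inner_sub_right, h'.sym, hi, hi,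
      h.sym]
  have hKo : ∀ x, K (ε x) = -ε (K x) := by
    intro x
    apply hinj
    rw [hUK, map_neg, ← he (K x), hUK, ← he x, h'.odd, h.odd, map_neg, ← he (D x), map_sub]
    abel
  have hKb : Bdd K := CPAux.bdd_comp hVb hb
  have hKc : GCpt D K := hc.comp_bdd hVb
  have hP : ∀ t : ℝ, Proper (D + t • K) := by
    intro t
    have hS : Bdd (t • (LinearMap.id : C →ₗ[ℝ] C)) :=
      ⟨|t|, fun x => by simp [norm_smul]⟩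
    have hE : t • K = (t • (LinearMap.id : C →ₗ[ℝ] C)) ∘ₗ K := by
      ext x; simp
    rw [hE]
    exact h.proper.add_cpt (CPAux.bdd_comp hS hKb) (hKc.comp_bdd hS)
  have h1 : ind (D + K) ε = ind D ε := h.ind_homotopy hKs hKb hKo fun t _ => hP t
  have hF : Fred (D + K) ε :=
    { sym := fun x y => by
        rw [LinearMap.add_apply, LinearMap.add_apply, inner_add_left, inner_add_right, h.sym, hKs]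
      εsym := h.εsym
      εsq := h.εsq
      odd := fun x => by
        rw [LinearMap.add_apply, LinearMap.add_apply, h.odd, hKo, map_add]; abel
      esa := h.esa.add_bdd hKs hKb
      proper := h.proper.add_cpt hKb hKc }
  have h2 := (ind_unitary (D := D') (ε := ε') hF U hi hs
    (fun x => by rw [LinearMap.add_apply, map_add, hUK]; abel) he).2
  rw [h2, h1]

variable {C₁ C₂ C₃ C₄ : Type} [NormedAddCommGroup C₁] [InnerProductSpace ℝ C₁]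
  [NormedAddCommGroup C₂] [InnerProductSpace ℝ C₂] [NormedAddCommGroup C₃] [InnerProductSpace ℝ C₃]
  [NormedAddCommGroup C₄] [InnerProductSpace ℝ C₄]

/-- The matrix `(u₁₃, u₂₃; u₁₄, u₂₄)` is a unitary `C₁ ⊕ C₂ → C₃ ⊕ C₄`. -/
theorem ind_cut_paste {D₁ ε₁ : C₁ →ₗ[ℝ] C₁} {D₂ ε₂ : C₂ →ₗ[ℝ] C₂} {D₃ ε₃ : C₃ →ₗ[ℝ] C₃}
    {D₄ ε₄ : C₄ →ₗ[ℝ] C₄} (h₁ : Fred D₁ ε₁) (h₂ : Fred D₂ ε₂) (h₃ : Fred D₃ ε₃) (h₄ : Fred D₄ ε₄)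
    (u₁₃ : C₁ →ₗ[ℝ] C₃) (u₂₃ : C₂ →ₗ[ℝ] C₃) (u₁₄ : C₁ →ₗ[ℝ] C₄) (u₂₄ : C₂ →ₗ[ℝ] C₄)
    (i₁ : ∀ x y, ⟪u₁₃ x, u₁₃ y⟫ + ⟪u₁₄ x, u₁₄ y⟫ = ⟪x, y⟫)
    (i₂ : ∀ x y, ⟪u₂₃ x, u₂₃ y⟫ + ⟪u₂₄ x, u₂₄ y⟫ = ⟪x, y⟫)
    (i₁₂ : ∀ x y, ⟪u₁₃ x, u₂₃ y⟫ + ⟪u₁₄ x, u₂₄ y⟫ = 0)
    (hs : ∀ z w, ∃ x y, u₁₃ x + u₂₃ y = z ∧ u₁₄ x + u₂₄ y = w)
    (e₁₃ : ∀ x, ε₃ (u₁₃ x) = u₁₃ (ε₁ x)) (e₂₃ : ∀ x, ε₃ (u₂₃ x) = u₂₃ (ε₂ x))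
    (e₁₄ : ∀ x, ε₄ (u₁₄ x) = u₁₄ (ε₁ x)) (e₂₄ : ∀ x, ε₄ (u₂₄ x) = u₂₄ (ε₂ x))
    (b₁₃ : Bdd (D₃ ∘ₗ u₁₃ - u₁₃ ∘ₗ D₁)) (c₁₃ : GCpt D₁ (D₃ ∘ₗ u₁₃ - u₁₃ ∘ₗ D₁))
    (b₂₃ : Bdd (D₃ ∘ₗ u₂₃ - u₂₃ ∘ₗ D₂)) (c₂₃ : GCpt D₂ (D₃ ∘ₗ u₂₃ - u₂₃ ∘ₗ D₂))
    (b₁₄ : Bdd (D₄ ∘ₗ u₁₄ - u₁₄ ∘ₗ D₁)) (c₁₄ : GCpt D₁ (D₄ ∘ₗ u₁₄ - u₁₄ ∘ₗ D₁))
    (b₂₄ : Bdd (D₄ ∘ₗ u₂₄ - u₂₄ ∘ₗ D₂)) (c₂₄ : GCpt D₂ (D₄ ∘ₗ u₂₄ - u₂₄ ∘ₗ D₂)) :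
    ind D₁ ε₁ + ind D₂ ε₂ = ind D₃ ε₃ + ind D₄ ε₄ := by
  obtain ⟨hA, iA⟩ := CPAux.fred_dg h₁ h₂
  obtain ⟨hB, iB⟩ := CPAux.fred_dg h₃ h₄
  rw [← iA, ← iB]
  let U : WithLp 2 (C₁ × C₂) →ₗ[ℝ] WithLp 2 (C₃ × C₄) :=
    CPAux.inl C₃ C₄ ∘ₗ (u₁₃ ∘ₗ CPAux.pr1 C₁ C₂ + u₂₃ ∘ₗ CPAux.pr2 C₁ C₂) +
      CPAux.inr C₃ C₄ ∘ₗ (u₁₄ ∘ₗ CPAux.pr1 C₁ C₂ + u₂₄ ∘ₗ CPAux.pr2 C₁ C₂)
  have U1 : ∀ z, CPAux.pr1 C₃ C₄ (U z) =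
      u₁₃ (CPAux.pr1 C₁ C₂ z) + u₂₃ (CPAux.pr2 C₁ C₂ z) := fun z => by simp [U]
  have U2 : ∀ z, CPAux.pr2 C₃ C₄ (U z) =
      u₁₄ (CPAux.pr1 C₁ C₂ z) + u₂₄ (CPAux.pr2 C₁ C₂ z) := fun z => by simp [U]
  have hE : CPAux.dg D₃ D₄ ∘ₗ U - U ∘ₗ CPAux.dg D₁ D₂ =
      CPAux.inl C₃ C₄ ∘ₗ ((D₃ ∘ₗ u₁₃ - u₁₃ ∘ₗ D₁) ∘ₗ CPAux.pr1 C₁ C₂ +
          (D₃ ∘ₗ u₂₃ - u₂₃ ∘ₗ D₂) ∘ₗ CPAux.pr2 C₁ C₂) +
        CPAux.inr C₃ C₄ ∘ₗ ((D₄ ∘ₗ u₁₄ - u₁₄ ∘ₗ D₁) ∘ₗ CPAux.pr1 C₁ C₂ +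
          (D₄ ∘ₗ u₂₄ - u₂₄ ∘ₗ D₂) ∘ₗ CPAux.pr2 C₁ C₂) := by
    refine LinearMap.ext fun z => ?_
    apply CPAux.ext'
    · simp only [LinearMap.sub_apply, LinearMap.comp_apply, LinearMap.add_apply, map_sub, map_add,
        CPAux.pr1_dg, CPAux.pr2_dg, U1, CPAux.pr1_inl, CPAux.pr1_inr]
      abel
    · simp only [LinearMap.sub_apply, LinearMap.comp_apply, LinearMap.add_apply, map_sub, map_add,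
        CPAux.pr1_dg, CPAux.pr2_dg, U2, CPAux.pr2_inl, CPAux.pr2_inr]
      abel
  symm
  refine ind_eq_of_unitary_cpt hA hB U ?_ ?_ ?_ ?_ ?_
  · intro z w
    rw [CPAux.inner_eq, CPAux.inner_eq z w, U1, U1, U2, U2]
    simp only [inner_add_left, inner_add_right]
    have a1 := i₁ (CPAux.pr1 C₁ C₂ z) (CPAux.pr1 C₁ C₂ w)
    have a2 := i₂ (CPAux.pr2 C₁ C₂ z) (CPAux.pr2 C₁ C₂ w)
    have a3 := i₁₂ (CPAux.pr1 C₁ C₂ z) (CPAux.pr2 C₁ C₂ w)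
    have a4 := i₁₂ (CPAux.pr1 C₁ C₂ w) (CPAux.pr2 C₁ C₂ z)
    rw [real_inner_comm (u₂₃ _), real_inner_comm (u₂₄ _)] at a4
    linarith
  · intro v
    obtain ⟨x, y, hx, hy⟩ := hs (CPAux.pr1 C₃ C₄ v) (CPAux.pr2 C₃ C₄ v)
    refine ⟨CPAux.inl C₁ C₂ x + CPAux.inr C₁ C₂ y, CPAux.ext' ?_ ?_⟩
    · rw [U1, ← hx]; simp
    · rw [U2, ← hy]; simp
  · intro z
    apply CPAux.ext'
    · rw [CPAux.pr1_dg, U1, U1, CPAux.pr1_dg, CPAux.pr2_dg, map_add, e₁₃, e₂₃]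
    · rw [CPAux.pr2_dg, U2, U2, CPAux.pr1_dg, CPAux.pr2_dg, map_add, e₁₄, e₂₄]
  · rw [hE]
    exact CPAux.bdd_add
      (CPAux.bdd_comp CPAux.bdd_inl (CPAux.bdd_add (CPAux.bdd_comp b₁₃ CPAux.bdd_pr1)
        (CPAux.bdd_comp b₂₃ CPAux.bdd_pr2)))
      (CPAux.bdd_comp CPAux.bdd_inr (CPAux.bdd_add (CPAux.bdd_comp b₁₄ CPAux.bdd_pr1)
        (CPAux.bdd_comp b₂₄ CPAux.bdd_pr2)))
  · rw [hE]
    have p1 : ∀ z, D₁ (CPAux.pr1 C₁ C₂ z) = CPAux.pr1 C₁ C₂ (CPAux.dg D₁ D₂ z) :=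
      fun z => (CPAux.pr1_dg D₁ D₂ z).symm
    have p2 : ∀ z, D₂ (CPAux.pr2 C₁ C₂ z) = CPAux.pr2 C₁ C₂ (CPAux.dg D₁ D₂ z) :=
      fun z => (CPAux.pr2_dg D₁ D₂ z).symm
    exact GCpt.add
      (((CPAux.gcpt_comp_right c₁₃ _ CPAux.norm_pr1 p1).add
        (CPAux.gcpt_comp_right c₂₃ _ CPAux.norm_pr2 p2)).comp_bdd CPAux.bdd_inl)
      (((CPAux.gcpt_comp_right c₁₄ _ CPAux.norm_pr1 p1).add
        (CPAux.gcpt_comp_right c₂₄ _ CPAux.norm_pr2 p2)).comp_bdd CPAux.bdd_inr)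

end SZ
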