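import Pool.Agent.P.MP_8db816_gt.SZ.Abs0

/-! Criteria for essential self-adjointness and for properness. -/

noncomputable section

namespace SZ

open UniformSpace Filter Topology
open scoped RealInnerProductSpace

variable {C : Type} [NormedAddCommGroup C] [InnerProductSpace ℝ C]

namespace AbsESA

theorem exists_ext (T : C →ₗ[ℝ] C) (c : ℝ) (h : ∀ x, ‖T x‖ ≤ c * ‖x‖) :
    ∃ T' : Completion C →L[ℝ] Completion C,
      (∀ x : C, T' (x : Completion C) = ((T x : C) : Completion C)) ∧ ∀ u, ‖T' u‖ ≤ c * ‖u‖ := by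
  refine ⟨(T.mkContinuous c h).completion, fun x => by simp, fun u => ?_⟩
  induction u using Completion.induction_on with
  | hp => exact isClosed_le (by fun_prop) (by fun_prop)
  | ih x => simpa using h x

theorem exists_riesz (l : C →ₗ[ℝ] ℝ) (c : ℝ) (h : ∀ x, ‖l x‖ ≤ c * ‖x‖) :
    ∃ v : Completion C, ∀ x : C, ⟪v, (x : Completion C)⟫ = l x := by
  refine ⟨(InnerProductSpace.toDual ℝ (Completion C)).symm (l.mkContinuous c h).fromCompletion,
    fun x => ?_⟩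
  rw [InnerProductSpace.toDual_symm_apply]
  simp

theorem norm_le_of_inner {v : Completion C} {c : ℝ} (hc : 0 ≤ c)
    (h : ∀ x : C, |⟪v, (x : Completion C)⟫| ≤ c * ‖x‖) : ‖v‖ ≤ c := by
  have h1 : ∀ a : Completion C, |⟪v, a⟫| ≤ c * ‖a‖ := by
    intro a
    induction a using Completion.induction_on with
    | hp => exact isClosed_le (by fun_prop) (by fun_prop)
    | ih x => simpa using h x
  have h2 := h1 v
  rw [real_inner_self_eq_norm_mul_norm, abs_of_nonneg (by positivity)] at h2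
  rcases (norm_nonneg v).eq_or_lt with h0 | h0
  · rw [← h0]; exact hc
  · exact le_of_mul_le_mul_right h2 h0

theorem exists_near (a : Completion C) {η : ℝ} (hη : 0 < η) :
    ∃ x : C, ‖a - (x : Completion C)‖ < η := by
  obtain ⟨x, hx⟩ := Metric.denseRange_iff.1 (Completion.denseRange_coe (α := C)) a η hη
  exact ⟨x, by rwa [dist_eq_norm] at hx⟩

theorem tendsto_inner {u : Completion C} (v : ℕ → Completion C) (c : ℝ) (hv : ∀ k, ‖v k‖ ≤ c)
    (hu : ∀ ψ : C, Tendsto (fun k => ⟪v k, (ψ : Completion C)⟫) atTop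
      (𝓝 ⟪u, (ψ : Completion C)⟫)) (a : Completion C) :
    Tendsto (fun k => ⟪v k, a⟫) atTop (𝓝 ⟪u, a⟫) := by
  have hc : 0 ≤ c := (norm_nonneg _).trans (hv 0)
  rw [Metric.tendsto_atTop]
  intro ε hε
  have hpos : 0 < c + ‖u‖ + 1 := by positivity
  obtain ⟨x, hx⟩ := exists_near a (show 0 < ε / 2 / (c + ‖u‖ + 1) by positivity)
  obtain ⟨N, hN⟩ := Metric.tendsto_atTop.1 (hu x) (ε / 2) (by positivity)
  refine ⟨N, fun k hk => ?_⟩
  have h1 := hN k hk
  rw [Real.dist_eq] at h1 ⊢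
  have e : ⟪v k, a⟫ - ⟪u, a⟫ = (⟪v k, (x : Completion C)⟫ - ⟪u, (x : Completion C)⟫)
      + ⟪v k - u, a - x⟫ := by
    simp only [inner_sub_left, inner_sub_right]; ring
  have h2 : |⟪v k - u, a - x⟫| ≤ ε / 2 := by
    refine (abs_real_inner_le_norm _ _).trans ?_
    have h3 : ‖v k - u‖ ≤ c + ‖u‖ + 1 := by
      have := norm_sub_le (v k) u
      have := hv k
      linarith
    calc ‖v k - u‖ * ‖a - x‖ ≤ (c + ‖u‖ + 1) * (ε / 2 / (c + ‖u‖ + 1)) :=
          mul_le_mul h3 hx.le (norm_nonneg _) hpos.le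
      _ = ε / 2 := by field_simp
  rw [e]
  have := abs_add_le (⟪v k, (x : Completion C)⟫ - ⟪u, (x : Completion C)⟫) ⟪v k - u, a - x⟫
  linarith

/-- the closure of the graph as a submodule -/
def gsub (D : C →ₗ[ℝ] C) : Submodule ℝ (Completion C × Completion C) :=
  (LinearMap.range (((Completion.toComplL : C →L[ℝ] Completion C) : C →ₗ[ℝ] Completion C).prod
    (((Completion.toComplL : C →L[ℝ] Completion C) : C →ₗ[ℝ] Completion C) ∘ₗ D))).topologicalClosure

theorem coe_gsub (D : C →ₗ[ℝ] C) : (gsub D : Set (Completion C × Completion C)) = gcl D := by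
  unfold gsub gcl
  rw [Submodule.topologicalClosure_coe, LinearMap.coe_range]
  rfl

theorem mem_gsub {D : C →ₗ[ℝ] C} {p : Completion C × Completion C} : p ∈ gsub D ↔ p ∈ gcl D := by
  rw [← coe_gsub]; rfl

theorem graph_mem (D : C →ₗ[ℝ] C) (ψ : C) :
    ((ψ : Completion C), ((D ψ : C) : Completion C)) ∈ gcl D :=
  subset_closure ⟨ψ, rfl⟩

theorem ann_gcl {D : C →ₗ[ℝ] C} {a b : Completion C}
    (h : ∀ ψ : C, ⟪(ψ : Completion C), a⟫ + ⟪((D ψ : C) : Completion C), b⟫ = 0)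
    {p : Completion C × Completion C} (hp : p ∈ gcl D) : ⟪p.1, a⟫ + ⟪p.2, b⟫ = 0 := by
  have hcl : IsClosed {p : Completion C × Completion C | ⟪p.1, a⟫ + ⟪p.2, b⟫ = 0} :=
    isClosed_eq (by fun_prop) continuous_const
  refine closure_minimal (t := {p : Completion C × Completion C | ⟪p.1, a⟫ + ⟪p.2, b⟫ = 0})
    ?_ hcl hp
  rintro _ ⟨ψ, rfl⟩
  exact h ψ

theorem mem_gcl_of_ann {D : C →ₗ[ℝ] C} {u f : Completion C}
    (h : ∀ a b : Completion C,
      (∀ ψ : C, ⟪(ψ : Completion C), a⟫ + ⟪((D ψ : C) : Completion C), b⟫ = 0) →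
      ⟪u, a⟫ + ⟪f, b⟫ = 0) : (u, f) ∈ gcl D := by
  by_contra hn
  rw [← coe_gsub] at hn
  obtain ⟨l, t, h1, h2⟩ := geometric_hahn_banach_closed_point (gsub D).convex
    (Submodule.isClosed_topologicalClosure _) hn
  have ht : 0 < t := by simpa using h1 0 (gsub D).zero_mem
  have h0 : ∀ p ∈ gsub D, l p = 0 := by
    intro p hp
    by_contra hne
    have := h1 ((t / l p) • p) ((gsub D).smul_mem _ hp)
    rw [map_smul, smul_eq_mul, div_mul_cancel₀ _ hne] at this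
    exact lt_irrefl _ this
  set a := (InnerProductSpace.toDual ℝ (Completion C)).symm
    (l.comp (ContinuousLinearMap.inl ℝ _ _)) with ha
  set b := (InnerProductSpace.toDual ℝ (Completion C)).symm
    (l.comp (ContinuousLinearMap.inr ℝ _ _)) with hb
  have key : ∀ x y : Completion C, ⟪x, a⟫ + ⟪y, b⟫ = l (x, y) := by
    intro x y
    rw [real_inner_comm, real_inner_comm b, ha, hb, InnerProductSpace.toDual_symm_apply,
      InnerProductSpace.toDual_symm_apply]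
    simp only [ContinuousLinearMap.comp_apply, ContinuousLinearMap.inl_apply,
      ContinuousLinearMap.inr_apply]
    rw [← map_add]
    simp
  have h3 := h a b fun ψ => by
    rw [key]
    exact h0 _ (mem_gsub.2 (graph_mem D ψ))
  rw [key] at h3
  linarith

theorem tb_scale {C' : Type} [NormedAddCommGroup C'] [InnerProductSpace ℝ C']
    {D : C →ₗ[ℝ] C} {T : C →ₗ[ℝ] C'} (h : GCpt D T) (R : ℝ) :
    TotallyBounded (T '' {ψ | ‖ψ‖ ≤ R ∧ ‖D ψ‖ ≤ R}) := by
  have hpos : 0 < |R| + 1 := by positivity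
  have hR : R ≤ |R| + 1 := (le_abs_self R).trans (by linarith)
  refine (h.image (uniformContinuous_const_smul (|R| + 1))).subset ?_
  rintro _ ⟨ψ, ⟨h1, h2⟩, rfl⟩
  refine ⟨T ((|R| + 1)⁻¹ • ψ), ⟨_, ⟨?_, ?_⟩, rfl⟩, ?_⟩
  · rw [norm_smul, norm_inv, Real.norm_of_nonneg hpos.le, inv_mul_le_iff₀ hpos]
    linarith
  · rw [map_smul, norm_smul, norm_inv, Real.norm_of_nonneg hpos.le, inv_mul_le_iff₀ hpos]
    linarith
  · simp only [map_smul, smul_smul, mul_inv_cancel₀ hpos.ne', one_smul]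

theorem exists_cauchy_subseq {C' : Type} [NormedAddCommGroup C'] {s : Set C'}
    (hs : TotallyBounded s) (x : ℕ → C') (hx : ∀ k, x k ∈ s) :
    ∃ φ : ℕ → ℕ, StrictMono φ ∧ CauchySeq (x ∘ φ) := by
  have h1 : IsCompact (closure ((fun y : C' => (y : Completion C')) '' s)) :=
    (hs.image (Completion.uniformContinuous_coe C')).closure.isCompact_of_isClosed isClosed_closure
  obtain ⟨a, -, φ, hφ, ha⟩ := h1.tendsto_subseq (x := fun k => (x k : Completion C'))
    fun k => subset_closure ⟨x k, hx k, rfl⟩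
  refine ⟨φ, hφ, ?_⟩
  have h2 := ha.cauchySeq
  rw [Metric.cauchySeq_iff] at h2 ⊢
  intro ε hε
  obtain ⟨N, hN⟩ := h2 ε hε
  refine ⟨N, fun m hm n hn => ?_⟩
  have := hN m hm n hn
  simpa [Completion.dist_eq] using this

theorem bdd_of_cauchy {E : Type} [NormedAddCommGroup E] {x : ℕ → E} (h : CauchySeq x) :
    ∃ R : ℝ, ∀ k, ‖x k‖ ≤ R := by
  obtain ⟨R, hR⟩ := h.isBounded_range.exists_norm_le
  exact ⟨R, fun k => hR _ ⟨k, rfl⟩⟩

theorem tb_add {E : Type} [NormedAddCommGroup E] {s t : Set E} (hs : TotallyBounded s)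
    (ht : TotallyBounded t) : TotallyBounded (Set.image2 (fun x y => x + y) s t) := by
  rw [Metric.totallyBounded_iff] at hs ht ⊢
  intro ε hε
  obtain ⟨A, hA, hsA⟩ := hs (ε / 2) (by positivity)
  obtain ⟨B, hB, htB⟩ := ht (ε / 2) (by positivity)
  refine ⟨Set.image2 (fun x y => x + y) A B, hA.image2 _ hB, ?_⟩
  rintro _ ⟨x, hx, y, hy, rfl⟩
  obtain ⟨a, ha, hxa⟩ := Set.mem_iUnion₂.1 (hsA hx)
  obtain ⟨b, hb, hyb⟩ := Set.mem_iUnion₂.1 (htB hy)
  refine Set.mem_iUnion₂.2 ⟨a + b, ⟨a, ha, b, hb, rfl⟩, ?_⟩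
  rw [Metric.mem_ball] at hxa hyb ⊢
  have := dist_add_add_le x y a b
  linarith

end AbsESA

open AbsESA

/-- A weak limit (against `C`) of a graph-bounded sequence lies in the domain of the closure. -/
theorem mem_gcl_of_weak_lim {D : C →ₗ[ℝ] C} (hD : Sym D) {u f : Completion C}
    (v g : ℕ → Completion C) (hvg : ∀ k, (v k, g k) ∈ gcl D) (c : ℝ) (hv : ∀ k, ‖v k‖ ≤ c)
    (hg : ∀ k, ‖g k‖ ≤ c)
    (hu : ∀ ψ : C, Tendsto (fun k => ⟪v k, (ψ : Completion C)⟫) atTop (𝓝 ⟪u, (ψ : Completion C)⟫))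
    (hf : ∀ ψ : C, Tendsto (fun k => ⟪g k, (ψ : Completion C)⟫) atTop (𝓝 ⟪f, (ψ : Completion C)⟫)) :
    (u, f) ∈ gcl D := by
  have _ := hD
  refine mem_gcl_of_ann fun a b hab => ?_
  have h1 := (tendsto_inner v c hv hu a).add (tendsto_inner g c hg hf b)
  have h2 : (fun k => ⟪v k, a⟫ + ⟪g k, b⟫) = fun _ => (0 : ℝ) :=
    funext fun k => ann_gcl hab (hvg k)
  rw [h2] at h1
  exact (tendsto_nhds_unique tendsto_const_nhds h1).symm

/-- Strong solutions are weak solutions. -/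
theorem weak_of_gcl {D : C →ₗ[ℝ] C} (hD : Sym D) {u f : Completion C} (h : (u, f) ∈ gcl D) :
    Weak D u f := by
  intro χ
  have h1 := ann_gcl (D := D) (a := ((D χ : C) : Completion C)) (b := -(χ : Completion C))
    (fun ψ => by
      rw [inner_neg_right, Completion.inner_coe, Completion.inner_coe, hD ψ χ, add_neg_cancel]) h
  rw [inner_neg_right] at h1
  exact add_neg_eq_zero.1 h1

/-- A family of mollifiers regularises. -/
theorem reg_of_moll {D M : C →ₗ[ℝ] C} (hD : Sym D) (J J' : ℕ → C →ₗ[ℝ] C) (c : ℝ)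
    (hadj : ∀ k x y, ⟪J k x, y⟫ = ⟪x, J' k y⟫) (hJ : ∀ k x, ‖J k x‖ ≤ c * ‖x‖)
    (hDJ : ∀ k, Bdd (D ∘ₗ J k)) (hcom : ∀ k x, ‖D (J k x) - J k (D x)‖ ≤ c * ‖x‖)
    (hlim : ∀ y, Tendsto (fun k => J' k y) atTop (𝓝 (M y))) : Reg D M := by
  intro u f huf
  choose Jx hJx hJn using fun k => exists_ext (J k) c (hJ k)
  choose cA hcA using hDJ
  choose Ax hAx _ using fun k => exists_ext (D ∘ₗ J k) (cA k) (hcA k)
  choose Bx hBx hBn using fun k => exists_ext (D ∘ₗ J k - J k ∘ₗ D) c (hcom k)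
  have hmem : ∀ k w, (Jx k w, Ax k w) ∈ gcl D := by
    intro k w
    induction w using Completion.induction_on with
    | hp => exact isClosed_closure.preimage (f := fun w => (Jx k w, Ax k w)) (by fun_prop)
    | ih x => rw [hJx, hAx]; exact graph_mem D _
  have hJa : ∀ k w (χ : C), ⟪Jx k w, (χ : Completion C)⟫ = ⟪w, ((J' k χ : C) : Completion C)⟫ := by
    intro k w χ
    induction w using Completion.induction_on with
    | hp => exact isClosed_eq (by fun_prop) (by fun_prop)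
    | ih x => rw [hJx, Completion.inner_coe, Completion.inner_coe, hadj]
  have hAB : ∀ k w (χ : C), ⟪Ax k w, (χ : Completion C)⟫ = ⟪Bx k w, (χ : Completion C)⟫
      + ⟪w, ((D (J' k χ) : C) : Completion C)⟫ := by
    intro k w χ
    induction w using Completion.induction_on with
    | hp => exact isClosed_eq (by fun_prop) (by fun_prop)
    | ih x =>
      rw [hAx, hBx, Completion.inner_coe, Completion.inner_coe, Completion.inner_coe, ← hD,
        ← hadj, LinearMap.sub_apply, inner_sub_left]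
      simp
  have hg : ∀ k, Ax k u = Bx k u + Jx k f := by
    intro k
    refine (Completion.denseRange_coe (α := C)).eq_of_inner_left ℝ fun χ => ?_
    rw [hAB, inner_add_left, hJa, huf]
  have hb1 : ∀ k, ‖Jx k u‖ ≤ |c| * ‖u‖ + |c| * ‖f‖ := by
    intro k
    have h1 := hJn k u
    have h2 : c * ‖u‖ ≤ |c| * ‖u‖ := mul_le_mul_of_nonneg_right (le_abs_self c) (norm_nonneg _)
    have h3 : 0 ≤ |c| * ‖f‖ := by positivity
    linarith
  have hb2 : ∀ k, ‖Ax k u‖ ≤ |c| * ‖u‖ + |c| * ‖f‖ := by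
    intro k
    have h1 := hBn k u
    have h1' := hJn k f
    have h2 : c * ‖u‖ ≤ |c| * ‖u‖ := mul_le_mul_of_nonneg_right (le_abs_self c) (norm_nonneg _)
    have h3 : c * ‖f‖ ≤ |c| * ‖f‖ := mul_le_mul_of_nonneg_right (le_abs_self c) (norm_nonneg _)
    have := norm_add_le (Bx k u) (Jx k f)
    rw [hg]
    linarith
  have hl1 : ∀ χ : C, Tendsto (fun k => ⟪Jx k u, (χ : Completion C)⟫) atTop
      (𝓝 ⟪u, ((M χ : C) : Completion C)⟫) := by
    intro χ
    simp only [hJa]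
    exact tendsto_const_nhds.inner (((Completion.continuous_coe C).tendsto _).comp (hlim χ))
  have hbd : ∀ (w : ℕ → Completion C) (R t : ℝ) (χ : C), (∀ k, ‖w k‖ ≤ R) →
      Tendsto (fun k => ⟪w k, (χ : Completion C)⟫) atTop (𝓝 t) → ‖t‖ ≤ R * ‖χ‖ := by
    intro w R t χ hw ht
    refine le_of_tendsto' ht.norm fun k => (norm_inner_le_norm _ _).trans ?_
    rw [Completion.norm_coe]
    exact mul_le_mul_of_nonneg_right (hw k) (norm_nonneg _)
  obtain ⟨v, hv⟩ := exists_riesz ((innerSL ℝ u).toLinearMap ∘ₗ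
    ((Completion.toComplL : C →L[ℝ] Completion C) : C →ₗ[ℝ] Completion C) ∘ₗ M) _
    fun χ => hbd _ _ _ χ hb1 (hl1 χ)
  have hv' : ∀ χ : C, ⟪v, (χ : Completion C)⟫ = ⟪u, ((M χ : C) : Completion C)⟫ := hv
  have hl2 : ∀ χ : C, Tendsto (fun k => ⟪Ax k u, (χ : Completion C)⟫) atTop
      (𝓝 ⟪v, ((D χ : C) : Completion C)⟫) := by
    intro χ
    have h1 := hl1 (D χ)
    rw [← hv'] at h1
    exact h1.congr fun k => weak_of_gcl hD (hmem k u) χ
  obtain ⟨g, hg'⟩ := exists_riesz ((innerSL ℝ v).toLinearMap ∘ₗ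
    ((Completion.toComplL : C →L[ℝ] Completion C) : C →ₗ[ℝ] Completion C) ∘ₗ D) _
    fun χ => hbd _ _ _ χ hb2 (hl2 χ)
  have hg'' : ∀ χ : C, ⟪g, (χ : Completion C)⟫ = ⟪v, ((D χ : C) : Completion C)⟫ := hg'
  refine ⟨v, g, mem_gcl_of_weak_lim hD (fun k => Jx k u) (fun k => Ax k u) (fun k => hmem k u) _
    hb1 hb2 (fun χ => ?_) (fun χ => ?_), hv'⟩
  · rw [hv']; exact hl1 χ
  · rw [hg'']; exact hl2 χ

theorem reg_zero (D : C →ₗ[ℝ] C) : Reg D 0 := by
  intro u f _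
  refine ⟨0, 0, mem_gsub.1 (gsub D).zero_mem, fun ψ => ?_⟩
  simp [Completion.coe_zero]

theorem Reg.add {D M M' : C →ₗ[ℝ] C} (h : Reg D M) (h' : Reg D M') : Reg D (M + M') := by
  intro u f huf
  obtain ⟨v, g, h1, h2⟩ := h u f huf
  obtain ⟨v', g', h1', h2'⟩ := h' u f huf
  refine ⟨v + v', g + g', mem_gsub.1 ((gsub D).add_mem (mem_gsub.2 h1) (mem_gsub.2 h1')),
    fun ψ => ?_⟩
  rw [inner_add_left, h2, h2', LinearMap.add_apply, Completion.coe_add, inner_add_right]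

theorem reg_sum {D : C →ₗ[ℝ] C} {ι : Type} (s : Finset ι) (M : ι → C →ₗ[ℝ] C)
    (h : ∀ i ∈ s, Reg D (M i)) : Reg D (∑ i ∈ s, M i) :=
  Finset.sum_induction M (Reg D) (fun _ _ => Reg.add) (reg_zero D) h

/-- Cutoffs with small commutators. The cutoff may depend on a finite set of test vectors. -/
theorem esa_of_cutoffs {D : C →ₗ[ℝ] C} (hD : Sym D)
    (h : ∀ (s : Finset C) (δ : ℝ), 0 < δ → ∃ M : C →ₗ[ℝ] C, Reg D M ∧ (∀ x ∈ s, M x = x) ∧
      (∀ x, ‖M x‖ ≤ ‖x‖) ∧ ∀ x, ‖D (M x) - M (D x)‖ ≤ δ * ‖x‖) : ESA D := by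
  classical
  intro u f huf
  refine mem_gcl_of_ann fun a b hab => ?_
  have key : ∀ η : ℝ, 0 < η → η ≤ 1 →
      |⟪u, a⟫ + ⟪f, b⟫| ≤ η * (4 * ‖u‖ + 2 * ‖f‖ + ‖u‖ * ‖b‖) := by
    intro η hη hη1
    obtain ⟨a', ha'⟩ := exists_near a hη
    obtain ⟨b', hb'⟩ := exists_near b hη
    obtain ⟨M, hreg, hfix, hM, hcom⟩ := h {a', b'} η hη
    obtain ⟨v, g, hvg, hv⟩ := hreg u f huf
    have h0 : ⟪v, a⟫ + ⟪g, b⟫ = 0 := ann_gcl hab hvg
    have hvn : ‖v‖ ≤ ‖u‖ := norm_le_of_inner (norm_nonneg _) fun x => by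
      rw [hv]
      refine (abs_real_inner_le_norm _ _).trans ?_
      rw [Completion.norm_coe]
      exact mul_le_mul_of_nonneg_left (hM x) (norm_nonneg _)
    have hgx : ∀ x : C, ⟪g, (x : Completion C)⟫ = ⟪f, ((M x : C) : Completion C)⟫
        - ⟪u, ((D (M x) - M (D x) : C) : Completion C)⟫ := by
      intro x
      rw [← weak_of_gcl hD hvg x, hv, Completion.coe_sub, inner_sub_right, huf]
      ring
    have hcx : ∀ x : C, |⟪u, ((D (M x) - M (D x) : C) : Completion C)⟫| ≤ ‖u‖ * (η * ‖x‖) := by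
      intro x
      refine (abs_real_inner_le_norm _ _).trans ?_
      rw [Completion.norm_coe]
      exact mul_le_mul_of_nonneg_left (hcom x) (norm_nonneg _)
    have hgn : ‖g‖ ≤ ‖f‖ + ‖u‖ * η := norm_le_of_inner (by positivity) fun x => by
      rw [hgx]
      refine (abs_sub _ _).trans ?_
      have h1 : |⟪f, ((M x : C) : Completion C)⟫| ≤ ‖f‖ * ‖x‖ := by
        refine (abs_real_inner_le_norm _ _).trans ?_
        rw [Completion.norm_coe]
        exact mul_le_mul_of_nonneg_left (hM x) (norm_nonneg _)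
      have h2 := hcx x
      linarith
    have e1 : ⟪v, (a' : Completion C)⟫ = ⟪u, (a' : Completion C)⟫ := by
      rw [hv, hfix a' (by simp)]
    have e2 := hgx b'
    have hfb : M b' = b' := hfix b' (by simp)
    have h3 := hcx b'
    set r := ⟪u, ((D (M b') - M (D b') : C) : Completion C)⟫ with hr
    rw [hfb] at e2
    have e : ⟪u, a⟫ + ⟪f, b⟫ = ⟪u - v, a - a'⟫ + ⟪f - g, b - b'⟫ + r := by
      simp only [inner_sub_left, inner_sub_right]
      linarith
    have hu0 := norm_nonneg u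
    have hf0 := norm_nonneg f
    have huη : ‖u‖ * η ≤ ‖u‖ := mul_le_of_le_one_right hu0 hη1
    have h4 : |⟪u - v, a - a'⟫| ≤ (2 * ‖u‖) * η := by
      refine (abs_real_inner_le_norm _ _).trans (mul_le_mul ?_ ha'.le (norm_nonneg _)
        (by positivity))
      have := norm_sub_le u v
      linarith
    have h5 : |⟪f - g, b - b'⟫| ≤ (2 * ‖f‖ + ‖u‖) * η := by
      refine (abs_real_inner_le_norm _ _).trans (mul_le_mul ?_ hb'.le (norm_nonneg _)
        (by positivity))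
      have := norm_sub_le f g
      linarith
    have h6 : ‖b'‖ ≤ ‖b‖ + 1 := by
      have h7 := norm_sub_norm_le (b' : Completion C) b
      rw [norm_sub_rev, Completion.norm_coe] at h7
      linarith
    have h8 : ‖u‖ * (η * ‖b'‖) ≤ ‖u‖ * (η * (‖b‖ + 1)) :=
      mul_le_mul_of_nonneg_left (mul_le_mul_of_nonneg_left h6 hη.le) hu0
    rw [e]
    have h9 := abs_add_three ⟪u - v, a - a'⟫ ⟪f - g, b - b'⟫ r
    linarith
  rw [← abs_nonpos_iff]
  refine le_of_forall_pos_le_add fun ε hε => ?_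
  have hK : 0 ≤ 4 * ‖u‖ + 2 * ‖f‖ + ‖u‖ * ‖b‖ := by positivity
  set K := 4 * ‖u‖ + 2 * ‖f‖ + ‖u‖ * ‖b‖ with hKdef
  have h1 := key (min 1 (ε / (K + 1))) (by positivity) (min_le_left _ _)
  have h2 : min 1 (ε / (K + 1)) * K ≤ ε / (K + 1) * (K + 1) :=
    mul_le_mul (min_le_right _ _) (by linarith) hK (by positivity)
  rw [div_mul_cancel₀ _ (by positivity)] at h2
  linarith

theorem ESA.add_bdd {D K : C →ₗ[ℝ] C} (h : ESA D) (hK : Sym K) (hb : Bdd K) : ESA (D + K) := by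
  intro u f huf
  obtain ⟨c, hc⟩ := hb
  obtain ⟨Kx, hKx, -⟩ := exists_ext K c hc
  have hKa : ∀ w (χ : C), ⟪Kx w, (χ : Completion C)⟫ = ⟪w, ((K χ : C) : Completion C)⟫ := by
    intro w χ
    induction w using Completion.induction_on with
    | hp => exact isClosed_eq (by fun_prop) (by fun_prop)
    | ih x => rw [hKx, Completion.inner_coe, Completion.inner_coe, hK]
  have h1 : Weak D u (f - Kx u) := by
    intro ψ
    have h2 := huf ψ
    rw [LinearMap.add_apply, Completion.coe_add, inner_add_right] at h2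
    rw [inner_sub_left, hKa]
    linarith
  have h2 := map_mem_closure (f := fun p : Completion C × Completion C => (p.1, p.2 + Kx p.1))
    (t := Set.range fun ψ : C => ((ψ : Completion C), (((D + K) ψ : C) : Completion C)))
    (by fun_prop) (h u _ h1) (by
      rintro _ ⟨ψ, rfl⟩
      refine ⟨ψ, ?_⟩
      simp only [LinearMap.add_apply, Completion.coe_add, hKx])
  simpa [gcl] using h2

theorem proper_of_estimate {C' : Type} [NormedAddCommGroup C'] [InnerProductSpace ℝ C']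
    {D : C →ₗ[ℝ] C} {T : C →ₗ[ℝ] C'} (hT : GCpt D T) {c : ℝ} (hc : 0 < c)
    (h : ∀ x, c * ‖x‖ ≤ ‖D x‖ + ‖T x‖) : Proper D := by
  intro ψ hψ hD
  obtain ⟨R, hR⟩ := bdd_of_cauchy hD
  obtain ⟨φ, hφ, hc'⟩ := exists_cauchy_subseq (tb_scale hT (max R 1)) (fun k => T (ψ k))
    fun k => ⟨ψ k, ⟨(hψ k).trans (le_max_right _ _), (hR k).trans (le_max_left _ _)⟩, rfl⟩
  refine ⟨φ, hφ, ?_⟩
  have hD' := hD.comp_tendsto hφ.tendsto_atTop
  rw [Metric.cauchySeq_iff] at hD' hc' ⊢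
  intro ε hε
  obtain ⟨N, hN⟩ := hD' (c * ε / 2) (by positivity)
  obtain ⟨N', hN'⟩ := hc' (c * ε / 2) (by positivity)
  refine ⟨max N N', fun m hm n hn => ?_⟩
  have h1 := hN m (le_of_max_le_left hm) n (le_of_max_le_left hn)
  have h2 := hN' m (le_of_max_le_right hm) n (le_of_max_le_right hn)
  have h3 := h (ψ (φ m) - ψ (φ n))
  simp only [Function.comp_apply, dist_eq_norm] at h1 h2 ⊢
  rw [map_sub, map_sub] at h3
  exact lt_of_mul_lt_mul_left (by linarith) hc.le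

theorem Proper.add_cpt {D K : C →ₗ[ℝ] C} (h : Proper D) (hb : Bdd K) (hK : GCpt D K) :
    Proper (D + K) := by
  intro ψ hψ hD
  obtain ⟨R, hR⟩ := bdd_of_cauchy hD
  obtain ⟨c, hc⟩ := hb
  have hDb : ∀ k, ‖D (ψ k)‖ ≤ R + |c| := by
    intro k
    have h1 := norm_sub_le ((D + K) (ψ k)) (K (ψ k))
    have h2 : (D + K) (ψ k) - K (ψ k) = D (ψ k) := by simp
    have h3 : c * ‖ψ k‖ ≤ |c| * 1 :=
      mul_le_mul (le_abs_self c) (hψ k) (norm_nonneg _) (abs_nonneg c)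
    have := hR k
    have := hc (ψ k)
    rw [h2] at h1
    linarith
  obtain ⟨φ, hφ, hc'⟩ := exists_cauchy_subseq (tb_scale hK (max (R + |c|) 1)) (fun k => K (ψ k))
    fun k => ⟨ψ k, ⟨(hψ k).trans (le_max_right _ _), (hDb k).trans (le_max_left _ _)⟩, rfl⟩
  have hD' := hD.comp_tendsto hφ.tendsto_atTop
  have h1 : CauchySeq fun k => D ((ψ ∘ φ) k) := by
    have h2 := hD'.add hc'.neg
    refine (congrArg CauchySeq (funext fun k => ?_)).mp h2
    simp
  obtain ⟨φ', hφ', h3⟩ := h (ψ ∘ φ) (fun k => hψ _) h1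
  exact ⟨φ ∘ φ', hφ.comp hφ', h3⟩

theorem GCpt.add_bdd {C' : Type} [NormedAddCommGroup C'] [InnerProductSpace ℝ C']
    {D K : C →ₗ[ℝ] C} {T : C →ₗ[ℝ] C'} (h : GCpt D T) (hb : Bdd K) : GCpt (D + K) T := by
  obtain ⟨c, hc⟩ := hb
  refine (tb_scale h (1 + |c|)).subset (Set.image_mono ?_)
  rintro ψ ⟨h1, h2⟩
  have h0 := abs_nonneg c
  refine ⟨by linarith, ?_⟩
  have h3 := norm_sub_le ((D + K) ψ) (K ψ)
  have h4 : (D + K) ψ - K ψ = D ψ := by simp
  have h5 : c * ‖ψ‖ ≤ |c| * 1 := mul_le_mul (le_abs_self c) h1 (norm_nonneg _) h0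
  have := hc ψ
  rw [h4] at h3
  linarith

theorem GCpt.comp_bdd {C' C'' : Type} [NormedAddCommGroup C'] [InnerProductSpace ℝ C']
    [NormedAddCommGroup C''] [InnerProductSpace ℝ C''] {D : C →ₗ[ℝ] C} {T : C →ₗ[ℝ] C'}
    (h : GCpt D T) {S : C' →ₗ[ℝ] C''} (hS : Bdd S) : GCpt D (S ∘ₗ T) := by
  obtain ⟨c, hc⟩ := hS
  refine (h.image (S.mkContinuous c hc).uniformContinuous).subset ?_
  rintro _ ⟨ψ, hψ, rfl⟩
  exact ⟨T ψ, ⟨ψ, hψ, rfl⟩, rfl⟩

theorem GCpt.add {C' : Type} [NormedAddCommGroup C'] [InnerProductSpace ℝ C']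
    {D : C →ₗ[ℝ] C} {T T' : C →ₗ[ℝ] C'} (h : GCpt D T) (h' : GCpt D T') : GCpt D (T + T') := by
  refine (tb_add h h').subset ?_
  rintro _ ⟨ψ, hψ, rfl⟩
  exact ⟨T ψ, ⟨ψ, hψ, rfl⟩, T' ψ, ⟨ψ, hψ, rfl⟩, rfl⟩

theorem gcpt_sum {C' : Type} [NormedAddCommGroup C'] [InnerProductSpace ℝ C']
    {D : C →ₗ[ℝ] C} {ι : Type} (s : Finset ι) (T : ι → C →ₗ[ℝ] C') (h : ∀ i ∈ s, GCpt D (T i)) :
    GCpt D (∑ i ∈ s, T i) := by
  refine Finset.sum_induction T (GCpt D) (fun _ _ => GCpt.add) ?_ h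
  refine (totallyBounded_singleton (0 : C')).subset ?_
  rintro _ ⟨ψ, -, rfl⟩
  rfl

end SZ
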