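import Pool.Agent.P.MP_8db816_gt.SZ.AbsKer

/-! Homotopy invariance of the index under bounded perturbations. -/

noncomputable section

namespace SZ

open UniformSpace Filter Topology
open scoped RealInnerProductSpace

variable {C : Type} [NormedAddCommGroup C] [InnerProductSpace ℝ C]

/-- Spectral gap on the orthogonal complement of the weak kernel. -/
theorem Fred.gap {D ε : C →ₗ[ℝ] C} (h : Fred D ε) : ∃ c : ℝ, 0 < c ∧ ∀ u f, (u, f) ∈ gcl D →
    (∀ w, Weak D w 0 → ⟪u, w⟫ = 0) → c * ‖u‖ ≤ ‖f‖ := by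
  by_contra hc
  push Not at hc
  have hc' : ∀ k : ℕ, ∃ (u : Completion C) (ψ : C), ‖u‖ = 1 / 2 ∧
      (∀ w, Weak D w 0 → ⟪u, w⟫ = 0) ∧ ‖(ψ : Completion C) - u‖ < 1 / ((k : ℝ) + 1) / 2 ∧
      ‖D ψ‖ < 1 / ((k : ℝ) + 1) := by
    intro k
    have hk : (0 : ℝ) < 1 / ((k : ℝ) + 1) := by positivity
    obtain ⟨u, f, h1, h2, h3⟩ := hc _ hk
    have hu : 0 < ‖u‖ := by
      by_contra h0
      have : ‖u‖ = 0 := le_antisymm (not_lt.1 h0) (norm_nonneg _)
      rw [this, mul_zero] at h3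
      exact absurd h3 (not_lt.2 (norm_nonneg _))
    set s : ℝ := 1 / (2 * ‖u‖) with hs
    have hs0 : 0 < s := by positivity
    have hsu : s * ‖u‖ = 1 / 2 := by rw [hs]; field_simp
    obtain ⟨_, ⟨ψ, rfl⟩, h4⟩ := Metric.mem_closure_iff.1 h1 (1 / ((k : ℝ) + 1) * ‖u‖)
      (by positivity)
    rw [Prod.dist_eq, max_lt_iff, dist_comm, dist_eq_norm, dist_comm, dist_eq_norm] at h4
    obtain ⟨h5, h6⟩ := h4
    simp only at h5 h6
    refine ⟨s • u, s • ψ, ?_, fun w hw => ?_, ?_, ?_⟩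
    · rw [norm_smul, Real.norm_of_nonneg hs0.le, hsu]
    · rw [real_inner_smul_left, h2 w hw, mul_zero]
    · rw [Completion.coe_smul, ← smul_sub, norm_smul, Real.norm_of_nonneg hs0.le]
      calc _ < s * (1 / ((k : ℝ) + 1) * ‖u‖) := by gcongr
        _ = 1 / ((k : ℝ) + 1) * (s * ‖u‖) := by ring
        _ = _ := by rw [hsu]; ring
    · rw [map_smul, norm_smul, Real.norm_of_nonneg hs0.le, ← Completion.norm_coe]
      have h7 : ‖((D ψ : C) : Completion C)‖ ≤ ‖((D ψ : C) : Completion C) - f‖ + ‖f‖ :=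
        norm_le_norm_sub_add _ _
      calc _ < s * (2 * (1 / ((k : ℝ) + 1) * ‖u‖)) := by gcongr; linarith
        _ = 2 * (1 / ((k : ℝ) + 1)) * (s * ‖u‖) := by ring
        _ = _ := by rw [hsu]; ring
  choose u ψ h1 h2 h3 h4 using hc'
  have t0 : Tendsto (fun k : ℕ => 1 / ((k : ℝ) + 1)) atTop (𝓝 0) :=
    tendsto_one_div_add_atTop_nhds_zero_nat
  have tD : Tendsto (fun k => D (ψ k)) atTop (𝓝 0) :=
    squeeze_zero_norm (fun k => (h4 k).le) t0
  have hb : ∀ k, ‖ψ k‖ ≤ 1 := by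
    intro k
    have a1 : ‖(ψ k : Completion C)‖ ≤ ‖(ψ k : Completion C) - u k‖ + ‖u k‖ :=
      norm_le_norm_sub_add _ _
    have a2 : 1 / ((k : ℝ) + 1) ≤ 1 := by
      rw [div_le_one (by positivity)]; linarith [Nat.cast_nonneg (α := ℝ) k]
    rw [Completion.norm_coe, h1] at a1
    linarith [h3 k]
  obtain ⟨φ, hφ, hcs⟩ := h.proper ψ hb tD.cauchySeq
  obtain ⟨v, hv⟩ := cauchySeq_tendsto_of_complete
    ((Completion.uniformContinuous_coe C).comp_cauchySeq hcs)
  have tu : Tendsto (fun k => (ψ k : Completion C) - u k) atTop (𝓝 0) :=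
    squeeze_zero_norm (fun k => (h3 k).le) (by simpa using t0.div_const 2)
  have tv : Tendsto (fun k => u (φ k)) atTop (𝓝 v) := by
    have := hv.sub (tu.comp hφ.tendsto_atTop)
    simpa using this
  have hvn : ‖v‖ = 1 / 2 :=
    tendsto_nhds_unique tv.norm (by simp only [h1]; exact tendsto_const_nhds)
  have tD' : Tendsto (fun k => ((D (ψ (φ k)) : C) : Completion C)) atTop (𝓝 0) := by
    have := ((Completion.continuous_coe C).tendsto 0).comp (tD.comp hφ.tendsto_atTop)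
    rwa [Completion.coe_zero] at this
  have hg : (v, 0) ∈ gcl D :=
    mem_closure_of_tendsto (hv.prodMk_nhds tD') (Eventually.of_forall fun k => ⟨ψ (φ k), rfl⟩)
  have hw := weak_of_gcl h.sym hg
  have h0 : ⟪v, v⟫ = 0 :=
    tendsto_nhds_unique (tv.inner (𝕜 := ℝ) (tendsto_const_nhds (x := v)))
      (by simp only [h2 _ v hw]; exact tendsto_const_nhds)
  rw [inner_self_eq_zero] at h0
  rw [h0, norm_zero] at hvn
  norm_num at hvn

theorem hom_ext {x y : Completion C} (h : ∀ ψ : C, ⟪x, (ψ : Completion C)⟫ = ⟪y, (ψ : Completion C)⟫) :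
    x = y := DenseRange.eq_of_inner_left ℝ Completion.denseRange_coe h

/-- extension of a bounded symmetric operator -/
theorem hom_exists_ext {T : C →ₗ[ℝ] C} (hT : Sym T) {c : ℝ} (h : ∀ x, ‖T x‖ ≤ c * ‖x‖) :
    ∃ T' : Completion C →L[ℝ] Completion C, (∀ ψ : C, T' ψ = (T ψ : C)) ∧
      (∀ u v, ⟪T' u, v⟫ = ⟪u, T' v⟫) ∧ ∀ u, ‖T' u‖ ≤ c * ‖u‖ := by
  have h1 : ∀ ψ : C, (T.mkContinuous c h).completion ψ = (T ψ : C) := fun ψ =>
    ContinuousLinearMap.completion_apply_coe _ ψ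
  refine ⟨(T.mkContinuous c h).completion, h1, fun u v => ?_, fun u => ?_⟩
  · refine Completion.induction_on₂ u v (isClosed_eq (by fun_prop) (by fun_prop)) fun a b => ?_
    rw [h1, h1, Completion.inner_coe, Completion.inner_coe, hT]
  · refine Completion.induction_on u (isClosed_le (by fun_prop) (by fun_prop)) fun a => ?_
    rw [h1, Completion.norm_coe, Completion.norm_coe]
    exact h a

theorem hom_weak_add {D : C →ₗ[ℝ] C} {u f v g : Completion C} (h : Weak D u f) (h' : Weak D v g) :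
    Weak D (u + v) (f + g) := fun ψ => by rw [inner_add_left, inner_add_left, h ψ, h' ψ]

theorem hom_weak_smul {D : C →ₗ[ℝ] C} {u f : Completion C} (h : Weak D u f) (s : ℝ) :
    Weak D (s • u) (s • f) := fun ψ => by rw [real_inner_smul_left, real_inner_smul_left, h ψ]

theorem hom_weak_coe {D : C →ₗ[ℝ] C} (hD : Sym D) (x : C) :
    Weak D (x : Completion C) (D x : C) := fun ψ => by
  rw [Completion.inner_coe, Completion.inner_coe, hD]

theorem hom_inner_gcl {D : C →ₗ[ℝ] C} {u f v g : Completion C} (h : Weak D u f)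
    (h' : (v, g) ∈ gcl D) : ⟪u, g⟫ = ⟪f, v⟫ := by
  have hcl : IsClosed {x : Completion C × Completion C | ⟪u, x.2⟫ = ⟪f, x.1⟫} :=
    isClosed_eq (by fun_prop) (by fun_prop)
  refine closure_minimal (t := {x : Completion C × Completion C | ⟪u, x.2⟫ = ⟪f, x.1⟫}) ?_ hcl h'
  rintro _ ⟨ψ, rfl⟩
  exact h ψ

/-- the extension of the grading -/
structure HomE (ε : C →ₗ[ℝ] C) (E : Completion C →L[ℝ] Completion C) : Prop where
  coe : ∀ ψ : C, E ψ = (ε ψ : C)
  sym : ∀ u v, ⟪E u, v⟫ = ⟪u, E v⟫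
  sq : ∀ u, E (E u) = u

theorem hom_exists_E {D ε : C →ₗ[ℝ] C} (h : Fred D ε) : ∃ E, HomE ε E := by
  obtain ⟨E, h1, h2, -⟩ := hom_exists_ext h.εsym (c := 1) (fun x => by
    have : ‖ε x‖ ^ 2 = ‖x‖ ^ 2 := by
      rw [← real_inner_self_eq_norm_sq, ← real_inner_self_eq_norm_sq, h.εsym, h.εsq]
    rw [one_mul]
    exact ((pow_left_inj₀ (norm_nonneg _) (norm_nonneg _) two_ne_zero).1 this).le)
  refine ⟨E, h1, h2, fun u => ?_⟩
  refine Completion.induction_on u (isClosed_eq (by fun_prop) (by fun_prop)) fun a => ?_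
  rw [h1, h1, h.εsq]

theorem HomE.mem_ker {D ε : C →ₗ[ℝ] C} {E : Completion C →L[ℝ] Completion C} (hE : HomE ε E)
    {p : ℝ} {u : Completion C} : u ∈ Ker D ε p ↔ Weak D u 0 ∧ E u = p • u := by
  refine and_congr_right fun _ => ⟨fun h => hom_ext fun ψ => ?_, fun h ψ => ?_⟩
  · rw [hE.sym, hE.coe, h ψ, real_inner_smul_left]
  · rw [← hE.coe, ← hE.sym, h, real_inner_smul_left]

theorem HomE.weak {D ε : C →ₗ[ℝ] C} {E : Completion C →L[ℝ] Completion C} (hE : HomE ε E)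
    (hodd : ∀ x, D (ε x) = -ε (D x)) {u f : Completion C} (h : Weak D u f) :
    Weak D (E u) (-E f) := fun ψ => by
  have h1 := h (ε ψ)
  rw [hodd, Completion.coe_neg, inner_neg_right] at h1
  rw [hE.sym, hE.coe, inner_neg_left, hE.sym, hE.coe, ← h1, neg_neg]

theorem HomE.proj {ε : C →ₗ[ℝ] C} {E : Completion C →L[ℝ] Completion C} (hE : HomE ε E)
    {p : ℝ} (hp : p * p = 1) (w : Completion C) :
    E ((1 / 2 : ℝ) • (w + p • E w)) = p • ((1 / 2 : ℝ) • (w + p • E w)) := by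
  rw [map_smul, map_add, map_smul, hE.sq, smul_comm p, smul_add p, smul_smul p p, hp, one_smul,
    add_comm]

theorem HomE.proj_mem {D ε : C →ₗ[ℝ] C} {E : Completion C →L[ℝ] Completion C} (hE : HomE ε E)
    (hodd : ∀ x, D (ε x) = -ε (D x)) {p : ℝ} (hp : p * p = 1) {w : Completion C}
    (hw : Weak D w 0) : (1 / 2 : ℝ) • (w + p • E w) ∈ Ker D ε p := by
  refine hE.mem_ker.2 ⟨?_, hE.proj hp w⟩
  simpa using hom_weak_smul (hom_weak_add hw (hom_weak_smul (hE.weak hodd hw) p)) (1 / 2 : ℝ)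

/-- a homogeneous vector orthogonal to its part of the kernel is orthogonal to the kernel -/
theorem HomE.orth {D ε : C →ₗ[ℝ] C} {E : Completion C →L[ℝ] Completion C} (hE : HomE ε E)
    (hodd : ∀ x, D (ε x) = -ε (D x)) {p : ℝ} (hp : p * p = 1) {a : Completion C}
    (ha : E a = p • a) (h : a ∈ (Ker D ε p)ᗮ) (w : Completion C) (hw : Weak D w 0) :
    ⟪a, w⟫ = 0 := by
  have h1 := Submodule.inner_left_of_mem_orthogonal (hE.proj_mem hodd hp hw) h
  rw [real_inner_smul_right, inner_add_right, real_inner_smul_right, ← hE.sym, ha,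
    real_inner_smul_left, ← mul_assoc, hp] at h1
  linarith

theorem hom_mem_ker0 {D : C →ₗ[ℝ] C} {u : Completion C} : u ∈ Ker D 0 0 ↔ Weak D u 0 :=
  ⟨fun h => h.1, fun h => ⟨h, fun ψ => by simp [Completion.coe_zero]⟩⟩

theorem Fred.hom_fin {D ε : C →ₗ[ℝ] C} (h : Fred D ε) : FiniteDimensional ℝ (Ker D 0 0) := by
  obtain ⟨E, hE⟩ := hom_exists_E h
  have := h.finiteDimensional 1
  have := h.finiteDimensional (-1)
  refine Submodule.finiteDimensional_of_le (S₂ := Ker D ε 1 ⊔ Ker D ε (-1)) fun w hw => ?_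
  have hw' := hom_mem_ker0.1 hw
  refine Submodule.mem_sup.2 ⟨_, hE.proj_mem h.odd (p := 1) (by norm_num) hw', _,
    hE.proj_mem h.odd (p := -1) (by norm_num) hw', ?_⟩
  module

theorem Fred.hom_gap {D ε : C →ₗ[ℝ] C} (h : Fred D ε) [FiniteDimensional ℝ (Ker D 0 0)] {c : ℝ}
    (hc : ∀ u f, (u, f) ∈ gcl D → (∀ w, Weak D w 0 → ⟪u, w⟫ = 0) → c * ‖u‖ ≤ ‖f‖) (ψ : C) :
    c * ‖(ψ : Completion C) - (Ker D 0 0).starProjection ψ‖ ≤ ‖D ψ‖ := by
  rw [← Completion.norm_coe (D ψ)]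
  refine hc _ _ (h.esa _ _ ?_) fun w hw => Submodule.inner_left_of_mem_orthogonal
    (hom_mem_ker0.2 hw) (Submodule.sub_starProjection_mem_orthogonal _)
  have h1 := hom_mem_ker0.1 ((Ker D 0 0).starProjection_apply_mem (ψ : Completion C))
  have h2 := hom_weak_add (hom_weak_coe h.sym ψ) (hom_weak_smul h1 (-1))
  simpa [sub_eq_add_neg] using h2

/-- solvability of `D u = a` for `a` orthogonal to the kernel -/
theorem Fred.hom_solve {D ε : C →ₗ[ℝ] C} (h : Fred D ε) {a : Completion C}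
    (ha : ∀ w, Weak D w 0 → ⟪a, w⟫ = 0) : ∃ u, Weak D u a := by
  have := h.hom_fin
  obtain ⟨c, hc, hg⟩ := h.gap
  let T : C →ₗ[ℝ] Completion C := (Completion.toComplₗᵢ (𝕜 := ℝ) (E := C)).toLinearMap ∘ₗ D
  let l : C →ₗ[ℝ] ℝ := (innerSL ℝ a).toLinearMap ∘ₗ
    (Completion.toComplₗᵢ (𝕜 := ℝ) (E := C)).toLinearMap
  have hT : ∀ ψ, T ψ = (D ψ : C) := fun _ => rfl
  have hl : ∀ ψ, l ψ = ⟪a, (ψ : Completion C)⟫ := fun _ => rfl
  have hb : ∀ ψ, ‖l ψ‖ ≤ ‖a‖ / c * ‖T ψ‖ := by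
    intro ψ
    have h1 := h.hom_gap hg ψ
    have h2 := ha _ (hom_mem_ker0.1 ((Ker D 0 0).starProjection_apply_mem (ψ : Completion C)))
    have h3 : l ψ = ⟪a, (ψ : Completion C) - (Ker D 0 0).starProjection ψ⟫ := by
      rw [inner_sub_right, h2, sub_zero, hl]
    rw [h3, hT, Completion.norm_coe]
    refine (norm_inner_le_norm _ _).trans ?_
    rw [div_mul_eq_mul_div, le_div_iff₀ hc, mul_assoc, mul_comm _ c]
    gcongr
  obtain ⟨s, hs⟩ := T.rangeRestrict.exists_rightInverse_of_surjective T.range_rangeRestrict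
  have hs' : ∀ y : LinearMap.range T, T (s y) = y := fun y =>
    congrArg Subtype.val (LinearMap.congr_fun hs y)
  obtain ⟨g, hg', -⟩ := exists_extension_norm_eq (LinearMap.range T)
    ((l ∘ₗ s).mkContinuous (‖a‖ / c) fun y => by
      have := hb (s y)
      rwa [hs'] at this)
  refine ⟨(InnerProductSpace.toDual ℝ (Completion C)).symm g, fun ψ => ?_⟩
  rw [InnerProductSpace.toDual_symm_apply, ← hT, ← hl]
  have h1 := hg' ⟨T ψ, ψ, rfl⟩
  have h2 := hb (s ⟨T ψ, ψ, rfl⟩ - ψ)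
  rw [map_sub T, hs', sub_self, norm_zero, mul_zero, norm_le_zero_iff, map_sub, sub_eq_zero] at h2
  exact h1.trans h2

theorem Fred.hom_add {D ε K : C →ₗ[ℝ] C} (h : Fred D ε) (hK : Sym K) (hb : Bdd K)
    (hodd : ∀ x, K (ε x) = -ε (K x)) (hP : Proper (D + K)) : Fred (D + K) ε where
  sym x y := by
    rw [LinearMap.add_apply, LinearMap.add_apply, inner_add_left, inner_add_right, h.sym, hK]
  εsym := h.εsym
  εsq := h.εsq
  odd x := by rw [LinearMap.add_apply, LinearMap.add_apply, h.odd, hodd, map_add, neg_add]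
  esa := h.esa.add_bdd hK hb
  proper := hP

theorem Fred.hom_proper {D ε K : C →ₗ[ℝ] C} (h : Fred D ε) {c : ℝ} (hc : 0 < c)
    (hg : ∀ u f, (u, f) ∈ gcl D → (∀ w, Weak D w 0 → ⟪u, w⟫ = 0) → c * ‖u‖ ≤ ‖f‖)
    (hK : ∀ x, ‖K x‖ ≤ c / 2 * ‖x‖) : Proper (D + K) := by
  have := h.hom_fin
  let T : C →ₗ[ℝ] Ker D 0 0 := c • ((Ker D 0 0).orthogonalProjectionOnto.toLinearMap ∘ₗ
    (Completion.toComplₗᵢ (𝕜 := ℝ) (E := C)).toLinearMap)
  have hT : ∀ x, ‖T x‖ = c * ‖(Ker D 0 0).starProjection (x : Completion C)‖ := fun x => by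
    rw [LinearMap.smul_apply, norm_smul, Real.norm_of_nonneg hc.le]
    rfl
  refine proper_of_estimate (T := T) ?_ (c := c / 2) (by positivity) fun x => ?_
  · refine (isCompact_closedBall (0 : Ker D 0 0) c).totallyBounded.subset ?_
    rintro _ ⟨x, hx, rfl⟩
    rw [mem_closedBall_zero_iff, hT]
    have h1 := (Ker D 0 0).norm_starProjection_apply_le (x : Completion C)
    rw [Completion.norm_coe] at h1
    exact mul_le_of_le_one_right hc.le (h1.trans hx.1)
  · have h1 := h.hom_gap hg x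
    have h2 : ‖(x : Completion C)‖ ≤ ‖(x : Completion C) - (Ker D 0 0).starProjection x‖ +
        ‖(Ker D 0 0).starProjection (x : Completion C)‖ := norm_le_norm_sub_add _ _
    have h3 : ‖D x‖ ≤ ‖(D + K) x‖ + ‖K x‖ := by
      have := norm_sub_le ((D + K) x) (K x)
      rwa [LinearMap.add_apply, add_sub_cancel_right] at this
    rw [Completion.norm_coe] at h2
    have h4 := mul_le_mul_of_nonneg_left h2 hc.le
    rw [hT]
    linarith [hK x]

theorem hom_rank {A S B G : Type} [AddCommGroup A] [Module ℝ A] [AddCommGroup S] [Module ℝ S]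
    [AddCommGroup B] [Module ℝ B] [AddCommGroup G] [Module ℝ G] [FiniteDimensional ℝ S]
    [FiniteDimensional ℝ B] [FiniteDimensional ℝ G] (ι : A →ₗ[ℝ] S) (β : S →ₗ[ℝ] B)
    (γ : B →ₗ[ℝ] G) (hι : Function.Injective ι) (h1 : ∀ x, β (ι x) = 0)
    (h2 : ∀ b, γ b = 0 → ∃ s, β s = b) :
    Module.finrank ℝ A + Module.finrank ℝ B ≤ Module.finrank ℝ S + Module.finrank ℝ G := by
  have a1 := β.finrank_range_add_finrank_ker
  have a2 := γ.finrank_range_add_finrank_ker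
  have a3 : Module.finrank ℝ (LinearMap.ker γ) ≤ Module.finrank ℝ (LinearMap.range β) :=
    Submodule.finrank_mono fun b hb => h2 b hb
  have a4 := Submodule.finrank_le (LinearMap.range γ)
  have a5 : Module.finrank ℝ A ≤ Module.finrank ℝ (LinearMap.ker β) :=
    LinearMap.finrank_le_finrank_of_injective (f := ι.codRestrict (LinearMap.ker β) h1)
      fun x y hxy => hι (congrArg Subtype.val hxy)
  omega

theorem Fred.hom_le {D ε K : C →ₗ[ℝ] C} (h : Fred D ε) {c : ℝ} (hc : 0 < c)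
    (hg : ∀ u f, (u, f) ∈ gcl D → (∀ w, Weak D w 0 → ⟪u, w⟫ = 0) → c * ‖u‖ ≤ ‖f‖)
    (hs : Sym K) (hodd : ∀ x, K (ε x) = -ε (K x)) (hK : ∀ x, ‖K x‖ ≤ c / 2 * ‖x‖)
    {p : ℝ} (hp : p * p = 1) :
    Module.finrank ℝ (Ker (D + K) ε p) + Module.finrank ℝ (Ker D ε (-p)) ≤
      Module.finrank ℝ (Ker D ε p) + Module.finrank ℝ (Ker (D + K) ε (-p)) := by
  have h' : Fred (D + K) ε := h.hom_add hs ⟨_, hK⟩ hodd (h.hom_proper hc hg hK)
  have := h.finiteDimensional p
  have := h.finiteDimensional (-p)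
  have := h'.finiteDimensional (-p)
  obtain ⟨E, hE⟩ := hom_exists_E h
  obtain ⟨K', k1, k2, k3⟩ := hom_exists_ext hs hK
  let S : Submodule ℝ (Completion C × Ker D ε (-p)) :=
    { carrier := {x | Weak (D + K) x.1 x.2 ∧ E x.1 = p • x.1}
      add_mem' := fun {x y} hx hy => ⟨hom_weak_add hx.1 hy.1, by
        rw [Prod.fst_add, map_add, hx.2, hy.2, smul_add]⟩
      zero_mem' := ⟨fun ψ => by simp, by simp⟩
      smul_mem' := fun s x hx => ⟨hom_weak_smul hx.1 s, by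
        rw [Prod.smul_fst, map_smul, hx.2, smul_comm]⟩ }
  let α : S →ₗ[ℝ] Ker D ε p :=
    (Ker D ε p).orthogonalProjectionOnto.toLinearMap ∘ₗ LinearMap.fst ℝ _ _ ∘ₗ S.subtype
  have hα : Function.Injective α := by
    rw [injective_iff_map_eq_zero]
    rintro ⟨⟨u, a⟩, h1, h2⟩ h3
    have h4 : u ∈ (Ker D ε p)ᗮ := Submodule.orthogonalProjectionOnto_eq_zero_iff.1 h3
    simp only at h1 h2
    have h5 : Weak D u (a - K' u) := fun ψ => by
      have := h1 ψ
      rw [LinearMap.add_apply, Completion.coe_add, inner_add_right] at this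
      rw [inner_sub_left, k2, k1, ← this, add_sub_cancel_right]
    have h6 := h.esa _ _ h5
    have h7 := hg _ _ h6 (hE.orth h.odd hp h2 h4)
    have h8 := hom_inner_gcl a.2.1 h6
    rw [inner_zero_left] at h8
    set f := (a : Completion C) - K' u with hf
    have h9 : ‖f‖ ^ 2 ≤ c / 2 * ‖u‖ * ‖f‖ := by
      rw [← real_inner_self_eq_norm_sq]
      calc ⟪f, f⟫ = ⟪-K' u, f⟫ := by
            rw [inner_neg_left]
            nth_rewrite 1 [hf]
            rw [inner_sub_left, h8, zero_sub]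
        _ ≤ ‖-K' u‖ * ‖f‖ := real_inner_le_norm _ _
        _ ≤ _ := by rw [norm_neg]; gcongr; exact k3 u
    have h10 : u = 0 := by
      by_contra hne
      have hu : 0 < c * ‖u‖ := mul_pos hc (norm_pos_iff.2 hne)
      nlinarith
    subst h10
    have h11 : (a : Completion C) = 0 := hom_ext fun ψ => by
      rw [← h1 ψ, inner_zero_left, inner_zero_left]
    exact Subtype.ext (Prod.ext rfl (Subtype.ext h11))
  have : FiniteDimensional ℝ S := Module.Finite.of_injective α hα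
  have a1 := LinearMap.finrank_le_finrank_of_injective hα
  have a2 := hom_rank
    (((LinearMap.inl ℝ _ (Ker D ε (-p))) ∘ₗ (Ker (D + K) ε p).subtype).codRestrict S
      fun x => hE.mem_ker.1 x.2)
    (LinearMap.snd ℝ _ _ ∘ₗ S.subtype)
    ((Ker (D + K) ε (-p)).orthogonalProjectionOnto.toLinearMap ∘ₗ (Ker D ε (-p)).subtype)
    (fun x y hxy => Subtype.ext (congrArg (fun z : S => z.1.1) hxy)) (fun _ => rfl)
    (fun a ha => by
      have b1 : (a : Completion C) ∈ (Ker (D + K) ε (-p))ᗮ :=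
        Submodule.orthogonalProjectionOnto_eq_zero_iff.1 ha
      have b2 := (hE.mem_ker.1 a.2).2
      obtain ⟨u, hu⟩ := h'.hom_solve (hE.orth h'.odd (by rw [neg_mul_neg, hp]) b2 b1)
      refine ⟨⟨((1 / 2 : ℝ) • (u + p • E u), a), ?_, hE.proj hp u⟩, rfl⟩
      have b3 := hom_weak_smul (hom_weak_add hu (hom_weak_smul (hE.weak h'.odd hu) p)) (1 / 2 : ℝ)
      rw [b2, neg_smul, neg_neg, smul_smul, hp, one_smul, ← two_smul ℝ, smul_smul] at b3
      simpa using b3)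
  omega

/-- Local constancy. -/
theorem Fred.ind_local {D ε : C →ₗ[ℝ] C} (h : Fred D ε) : ∃ δ : ℝ, 0 < δ ∧
    ∀ K : C →ₗ[ℝ] C, Sym K → (∀ x, K (ε x) = -ε (K x)) → (∀ x, ‖K x‖ ≤ δ * ‖x‖) →
      ind (D + K) ε = ind D ε := by
  obtain ⟨c, hc, hg⟩ := h.gap
  refine ⟨c / 2, by positivity, fun K hs hodd hK => ?_⟩
  have h1 := h.hom_le hc hg hs hodd hK (p := 1) (by norm_num)
  have h2 := h.hom_le hc hg hs hodd hK (p := -1) (by norm_num)
  rw [neg_neg] at h2
  have h3 : ((Module.finrank ℝ (Ker (D + K) ε 1) + Module.finrank ℝ (Ker D ε (-1)) : ℕ) : ℝ) =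
      ((Module.finrank ℝ (Ker D ε 1) + Module.finrank ℝ (Ker (D + K) ε (-1)) : ℕ) : ℝ) :=
    congrArg _ (by omega)
  push_cast at h3
  unfold ind
  linarith

theorem Fred.ind_homotopy {D ε K : C →ₗ[ℝ] C} (h : Fred D ε) (hK : Sym K) (hb : Bdd K)
    (hodd : ∀ x, K (ε x) = -ε (K x)) (hP : ∀ t ∈ Set.Icc (0 : ℝ) 1, Proper (D + t • K)) :
    ind (D + K) ε = ind D ε := by
  obtain ⟨c, hc⟩ := hb
  have hs : ∀ t : ℝ, Sym (t • K) := fun t x y => by
    rw [LinearMap.smul_apply, LinearMap.smul_apply, real_inner_smul_left, real_inner_smul_right,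
      hK]
  have ho : ∀ (t : ℝ) x, (t • K) (ε x) = -ε ((t • K) x) := fun t x => by
    rw [LinearMap.smul_apply, LinearMap.smul_apply, hodd, map_smul, smul_neg]
  have hn : ∀ (t : ℝ) x, ‖(t • K) x‖ ≤ |t| * (|c| + 1) * ‖x‖ := fun t x => by
    rw [LinearMap.smul_apply, norm_smul, Real.norm_eq_abs, mul_assoc]
    gcongr
    refine (hc x).trans ?_
    gcongr
    linarith [le_abs_self c]
  have : PreconnectedSpace (Set.Icc (0 : ℝ) 1) := Subtype.preconnectedSpace isPreconnected_Icc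
  have hl : IsLocallyConstant fun t : Set.Icc (0 : ℝ) 1 => ind (D + (t : ℝ) • K) ε := by
    rw [IsLocallyConstant.iff_eventually_eq]
    intro t
    obtain ⟨δ, hδ, h1⟩ := (h.hom_add (hs t) ⟨_, hn t⟩ (ho t) (hP t t.2)).ind_local
    have hpos : 0 < δ / (|c| + 1) := by positivity
    filter_upwards [Metric.ball_mem_nhds t hpos] with s hst
    rw [Metric.mem_ball, Subtype.dist_eq, Real.dist_eq, lt_div_iff₀ (by positivity)] at hst
    have h2 := h1 (((s : ℝ) - t) • K) (hs _) (ho _) fun x => (hn _ x).trans (by gcongr)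
    rwa [add_assoc, ← add_smul, add_sub_cancel] at h2
  have h3 := hl.apply_eq_of_preconnectedSpace ⟨1, by simp⟩ ⟨0, by simp⟩
  simpa using h3

end SZ
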