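import Pool.Agent.P.MP_8db816_gt.SZ.AbsESA

/-! Kernels: finite dimension, spectral gaps, unitary invariance, orthogonal sums. -/

noncomputable section

namespace SZ

open UniformSpace Filter Topology
open scoped RealInnerProductSpace

variable {C : Type} [NormedAddCommGroup C] [InnerProductSpace ℝ C]

namespace KerAux

theorem gcl_seq {D : C →ₗ[ℝ] C} {u f : Completion C} (h : (u, f) ∈ gcl D) :
    ∃ ψ : ℕ → C, Tendsto (fun k => (ψ k : Completion C)) atTop (𝓝 u) ∧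
      Tendsto (fun k => ((D (ψ k) : C) : Completion C)) atTop (𝓝 f) := by
  obtain ⟨x, hx, hl⟩ := mem_closure_iff_seq_limit.1 h
  choose ψ hψ using hx
  refine ⟨ψ, ?_, ?_⟩
  · have := (continuous_fst.tendsto _).comp hl
    refine this.congr fun k => ?_
    simp only [Function.comp, ← hψ k]
  · have := (continuous_snd.tendsto _).comp hl
    refine this.congr fun k => ?_
    simp only [Function.comp, ← hψ k]

theorem gcl_of_seq {D : C →ₗ[ℝ] C} {u f : Completion C} (ψ : ℕ → C)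
    (h1 : Tendsto (fun k => (ψ k : Completion C)) atTop (𝓝 u))
    (h2 : Tendsto (fun k => ((D (ψ k) : C) : Completion C)) atTop (𝓝 f)) : (u, f) ∈ gcl D :=
  mem_closure_of_tendsto (h1.prodMk_nhds h2) (Eventually.of_forall fun k => ⟨ψ k, rfl⟩)

theorem ext_inner {u v : Completion C}
    (h : ∀ ψ : C, ⟪u, (ψ : Completion C)⟫ = ⟪v, (ψ : Completion C)⟫) : u = v := by
  refine ext_inner_right ℝ fun w => ?_
  induction w using Completion.induction_on with
  | hp => exact isClosed_eq (by fun_prop) (by fun_prop)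
  | ih a => exact h a

theorem tendsto_inner {ψ : ℕ → C} {u : Completion C}
    (h : Tendsto (fun k => (ψ k : Completion C)) atTop (𝓝 u)) (φ : C) :
    Tendsto (fun k => ⟪ψ k, φ⟫) atTop (𝓝 ⟪u, (φ : Completion C)⟫) := by
  have := h.inner (𝕜 := ℝ) (tendsto_const_nhds (x := (φ : Completion C)))
  simpa only [Completion.inner_coe] using this

omit [InnerProductSpace ℝ C] in
theorem tendsto_norm_zero {ψ : ℕ → C}
    (h : Tendsto (fun k => (ψ k : Completion C)) atTop (𝓝 0)) :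
    Tendsto (fun k => ‖ψ k‖) atTop (𝓝 0) := by
  have := h.norm
  simpa only [Completion.norm_coe, norm_zero] using this

theorem tendsto_inner_zero {ψ : ℕ → C} (h : Tendsto (fun k => ‖ψ k‖) atTop (𝓝 0)) (φ : C) :
    Tendsto (fun k => ⟪ψ k, φ⟫) atTop (𝓝 0) := by
  have := (tendsto_zero_iff_norm_tendsto_zero.2 h).inner (𝕜 := ℝ) (tendsto_const_nhds (x := φ))
  simpa only [inner_zero_left] using this

theorem norm_eps {D ε : C →ₗ[ℝ] C} (h : Fred D ε) (x : C) : ‖ε x‖ = ‖x‖ := by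
  have : ⟪ε x, ε x⟫ = ⟪x, x⟫ := by rw [h.εsym, h.εsq]
  rw [real_inner_self_eq_norm_sq, real_inner_self_eq_norm_sq] at this
  exact (pow_left_inj₀ (norm_nonneg _) (norm_nonneg _) two_ne_zero).1 this

theorem ker_neg (D ε : C →ₗ[ℝ] C) (q : ℝ) : Ker (-D) (-ε) q = Ker D ε (-q) := by
  ext u
  change (Weak (-D) u 0 ∧ ∀ ψ : C, ⟪u, (((-ε) ψ : C) : Completion C)⟫ = q * ⟪u, (ψ : Completion C)⟫) ↔
    (Weak D u 0 ∧ ∀ ψ : C, ⟪u, ((ε ψ : C) : Completion C)⟫ = -q * ⟪u, (ψ : Completion C)⟫)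
  simp only [Weak, LinearMap.neg_apply, Completion.coe_neg, inner_neg_right, inner_zero_left,
    neg_zero, neg_mul, neg_eq_iff_eq_neg]

theorem cauchySeq_congr_of_eq {α : Type} [UniformSpace α] {f g : ℕ → α} (h : ∀ k, f k = g k) :
    CauchySeq f ↔ CauchySeq g := by rw [funext h]

section

variable {C₁ C₂ : Type} [NormedAddCommGroup C₁] [InnerProductSpace ℝ C₁]
  [NormedAddCommGroup C₂] [InnerProductSpace ℝ C₂]

/-- Extension of an isometry to the completions. -/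
def ex (j : C₁ →ₗ[ℝ] C) (i : ∀ x y, ⟪j x, j y⟫ = ⟪x, y⟫) : Completion C₁ →L[ℝ] Completion C :=
  (j.isometryOfInner i).toContinuousLinearMap.completion

theorem ex_coe (j : C₁ →ₗ[ℝ] C) (i : ∀ x y, ⟪j x, j y⟫ = ⟪x, y⟫) (x : C₁) :
    ex j i (x : Completion C₁) = ((j x : C) : Completion C) :=
  ContinuousLinearMap.completion_apply_coe _ _

theorem inner_ex (j : C₁ →ₗ[ℝ] C) (i : ∀ x y, ⟪j x, j y⟫ = ⟪x, y⟫) (a : Completion C₁) (x : C₁) :
    ⟪ex j i a, ((j x : C) : Completion C)⟫ = ⟪a, (x : Completion C₁)⟫ := by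
  induction a using Completion.induction_on with
  | hp => exact isClosed_eq (by fun_prop) (by fun_prop)
  | ih a => rw [ex_coe, Completion.inner_coe, Completion.inner_coe, i]

theorem inner_ex_zero (j : C₁ →ₗ[ℝ] C) (i : ∀ x y, ⟪j x, j y⟫ = ⟪x, y⟫) (a : Completion C₁) {z : C}
    (hz : ∀ x, ⟪j x, z⟫ = 0) : ⟪ex j i a, (z : Completion C)⟫ = 0 := by
  induction a using Completion.induction_on with
  | hp => exact isClosed_eq (by fun_prop) (by fun_prop)
  | ih a => rw [ex_coe, Completion.inner_coe, hz]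

theorem inner_adj (j : C₁ →ₗ[ℝ] C) (i : ∀ x y, ⟪j x, j y⟫ = ⟪x, y⟫) (u : Completion C) (x : C₁) :
    ⟪(ex j i).adjoint u, (x : Completion C₁)⟫ = ⟪u, ((j x : C) : Completion C)⟫ := by
  rw [ContinuousLinearMap.adjoint_inner_left, ex_coe]

theorem norm_le_of_orth {j₁ : C₁ →ₗ[ℝ] C} {j₂ : C₂ →ₗ[ℝ] C}
    (i₁ : ∀ x y, ⟪j₁ x, j₁ y⟫ = ⟪x, y⟫) (i₁₂ : ∀ x y, ⟪j₁ x, j₂ y⟫ = 0) (x : C₁) (y : C₂) :
    ‖x‖ ≤ ‖j₁ x + j₂ y‖ := by
  have a1 := norm_add_sq_real (j₁ x) (j₂ y)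
  have a2 := i₁ x x
  rw [real_inner_self_eq_norm_sq, real_inner_self_eq_norm_sq] at a2
  rw [i₁₂, a2] at a1
  refine (pow_le_pow_iff_left₀ (norm_nonneg _) (norm_nonneg _) two_ne_zero).1 ?_
  nlinarith [sq_nonneg ‖j₂ y‖]

theorem cauchy_of_orth {j₁ : C₁ →ₗ[ℝ] C} {j₂ : C₂ →ₗ[ℝ] C}
    (i₁ : ∀ x y, ⟪j₁ x, j₁ y⟫ = ⟪x, y⟫) (i₁₂ : ∀ x y, ⟪j₁ x, j₂ y⟫ = 0) (x : ℕ → C₁) (y : ℕ → C₂)
    (h : CauchySeq fun k => j₁ (x k) + j₂ (y k)) : CauchySeq x := by
  rw [Metric.cauchySeq_iff] at h ⊢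
  intro e he
  obtain ⟨N, hN⟩ := h e he
  refine ⟨N, fun m hm n hn => lt_of_le_of_lt ?_ (hN m hm n hn)⟩
  rw [dist_eq_norm, dist_eq_norm, add_sub_add_comm, ← map_sub, ← map_sub]
  exact norm_le_of_orth i₁ i₁₂ _ _

end

end KerAux

open KerAux

theorem Fred.finiteDimensional {D ε : C →ₗ[ℝ] C} (h : Fred D ε) (p : ℝ) :
    FiniteDimensional ℝ (Ker D ε p) := by
  by_contra hfd
  obtain ⟨R, u, hR, hu, hsep⟩ := exists_seq_norm_le_one_le_norm_sub hfd
  have key : ∀ k : ℕ, ∃ ψ : C, ‖(ψ : Completion C) - (u k : Completion C)‖ ≤ 1 / 4 ∧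
      ‖D ψ‖ ≤ 1 / ((k : ℝ) + 1) := by
    intro k
    obtain ⟨ψ, h1, h2⟩ := gcl_seq (h.esa _ _ (u k).2.1)
    have e1 := (tendsto_iff_norm_sub_tendsto_zero.1 h1).eventually
      (ge_mem_nhds (by norm_num : (0 : ℝ) < 1 / 4))
    have e2 := (tendsto_norm_zero h2).eventually
      (ge_mem_nhds (by positivity : (0 : ℝ) < 1 / ((k : ℝ) + 1)))
    obtain ⟨n, hn1, hn2⟩ := (e1.and e2).exists
    exact ⟨ψ n, hn1, hn2⟩
  choose ψ h1 h2 using key
  have hR1 : (0 : ℝ) < R + 1 := by linarith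
  have hb : ∀ k, ‖ψ k‖ ≤ R + 1 := by
    intro k
    have a1 : ‖(u k : Completion C)‖ ≤ R := hu k
    have a2 := norm_le_norm_add_norm_sub' (ψ k : Completion C) (u k : Completion C)
    rw [Completion.norm_coe] at a2
    linarith [h1 k]
  have hD0 : Tendsto (fun k => D (ψ k)) atTop (𝓝 0) :=
    squeeze_zero_norm h2 tendsto_one_div_add_atTop_nhds_zero_nat
  obtain ⟨φ, hφ, hc⟩ := h.proper (fun k => (R + 1)⁻¹ • ψ k)
    (fun k => by
      rw [norm_smul, norm_inv, Real.norm_of_nonneg hR1.le, inv_mul_le_iff₀ hR1, mul_one]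
      exact hb k)
    (by
      have := (hD0.const_smul (R + 1)⁻¹).cauchySeq
      simpa only [map_smul] using this)
  have hc' : CauchySeq fun k => ψ (φ k) := by
    have := (uniformContinuous_const_smul (R + 1)).comp_cauchySeq hc
    refine (cauchySeq_congr_of_eq ?_).1 this
    intro k
    simp only [Function.comp, smul_smul, mul_inv_cancel₀ hR1.ne', one_smul]
  obtain ⟨N, hN⟩ := Metric.cauchySeq_iff'.1 hc' (1 / 2) (by norm_num)
  have a1 := hN (N + 1) (Nat.le_succ N)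
  have a2 : 1 ≤ ‖(u (φ (N + 1)) : Completion C) - (u (φ N) : Completion C)‖ :=
    hsep (hφ (Nat.lt_succ_self N)).ne'
  rw [dist_eq_norm, ← Completion.norm_coe, Completion.coe_sub] at a1
  have a3 : (u (φ (N + 1)) : Completion C) - (u (φ N) : Completion C) =
      ((ψ (φ (N + 1)) : Completion C) - (ψ (φ N) : Completion C)) -
        ((ψ (φ (N + 1)) : Completion C) - (u (φ (N + 1)) : Completion C)) +
        ((ψ (φ N) : Completion C) - (u (φ N) : Completion C)) := by abel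
  rw [a3] at a2
  have a4 := a2.trans ((norm_add_le _ _).trans (add_le_add_left (norm_sub_le _ _) _))
  linarith [h1 (φ (N + 1)), h1 (φ N)]

/-- A gap on the `p`-eigenspace of the grading kills that part of the kernel. -/
theorem Fred.ker_eq_bot {D ε : C →ₗ[ℝ] C} (h : Fred D ε) {p c : ℝ} (hp : p = 1 ∨ p = -1)
    (hc : 0 < c) (hgap : ∀ x, ε x = p • x → c * ‖x‖ ≤ ‖D x‖) : Ker D ε p = ⊥ := by
  rw [Submodule.eq_bot_iff]
  rintro u ⟨hu, hε⟩
  obtain ⟨ψ, h1, h2⟩ := gcl_seq (h.esa _ _ hu)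
  have hpp : p * p = 1 := by rcases hp with rfl | rfl <;> norm_num
  have hpn : |p| = 1 := by rcases hp with rfl | rfl <;> norm_num
  have hχ : ∀ k, ‖ψ k + p • ε (ψ k)‖ ≤ (2 / c) * ‖D (ψ k)‖ := by
    intro k
    have a1 := hgap (ψ k + p • ε (ψ k)) (by
      rw [map_add, map_smul, h.εsq, smul_add, smul_smul, hpp, one_smul, add_comm])
    rw [map_add, map_smul, h.odd] at a1
    have a2 := norm_add_le (D (ψ k)) (p • -ε (D (ψ k)))
    rw [norm_smul, norm_neg, norm_eps h, Real.norm_eq_abs, hpn, one_mul] at a2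
    rw [div_mul_eq_mul_div, le_div_iff₀ hc]
    linarith
  have h3 : Tendsto (fun k => ‖ψ k + p • ε (ψ k)‖) atTop (𝓝 0) := by
    refine squeeze_zero (fun k => norm_nonneg _) hχ ?_
    simpa only [mul_zero] using (tendsto_norm_zero h2).const_mul (2 / c)
  refine ext_inner fun φ => ?_
  have a1 := tendsto_inner_zero h3 φ
  have a2 := (tendsto_inner h1 φ).add ((tendsto_inner h1 (ε φ)).const_mul p)
  have a3 := tendsto_nhds_unique a1 (a2.congr fun k => by
    rw [inner_add_left, real_inner_smul_left, h.εsym])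
  rw [hε, ← mul_assoc, hpp, one_mul] at a3
  rw [inner_zero_left]
  linarith

theorem Fred.ind_eq_zero {D ε : C →ₗ[ℝ] C} (h : Fred D ε) {c : ℝ} (hc : 0 < c)
    (hgap : ∀ x, c * ‖x‖ ≤ ‖D x‖) : ind D ε = 0 := by
  rw [ind, h.ker_eq_bot (Or.inl rfl) hc fun x _ => hgap x,
    h.ker_eq_bot (Or.inr rfl) hc fun x _ => hgap x, sub_self]

/-- An approximate kernel sequence gives a nonzero kernel element. -/
theorem ker_ne_bot {D ε : C →ₗ[ℝ] C} (hD : Sym D) (hε : Sym ε) {p c : ℝ} (hc : 0 < c)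
    (ψ : ℕ → C) (hψ : CauchySeq ψ) (hc' : ∀ k, c ≤ ‖ψ k‖) (hp : ∀ k, ε (ψ k) = p • ψ k)
    (h0 : Tendsto (fun k => ‖D (ψ k)‖) atTop (𝓝 0)) : Ker D ε p ≠ ⊥ := by
  obtain ⟨u, hu⟩ := cauchySeq_tendsto_of_complete
    ((Completion.uniformContinuous_coe C).comp_cauchySeq hψ)
  have hu' : Tendsto (fun k => (ψ k : Completion C)) atTop (𝓝 u) := hu
  rw [Submodule.ne_bot_iff]
  refine ⟨u, ⟨fun φ => ?_, fun φ => ?_⟩, ?_⟩
  · rw [inner_zero_left]
    exact tendsto_nhds_unique (tendsto_inner hu' (D φ))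
      ((tendsto_inner_zero h0 φ).congr fun k => hD _ _)
  · exact tendsto_nhds_unique (tendsto_inner hu' (ε φ))
      (((tendsto_inner hu' φ).const_mul p).congr fun k => by
        rw [← hε, hp, real_inner_smul_left])
  · have : c ≤ ‖u‖ := ge_of_tendsto' hu'.norm fun k => by
      rw [Completion.norm_coe]; exact hc' k
    rintro rfl
    rw [norm_zero] at this
    linarith

theorem Fred.neg {D ε : C →ₗ[ℝ] C} (h : Fred D ε) {p : ℝ} (hp : p = 1 ∨ p = -1) :
    Fred (p • D) (p • ε) := by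
  rcases hp with rfl | rfl
  · simpa only [one_smul] using h
  rw [neg_one_smul, neg_one_smul]
  refine ⟨fun x y => ?_, fun x y => ?_, fun x => ?_, fun x => ?_, fun u f huf => ?_,
    fun ψ hψ hc => ?_⟩
  · simp only [LinearMap.neg_apply, inner_neg_left, inner_neg_right, h.sym x y]
  · simp only [LinearMap.neg_apply, inner_neg_left, inner_neg_right, h.εsym x y]
  · simp only [LinearMap.neg_apply, map_neg, neg_neg, h.εsq]
  · simp only [LinearMap.neg_apply, map_neg, neg_neg, h.odd]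
  · have : Weak D u (-f) := fun φ => by
      have := huf φ
      rw [LinearMap.neg_apply, Completion.coe_neg, inner_neg_right] at this
      rw [inner_neg_left, ← this, neg_neg]
    obtain ⟨ψ, h1, h2⟩ := gcl_seq (h.esa _ _ this)
    refine gcl_of_seq ψ h1 ?_
    simpa only [LinearMap.neg_apply, Completion.coe_neg, neg_neg] using h2.neg
  · refine h.proper ψ hψ ?_
    have := hc.neg
    refine (cauchySeq_congr_of_eq ?_).1 this
    intro k
    simp only [Pi.neg_apply, LinearMap.neg_apply, neg_neg]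

theorem ind_smul (D ε : C →ₗ[ℝ] C) {p : ℝ} (hp : p = 1 ∨ p = -1) :
    ind (p • D) (p • ε) = p * ind D ε := by
  rcases hp with rfl | rfl
  · simp only [one_smul, one_mul]
  rw [neg_one_smul, neg_one_smul, ind, ind, ker_neg, ker_neg, neg_neg]
  ring

/-- If every element of the kernel comes from a subspace `S` of honest solutions, dimensions
agree. -/
theorem finrank_ker_eq {D ε : C →ₗ[ℝ] C} (hD : Sym D) (hε : Sym ε) (p : ℝ) (S : Submodule ℝ C)
    (hS : ∀ x ∈ S, D x = 0 ∧ ε x = p • x)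
    (hreg : ∀ u ∈ Ker D ε p, ∃ x ∈ S, (x : Completion C) = u) :
    Module.finrank ℝ (Ker D ε p) = Module.finrank ℝ S := by
  have : Ker D ε p = S.map (Completion.toComplₗᵢ (𝕜 := ℝ) (E := C)).toLinearMap := by
    ext u
    constructor
    · intro hu
      obtain ⟨x, hx, rfl⟩ := hreg u hu
      exact ⟨x, hx, rfl⟩
    · rintro ⟨x, hx, rfl⟩
      refine ⟨fun φ => ?_, fun φ => ?_⟩
      · change ⟪(x : Completion C), _⟫ = _
        rw [Completion.inner_coe, ← hD, (hS x hx).1, inner_zero_left, inner_zero_left]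
      · change ⟪(x : Completion C), _⟫ = p * ⟪(x : Completion C), _⟫
        rw [Completion.inner_coe, Completion.inner_coe, ← hε, (hS x hx).2, real_inner_smul_left]
  rw [this]
  exact (Submodule.equivMapOfInjective _
    (Completion.toComplₗᵢ (𝕜 := ℝ) (E := C)).injective S).finrank_eq.symm

section Sum

variable {C₁ C₂ : Type} [NormedAddCommGroup C₁] [InnerProductSpace ℝ C₁]
  [NormedAddCommGroup C₂] [InnerProductSpace ℝ C₂]

/-- Additivity under an orthogonal decomposition `C = j₁ C₁ ⊕ j₂ C₂`. -/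
theorem ind_add {D ε : C →ₗ[ℝ] C} {D₁ ε₁ : C₁ →ₗ[ℝ] C₁} {D₂ ε₂ : C₂ →ₗ[ℝ] C₂}
    (h₁ : Fred D₁ ε₁) (h₂ : Fred D₂ ε₂) (j₁ : C₁ →ₗ[ℝ] C) (j₂ : C₂ →ₗ[ℝ] C)
    (i₁ : ∀ x y, ⟪j₁ x, j₁ y⟫ = ⟪x, y⟫) (i₂ : ∀ x y, ⟪j₂ x, j₂ y⟫ = ⟪x, y⟫)
    (i₁₂ : ∀ x y, ⟪j₁ x, j₂ y⟫ = 0) (hsurj : ∀ z, ∃ x y, z = j₁ x + j₂ y)
    (d₁ : ∀ x, D (j₁ x) = j₁ (D₁ x)) (d₂ : ∀ x, D (j₂ x) = j₂ (D₂ x))
    (e₁ : ∀ x, ε (j₁ x) = j₁ (ε₁ x)) (e₂ : ∀ x, ε (j₂ x) = j₂ (ε₂ x)) :
    Fred D ε ∧ ind D ε = ind D₁ ε₁ + ind D₂ ε₂ := by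
  have i₂₁ : ∀ y x, ⟪j₂ y, j₁ x⟫ = 0 := fun y x => by rw [real_inner_comm, i₁₂]
  have hin : ∀ (a : Completion C₁) (b : Completion C₂) (x : C₁) (y : C₂),
      ⟪ex j₁ i₁ a + ex j₂ i₂ b, ((j₁ x + j₂ y : C) : Completion C)⟫ =
        ⟪a, (x : Completion C₁)⟫ + ⟪b, (y : Completion C₂)⟫ := by
    intro a b x y
    rw [Completion.coe_add, inner_add_left, inner_add_right, inner_add_right, inner_ex, inner_ex,
      inner_ex_zero j₁ i₁ a fun x => i₁₂ x y, inner_ex_zero j₂ i₂ b fun y => i₂₁ y x, add_zero,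
      zero_add]
  have hdec : ∀ u : Completion C,
      ex j₁ i₁ ((ex j₁ i₁).adjoint u) + ex j₂ i₂ ((ex j₂ i₂).adjoint u) = u := by
    intro u
    refine ext_inner fun z => ?_
    obtain ⟨x, y, rfl⟩ := hsurj z
    rw [hin, inner_adj, inner_adj, Completion.coe_add, inner_add_right]
  have hsym : ∀ (T : C →ₗ[ℝ] C) (T₁ : C₁ →ₗ[ℝ] C₁) (T₂ : C₂ →ₗ[ℝ] C₂), Sym T₁ → Sym T₂ →
      (∀ x, T (j₁ x) = j₁ (T₁ x)) → (∀ x, T (j₂ x) = j₂ (T₂ x)) → Sym T := by
    intro T T₁ T₂ s₁ s₂ t₁ t₂ z w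
    obtain ⟨x, y, rfl⟩ := hsurj z
    obtain ⟨x', y', rfl⟩ := hsurj w
    simp only [map_add, t₁, t₂, inner_add_left, inner_add_right, i₁, i₂, i₁₂, i₂₁, s₁ x x',
      s₂ y y']
  have hw₁ : ∀ u f, Weak D u f → Weak D₁ ((ex j₁ i₁).adjoint u) ((ex j₁ i₁).adjoint f) :=
    fun u f huf x => by rw [inner_adj, inner_adj, ← d₁, huf]
  have hw₂ : ∀ u f, Weak D u f → Weak D₂ ((ex j₂ i₂).adjoint u) ((ex j₂ i₂).adjoint f) :=
    fun u f huf x => by rw [inner_adj, inner_adj, ← d₂, huf]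
  have hrank : ∀ p : ℝ, Module.finrank ℝ (Ker D ε p) =
      Module.finrank ℝ (Ker D₁ ε₁ p) + Module.finrank ℝ (Ker D₂ ε₂ p) := by
    intro p
    have := h₁.finiteDimensional p
    have := h₂.finiteDimensional p
    let F₀ : (Ker D₁ ε₁ p × Ker D₂ ε₂ p) →ₗ[ℝ] Completion C :=
      ((ex j₁ i₁).toLinearMap ∘ₗ (Ker D₁ ε₁ p).subtype).coprod
        ((ex j₂ i₂).toLinearMap ∘ₗ (Ker D₂ ε₂ p).subtype)
    have hF₀ : ∀ a, F₀ a = ex j₁ i₁ a.1 + ex j₂ i₂ a.2 := fun a => rfl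
    have hinj : Function.Injective F₀ := by
      rw [injective_iff_map_eq_zero]
      rintro ⟨a, b⟩ hab
      rw [hF₀] at hab
      have ha : (a : Completion C₁) = 0 := ext_inner fun x => by
        have := hin a b x 0
        rw [hab, Completion.coe_zero, inner_zero_left, inner_zero_right, add_zero] at this
        rw [← this, inner_zero_left]
      have hb : (b : Completion C₂) = 0 := ext_inner fun y => by
        have := hin a b 0 y
        rw [hab, Completion.coe_zero, inner_zero_left, inner_zero_right, zero_add] at this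
        rw [← this, inner_zero_left]
      exact Prod.ext (Subtype.ext ha) (Subtype.ext hb)
    have hrange : Ker D ε p = LinearMap.range F₀ := by
      ext u
      constructor
      · rintro ⟨hu, hε⟩
        refine ⟨(⟨(ex j₁ i₁).adjoint u, ?_, fun x => ?_⟩, ⟨(ex j₂ i₂).adjoint u, ?_, fun x => ?_⟩),
          hdec u⟩
        · simpa only [map_zero] using hw₁ u 0 hu
        · rw [inner_adj, inner_adj, ← e₁, hε]
        · simpa only [map_zero] using hw₂ u 0 hu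
        · rw [inner_adj, inner_adj, ← e₂, hε]
      · rintro ⟨⟨a, b⟩, rfl⟩
        rw [hF₀]
        refine ⟨fun z => ?_, fun z => ?_⟩
        · obtain ⟨x, y, rfl⟩ := hsurj z
          rw [map_add, d₁, d₂, hin, a.2.1, b.2.1, inner_zero_left, inner_zero_left, inner_zero_left,
            add_zero]
        · obtain ⟨x, y, rfl⟩ := hsurj z
          rw [map_add, e₁, e₂, hin, hin, a.2.2, b.2.2, mul_add]
    rw [hrange, LinearMap.finrank_range_of_inj hinj, Module.finrank_prod]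
  refine ⟨⟨hsym D D₁ D₂ h₁.sym h₂.sym d₁ d₂, hsym ε ε₁ ε₂ h₁.εsym h₂.εsym e₁ e₂, fun z => ?_,
    fun z => ?_, fun u f huf => ?_, fun ψ hψ hc => ?_⟩, ?_⟩
  · obtain ⟨x, y, rfl⟩ := hsurj z
    simp only [map_add, e₁, e₂, h₁.εsq, h₂.εsq]
  · obtain ⟨x, y, rfl⟩ := hsurj z
    simp only [map_add, e₁, e₂, d₁, d₂, h₁.odd, h₂.odd, map_neg, neg_add]
  · obtain ⟨x, x1, x2⟩ := gcl_seq (h₁.esa _ _ (hw₁ u f huf))
    obtain ⟨y, y1, y2⟩ := gcl_seq (h₂.esa _ _ (hw₂ u f huf))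
    refine gcl_of_seq (fun k => j₁ (x k) + j₂ (y k)) ?_ ?_
    · have := (((ex j₁ i₁).continuous.tendsto _).comp x1).add
        (((ex j₂ i₂).continuous.tendsto _).comp y1)
      rw [hdec] at this
      exact this.congr fun k => by simp only [Function.comp, ex_coe, Completion.coe_add]
    · have := (((ex j₁ i₁).continuous.tendsto _).comp x2).add
        (((ex j₂ i₂).continuous.tendsto _).comp y2)
      rw [hdec] at this
      exact this.congr fun k => by
        simp only [Function.comp, ex_coe, Completion.coe_add, map_add, d₁, d₂]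
  · choose x y hxy using fun k => hsurj (ψ k)
    have hc' : CauchySeq fun k => j₁ (D₁ (x k)) + j₂ (D₂ (y k)) :=
      (cauchySeq_congr_of_eq fun k => by rw [hxy k, map_add, d₁, d₂]).1 hc
    have c1 := cauchy_of_orth i₁ i₁₂ _ _ hc'
    have c2 := cauchy_of_orth i₂ i₂₁ (fun k => D₂ (y k)) (fun k => D₁ (x k))
      ((cauchySeq_congr_of_eq fun k => add_comm _ _).1 hc')
    obtain ⟨φ, hφ, hx⟩ := h₁.proper x (fun k => (norm_le_of_orth i₁ i₁₂ _ (y k)).trans
      (hxy k ▸ hψ k)) c1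
    obtain ⟨φ', hφ', hy⟩ := h₂.proper (y ∘ φ) (fun k => (norm_le_of_orth i₂ i₂₁ _ (x (φ k))).trans
      (by rw [add_comm, Function.comp, ← hxy]; exact hψ _)) (c2.comp_tendsto hφ.tendsto_atTop)
    refine ⟨φ ∘ φ', hφ.comp hφ', ?_⟩
    have := ((j₁.isometryOfInner i₁).toContinuousLinearMap.uniformContinuous.comp_cauchySeq
      (hx.comp_tendsto hφ'.tendsto_atTop)).add
      ((j₂.isometryOfInner i₂).toContinuousLinearMap.uniformContinuous.comp_cauchySeq hy)
    exact (cauchySeq_congr_of_eq fun k => (hxy (φ (φ' k))).symm).1 this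
  · simp only [ind, hrank, Nat.cast_add]
    ring

/-- Unitary invariance. -/
theorem ind_unitary {D ε : C →ₗ[ℝ] C} {D₁ ε₁ : C₁ →ₗ[ℝ] C₁} (h₁ : Fred D₁ ε₁)
    (j : C₁ →ₗ[ℝ] C) (i₁ : ∀ x y, ⟪j x, j y⟫ = ⟪x, y⟫) (hsurj : Function.Surjective j)
    (d₁ : ∀ x, D (j x) = j (D₁ x)) (e₁ : ∀ x, ε (j x) = j (ε₁ x)) :
    Fred D ε ∧ ind D ε = ind D₁ ε₁ := by
  have h₂ : Fred (0 : (⊥ : Submodule ℝ C₁) →ₗ[ℝ] (⊥ : Submodule ℝ C₁)) 0 := by
    have hz : ∀ u : Completion (⊥ : Submodule ℝ C₁), u = 0 := fun u => ext_inner fun ψ => by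
      rw [Subsingleton.elim ψ 0, Completion.coe_zero, inner_zero_right, inner_zero_right]
    refine ⟨fun x y => by simp, fun x y => by simp, fun x => Subsingleton.elim _ _,
      fun x => Subsingleton.elim _ _, fun u f _ => subset_closure ⟨0, Prod.ext ?_ ?_⟩,
      fun ψ _ _ => ⟨id, strictMono_id, ?_⟩⟩
    · exact (hz _).trans (hz _).symm
    · exact (hz _).trans (hz _).symm
    · exact (cauchySeq_congr_of_eq fun k => Subsingleton.elim _ _).1 (cauchySeq_const 0)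
  have h0 := h₂.ind_eq_zero one_pos fun x => by rw [Subsingleton.elim x 0]; simp
  have := ind_add (D := D) (ε := ε) h₁ h₂ j 0 i₁
    (fun x y => by rw [Subsingleton.elim x 0]; simp) (fun x y => by simp)
    (fun z => by obtain ⟨x, rfl⟩ := hsurj z; exact ⟨x, 0, by simp⟩) d₁ (fun x => by simp) e₁
    (fun x => by simp)
  rwa [h0, add_zero] at this

end Sum

end SZ
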