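import Pool.Agent.P.MP_8db816_gt.SZ.AbsKer

/-! The abstract product formula for the index. -/

noncomputable section

namespace SZ

open UniformSpace Filter Topology
open scoped RealInnerProductSpace

variable {C : Type} [NormedAddCommGroup C] [InnerProductSpace ℝ C]

variable {C₁ C₂ : Type} [NormedAddCommGroup C₁] [InnerProductSpace ℝ C₁]
  [NormedAddCommGroup C₂] [InnerProductSpace ℝ C₂]

namespace AbsProd

theorem norm_inv {ε : C →ₗ[ℝ] C} (hs : Sym ε) (hq : ∀ x, ε (ε x) = x) (x : C) : ‖ε x‖ = ‖x‖ := by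
  have h : ⟪ε x, ε x⟫ = ⟪x, x⟫ := by rw [hs, hq]
  rw [real_inner_self_eq_norm_sq, real_inner_self_eq_norm_sq] at h
  exact (pow_left_inj₀ (norm_nonneg _) (norm_nonneg _) two_ne_zero).1 h

theorem eq_of_inner {u v : Completion C} (h : ∀ ψ : C, ⟪u, (ψ : Completion C)⟫ = ⟪v, (ψ : Completion C)⟫) :
    u = v := by
  refine ext_inner_right ℝ fun w => ?_
  induction w using Completion.induction_on with
  | hp => exact isClosed_eq (continuous_const.inner continuous_id) (continuous_const.inner continuous_id)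
  | ih w => exact h w

theorem exists_ext {ε : C →ₗ[ℝ] C} (hs : Sym ε) (hq : ∀ x, ε (ε x) = x) :
    ∃ E : Completion C →L[ℝ] Completion C, (∀ x : C, E x = (ε x : C)) ∧
      (∀ u v, ⟪E u, v⟫ = ⟪u, E v⟫) ∧ ∀ u, E (E u) = u := by
  let e : C →L[ℝ] C := ε.mkContinuous 1 fun x => by rw [norm_inv hs hq, one_mul]
  have he : ∀ x : C, e.completion x = (ε x : C) := fun x => e.completion_apply_coe x
  refine ⟨e.completion, he, fun u v => ?_, fun u => ?_⟩
  · induction u, v using Completion.induction_on₂ with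
    | hp =>
      exact isClosed_eq ((e.completion.continuous.comp continuous_fst).inner continuous_snd)
        (continuous_fst.inner (e.completion.continuous.comp continuous_snd))
    | ih a b => rw [he, he, Completion.inner_coe, Completion.inner_coe, hs]
  · induction u using Completion.induction_on with
    | hp => exact isClosed_eq (e.completion.continuous.comp e.completion.continuous) continuous_id
    | ih a => rw [he, he, hq]

theorem mem_ker_iff {D ε : C →ₗ[ℝ] C} {E : Completion C →L[ℝ] Completion C}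
    (he : ∀ x : C, E x = (ε x : C)) (hs : ∀ u v, ⟪E u, v⟫ = ⟪u, E v⟫) {p : ℝ} {u : Completion C} :
    u ∈ Ker D ε p ↔ Weak D u 0 ∧ E u = p • u := by
  refine and_congr_right fun _ => ⟨fun h => eq_of_inner fun ψ => ?_, fun h ψ => ?_⟩
  · rw [hs, he, h, real_inner_smul_left]
  · rw [← he, ← hs, h, real_inner_smul_left]

theorem ker_orth {D ε : C →ₗ[ℝ] C} (h : Fred D ε) {p q : ℝ} (hpq : p ≠ q) {u w : Completion C}
    (hu : u ∈ Ker D ε p) (hw : w ∈ Ker D ε q) : ⟪u, w⟫ = 0 := by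
  obtain ⟨E, he, hs, -⟩ := exists_ext h.εsym h.εsq
  have h1 := hs u w
  rw [((mem_ker_iff he hs).1 hu).2, ((mem_ker_iff he hs).1 hw).2, real_inner_smul_left,
    real_inner_smul_right] at h1
  have h2 : (p - q) * ⟪u, w⟫ = 0 := by linarith
  exact (mul_eq_zero.1 h2).resolve_left (sub_ne_zero.2 hpq)

theorem vanish {D ε : C →ₗ[ℝ] C} (h : Fred D ε) (f : Completion C →L[ℝ] ℝ)
    (h0 : ∀ ψ : C, f ((D ψ : C) : Completion C) = 0) (h1 : ∀ u ∈ Ker D ε 1, f u = 0)
    (h2 : ∀ u ∈ Ker D ε (-1), f u = 0) (y : Completion C) : f y = 0 := by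
  obtain ⟨E, he, hs, hq⟩ := exists_ext h.εsym h.εsq
  obtain ⟨x, hx⟩ : ∃ x : Completion C, ∀ z, f z = ⟪x, z⟫ :=
    ⟨(InnerProductSpace.toDual ℝ (Completion C)).symm f,
      fun z => (InnerProductSpace.toDual_symm_apply).symm⟩
  have hw : ∀ ψ : C, ⟪x, ((D ψ : C) : Completion C)⟫ = 0 := fun ψ => by rw [← hx, h0]
  have hEw : ∀ ψ : C, ⟪E x, ((D ψ : C) : Completion C)⟫ = 0 := fun ψ => by
    have e : ε (D ψ) = -D (ε ψ) := by rw [h.odd, neg_neg]
    rw [hs, he, e, Completion.coe_neg, inner_neg_right, hw, neg_zero]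
  have hp : x + E x ∈ Ker D ε 1 := (mem_ker_iff he hs).2
    ⟨fun ψ => by rw [inner_add_left, hw, hEw, inner_zero_left, add_zero],
      by rw [map_add, hq, one_smul, add_comm]⟩
  have hm : x - E x ∈ Ker D ε (-1) := (mem_ker_iff he hs).2
    ⟨fun ψ => by rw [inner_sub_left, hw, hEw, inner_zero_left, sub_zero],
      by rw [map_sub, hq, neg_one_smul, neg_sub]⟩
  have h3 := h1 _ hp
  have h4 := h2 _ hm
  rw [map_add] at h3
  rw [map_sub] at h4
  have h5 : ⟪x, x⟫ = 0 := by rw [← hx]; linarith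
  rw [hx, inner_self_eq_zero.1 h5, inner_zero_left]

theorem norm_t {t : C₁ →ₗ[ℝ] C₂ →ₗ[ℝ] C}
    (hi : ∀ a b a' b', ⟪t a b, t a' b'⟫ = ⟪a, a'⟫ * ⟪b, b'⟫) (a : C₁) (b : C₂) :
    ‖t a b‖ = ‖a‖ * ‖b‖ := by
  have h := hi a b a b
  rw [real_inner_self_eq_norm_sq, real_inner_self_eq_norm_sq, real_inner_self_eq_norm_sq,
    ← mul_pow] at h
  exact (pow_left_inj₀ (norm_nonneg _) (by positivity) two_ne_zero).1 h

theorem exists_T (t : C₁ →ₗ[ℝ] C₂ →ₗ[ℝ] C)
    (hi : ∀ a b a' b', ⟪t a b, t a' b'⟫ = ⟪a, a'⟫ * ⟪b, b'⟫) :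
    ∃ T : Completion C₁ →L[ℝ] Completion C₂ →L[ℝ] Completion C,
      (∀ (a : C₁) (b : C₂), T a b = (t a b : C)) ∧
      ∀ x y x' y', ⟪T x y, T x' y'⟫ = ⟪x, x'⟫ * ⟪y, y'⟫ := by
  let t0 : C₁ →L[ℝ] C₂ →L[ℝ] C := t.mkContinuous₂ 1 fun a b => by rw [norm_t hi, one_mul]
  let t1 : C₁ →L[ℝ] C₂ →L[ℝ] Completion C :=
    (ContinuousLinearMap.compL ℝ C₂ C (Completion C) Completion.toComplL).comp t0
  let T : Completion C₁ →L[ℝ] Completion C₂ →L[ℝ] Completion C :=
    (t1.fromCompletion.flip.fromCompletion).flip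
  have hT : ∀ (a : C₁) (b : C₂), T a b = (t a b : C) := fun a b => by
    simp only [T, ContinuousLinearMap.flip_apply, ContinuousLinearMap.fromCompletion_apply_coe]
    rfl
  have hc : Continuous fun z : Completion C₁ × Completion C₂ => T z.1 z.2 := T.continuous₂
  refine ⟨T, hT, fun x y x' y' => ?_⟩
  have key : ∀ (a : C₁) (b : C₂) (x' : Completion C₁) (y' : Completion C₂),
      ⟪T a b, T x' y'⟫ = ⟪(a : Completion C₁), x'⟫ * ⟪(b : Completion C₂), y'⟫ := by
    intro a b x' y'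
    induction x', y' using Completion.induction_on₂ with
    | hp =>
      exact isClosed_eq (continuous_const.inner hc)
        ((continuous_const.inner continuous_fst).mul (continuous_const.inner continuous_snd))
    | ih a' b' =>
      rw [hT, hT, Completion.inner_coe, Completion.inner_coe, Completion.inner_coe, hi]
  induction x, y using Completion.induction_on₂ with
  | hp =>
    exact isClosed_eq (hc.inner continuous_const)
      ((continuous_fst.inner continuous_const).mul (continuous_snd.inner continuous_const))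
  | ih a b => exact key a b x' y'

theorem seq_of_weak {D ε : C →ₗ[ℝ] C} (h : Fred D ε) {u : Completion C} (hu : Weak D u 0) :
    ∃ ψ : ℕ → C, Tendsto (fun k => (ψ k : Completion C)) atTop (𝓝 u) ∧
      Tendsto (fun k => ‖D (ψ k)‖) atTop (𝓝 0) := by
  obtain ⟨z, hz, hl⟩ := mem_closure_iff_seq_limit.1 (h.esa u 0 hu)
  choose ψ hψ using hz
  have e : z = fun k => ((ψ k : Completion C), ((D (ψ k) : C) : Completion C)) :=
    funext fun k => (hψ k).symm
  subst e
  refine ⟨ψ, (continuous_fst.tendsto _).comp hl, ?_⟩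
  have h2 := ((continuous_snd.tendsto _).comp hl).norm
  simpa only [Function.comp_def, Completion.norm_coe, norm_zero] using h2

/-- Testing a limit against a bounded family. -/
theorem inner_eq_zero_of_seq {u : Completion C} {ψ : ℕ → C} {r : ℕ → ℝ} (w : C)
    (hl : Tendsto (fun k => (ψ k : Completion C)) atTop (𝓝 u)) (hr : Tendsto r atTop (𝓝 0))
    (hb : ∀ k, |⟪ψ k, w⟫| ≤ r k) : ⟪u, (w : Completion C)⟫ = 0 := by
  have h1 : Tendsto (fun k => ⟪(ψ k : Completion C), (w : Completion C)⟫) atTop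
      (𝓝 ⟪u, (w : Completion C)⟫) := hl.inner tendsto_const_nhds
  have h2 : Tendsto (fun k => ⟪(ψ k : Completion C), (w : Completion C)⟫) atTop (𝓝 0) := by
    refine squeeze_zero_norm (fun k => ?_) hr
    rw [Completion.inner_coe, Real.norm_eq_abs]
    exact hb k
  exact tendsto_nhds_unique h1 h2

theorem finrank_eq_card {H ι : Type} [NormedAddCommGroup H] [InnerProductSpace ℝ H] [Fintype ι]
    (K : Submodule ℝ H) (v : ι → H) (hv : Orthonormal ℝ v) (hK : ∀ i, v i ∈ K)
    (hs : ∀ u ∈ K, (∀ i, ⟪u, v i⟫ = 0) → u = 0) : Module.finrank ℝ K = Fintype.card ι := by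
  have e : K = Submodule.span ℝ (Set.range v) := by
    refine le_antisymm (fun u hu => ?_) (Submodule.span_le.2 (by rintro _ ⟨i, rfl⟩; exact hK i))
    have h1 : u - ∑ i, ⟪u, v i⟫ • v i = 0 := by
      refine hs _ (K.sub_mem hu (K.sum_mem fun i _ => K.smul_mem _ (hK i))) fun j => ?_
      rw [inner_sub_left, hv.inner_left_fintype]
      simp
    rw [sub_eq_zero.1 h1]
    exact Submodule.sum_mem _ fun i _ => Submodule.smul_mem _ _ (Submodule.subset_span ⟨i, rfl⟩)
  rw [e, finrank_span_eq_card hv.linearIndependent]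

theorem exists_onb {D ε : C →ₗ[ℝ] C} (h : Fred D ε) (p : ℝ) :
    ∃ e : Fin (Module.finrank ℝ (Ker D ε p)) → Completion C, Orthonormal ℝ e ∧
      (∀ i, e i ∈ Ker D ε p) ∧
      ∀ f : Completion C →L[ℝ] ℝ, (∀ i, f (e i) = 0) → ∀ u ∈ Ker D ε p, f u = 0 := by
  have := h.finiteDimensional p
  let b := stdOrthonormalBasis ℝ (Ker D ε p)
  refine ⟨fun i => (b i).1, b.orthonormal.comp_linearIsometry (Ker D ε p).subtypeₗᵢ,
    fun i => (b i).2, fun f hf u hu => ?_⟩
  have h1 : u = ∑ i, b.repr ⟨u, hu⟩ i • (b i).1 := by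
    have h2 := congrArg Subtype.val (b.sum_repr ⟨u, hu⟩)
    rw [Submodule.coe_sum] at h2
    exact h2.symm
  rw [h1, map_sum]
  exact Finset.sum_eq_zero fun i _ => by rw [map_smul, hf, smul_zero]

theorem ext_span {t : C₁ →ₗ[ℝ] C₂ →ₗ[ℝ] C}
    (hd : Dense (Submodule.span ℝ (Set.range fun z : C₁ × C₂ => t z.1 z.2) : Set C))
    (f : C →L[ℝ] ℝ) (hf : ∀ a b, f (t a b) = 0) (y : C) : f y = 0 := by
  have h1 : (Submodule.span ℝ (Set.range fun z : C₁ × C₂ => t z.1 z.2) : Set C) ⊆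
      {y | f y = 0} := by
    have : Submodule.span ℝ (Set.range fun z : C₁ × C₂ => t z.1 z.2) ≤ LinearMap.ker f.toLinearMap :=
      Submodule.span_le.2 (by rintro _ ⟨z, rfl⟩; exact hf z.1 z.2)
    exact fun y hy => this hy
  have h2 : IsClosed {y | f y = 0} := isClosed_eq f.continuous continuous_const
  exact h2.closure_subset_iff.2 h1 (hd y)

end AbsProd

open AbsProd

/-- `D = D₁ ⊗ 1 + α ⊗ D₂` on a space `C` in which the tensors `t a b` span a dense subspace. -/
theorem ind_prod {D ε κ : C →ₗ[ℝ] C} {D₁ ε₁ α : C₁ →ₗ[ℝ] C₁} {D₂ ε₂ : C₂ →ₗ[ℝ] C₂}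
    (h : Fred D ε) (h₁ : Fred D₁ ε₁) (h₂ : Fred D₂ ε₂) (t : C₁ →ₗ[ℝ] C₂ →ₗ[ℝ] C)
    (hi : ∀ a b a' b', ⟪t a b, t a' b'⟫ = ⟪a, a'⟫ * ⟪b, b'⟫)
    (hd : Dense (Submodule.span ℝ (Set.range fun z : C₁ × C₂ => t z.1 z.2) : Set C))
    (hα : ∀ a, α (α a) = a) (hαs : Sym α) (hαD : ∀ a, D₁ (α a) = -α (D₁ a))
    (hαε : ∀ a, α (ε₁ a) = ε₁ (α a))
    (hD : ∀ a b, D (t a b) = t (D₁ a) b + t (α a) (D₂ b))
    (hε : ∀ a b, ε (t a b) = t (ε₁ a) (ε₂ b))
    (hκ : ∀ a b, κ (t a b) = t (ε₁ a) b) (hκs : Sym κ) (hκκ : ∀ x, κ (κ x) = x) :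
    ind D ε = ind D₁ ε₁ * ind D₂ ε₂ := by
  classical
  obtain ⟨T, hT, hTi⟩ := exists_T t hi
  obtain ⟨E, he, hs, -⟩ := exists_ext h.εsym h.εsq
  obtain ⟨E₁, he₁, hs₁, -⟩ := exists_ext h₁.εsym h₁.εsq
  obtain ⟨E₂, he₂, hs₂, -⟩ := exists_ext h₂.εsym h₂.εsq
  have hc : Continuous fun z : Completion C₁ × Completion C₂ => T z.1 z.2 := T.continuous₂
  -- the square of `D`
  have hDD : ∀ a b, D (D (t a b)) = t (D₁ (D₁ a)) b + t a (D₂ (D₂ b)) := fun a b => by
    rw [hD, map_add, hD, hD, hαD, hα, map_neg, LinearMap.neg_apply]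
    abel
  have hκD : ∀ a b, κ (D (D (κ (t a b)))) = D (D (t a b)) := fun a b => by
    rw [hκ, hDD, hDD, map_add, hκ, hκ, h₁.odd, map_neg, h₁.odd, neg_neg, h₁.εsq, h₁.εsq]
  have hκD' : ∀ x, κ (D (D (κ x))) = D (D x) := fun x => by
    refine ext_inner_right ℝ fun y => ?_
    refine sub_eq_zero.1 ?_
    rw [← inner_sub_left]
    refine ext_span hd (innerSL ℝ (κ (D (D (κ x))) - D (D x))) (fun a b => ?_) y
    rw [innerSL_apply_apply, inner_sub_left, hκs, h.sym, h.sym, hκs, hκD, h.sym, h.sym, sub_self]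
  have hnκ : ∀ x, ‖D (κ x)‖ = ‖D x‖ := fun x => by
    have h1 : ⟪D (κ x), D (κ x)⟫ = ⟪D x, D x⟫ := by
      rw [h.sym, hκs, hκD', h.sym]
    rw [real_inner_self_eq_norm_sq, real_inner_self_eq_norm_sq] at h1
    exact (pow_left_inj₀ (norm_nonneg _) (norm_nonneg _) two_ne_zero).1 h1
  -- kernel elements are orthogonal to both ranges
  have horth : ∀ u, Weak D u 0 → ∀ a b, ⟪u, ((t (D₁ a) b : C) : Completion C)⟫ = 0 ∧
      ⟪u, ((t a (D₂ b) : C) : Completion C)⟫ = 0 := by
    intro u hu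
    obtain ⟨ψ, hl, h0⟩ := seq_of_weak h hu
    have h1 : ∀ w : C, ⟪u, ((κ (D w) : C) : Completion C)⟫ = 0 := fun w => by
      refine inner_eq_zero_of_seq (r := fun k => ‖D (ψ k)‖ * ‖w‖) _ hl
        (by simpa using h0.mul_const ‖w‖) fun k => ?_
      rw [← hκs, ← h.sym, ← hnκ]
      exact abs_real_inner_le_norm _ _
    have h2 : ∀ a b, ⟪u, ((t (D₁ a) b : C) : Completion C)⟫ = 0 ∧
        ⟪u, ((t (α a) (D₂ b) : C) : Completion C)⟫ = 0 := fun a b => by
      have h3 := hu (t a b)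
      have h4 := h1 (t (ε₁ a) b)
      rw [hD, Completion.coe_add, inner_add_right, inner_zero_left] at h3
      rw [hD, map_add, hκ, hκ, h₁.odd, map_neg, h₁.εsq, hαε, h₁.εsq, map_neg, LinearMap.neg_apply,
        Completion.coe_add, Completion.coe_neg, inner_add_right, inner_neg_right] at h4
      constructor <;> linarith
    intro a b
    refine ⟨(h2 a b).1, ?_⟩
    have := (h2 (α a) b).2
    rwa [hα] at this
  -- products of kernel elements
  have hmem : ∀ (p q : ℝ) x y, x ∈ Ker D₁ ε₁ p → y ∈ Ker D₂ ε₂ q → T x y ∈ Ker D ε (p * q) := by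
    intro p q x y hx hy
    obtain ⟨hx0, hx1⟩ := (mem_ker_iff he₁ hs₁).1 hx
    obtain ⟨hy0, hy1⟩ := (mem_ker_iff he₂ hs₂).1 hy
    refine (mem_ker_iff he hs).2 ⟨fun w => ?_, ?_⟩
    · obtain ⟨a, ha, ha0⟩ := seq_of_weak h₁ hx0
      obtain ⟨b, hb, hb0⟩ := seq_of_weak h₂ hy0
      have hl : Tendsto (fun k => ((t (a k) (b k) : C) : Completion C)) atTop (𝓝 (T x y)) := by
        have := (hc.tendsto (x, y)).comp (ha.prodMk_nhds hb)
        simpa only [Function.comp_def, hT] using this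
      have han : Tendsto (fun k => ‖a k‖) atTop (𝓝 ‖x‖) := by
        simpa only [Completion.norm_coe] using ha.norm
      have hbn : Tendsto (fun k => ‖b k‖) atTop (𝓝 ‖y‖) := by
        simpa only [Completion.norm_coe] using hb.norm
      rw [inner_zero_left]
      refine inner_eq_zero_of_seq
        (r := fun k => (‖D₁ (a k)‖ * ‖b k‖ + ‖a k‖ * ‖D₂ (b k)‖) * ‖w‖) _ hl
        (by simpa using ((ha0.mul hbn).add (han.mul hb0)).mul_const ‖w‖) fun k => ?_
      rw [← h.sym]
      refine (abs_real_inner_le_norm _ _).trans (mul_le_mul_of_nonneg_right ?_ (norm_nonneg _))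
      rw [hD]
      refine (norm_add_le _ _).trans (le_of_eq ?_)
      rw [norm_t hi, norm_t hi, norm_inv hαs hα]
    · have h1 : ∀ x y, E (T x y) = T (E₁ x) (E₂ y) := fun x y => by
        induction x, y using Completion.induction_on₂ with
        | hp =>
          exact isClosed_eq (E.continuous.comp hc)
            (hc.comp ((E₁.continuous.comp continuous_fst).prodMk
              (E₂.continuous.comp continuous_snd)))
        | ih a b => rw [hT, he, he₁, he₂, hT, hε]
      rw [h1, hx1, hy1, map_smul, map_smul, smul_apply, smul_smul, mul_comm]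
  -- a kernel element orthogonal to all products of kernel elements vanishes
  have hzero : ∀ u, Weak D u 0 → (∀ p q : ℝ, (p = 1 ∨ p = -1) → (q = 1 ∨ q = -1) →
      ∀ x ∈ Ker D₁ ε₁ p, ∀ y ∈ Ker D₂ ε₂ q, ⟪u, T x y⟫ = 0) → u = 0 := by
    intro u hu hk
    have h1 : ∀ (a : C₁) y, ⟪u, T ((D₁ a : C₁) : Completion C₁) y⟫ = 0 := fun a y => by
      induction y using Completion.induction_on with
      | hp => exact isClosed_eq (continuous_const.inner (T _).continuous) continuous_const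
      | ih b => rw [hT]; exact (horth u hu a b).1
    have h2 : ∀ x (b : C₂), ⟪u, T x ((D₂ b : C₂) : Completion C₂)⟫ = 0 := fun x b => by
      induction x using Completion.induction_on with
      | hp => exact isClosed_eq (continuous_const.inner (T.flip _).continuous) continuous_const
      | ih a => rw [hT]; exact (horth u hu a b).2
    have h3 : ∀ p : ℝ, (p = 1 ∨ p = -1) → ∀ x ∈ Ker D₁ ε₁ p, ∀ y, ⟪u, T x y⟫ = 0 :=
      fun p hp x hx y => vanish h₂ ((innerSL ℝ u).comp (T x)) (h2 x)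
        (hk p 1 hp (Or.inl rfl) x hx) (hk p (-1) hp (Or.inr rfl) x hx) y
    have h4 : ∀ x y, ⟪u, T x y⟫ = 0 := fun x y =>
      vanish h₁ ((innerSL ℝ u).comp (T.flip y)) (fun a => h1 a y)
        (fun x hx => h3 1 (Or.inl rfl) x hx y) (fun x hx => h3 (-1) (Or.inr rfl) x hx y) x
    refine eq_of_inner fun ψ => ?_
    rw [inner_zero_left]
    refine ext_span hd ((innerSL ℝ u).comp Completion.toComplL) (fun a b => ?_) ψ
    have := h4 a b
    rw [hT] at this
    exact this
  -- dimensions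
  have hdim : ∀ p : ℝ, (p = 1 ∨ p = -1) → Module.finrank ℝ (Ker D ε p) =
      Module.finrank ℝ (Ker D₁ ε₁ 1) * Module.finrank ℝ (Ker D₂ ε₂ p) +
      Module.finrank ℝ (Ker D₁ ε₁ (-1)) * Module.finrank ℝ (Ker D₂ ε₂ (-p)) := by
    intro p hp
    obtain ⟨e, heo, hek, hef⟩ := exists_onb h₁ 1
    obtain ⟨e', heo', hek', hef'⟩ := exists_onb h₁ (-1)
    obtain ⟨f, hfo, hfk, hff⟩ := exists_onb h₂ p
    obtain ⟨f', hfo', hfk', hff'⟩ := exists_onb h₂ (-p)
    have hp0 : p ≠ -p := by rcases hp with rfl | rfl <;> norm_num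
    have hon : ∀ {ι ι' : Type} [DecidableEq ι] [DecidableEq ι'] {e : ι → Completion C₁}
        {f : ι' → Completion C₂}, Orthonormal ℝ e → Orthonormal ℝ f →
        ∀ z z' : ι × ι', ⟪T (e z.1) (f z.2), T (e z'.1) (f z'.2)⟫ = if z = z' then 1 else 0 := by
      intro ι ι' _ _ e f he hf z z'
      rw [hTi, orthonormal_iff_ite.1 he, orthonormal_iff_ite.1 hf]
      by_cases h1 : z.1 = z'.1
      · by_cases h2 : z.2 = z'.2
        · rw [if_pos h1, if_pos h2, if_pos (Prod.ext h1 h2), one_mul]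
        · rw [if_neg h2, if_neg fun h => h2 (congrArg Prod.snd h), mul_zero]
      · rw [if_neg h1, if_neg fun h => h1 (congrArg Prod.fst h), zero_mul]
    have key := finrank_eq_card (Ker D ε p)
      (Sum.elim (fun z : _ × _ => T (e z.1) (f z.2)) (fun z : _ × _ => T (e' z.1) (f' z.2)))
      (by
        rw [orthonormal_iff_ite]
        rintro (z | z) (z' | z')
        · simpa using hon heo hfo z z'
        · simp only [Sum.elim_inl, Sum.elim_inr, hTi, reduceCtorEq, if_false]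
          rw [ker_orth h₁ (by norm_num) (hek _) (hek' _), zero_mul]
        · simp only [Sum.elim_inl, Sum.elim_inr, hTi, reduceCtorEq, if_false]
          rw [ker_orth h₁ (by norm_num) (hek' _) (hek _), zero_mul]
        · simpa using hon heo' hfo' z z')
      (by
        rintro (z | z)
        · simpa using hmem 1 p _ _ (hek z.1) (hfk z.2)
        · simpa using hmem (-1) (-p) _ _ (hek' z.1) (hfk' z.2))
      (by
        intro u hu h0
        have ha : ∀ x ∈ Ker D₁ ε₁ 1, ∀ y ∈ Ker D₂ ε₂ p, ⟪u, T x y⟫ = 0 := fun x hx y hy =>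
          hef ((innerSL ℝ u).comp (T.flip y)) (fun i =>
            hff ((innerSL ℝ u).comp (T (e i))) (fun j => h0 (Sum.inl (i, j))) y hy) x hx
        have hb : ∀ x ∈ Ker D₁ ε₁ (-1), ∀ y ∈ Ker D₂ ε₂ (-p), ⟪u, T x y⟫ = 0 := fun x hx y hy =>
          hef' ((innerSL ℝ u).comp (T.flip y)) (fun i =>
            hff' ((innerSL ℝ u).comp (T (e' i))) (fun j => h0 (Sum.inr (i, j))) y hy) x hx
        refine hzero u hu.1 fun r q hr hq x hx y hy => ?_
        by_cases hrq : p = r * q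
        · rcases hr with rfl | rfl
          · rw [one_mul] at hrq
            subst hrq
            exact ha x hx y hy
          · have : q = -p := by linarith
            subst this
            exact hb x hx y hy
        · exact ker_orth h hrq hu (hmem r q x y hx hy))
    simpa using key
  unfold ind
  rw [hdim 1 (Or.inl rfl), hdim (-1) (Or.inr rfl), neg_neg]
  push_cast
  ring

end SZ
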