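import Pool.Agent.P.MP_8db816_gt.SZ.LiftAPI

/-!
Riemannian spin manifolds presented by spin atlases, isometric spin embeddings, products.
-/

noncomputable section

namespace SZ

open Set CliffordAlgebra
open scoped ContDiff

variable {n m a b : ℕ}

/-- Charts `φ a`, orthonormal frames `e a` in the charts, and `Spin(n)`-valued lifts `s a b` of the
transition matrices satisfying the cocycle condition. -/
structure AtlOK {X A : Type} [TopologicalSpace X] (φ : A → OpenPartialHomeomorph X (E n))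
    (e : A → Fr n) (s : A → A → X → Cl n) : Prop where
  fr : ∀ a, IsFr (e a) (φ a).target
  lift : ∀ a b, Lift 1 (e b) (e a) ((φ b).symm.trans (φ a)).source ((φ b).symm.trans (φ a))
    (s a b ∘ (φ b).symm)
  cocycle : ∀ a b c, ∀ x ∈ (φ a).source, x ∈ (φ b).source → x ∈ (φ c).source →
    s a b x * s b c x = s a c x

/-- A Riemannian spin `n`-manifold without boundary, given by a spin atlas. The manifold is the
union `car` of the chart domains, an open subset of the space `X` (other points of `X` play no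
role; so the empty manifold has no charts). -/
structure Atl (n : ℕ) where
  X : Type
  [top : TopologicalSpace X]
  [t2 : T2Space X]
  [sc : SecondCountableTopology X]
  [ne : Nonempty X]
  A : Type
  [cnt : Countable A]
  φ : A → OpenPartialHomeomorph X (E n)
  e : A → Fr n
  s : A → A → X → Cl n
  ok : AtlOK φ e s

attribute [instance] Atl.top Atl.t2 Atl.sc Atl.ne Atl.cnt

/-- The underlying manifold. -/
def Atl.car (M : Atl n) : Set M.X := ⋃ a, (M.φ a).source

/-- `f` is an isometry from an open part of `M` onto an open part of `N`, and `σ` is a lift of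
parity `p` to the spin structures. -/
structure EmbOK (M N : Atl n) (p : ℝ) (f : OpenPartialHomeomorph M.X N.X)
    (σ : N.A → M.A → M.X → Cl n) : Prop where
  hp : p = 1 ∨ p = -1
  src : f.source ⊆ M.car
  tgt : f.target ⊆ N.car
  lift : ∀ b a, Lift p (M.e a) (N.e b) ((M.φ a).symm.trans (f.trans (N.φ b))).source
    ((M.φ a).symm.trans (f.trans (N.φ b))) (σ b a ∘ (M.φ a).symm)
  left : ∀ b' b a, ∀ x ∈ f.source, x ∈ (M.φ a).source → f x ∈ (N.φ b).source →
    f x ∈ (N.φ b').source → N.s b' b (f x) * σ b a x = σ b' a x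
  right : ∀ b a a', ∀ x ∈ f.source, x ∈ (M.φ a).source → x ∈ (M.φ a').source →
    f x ∈ (N.φ b).source → σ b a x * M.s a a' x = σ b a' x

/-- An isometric spin embedding of an open part of `M` into `N`; it preserves the orientation if
`p = 1`; if `p = -1` it reverses it (an isomorphism onto the opposite spin structure). -/
structure Emb (M N : Atl n) where
  p : ℝ
  f : OpenPartialHomeomorph M.X N.X
  σ : N.A → M.A → M.X → Cl n
  ok : EmbOK M N p f σ

theorem Atl.fr (M : Atl n) (a : M.A) : IsFr (M.e a) (M.φ a).target := M.ok.fr a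

theorem Atl.lift (M : Atl n) (a b : M.A) :
    Lift 1 (M.e b) (M.e a) ((M.φ b).symm.trans (M.φ a)).source ((M.φ b).symm.trans (M.φ a))
      (M.s a b ∘ (M.φ b).symm) := M.ok.lift a b

theorem Atl.cocycle (M : Atl n) (a b c : M.A) : ∀ x ∈ (M.φ a).source, x ∈ (M.φ b).source →
    x ∈ (M.φ c).source → M.s a b x * M.s b c x = M.s a c x := M.ok.cocycle a b c

theorem Emb.hp {M N : Atl n} (f : Emb M N) : f.p = 1 ∨ f.p = -1 := f.ok.hp

theorem Emb.src {M N : Atl n} (f : Emb M N) : f.f.source ⊆ M.car := f.ok.src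

theorem Emb.tgt {M N : Atl n} (f : Emb M N) : f.f.target ⊆ N.car := f.ok.tgt

theorem Emb.lift {M N : Atl n} (f : Emb M N) (b : N.A) (a : M.A) :
    Lift f.p (M.e a) (N.e b) ((M.φ a).symm.trans (f.f.trans (N.φ b))).source
      ((M.φ a).symm.trans (f.f.trans (N.φ b))) (f.σ b a ∘ (M.φ a).symm) := f.ok.lift b a

theorem Emb.left {M N : Atl n} (f : Emb M N) (b' b : N.A) (a : M.A) : ∀ x ∈ f.f.source,
    x ∈ (M.φ a).source → f.f x ∈ (N.φ b).source → f.f x ∈ (N.φ b').source →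
      N.s b' b (f.f x) * f.σ b a x = f.σ b' a x := f.ok.left b' b a

theorem Emb.right {M N : Atl n} (f : Emb M N) (b : N.A) (a a' : M.A) : ∀ x ∈ f.f.source,
    x ∈ (M.φ a).source → x ∈ (M.φ a').source → f.f x ∈ (N.φ b).source →
      f.σ b a x * M.s a a' x = f.σ b a' x := f.ok.right b a a'

/-- `g ∘ f = g' ∘ f'` on `S`, with the lifts. -/
def Sq {M N N' P : Atl n} (g : Emb N P) (f : Emb M N) (g' : Emb N' P) (f' : Emb M N')
    (S : Set M.X) : Prop :=
  ∀ x ∈ S, x ∈ f.f.source ∧ f.f x ∈ g.f.source ∧ x ∈ f'.f.source ∧ f'.f x ∈ g'.f.source ∧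
    g.f (f.f x) = g'.f (f'.f x) ∧
    ∀ c b b' a, x ∈ (M.φ a).source → f.f x ∈ (N.φ b).source → f'.f x ∈ (N'.φ b').source →
      g.f (f.f x) ∈ (P.φ c).source →
      g.σ c b (f.f x) * f.σ b a x = g'.σ c b' (f'.f x) * f'.σ b' a x

theorem Atl.isOpen_car (M : Atl n) : IsOpen M.car := isOpen_iUnion fun a => (M.φ a).open_source

theorem Atl.mem_car {M : Atl n} {x : M.X} : x ∈ M.car ↔ ∃ a, x ∈ (M.φ a).source := mem_iUnion

theorem Atl.s_mem (M : Atl n) {a b : M.A} {x : M.X} (ha : x ∈ (M.φ a).source)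
    (hb : x ∈ (M.φ b).source) : M.s a b x ∈ pinGroup (Q n) ∧ involute (M.s a b x) = M.s a b x := by
  have h := (lift_iff.1 (M.lift a b)).2.2 (M.φ b x) (by simp [ha, hb])
  simp only [Function.comp, (M.φ b).left_inv hb, one_smul] at h
  exact ⟨h.1, h.2.1⟩

theorem Emb.σ_mem {M N : Atl n} (f : Emb M N) {b : N.A} {a : M.A} {x : M.X} (hx : x ∈ f.f.source)
    (ha : x ∈ (M.φ a).source) (hb : f.f x ∈ (N.φ b).source) :
    f.σ b a x ∈ pinGroup (Q n) ∧ involute (f.σ b a x) = f.p • f.σ b a x := by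
  have h := (lift_iff.1 (f.lift b a)).2.2 (M.φ a x) (by simp [ha, hb, hx])
  simp only [Function.comp, (M.φ a).left_inv ha] at h
  exact ⟨h.1, h.2.1⟩

theorem id_ok (M : Atl n) : EmbOK M M 1 (OpenPartialHomeomorph.ofSet M.car M.isOpen_car) M.s where
  hp := Or.inl rfl
  src := subset_rfl
  tgt := subset_rfl
  lift b a := (M.lift b a).congr (OpenPartialHomeomorph.open_source _)
    (fun y hy => by simpa using ⟨hy.1, hy.2.2⟩) (fun _ _ => rfl) (fun _ _ => rfl)
  left b' b a x _ ha hb hb' := M.cocycle b' b a x hb' hb ha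
  right b a a' x _ ha ha' hb := M.cocycle b a a' x hb ha ha'

/-- The identity. -/
def Emb.id (M : Atl n) : Emb M M :=
  ⟨1, OpenPartialHomeomorph.ofSet M.car M.isOpen_car, M.s, id_ok M⟩

/-- The product of two charts. -/
abbrev pch {X Y : Type} [TopologicalSpace X] [TopologicalSpace Y]
    (φ : OpenPartialHomeomorph X (E a)) (ψ : OpenPartialHomeomorph Y (E b)) :
    OpenPartialHomeomorph (X × Y) (E (a + b)) :=
  (φ.prod ψ).transHomeomorph (Fin.appendHomeomorph a b)

/-- The product `x ⊗ y` in `Cl (a + b)`. -/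
abbrev ten (x : Cl a) (y : Cl b) : Cl (a + b) := inl a b x * inr a b y

theorem prod_target {X Y : Type} [TopologicalSpace X] [TopologicalSpace Y]
    (φ : OpenPartialHomeomorph X (E a)) (ψ : OpenPartialHomeomorph Y (E b)) :
    (pch φ ψ).target = {z | pl z ∈ φ.target ∧ pr z ∈ ψ.target} := rfl

theorem prod_ok (M : Atl a) (N : Atl b) :
    AtlOK (fun c : M.A × N.A => pch (M.φ c.1) (N.φ c.2)) (fun c => pfr (M.e c.1) (N.e c.2))
      fun c d x => ten (M.s c.1 d.1 x.1) (N.s c.2 d.2 x.2) where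
  fr c := (M.fr c.1).prod (N.fr c.2)
  lift c d := by
    have h := (M.lift c.1 d.1).prod (N.lift c.2 d.2) (OpenPartialHomeomorph.open_source _)
      (OpenPartialHomeomorph.open_source _)
    rw [one_mul] at h
    exact h.congr (OpenPartialHomeomorph.open_source _)
      (fun y hy => ⟨⟨hy.1.1, hy.2.1⟩, hy.1.2, hy.2.2⟩) (fun _ _ => rfl) (fun _ _ => rfl)
  cocycle c d d' x hc hd hd' := by
    simp only [ten]
    rw [mul_assoc, ← mul_assoc (inr a b _), inr_mul_inl_of_even (N.s_mem hc.2 hd.2).2, mul_assoc,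
      ← mul_assoc, ← map_mul, ← map_mul, M.cocycle _ _ _ _ hc.1 hd.1 hd'.1,
      N.cocycle _ _ _ _ hc.2 hd.2 hd'.2]

/-- The Riemannian product with the product spin structure. -/
@[reducible] def Atl.prod (M : Atl a) (N : Atl b) : Atl (a + b) where
  X := M.X × N.X
  A := M.A × N.A
  φ c := pch (M.φ c.1) (N.φ c.2)
  e c := pfr (M.e c.1) (N.e c.2)
  s c d x := ten (M.s c.1 d.1 x.1) (N.s c.2 d.2 x.2)
  ok := prod_ok M N

theorem Atl.car_prod (M : Atl a) (N : Atl b) : (M.prod N).car = M.car ×ˢ N.car := by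
  ext x
  constructor
  · intro h
    obtain ⟨c, hc⟩ := Atl.mem_car.1 h
    exact ⟨Atl.mem_car.2 ⟨c.1, hc.1⟩, Atl.mem_car.2 ⟨c.2, hc.2⟩⟩
  · rintro ⟨h, h'⟩
    obtain ⟨c, hc⟩ := Atl.mem_car.1 h
    obtain ⟨d, hd⟩ := Atl.mem_car.1 h'
    exact Atl.mem_car.2 ⟨(c, d), hc, hd⟩

theorem embProd_ok {M M' : Atl a} {N N' : Atl b} (f : Emb M M') (g : Emb N N') :
    EmbOK (M.prod N) (M'.prod N') (f.p * g.p) (f.f.prod g.f)
      fun d c x => ten (f.σ d.1 c.1 x.1) (g.σ d.2 c.2 x.2) where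
  hp := by rcases f.hp with h | h <;> rcases g.hp with h' | h' <;> simp [h, h']
  src := by rw [Atl.car_prod]; exact prod_mono f.src g.src
  tgt := by rw [Atl.car_prod]; exact prod_mono f.tgt g.tgt
  lift d c := ((f.lift d.1 c.1).prod (g.lift d.2 c.2) (OpenPartialHomeomorph.open_source _)
    (OpenPartialHomeomorph.open_source _)).congr (OpenPartialHomeomorph.open_source _)
      (fun y hy => ⟨⟨hy.1.1, hy.2.1.1, hy.2.2.1⟩, hy.1.2, hy.2.1.2, hy.2.2.2⟩) (fun _ _ => rfl)
      (fun _ _ => rfl)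
  left d' d c x hx hc hd hd' := by
    change inl a b (M'.s d'.1 d.1 (f.f x.1)) * inr a b (N'.s d'.2 d.2 (g.f x.2)) *
      (inl a b _ * inr a b _) = inl a b _ * inr a b _
    rw [mul_assoc, ← mul_assoc (inr a b _),
      inr_mul_inl_of_even (N'.s_mem (x := g.f x.2) hd'.2 hd.2).2, mul_assoc,
      ← mul_assoc, ← map_mul, ← map_mul, f.left _ _ _ _ hx.1 hc.1 hd.1 hd'.1,
      g.left _ _ _ _ hx.2 hc.2 hd.2 hd'.2]
  right d c c' x hx hc hc' hd := by
    change inl a b _ * inr a b _ * (inl a b (M.s c.1 c'.1 x.1) * inr a b (N.s c.2 c'.2 x.2)) =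
      inl a b _ * inr a b _
    rw [mul_assoc, ← mul_assoc (inr a b _), inr_mul_inl_of_even' _ (M.s_mem hc.1 hc'.1).2,
      mul_assoc, ← mul_assoc, ← map_mul, ← map_mul, f.right _ _ _ _ hx.1 hc.1 hc'.1 hd.1,
      g.right _ _ _ _ hx.2 hc.2 hc'.2 hd.2]

/-- The product of two embeddings. -/
def Emb.prod {M M' : Atl a} {N N' : Atl b} (f : Emb M M') (g : Emb N N') :
    Emb (M.prod N) (M'.prod N') :=
  ⟨f.p * g.p, f.f.prod g.f, fun d c x => ten (f.σ d.1 c.1 x.1) (g.σ d.2 c.2 x.2), embProd_ok f g⟩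

theorem line_ok : AtlOK
    (fun _ : Unit => (Homeomorph.funUnique (Fin 1) ℝ).symm.toOpenPartialHomeomorph)
    (fun _ _ _ _ => 1) fun _ _ _ => 1 where
  fr _ := isFr_line
  lift _ _ := (Lift.refl _ univ).congr (OpenPartialHomeomorph.open_source _) (subset_univ _)
    (fun y _ => (Homeomorph.funUnique (Fin 1) ℝ).symm_apply_apply y) (fun _ _ => rfl)
  cocycle _ _ _ _ _ _ _ := one_mul _

/-- The Euclidean line. -/
@[reducible] def line : Atl 1 where
  X := ℝ
  A := Unit
  φ _ := (Homeomorph.funUnique (Fin 1) ℝ).symm.toOpenPartialHomeomorph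
  e _ _ _ _ := 1
  s _ _ _ := 1
  ok := line_ok

/-- The cylinder `M × ℝ`. -/
abbrev cyl (M : Atl m) : Atl (m + 1) := M.prod line

theorem car_line : line.car = univ := eq_univ_of_forall fun _ => Atl.mem_car.2 ⟨(), trivial⟩

theorem cylProd_ok (B : Atl a) {M : Atl m} {Z : Atl (m + 1)} (e : Emb (cyl M) Z) :
    EmbOK (cyl (B.prod M)) (B.prod Z : Atl (a + m + 1)) e.p
      ((Homeomorph.prodAssoc B.X M.X ℝ).transOpenPartialHomeomorph ((Emb.id B).prod e).f)
      fun d c x => ((Emb.id B).prod e).σ d (c.1.1, c.1.2, c.2) (x.1.1, x.1.2, x.2) where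
  hp := e.hp
  src x hx := by
    have h := ((Emb.id B).prod e).src hx
    simp only [Atl.car_prod] at h ⊢
    exact ⟨⟨h.1, h.2.1⟩, h.2.2⟩
  tgt := ((Emb.id B).prod e).tgt
  lift d c := by
    have h := ((Emb.id B).prod e).lift d (c.1.1, c.1.2, c.2)
    have hp : ((Emb.id B).prod e).p = e.p := one_mul _
    rw [hp] at h
    change Lift e.p (pfr (B.e c.1.1) (pfr (M.e c.1.2) (line.e c.2))) _ _ _ _ at h
    rw [← pfr_assoc_one] at h
    exact h.congr (OpenPartialHomeomorph.open_source _)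
      (fun y hy => ⟨⟨hy.1.1.1, hy.1.1.2, hy.1.2⟩, hy.2⟩) (fun _ _ => rfl) (fun _ _ => rfl)
  left d' d c x hx hc hd hd' := ((Emb.id B).prod e).left d' d (c.1.1, c.1.2, c.2)
    (x.1.1, x.1.2, x.2) hx ⟨hc.1.1, hc.1.2, hc.2⟩ hd hd'
  right d c c' x hx hc hc' hd := by
    have h := ((Emb.id B).prod e).right d (c.1.1, c.1.2, c.2) (c'.1.1, c'.1.2, c'.2)
      (x.1.1, x.1.2, x.2) hx ⟨hc.1.1, hc.1.2, hc.2⟩ ⟨hc'.1.1, hc'.1.2, hc'.2⟩ hd
    rw [← h]
    congr 1
    simp only [ten, map_mul, inl_inl, inl_inr, inr_inr, mul_assoc]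

/-- `id × e : (B × M) × ℝ → B × Z` for `e : M × ℝ → Z`. -/
def Emb.cylProd (B : Atl a) {M : Atl m} {Z : Atl (m + 1)} (e : Emb (cyl M) Z) :
    Emb (cyl (B.prod M)) (B.prod Z : Atl (a + m + 1)) :=
  ⟨e.p, (Homeomorph.prodAssoc B.X M.X ℝ).transOpenPartialHomeomorph ((Emb.id B).prod e).f,
    fun d c x => ((Emb.id B).prod e).σ d (c.1.1, c.1.2, c.2) (x.1.1, x.1.2, x.2), cylProd_ok B e⟩

end SZ
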