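import Mathlib

/-! An `L²` limit of asymptotically parallel smooth sections of a metric connection is smooth. -/

noncomputable section

namespace SZ

open Filter Topology Set MeasureTheory
open scoped RealInnerProductSpace ContDiff

variable {n : ℕ} {F : Type} [NormedAddCommGroup F] [InnerProductSpace ℝ F] [FiniteDimensional ℝ F]

namespace EuReg

open Metric ContinuousLinearMap
open scoped Convolution

variable {G : Type} [NormedAddCommGroup G] [NormedSpace ℝ G]

/-- Mollification, with the integral restricted to `B`. -/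
def cv (B : Set (Fin n → ℝ)) (φ : ContDiffBump (0 : Fin n → ℝ)) (g : (Fin n → ℝ) → G)
    (z : Fin n → ℝ) : G :=
  ∫ t in B, φ.normed volume (z - t) • g t

theorem bump_zero (φ : ContDiffBump (0 : Fin n → ℝ)) {z t : Fin n → ℝ} (ht : t ∉ ball z φ.rOut) :
    φ.normed volume (z - t) = 0 := by
  by_contra h
  have h' : z - t ∈ Function.support (φ.normed volume) := h
  rw [φ.support_normed_eq, mem_ball_zero_iff, ← dist_eq_norm, dist_comm] at h'
  exact ht h'

theorem conv_eq {B : Set (Fin n → ℝ)} (φ : ContDiffBump (0 : Fin n → ℝ)) {z : Fin n → ℝ}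
    (hz : ball z φ.rOut ⊆ B) (g : (Fin n → ℝ) → G) :
    (φ.normed volume ⋆[lsmul ℝ ℝ, volume] g) z = cv B φ g z := by
  rw [convolution_lsmul_swap, cv, setIntegral_eq_integral_of_forall_compl_eq_zero]
  intro t ht
  rw [bump_zero φ fun h => ht (hz h), zero_smul]

theorem cv_congr {B : Set (Fin n → ℝ)} (hB : MeasurableSet B) (φ : ContDiffBump (0 : Fin n → ℝ))
    {g g' : (Fin n → ℝ) → G} (h : ∀ t ∈ B, g t = g' t) (z : Fin n → ℝ) :
    cv B φ g z = cv B φ g' z :=
  setIntegral_congr_fun hB fun t ht => by simp only [h t ht]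

theorem bump_le (φ : ContDiffBump (0 : Fin n → ℝ)) (x : Fin n → ℝ) :
    ‖φ.normed volume x‖ ≤ 1 / volume.real (closedBall (0 : Fin n → ℝ) φ.rIn) := by
  rw [Real.norm_of_nonneg (φ.nonneg_normed x)]
  exact φ.normed_le_div_measure_closedBall_rIn volume x

theorem cv_int {B : Set (Fin n → ℝ)} (φ : ContDiffBump (0 : Fin n → ℝ)) {g : (Fin n → ℝ) → G}
    (hg : IntegrableOn g B) (z : Fin n → ℝ) :
    IntegrableOn (fun t => φ.normed volume (z - t) • g t) B :=
  hg.smul_of_top_right (memLp_top_of_bound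
    (φ.continuous_normed.comp (continuous_const.sub continuous_id)).aestronglyMeasurable _
    (Eventually.of_forall fun t => bump_le φ (z - t)))

theorem cv_sub_le {B : Set (Fin n → ℝ)} (φ : ContDiffBump (0 : Fin n → ℝ))
    {g g' : (Fin n → ℝ) → G} (hg : IntegrableOn g B) (hg' : IntegrableOn g' B) (z : Fin n → ℝ) :
    ‖cv B φ g z - cv B φ g' z‖ ≤
      1 / volume.real (closedBall (0 : Fin n → ℝ) φ.rIn) * ∫ t in B, ‖g t - g' t‖ := by
  rw [cv, cv, ← integral_sub (cv_int φ hg z) (cv_int φ hg' z), ← integral_const_mul]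
  refine norm_integral_le_of_norm_le ((hg.sub hg').norm.const_mul _)
    (Eventually.of_forall fun t => ?_)
  rw [← smul_sub, norm_smul]
  exact mul_le_mul_of_nonneg_right (bump_le φ _) (norm_nonneg _)

theorem cv_near [CompleteSpace G] {B : Set (Fin n → ℝ)} (φ : ContDiffBump (0 : Fin n → ℝ))
    {g : (Fin n → ℝ) → G} (hg : IntegrableOn g B) {z : Fin n → ℝ} (hz : ball z φ.rOut ⊆ B)
    {c : G} {η : ℝ} (h : ∀ᵐ y, y ∈ ball z φ.rOut → ‖g y - c‖ ≤ η) : ‖cv B φ g z - c‖ ≤ η := by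
  have h1 : ∫ t in B, φ.normed volume (z - t) = 1 := by
    rw [setIntegral_eq_integral_of_forall_compl_eq_zero
      fun t ht => bump_zero φ fun h => ht (hz h), integral_sub_left_eq_self, φ.integral_normed]
  have h2 : IntegrableOn (fun t => φ.normed volume (z - t)) B :=
    (φ.integrable_normed.comp_sub_left z).integrableOn
  have h3 : c = ∫ t in B, φ.normed volume (z - t) • c := by
    rw [integral_smul_const, h1, one_smul]
  have h4 : η = ∫ t in B, φ.normed volume (z - t) * η := by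
    rw [integral_mul_const, h1, one_mul]
  calc ‖cv B φ g z - c‖
      = ‖∫ t in B, (φ.normed volume (z - t) • g t - φ.normed volume (z - t) • c)‖ := by
        rw [integral_sub (cv_int φ hg z) (h2.smul_const c), ← h3, cv]
    _ ≤ ∫ t in B, φ.normed volume (z - t) * η := by
        refine norm_integral_le_of_norm_le (h2.mul_const η) (ae_restrict_of_ae ?_)
        filter_upwards [h] with t ht
        rw [← smul_sub, norm_smul, Real.norm_of_nonneg (φ.nonneg_normed _)]
        by_cases hm : t ∈ ball z φ.rOut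
        · exact mul_le_mul_of_nonneg_left (ht hm) (φ.nonneg_normed _)
        · rw [bump_zero φ hm, zero_mul, zero_mul]
    _ = η := h4.symm

/-- The linear map with the given values on the standard basis. -/
def lin (c : Fin n → G) : (Fin n → ℝ) →L[ℝ] G :=
  ∑ j, (proj (R := ℝ) (φ := fun _ : Fin n => ℝ) j).smulRight (c j)

theorem lin_apply (c : Fin n → G) (v : Fin n → ℝ) : lin c v = ∑ j, v j • c j := by
  simp [lin]

theorem norm_sub_lin (T : (Fin n → ℝ) →L[ℝ] G) (c : Fin n → G) {η : ℝ} (hη : 0 ≤ η)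
    (h : ∀ j, ‖T (Pi.single j 1) - c j‖ ≤ η) : ‖T - lin c‖ ≤ n * η := by
  refine opNorm_le_bound _ (by positivity) fun v => ?_
  have e : T v = ∑ j, v j • T (Pi.single j 1) := by
    conv_lhs => rw [← Finset.univ_sum_single v]
    rw [map_sum]
    refine Finset.sum_congr rfl fun j _ => ?_
    rw [← map_smul]
    congr 1
    ext i
    by_cases hi : i = j <;> simp [hi]
  rw [_root_.sub_apply, e, lin_apply, ← Finset.sum_sub_distrib]
  refine (norm_sum_le _ _).trans ?_
  have h2 : ∀ j ∈ (Finset.univ : Finset (Fin n)),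
      ‖v j • T (Pi.single j 1) - v j • c j‖ ≤ η * ‖v‖ := by
    intro j _
    rw [← smul_sub, norm_smul, mul_comm]
    exact mul_le_mul (h j) (norm_le_pi_norm v j) (norm_nonneg _) hη
  refine (Finset.sum_le_card_nsmul _ _ _ h2).trans (le_of_eq ?_)
  rw [Finset.card_univ, Fintype.card_fin, nsmul_eq_mul, mul_assoc]

theorem extend {y₀ : Fin n → ℝ} {r : ℝ} (hr : 0 < r) {U : Set (Fin n → ℝ)} (hU : IsOpen U)
    (hB : closedBall y₀ r ⊆ U) {f : (Fin n → ℝ) → G} (hf : ContDiffOn ℝ 1 f U) :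
    ∃ f' : (Fin n → ℝ) → G, ContDiff ℝ 1 f' ∧ HasCompactSupport f' ∧
      ∀ t ∈ closedBall y₀ r, f' =ᶠ[𝓝 t] f := by
  obtain ⟨δ, hδ, hs⟩ := (isCompact_closedBall y₀ r).exists_cthickening_subset_open hU hB
  rw [cthickening_closedBall hδ.le hr.le] at hs
  let χ : ContDiffBump y₀ := ⟨δ / 2 + r, δ + r, by positivity, by linarith⟩
  refine ⟨fun t => χ t • f t, contDiff_iff_contDiffAt.2 fun t => ?_,
    χ.hasCompactSupport.smul_right, fun t ht => ?_⟩
  · by_cases ht : t ∈ U
    · exact χ.contDiffAt.smul (hf.contDiffAt (hU.mem_nhds ht))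
    · have h1 : t ∉ tsupport χ := by
        rw [χ.tsupport_eq]
        exact fun h => ht (hs h)
      refine (contDiffAt_const (c := (0 : G))).congr_of_eventuallyEq ?_
      filter_upwards [notMem_tsupport_iff_eventuallyEq.1 h1] with x hx
      rw [hx, Pi.zero_apply, zero_smul]
  · have h1 : t ∈ ball y₀ χ.rIn := closedBall_subset_ball (by show r < δ / 2 + r; linarith) ht
    filter_upwards [χ.eventuallyEq_one_of_mem_ball h1] with x hx
    rw [hx, Pi.one_apply, one_smul]

theorem mean_smooth [CompleteSpace G] {y₀ : Fin n → ℝ} {r : ℝ} (hr : 0 < r)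
    {U : Set (Fin n → ℝ)} (hU : IsOpen U) (hB : closedBall y₀ r ⊆ U) {f : (Fin n → ℝ) → G}
    (hf : ContDiffOn ℝ 1 f U) (φ : ContDiffBump (0 : Fin n → ℝ)) {s : Set (Fin n → ℝ)}
    (hs : Convex ℝ s) (hs' : ∀ z ∈ s, ball z φ.rOut ⊆ closedBall y₀ r) {c : Fin n → G} {η : ℝ}
    (hη : 0 ≤ η) (h : ∀ z ∈ s, ∀ j,
      ‖cv (closedBall y₀ r) φ (fun t => fderiv ℝ f t (Pi.single j 1)) z - c j‖ ≤ η)
    {a b : Fin n → ℝ} (ha : a ∈ s) (hb : b ∈ s) :
    ‖cv (closedBall y₀ r) φ f a - cv (closedBall y₀ r) φ f b - lin c (a - b)‖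
      ≤ n * η * ‖a - b‖ := by
  obtain ⟨f', h1, h2, h3⟩ := extend hr hU hB hf
  have hl : LocallyIntegrable (φ.normed volume) volume := φ.integrable_normed.locallyIntegrable
  have key := hs.norm_image_sub_le_of_norm_hasFDerivWithin_le' (φ := lin c) (C := n * η)
    (fun z _ => (h2.hasFDerivAt_convolution_right (lsmul ℝ ℝ) hl h1 z).hasFDerivWithinAt)
    (fun z hz => norm_sub_lin _ c hη fun j => by
      rw [convolution_precompR_apply _ hl (h2.fderiv ℝ) (h1.continuous_fderiv one_ne_zero),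
        conv_eq φ (hs' z hz),
        cv_congr measurableSet_closedBall φ (g' := fun t => fderiv ℝ f t (Pi.single j 1))
          fun t ht => by rw [(h3 t ht).fderiv_eq]]
      exact h z hz j) hb ha
  rwa [conv_eq φ (hs' a ha), conv_eq φ (hs' b hb),
    cv_congr measurableSet_closedBall φ (fun t ht => (h3 t ht).eq_of_nhds) a,
    cv_congr measurableSet_closedBall φ (fun t ht => (h3 t ht).eq_of_nhds) b] at key

theorem int_fderiv {y₀ : Fin n → ℝ} {r : ℝ} {U : Set (Fin n → ℝ)} (hU : IsOpen U)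
    (hB : closedBall y₀ r ⊆ U) {f : (Fin n → ℝ) → G} (hf : ContDiffOn ℝ 1 f U) (j : Fin n) :
    ContinuousOn (fun t => fderiv ℝ f t (Pi.single j 1)) (closedBall y₀ r) :=
  ((hf.continuousOn_fderiv_of_isOpen hU le_rfl).mono hB).clm_apply continuousOn_const

theorem mean_phi [CompleteSpace G] {y₀ : Fin n → ℝ} {r : ℝ} (hr : 0 < r)
    {U : Set (Fin n → ℝ)} (hU : IsOpen U) (hB : closedBall y₀ r ⊆ U)
    {f : ℕ → (Fin n → ℝ) → G} (hf : ∀ k, ContDiffOn ℝ 1 (f k) U) {u : (Fin n → ℝ) → G}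
    (hu : IntegrableOn u (closedBall y₀ r)) {g : Fin n → (Fin n → ℝ) → G}
    (hg : ∀ j, IntegrableOn (g j) (closedBall y₀ r))
    (h1 : Tendsto (fun k => ∫ y in closedBall y₀ r, ‖f k y - u y‖) atTop (𝓝 0))
    (h2 : ∀ j, Tendsto (fun k => ∫ y in closedBall y₀ r,
      ‖fderiv ℝ (f k) y (Pi.single j 1) - g j y‖) atTop (𝓝 0))
    (φ : ContDiffBump (0 : Fin n → ℝ)) {s : Set (Fin n → ℝ)}
    (hs : Convex ℝ s) (hs' : ∀ z ∈ s, ball z φ.rOut ⊆ closedBall y₀ r) {c : Fin n → G} {η : ℝ}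
    (hη : 0 ≤ η) (h : ∀ z ∈ s, ∀ j, ‖cv (closedBall y₀ r) φ (g j) z - c j‖ ≤ η)
    {a b : Fin n → ℝ} (ha : a ∈ s) (hb : b ∈ s) :
    ‖cv (closedBall y₀ r) φ u a - cv (closedBall y₀ r) φ u b - lin c (a - b)‖
      ≤ n * η * ‖a - b‖ := by
  set K := 1 / volume.real (closedBall (0 : Fin n → ℝ) φ.rIn) with hK
  have hK0 : 0 ≤ K := by positivity
  have hfi : ∀ k, IntegrableOn (f k) (closedBall y₀ r) := fun k =>
    ((hf k).continuousOn.mono hB).integrableOn_compact (isCompact_closedBall _ _)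
  have t1 : ∀ z, Tendsto (fun k => cv (closedBall y₀ r) φ (f k) z) atTop
      (𝓝 (cv (closedBall y₀ r) φ u z)) := by
    intro z
    rw [tendsto_iff_norm_sub_tendsto_zero]
    refine squeeze_zero (fun _ => norm_nonneg _) (fun k => cv_sub_le φ (hfi k) hu z) ?_
    rw [← mul_zero K]
    exact h1.const_mul K
  set I : ℕ → ℝ := fun k => ∑ j, ∫ y in closedBall y₀ r,
    ‖fderiv ℝ (f k) y (Pi.single j 1) - g j y‖ with hI
  have t2 : Tendsto I atTop (𝓝 0) := by
    simpa using tendsto_finsetSum Finset.univ fun j _ => h2 j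
  have hI0 : ∀ k j, 0 ≤ ∫ y in closedBall y₀ r, ‖fderiv ℝ (f k) y (Pi.single j 1) - g j y‖ :=
    fun k j => integral_nonneg fun _ => norm_nonneg _
  have t3 : Tendsto (fun k => n * (K * I k + η) * ‖a - b‖) atTop (𝓝 (n * η * ‖a - b‖)) := by
    simpa using (((t2.const_mul K).add_const η).const_mul (n : ℝ)).mul_const ‖a - b‖
  refine le_of_tendsto_of_tendsto' (((t1 a).sub (t1 b)).sub_const _).norm t3 fun k => ?_
  refine mean_smooth hr hU hB (hf k) φ hs hs'
    (add_nonneg (mul_nonneg hK0 (Finset.sum_nonneg fun j _ => hI0 k j)) hη)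
    (fun z hz j => ?_) ha hb
  refine (norm_sub_le_norm_sub_add_norm_sub _ (cv (closedBall y₀ r) φ (g j) z) _).trans
    (add_le_add ?_ (h z hz j))
  refine (cv_sub_le φ ((int_fderiv hU hB (hf k) j).integrableOn_compact
    (isCompact_closedBall _ _)) (hg j) z).trans (mul_le_mul_of_nonneg_left ?_ hK0)
  exact Finset.single_le_sum (fun j _ => hI0 k j) (Finset.mem_univ j)

theorem mean [CompleteSpace G] {y₀ : Fin n → ℝ} {r : ℝ} (hr : 0 < r)
    {U : Set (Fin n → ℝ)} (hU : IsOpen U) (hB : closedBall y₀ r ⊆ U)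
    {f : ℕ → (Fin n → ℝ) → G} (hf : ∀ k, ContDiffOn ℝ 1 (f k) U) {u : (Fin n → ℝ) → G}
    (hu : IntegrableOn u (closedBall y₀ r)) {g : Fin n → (Fin n → ℝ) → G}
    (hg : ∀ j, IntegrableOn (g j) (closedBall y₀ r))
    (h1 : Tendsto (fun k => ∫ y in closedBall y₀ r, ‖f k y - u y‖) atTop (𝓝 0))
    (h2 : ∀ j, Tendsto (fun k => ∫ y in closedBall y₀ r,
      ‖fderiv ℝ (f k) y (Pi.single j 1) - g j y‖) atTop (𝓝 0)) :
    ∃ D : Set (Fin n → ℝ), (∀ᵐ y, y ∈ D) ∧ ∀ (x : Fin n → ℝ) (R : ℝ) (c : Fin n → G) (η : ℝ),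
      0 ≤ η → ball x R ⊆ closedBall y₀ r → (∀ j, ∀ᵐ y, y ∈ ball x R → ‖g j y - c j‖ ≤ η) →
      ∀ a ∈ ball x R ∩ D, ∀ b ∈ ball x R ∩ D,
        ‖u a - u b - lin c (a - b)‖ ≤ n * η * ‖a - b‖ := by
  let φ : ℕ → ContDiffBump (0 : Fin n → ℝ) := fun i =>
    ⟨1 / ((i : ℝ) + 1) / 2, 1 / ((i : ℝ) + 1), by positivity, half_lt_self (by positivity)⟩
  have hφ : Tendsto (fun i => (φ i).rOut) atTop (𝓝 0) := tendsto_one_div_add_atTop_nhds_zero_nat
  have hae := ContDiffBump.ae_convolution_tendsto_right_of_locallyIntegrable (μ := volume)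
    (K := 2) hφ (Eventually.of_forall fun i => le_of_eq (by simp only [φ]; ring))
    ((integrable_indicator_iff measurableSet_closedBall).2 hu).locallyIntegrable
  refine ⟨_, hae, fun x R c η hη hx hc a ha b hb => ?_⟩
  obtain ⟨R', hR1, hR2⟩ := exists_between (max_lt (mem_ball.1 ha.1) (mem_ball.1 hb.1))
  have ha' : a ∈ ball x R' := mem_ball.2 ((le_max_left _ _).trans_lt hR1)
  have hb' : b ∈ ball x R' := mem_ball.2 ((le_max_right _ _).trans_lt hR1)
  have hev : ∀ᶠ i in atTop, ∀ z ∈ ball x R', ball z (φ i).rOut ⊆ ball x R := by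
    filter_upwards [(tendsto_order.1 hφ).2 (R - R') (by linarith)] with i hi z hz
    exact ball_subset_ball' (by linarith [mem_ball.1 hz])
  have t1 : ∀ z ∈ ball x R' , Tendsto (fun i => ((φ i).normed volume ⋆[lsmul ℝ ℝ, volume]
      (closedBall y₀ r).indicator u) z) atTop (𝓝 ((closedBall y₀ r).indicator u z)) →
      Tendsto (fun i => cv (closedBall y₀ r) (φ i) u z) atTop (𝓝 (u z)) := by
    intro z hz ht
    rw [indicator_of_mem (hx (ball_subset_ball hR2.le hz))] at ht
    refine ht.congr' ?_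
    filter_upwards [hev] with i hi
    rw [conv_eq _ ((hi z hz).trans hx)]
    exact cv_congr measurableSet_closedBall _ (fun t ht => indicator_of_mem ht u) z
  refine le_of_tendsto (((t1 a ha' ha.2).sub (t1 b hb' hb.2)).sub_const _).norm ?_
  filter_upwards [hev] with i hi
  refine mean_phi hr hU hB hf hu hg h1 h2 (φ i) (convex_ball x R')
    (fun z hz => (hi z hz).trans hx) hη (fun z hz j => ?_) ha' hb'
  refine cv_near _ (hg j) ((hi z hz).trans hx) ?_
  filter_upwards [hc j] with y hy hy'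
  exact hy (hi z hz hy')

section L2

variable {α : Type} [MeasurableSpace α] {μ : Measure α} {H : Type} [NormedAddCommGroup H]
  [InnerProductSpace ℝ H]

theorem norm_toLp {f : α → H} (hf : MemLp f 2 μ) : ‖hf.toLp f‖ ^ 2 = ∫ y, ‖f y‖ ^ 2 ∂μ := by
  rw [← real_inner_self_eq_norm_sq, L2.inner_def]
  refine integral_congr_ae ?_
  filter_upwards [hf.coeFn_toLp] with y hy
  rw [hy, real_inner_self_eq_norm_sq]

theorem exists_lim [CompleteSpace H] {w : ℕ → α → H} (hw : ∀ k, MemLp (w k) 2 μ)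
    (hc : ∀ δ > 0, ∃ N, ∀ k ≥ N, ∀ l ≥ N, ∫ y, ‖w k y - w l y‖ ^ 2 ∂μ ≤ δ) :
    ∃ u : α → H, MemLp u 2 μ ∧ Tendsto (fun k => ∫ y, ‖w k y - u y‖ ^ 2 ∂μ) atTop (𝓝 0) := by
  have hcs : CauchySeq fun k => (hw k).toLp (w k) := by
    refine Metric.cauchySeq_iff.2 fun ε hε => ?_
    obtain ⟨N, hN⟩ := hc ((ε / 2) ^ 2) (by positivity)
    refine ⟨N, fun k hk l hl => ?_⟩
    rw [dist_eq_norm, ← MemLp.toLp_sub]
    have h1 := (norm_toLp ((hw k).sub (hw l))).trans_le (hN k hk l hl)
    exact ((pow_le_pow_iff_left₀ (norm_nonneg _) (by positivity) two_ne_zero).1 h1).trans_lt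
      (half_lt_self hε)
  obtain ⟨u, hu⟩ := cauchySeq_tendsto_of_complete hcs
  refine ⟨u, Lp.memLp u, ?_⟩
  have h1 := (tendsto_iff_norm_sub_tendsto_zero.1 hu).pow 2
  rw [zero_pow two_ne_zero] at h1
  refine h1.congr fun k => ?_
  have h2 := norm_toLp ((hw k).sub (Lp.memLp u))
  rw [MemLp.toLp_sub (hw k) (Lp.memLp u), Lp.toLp_coeFn] at h2
  exact h2

theorem tendsto_mul {a : ℕ → α → ℝ} {b : α → ℝ} (ha : ∀ k, MemLp (a k) 2 μ) (hb : MemLp b 2 μ)
    (h : Tendsto (fun k => ∫ y, a k y ^ 2 ∂μ) atTop (𝓝 0)) :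
    Tendsto (fun k => ∫ y, a k y * b y ∂μ) atTop (𝓝 0) := by
  have h1 : Tendsto (fun k => (ha k).toLp (a k)) atTop (𝓝 0) := by
    rw [tendsto_zero_iff_norm_tendsto_zero]
    have h2 := h.sqrt
    rw [Real.sqrt_zero] at h2
    refine h2.congr fun k => ?_
    rw [Real.sqrt_eq_iff_eq_sq (integral_nonneg fun _ => sq_nonneg _) (norm_nonneg _), norm_toLp]
    simp only [Real.norm_eq_abs, sq_abs]
  have h3 := (tendsto_const_nhds (x := hb.toLp b)).inner (𝕜 := ℝ) h1
  rw [inner_zero_right] at h3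
  refine h3.congr fun k => ?_
  rw [L2.inner_def]
  refine integral_congr_ae ?_
  filter_upwards [(ha k).coeFn_toLp, hb.coeFn_toLp] with y hy hy'
  rw [hy, hy']
  simp

end L2

theorem memLp_of_cont {H : Type} [NormedAddCommGroup H] {B : Set (Fin n → ℝ)} (hB : IsCompact B)
    {f : (Fin n → ℝ) → H} (hf : ContinuousOn f B) : MemLp f 2 (volume.restrict B) := by
  have : IsFiniteMeasure (volume.restrict B) := isFiniteMeasure_restrict.2 hB.measure_lt_top.ne
  obtain ⟨C, hC⟩ := hB.exists_bound_of_continuousOn hf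
  exact MemLp.of_bound (hf.aestronglyMeasurable_of_isCompact hB hB.measurableSet) C
    ((ae_restrict_iff' hB.measurableSet).2 (Eventually.of_forall hC))

theorem squeeze {B : Set (Fin n → ℝ)} (hB : MeasurableSet B) {p q q' : ℕ → (Fin n → ℝ) → ℝ}
    (h0 : ∀ k y, 0 ≤ p k y) (h1 : ∀ k, ∀ y ∈ B, p k y ≤ q k y + q' k y)
    (hq : ∀ k, IntegrableOn (q k) B) (hq' : ∀ k, IntegrableOn (q' k) B)
    (t : Tendsto (fun k => ∫ y in B, q k y) atTop (𝓝 0))
    (t' : Tendsto (fun k => ∫ y in B, q' k y) atTop (𝓝 0)) :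
    Tendsto (fun k => ∫ y in B, p k y) atTop (𝓝 0) := by
  refine squeeze_zero (fun k => integral_nonneg (h0 k)) (fun k => ?_) (by simpa using t.add t')
  rw [← integral_add (hq k) (hq' k)]
  exact integral_mono_of_nonneg (Eventually.of_forall (h0 k)) ((hq k).add (hq' k))
    ((ae_restrict_iff' hB).2 (Eventually.of_forall (h1 k)))

theorem smooth_of_ode {s : Set (Fin n → ℝ)} (hs : IsOpen s)
    {A : Fin n → (Fin n → ℝ) → G →L[ℝ] G} (hA : ∀ j, ContDiffOn ℝ ∞ (A j) s)
    {v : (Fin n → ℝ) → G} (hv : ∀ x ∈ s, HasFDerivAt v (lin fun j => -A j x (v x)) x) :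
    ContDiffOn ℝ ∞ v s := by
  have hd : DifferentiableOn ℝ v s := fun x hx => (hv x hx).differentiableAt.differentiableWithinAt
  refine contDiffOn_infty.2 fun m => ?_
  induction m with
  | zero => exact contDiffOn_zero.2 hd.continuousOn
  | succ m ih =>
    rw [Nat.cast_succ, contDiffOn_succ_iff_fderiv_of_isOpen hs]
    refine ⟨hd, by simp, ContDiffOn.congr (f := fun x => lin fun j => -A j x (v x)) ?_
      fun x hx => (hv x hx).fderiv⟩
    exact ContDiffOn.sum fun j _ => contDiffOn_const.smulRight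
      (((hA j).of_le (by exact_mod_cast le_top)).clm_apply ih).neg

theorem deriv_of_mean {s D : Set (Fin n → ℝ)} (hs : IsOpen s) (hD : ∀ᵐ y, y ∈ D)
    {v : (Fin n → ℝ) → G} (hv : Continuous v) {g : Fin n → (Fin n → ℝ) → G}
    (hg : ∀ j, ContinuousOn (g j) s)
    (h : ∀ (x : Fin n → ℝ) (R : ℝ) (c : Fin n → G) (η : ℝ), 0 ≤ η → ball x R ⊆ s →
      (∀ j, ∀ y ∈ ball x R, ‖g j y - c j‖ ≤ η) → ∀ a ∈ ball x R ∩ D, ∀ b ∈ ball x R ∩ D,
        ‖v a - v b - lin c (a - b)‖ ≤ n * η * ‖a - b‖) {x : Fin n → ℝ} (hx : x ∈ s) :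
    HasFDerivAt v (lin fun j => g j x) x := by
  rw [hasFDerivAt_iff_isLittleO, Asymptotics.isLittleO_iff]
  intro ε hε
  have hη : 0 < ε / (n + 1) := by positivity
  have h1 : ∀ᶠ y in 𝓝 x, y ∈ s ∧ ∀ j, ‖g j y - g j x‖ ≤ ε / (n + 1) := by
    refine (hs.eventually_mem hx).and (eventually_all.2 fun j => ?_)
    have := Metric.tendsto_nhds.1 ((hg j).continuousAt (hs.mem_nhds hx)) _ hη
    filter_upwards [this] with y hy
    rw [dist_eq_norm] at hy
    exact hy.le
  obtain ⟨R, hR, h2⟩ := eventually_nhds_iff_ball.1 h1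
  have h3 := h x R (fun j => g j x) _ hη.le (fun y hy => (h2 y hy).1) fun j y hy => (h2 y hy).2 j
  have hcl : IsClosed {p : (Fin n → ℝ) × (Fin n → ℝ) |
      ‖v p.1 - v p.2 - lin (fun j => g j x) (p.1 - p.2)‖ ≤ n * (ε / (n + 1)) * ‖p.1 - p.2‖} :=
    isClosed_le (by fun_prop) (by fun_prop)
  have h4 := hcl.closure_subset_iff.2
    (show (ball x R ∩ D) ×ˢ (ball x R ∩ D) ⊆ _ from fun p hp => h3 p.1 hp.1 p.2 hp.2)
  rw [closure_prod_eq] at h4
  have h5 : ball x R ⊆ closure (ball x R ∩ D) :=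
    (Measure.dense_of_ae hD).open_subset_closure_inter isOpen_ball
  filter_upwards [ball_mem_nhds x hR] with a ha
  refine le_trans (h4 (mk_mem_prod (h5 ha) (h5 (mem_ball_self hR))))
    (mul_le_mul_of_nonneg_right ?_ (norm_nonneg _))
  rw [← mul_div_assoc, div_le_iff₀ (by positivity)]
  nlinarith

end EuReg

open EuReg Metric in
theorem smooth_of_parallel {y₀ : Fin n → ℝ} {r : ℝ} (hr : 0 < r) {U : Set (Fin n → ℝ)}
    (hU : IsOpen U) (hB : Metric.closedBall y₀ r ⊆ U) (A : Fin n → (Fin n → ℝ) → F →L[ℝ] F)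
    (hA : ∀ j, ContDiffOn ℝ ∞ (A j) U) (hskew : ∀ j, ∀ y ∈ U, ∀ z, ⟪A j y z, z⟫ = 0)
    (w : ℕ → (Fin n → ℝ) → F) (hw : ∀ k, ContDiffOn ℝ ∞ (w k) U)
    (hc : ∀ δ > 0, ∃ N, ∀ k ≥ N, ∀ l ≥ N,
      ∫ y in Metric.closedBall y₀ r, ‖w k y - w l y‖ ^ 2 ≤ δ)
    (hp : ∀ j, Tendsto (fun k => ∫ y in Metric.closedBall y₀ r,
      ‖fderiv ℝ (w k) y (Pi.single j 1) + A j y (w k y)‖ ^ 2) atTop (𝓝 0)) :
    ∃ u : (Fin n → ℝ) → F, ContDiffOn ℝ ∞ u (Metric.ball y₀ (r / 2)) ∧
      ContinuousOn u (Metric.closedBall y₀ (r / 2)) ∧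
      Tendsto (fun k => ∫ y in Metric.closedBall y₀ (r / 2), ‖w k y - u y‖ ^ 2) atTop (𝓝 0) := by
  have : CompleteSpace F := FiniteDimensional.complete ℝ F
  have hK := isCompact_closedBall y₀ r
  have hM : MeasurableSet (closedBall y₀ r) := measurableSet_closedBall
  have : IsFiniteMeasure (volume.restrict (closedBall y₀ r)) :=
    isFiniteMeasure_restrict.2 hK.measure_lt_top.ne
  have hw1 : ∀ k, ContDiffOn ℝ 1 (w k) U := fun k => (hw k).of_le (by exact_mod_cast le_top)
  have hwc : ∀ k, ContinuousOn (w k) (closedBall y₀ r) := fun k => (hw k).continuousOn.mono hB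
  have hAc : ∀ j, ContinuousOn (A j) (closedBall y₀ r) := fun j => (hA j).continuousOn.mono hB
  obtain ⟨u, hu, hlim⟩ := exists_lim (fun k => memLp_of_cont hK (hwc k)) hc
  obtain ⟨C, hC⟩ := hK.exists_bound_of_continuousOn (continuousOn_pi.2 hAc)
  have hC0 : 0 ≤ C := (norm_nonneg _).trans (hC y₀ (mem_closedBall_self hr.le))
  have hAb : ∀ j, ∀ y ∈ closedBall y₀ r, ∀ z, ‖A j y z‖ ≤ C * ‖z‖ := fun j y hy z =>
    (A j y).le_of_opNorm_le ((norm_le_pi_norm (fun j => A j y) j).trans (hC y hy)) z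
  have ma : ∀ k, MemLp (fun y => ‖w k y - u y‖) 2 (volume.restrict (closedBall y₀ r)) :=
    fun k => ((memLp_of_cont hK (hwc k)).sub hu).norm
  have me : ∀ j k, MemLp (fun y => ‖fderiv ℝ (w k) y (Pi.single j 1) + A j y (w k y)‖) 2
      (volume.restrict (closedBall y₀ r)) := fun j k =>
    (memLp_of_cont hK ((int_fderiv hU hB (hw1 k) j).add ((hAc j).clm_apply (hwc k)))).norm
  have mu : MemLp (fun y => 2 * ‖u y‖) 2 (volume.restrict (closedBall y₀ r)) :=
    hu.norm.const_mul 2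
  have hui : IntegrableOn u (closedBall y₀ r) := hu.integrable one_le_two
  have tA : Tendsto (fun k => ∫ y in closedBall y₀ r, ‖w k y - u y‖) atTop (𝓝 0) := by
    simpa using tendsto_mul ma (memLp_const 1) hlim
  have tE : ∀ j, Tendsto (fun k => ∫ y in closedBall y₀ r,
      ‖fderiv ℝ (w k) y (Pi.single j 1) + A j y (w k y)‖) atTop (𝓝 0) := fun j => by
    simpa using tendsto_mul (me j) (memLp_const 1) (hp j)
  -- the norm of the limit is essentially bounded
  obtain ⟨D₁, hD₁, h₁⟩ := mean hr hU hB (f := fun k y => ‖w k y‖ ^ 2) (u := fun y => ‖u y‖ ^ 2)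
    (g := fun _ _ => 0) (fun k => (hw1 k).norm_sq ℝ) hu.norm.integrable_sq
    (fun _ => integrableOn_zero)
    (squeeze hM (q' := fun k y => ‖w k y - u y‖ * (2 * ‖u y‖)) (fun _ _ => norm_nonneg _)
      (fun k y _ => by
        have e1 := norm_sub_norm_le (w k y) (u y)
        have e2 := norm_sub_norm_le (u y) (w k y)
        rw [norm_sub_rev] at e2
        rw [Real.norm_eq_abs, abs_le]
        constructor <;> nlinarith [norm_nonneg (w k y), norm_nonneg (u y),
          norm_nonneg (w k y - u y)])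
      (fun k => (ma k).integrable_sq) (fun k => (ma k).integrable_mul mu) hlim
      (tendsto_mul ma mu hlim))
    (fun j => squeeze hM (q := fun k y => ‖w k y - u y‖ ^ 2 +
        ‖fderiv ℝ (w k) y (Pi.single j 1) + A j y (w k y)‖ ^ 2)
      (q' := fun k y => ‖fderiv ℝ (w k) y (Pi.single j 1) + A j y (w k y)‖ * (2 * ‖u y‖))
      (fun _ _ => norm_nonneg _)
      (fun k y hy => by
        have d1 : HasFDerivAt (w k) (fderiv ℝ (w k) y) y :=
          (((hw1 k).contDiffAt (hU.mem_nhds (hB hy))).differentiableAt one_ne_zero).hasFDerivAt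
        have e1 : fderiv ℝ (fun y => ‖w k y‖ ^ 2) y (Pi.single j 1)
            = 2 * ⟪fderiv ℝ (w k) y (Pi.single j 1) + A j y (w k y), w k y⟫ := by
          rw [d1.norm_sq.fderiv, inner_add_left, hskew j y (hB hy), add_zero, real_inner_comm]
          simp
        have e2 := abs_real_inner_le_norm
          (fderiv ℝ (w k) y (Pi.single j 1) + A j y (w k y)) (w k y)
        have e3 := norm_sub_norm_le (w k y) (u y)
        rw [sub_zero, e1, Real.norm_eq_abs, abs_mul, abs_two]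
        nlinarith [norm_nonneg (fderiv ℝ (w k) y (Pi.single j 1) + A j y (w k y)),
          sq_nonneg (‖w k y - u y‖ - ‖fderiv ℝ (w k) y (Pi.single j 1) + A j y (w k y)‖)])
      (fun k => by exact (ma k).integrable_sq.add (me j k).integrable_sq)
      (fun k => (me j k).integrable_mul mu)
      (squeeze hM (fun _ _ => by positivity) (fun _ _ _ => le_rfl)
        (fun k => (ma k).integrable_sq) (fun k => (me j k).integrable_sq) hlim (hp j))
      (tendsto_mul (me j) mu (hp j)))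
  obtain ⟨M, hM0, hMb⟩ : ∃ M : ℝ, 0 ≤ M ∧ ∀ a ∈ ball y₀ r ∩ D₁, ‖u a‖ ≤ M := by
    rcases (ball y₀ r ∩ D₁).eq_empty_or_nonempty with he | ⟨b, hb⟩
    · exact ⟨0, le_rfl, fun a ha => by rw [he] at ha; exact ha.elim⟩
    · refine ⟨‖u b‖, norm_nonneg _, fun a ha => ?_⟩
      have := h₁ y₀ r (fun _ => 0) 0 le_rfl ball_subset_closedBall (fun _ => by simp) a ha b hb
      rw [lin_apply] at this
      simp only [smul_zero, Finset.sum_const_zero, sub_zero, mul_zero, zero_mul,
        norm_le_zero_iff, sub_eq_zero] at this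
      exact ((pow_left_inj₀ (norm_nonneg _) (norm_nonneg _) two_ne_zero).1 this).le
  -- the limit has a Lipschitz representative
  have hgi : ∀ j, IntegrableOn (fun y => -A j y (u y)) (closedBall y₀ r) := fun j => by
    refine Integrable.neg (Integrable.mono' (hui.norm.const_mul C) ?_
      ((ae_restrict_iff' hM).2 (Eventually.of_forall fun y hy => hAb j y hy _)))
    exact isBoundedBilinearMap_apply.continuous.comp_aestronglyMeasurable
      (((hAc j).aestronglyMeasurable_of_isCompact hK hM).prodMk hu.aestronglyMeasurable)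
  obtain ⟨D₂, hD₂, h₂⟩ := mean hr hU hB hw1 hui hgi tA fun j =>
    squeeze hM (q' := fun k y => C * ‖w k y - u y‖) (fun _ _ => norm_nonneg _)
      (fun k y hy => by
        have e1 : fderiv ℝ (w k) y (Pi.single j 1) - -A j y (u y) =
            (fderiv ℝ (w k) y (Pi.single j 1) + A j y (w k y)) - A j y (w k y - u y) := by
          rw [map_sub]; abel
        rw [e1]
        exact (norm_sub_le _ _).trans (add_le_add le_rfl (hAb j y hy _)))
      (fun k => (me j k).integrable one_le_two)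
      (fun k => ((ma k).integrable one_le_two).const_mul C) (tE j)
      (by simpa only [integral_const_mul, mul_zero] using tA.const_mul C)
  have hlip : LipschitzOnWith (Real.toNNReal (n * (C * M))) u (ball y₀ r ∩ D₂) := by
    refine LipschitzOnWith.of_dist_le' fun a ha b hb => ?_
    have := h₂ y₀ r (fun _ => 0) (C * M) (by positivity) ball_subset_closedBall (fun j => by
      filter_upwards [hD₁] with y hy hy'
      rw [sub_zero, norm_neg]
      exact (hAb j y (ball_subset_closedBall hy') _).trans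
        (mul_le_mul_of_nonneg_left (hMb y ⟨hy', hy⟩) hC0)) a ha b hb
    rw [lin_apply] at this
    simpa only [smul_zero, Finset.sum_const_zero, sub_zero, dist_eq_norm] using this
  obtain ⟨v, hv, huv⟩ := hlip.extend_finite_dimension
  have hvd : ∀ x ∈ ball y₀ r, HasFDerivAt v (lin fun j => -A j x (v x)) x := fun x hx =>
    deriv_of_mean (g := fun j y => -A j y (v y)) isOpen_ball hD₂ hv.continuous
      (fun j => (((hAc j).mono ball_subset_closedBall).clm_apply hv.continuous.continuousOn).neg)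
      (fun x R c η hη hs hg a ha b hb => by
        rw [← huv ⟨hs ha.1, ha.2⟩, ← huv ⟨hs hb.1, hb.2⟩]
        refine h₂ x R c η hη (hs.trans ball_subset_closedBall) (fun j => ?_) a ha b hb
        filter_upwards [hD₂] with y hy hy'
        rw [huv ⟨hs hy', hy⟩]
        exact hg j y hy') hx
  have hsub : closedBall y₀ (r / 2) ⊆ ball y₀ r := closedBall_subset_ball (half_lt_self hr)
  refine ⟨v, (smooth_of_ode isOpen_ball (fun j => (hA j).mono (ball_subset_closedBall.trans hB))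
    hvd).mono (ball_subset_closedBall.trans hsub), hv.continuous.continuousOn, ?_⟩
  refine squeeze_zero (fun k => integral_nonneg fun _ => by positivity) (fun k => ?_) hlim
  refine le_trans (le_of_eq (setIntegral_congr_ae measurableSet_closedBall ?_))
    (setIntegral_mono_set (ma k).integrable_sq (Eventually.of_forall fun _ => by positivity)
      (hsub.trans ball_subset_closedBall).eventuallyLE)
  filter_upwards [hD₂] with y hy hy'
  rw [huv ⟨hsub hy', hy⟩]

end SZ
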