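import Pool.Agent.P.MP_8db816_gt.SZ.Good
import Pool.Agent.P.MP_8db816_gt.SZ.EuReg

/-! On a closed scalar-flat manifold the `L²` kernel consists of smooth harmonic spinors. -/

noncomputable section

namespace SZ

open Set CliffordAlgebra Filter Topology MeasureTheory Atl.Sec UniformSpace
open scoped ContDiff RealInnerProductSpace

variable {n : ℕ} {M : Atl n}

namespace BottAux

/-- The connection form in the direction of the `j`-th coordinate. -/
def conn (e : Fr n) (j : Fin n) (y : E n) : Cl n :=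
  ∑ i, (fmat e y)⁻¹.mulVec (Pi.single j 1) i • omg e i y

theorem coef_eq (e : Fr n) (j i : Fin n) (y : E n) :
    (fmat e y)⁻¹.mulVec (Pi.single j 1) i = (fmat e y)⁻¹ i j := by
  simp

theorem contDiffOn_conn {e : Fr n} {U : Set (E n)} (he : IsFr e U) (hU : IsOpen U) (j : Fin n) :
    ContDiffOn ℝ ∞ (conn e j) U := by
  unfold conn
  simp only [coef_eq]
  exact ContDiffOn.sum fun i _ => (he.contDiffOn_inv i j).smul (he.contDiffOn_omg hU i)

theorem star_conn (e : Fr n) (j : Fin n) (y : E n) : star (conn e j y) = -conn e j y := by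
  simp only [conn, star_sum, CliffordAlgebra.star_smul, star_omg, smul_neg,
    Finset.sum_neg_distrib]

theorem skew_conn (e : Fr n) (j : Fin n) (y : E n) (z : Cl n) : ⟪conn e j y * z, z⟫ = 0 := by
  have h := inner_mul_left (conn e j y) z z
  rw [star_conn, neg_mul, inner_neg_right, real_inner_comm (conn e j y * z) z] at h
  linarith

theorem fderiv_add_conn {e : Fr n} {U : Set (E n)} (he : IsFr e U) {y : E n} (hy : y ∈ U)
    (w : E n → Cl n) (j : Fin n) : fderiv ℝ w y (Pi.single j 1) + conn e j y * w y =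
      ∑ i, (fmat e y)⁻¹ i j • nab e i w y := by
  rw [he.fderiv_eq_sum hy, conn, Finset.sum_mul, ← Finset.sum_add_distrib]
  refine Finset.sum_congr rfl fun i _ => ?_
  rw [nab_eq, smul_add, smul_mul_assoc, coef_eq]

theorem norm_sum_smul_sq_le (c : Fin n → ℝ) (v : Fin n → Cl n) {B : ℝ}
    (hc : ∑ i, c i ^ 2 ≤ B) : ‖∑ i, c i • v i‖ ^ 2 ≤ B * ∑ i, ‖v i‖ ^ 2 := by
  have h1 : ‖∑ i, c i • v i‖ ≤ ∑ i, |c i| * ‖v i‖ :=
    (norm_sum_le _ _).trans (le_of_eq (Finset.sum_congr rfl fun i _ => by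
      rw [norm_smul, Real.norm_eq_abs]))
  calc ‖∑ i, c i • v i‖ ^ 2 ≤ (∑ i, |c i| * ‖v i‖) ^ 2 := by gcongr
    _ ≤ (∑ i, |c i| ^ 2) * ∑ i, ‖v i‖ ^ 2 := Finset.sum_mul_sq_le_sq_mul_sq _ _ _
    _ ≤ B * ∑ i, ‖v i‖ ^ 2 := by
      simp only [sq_abs]
      gcongr

/-- The local limit in a chart. -/
theorem exists_loc_lim (ψ : ℕ → M.Sec) (hc : CauchySeq ψ)
    (h0 : Tendsto (fun k => M.int ((ψ k).nn (ψ k))) atTop (𝓝 0)) (a : M.A) {y₀ : E n} {r : ℝ}
    (hr : 0 < r) (hB : Metric.closedBall y₀ r ⊆ (M.φ a).target) :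
    ∃ u : E n → Cl n, ContDiffOn ℝ ∞ u (Metric.ball y₀ (r / 2)) ∧
      ContinuousOn u (Metric.closedBall y₀ (r / 2)) ∧
      Tendsto (fun k => ∫ y in Metric.closedBall y₀ (r / 2), ‖(ψ k).loc a y - u y‖ ^ 2) atTop
        (𝓝 0) := by
  have hK := isCompact_closedBall y₀ r
  have hU := (M.φ a).open_target
  have he := M.fr a
  refine smooth_of_parallel hr hU hB (fun j y => mulL n (conn (M.e a) j y))
    (fun j => (mulL n).contDiff.comp_contDiffOn (contDiffOn_conn he hU j))
    (fun j y _ z => skew_conn _ j y z) (fun k => (ψ k).loc a) (fun k => contDiffOn_loc _ a)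
    (fun δ hδ => ?_) (fun j => ?_)
  · obtain ⟨C, hC, h⟩ := setIntegral_loc_le (M := M) hK hB
    obtain ⟨N, hN⟩ := Metric.cauchySeq_iff.1 hc (Real.sqrt (δ / C)) (by positivity)
    refine ⟨N, fun k hk l hl => ?_⟩
    have h1 := h (ψ k - ψ l)
    rw [loc_sub] at h1
    have h2 := (hN k hk l hl).le
    rw [dist_eq_norm] at h2
    refine h1.trans ?_
    calc C * ‖ψ k - ψ l‖ ^ 2 ≤ C * Real.sqrt (δ / C) ^ 2 := by gcongr
      _ = δ := by rw [Real.sq_sqrt (by positivity)]; field_simp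
  · obtain ⟨C, hC, h⟩ := setIntegral_fderiv_le (M := M) hK hB
    have hc' : ContinuousOn (fun y => ∑ i, ((fmat (M.e a) y)⁻¹ i j) ^ 2)
        (Metric.closedBall y₀ r) :=
      continuousOn_finsetSum _ fun i _ => (((he.contDiffOn_inv i j).continuousOn).mono hB).pow 2
    obtain ⟨B, hB'⟩ := hK.bddAbove_image hc'
    have hB1 : ∀ y ∈ Metric.closedBall y₀ r, ∑ i, ((fmat (M.e a) y)⁻¹ i j) ^ 2 ≤ B :=
      fun y hy => hB' (mem_image_of_mem _ hy)
    have hB0 : 0 ≤ B := le_trans (by positivity) (hB1 y₀ (Metric.mem_closedBall_self hr.le))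
    have lim : Tendsto (fun k => B * (n * (C * M.int ((ψ k).nn (ψ k))))) atTop (𝓝 0) := by
      simpa using ((h0.const_mul C).const_mul (n : ℝ)).const_mul B
    refine squeeze_zero (fun k => integral_nonneg fun y => by positivity) (fun k => ?_) lim
    have hi : ∀ i, IntegrableOn (fun y => ‖nab (M.e a) i ((ψ k).loc a) y‖ ^ 2)
        (Metric.closedBall y₀ r) := fun i =>
      ((((he.contDiffOn_nab hU (contDiffOn_loc _ a) i).continuousOn.mono hB).norm).pow
        2).integrableOn_compact hK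
    calc ∫ y in Metric.closedBall y₀ r, ‖fderiv ℝ ((ψ k).loc a) y (Pi.single j 1) +
          mulL n (conn (M.e a) j y) ((ψ k).loc a y)‖ ^ 2
        ≤ ∫ y in Metric.closedBall y₀ r, B * ∑ i, ‖nab (M.e a) i ((ψ k).loc a) y‖ ^ 2 := by
          refine integral_mono_of_nonneg (Eventually.of_forall fun y => by positivity)
            ((integrable_finsetSum _ fun i _ => hi i).const_mul B) ?_
          refine (ae_restrict_iff' hK.measurableSet).2 (Eventually.of_forall fun y hy => ?_)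
          simp only [mulL_apply]
          rw [fderiv_add_conn he (hB hy)]
          exact norm_sum_smul_sq_le _ _ (hB1 y hy)
      _ = B * ∑ i, ∫ y in Metric.closedBall y₀ r, ‖nab (M.e a) i ((ψ k).loc a) y‖ ^ 2 := by
          rw [integral_const_mul, integral_finsetSum _ fun i _ => hi i]
      _ ≤ B * ∑ _i : Fin n, C * M.int ((ψ k).nn (ψ k)) := by
          gcongr with i
          exact (h (ψ k) i).1
      _ = _ := by simp

/-- A cut-off Cauchy sequence converges to a smooth section. -/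
theorem exists_cut_lim (ψ : ℕ → M.Sec) (a : M.A) {y₀ : E n} {r : ℝ}
    (hB : Metric.closedBall y₀ r ⊆ (M.φ a).target) {u : E n → Cl n}
    (hu : ContDiffOn ℝ ∞ u (Metric.ball y₀ r)) (hu' : ContinuousOn u (Metric.closedBall y₀ r))
    (hl : Tendsto (fun k => ∫ y in Metric.closedBall y₀ r, ‖(ψ k).loc a y - u y‖ ^ 2) atTop (𝓝 0))
    {η : M.X → ℝ} (hη : M.Sm η) (h01 : ∀ x, 0 ≤ η x ∧ η x ≤ 1) {K : Set M.X} (hK : IsCompact K)
    (hKa : K ⊆ (M.φ a).source) (hKb : ∀ x ∈ K, M.φ a x ∈ Metric.ball y₀ r)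
    (h0 : ∀ x ∉ K, η x = 0) : ∃ χ : M.Sec, Tendsto (fun k => M.mul η (ψ k)) atTop (𝓝 χ) := by
  have hL := isCompact_chart_image hK hKa
  have hLb : M.φ a '' K ⊆ Metric.ball y₀ r := by
    rintro _ ⟨x, hx, rfl⟩
    exact hKb x hx
  have hz : ∀ y ∈ (M.φ a).target, y ∉ M.φ a '' K → η ((M.φ a).symm y) = 0 := fun y hy hy' =>
    h0 _ fun hx => hy' ⟨_, hx, (M.φ a).right_inv hy⟩
  have hw : ContDiffOn ℝ ∞ (fun y => η ((M.φ a).symm y) • u y) (M.φ a).target := by
    intro y hy
    refine ContDiffAt.contDiffWithinAt ?_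
    by_cases hyb : y ∈ Metric.ball y₀ r
    · exact ((hη a).contDiffAt ((M.φ a).open_target.mem_nhds hy)).smul
        (hu.contDiffAt (Metric.isOpen_ball.mem_nhds hyb))
    · refine (contDiffAt_const (c := (0 : Cl n))).congr_of_eventuallyEq ?_
      filter_upwards [(M.φ a).open_target.mem_nhds hy,
        hL.isClosed.isOpen_compl.mem_nhds fun h => hyb (hLb h)] with z h1 h2
      rw [hz z h1 h2, zero_smul]
  have hg : M.Gl a fun y => η ((M.φ a).symm y) • u y :=
    ⟨hw, _, hL, hLb.trans (Metric.ball_subset_closedBall.trans hB),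
      fun y hy hy' => by simp only [hz y hy hy', zero_smul]⟩
  refine ⟨M.glob a fun y => η ((M.φ a).symm y) • u y, ?_⟩
  have hK' := isCompact_closedBall y₀ r
  obtain ⟨C, hC, h⟩ := norm_glob_le (M := M) hK' hB
  have hs : ∀ k, (M.mul η (ψ k)).Sup K := fun k x hx => by rw [ev_mul hη, h0 x hx, zero_smul]
  have hv : ∀ k, ∀ y ∈ (M.φ a).target,
      (M.mul η (ψ k)).loc a y - η ((M.φ a).symm y) • u y =
        η ((M.φ a).symm y) • ((ψ k).loc a y - u y) := fun k y hy => by
    rw [loc_of_mem _ hy, loc_of_mem _ hy, fam_mul hη, smul_sub]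
  rw [tendsto_iff_norm_sub_tendsto_zero]
  have lim : Tendsto (fun k => Real.sqrt
      (C * ∫ y in Metric.closedBall y₀ r, ‖(ψ k).loc a y - u y‖ ^ 2)) atTop (𝓝 0) := by
    simpa using (hl.const_mul C).sqrt
  refine squeeze_zero (fun k => norm_nonneg _) (fun k => Real.le_sqrt_of_sq_le ?_) lim
  rw [← glob_loc (hs k) hK hKa, ← glob_sub (gl_loc (hs k) hK hKa) hg]
  refine (h _ ((contDiffOn_loc _ a).sub hw) fun y hy hy' => ?_).trans ?_
  · rw [hv k y hy, hz y hy fun h => hy' (Metric.ball_subset_closedBall (hLb h)), zero_smul]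
  · refine mul_le_mul_of_nonneg_left ?_ hC.le
    refine integral_mono_of_nonneg (Eventually.of_forall fun y => by positivity)
      (((((contDiffOn_loc _ a).continuousOn.mono hB).sub hu').norm.pow 2).integrableOn_compact hK')
      ?_
    refine (ae_restrict_iff' hK'.measurableSet).2 (Eventually.of_forall fun y hy => ?_)
    simp only
    rw [hv k y (hB hy), norm_smul, Real.norm_of_nonneg (h01 _).1]
    have := h01 ((M.φ a).symm y)
    exact pow_le_pow_left₀ (mul_nonneg this.1 (norm_nonneg _))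
      (mul_le_of_le_one_left (norm_nonneg _) this.2) 2

/-- The components of a section, as a linear map. -/
def famL (M : Atl n) : M.Sec →ₗ[ℝ] (M.A → M.X → Cl n) where
  toFun := Atl.Sec.fam
  map_add' _ _ := rfl
  map_smul' _ _ := rfl

theorem famL_injective (M : Atl n) : Function.Injective (famL M) := fun _ _ h =>
  Atl.Sec.ext fun a x => congrFun (congrFun h a) x

end BottAux

open BottAux

/-- A Cauchy sequence whose covariant derivatives tend to zero has a smooth limit. -/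
theorem exists_smooth_lim (hM : IsCompact M.car) (ψ : ℕ → M.Sec) (hc : CauchySeq ψ)
    (h0 : Tendsto (fun k => M.int ((ψ k).nn (ψ k))) atTop (𝓝 0)) :
    ∃ χ : M.Sec, Tendsto ψ atTop (𝓝 χ) := by
  have ex : ∀ x : M.car, ∃ r : ℝ, 0 < r ∧
      Metric.closedBall (M.φ (M.ch x.2) x) r ⊆ (M.φ (M.ch x.2)).target := fun x =>
    (Metric.nhds_basis_closedBall.mem_iff.1
      ((M.φ _).open_target.mem_nhds ((M.φ _).map_source (M.ch_spec x.2))))
  choose r hr hB using ex
  obtain ⟨s, η, C, h1, h2, h3, h4, h5, h6, h7⟩ := M.exists_pou hM subset_rfl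
    (fun x : M.car => (M.φ (M.ch x.2)).source ∩
      M.φ (M.ch x.2) ⁻¹' Metric.ball (M.φ (M.ch x.2) x) (r x / 2))
    (fun x => (M.φ _).isOpen_inter_preimage Metric.isOpen_ball)
    (fun x hx => mem_iUnion.2 ⟨⟨x, hx⟩, M.ch_spec hx,
      Metric.mem_ball_self (half_pos (hr ⟨x, hx⟩))⟩)
  have key : ∀ i : M.car, ∃ χ : M.Sec, i ∈ s →
      Tendsto (fun k => M.mul (η i) (ψ k)) atTop (𝓝 χ) := by
    intro i
    by_cases hi : i ∈ s
    swap
    · exact ⟨0, fun h => (hi h).elim⟩
    obtain ⟨u, u1, u2, u3⟩ := exists_loc_lim ψ hc h0 _ (hr i) (hB i)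
    obtain ⟨χ, hχ⟩ := exists_cut_lim ψ _
      ((Metric.closedBall_subset_closedBall (half_le_self (hr i).le)).trans (hB i)) u1 u2 u3 (h1 i)
      (fun x => ⟨h2 i x, (Finset.single_le_sum (fun j _ => h2 j x) hi).trans (h7 x)⟩) (h3 i)
      (fun x hx => (h4 i hx).1.1) (fun x hx => (h4 i hx).1.2) (h5 i)
    exact ⟨χ, fun _ => hχ⟩
  choose χ hχ using key
  refine ⟨∑ i ∈ s, χ i, (tendsto_finsetSum s fun i hi => hχ i hi).congr fun k => ?_⟩
  exact sum_mul_eq s (K := M.car) (fun i _ => h1 i) (fun x hx => ev_of_notMem _ hx)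
    fun x hx => (h6 x hx).self_of_nhds

theorem finrank_ker_flat (hM : IsCompact M.car) (hf : ∀ x ∈ M.car, M.scal x = 0) (h : 8 ∣ n)
    (p : ℝ) : Module.finrank ℝ (Ker M.Dir (M.cend (grEven n h).ε) p) = dimSpan (M.harm p) := by
  have hD := sym_dir M
  have hε : Sym (M.cend (grEven n h).ε) := sym_cend (grEven n h).ε_sym
  have hq := (grEven n h).eqv_ε M
  let S : Submodule ℝ M.Sec :=
    LinearMap.ker M.Dir ⊓ LinearMap.ker (M.cend (grEven n h).ε - p • LinearMap.id)
  have hS : ∀ x, x ∈ S ↔ M.Dir x = 0 ∧ M.cend (grEven n h).ε x = p • x := fun x => by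
    simp [S, sub_eq_zero]
  rw [finrank_ker_eq hD hε p S (fun x hx => (hS x).1 hx) ?_]
  · have e : M.harm p = (S.map (famL M) : Set (M.A → M.X → Cl n)) := by
      ext ψ
      constructor
      · rintro ⟨h1, h2, h3, h4, h5⟩
        refine ⟨mk' ψ ⟨h1, h2, h3, M.car, hM, subset_rfl,
          fun a x hx => h2 a x fun h' => hx (M.source_subset a h')⟩, (hS _).2 ⟨?_, ?_⟩, rfl⟩
        · refine Atl.Sec.ext fun a x => ?_
          by_cases hx : x ∈ (M.φ a).source
          · rw [fam_dir _ hx]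
            exact h4 a _ ((M.φ a).map_source hx)
          · exact (Atl.Sec.ok _).off a x hx
        · refine Atl.Sec.ext fun a x => ?_
          rw [fam_cend hq]
          exact h5 a x
      · rintro ⟨χ, hχ, rfl⟩
        obtain ⟨d1, d2⟩ := (hS χ).1 hχ
        refine ⟨χ.ok.sm, χ.ok.off, χ.ok.cmp, fun a y hy => ?_, fun a x => ?_⟩
        · have := fam_dir χ ((M.φ a).map_target hy)
          rw [d1, (M.φ a).right_inv hy] at this
          exact this.symm
        · have := fam_cend hq χ a x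
          rw [d2] at this
          exact this.symm
    rw [dimSpan, e, Submodule.span_eq]
    exact (Submodule.equivMapOfInjective _ (famL_injective M) S).finrank_eq
  · rintro u ⟨hu, hu'⟩
    obtain ⟨ψ, l1, l2⟩ := KerAux.gcl_seq ((Atl.complete_of_compact hM).esa u 0 hu)
    have hc : CauchySeq ψ :=
      (Completion.isUniformInducing_coe M.Sec).cauchy_map_iff.1 l1.cauchySeq
    have h0 : Tendsto (fun k => M.int ((ψ k).nn (ψ k))) atTop (𝓝 0) := by
      have l3 := (KerAux.tendsto_norm_zero l2).pow 2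
      rw [zero_pow two_ne_zero] at l3
      refine l3.congr fun k => ?_
      rw [lich, Atl.int_congr (F := fun x => M.scal x / 4 * ‖(ψ k).ev x‖ ^ 2) (G := fun _ => 0)
        fun x hx => by simp [hf x hx], Atl.int_zero, add_zero]
    obtain ⟨χ, hχ⟩ := exists_smooth_lim hM ψ hc h0
    have e : (χ : Completion M.Sec) = u :=
      tendsto_nhds_unique (((Completion.continuous_coe M.Sec).tendsto χ).comp hχ) l1
    subst e
    refine ⟨χ, (hS χ).2 ⟨?_, ?_⟩, rfl⟩
    · refine ext_inner_right ℝ fun φ => ?_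
      have := hu φ
      rw [Completion.inner_coe, inner_zero_left] at this
      rw [hD, this, inner_zero_left]
    · refine ext_inner_right ℝ fun φ => ?_
      have := hu' φ
      rw [Completion.inner_coe, Completion.inner_coe] at this
      rw [hε, this, real_inner_smul_left]

theorem Bott.index_ne_zero (𝔅 : Bott) : 𝔅.B.index (grEven 8 dvd_rfl) 0 ≠ 0 := by
  have hf : ∀ x ∈ 𝔅.B.car, 𝔅.B.scal x = 0 := fun x hx => by
    rw [Atl.scal_eq (𝔅.B.ch_spec hx)]
    exact 𝔅.flat _ _ ((𝔅.B.φ _).map_source (𝔅.B.ch_spec hx))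
  rw [Atl.index, op_zero, ind, finrank_ker_flat 𝔅.cpt hf, finrank_ker_flat 𝔅.cpt hf, sub_ne_zero]
  exact_mod_cast 𝔅.idx

end SZ
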