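import Pool.Agent.P.MP_8db816_gt.SZ.Fun

/-! Smooth cutoff functions and finite partitions of unity. -/

noncomputable section

namespace SZ

open Set Filter Topology
open scoped ContDiff

variable {n : ℕ}

namespace POUAux

theorem tsupport_deriv {u : ℝ → ℝ} {α β a b : ℝ} (h1 : ∀ t ≤ α, u t = a) (h2 : ∀ t ≥ β, u t = b) :
    tsupport (deriv u) ⊆ Icc α β := by
  refine closure_minimal (fun t ht => ?_) isClosed_Icc
  by_contra hc
  apply ht
  rcases not_and_or.1 hc with h | h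
  · have : u =ᶠ[𝓝 t] fun _ => a :=
      (eventually_lt_nhds (not_le.1 h)).mono fun s hs => h1 s (le_of_lt hs)
    rw [this.deriv_eq, deriv_const]
  · have : u =ᶠ[𝓝 t] fun _ => b :=
      (eventually_gt_nhds (not_le.1 h)).mono fun s hs => h2 s (le_of_lt hs)
    rw [this.deriv_eq, deriv_const]

theorem step {α β : ℝ} (h : α < β) : ∃ u : ℝ → ℝ, ContDiff ℝ ∞ u ∧
    (∀ t, 0 ≤ u t ∧ u t ≤ 1) ∧ (∀ t ≤ α, u t = 1) ∧ (∀ t ≥ β, u t = 0) := by
  have h0 : 0 < β - α := sub_pos.2 h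
  refine ⟨fun t => Real.smoothTransition ((β - t) / (β - α)),
    Real.smoothTransition.contDiff.comp ((contDiff_const.sub contDiff_id).div_const _),
    fun t => ⟨Real.smoothTransition.nonneg _, Real.smoothTransition.le_one _⟩,
    fun t ht => Real.smoothTransition.one_of_one_le ?_,
    fun t ht => Real.smoothTransition.zero_of_nonpos ?_⟩
  · rw [le_div_iff₀ h0]; linarith
  · exact div_nonpos_of_nonpos_of_nonneg (by linarith) h0.le

theorem inv_cut {c : ℝ} (hc : 0 < c) : ∃ u : ℝ → ℝ, ContDiff ℝ ∞ u ∧ (∀ t, 0 ≤ u t) ∧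
    (∀ t, t * u t ≤ 1) ∧ ∀ t ≥ c, t * u t = 1 := by
  obtain ⟨v, hv, h1, h2, h3⟩ := step (half_lt_self hc)
  refine ⟨fun t => (1 - v t) * t⁻¹, contDiff_iff_contDiffAt.2 fun t => ?_, fun t => ?_,
    fun t => ?_, fun t ht => ?_⟩
  · by_cases ht : t = 0
    · refine (contDiffAt_const (c := (0 : ℝ))).congr_of_eventuallyEq ?_
      refine (eventually_lt_nhds (ht ▸ half_pos hc : t < c / 2)).mono fun s hs => ?_
      simp only [h2 s (le_of_lt hs), sub_self, zero_mul]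
    · exact (contDiffAt_const.sub hv.contDiffAt).mul (contDiffAt_inv ℝ ht)
  · by_cases ht : t ≤ c / 2
    · simp only [h2 t ht, sub_self, zero_mul, le_refl]
    · exact mul_nonneg (sub_nonneg.2 (h1 t).2) (inv_nonneg.2 (by linarith))
  · by_cases ht : t = 0
    · simp [ht]
    · have := (h1 t).1
      rw [mul_left_comm, mul_inv_cancel₀ ht]
      linarith
  · have : t ≠ 0 := by linarith
    simp only [h3 t ht, sub_zero, one_mul, mul_inv_cancel₀ this]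

theorem car_open (M : Atl n) : IsOpen M.car := isOpen_iUnion fun a => (M.φ a).open_source

theorem bump (M : Atl n) {x : M.X} (hx : x ∈ M.car) {U : Set M.X} (hU : U ∈ 𝓝 x) :
    ∃ (f : M.X → ℝ) (C : Set M.X), M.Sm f ∧ (∀ y, 0 ≤ f y) ∧ IsCompact C ∧ C ⊆ U ∩ M.car ∧
      (∀ y ∉ C, f y = 0) ∧ 0 < f x := by
  obtain ⟨a, ha⟩ := Atl.mem_car.1 hx
  have h1 : (M.φ a).target ∩ (M.φ a).symm ⁻¹' U ∈ 𝓝 (M.φ a x) := by
    refine inter_mem ((M.φ a).open_target.mem_nhds ((M.φ a).map_source ha)) ?_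
    refine (M.φ a).continuousAt_symm ((M.φ a).map_source ha) ?_
    rwa [(M.φ a).left_inv ha]
  obtain ⟨r, hr, h2⟩ := Metric.nhds_basis_closedBall.mem_iff.1 h1
  let b : ContDiffBump (M.φ a x) := ⟨r / 2, r, half_pos hr, half_lt_self hr⟩
  have h3 : Metric.closedBall (M.φ a x) r ⊆ (M.φ a).target := fun y hy => (h2 hy).1
  have h4 : ∀ y, y ∉ Metric.closedBall (M.φ a x) r → b y = 0 := fun y hy =>
    b.zero_of_le_dist (le_of_lt (not_le.1 hy))
  refine ⟨(M.φ a).source.indicator fun y => b (M.φ a y),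
    (M.φ a).symm '' Metric.closedBall (M.φ a x) r,
    Atl.sm_extend a b.contDiff.contDiffOn (isCompact_closedBall _ _) h3 fun y _ hy => h4 y hy,
    fun y => indicator_nonneg (fun _ _ => b.nonneg) y,
    (isCompact_closedBall _ _).image_of_continuousOn ((M.φ a).continuousOn_symm.mono h3), ?_,
    fun y hy => ?_, ?_⟩
  · rintro _ ⟨y, hy, rfl⟩
    exact ⟨(h2 hy).2, M.source_subset a ((M.φ a).map_target (h3 hy))⟩
  · by_cases h5 : y ∈ (M.φ a).source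
    · rw [indicator_of_mem h5]
      exact h4 _ fun h6 => hy ⟨_, h6, (M.φ a).left_inv h5⟩
    · exact indicator_of_notMem h5 _
  · rw [indicator_of_mem ha, b.one_of_mem_closedBall (Metric.mem_closedBall_self b.rIn_pos.le)]
    exact one_pos

end POUAux

open POUAux

/-- A finite smooth partition of unity on a neighbourhood of the compact set `K`, subordinate to
the open sets `U i`. -/
theorem Atl.exists_pou (M : Atl n) {K : Set M.X} (hK : IsCompact K) (hKM : K ⊆ M.car) {ι : Type}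
    (U : ι → Set M.X) (hU : ∀ i, IsOpen (U i)) (hKU : K ⊆ ⋃ i, U i) :
    ∃ (s : Finset ι) (η : ι → M.X → ℝ) (C : ι → Set M.X), (∀ i, M.Sm (η i)) ∧
      (∀ i x, 0 ≤ η i x) ∧ (∀ i, IsCompact (C i)) ∧ (∀ i, C i ⊆ U i ∩ M.car) ∧
      (∀ i, ∀ x ∉ C i, η i x = 0) ∧ (∀ x ∈ K, ∀ᶠ y in 𝓝 x, ∑ i ∈ s, η i y = 1) ∧
      ∀ x, ∑ i ∈ s, η i x ≤ 1 := by
  classical
  choose i hi using fun x : K => mem_iUnion.1 (hKU x.2)
  choose f C hf h0 hC hCU hz hp using
    fun x : K => bump M (hKM x.2) ((hU (i x)).mem_nhds (hi x))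
  have hn : ∀ x : K, {y | 0 < f x y} ∈ 𝓝 x.1 := fun x =>
    ((hf x).smAt x.1).continuousAt (hKM x.2) (Ioi_mem_nhds (hp x))
  obtain ⟨t, ht⟩ := hK.elim_nhds_subcover' (fun x hx => {y | 0 < f ⟨x, hx⟩ y})
    fun x hx => hn ⟨x, hx⟩
  let F : M.X → ℝ := fun y => ∑ x ∈ t, f x y
  have hF : M.Sm F := Atl.sm_sum t fun x _ => hf x
  have hFp : ∀ y ∈ K, 0 < F y := by
    intro y hy
    obtain ⟨x, hx, h⟩ := mem_iUnion₂.1 (ht hy)
    exact Finset.sum_pos' (fun z _ => h0 z y) ⟨x, hx, h⟩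
  obtain ⟨c, hc, hcF⟩ := hK.exists_forall_le' (hF.continuousOn.mono hKM) hFp
  obtain ⟨u, hu, u0, u1, u2⟩ := inv_cut (half_pos hc)
  have hs : ∀ y, ∑ j ∈ t.image i, (∑ x ∈ t with i x = j, f x y) * u (F y) = F y * u (F y) := by
    intro y
    rw [← Finset.sum_mul, Finset.sum_fiberwise_of_maps_to fun x hx => Finset.mem_image_of_mem i hx]
  refine ⟨t.image i, fun j y => (∑ x ∈ t with i x = j, f x y) * u (F y),
    fun j => ⋃ x ∈ t.filter (i · = j), C x,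
    fun j => (Atl.sm_sum _ fun x _ => hf x).mul (hF.comp hu),
    fun j y => mul_nonneg (Finset.sum_nonneg fun x _ => h0 x y) (u0 _),
    fun j => Finset.isCompact_biUnion _ fun x _ => hC x,
    fun j => iUnion₂_subset fun x hx => (Finset.mem_filter.1 hx).2 ▸ hCU x,
    fun j y hy => mul_eq_zero_of_left
      (Finset.sum_eq_zero fun x hx => hz x y fun h => hy (mem_iUnion₂.2 ⟨x, hx, h⟩)) _,
    fun x hx => ?_, fun y => (hs y).trans_le (u1 _)⟩
  have : ∀ᶠ y in 𝓝 x, c / 2 < F y := (hF.smAt x).continuousAt (hKM hx)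
    (Ioi_mem_nhds ((half_lt_self hc).trans_le (hcF x hx)))
  exact this.mono fun y hy => (hs y).trans (u2 _ hy.le)

/-- The same for the cover by the chart domains. -/
theorem Atl.exists_pou_charts (M : Atl n) {K : Set M.X} (hK : IsCompact K) (hKM : K ⊆ M.car) :
    ∃ (s : Finset M.A) (η : M.A → M.X → ℝ) (C : M.A → Set M.X), (∀ a, M.Sm (η a)) ∧
      (∀ a x, 0 ≤ η a x) ∧ (∀ a, IsCompact (C a)) ∧ (∀ a, C a ⊆ (M.φ a).source) ∧
      (∀ a, ∀ x ∉ C a, η a x = 0) ∧ (∀ x ∈ K, ∀ᶠ y in 𝓝 x, ∑ a ∈ s, η a y = 1) ∧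
      ∀ x, ∑ a ∈ s, η a x ≤ 1 := by
  obtain ⟨s, η, C, h1, h2, h3, h4, h5⟩ := M.exists_pou hK hKM (fun a => (M.φ a).source)
    (fun a => (M.φ a).open_source) hKM
  exact ⟨s, η, C, h1, h2, h3, fun a => (h4 a).trans inter_subset_left, h5⟩

/-- A smooth cutoff function. -/
theorem Atl.exists_cutoff (M : Atl n) {K U : Set M.X} (hK : IsCompact K) (hKM : K ⊆ M.car)
    (hU : IsOpen U) (hKU : K ⊆ U) :
    ∃ (η : M.X → ℝ) (C : Set M.X), M.Sm η ∧ (∀ x, 0 ≤ η x ∧ η x ≤ 1) ∧ IsCompact C ∧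
      C ⊆ U ∩ M.car ∧ K ⊆ C ∧ (∀ x ∉ C, η x = 0) ∧ ∀ x ∈ K, ∀ᶠ y in 𝓝 x, η y = 1 := by
  obtain ⟨s, η, C, h1, h2, h3, h4, h5, h6, h7⟩ := M.exists_pou hK hKM (fun _ : Unit => U)
    (fun _ => hU) (hKU.trans (subset_iUnion (fun _ : Unit => U) ()))
  exact ⟨fun y => ∑ i ∈ s, η i y, C () ∪ K, Atl.sm_sum s fun i _ => h1 i,
    fun x => ⟨Finset.sum_nonneg fun i _ => h2 i x, h7 x⟩, (h3 ()).union hK,
    union_subset (h4 ()) (subset_inter hKU hKM), subset_union_right,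
    fun x hx => Finset.sum_eq_zero fun i _ => h5 i x fun h => hx (Or.inl h), h6⟩

/-- Cutoff functions with small gradient on a complete manifold. -/
theorem Atl.Complete.exists_cutoff {M : Atl n} (h : M.Complete) {K : Set M.X} (hK : IsCompact K)
    (hKM : K ⊆ M.car) {δ : ℝ} (hδ : 0 < δ) :
    ∃ (θ : M.X → ℝ) (C : Set M.X), M.Sm θ ∧ (∀ x, 0 ≤ θ x ∧ θ x ≤ 1) ∧ IsCompact C ∧
      C ⊆ M.car ∧ (∀ x ∈ M.car, x ∉ C → θ x = 0) ∧ (∀ x ∈ K, θ x = 1) ∧
      ∀ x ∈ M.car, M.gn θ x ≤ δ := by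
  obtain ⟨g, A, hg, hA, hc⟩ := h
  obtain ⟨r, hr⟩ := hK.bddAbove_image (hg.continuousOn.mono hKM)
  obtain ⟨u, hu, u1, u2, u3⟩ := step (zero_lt_one' ℝ)
  have hd : HasCompactSupport (deriv u) :=
    isCompact_Icc.of_isClosed_subset (isClosed_tsupport _) (tsupport_deriv u2 u3)
  obtain ⟨B, hB⟩ := (hu.continuous_deriv (by simp)).bounded_above_of_compact_support hd
  have hB0 : 0 ≤ B := (norm_nonneg _).trans (hB 0)
  let ε : ℝ := δ / (B * |A| + 1)
  have hp : 0 < B * |A| + 1 := by positivity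
  have hε : 0 < ε := div_pos hδ hp
  have hv : ContDiff ℝ ∞ fun t => u (ε * (t - r)) :=
    hu.comp (contDiff_const.mul (contDiff_id.sub contDiff_const))
  refine ⟨fun x => u (ε * (g x - r)), M.car ∩ g ⁻¹' Iic (r + ε⁻¹), hg.comp hv, fun x => u1 _,
    hc _, inter_subset_left, fun x hx hx' => u3 _ ?_, fun x hx => u2 _ ?_, fun x hx => ?_⟩
  · have h1 : r + ε⁻¹ < g x := not_le.1 fun h => hx' ⟨hx, h⟩
    calc 1 = ε * ε⁻¹ := (mul_inv_cancel₀ hε.ne').symm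
      _ ≤ _ := mul_le_mul_of_nonneg_left (by linarith) hε.le
  · exact mul_nonpos_of_nonneg_of_nonpos hε.le (sub_nonpos.2 (hr ⟨x, hx, rfl⟩))
  · rw [Atl.gn_comp (hg.smAt x) (hv.differentiable (by simp) _)]
    have h1 : HasDerivAt (fun t => u (ε * (t - r))) (deriv u (ε * (g x - r)) * (ε * 1)) (g x) :=
      (hu.differentiable (by simp) _).hasDerivAt.comp (g x)
        (((hasDerivAt_id (g x)).sub_const r).const_mul ε)
    rw [h1.deriv, mul_one, abs_mul, abs_of_pos hε]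
    calc _ ≤ B * ε * |A| :=
          mul_le_mul (mul_le_mul_of_nonneg_right (hB _) hε.le) ((hA x hx).trans (le_abs_self A))
            (Atl.gn_nonneg _ _) (by positivity)
      _ ≤ ε * (B * |A| + 1) := by nlinarith
      _ = δ := div_mul_cancel₀ _ hp.ne'

/-- A smooth step function on the line. -/
theorem exists_step {α β : ℝ} (h : α < β) : ∃ u : ℝ → ℝ, ContDiff ℝ ∞ u ∧
    (∀ t, 0 ≤ u t ∧ u t ≤ 1) ∧ (∀ t ≤ α, u t = 1) ∧ (∀ t ≥ β, u t = 0) ∧
    tsupport (deriv u) ⊆ Icc α β := by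
  obtain ⟨u, h1, h2, h3, h4⟩ := step h
  exact ⟨u, h1, h2, h3, h4, tsupport_deriv h3 h4⟩

/-- A pair of smooth step functions with `c² + d² = 1`. -/
theorem exists_step_pair {α β : ℝ} (h : α < β) : ∃ c d : ℝ → ℝ, ContDiff ℝ ∞ c ∧ ContDiff ℝ ∞ d ∧
    (∀ t, c t ^ 2 + d t ^ 2 = 1) ∧ (∀ t ≤ α, c t = 1 ∧ d t = 0) ∧ (∀ t ≥ β, c t = 0 ∧ d t = 1) ∧
    tsupport (deriv c) ⊆ Icc α β ∧ tsupport (deriv d) ⊆ Icc α β := by
  obtain ⟨u, h1, -, h3, h4⟩ := step h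
  have e1 : ∀ t ≤ α, Real.sin (Real.pi / 2 * u t) = 1 ∧ Real.cos (Real.pi / 2 * u t) = 0 :=
    fun t ht => by simp [h3 t ht]
  have e2 : ∀ t ≥ β, Real.sin (Real.pi / 2 * u t) = 0 ∧ Real.cos (Real.pi / 2 * u t) = 1 :=
    fun t ht => by simp [h4 t ht]
  exact ⟨fun t => Real.sin (Real.pi / 2 * u t), fun t => Real.cos (Real.pi / 2 * u t),
    Real.contDiff_sin.comp (contDiff_const.mul h1), Real.contDiff_cos.comp (contDiff_const.mul h1),
    fun t => Real.sin_sq_add_cos_sq _, e1, e2,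
    tsupport_deriv (fun t ht => (e1 t ht).1) fun t ht => (e2 t ht).1,
    tsupport_deriv (fun t ht => (e1 t ht).2) fun t ht => (e2 t ht).2⟩

end SZ
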