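import Pool.Agent.P.MP_8db816_gt.SZ.EmbCalc
import Pool.Agent.P.MP_8db816_gt.SZ.POU

/-! Cylindrical necks. -/

noncomputable section

namespace SZ

open Set CliffordAlgebra Filter Topology
open scoped ContDiff RealInnerProductSpace

variable {m : ℕ} {M : Atl m} {Y Y' Y'' : Atl (m + 1)}

/-- `b` identifies `M × I` with `τ⁻¹(I)`, and `τ` is the second coordinate there. -/
structure IsNeck (b : Emb (cyl M) Y) (τ : Y.X → ℝ) (I : Set ℝ) : Prop where
  cont : ContinuousOn τ Y.car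
  src : M.car ×ˢ I ⊆ b.f.source
  val : ∀ x ∈ M.car, ∀ t ∈ I, τ (b.f (x, t)) = t
  surj : ∀ y ∈ Y.car, τ y ∈ I → ∃ x ∈ M.car, b.f (x, τ y) = y

/-- `f` identifies `τ⁻¹(S)` with `τ'⁻¹(S)`, compatibly with the necks over `I`. -/
structure Match (f : Emb Y Y') (b : Emb (cyl M) Y) (τ : Y.X → ℝ) (b' : Emb (cyl M) Y')
    (τ' : Y'.X → ℝ) (I S : Set ℝ) : Prop where
  par : f.p = b.p * b'.p
  src : Y.car ∩ τ ⁻¹' S ⊆ f.f.source
  img : f.f '' (Y.car ∩ τ ⁻¹' S) = Y'.car ∩ τ' ⁻¹' S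
  sq : Sq f b b' (Emb.id _) (M.car ×ˢ I)

variable {b : Emb (cyl M) Y} {b' : Emb (cyl M) Y'} {b'' : Emb (cyl M) Y''} {τ : Y.X → ℝ}
  {τ' : Y'.X → ℝ} {τ'' : Y''.X → ℝ} {I J S T : Set ℝ} {f : Emb Y Y'} {g : Emb Y' Y''} {α β γ : ℝ}

theorem IsNeck.mono (h : IsNeck b τ I) (hJ : J ⊆ I) : IsNeck b τ J :=
  ⟨h.cont, (prod_mono subset_rfl hJ).trans h.src, fun x hx t ht => h.val x hx t (hJ ht),
    fun y hy ht => h.surj y hy (hJ ht)⟩

theorem IsNeck.mem_src (h : IsNeck b τ I) {x : M.X} (hx : x ∈ M.car) {t : ℝ} (ht : t ∈ I) :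
    (x, t) ∈ b.f.source := h.src ⟨hx, ht⟩

theorem IsNeck.image (h : IsNeck b τ I) (hJ : J ⊆ I) :
    b.f '' (M.car ×ˢ J) = Y.car ∩ τ ⁻¹' J := by
  ext y
  constructor
  · rintro ⟨⟨x, t⟩, ⟨hx, ht⟩, rfl⟩
    refine ⟨b.map_car (h.mem_src hx (hJ ht)), ?_⟩
    rw [mem_preimage, h.val x hx t (hJ ht)]
    exact ht
  · rintro ⟨hy, ht⟩
    obtain ⟨x, hx, hxy⟩ := h.surj y hy (hJ ht)
    exact ⟨(x, τ y), ⟨hx, ht⟩, hxy⟩

theorem IsNeck.isCompact (h : IsNeck b τ I) (hM : IsCompact M.car) (hJ : IsCompact J)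
    (hJI : J ⊆ I) : IsCompact (Y.car ∩ τ ⁻¹' J) := by
  rw [← h.image hJI]
  exact (hM.prod hJ).image_of_continuousOn (b.f.continuousOn.mono (h.mono hJI).src)

theorem IsNeck.isOpen (h : IsNeck b τ I) (hS : IsOpen S) : IsOpen (Y.car ∩ τ ⁻¹' S) :=
  h.cont.isOpen_inter_preimage Y.isOpen_car hS

theorem IsNeck.smAt (h : IsNeck b τ I) (hI : IsOpen I) {y : Y.X} (hy : y ∈ Y.car) (ht : τ y ∈ I) :
    Y.SmAt τ y ∧ Y.gn τ y = 1 := by
  obtain ⟨x, hx, hxy⟩ := h.surj y hy ht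
  have hz : (x, τ y) ∈ b.f.source := h.mem_src hx ht
  have hev : (fun w : M.X × ℝ => τ (b.f w)) =ᶠ[𝓝 (x, τ y)] fun w => w.2 := by
    filter_upwards [(M.isOpen_car.prod hI).mem_nhds (show (x, τ y) ∈ M.car ×ˢ I from ⟨hx, ht⟩)]
      with w hw
    exact h.val w.1 hw.1 w.2 hw.2
  have hl : line.SmAt (fun t : ℝ => t) (τ y) := smAt_line.2 contDiffAt_id
  have h1 := (b.smAt_iff hz τ).2
    ((Atl.SmAt.snd (M₁ := M) (M₂ := line) (z := (x, τ y)) hl).congr hev)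
  have h2 := b.gn_eq hz τ
  rw [hxy] at h1 h2
  refine ⟨h1, ?_⟩
  rw [h2, Atl.gn_congr hev,
    Atl.gn_snd (M₁ := M) (M₂ := line) (z := (x, τ y)) hl (mem_car_cyl.2 hx),
    gn_line (u := fun t : ℝ => t) differentiableAt_id]
  simp

theorem neck_eventually_const {u : ℝ → ℝ} (hu : Differentiable ℝ u) {t : ℝ}
    (ht : t ∉ tsupport (deriv u)) : u =ᶠ[𝓝 t] fun _ => u t := by
  obtain ⟨ε, hε, hb⟩ := Metric.isOpen_iff.1 (isClosed_tsupport (deriv u)).isOpen_compl t ht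
  filter_upwards [Metric.ball_mem_nhds t hε] with s hs
  exact Metric.isOpen_ball.is_const_of_deriv_eq_zero (convex_ball t ε).isPreconnected
    hu.differentiableOn (fun r hr => image_eq_zero_of_notMem_tsupport (hb hr)) hs
    (Metric.mem_ball_self hε)

theorem IsNeck.continuousAt (h : IsNeck b τ I) {y : Y.X} (hy : y ∈ Y.car) : ContinuousAt τ y :=
  h.cont.continuousAt (Y.isOpen_car.mem_nhds hy)

theorem IsNeck.eventually_const (h : IsNeck b τ I) {u : ℝ → ℝ} (hu : ContDiff ℝ ∞ u) {y : Y.X}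
    (hy : y ∈ Y.car) (ht : τ y ∉ tsupport (deriv u)) :
    (fun y => u (τ y)) =ᶠ[𝓝 y] fun _ => u (τ y) :=
  (h.continuousAt hy).eventually (neck_eventually_const (hu.differentiable (by simp)) ht)

theorem IsNeck.sm (h : IsNeck b τ I) (hI : IsOpen I) {u : ℝ → ℝ} (hu : ContDiff ℝ ∞ u)
    (hs : tsupport (deriv u) ⊆ I) : Y.Sm fun y => u (τ y) := by
  refine Atl.sm_iff_smAt.2 fun y hy => ?_
  by_cases ht : τ y ∈ I
  · exact (h.smAt hI hy ht).1.comp hy hu.contDiffAt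
  · exact (Atl.smAt_const _).congr (h.eventually_const hu hy fun h' => ht (hs h'))

theorem IsNeck.gn (h : IsNeck b τ I) (hI : IsOpen I) {u : ℝ → ℝ} (hu : ContDiff ℝ ∞ u)
    (hs : tsupport (deriv u) ⊆ I) {y : Y.X} (hy : y ∈ Y.car) :
    Y.gn (fun y => u (τ y)) y = |deriv u (τ y)| := by
  by_cases ht : τ y ∈ I
  · rw [Atl.gn_comp (h.smAt hI hy ht).1 (hu.differentiable (by simp) _), (h.smAt hI hy ht).2,
      mul_one]
  · have ht' : τ y ∉ tsupport (deriv u) := fun h' => ht (hs h')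
    rw [Atl.gn_congr (h.eventually_const hu hy ht'), Atl.gn_const,
      image_eq_zero_of_notMem_tsupport ht', abs_zero]

theorem IsNeck.scal (h : IsNeck b τ I) {x : M.X} (hx : x ∈ M.car) {t : ℝ} (ht : t ∈ I) :
    Y.scal (b.f (x, t)) = M.scal x := by
  rw [b.scal_eq (h.mem_src hx ht),
    Atl.scal_prod' (M₁ := M) (M₂ := line) (z := (x, t)) (mem_car_cyl.2 hx), scal_line', add_zero]

/-- On a neck over a closed manifold of positive scalar curvature the scalar curvature is uniformly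
positive. -/
theorem IsNeck.scal_ge (h : IsNeck b τ I) (hM : IsCompact M.car) (hp : M.Psc univ) :
    ∃ c : ℝ, 0 < c ∧ ∀ y ∈ Y.car, τ y ∈ I → c ≤ Y.scal y := by
  obtain ⟨c, hc, hc'⟩ := hM.exists_forall_le' M.sm_scal.continuousOn
    (fun x hx => Atl.psc_iff.1 hp x hx (mem_univ x))
  refine ⟨c, hc, fun y hy ht => ?_⟩
  obtain ⟨x, hx, hxy⟩ := h.surj y hy ht
  rw [← hxy, h.scal hx ht]
  exact hc' x hx

theorem mem_refl_source {z : M.X × ℝ} (hz : z.1 ∈ M.car) : z ∈ (Emb.refl M).f.source := by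
  rw [Emb.refl_source]
  exact mem_car_cyl.2 hz

theorem IsNeck.refl (h : IsNeck b τ I) :
    IsNeck (b.comp (Emb.refl M)) (fun y => -τ y) (Neg.neg ⁻¹' I) := by
  refine ⟨h.cont.neg, fun z hz => ⟨mem_refl_source hz.1, h.mem_src hz.1 hz.2⟩,
    fun x hx t ht => ?_, fun y hy ht => ?_⟩
  · change -τ (b.f (x, -t)) = t
    rw [h.val x hx (-t) ht, neg_neg]
  · simp only [mem_preimage, neg_neg] at ht
    obtain ⟨x, hx, hxy⟩ := h.surj y hy ht
    refine ⟨x, hx, ?_⟩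
    change b.f (x, - -τ y) = y
    rwa [neg_neg]

theorem isNeck_cyl (M : Atl m) (I : Set ℝ) : IsNeck (Emb.id (cyl M)) Prod.snd I :=
  ⟨continuous_snd.continuousOn, fun _ hz => mem_car_cyl.2 hz.1, fun _ _ _ _ => rfl,
    fun y hy _ => ⟨y.1, mem_car_cyl.1 hy, rfl⟩⟩

theorem Match.mono (h : Match f b τ b' τ' I S) (hJ : J ⊆ I) : Match f b τ b' τ' J S :=
  ⟨h.par, h.src, h.img, h.sq.mono (prod_mono subset_rfl hJ)⟩

theorem Match.sq' (h : Match f b τ b' τ' I S) {z : M.X × ℝ} (hz : z ∈ M.car ×ˢ I) :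
    z ∈ b.f.source ∧ b.f z ∈ f.f.source ∧ z ∈ b'.f.source ∧ f.f (b.f z) = b'.f z ∧
      f.mu (b.f z) * b.mu z = b'.mu z := by
  obtain ⟨h1, h2, -, h4, h5, h6⟩ := sq_iff.1 h.sq z hz
  rw [Emb.mu_id, mul_one] at h6
  exact ⟨h1, h2, h4, h5, h6⟩

theorem sq_of_neck {I : Set ℝ} (h : ∀ z ∈ M.car ×ˢ I, z ∈ b.f.source ∧ b.f z ∈ f.f.source ∧
    z ∈ b'.f.source ∧ f.f (b.f z) = b'.f z ∧ f.mu (b.f z) * b.mu z = b'.mu z) :
    Sq f b b' (Emb.id _) (M.car ×ˢ I) := by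
  refine sq_iff.2 fun z hz => ?_
  obtain ⟨h1, h2, h3, h4, h5⟩ := h z hz
  exact ⟨h1, h2, mem_car_cyl.2 hz.1, h3, h4, by rw [Emb.mu_id, mul_one]; exact h5⟩

theorem Match.tgt (h : Match f b τ b' τ' I S) : Y'.car ∩ τ' ⁻¹' S ⊆ f.f.target := by
  rw [← h.img]
  rintro _ ⟨y, hy, rfl⟩
  exact f.f.map_source (h.src hy)

theorem Match.symm (h : Match f b τ b' τ' I S) : Match f.symm b' τ' b τ I S := by
  refine ⟨h.par.trans (mul_comm _ _), h.tgt, ?_, sq_of_neck fun z hz => ?_⟩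
  · rw [← h.img]
    exact f.f.toPartialEquiv.symm_image_image_of_subset_source h.src
  · obtain ⟨h1, h2, h3, h4, h5⟩ := h.sq' hz
    refine ⟨h3, ?_, h1, ?_, ?_⟩
    · rw [← h4]
      exact f.f.map_source h2
    · rw [← h4]
      exact f.f.left_inv h2
    · rw [← h4, f.mu_symm h2, ← h5, ← mul_assoc, f.star_mu_mul, one_mul]

theorem Match.trans (h : Match f b τ b' τ' I S) (h' : Match g b' τ' b'' τ'' I S) :
    Match (g.comp f) b τ b'' τ'' I S := by
  refine ⟨?_, fun y hy => ⟨h.src hy, h'.src (h.img ▸ mem_image_of_mem _ hy)⟩, ?_,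
    sq_of_neck fun z hz => ?_⟩
  · rw [Emb.comp_p, h.par, h'.par]
    linear_combination (b.p * b''.p) * b'.p_mul_self
  · rw [← h'.img, ← h.img, image_image]
    rfl
  · obtain ⟨h1, h2, -, h4, h5⟩ := h.sq' hz
    obtain ⟨-, k2, k3, k4, k5⟩ := h'.sq' hz
    have hs : b.f z ∈ (g.comp f).f.source := by
      rw [Emb.comp_source]
      exact ⟨h2, by rw [mem_preimage, h4]; exact k2⟩
    refine ⟨h1, hs, k3, ?_, ?_⟩
    · rw [Emb.comp_apply, h4, k4]
    · rw [g.mu_comp f hs, mul_assoc, h5, h4, k5]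

theorem Match.refl (h : Match f b τ b' τ' I S) : Match f (b.comp (Emb.refl M)) (fun y => -τ y)
    (b'.comp (Emb.refl M)) (fun y => -τ' y) (Neg.neg ⁻¹' I) (Neg.neg ⁻¹' S) := by
  have e1 : (fun y => -τ y) ⁻¹' (Neg.neg ⁻¹' S) = τ ⁻¹' S := by
    ext y
    simp only [mem_preimage, neg_neg]
  have e2 : (fun y => -τ' y) ⁻¹' (Neg.neg ⁻¹' S) = τ' ⁻¹' S := by
    ext y
    simp only [mem_preimage, neg_neg]
  refine ⟨?_, e1 ▸ h.src, ?_, sq_of_neck fun z hz => ?_⟩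
  · rw [Emb.comp_p, Emb.comp_p, Emb.refl_p, h.par]
    ring
  · rw [e1, e2]
    exact h.img
  · obtain ⟨h1, h2, h3, h4, h5⟩ := h.sq' (z := (z.1, -z.2)) ⟨hz.1, hz.2⟩
    have s1 : z ∈ (b.comp (Emb.refl M)).f.source := ⟨mem_refl_source hz.1, h1⟩
    have s2 : z ∈ (b'.comp (Emb.refl M)).f.source := ⟨mem_refl_source hz.1, h3⟩
    refine ⟨s1, h2, s2, h4, ?_⟩
    rw [b.mu_comp _ s1, b'.mu_comp _ s2, ← mul_assoc]
    exact congrArg (· * (Emb.refl M).mu z) h5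

theorem Match.apply (h : Match f b τ b' τ' I S) {x : M.X} (hx : x ∈ M.car) {t : ℝ} (ht : t ∈ I) :
    f.f (b.f (x, t)) = b'.f (x, t) ∧ f.mu (b.f (x, t)) * b.mu (x, t) = b'.mu (x, t) :=
  (h.sq' (z := (x, t)) ⟨hx, ht⟩).2.2.2

theorem Match.mapsTo (h : Match f b τ b' τ' I S) {y : Y.X} (hy : y ∈ Y.car) (ht : τ y ∈ S) :
    f.f y ∈ Y'.car ∧ τ' (f.f y) ∈ S := by
  have : f.f y ∈ Y'.car ∩ τ' ⁻¹' S := h.img ▸ mem_image_of_mem _ ⟨hy, ht⟩
  exact this

theorem Match.val (h : Match f b τ b' τ' I S) (hb : IsNeck b τ I) (hb' : IsNeck b' τ' I)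
    {y : Y.X} (hy : y ∈ Y.car) (ht : τ y ∈ I) : τ' (f.f y) = τ y := by
  obtain ⟨x, hx, hxy⟩ := hb.surj y hy ht
  have := (h.apply hx ht).1
  rw [hxy] at this
  rw [this, hb'.val x hx _ ht]

theorem Match.val_notMem (h : Match f b τ b' τ' I S) (hb : IsNeck b τ I) (hb' : IsNeck b' τ' I)
    {y : Y.X} (hy : y ∈ Y.car) (hS : τ y ∈ S) (ht : τ y ∉ I) : τ' (f.f y) ∉ I := by
  intro ht'
  obtain ⟨x, hx, hxy⟩ := hb'.surj _ (h.mapsTo hy hS).1 ht'
  obtain ⟨-, h2, -, h4, -⟩ := h.sq' (z := (x, τ' (f.f y))) ⟨hx, ht'⟩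
  have hy' : b.f (x, τ' (f.f y)) = y := f.f.injOn h2 (h.src ⟨hy, hS⟩) (h4.trans hxy)
  apply ht
  rw [← hy', hb.val x hx _ ht']
  exact ht'

/-- A function of `τ` that is constant on `S \ I` is transported by `f`. -/
theorem Match.comp_val (h : Match f b τ b' τ' I S) (hb : IsNeck b τ I) (hb' : IsNeck b' τ' I)
    {W : Type} {u : ℝ → W} (hu : ∀ s ∈ S \ I, ∀ t ∈ S \ I, u s = u t) {y : Y.X} (hy : y ∈ Y.car)
    (hS : τ y ∈ S) : u (τ' (f.f y)) = u (τ y) := by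
  by_cases ht : τ y ∈ I
  · rw [h.val hb hb' hy ht]
  · exact hu _ ⟨(h.mapsTo hy hS).2, h.val_notMem hb hb' hy hS ht⟩ _ ⟨hS, ht⟩

theorem Match.shrink (h : Match f b τ b' τ' I S) (hb : IsNeck b τ I) (hb' : IsNeck b' τ' I)
    (hT : T ⊆ S) (hT' : S \ I ⊆ T) : Match f b τ b' τ' I T := by
  refine ⟨h.par, fun y hy => h.src ⟨hy.1, hT hy.2⟩, ?_, h.sq⟩
  ext y'
  constructor
  · rintro ⟨y, ⟨hy, ht⟩, rfl⟩
    refine ⟨(h.mapsTo hy (hT ht)).1, ?_⟩
    by_cases hI : τ y ∈ I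
    · rw [mem_preimage, h.val hb hb' hy hI]
      exact ht
    · exact hT' ⟨(h.mapsTo hy (hT ht)).2, h.val_notMem hb hb' hy (hT ht) hI⟩
  · rintro ⟨hy', ht⟩
    have hm : y' ∈ f.f '' (Y.car ∩ τ ⁻¹' S) := h.img ▸ ⟨hy', hT ht⟩
    obtain ⟨y, ⟨hy, hs⟩, rfl⟩ := hm
    refine ⟨y, ⟨hy, ?_⟩, rfl⟩
    by_cases hI : τ y ∈ I
    · rw [mem_preimage, ← h.val hb hb' hy hI]
      exact ht
    · exact hT' ⟨hs, hI⟩

theorem IsNeck.match_id (h : IsNeck b τ I) (S : Set ℝ) : Match (Emb.id Y) b τ b τ I S := by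
  refine ⟨b.p_mul_self.symm, inter_subset_left, image_id _, sq_of_neck fun z hz => ?_⟩
  exact ⟨h.src hz, b.map_car (h.src hz), h.src hz, rfl, by rw [Emb.mu_id, one_mul]⟩

theorem IsNeck.match_cyl (h : IsNeck b τ S) (hI : I ⊆ S) :
    Match b (Emb.id (cyl M)) Prod.snd b τ I S := by
  have e : (cyl M).car ∩ Prod.snd ⁻¹' S = M.car ×ˢ S := by
    ext z
    exact and_congr_left' mem_car_cyl
  refine ⟨(one_mul _).symm, e ▸ h.src, e ▸ h.image subset_rfl, sq_of_neck fun z hz => ?_⟩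
  have hs : z ∈ b.f.source := h.src ⟨hz.1, hI hz.2⟩
  exact ⟨mem_car_cyl.2 hz.1, hs, hs, rfl, by rw [Emb.mu_id, mul_one]; rfl⟩

/-- Compactness is transported by `f`. -/
theorem Match.isCompact (h : Match f b τ b' τ' I S) (hK : IsCompact (Y.car ∩ τ ⁻¹' S)) :
    IsCompact (Y'.car ∩ τ' ⁻¹' S) := by
  rw [← h.img]
  exact hK.image_of_continuousOn (f.f.continuousOn.mono h.src)

theorem complete_cyl (hM : IsCompact M.car) : (cyl M).Complete := by
  obtain ⟨h, C, h1, h2, h3⟩ := complete_line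
  refine ⟨fun z => h z.2, C, Atl.Sm.snd (M₁ := M) (M₂ := line) h1, fun z hz => ?_, fun r => ?_⟩
  · rw [Atl.gn_snd (M₁ := M) (M₂ := line) (h1.smAt _) hz]
    exact h2 _ (car_line ▸ mem_univ _)
  · have e : (cyl M).car ∩ (fun z : M.X × ℝ => h z.2) ⁻¹' Iic r =
        M.car ×ˢ (line.car ∩ h ⁻¹' Iic r) := by
      ext z
      rw [mem_inter_iff, mem_car_cyl, car_line, univ_inter]
      rfl
    rw [e]
    exact hM.prod (h3 r)

theorem neck_compact_sub {n : ℕ} {N : Atl n} {h : N.X → ℝ} (hh : ContinuousOn h N.car)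
    {K L : Set N.X} (hK : IsCompact K) (hKN : K ⊆ N.car) {r : ℝ} (hL : L = K ∩ h ⁻¹' Iic r) :
    IsCompact L := by
  rw [hL]
  exact hK.of_isClosed_subset
    ((hh.mono hKN).preimage_isClosed_of_isClosed hK.isClosed isClosed_Iic) inter_subset_left

theorem neck_bdd {v : ℝ → ℝ} (hv : Continuous v) {a b c d : ℝ} (h1 : ∀ t < a, v t = c)
    (h2 : ∀ t > b, v t = d) : ∃ C, ∀ t, |v t| ≤ C := by
  obtain ⟨C, hC⟩ := (isCompact_Icc (a := a) (b := b)).exists_bound_of_continuousOn hv.continuousOn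
  refine ⟨max C (max |c| |d|), fun t => ?_⟩
  rcases lt_or_ge t a with h | h
  · rw [h1 t h]
    exact le_max_of_le_right (le_max_left _ _)
  rcases lt_or_ge b t with h' | h'
  · rw [h2 t h']
    exact le_max_of_le_right (le_max_right _ _)
  · exact le_max_of_le_left (hC t ⟨h, h'⟩)

theorem neck_deriv_congr {u v : ℝ → ℝ} {U : Set ℝ} (hU : IsOpen U) (h : ∀ t ∈ U, u t = v t)
    {t : ℝ} (ht : t ∈ U) : deriv u t = deriv v t :=
  Filter.EventuallyEq.deriv_eq (Filter.eventually_of_mem (hU.mem_nhds ht) h)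

theorem IsNeck.complete_left (h : IsNeck b τ (Iio β)) (hM : IsCompact M.car) (hγ : γ < β)
    (hK : IsCompact (Y.car ∩ τ ⁻¹' Ici γ)) : Y.Complete := by
  obtain ⟨c, hc, hc0, hc1, hc2, -⟩ := exists_step (show γ - 1 < γ by linarith)
  set u : ℝ → ℝ := fun t => c t * (γ - t) with hu
  have hus : ContDiff ℝ ∞ u := hc.mul (contDiff_const.sub contDiff_id)
  have d1 : ∀ t < γ - 1, deriv u t = -1 := fun t ht => by
    rw [neck_deriv_congr (v := fun t => γ - t) isOpen_Iio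
      (fun s hs => by rw [hu]; simp only [hc1 s (le_of_lt hs), one_mul]) ht]
    simp
  have d2 : ∀ t > γ, deriv u t = 0 := fun t ht => by
    rw [neck_deriv_congr (v := fun _ => 0) isOpen_Ioi
      (fun s hs => by rw [hu]; simp only [hc2 s (le_of_lt hs), zero_mul]) ht]
    simp
  have hts : tsupport (deriv u) ⊆ Iio β := by
    refine (closure_minimal (t := Iic γ) (fun t ht => ?_) isClosed_Iic).trans
      (Iic_subset_Iio.2 hγ)
    by_contra hn
    exact ht (d2 t (not_le.1 hn))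
  obtain ⟨C, hC⟩ := neck_bdd (hus.continuous_deriv (by simp)) d1 d2
  have hsm := h.sm isOpen_Iio hus hts
  refine ⟨fun y => u (τ y), C, hsm, fun y hy => ?_, fun r => ?_⟩
  · rw [h.gn isOpen_Iio hus hts hy]
    exact hC _
  · have hK' := (h.isCompact hM (isCompact_Icc (a := min (γ - 1) (γ - r)) (b := γ))
      (fun t ht => lt_of_le_of_lt ht.2 hγ)).union hK
    refine neck_compact_sub hsm.continuousOn hK'
      (union_subset inter_subset_left inter_subset_left) (r := r) ?_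
    refine Subset.antisymm (fun y hy => ⟨?_, hy.2⟩)
      (inter_subset_inter_left _ (union_subset inter_subset_left inter_subset_left))
    rcases le_total γ (τ y) with h1 | h1
    · exact Or.inr ⟨hy.1, h1⟩
    · refine Or.inl ⟨hy.1, ?_, h1⟩
      rcases le_total (τ y) (γ - 1) with h2 | h2
      · have h3 : c (τ y) * (γ - τ y) ≤ r := hy.2
        rw [hc1 _ h2, one_mul] at h3
        exact min_le_of_right_le (by linarith)
      · exact min_le_of_left_le h2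

theorem IsNeck.complete_glue (h : IsNeck b τ (Ioo γ β)) (h' : IsNeck b' τ' (Ioi γ))
    (hf : Match f b τ b' τ' (Ioo γ β) (Iio β)) (hγ : γ < β) (hM : IsCompact M.car)
    (hY : Y.Complete) : Y'.Complete := by
  obtain ⟨k, C0, k1, k2, k3⟩ := hY
  obtain ⟨α₁, hα, hα'⟩ := exists_between hγ
  obtain ⟨β₁, hβ, hβ'⟩ := exists_between hα'
  obtain ⟨c, hc, hc0, hc1, hc2, hct⟩ := exists_step hβ
  have hct' : tsupport (deriv c) ⊆ Ioi γ := hct.trans fun t ht => lt_of_lt_of_le hα ht.1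
  set v : ℝ → ℝ := fun t => (1 - c t) * t with hv
  have hvs : ContDiff ℝ ∞ v := (contDiff_const.sub hc).mul contDiff_id
  have d1 : ∀ t < α₁, deriv v t = 0 := fun t ht => by
    rw [neck_deriv_congr (v := fun _ => 0) isOpen_Iio
      (fun s hs => by rw [hv]; simp only [hc1 s (le_of_lt hs), sub_self, zero_mul]) ht]
    simp
  have d2 : ∀ t > β₁, deriv v t = 1 := fun t ht => by
    rw [neck_deriv_congr (v := fun t => t) isOpen_Ioi
      (fun s hs => by rw [hv]; simp only [hc2 s (le_of_lt hs), sub_zero, one_mul]) ht]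
    simp
  have hts : tsupport (deriv v) ⊆ Ioi γ := by
    refine (closure_minimal (t := Ici α₁) (fun t ht => ?_) isClosed_Ici).trans
      (Ici_subset_Ioi.2 hα)
    by_contra hn
    exact ht (d1 t (not_le.1 hn))
  obtain ⟨Cv, hCv⟩ := neck_bdd (hvs.continuous_deriv (by simp)) d1 d2
  obtain ⟨Cc, hCc⟩ := neck_bdd (hc.continuous_deriv (by simp)) (a := α₁) (b := β₁) (c := 0) (d := 0)
    (fun t ht => image_eq_zero_of_notMem_tsupport fun hh => not_le.2 ht (hct hh).1)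
    (fun t ht => image_eq_zero_of_notMem_tsupport fun hh => not_le.2 ht (hct hh).2)
  have sc := h'.sm isOpen_Ioi hc hct'
  have sv := h'.sm isOpen_Ioi hvs hts
  have hsrc : ∀ y ∈ Y'.car, τ' y < β → y ∈ f.symm.f.source := fun y hy ht => hf.tgt ⟨hy, ht⟩
  have sk : ∀ y ∈ Y'.car, τ' y < β → Y'.SmAt (fun z => k (f.symm.f z)) y := fun y hy ht =>
    (f.symm.smAt_iff (hsrc y hy ht) k).1 (k1.smAt _)
  have hzero : ∀ y ∈ Y'.car, β₁ < τ' y →
      (fun z => c (τ' z) * k (f.symm.f z)) =ᶠ[𝓝 y] fun _ => 0 := fun y hy ht => by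
    filter_upwards [(h'.continuousAt hy).eventually (lt_mem_nhds ht)] with z hz
    rw [hc2 _ hz.le, zero_mul]
  have sF : Y'.Sm fun z => c (τ' z) * k (f.symm.f z) := by
    refine Atl.sm_iff_smAt.2 fun y hy => ?_
    rcases lt_or_ge (τ' y) β with ht | ht
    · exact (sc.smAt y).mul (sk y hy ht)
    · exact (Atl.smAt_const 0).congr (hzero y hy (lt_of_lt_of_le hβ' ht))
  have hKc := h'.isCompact hM (isCompact_Icc (a := α₁) (b := β₁))
    (fun t ht => lt_of_lt_of_le hα ht.1)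
  obtain ⟨B, hB⟩ := hKc.exists_bound_of_continuousOn (f := fun z => k (f.symm.f z))
    (fun y hy => ((sk y hy.1 (lt_of_le_of_lt hy.2.2 hβ')).continuousAt hy.1).continuousWithinAt)
  have hCc0 : 0 ≤ Cc := (abs_nonneg _).trans (hCc 0)
  have gF : ∀ y ∈ Y'.car, Y'.gn (fun z => c (τ' z) * k (f.symm.f z)) y ≤ |C0| + |B| * Cc := by
    intro y hy
    rcases lt_or_ge (τ' y) β with ht | ht
    · refine (Atl.gn_mul_le (sc.smAt y) (sk y hy ht)).trans (add_le_add ?_ ?_)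
      · rw [← f.symm.gn_eq (hsrc y hy ht) k, abs_of_nonneg (hc0 _).1]
        have h1 := (k2 _ (f.symm.map_car (hsrc y hy ht))).trans (le_abs_self C0)
        have h2 := Atl.gn_nonneg k (f.symm.f y)
        nlinarith [hc0 (τ' y)]
      · rw [h'.gn isOpen_Ioi hc hct' hy]
        by_cases hm : τ' y ∈ Icc α₁ β₁
        · exact mul_le_mul ((hB y ⟨hy, hm⟩).trans (le_abs_self B)) (hCc _) (abs_nonneg _)
            (abs_nonneg _)
        · rw [image_eq_zero_of_notMem_tsupport fun hh => hm (hct hh), abs_zero, mul_zero]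
          positivity
    · rw [Atl.gn_congr (hzero y hy (lt_of_lt_of_le hβ' ht)), Atl.gn_const]
      positivity
  have hf' : Match f b τ b' τ' (Ioo γ β) (Iic α₁) :=
    hf.shrink h (h'.mono Ioo_subset_Ioi_self) (Iic_subset_Iio.2 hα') fun t ht => by
      by_contra hn
      exact ht.2 ⟨hα.trans (not_le.1 hn), ht.1⟩
  refine ⟨fun z => c (τ' z) * k (f.symm.f z) + v (τ' z), |C0| + |B| * Cc + Cv, sF.add sv,
    fun y hy => ?_, fun r => ?_⟩
  · refine (Atl.gn_add_le (sF.smAt y) (sv.smAt y)).trans (add_le_add (gF y hy) ?_)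
    rw [h'.gn isOpen_Ioi hvs hts hy]
    exact hCv _
  · have K1 : IsCompact ((Y.car ∩ k ⁻¹' Iic r) ∩ τ ⁻¹' Iic α₁) :=
      neck_compact_sub h.cont (k3 r) inter_subset_left rfl
    have K1s : (Y.car ∩ k ⁻¹' Iic r) ∩ τ ⁻¹' Iic α₁ ⊆ f.f.source :=
      fun y hy => hf'.src ⟨hy.1.1, hy.2⟩
    have K2 := K1.image_of_continuousOn (f.f.continuousOn.mono K1s)
    have K3 := h'.isCompact hM (isCompact_Icc (a := α₁) (b := max β₁ r))
      (fun t ht => lt_of_lt_of_le hα ht.1)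
    have hsub : f.f '' ((Y.car ∩ k ⁻¹' Iic r) ∩ τ ⁻¹' Iic α₁) ∪
        Y'.car ∩ τ' ⁻¹' Icc α₁ (max β₁ r) ⊆ Y'.car := by
      refine union_subset ?_ inter_subset_left
      rintro _ ⟨y, hy, rfl⟩
      exact f.map_car (K1s hy)
    refine neck_compact_sub (sF.add sv).continuousOn (K2.union K3) hsub (r := r) ?_
    refine Subset.antisymm (fun y hy => ⟨?_, hy.2⟩) (inter_subset_inter_left _ hsub)
    have h3 : c (τ' y) * k (f.symm.f y) + (1 - c (τ' y)) * τ' y ≤ r := hy.2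
    rcases le_total (τ' y) α₁ with h1 | h1
    · rw [hc1 _ h1, one_mul, sub_self, zero_mul, add_zero] at h3
      obtain ⟨m1, m2⟩ := hf'.symm.mapsTo hy.1 h1
      exact Or.inl ⟨f.symm.f y, ⟨⟨m1, h3⟩, m2⟩, f.f.right_inv (hf'.tgt ⟨hy.1, h1⟩)⟩
    · refine Or.inr ⟨hy.1, h1, ?_⟩
      rcases le_total (τ' y) β₁ with h2 | h2
      · exact le_max_of_le_left h2
      · rw [hc2 _ h2, zero_mul, sub_zero, one_mul, zero_add] at h3
        exact le_max_of_le_right h3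

end SZ
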