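import Pool.Agent.P.MP_8db816_gt.SZ.Push
import Pool.Agent.P.MP_8db816_gt.SZ.Neck
import Pool.Agent.P.MP_8db816_gt.SZ.AbsCP

/-! The relative index theorem: cutting and pasting along a neck. -/

noncomputable section

namespace SZ

open Set CliffordAlgebra Filter Topology MeasureTheory Atl.Sec
open scoped ContDiff RealInnerProductSpace

variable {m : ℕ} {M : Atl m} {G : Gr (m + 1)} {α β : ℝ}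

namespace CPx

/-- A cutoff function on the line adapted to the neck interval `I` and the side `S`. -/
structure Fn (u : ℝ → ℝ) (I S T : Set ℝ) : Prop where
  opn : IsOpen I
  sub : I ⊆ S
  sm : ContDiff ℝ ∞ u
  ts : ∃ K, IsCompact K ∧ K ⊆ I ∧ tsupport (deriv u) ⊆ K
  cl : IsClosed T
  TS : T ⊆ S
  off : ∀ t ∉ T, u t = 0
  cst : ∀ s ∈ S \ I, ∀ t ∈ S \ I, u s = u t

/-- A matching of two necks together with a cutoff function. -/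
structure Pc {Y Y' : Atl (m + 1)} (f : Emb Y Y') (b : Emb (cyl M) Y) (τ : Y.X → ℝ)
    (b' : Emb (cyl M) Y') (τ' : Y'.X → ℝ) (I S : Set ℝ) (u : ℝ → ℝ) (T : Set ℝ) : Prop where
  mt : Match f b τ b' τ' I S
  nk : IsNeck b τ I
  nk' : IsNeck b' τ' I
  fn : Fn u I S T

/-- The value of a section in the coordinates of the neck. -/
def nv {Y : Atl (m + 1)} (b : Emb (cyl M) Y) (ψ : Y.Sec) (x : M.X) (t : ℝ) : Cl (m + 1) :=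
  star (b.mu (x, t)) * ψ.ev (b.f (x, t))

variable {Y Y' : Atl (m + 1)} {f : Emb Y Y'} {b : Emb (cyl M) Y} {τ : Y.X → ℝ}
  {b' : Emb (cyl M) Y'} {τ' : Y'.X → ℝ} {I S S' T T' : Set ℝ} {u : ℝ → ℝ}

theorem nv_add (b : Emb (cyl M) Y) (ψ ψ' : Y.Sec) (x : M.X) (t : ℝ) :
    nv b (ψ + ψ') x t = nv b ψ x t + nv b ψ' x t := by
  simp only [nv, ev_add, mul_add]

theorem ev_eq_nv (b : Emb (cyl M) Y) (ψ : Y.Sec) (x : M.X) (t : ℝ) :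
    ψ.ev (b.f (x, t)) = b.mu (x, t) * nv b ψ x t := by
  rw [nv, ← mul_assoc, Emb.mu_mul_star, one_mul]

theorem Pc.symm (h : Pc f b τ b' τ' I S u T) : Pc f.symm b' τ' b τ I S u T :=
  ⟨h.mt.symm, h.nk', h.nk, h.fn⟩

theorem Pc.sm (h : Pc f b τ b' τ' I S u T) : Y.Sm fun y => u (τ y) := by
  obtain ⟨K, -, h1, h2⟩ := h.fn.ts
  exact h.nk.sm h.fn.opn h.fn.sm (h2.trans h1)

theorem Pc.cut (h : Pc f b τ b' τ' I S u T) :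
    Cut f (fun y => u (τ y)) (Y.car ∩ τ ⁻¹' T) where
  sm := h.sm
  sub := (inter_subset_inter_right _ (preimage_mono h.fn.TS)).trans h.mt.src
  opn := by
    have e : Y.car \ (Y.car ∩ τ ⁻¹' T) = Y.car ∩ τ ⁻¹' Tᶜ := by
      ext y
      simp only [Set.mem_sdiff, mem_inter_iff, mem_preimage, mem_compl_iff]
      tauto
    rw [e]
    exact h.nk.isOpen h.fn.cl.isOpen_compl
  off y hy hn := h.fn.off _ fun ht => hn ⟨hy, ht⟩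

/-- Multiply by the cutoff function and transport. -/
def Pc.push (h : Pc f b τ b' τ' I S u T) : Y.Sec →ₗ[ℝ] Y'.Sec := h.cut.push

theorem Pc.ev_out (h : Pc f b τ b' τ' I S u T) (ψ : Y.Sec) {y : Y'.X} (hy : τ' y ∉ S) :
    (h.push ψ).ev y = 0 := by
  refine h.cut.ev_push_of_notMem ψ ?_
  rintro ⟨w, hw, rfl⟩
  exact hy (h.mt.mapsTo hw.1 (h.fn.TS hw.2)).2

theorem Pc.mem (h : Pc f b τ b' τ' I S u T) {x : M.X} (hx : x ∈ M.car) {t : ℝ} (ht : t ∈ I) :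
    b.f (x, t) ∈ f.f.source :=
  h.mt.src ⟨b.map_car (h.nk.src ⟨hx, ht⟩), by
    rw [mem_preimage, h.nk.val x hx t ht]; exact h.fn.sub ht⟩

theorem Pc.mu_ev (h : Pc f b τ b' τ' I S u T) (ψ : Y.Sec) {x : M.X} (hx : x ∈ M.car) {t : ℝ}
    (ht : t ∈ I) : f.mu (b.f (x, t)) * ψ.ev (b.f (x, t)) = b'.mu (x, t) * nv b ψ x t := by
  rw [ev_eq_nv, ← mul_assoc, (h.mt.apply hx ht).2]

theorem Pc.nv_push (h : Pc f b τ b' τ' I S u T) (ψ : Y.Sec) {x : M.X} (hx : x ∈ M.car) {t : ℝ}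
    (ht : t ∈ I) : nv b' (h.push ψ) x t = u t • nv b ψ x t := by
  have e := h.cut.ev_push ψ (h.mem hx ht)
  rw [(h.mt.apply hx ht).1, h.mu_ev ψ hx ht, h.nk.val x hx t ht] at e
  rw [nv, Pc.push, e, mul_smul_comm, ← mul_assoc, Emb.star_mu_mul, one_mul]

theorem Pc.inner_nv (h : Pc f b τ b' τ' I S u T) (ψ : Y.Sec) (ξ : Y'.Sec) {x : M.X}
    (hx : x ∈ M.car) {t : ℝ} (ht : t ∈ I) :
    ⟪f.mu (b.f (x, t)) * ψ.ev (b.f (x, t)), ξ.ev (f.f (b.f (x, t)))⟫ =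
      ⟪nv b ψ x t, nv b' ξ x t⟫ := by
  rw [h.mu_ev ψ hx ht, (h.mt.apply hx ht).1, inner_mul_left]
  rfl

theorem Pc.comm (h : Pc f b τ b' τ' I S u T) (hM : IsCompact M.car) (G : Gr (m + 1))
    {φ : Y.X → ℝ} {φ' : Y'.X → ℝ} (hφ : Y.Pot φ) (hφ' : Y'.Sm φ')
    (hc : ∀ y ∈ Y.car, τ y ∈ S → φ' (f.f y) = φ y) :
    (∀ ψ, (b'.p • Y'.cend G.ε) (h.push ψ) = h.push ((b.p • Y.cend G.ε) ψ)) ∧
    Bdd ((b'.p • Y'.Op G φ') ∘ₗ h.push - h.push ∘ₗ (b.p • Y.Op G φ)) ∧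
    GCpt (b.p • Y.Op G φ) ((b'.p • Y'.Op G φ') ∘ₗ h.push - h.push ∘ₗ (b.p • Y.Op G φ)) := by
  obtain ⟨K, hK, h1, h2⟩ := h.fn.ts
  refine h.cut.comm G hφ hφ' (fun y hy => hc y hy.1 (h.fn.TS hy.2)) (h.nk.isCompact hM hK h1)
    inter_subset_left (fun y hy hn => ?_) b.hp b'.hp h.mt.par
  rw [h.nk.gn h.fn.opn h.fn.sm (h2.trans h1) hy, abs_eq_zero]
  exact image_eq_zero_of_notMem_tsupport fun ht => hn ⟨hy, h2 ht⟩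

section Four

variable {Y₁ Y₂ Y₃ Y₄ : Atl (m + 1)}
  {b₁ : Emb (cyl M) Y₁} {b₂ : Emb (cyl M) Y₂} {b₃ : Emb (cyl M) Y₃} {b₄ : Emb (cyl M) Y₄}
  {τ₁ : Y₁.X → ℝ} {τ₂ : Y₂.X → ℝ} {τ₃ : Y₃.X → ℝ} {τ₄ : Y₄.X → ℝ}
  {f₁₃ : Emb Y₁ Y₃} {f₁₄ : Emb Y₁ Y₄} {f₂₃ : Emb Y₂ Y₃} {f₂₄ : Emb Y₂ Y₄}
  {u₁₃ u₁₄ u₂₃ u₂₄ : ℝ → ℝ}

theorem iso (h₃ : Pc f₁₃ b₁ τ₁ b₃ τ₃ I S u₁₃ T) (h₄ : Pc f₁₄ b₁ τ₁ b₄ τ₄ I S' u₁₄ T')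
    (hu : ∀ t, u₁₃ t ^ 2 + u₁₄ t ^ 2 = 1) (x y : Y₁.Sec) :
    ⟪h₃.push x, h₃.push y⟫ + ⟪h₄.push x, h₄.push y⟫ = ⟪x, y⟫ := by
  rw [Pc.push, Pc.push, h₃.cut.inner_push_push, h₄.cut.inner_push_push,
    Atl.Sec.inner_def x y]
  refine (Atl.int_add ((tst_inner x y).mul_left (h₃.sm.continuousOn.pow 2))
    ((tst_inner x y).mul_left (h₄.sm.continuousOn.pow 2))).symm.trans
      (Atl.int_congr fun w _ => ?_)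
  simp only [Pi.pow_apply, ← add_mul, hu, one_mul]

/-- Off the neck the two halves do not meet. -/
theorem orth_side (h₁ : Pc f₁₃ b₁ τ₁ b₃ τ₃ I S u₁₃ T) (h₂ : Pc f₂₃ b₂ τ₂ b₃ τ₃ I S' u₂₃ T')
    (hI : ∀ t, t ∈ S → t ∈ S' → t ∈ I) (x : Y₁.Sec) (y : Y₂.Sec) {w : Y₁.X} (hw : w ∈ Y₁.car)
    (ht : τ₁ w ∉ I) : u₁₃ (τ₁ w) * ⟪f₁₃.mu w * x.ev w, (h₂.push y).ev (f₁₃.f w)⟫ = 0 := by
  by_cases hS : τ₁ w ∈ S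
  · rw [h₂.ev_out y fun h' => h₁.mt.val_notMem h₁.nk h₁.nk' hw hS ht
      (hI _ (h₁.mt.mapsTo hw hS).2 h'), inner_zero_right, mul_zero]
  · rw [h₁.fn.off _ fun h' => hS (h₁.fn.TS h'), zero_mul]

theorem orth (h₁₃ : Pc f₁₃ b₁ τ₁ b₃ τ₃ I S u₁₃ T) (h₁₄ : Pc f₁₄ b₁ τ₁ b₄ τ₄ I S' u₁₄ T')
    (h₂₃ : Pc f₂₃ b₂ τ₂ b₃ τ₃ I S' u₂₃ T') (h₂₄ : Pc f₂₄ b₂ τ₂ b₄ τ₄ I S u₂₄ T)
    (hI : ∀ t, t ∈ S → t ∈ S' → t ∈ I) (hu : ∀ t, u₁₃ t * u₂₃ t + u₁₄ t * u₂₄ t = 0)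
    (x : Y₁.Sec) (y : Y₂.Sec) :
    ⟪h₁₃.push x, h₂₃.push y⟫ + ⟪h₁₄.push x, h₂₄.push y⟫ = 0 := by
  rw [show ⟪h₁₃.push x, h₂₃.push y⟫ = _ from h₁₃.cut.inner_push x _,
    show ⟪h₁₄.push x, h₂₄.push y⟫ = _ from h₁₄.cut.inner_push x _, add_eq_zero_iff_eq_neg,
    ← Atl.int_neg]
  refine Atl.int_congr fun w hw => ?_
  by_cases ht : τ₁ w ∈ I
  · obtain ⟨z, hz, e⟩ := h₁₃.nk.surj w hw ht
    generalize τ₁ w = t at ht e ⊢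
    subst e
    rw [h₁₃.inner_nv x _ hz ht, h₁₄.inner_nv x _ hz ht, h₂₃.nv_push y hz ht, h₂₄.nv_push y hz ht,
      real_inner_smul_right, real_inner_smul_right]
    linear_combination (hu t) * ⟪nv b₁ x z t, nv b₂ y z t⟫
  · rw [orth_side h₁₃ h₂₃ hI x y hw ht,
      orth_side h₁₄ h₂₄ (fun t h h' => hI t h' h) x y hw ht, neg_zero]

theorem surj_side (h₁₃ : Pc f₁₃ b₁ τ₁ b₃ τ₃ I S u₁₃ T) (h₁₄ : Pc f₁₄ b₁ τ₁ b₄ τ₄ I S' u₁₄ T')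
    (hI : ∀ t, t ∈ S → t ∈ S' → t ∈ I) (z : Y₃.Sec) (w : Y₄.Sec) {y : Y₃.X} (hy : y ∈ Y₃.car)
    (hS : τ₃ y ∈ S) (ht : τ₃ y ∉ I) :
    (h₁₃.push (h₁₃.symm.push z + h₁₄.symm.push w)).ev y = u₁₃ (τ₃ y) ^ 2 • z.ev y := by
  have hs : y ∈ f₁₃.symm.f.source := h₁₃.mt.symm.src ⟨hy, hS⟩
  have h1 := h₁₃.mt.symm.mapsTo hy hS
  have h2 := h₁₃.mt.symm.val_notMem h₁₃.nk' h₁₃.nk hy hS ht
  have h3 := h₁₃.mt.symm.comp_val h₁₃.nk' h₁₃.nk h₁₃.fn.cst hy hS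
  have h4 := h₁₃.symm.cut.ev_push z hs
  have h5 := h₁₄.symm.ev_out w fun h' => h2 (hI _ h1.2 h')
  have h6 := h₁₃.cut.ev_push' (h₁₃.symm.push z + h₁₄.symm.push w) hs
  rw [f₁₃.mu_symm' hs] at h4
  rw [Emb.symm_f] at h3 h4 h5
  rw [ev_add, h5, add_zero, h3, Pc.push, h4, mul_smul_comm, ← mul_assoc, Emb.mu_mul_star, one_mul,
    smul_smul, ← sq] at h6
  exact h6

theorem surj (h₁₃ : Pc f₁₃ b₁ τ₁ b₃ τ₃ I S u₁₃ T) (h₁₄ : Pc f₁₄ b₁ τ₁ b₄ τ₄ I S' u₁₄ T')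
    (h₂₃ : Pc f₂₃ b₂ τ₂ b₃ τ₃ I S' u₂₃ T') (h₂₄ : Pc f₂₄ b₂ τ₂ b₄ τ₄ I S u₂₄ T)
    (hI : ∀ t, t ∈ S → t ∈ S' → t ∈ I) (hU : ∀ t, t ∈ S ∨ t ∈ S')
    (hu : ∀ t, u₁₃ t ^ 2 + u₂₃ t ^ 2 = 1) (hv : ∀ t, u₁₃ t * u₁₄ t + u₂₃ t * u₂₄ t = 0)
    (z : Y₃.Sec) (w : Y₄.Sec) :
    h₁₃.push (h₁₃.symm.push z + h₁₄.symm.push w) +
      h₂₃.push (h₂₃.symm.push z + h₂₄.symm.push w) = z := by
  refine ext_ev fun y hy => ?_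
  by_cases ht : τ₃ y ∈ I
  · obtain ⟨x, hx, e⟩ := h₁₃.nk'.surj y hy ht
    generalize τ₃ y = t at ht e
    subst e
    rw [ev_eq_nv, ev_eq_nv b₃ z, nv_add, h₁₃.nv_push _ hx ht, h₂₃.nv_push _ hx ht, nv_add, nv_add,
      h₁₃.symm.nv_push _ hx ht, h₁₄.symm.nv_push _ hx ht, h₂₃.symm.nv_push _ hx ht,
      h₂₄.symm.nv_push _ hx ht]
    congr 1
    calc u₁₃ t • (u₁₃ t • nv b₃ z x t + u₁₄ t • nv b₄ w x t) +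
          u₂₃ t • (u₂₃ t • nv b₃ z x t + u₂₄ t • nv b₄ w x t)
        = (u₁₃ t ^ 2 + u₂₃ t ^ 2) • nv b₃ z x t +
            (u₁₃ t * u₁₄ t + u₂₃ t * u₂₄ t) • nv b₄ w x t := by module
      _ = _ := by rw [hu, hv, one_smul, zero_smul, add_zero]
  · have e := hu (τ₃ y)
    rcases hU (τ₃ y) with hS | hS
    · have hS' : τ₃ y ∉ S' := fun h' => ht (hI _ hS h')
      rw [h₂₃.fn.off _ fun h' => hS' (h₂₃.fn.TS h')] at e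
      rw [ev_add, surj_side h₁₃ h₁₄ hI z w hy hS ht, h₂₃.ev_out _ hS', add_zero,
        show u₁₃ (τ₃ y) ^ 2 = 1 by linarith, one_smul]
    · have hS' : τ₃ y ∉ S := fun h' => ht (hI _ h' hS)
      rw [h₁₃.fn.off _ fun h' => hS' (h₁₃.fn.TS h')] at e
      rw [ev_add, surj_side h₂₃ h₂₄ (fun t h h' => hI t h' h) z w hy hS ht, h₁₃.ev_out _ hS',
        zero_add, show u₂₃ (τ₃ y) ^ 2 = 1 by linarith, one_smul]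

end Four

theorem Fn.neg (h : Fn u I S T) : Fn (fun t => -u t) I S T where
  opn := h.opn
  sub := h.sub
  sm := h.sm.neg
  ts := by
    obtain ⟨K, h1, h2, h3⟩ := h.ts
    refine ⟨K, h1, h2, ?_⟩
    rw [deriv.fun_neg', tsupport_fun_neg]
    exact h3
  cl := h.cl
  TS := h.TS
  off t ht := by rw [h.off t ht, neg_zero]
  cst s hs t ht := by rw [h.cst s hs t ht]

theorem exists_fn (hαβ : α < β) : ∃ (c d : ℝ → ℝ) (T T' : Set ℝ), (∀ t, c t ^ 2 + d t ^ 2 = 1) ∧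
    Fn c (Ioo α β) (Iio β) T ∧ Fn d (Ioo α β) (Ioi α) T' := by
  obtain ⟨α', h1, h2⟩ := exists_between hαβ
  obtain ⟨β', h3, h4⟩ := exists_between h2
  obtain ⟨c, d, sc, sd, hcd, l1, l2, tc, td⟩ := exists_step_pair h3
  have hK : Icc α' β' ⊆ Ioo α β := Icc_subset_Ioo h1 h4
  refine ⟨c, d, Iic β', Ici α', hcd, ⟨isOpen_Ioo, Ioo_subset_Iio_self, sc,
    ⟨_, isCompact_Icc, hK, tc⟩, isClosed_Iic, Iic_subset_Iio.2 h4,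
    fun t ht => (l2 t (not_le.1 ht).le).1, ?_⟩, ⟨isOpen_Ioo, Ioo_subset_Ioi_self, sd,
    ⟨_, isCompact_Icc, hK, td⟩, isClosed_Ici, Ici_subset_Ioi.2 h1,
    fun t ht => (l1 t (not_le.1 ht).le).2, ?_⟩⟩
  · have k : ∀ s ∈ Iio β \ Ioo α β, c s = 1 := fun s hs =>
      (l1 s ((not_lt.1 fun h => hs.2 ⟨h, hs.1⟩).trans h1.le)).1
    exact fun s hs t ht => (k s hs).trans (k t ht).symm
  · have k : ∀ s ∈ Ioi α \ Ioo α β, d s = 1 := fun s hs =>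
      (l2 s (h4.le.trans (not_lt.1 fun h => hs.2 ⟨hs.1, h⟩))).2
    exact fun s hs t ht => (k s hs).trans (k t ht).symm

end CPx

theorem neck_cp {Y₁ Y₂ Y₃ Y₄ : Atl (m + 1)} (hM : IsCompact M.car) (hαβ : α < β)
    {b₁ : Emb (cyl M) Y₁} {b₂ : Emb (cyl M) Y₂} {b₃ : Emb (cyl M) Y₃} {b₄ : Emb (cyl M) Y₄}
    {τ₁ : Y₁.X → ℝ} {τ₂ : Y₂.X → ℝ} {τ₃ : Y₃.X → ℝ} {τ₄ : Y₄.X → ℝ}
    (n₁ : IsNeck b₁ τ₁ (Ioo α β)) (n₂ : IsNeck b₂ τ₂ (Ioo α β)) (n₃ : IsNeck b₃ τ₃ (Ioo α β))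
    (n₄ : IsNeck b₄ τ₄ (Ioo α β))
    {f₁₃ : Emb Y₁ Y₃} {f₁₄ : Emb Y₁ Y₄} {f₂₃ : Emb Y₂ Y₃} {f₂₄ : Emb Y₂ Y₄}
    (m₁₃ : Match f₁₃ b₁ τ₁ b₃ τ₃ (Ioo α β) (Iio β)) (m₁₄ : Match f₁₄ b₁ τ₁ b₄ τ₄ (Ioo α β) (Ioi α))
    (m₂₃ : Match f₂₃ b₂ τ₂ b₃ τ₃ (Ioo α β) (Ioi α)) (m₂₄ : Match f₂₄ b₂ τ₂ b₄ τ₄ (Ioo α β) (Iio β))
    {φ₁ : Y₁.X → ℝ} {φ₂ : Y₂.X → ℝ} {φ₃ : Y₃.X → ℝ} {φ₄ : Y₄.X → ℝ}
    (g₁ : Y₁.Good G φ₁) (g₂ : Y₂.Good G φ₂) (g₃ : Y₃.Good G φ₃) (g₄ : Y₄.Good G φ₄)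
    (c₁₃ : ∀ y ∈ Y₁.car, τ₁ y < β → φ₃ (f₁₃.f y) = φ₁ y)
    (c₁₄ : ∀ y ∈ Y₁.car, α < τ₁ y → φ₄ (f₁₄.f y) = φ₁ y)
    (c₂₃ : ∀ y ∈ Y₂.car, α < τ₂ y → φ₃ (f₂₃.f y) = φ₂ y)
    (c₂₄ : ∀ y ∈ Y₂.car, τ₂ y < β → φ₄ (f₂₄.f y) = φ₂ y) :
    b₁.p * Y₁.index G φ₁ + b₂.p * Y₂.index G φ₂ = b₃.p * Y₃.index G φ₃ + b₄.p * Y₄.index G φ₄ := by
  obtain ⟨c, d, T, T', hcd, hc, hd⟩ := CPx.exists_fn hαβ
  have h₁₃ : CPx.Pc f₁₃ b₁ τ₁ b₃ τ₃ _ _ c T := ⟨m₁₃, n₁, n₃, hc⟩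
  have h₁₄ : CPx.Pc f₁₄ b₁ τ₁ b₄ τ₄ _ _ d T' := ⟨m₁₄, n₁, n₄, hd⟩
  have h₂₃ : CPx.Pc f₂₃ b₂ τ₂ b₃ τ₃ _ _ (fun t => -d t) T' := ⟨m₂₃, n₂, n₃, hd.neg⟩
  have h₂₄ : CPx.Pc f₂₄ b₂ τ₂ b₄ τ₄ _ _ c T := ⟨m₂₄, n₂, n₄, hc⟩
  have hI : ∀ t, t ∈ Iio β → t ∈ Ioi α → t ∈ Ioo α β := fun t h h' => ⟨h', h⟩
  have hU : ∀ t, t ∈ Iio β ∨ t ∈ Ioi α := fun t =>
    (lt_or_ge t β).imp id fun h => hαβ.trans_le h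
  obtain ⟨e₁₃, k₁₃, l₁₃⟩ := h₁₃.comm hM G g₁.pot g₃.pot.1 c₁₃
  obtain ⟨e₁₄, k₁₄, l₁₄⟩ := h₁₄.comm hM G g₁.pot g₄.pot.1 c₁₄
  obtain ⟨e₂₃, k₂₃, l₂₃⟩ := h₂₃.comm hM G g₂.pot g₃.pot.1 c₂₃
  obtain ⟨e₂₄, k₂₄, l₂₄⟩ := h₂₄.comm hM G g₂.pot g₄.pot.1 c₂₄
  have key := ind_cut_paste (g₁.fred.neg b₁.hp) (g₂.fred.neg b₂.hp) (g₃.fred.neg b₃.hp)
    (g₄.fred.neg b₄.hp) h₁₃.push h₂₃.push h₁₄.push h₂₄.push (CPx.iso h₁₃ h₁₄ hcd)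
    (CPx.iso h₂₃ h₂₄ fun t => by linear_combination hcd t)
    (CPx.orth h₁₃ h₁₄ h₂₃ h₂₄ hI fun t => by ring)
    (fun z w => ⟨h₁₃.symm.push z + h₁₄.symm.push w, h₂₃.symm.push z + h₂₄.symm.push w,
      CPx.surj h₁₃ h₁₄ h₂₃ h₂₄ hI hU (fun t => by linear_combination hcd t) (fun t => by ring) z w,
      by
        rw [add_comm (h₁₃.symm.push z), add_comm (h₂₃.symm.push z)]
        exact CPx.surj h₁₄ h₁₃ h₂₄ h₂₃ (fun t h h' => hI t h' h) (fun t => (hU t).symm)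
          (fun t => by linear_combination hcd t) (fun t => by ring) w z⟩)
    e₁₃ e₂₃ e₁₄ e₂₄ k₁₃ l₁₃ k₂₃ l₂₃ k₁₄ l₁₄ k₂₄ l₂₄
  rwa [ind_smul _ _ b₁.hp, ind_smul _ _ b₂.hp, ind_smul _ _ b₃.hp, ind_smul _ _ b₄.hp] at key

/-- Cutting `N` along a neck and attaching half cylinders to both pieces. -/
theorem neck_cut {N N' Y : Atl (m + 1)} (hM : IsCompact M.car) (hαβ : α < β)
    {b : Emb (cyl M) N} {b' : Emb (cyl M) N'} {c : Emb (cyl M) Y}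
    {τ : N.X → ℝ} {τ' : N'.X → ℝ} {υ : Y.X → ℝ}
    (hb : IsNeck b τ (Ioo α β)) (hb' : IsNeck b' τ' (Ioi α)) (hc : IsNeck c υ (Iio β))
    {i : Emb N N'} {j : Emb N Y} (hi : Match i b τ b' τ' (Ioo α β) (Iio β))
    (hj : Match j b τ c υ (Ioo α β) (Ioi α))
    {φ : N.X → ℝ} {φ' : N'.X → ℝ} {ψ : Y.X → ℝ} {φ₀ : (cyl M).X → ℝ}
    (g : N.Good G φ) (g' : N'.Good G φ') (gY : Y.Good G ψ) (g₀ : (cyl M).Good G φ₀)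
    (ci : ∀ y ∈ N.car, τ y < β → φ' (i.f y) = φ y) (cj : ∀ y ∈ N.car, α < τ y → ψ (j.f y) = φ y)
    (cb : ∀ z ∈ (cyl M).car, α < z.2 → φ' (b'.f z) = φ₀ z)
    (cc : ∀ z ∈ (cyl M).car, z.2 < β → ψ (c.f z) = φ₀ z) :
    b.p * N.index G φ + (cyl M).index G φ₀ = b'.p * N'.index G φ' + c.p * Y.index G ψ := by
  have h := neck_cp hM hαβ hb (isNeck_cyl M _) (hb'.mono Ioo_subset_Ioi_self)
    (hc.mono Ioo_subset_Iio_self) hi hj (hb'.match_cyl Ioo_subset_Ioi_self)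
    (hc.match_cyl Ioo_subset_Iio_self) g g₀ g' gY ci cj cb cc
  simpa using h

theorem good_cyl_psc (hM : IsCompact M.car) (hp : M.Psc univ) (G : Gr (m + 1)) :
    (cyl M).Good G 0 ∧ (cyl M).index G 0 = 0 := by
  obtain ⟨c, hc, h⟩ := (isNeck_cyl M univ).scal_ge hM hp
  have g : (cyl M).Good G 0 := good_zero_iff.2 ⟨complete_cyl hM, ∅, c, isCompact_empty,
    empty_subset _, hc, fun y hy _ => h y hy (mem_univ _)⟩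
  exact ⟨g, g.index_psc fun y hy => hc.trans_le (h y hy (mem_univ _))⟩

end SZ
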