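import Mathlib

/-!
The real Clifford algebra `Cl n` of Euclidean `n`-space (`v * v = -|v|^2`), with the inner product
`<x, y>` = scalar part of `x^* y` (the monomials in the standard basis are orthonormal).
-/

noncomputable section

namespace SZ

/-- Coordinate space. -/
abbrev E (n : ℕ) := Fin n → ℝ

/-- The form `-|v|^2`. -/
def Q (n : ℕ) : QuadraticForm ℝ (E n) :=
  QuadraticMap.weightedSumSquares ℝ (fun _ : Fin n => (-1 : ℝ))

/-- The real Clifford algebra. -/
abbrev Cl (n : ℕ) := CliffordAlgebra (Q n)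

variable {n : ℕ}

/-- A vector as an element of the Clifford algebra. -/
def vec : E n →ₗ[ℝ] Cl n := CliffordAlgebra.ι (Q n)

/-- The `i`-th standard basis vector in the Clifford algebra. -/
def cl (i : Fin n) : Cl n := vec (Pi.single i 1)

/-- The scalar part in a Clifford algebra. -/
def trQ {M : Type} [AddCommGroup M] [Module ℝ M] (q : QuadraticForm ℝ M) :
    CliffordAlgebra q →ₗ[ℝ] ℝ :=
  (ExteriorAlgebra.algebraMapInv (R := ℝ) (M := M)).toLinearMap ∘ₗ
    (CliffordAlgebra.equivExterior q).toLinearMap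

/-- The form `(x, y) ↦` scalar part of `x^* y` is symmetric and positive definite. -/
def PosTr {M : Type} [AddCommGroup M] [Module ℝ M] (q : QuadraticForm ℝ M) : Prop :=
  (∀ x y, trQ q (star y * x) = trQ q (star x * y)) ∧ (∀ x, 0 ≤ trQ q (star x * x)) ∧
    ∀ x, trQ q (star x * x) = 0 → x = 0

/-- The inner product: scalar part of `x^* y`. -/
@[reducible] def core {M : Type} [AddCommGroup M] [Module ℝ M] {q : QuadraticForm ℝ M}
    (h : PosTr q) : InnerProductSpace.Core ℝ (CliffordAlgebra q) where
  inner x y := trQ q (star x * y)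
  conj_inner_symm x y := h.1 x y
  re_inner_nonneg x := h.2.1 x
  add_left x y z := by simp [add_mul]
  smul_left x y r := by simp [CliffordAlgebra.star_smul]
  definite x := h.2.2 x

/-- The scalar part in `Cl n`. -/
abbrev tr : Cl n →ₗ[ℝ] ℝ := trQ (Q n)

lemma Q_apply (v : E n) : Q n v = -∑ i, v i * v i := by
  simp [Q, QuadraticMap.weightedSumSquares_apply]

lemma vec_mul_self (v : E n) : vec v * vec v = algebraMap ℝ (Cl n) (-∑ i, v i * v i) := by
  rw [vec, CliffordAlgebra.ι_sq_scalar, Q_apply]

lemma polar_Q (v w : E n) : QuadraticMap.polar (Q n) v w = -2 * ∑ i, v i * w i := by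
  simp only [QuadraticMap.polar, Q_apply, Pi.add_apply, Finset.mul_sum]
  rw [← Finset.sum_neg_distrib, ← Finset.sum_neg_distrib, ← Finset.sum_neg_distrib,
    ← Finset.sum_sub_distrib, ← Finset.sum_sub_distrib]
  exact Finset.sum_congr rfl fun i _ => by ring

lemma vec_mul_add_swap (v w : E n) :
    vec v * vec w + vec w * vec v = algebraMap ℝ (Cl n) (-2 * ∑ i, v i * w i) := by
  rw [vec, CliffordAlgebra.ι_mul_ι_add_swap, polar_Q]

lemma cl_mul_self (i : Fin n) : cl i * cl i = -1 := by
  rw [cl, vec_mul_self]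
  simp [Pi.single_apply]

lemma cl_anticomm {i j : Fin n} (h : i ≠ j) : cl i * cl j = -(cl j * cl i) := by
  have := vec_mul_add_swap (n := n) (Pi.single i 1) (Pi.single j 1)
  have h0 : ∑ k, (Pi.single i (1 : ℝ) : E n) k * (Pi.single j (1 : ℝ) : E n) k = 0 := by
    simp [Pi.single_apply, h.symm]
  rw [h0] at this
  simp only [mul_zero, map_zero] at this
  exact eq_neg_of_add_eq_zero_left this

lemma vec_eq_sum (v : E n) : vec v = ∑ i, v i • cl i := by
  conv_lhs => rw [← Finset.univ_sum_single v]
  rw [map_sum]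
  refine Finset.sum_congr rfl fun i _ => ?_
  rw [cl, ← map_smul]
  congr 1
  ext j
  by_cases h : j = i <;> simp [Pi.single_apply, h]

lemma star_vec (v : E n) : star (vec v) = -vec v := CliffordAlgebra.star_ι v

lemma star_cl (i : Fin n) : star (cl i) = -cl i := star_vec _

/-- Product of basis vectors along a list. -/
def lp (l : List (Fin n)) : Cl n := (l.map cl).prod

@[simp] lemma lp_nil : lp ([] : List (Fin n)) = 1 := rfl
@[simp] lemma lp_cons (i : Fin n) (l : List (Fin n)) : lp (i :: l) = cl i * lp l := by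
  simp [lp]
lemma lp_append (k l : List (Fin n)) : lp (k ++ l) = lp k * lp l := by simp [lp]

/-- The monomial of a set of indices (in some order). -/
def mono (S : Finset (Fin n)) : Cl n := lp S.toList

lemma cl_mul_lp (i : Fin n) (l : List (Fin n)) (hl : l.Nodup) :
    ∃ (l' : List (Fin n)) (s : ℝ), l'.Nodup ∧ s * s = 1 ∧ cl i * lp l = s • lp l' ∧
      l'.toFinset = symmDiff {i} l.toFinset := by
  induction l with
  | nil => exact ⟨[i], 1, by simp, by simp, by simp, by
      ext x; simp [Finset.mem_symmDiff]⟩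
  | cons j l ih =>
    obtain ⟨hj, hl'⟩ := List.nodup_cons.1 hl
    by_cases hij : i = j
    · subst hij
      refine ⟨l, -1, hl', by simp, ?_, ?_⟩
      · rw [lp_cons, ← mul_assoc, cl_mul_self]; simp
      · ext x
        simp only [List.mem_toFinset, Finset.mem_symmDiff, Finset.mem_singleton, List.mem_cons]
        constructor
        · intro hx
          right
          exact ⟨Or.inr hx, fun h => hj (h ▸ hx)⟩
        · rintro (⟨rfl, h⟩ | ⟨h | h, h'⟩)
          · exact absurd (Or.inl rfl) h
          · exact absurd h h'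
          · exact h
    · obtain ⟨l', s, h1, h2, h3, h4⟩ := ih hl'
      have hjl' : j ∉ l' := by
        rw [← List.mem_toFinset, h4]
        simp [Finset.mem_symmDiff, hj, Ne.symm hij]
      refine ⟨j :: l', -s, List.nodup_cons.2 ⟨hjl', h1⟩, by simpa using h2, ?_, ?_⟩
      · rw [lp_cons, ← mul_assoc, cl_anticomm hij, neg_mul, mul_assoc, h3, lp_cons]
        simp
      · ext x
        have := Finset.ext_iff.1 h4 x
        simp only [List.mem_toFinset, Finset.mem_symmDiff, Finset.mem_singleton, List.mem_cons]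
          at this ⊢
        rw [this]
        by_cases hx : x = j
        · subst hx; simp [Ne.symm hij]
        · simp [hx]

lemma lp_mul_lp (k l : List (Fin n)) (hk : k.Nodup) (hl : l.Nodup) :
    ∃ (l' : List (Fin n)) (s : ℝ), l'.Nodup ∧ s * s = 1 ∧ lp k * lp l = s • lp l' ∧
      l'.toFinset = symmDiff k.toFinset l.toFinset := by
  induction k with
  | nil => exact ⟨l, 1, hl, by simp, by simp, by ext x; simp [Finset.mem_symmDiff]⟩
  | cons j k ih =>
    obtain ⟨hj, hk⟩ := List.nodup_cons.1 hk
    obtain ⟨l', s, h1, h2, h3, h4⟩ := ih hk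
    obtain ⟨l'', s', h1', h2', h3', h4'⟩ := cl_mul_lp j l' h1
    refine ⟨l'', s * s', h1', by linear_combination (s' * s') * h2 + h2', ?_, ?_⟩
    · rw [lp_cons, mul_assoc, h3, mul_smul_comm, h3', smul_smul]
    · rw [h4', h4, ← symmDiff_assoc]
      congr 1
      ext x
      simp only [List.mem_toFinset, Finset.mem_symmDiff, Finset.mem_singleton, List.mem_cons]
      by_cases hx : x = j
      · subst hx; simp [hj]
      · simp [hx]

lemma star_lp (l : List (Fin n)) : star (lp l) = ((-1 : ℝ) ^ l.length) • lp l.reverse := by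
  induction l with
  | nil => simp
  | cons j l ih =>
    rw [lp_cons, star_mul, ih, star_cl, List.reverse_cons, lp_append]
    simp [pow_succ]

lemma star_lp_mul_self (l : List (Fin n)) : star (lp l) * lp l = 1 := by
  induction l with
  | nil => simp
  | cons j l ih =>
    rw [lp_cons, star_mul, star_cl, mul_assoc, ← mul_assoc (-cl j), neg_mul, cl_mul_self]
    simpa using ih

lemma lp_mul_star_self (l : List (Fin n)) : lp l * star (lp l) = 1 := by
  induction l with
  | nil => simp
  | cons j l ih =>
    rw [lp_cons, star_mul, star_cl, mul_assoc, ← mul_assoc (lp l), ih, one_mul, mul_neg,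
      cl_mul_self, neg_neg]

lemma star_lp_mul_lp (k l : List (Fin n)) (hk : k.Nodup) (hl : l.Nodup) :
    ∃ (l' : List (Fin n)) (s : ℝ), l'.Nodup ∧ s * s = 1 ∧ star (lp k) * lp l = s • lp l' ∧
      l'.toFinset = symmDiff k.toFinset l.toFinset := by
  obtain ⟨l', s, h1, h2, h3, h4⟩ := lp_mul_lp k.reverse l (List.nodup_reverse.2 hk) hl
  refine ⟨l', (-1) ^ k.length * s, h1, ?_, ?_, by simpa using h4⟩
  · have : ((-1 : ℝ) ^ k.length) * (-1) ^ k.length = 1 := by rw [← mul_pow]; simp
    linear_combination (s * s) * this + h2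
  · rw [star_lp, smul_mul_assoc, h3, smul_smul]

lemma lp_eq_smul_mono (l : List (Fin n)) (hl : l.Nodup) :
    ∃ s : ℝ, s * s = 1 ∧ lp l = s • mono l.toFinset := by
  obtain ⟨l', s, h1, h2, h3, h4⟩ :=
    star_lp_mul_lp l.toFinset.toList l (Finset.nodup_toList _) hl
  have : l' = [] := by
    rw [← List.toFinset_eq_empty_iff, h4]; simp
  subst this
  refine ⟨s, h2, ?_⟩
  have h5 := congrArg (fun x => lp l.toFinset.toList * x) h3
  simp only [← mul_assoc, lp_mul_star_self, one_mul, lp_nil, mul_smul_comm, mul_one] at h5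
  exact h5

lemma span_mono : Submodule.span ℝ (Set.range (mono : Finset (Fin n) → Cl n)) = ⊤ := by
  set W := Submodule.span ℝ (Set.range (mono : Finset (Fin n) → Cl n)) with hW
  have hlp : ∀ l : List (Fin n), l.Nodup → lp l ∈ W := by
    intro l hl
    obtain ⟨s, -, h⟩ := lp_eq_smul_mono l hl
    rw [h]
    exact W.smul_mem _ (Submodule.subset_span ⟨_, rfl⟩)
  have hcl : ∀ i, ∀ x ∈ W, cl i * x ∈ W := by
    intro i x hx
    induction hx using Submodule.span_induction with
    | mem x hx =>
      obtain ⟨S, rfl⟩ := hx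
      obtain ⟨l', s, h1, -, h3, -⟩ := cl_mul_lp i S.toList (Finset.nodup_toList _)
      rw [mono, h3]
      exact W.smul_mem _ (hlp _ h1)
    | zero => simp
    | add x y _ _ hx hy => rw [mul_add]; exact W.add_mem hx hy
    | smul a x _ hx => rw [mul_smul_comm]; exact W.smul_mem _ hx
  rw [eq_top_iff]
  rintro x -
  induction x using CliffordAlgebra.left_induction with
  | algebraMap r =>
    rw [Algebra.algebraMap_eq_smul_one]
    exact W.smul_mem _ (hlp [] List.nodup_nil)
  | add x y hx hy => exact W.add_mem hx hy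
  | ι_mul x m hx =>
    change vec m * x ∈ W
    rw [vec_eq_sum, Finset.sum_mul]
    refine W.sum_mem fun i _ => ?_
    rw [smul_mul_assoc]
    exact W.smul_mem _ (hcl i x hx)

lemma tr_one : tr (1 : Cl n) = 1 := by
  simp [tr, trQ, CliffordAlgebra.equivExterior]

lemma tr_lp (l : List (Fin n)) (hl : l.Nodup) (h0 : l ≠ []) : tr (lp l) = 0 := by
  have key : ∀ l : List (Fin n), l.Nodup →
      CliffordAlgebra.equivExterior (Q n) (lp l) =
        (l.map fun i => ExteriorAlgebra.ι ℝ (Pi.single i (1 : ℝ) : E n)).prod := by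
    have hc : ∀ (d : Module.Dual ℝ (E n)) (l : List (Fin n)),
        (∀ i ∈ l, d (Pi.single i 1) = 0) →
        CliffordAlgebra.contractLeft (Q := (0 : QuadraticForm ℝ (E n))) d
          (l.map fun i => ExteriorAlgebra.ι ℝ (Pi.single i (1 : ℝ) : E n)).prod = 0 := by
      intro d l
      induction l with
      | nil => intro _; simp
      | cons j l ih =>
        intro h
        rw [List.map_cons, List.prod_cons, ExteriorAlgebra.ι, CliffordAlgebra.contractLeft_ι_mul,
          h j (by simp)]
        have := ih fun i hi => h i (by simp [hi])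
        rw [ExteriorAlgebra.ι] at this
        rw [this]
        simp
    intro l
    induction l with
    | nil => intro _; simp [CliffordAlgebra.equivExterior]
    | cons j l ih =>
      intro h
      obtain ⟨hj, hl⟩ := List.nodup_cons.1 h
      have ih' := ih hl
      simp only [CliffordAlgebra.equivExterior, CliffordAlgebra.changeFormEquiv_apply] at ih' ⊢
      rw [lp_cons, cl, vec, CliffordAlgebra.changeForm_ι_mul, ih', hc]
      · simp [ExteriorAlgebra.ι]
      · intro i hi
        have hij : j ≠ i := fun h => hj (h ▸ hi)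
        simp [QuadraticMap.associated_apply, Q_apply, Pi.single_apply, hij, hij.symm,
          Finset.sum_add_distrib, add_mul, mul_add]
  obtain ⟨j, l, rfl⟩ := List.exists_cons_of_ne_nil h0
  simp only [tr, trQ, LinearMap.comp_apply, LinearEquiv.coe_coe, AlgHom.toLinearMap_apply]
  rw [key _ hl]
  simp [ExteriorAlgebra.algebraMapInv]

lemma tr_star_mono_mul (S T : Finset (Fin n)) :
    tr (star (mono S) * mono T) = if S = T then 1 else 0 := by
  split_ifs with h
  · subst h; rw [mono, star_lp_mul_self, tr_one]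
  · obtain ⟨l', s, h1, -, h3, h4⟩ :=
      star_lp_mul_lp S.toList T.toList (Finset.nodup_toList _) (Finset.nodup_toList _)
    rw [mono, mono, h3, map_smul, tr_lp l' h1, smul_zero]
    rintro rfl
    simp only [List.toFinset_nil, Finset.toList_toFinset] at h4
    exact h (symmDiff_eq_bot.1 h4.symm)

lemma exists_coord (x : Cl n) : ∃ c : Finset (Fin n) → ℝ, x = ∑ S, c S • mono S := by
  have : x ∈ Submodule.span ℝ (Set.range (mono : Finset (Fin n) → Cl n)) := by
    rw [span_mono]; trivial
  obtain ⟨c, hc⟩ := (Submodule.mem_span_range_iff_exists_fun ℝ).1 this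
  exact ⟨c, hc.symm⟩

lemma tr_star_sum (c d : Finset (Fin n) → ℝ) :
    tr (star (∑ S, c S • mono S) * ∑ S, d S • mono S) = ∑ S, c S * d S := by
  simp only [star_sum, CliffordAlgebra.star_smul, Finset.sum_mul, Finset.mul_sum, map_sum,
    smul_mul_assoc, mul_smul_comm, map_smul, tr_star_mono_mul]
  simp [mul_comm]

theorem posTr (n : ℕ) : PosTr (Q n) := by
  refine ⟨fun x y => ?_, fun x => ?_, fun x h => ?_⟩
  · obtain ⟨c, rfl⟩ := exists_coord x
    obtain ⟨d, rfl⟩ := exists_coord y
    simp only [tr_star_sum, mul_comm]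
  · obtain ⟨c, rfl⟩ := exists_coord x
    simp only [tr_star_sum]
    exact Finset.sum_nonneg fun S _ => mul_self_nonneg _
  · obtain ⟨c, rfl⟩ := exists_coord x
    simp only [tr_star_sum] at h
    rw [Finset.sum_eq_zero_iff_of_nonneg fun S _ => mul_self_nonneg _] at h
    exact Finset.sum_eq_zero fun S hS => by rw [mul_self_eq_zero.1 (h S hS), zero_smul]

instance instNormCl : NormedAddCommGroup (Cl n) := (core (posTr n)).toNormedAddCommGroup

instance instInnerCl : InnerProductSpace ℝ (Cl n) :=
  InnerProductSpace.ofCore (core (posTr n)).toCore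

instance : FiniteDimensional ℝ (Cl n) :=
  Module.Finite.of_fg_top (span_mono (n := n) ▸ Submodule.fg_span (Set.finite_range _))

lemma inner_def (x y : Cl n) : inner ℝ x y = tr (star x * y) := rfl

/-- The volume element `e_1 ... e_n`. -/
def vol (n : ℕ) : Cl n := (List.ofFn (cl : Fin n → Cl n)).prod

theorem linl (a b : ℕ) : IsLinearMap ℝ fun v : E a => (Fin.append v 0 : E (a + b)) :=
  ⟨fun v w => by ext i; refine Fin.addCases (fun i => ?_) (fun i => ?_) i <;> simp,
    fun c v => by ext i; refine Fin.addCases (fun i => ?_) (fun i => ?_) i <;> simp⟩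

theorem linr (a b : ℕ) : IsLinearMap ℝ fun v : E b => (Fin.append 0 v : E (a + b)) :=
  ⟨fun v w => by ext i; refine Fin.addCases (fun i => ?_) (fun i => ?_) i <;> simp,
    fun c v => by ext i; refine Fin.addCases (fun i => ?_) (fun i => ?_) i <;> simp⟩

/-- The map of Clifford algebras induced by an isometric linear map. -/
def clMap {M M' : Type} [AddCommGroup M] [Module ℝ M] [AddCommGroup M'] [Module ℝ M']
    (q : QuadraticForm ℝ M) (q' : QuadraticForm ℝ M') (f : M → M')
    (h : IsLinearMap ℝ f ∧ ∀ v, q' (f v) = q v) : CliffordAlgebra q →ₐ[ℝ] CliffordAlgebra q' :=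
  CliffordAlgebra.map ⟨h.1.mk' f, h.2⟩

/-- `Cl a → Cl (a + b)` induced by the first `a` coordinates. -/
def inl (a b : ℕ) : Cl a →ₐ[ℝ] Cl (a + b) :=
  clMap (Q a) (Q (a + b)) (fun v => Fin.append v 0)
    ⟨linl a b, fun v => by simp [Q_apply, Fin.sum_univ_add]⟩

/-- `Cl b → Cl (a + b)` induced by the last `b` coordinates. -/
def inr (a b : ℕ) : Cl b →ₐ[ℝ] Cl (a + b) :=
  clMap (Q b) (Q (a + b)) (fun v => Fin.append 0 v)
    ⟨linr a b, fun v => by simp [Q_apply, Fin.sum_univ_add]⟩

end SZ
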