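import Pool.Agent.P.MP_8db816_gt.SZ.Loc0

/-! Basic facts on `Cl n`: inner product, calculus of products, the twisted adjoint action. -/

noncomputable section

namespace SZ

open CliffordAlgebra
open scoped RealInnerProductSpace ContDiff

variable {n : ℕ}

theorem clapi_lp_single (i : Fin n) : lp [i] = cl i := by simp

theorem clapi_tr_cl_mul (i : Fin n) (y : Cl n) : tr (cl i * y) = tr (y * cl i) := by
  obtain ⟨c, rfl⟩ := exists_coord y
  simp only [Finset.mul_sum, Finset.sum_mul, map_sum, mul_smul_comm, smul_mul_assoc, map_smul]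
  refine Finset.sum_congr rfl fun S _ => ?_
  congr 1
  by_cases hS : S = {i}
  · subst hS
    simp [mono]
  · obtain ⟨l', s, h1, -, h3, h4⟩ := cl_mul_lp i S.toList (Finset.nodup_toList _)
    obtain ⟨l'', s', h1', -, h3', h4'⟩ :=
      lp_mul_lp S.toList [i] (Finset.nodup_toList _) (List.nodup_singleton _)
    rw [clapi_lp_single] at h3'
    rw [mono, h3, h3', map_smul, map_smul, tr_lp l' h1, tr_lp l'' h1', smul_zero, smul_zero]
    · rintro rfl
      simp only [List.toFinset_nil, Finset.toList_toFinset, List.toFinset_cons, insert_empty_eq]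
        at h4'
      exact hS (symmDiff_eq_bot.1 h4'.symm)
    · rintro rfl
      simp only [List.toFinset_nil, Finset.toList_toFinset] at h4
      exact hS (symmDiff_eq_bot.1 h4.symm).symm

theorem clapi_tr_vec_mul (v : E n) (y : Cl n) : tr (vec v * y) = tr (y * vec v) := by
  rw [vec_eq_sum]
  simp only [Finset.mul_sum, Finset.sum_mul, map_sum, mul_smul_comm, smul_mul_assoc, map_smul,
    clapi_tr_cl_mul]

theorem tr_mul_comm (x y : Cl n) : tr (x * y) = tr (y * x) := by
  induction x using CliffordAlgebra.left_induction generalizing y with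
  | algebraMap r => rw [Algebra.commutes]
  | add x x' hx hx' => rw [add_mul, mul_add, map_add, map_add, hx, hx']
  | ι_mul x m hx =>
    change tr (vec m * x * y) = tr (y * (vec m * x))
    rw [mul_assoc, clapi_tr_vec_mul, mul_assoc, hx, mul_assoc]

theorem tr_star (x : Cl n) : tr (star x) = tr x := by
  have h : ⟪x, (1 : Cl n)⟫ = ⟪(1 : Cl n), x⟫ := real_inner_comm _ _
  rw [inner_def, inner_def] at h
  simpa using h

theorem clapi_involute_lp (l : List (Fin n)) :
    involute (lp l) = ((-1 : ℝ) ^ l.length) • lp l := by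
  induction l with
  | nil => simp
  | cons j l ih =>
    have hj : involute (cl j) = -cl j := CliffordAlgebra.involute_ι _
    rw [lp_cons, map_mul, ih, hj]
    simp [pow_succ]

theorem tr_involute (x : Cl n) : tr (involute x) = tr x := by
  obtain ⟨c, rfl⟩ := exists_coord x
  simp only [map_sum, map_smul]
  refine Finset.sum_congr rfl fun S _ => ?_
  congr 1
  rw [mono, clapi_involute_lp, map_smul]
  by_cases h : S.toList = []
  · rw [h]; simp
  · rw [tr_lp _ (Finset.nodup_toList _) h, smul_zero]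

theorem involute_vec (v : E n) : involute (vec v) = -vec v := CliffordAlgebra.involute_ι _

theorem involute_cl (i : Fin n) : involute (cl i) = -cl i := involute_vec _

theorem star_involute (x : Cl n) : star (involute x) = involute (star x) := by
  rw [star_def, star_def, reverse_involute]

theorem inner_mul_left (a x y : Cl n) : ⟪a * x, y⟫ = ⟪x, star a * y⟫ := by
  rw [inner_def, inner_def, star_mul, mul_assoc]

theorem inner_mul_right (a x y : Cl n) : ⟪x * a, y⟫ = ⟪x, y * star a⟫ := by
  rw [inner_def, inner_def, star_mul, mul_assoc, tr_mul_comm, mul_assoc]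

theorem inner_involute (x y : Cl n) : ⟪involute x, involute y⟫ = ⟪x, y⟫ := by
  rw [inner_def, inner_def, star_involute, ← map_mul, tr_involute]

theorem inner_involute_left (x y : Cl n) : ⟪involute x, y⟫ = ⟪x, involute y⟫ := by
  rw [← inner_involute x (involute y), involute_involute]

theorem inner_cl_mul (i : Fin n) (x y : Cl n) : ⟪cl i * x, y⟫ = -⟪x, cl i * y⟫ := by
  rw [inner_mul_left, star_cl, neg_mul, inner_neg_right]

theorem clapi_tr_algebraMap (c : ℝ) : tr (algebraMap ℝ (Cl n) c) = c := by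
  rw [Algebra.algebraMap_eq_smul_one, map_smul, tr_one, smul_eq_mul, mul_one]

theorem inner_vec_vec (v w : E n) : ⟪vec v, vec w⟫ = ∑ i, v i * w i := by
  have h := congrArg tr (vec_mul_add_swap v w)
  rw [map_add, clapi_tr_algebraMap, tr_mul_comm (vec w)] at h
  rw [inner_def, star_vec, neg_mul, map_neg]
  linarith

theorem inner_cl_vec (i : Fin n) (v : E n) : ⟪cl i, vec v⟫ = v i := by
  rw [cl, inner_vec_vec]
  simp [Pi.single_apply]

theorem vec_injective : Function.Injective (vec : E n → Cl n) := by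
  intro v w h
  ext i
  rw [← inner_cl_vec i v, h, inner_cl_vec]

theorem norm_one_cl : ‖(1 : Cl n)‖ = 1 := by
  rw [norm_eq_sqrt_real_inner, inner_def, star_one, one_mul, tr_one, Real.sqrt_one]

theorem norm_vec_mul_sq (v : E n) (z : Cl n) : ‖vec v * z‖ ^ 2 = (∑ i, v i ^ 2) * ‖z‖ ^ 2 := by
  rw [← real_inner_self_eq_norm_sq, ← real_inner_self_eq_norm_sq, inner_mul_left, star_vec,
    ← mul_assoc, neg_mul, vec_mul_self, ← map_neg, neg_neg, ← Algebra.smul_def,
    real_inner_smul_right]
  simp only [sq]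

theorem inner_pin_mul {σ : Cl n} (hσ : σ ∈ pinGroup (Q n)) (x y : Cl n) :
    ⟪σ * x, σ * y⟫ = ⟪x, y⟫ := by
  rw [inner_mul_left, ← mul_assoc, pinGroup.star_mul_self_of_mem hσ, one_mul]

theorem norm_pin_mul {σ : Cl n} (hσ : σ ∈ pinGroup (Q n)) (x : Cl n) : ‖σ * x‖ = ‖x‖ := by
  rw [norm_eq_sqrt_real_inner, norm_eq_sqrt_real_inner x, inner_pin_mul hσ]

theorem cl_mem_pin (i : Fin n) : cl i ∈ pinGroup (Q n) := by
  have h1 : cl i * -cl i = 1 := by rw [mul_neg, cl_mul_self, neg_neg]
  have h2 : -cl i * cl i = 1 := by rw [neg_mul, cl_mul_self, neg_neg]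
  let u : (Cl n)ˣ := ⟨cl i, -cl i, h1, h2⟩
  have hu : (u : Cl n) = cl i := rfl
  rw [← hu, pinGroup.units_mem_iff]
  refine ⟨Subgroup.subset_closure ⟨Pi.single i 1, rfl⟩, ?_⟩
  rw [hu, Unitary.mem_iff, star_cl]
  exact ⟨h2, h1⟩

theorem involute_mem_pin {σ : Cl n} (hσ : σ ∈ pinGroup (Q n)) : involute σ ∈ pinGroup (Q n) := by
  obtain ⟨⟨u, hu, rfl⟩, h1, h2⟩ := hσ
  have key : ∀ u ∈ lipschitzGroup (Q n),
      Units.map (involute (Q := Q n)).toRingHom.toMonoidHom u ∈ lipschitzGroup (Q n) := by
    intro u hu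
    unfold lipschitzGroup at hu
    induction hu using Subgroup.closure_induction with
    | mem x hx =>
      obtain ⟨a, ha⟩ := hx
      refine Subgroup.subset_closure ⟨-a, ?_⟩
      change ι (Q n) (-a) = involute (x : Cl n)
      rw [← ha, involute_ι, map_neg]
    | one => rw [map_one]; exact one_mem _
    | mul x y _ _ hx hy => rw [map_mul]; exact mul_mem hx hy
    | inv x _ hx => rw [map_inv]; exact inv_mem hx
  refine ⟨⟨_, key u hu, rfl⟩, ?_, ?_⟩
  · rw [star_involute, ← map_mul, h1, map_one]
  · rw [star_involute, ← map_mul, h2, map_one]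

theorem clapi_cl_mul_lp (i : Fin n) (l : List (Fin n)) :
    cl i * lp l = ((-1 : ℝ) ^ (l.length + l.count i)) • (lp l * cl i) := by
  induction l with
  | nil => simp
  | cons j l ih =>
    by_cases h : j = i
    · subst h
      rw [lp_cons, List.length_cons, List.count_cons_self, mul_assoc, ← mul_smul_comm,
        show l.length + 1 + (l.count j + 1) = l.length + l.count j + 2 by ring, pow_succ, pow_succ,
        mul_assoc, neg_mul_neg, mul_one, mul_one, ← ih]
    · rw [lp_cons, List.length_cons, List.count_cons_of_ne h, ← mul_assoc,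
        cl_anticomm (Ne.symm h), neg_mul, mul_assoc, ih,
        show l.length + 1 + l.count i = l.length + l.count i + 1 by ring, pow_succ]
      simp [mul_assoc]

theorem clapi_inner_mono (c : Finset (Fin n) → ℝ) (S : Finset (Fin n)) :
    ⟪mono S, ∑ T, c T • mono T⟫ = c S := by
  simp only [inner_def, Finset.mul_sum, map_sum, mul_smul_comm, map_smul, tr_star_mono_mul]
  simp

/-- An even element commuting with all vectors is a scalar. -/
theorem eq_scalar_of_comm {x : Cl n} (h0 : involute x = x) (h : ∀ i, cl i * x = x * cl i) :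
    ∃ c : ℝ, x = algebraMap ℝ (Cl n) c := by
  obtain ⟨c, hc⟩ := exists_coord x
  have hS : ∀ S : Finset (Fin n), S ≠ ∅ → c S = 0 := by
    intro S hS
    have hcS : ⟪mono S, x⟫ = c S := by rw [hc, clapi_inner_mono]
    rcases Nat.even_or_odd S.toList.length with he | ho
    · obtain ⟨i, hi⟩ := Finset.nonempty_iff_ne_empty.2 hS
      have hcount : S.toList.count i = 1 :=
        List.count_eq_one_of_mem (Finset.nodup_toList _) (Finset.mem_toList.2 hi)
      have h1 := clapi_cl_mul_lp i S.toList
      rw [hcount, pow_succ, he.neg_one_pow] at h1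
      have h2 : ⟪cl i * mono S, cl i * x⟫ = ⟪mono S, x⟫ := inner_pin_mul (cl_mem_pin i) _ _
      rw [mono, h1, h i, real_inner_smul_left, inner_mul_right, mul_assoc x,
        pinGroup.mul_star_self_of_mem (cl_mem_pin i), mul_one] at h2
      rw [mono] at hcS
      linarith
    · have h2 := inner_involute (mono S) x
      rw [h0, mono, clapi_involute_lp, ho.neg_one_pow, real_inner_smul_left] at h2
      rw [mono] at hcS
      linarith
  refine ⟨c ∅, ?_⟩
  rw [hc, Finset.sum_eq_single ∅ (fun S _ h => by rw [hS S h, zero_smul]) (by simp),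
    Algebra.algebraMap_eq_smul_one]
  simp [mono]

theorem eq_zero_of_comm_of_skew {x : Cl n} (h0 : involute x = x) (h : ∀ i, cl i * x = x * cl i)
    (hs : star x = -x) : x = 0 := by
  obtain ⟨c, rfl⟩ := eq_scalar_of_comm h0 h
  have h1 := congrArg tr hs
  rw [tr_star, map_neg, clapi_tr_algebraMap] at h1
  have : c = 0 := by linarith
  rw [this, map_zero]

/-- An endomorphism anticommuting with vectors. -/
theorem anti_mul {T : Cl n →ₗ[ℝ] Cl n} (hT : ∀ i z, T (cl i * z) = -(cl i * T z)) (a z : Cl n) :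
    T (a * z) = involute a * T z := by
  have hv : ∀ v z, T (vec v * z) = -(vec v * T z) := by
    intro v z
    rw [vec_eq_sum]
    simp only [Finset.sum_mul, map_sum, smul_mul_assoc, map_smul, hT, smul_neg,
      Finset.sum_neg_distrib]
  induction a using CliffordAlgebra.left_induction generalizing z with
  | algebraMap r => rw [AlgHom.commutes, ← Algebra.smul_def, ← Algebra.smul_def, map_smul]
  | add x x' hx hx' => rw [add_mul, map_add, map_add, add_mul, hx, hx']
  | ι_mul x m hx =>
    change T (vec m * x * z) = involute (vec m * x) * T z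
    rw [mul_assoc, hv, hx, map_mul, involute_vec, neg_mul, neg_mul, mul_assoc]

/-- An endomorphism commuting with vectors. -/
theorem comm_mul {T : Cl n →ₗ[ℝ] Cl n} (hT : ∀ i z, T (cl i * z) = cl i * T z) (a z : Cl n) :
    T (a * z) = a * T z := by
  have hv : ∀ v z, T (vec v * z) = vec v * T z := by
    intro v z
    rw [vec_eq_sum]
    simp only [Finset.sum_mul, map_sum, smul_mul_assoc, map_smul, hT]
  induction a using CliffordAlgebra.left_induction generalizing z with
  | algebraMap r => rw [← Algebra.smul_def, ← Algebra.smul_def, map_smul]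
  | add x x' hx hx' => rw [add_mul, map_add, add_mul, hx, hx']
  | ι_mul x m hx =>
    change T (vec m * x * z) = vec m * x * T z
    rw [mul_assoc, hv, hx, mul_assoc]

/-! ### Calculus -/

/-- Multiplication as a continuous bilinear map (`Cl n` is not a normed ring). -/
def mulL (n : ℕ) : Cl n →L[ℝ] Cl n →L[ℝ] Cl n :=
  LinearMap.toContinuousLinearMap
    ((LinearMap.toContinuousLinearMap (𝕜 := ℝ) (E := Cl n) (F' := Cl n)).toLinearMap ∘ₗ
      LinearMap.mul ℝ (Cl n))

@[simp] theorem mulL_apply (x y : Cl n) : mulL n x y = x * y := rfl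

/-- The grade involution as a continuous linear map. -/
def clInvoluteL (n : ℕ) : Cl n →L[ℝ] Cl n :=
  LinearMap.toContinuousLinearMap (involute (Q := Q n)).toLinearMap

@[simp] theorem clInvoluteL_apply (x : Cl n) : clInvoluteL n x = involute x := rfl

/-- The conjugation as a continuous linear map. -/
def clStarL (n : ℕ) : Cl n →L[ℝ] Cl n :=
  LinearMap.toContinuousLinearMap (reverse (Q := Q n) ∘ₗ (involute (Q := Q n)).toLinearMap)

@[simp] theorem clStarL_apply (x : Cl n) : clStarL n x = star x := rfl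

instance : ContinuousMul (Cl n) := ⟨(mulL n).continuous₂⟩

instance : ContinuousStar (Cl n) := ⟨(clStarL n).continuous⟩

theorem continuous_involute : Continuous (involute : Cl n → Cl n) := (clInvoluteL n).continuous

section Calc

variable {F : Type} [NormedAddCommGroup F] [NormedSpace ℝ F] {f g : F → Cl n} {s : Set F} {x : F}
  {N : WithTop ℕ∞}

theorem _root_.ContDiffOn.clmul (hf : ContDiffOn ℝ N f s) (hg : ContDiffOn ℝ N g s) :
    ContDiffOn ℝ N (fun y => f y * g y) s :=
  ((mulL n).contDiff.comp_contDiffOn hf).clm_apply hg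

theorem _root_.ContDiffAt.clmul (hf : ContDiffAt ℝ N f x) (hg : ContDiffAt ℝ N g x) :
    ContDiffAt ℝ N (fun y => f y * g y) x :=
  ((mulL n).contDiff.comp_contDiffAt x hf).clm_apply hg

theorem _root_.ContDiffOn.clstar (hf : ContDiffOn ℝ N f s) :
    ContDiffOn ℝ N (fun y => star (f y)) s :=
  (clStarL n).contDiff.comp_contDiffOn hf

theorem _root_.ContDiffOn.clinvolute (hf : ContDiffOn ℝ N f s) :
    ContDiffOn ℝ N (fun y => involute (f y)) s :=
  (clInvoluteL n).contDiff.comp_contDiffOn hf

theorem _root_.DifferentiableAt.clmul (hf : DifferentiableAt ℝ f x) (hg : DifferentiableAt ℝ g x) :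
    DifferentiableAt ℝ (fun y => f y * g y) x :=
  ((mulL n).hasFDerivAt_of_bilinear hf.hasFDerivAt hg.hasFDerivAt).differentiableAt

theorem fderiv_clmul (hf : DifferentiableAt ℝ f x) (hg : DifferentiableAt ℝ g x) (v : F) :
    fderiv ℝ (fun y => f y * g y) x v = fderiv ℝ f x v * g x + f x * fderiv ℝ g x v := by
  have h := ((mulL n).hasFDerivAt_of_bilinear hf.hasFDerivAt hg.hasFDerivAt).fderiv
  simp only [mulL_apply] at h
  rw [h]
  simp [add_comm]

theorem fderiv_clstar (hf : DifferentiableAt ℝ f x) (v : F) :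
    fderiv ℝ (fun y => star (f y)) x v = star (fderiv ℝ f x v) := by
  have h := ((clStarL n).hasFDerivAt.comp x hf.hasFDerivAt).fderiv
  change fderiv ℝ (clStarL n ∘ f) x v = _
  rw [h]
  rfl

theorem fderiv_clinvolute (hf : DifferentiableAt ℝ f x) (v : F) :
    fderiv ℝ (fun y => involute (f y)) x v = involute (fderiv ℝ f x v) := by
  have h := ((clInvoluteL n).hasFDerivAt.comp x hf.hasFDerivAt).fderiv
  change fderiv ℝ (clInvoluteL n ∘ f) x v = _
  rw [h]
  rfl

end Calc

/-! ### The twisted adjoint action -/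

/-- The orthogonal matrix of the twisted adjoint action of `σ`. -/
def rmat (σ : Cl n) (i j : Fin n) : ℝ := ⟪cl i, involute σ * cl j * star σ⟫

theorem twist_vec {σ : Cl n} (hσ : σ ∈ pinGroup (Q n)) (v : E n) :
    involute σ * vec v * star σ = vec fun i => ∑ j, rmat σ i j * v j := by
  let u : (Cl n)ˣ :=
    ⟨σ, star σ, pinGroup.mul_star_self_of_mem hσ, pinGroup.star_mul_self_of_mem hσ⟩
  obtain ⟨w, hw⟩ := pinGroup.involute_act_ι_mem_range_ι (x := u) hσ v
  have hw' : vec w = involute σ * vec v * star σ := hw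
  rw [← hw']
  congr 1
  ext i
  rw [← inner_cl_vec i w, hw', vec_eq_sum v]
  simp only [Finset.mul_sum, Finset.sum_mul, mul_smul_comm, smul_mul_assoc, inner_sum,
    real_inner_smul_right, rmat, mul_comm]

theorem twist_cl {σ : Cl n} (hσ : σ ∈ pinGroup (Q n)) (j : Fin n) :
    involute σ * cl j * star σ = ∑ i, rmat σ i j • cl i := by
  rw [cl, twist_vec hσ, vec_eq_sum]
  simp [Pi.single_apply]

theorem rmat_col {σ : Cl n} (hσ : σ ∈ pinGroup (Q n)) (j k : Fin n) :
    ∑ i, rmat σ i j * rmat σ i k = if j = k then 1 else 0 := by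
  have h : ⟪involute σ * cl j * star σ, involute σ * cl k * star σ⟫ = ⟪cl j, cl k⟫ := by
    rw [inner_mul_right, star_star, mul_assoc _ (star σ), pinGroup.star_mul_self_of_mem hσ, mul_one,
      inner_pin_mul (involute_mem_pin hσ)]
  rw [twist_cl hσ, twist_cl hσ, ← vec_eq_sum (fun i => rmat σ i j),
    ← vec_eq_sum (fun i => rmat σ i k), inner_vec_vec] at h
  rw [h, cl.eq_1 k, inner_cl_vec, Pi.single_apply]

theorem clapi_rmat_mul {σ : Cl n} (hσ : σ ∈ pinGroup (Q n)) :
    (Matrix.of (rmat σ)).transpose * Matrix.of (rmat σ) = 1 := by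
  ext j k
  rw [Matrix.mul_apply, Matrix.one_apply, ← rmat_col hσ]
  rfl

theorem rmat_row {σ : Cl n} (hσ : σ ∈ pinGroup (Q n)) (i k : Fin n) :
    ∑ j, rmat σ i j * rmat σ k j = if i = k then 1 else 0 := by
  have h0 : Matrix.of (rmat σ) * (Matrix.of (rmat σ)).transpose = 1 :=
    mul_eq_one_comm.1 (clapi_rmat_mul hσ)
  have h : (Matrix.of (rmat σ) * (Matrix.of (rmat σ)).transpose) i k =
      (1 : Matrix (Fin n) (Fin n) ℝ) i k := by rw [h0]
  rw [Matrix.mul_apply, Matrix.one_apply] at h
  exact h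

theorem rmat_star {σ : Cl n} (hσ : σ ∈ pinGroup (Q n)) (i j : Fin n) :
    rmat (star σ) i j = rmat σ j i := by
  have _ := hσ
  rw [rmat, rmat, real_inner_comm (involute σ * cl i * star σ), inner_mul_right, inner_mul_left,
    star_involute, mul_assoc]

theorem rmat_det_sq {σ : Cl n} (hσ : σ ∈ pinGroup (Q n)) :
    (Matrix.of (rmat σ)).det ^ 2 = 1 := by
  have h := congrArg Matrix.det (clapi_rmat_mul hσ)
  rw [Matrix.det_mul, Matrix.det_transpose, Matrix.det_one] at h
  rw [sq, h]

theorem contDiffOn_rmat {F : Type} [NormedAddCommGroup F] [NormedSpace ℝ F] {f : F → Cl n}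
    {s : Set F} {N : WithTop ℕ∞} (hf : ContDiffOn ℝ N f s) (i j : Fin n) :
    ContDiffOn ℝ N (fun y => rmat (f y) i j) s :=
  ContDiffOn.inner ℝ contDiffOn_const ((hf.clinvolute.clmul contDiffOn_const).clmul hf.clstar)

/-- The frame condition of `Lift` in matrix form. -/
theorem Lift.fderiv_frame {p : ℝ} {e e' : Fr n} {U : Set (E n)} {τ : E n → E n} {σ : E n → Cl n}
    (h : Lift p e e' U τ σ) {y : E n} (hy : y ∈ U) (j : Fin n) :
    fderiv ℝ τ y (e j y) = ∑ i, rmat (σ y) i j • e' i (τ y) := by
  obtain ⟨hp, -, h3⟩ := (lift_iff.1 h).2.2 y hy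
  have h4 := h3 (Pi.single j 1) (fun i => rmat (σ y) i j)
    (by rw [vec_eq_sum (fun i => rmat (σ y) i j), ← twist_cl hp, cl])
  simpa [Pi.single_apply] using h4

/-- Constructor for `Lift` from the matrix form. -/
theorem Lift.of_frame {p : ℝ} {e e' : Fr n} {U : Set (E n)} {τ : E n → E n} {σ : E n → Cl n}
    (hτ : ContDiffOn ℝ ∞ τ U) (hσ : ContDiffOn ℝ ∞ σ U) (hp : ∀ y ∈ U, σ y ∈ pinGroup (Q n))
    (hi : ∀ y ∈ U, involute (σ y) = p • σ y)
    (h : ∀ y ∈ U, ∀ j, fderiv ℝ τ y (e j y) = ∑ i, rmat (σ y) i j • e' i (τ y)) :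
    Lift p e e' U τ σ := by
  refine lift_iff.2 ⟨hτ, hσ, fun y hy => ⟨hp y hy, hi y hy, fun v w hw => ?_⟩⟩
  rw [twist_vec (hp y hy)] at hw
  rw [← vec_injective hw]
  simp only [map_sum, map_smul, h y hy, Finset.smul_sum, smul_smul, Finset.sum_smul]
  rw [Finset.sum_comm]
  simp only [mul_comm]

end SZ
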