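import Pool.Agent.P.MP_8db816_gt.SZ.ClAPI

/-! `Cl (a + b)` as a graded tensor product, the volume element, and gradings. -/

noncomputable section

namespace SZ

open CliffordAlgebra
open scoped RealInnerProductSpace ContDiff

variable {n a b c : ℕ}

/-- Induction over the generators `cl i`. -/
private theorem cl_ind {P : Cl n → Prop} (h1 : P 1) (hs : ∀ (r : ℝ) x, P x → P (r • x))
    (ha : ∀ x y, P x → P y → P (x + y)) (hc : ∀ i x, P x → P (cl i * x)) (x : Cl n) : P x := by
  induction x using CliffordAlgebra.left_induction with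
  | algebraMap r =>
    rw [Algebra.algebraMap_eq_smul_one]
    exact hs _ _ h1
  | add x y hx hy => exact ha _ _ hx hy
  | ι_mul x m hx =>
    change P (vec m * x)
    rw [vec_eq_sum, Finset.sum_mul]
    refine Finset.sum_induction _ P ha ?_ ?_
    · have := hs 0 1 h1
      rwa [zero_smul] at this
    · intro i _
      rw [smul_mul_assoc]
      exact hs _ _ (hc i x hx)

private theorem hom_involute {f : Cl a →ₐ[ℝ] Cl n} (hf : ∀ v, ∃ w, f (vec v) = vec w) (x : Cl a) :
    involute (f x) = f (involute x) := by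
  induction x using cl_ind with
  | h1 => simp
  | hs r x hx => simp only [map_smul, hx]
  | ha x y hx hy => simp only [map_add, hx, hy]
  | hc i x hx =>
    obtain ⟨w, hw⟩ := hf (Pi.single i 1)
    rw [map_mul, map_mul, map_mul, map_mul, hx, involute_cl, map_neg, cl, hw, involute_vec]

private theorem hom_star {f : Cl a →ₐ[ℝ] Cl n} (hf : ∀ v, ∃ w, f (vec v) = vec w) (x : Cl a) :
    star (f x) = f (star x) := by
  induction x using cl_ind with
  | h1 => simp
  | hs r x hx => simp only [map_smul, CliffordAlgebra.star_smul, hx]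
  | ha x y hx hy => simp only [map_add, star_add, hx, hy]
  | hc i x hx =>
    obtain ⟨w, hw⟩ := hf (Pi.single i 1)
    rw [map_mul, star_mul, star_mul, map_mul, hx, star_cl, map_neg, cl, hw, star_vec]

private theorem hom_pin {f : Cl a →ₐ[ℝ] Cl n} (hf : ∀ v, ∃ w, f (vec v) = vec w) {x : Cl a}
    (hx : x ∈ pinGroup (Q a)) : f x ∈ pinGroup (Q n) := by
  rw [pinGroup.mem_iff] at hx ⊢
  obtain ⟨⟨u, hu, rfl⟩, h2⟩ := hx
  constructor
  · refine ⟨Units.map (f : Cl a →* Cl n) u, ?_, rfl⟩
    change Units.map (f : Cl a →* Cl n) u ∈ lipschitzGroup (Q n)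
    change u ∈ lipschitzGroup (Q a) at hu
    clear h2
    unfold lipschitzGroup at hu ⊢
    induction hu using Subgroup.closure_induction with
    | mem x hx =>
      obtain ⟨v, hv⟩ := hx
      obtain ⟨w, hw⟩ := hf v
      refine Subgroup.subset_closure ⟨w, ?_⟩
      change vec w = f (x : Cl a)
      rw [← hw, ← hv]
      rfl
    | one => rw [map_one]; exact one_mem _
    | mul x y _ _ hx hy => rw [map_mul]; exact mul_mem hx hy
    | inv x _ hx => rw [map_inv]; exact inv_mem hx
  · rw [Unitary.mem_iff] at h2 ⊢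
    rw [hom_star hf, ← map_mul, ← map_mul, h2.1, h2.2, map_one]
    exact ⟨rfl, rfl⟩

theorem inl_vec (v : E a) : inl a b (vec v) = vec (Fin.append v 0) :=
  CliffordAlgebra.map_apply_ι _ v

theorem inr_vec (v : E b) : inr a b (vec v) = vec (Fin.append 0 v) :=
  CliffordAlgebra.map_apply_ι _ v

private theorem cast_ne_nat (i : Fin a) (j : Fin b) : Fin.castAdd b i ≠ Fin.natAdd a j := by
  intro h
  have h1 := congrArg Fin.val h
  have h2 := i.2
  simp only [Fin.val_castAdd, Fin.val_natAdd] at h1
  omega

theorem inl_cl (i : Fin a) : inl a b (cl i) = cl (Fin.castAdd b i) := by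
  rw [cl, inl_vec, cl]
  congr 1
  ext k
  refine Fin.addCases (fun k => ?_) (fun k => ?_) k
  · simp [Pi.single_apply]
  · simp [Pi.single_apply, (cast_ne_nat i k).symm]

theorem inr_cl (j : Fin b) : inr a b (cl j) = cl (Fin.natAdd a j) := by
  rw [cl, inr_vec, cl]
  congr 1
  ext k
  refine Fin.addCases (fun k => ?_) (fun k => ?_) k
  · simp [Pi.single_apply, cast_ne_nat k j]
  · simp [Pi.single_apply]

theorem inl_involute (x : Cl a) : involute (inl a b x) = inl a b (involute x) :=
  hom_involute (fun v => ⟨_, inl_vec v⟩) x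

theorem inr_involute (y : Cl b) : involute (inr a b y) = inr a b (involute y) :=
  hom_involute (fun v => ⟨_, inr_vec v⟩) y

theorem inl_star (x : Cl a) : star (inl a b x) = inl a b (star x) :=
  hom_star (fun v => ⟨_, inl_vec v⟩) x

theorem inr_star (y : Cl b) : star (inr a b y) = inr a b (star y) :=
  hom_star (fun v => ⟨_, inr_vec v⟩) y

theorem inl_mem_pin {x : Cl a} (hx : x ∈ pinGroup (Q a)) : inl a b x ∈ pinGroup (Q (a + b)) :=
  hom_pin (fun v => ⟨_, inl_vec v⟩) hx

theorem inr_mem_pin {y : Cl b} (hy : y ∈ pinGroup (Q b)) : inr a b y ∈ pinGroup (Q (a + b)) :=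
  hom_pin (fun v => ⟨_, inr_vec v⟩) hy

private theorem inr_cl_inl_cl (j : Fin b) (i : Fin a) :
    inr a b (cl j) * inl a b (cl i) = -(inl a b (cl i) * inr a b (cl j)) := by
  rw [inr_cl, inl_cl, cl_anticomm (cast_ne_nat i j).symm]

theorem inr_cl_mul_inl (j : Fin b) (x : Cl a) :
    inr a b (cl j) * inl a b x = inl a b (involute x) * inr a b (cl j) := by
  induction x using cl_ind with
  | h1 => simp
  | hs r x hx => simp only [map_smul, mul_smul_comm, smul_mul_assoc, hx]
  | ha x y hx hy => simp only [map_add, mul_add, add_mul, hx, hy]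
  | hc i x hx =>
    rw [map_mul, map_mul, map_mul, involute_cl, map_neg, ← mul_assoc, inr_cl_inl_cl, neg_mul,
      mul_assoc, hx, neg_mul, neg_mul, mul_assoc]

theorem inr_mul_inl_cl (y : Cl b) (i : Fin a) :
    inr a b y * inl a b (cl i) = inl a b (cl i) * inr a b (involute y) := by
  induction y using cl_ind with
  | h1 => simp
  | hs r x hx => simp only [map_smul, mul_smul_comm, smul_mul_assoc, hx]
  | ha x y hx hy => simp only [map_add, mul_add, add_mul, hx, hy]
  | hc j x hx =>
    rw [map_mul, map_mul, map_mul, involute_cl, map_neg, mul_assoc, hx, ← mul_assoc,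
      inr_cl_inl_cl, neg_mul, neg_mul, mul_neg, mul_assoc]

theorem inr_mul_inl_of_even {y : Cl b} (hy : involute y = y) (x : Cl a) :
    inr a b y * inl a b x = inl a b x * inr a b y := by
  induction x using cl_ind with
  | h1 => simp
  | hs r x hx => simp only [map_smul, mul_smul_comm, smul_mul_assoc, hx]
  | ha x y hx hy => simp only [map_add, mul_add, add_mul, hx, hy]
  | hc i x hx => rw [map_mul, ← mul_assoc, inr_mul_inl_cl, hy, mul_assoc, hx, mul_assoc]

theorem inr_mul_inl_of_even' (y : Cl b) {x : Cl a} (hx : involute x = x) :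
    inr a b y * inl a b x = inl a b x * inr a b y := by
  induction y using cl_ind with
  | h1 => simp
  | hs r y hy => simp only [map_smul, mul_smul_comm, smul_mul_assoc, hy]
  | ha y z hy hz => simp only [map_add, mul_add, add_mul, hy, hz]
  | hc j y hy => rw [map_mul, mul_assoc, hy, ← mul_assoc, inr_cl_mul_inl, hx, mul_assoc]

theorem inr_mul_inl_of_odd {y : Cl b} (hy : involute y = -y) (x : Cl a) :
    inr a b y * inl a b x = inl a b (involute x) * inr a b y := by
  induction x using cl_ind with
  | h1 => simp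
  | hs r x hx => simp only [map_smul, mul_smul_comm, smul_mul_assoc, hx]
  | ha x y hx hy => simp only [map_add, mul_add, add_mul, hx, hy]
  | hc i x hx =>
    rw [map_mul, ← mul_assoc, inr_mul_inl_cl, hy, map_neg, mul_neg, neg_mul, mul_assoc, hx,
      map_mul, map_mul, involute_cl, map_neg, neg_mul, neg_mul, mul_assoc]

private theorem inl_lp (l : List (Fin a)) : inl a b (lp l) = lp (l.map (Fin.castAdd b)) := by
  induction l with
  | nil => simp
  | cons i l ih => rw [List.map_cons, lp_cons, lp_cons, map_mul, ih, inl_cl]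

private theorem inr_lp (l : List (Fin b)) : inr a b (lp l) = lp (l.map (Fin.natAdd a)) := by
  induction l with
  | nil => simp
  | cons i l ih => rw [List.map_cons, lp_cons, lp_cons, map_mul, ih, inr_cl]

private theorem tr_lp_ite (l : List (Fin n)) (hl : l.Nodup) :
    tr (lp l) = if l = [] then 1 else 0 := by
  split_ifs with h
  · subst h
    exact tr_one
  · exact tr_lp l hl h

private theorem tr_inl_inr (x : Cl a) (y : Cl b) : tr (inl a b x * inr a b y) = tr x * tr y := by
  have key : ∀ (k : List (Fin a)) (l : List (Fin b)), k.Nodup → l.Nodup →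
      tr (inl a b (lp k) * inr a b (lp l)) = tr (lp k) * tr (lp l) := by
    intro k l hk hl
    rw [inl_lp, inr_lp, ← lp_append, tr_lp_ite k hk, tr_lp_ite l hl, tr_lp_ite]
    · by_cases h1 : k = [] <;> by_cases h2 : l = [] <;> simp [h1, h2]
    · rw [List.nodup_append]
      refine ⟨hk.map (Fin.castAdd_injective _ _), hl.map (Fin.natAdd_injective _ _), ?_⟩
      intro p hp q hq
      obtain ⟨i, -, rfl⟩ := List.mem_map.1 hp
      obtain ⟨j, -, rfl⟩ := List.mem_map.1 hq
      exact cast_ne_nat i j
  obtain ⟨s, rfl⟩ := exists_coord x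
  obtain ⟨t, rfl⟩ := exists_coord y
  simp only [map_sum, map_smul, Finset.sum_mul, Finset.mul_sum, smul_mul_assoc, mul_smul_comm,
    smul_eq_mul]
  refine Finset.sum_congr rfl fun T _ => Finset.sum_congr rfl fun S _ => ?_
  rw [mono, mono, key _ _ (Finset.nodup_toList _) (Finset.nodup_toList _)]
  ring

theorem inner_inl_inr (x x' : Cl a) (y y' : Cl b) :
    ⟪inl a b x * inr a b y, inl a b x' * inr a b y'⟫ = ⟪x, x'⟫ * ⟪y, y'⟫ := by
  rw [inner_def, inner_def, inner_def, star_mul, inl_star, inr_star, mul_assoc, tr_mul_comm,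
    ← mul_assoc, ← map_mul, mul_assoc, ← map_mul, tr_inl_inr, tr_mul_comm y']

theorem span_inl_inr : Submodule.span ℝ (Set.range fun z : Finset (Fin a) × Finset (Fin b) =>
    inl a b (mono z.1) * inr a b (mono z.2)) = ⊤ := by
  set W := Submodule.span ℝ (Set.range fun z : Finset (Fin a) × Finset (Fin b) =>
    inl a b (mono z.1) * inr a b (mono z.2)) with hW
  have hprod : ∀ (x : Cl a) (y : Cl b), inl a b x * inr a b y ∈ W := by
    intro x y
    obtain ⟨s, rfl⟩ := exists_coord x
    obtain ⟨t, rfl⟩ := exists_coord y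
    simp only [map_sum, map_smul, Finset.sum_mul, Finset.mul_sum, smul_mul_assoc, mul_smul_comm]
    refine W.sum_mem fun T _ => W.smul_mem _ (W.sum_mem fun S _ => W.smul_mem _ ?_)
    exact Submodule.subset_span ⟨(S, T), rfl⟩
  have hcl : ∀ i, ∀ z ∈ W, cl i * z ∈ W := by
    intro i z hz
    induction hz using Submodule.span_induction with
    | mem z hz =>
      obtain ⟨⟨S, T⟩, rfl⟩ := hz
      refine Fin.addCases (fun i => ?_) (fun j => ?_) i
      · rw [← inl_cl, ← mul_assoc, ← map_mul]
        exact hprod _ _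
      · rw [← inr_cl, ← mul_assoc, inr_cl_mul_inl, mul_assoc, ← map_mul]
        exact hprod _ _
    | zero => simp
    | add x y _ _ hx hy => rw [mul_add]; exact W.add_mem hx hy
    | smul r x _ hx => rw [mul_smul_comm]; exact W.smul_mem _ hx
  rw [eq_top_iff]
  rintro z -
  induction z using cl_ind with
  | h1 => simpa using hprod 1 1
  | hs r x hx => exact W.smul_mem _ hx
  | ha x y hx hy => exact W.add_mem hx hy
  | hc i x hx => exact hcl i x hx

/-- Expansion in the orthonormal basis of products of monomials. -/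
theorem eq_sum_inl_inr (z : Cl (a + b)) : z = ∑ S : Finset (Fin a), ∑ T : Finset (Fin b),
    ⟪inl a b (mono S) * inr a b (mono T), z⟫ • (inl a b (mono S) * inr a b (mono T)) := by
  have hz : z ∈ Submodule.span ℝ (Set.range fun z : Finset (Fin a) × Finset (Fin b) =>
      inl a b (mono z.1) * inr a b (mono z.2)) := by
    rw [span_inl_inr]; trivial
  induction hz using Submodule.span_induction with
  | mem z hz =>
    obtain ⟨⟨S, T⟩, rfl⟩ := hz
    simp only [inner_inl_inr]
    simp only [inner_def, tr_star_mono_mul]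
    simp
  | zero => simp
  | add x y _ _ hx hy =>
    simp only [inner_add_right, add_smul, Finset.sum_add_distrib]
    rw [← hx, ← hy]
  | smul r x _ hx =>
    simp only [real_inner_smul_right, mul_smul, ← Finset.smul_sum]
    rw [← hx]

theorem continuous_inl : Continuous (inl a b) :=
  (inl a b).toLinearMap.continuous_of_finiteDimensional

theorem continuous_inr : Continuous (inr a b) :=
  (inr a b).toLinearMap.continuous_of_finiteDimensional

theorem contDiff_inl {N : WithTop ℕ∞} : ContDiff ℝ N (inl a b) :=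
  (LinearMap.toContinuousLinearMap (inl a b).toLinearMap).contDiff

theorem contDiff_inr {N : WithTop ℕ∞} : ContDiff ℝ N (inr a b) :=
  (LinearMap.toContinuousLinearMap (inr a b).toLinearMap).contDiff

private theorem inner_cl_cl (i k : Fin n) : ⟪cl i, cl k⟫ = if i = k then 1 else 0 := by
  rw [cl.eq_1 k, inner_cl_vec, Pi.single_apply]

/-- The twisted adjoint matrix of a product is block diagonal. -/
theorem rmat_prod {x : Cl a} {y : Cl b} (hx : x ∈ pinGroup (Q a)) (hy : y ∈ pinGroup (Q b))
    {p q : ℝ} (hp : p = 1 ∨ p = -1) (hq : q = 1 ∨ q = -1) (hx' : involute x = p • x)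
    (hy' : involute y = q • y) :
    (∀ i j, rmat (inl a b x * inr a b y) (Fin.castAdd b i) (Fin.castAdd b j) = rmat x i j) ∧
    (∀ i j, rmat (inl a b x * inr a b y) (Fin.natAdd a i) (Fin.natAdd a j) = rmat y i j) ∧
    (∀ i j, rmat (inl a b x * inr a b y) (Fin.castAdd b i) (Fin.natAdd a j) = 0) ∧
    (∀ i j, rmat (inl a b x * inr a b y) (Fin.natAdd a i) (Fin.castAdd b j) = 0) := by
  have h1 : ∀ j, involute (inl a b x * inr a b y) * cl (Fin.castAdd b j) *
      star (inl a b x * inr a b y) = ∑ i, rmat x i j • cl (Fin.castAdd b i) := by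
    intro j
    have e : inr a b (involute y) * inl a b (cl j) * inr a b (star y) = inl a b (cl j) := by
      rw [inr_mul_inl_cl, involute_involute, mul_assoc, ← map_mul,
        pinGroup.mul_star_self_of_mem hy, map_one, mul_one]
    calc _ = inl a b (involute x) * (inr a b (involute y) * inl a b (cl j) * inr a b (star y)) *
          inl a b (star x) := by
          rw [map_mul, star_mul, inl_involute, inr_involute, inl_star, inr_star, ← inl_cl]
          simp only [mul_assoc]
      _ = _ := by
          rw [e, ← map_mul, ← map_mul, twist_cl hx, map_sum]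
          simp only [map_smul, inl_cl]
  have h2 : ∀ j, involute (inl a b x * inr a b y) * cl (Fin.natAdd a j) *
      star (inl a b x * inr a b y) = ∑ i, rmat y i j • cl (Fin.natAdd a i) := by
    intro j
    have e : ∀ i, inl a b (involute x) * inr a b (cl i) * inl a b (star x) = inr a b (cl i) := by
      intro i
      rw [mul_assoc, inr_cl_mul_inl, ← mul_assoc, ← map_mul, ← map_mul,
        pinGroup.mul_star_self_of_mem hx, map_one, map_one, one_mul]
    calc _ = inl a b (involute x) * inr a b (involute y * cl j * star y) * inl a b (star x) := by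
          rw [map_mul, star_mul, inl_involute, inr_involute, inl_star, inr_star, ← inr_cl]
          simp only [map_mul, mul_assoc]
      _ = _ := by
          rw [twist_cl hy, map_sum, Finset.mul_sum, Finset.sum_mul]
          simp only [map_smul, mul_smul_comm, smul_mul_assoc, e]
          simp only [inr_cl]
  refine ⟨fun i j => ?_, fun i j => ?_, fun i j => ?_, fun i j => ?_⟩
  · rw [rmat, h1, inner_sum]
    simp [real_inner_smul_right, inner_cl_cl]
  · rw [rmat, h2, inner_sum]
    simp [real_inner_smul_right, inner_cl_cl]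
  · rw [rmat, h2, inner_sum]
    simp [real_inner_smul_right, inner_cl_cl, cast_ne_nat]
  · rw [rmat, h1, inner_sum]
    simp [real_inner_smul_right, inner_cl_cl, fun (k : Fin a) => (cast_ne_nat k i).symm]

private theorem hom_ext_cl {f g : Cl a →ₐ[ℝ] Cl n} (h : ∀ i, f (cl i) = g (cl i)) (x : Cl a) :
    f x = g x := by
  induction x using cl_ind with
  | h1 => simp
  | hs r x hx => simp only [map_smul, hx]
  | ha x y hx hy => simp only [map_add, hx, hy]
  | hc i x hx => rw [map_mul, map_mul, h, hx]

/-- Associativity with a last factor of dimension one (`a + (b + 1)` is `a + b + 1`). -/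
theorem inl_inl (x : Cl a) : inl (a + b) 1 (inl a b x) = inl a (b + 1) x := by
  refine hom_ext_cl (n := a + b + 1) (f := (inl (a + b) 1).comp (inl a b)) (g := inl a (b + 1))
    (fun i => ?_) x
  refine Eq.trans ?_ (inl_cl (b := b + 1) i).symm
  rw [AlgHom.comp_apply, inl_cl, inl_cl]
  rfl

theorem inl_inr (y : Cl b) : inl (a + b) 1 (inr a b y) = inr a (b + 1) (inl b 1 y) := by
  refine hom_ext_cl (n := a + b + 1) (f := (inl (a + b) 1).comp (inr a b))
    (g := (inr a (b + 1)).comp (inl b 1)) (fun i => ?_) y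
  have e : (inr a (b + 1)).comp (inl b 1) (cl i) = cl (Fin.natAdd a (Fin.castAdd 1 i)) := by
    rw [AlgHom.comp_apply, inl_cl, inr_cl]
  refine Eq.trans ?_ e.symm
  rw [AlgHom.comp_apply, inr_cl, inl_cl]
  rfl

theorem inr_inr (z : Cl 1) : inr (a + b) 1 z = inr a (b + 1) (inr b 1 z) := by
  refine hom_ext_cl (n := a + b + 1) (f := inr (a + b) 1)
    (g := (inr a (b + 1)).comp (inr b 1)) (fun i => ?_) z
  have e : (inr a (b + 1)).comp (inr b 1) (cl i) = cl (Fin.natAdd a (Fin.natAdd b i)) := by
    rw [AlgHom.comp_apply, inr_cl, inr_cl]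
  refine Eq.trans ?_ e.symm
  rw [inr_cl]
  exact congrArg cl (Fin.ext (Nat.add_assoc a b i))

/-! ### The volume element -/

private theorem vol_eq_lp : vol n = lp (List.finRange n) := by
  rw [vol, lp, List.ofFn_eq_map]

private theorem involute_lp (l : List (Fin n)) :
    involute (lp l) = ((-1 : ℝ) ^ l.length) • lp l := by
  induction l with
  | nil => simp
  | cons j l ih =>
    rw [lp_cons, map_mul, ih, involute_cl]
    simp [pow_succ]

private theorem cl_mul_lp_comm (i : Fin n) (l : List (Fin n)) :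
    cl i * lp l = ((-1 : ℝ) ^ (l.length + l.count i)) • (lp l * cl i) := by
  induction l with
  | nil => simp
  | cons j l ih =>
    by_cases h : j = i
    · subst h
      rw [lp_cons, List.count_cons_self, List.length_cons, mul_assoc,
        show l.length + 1 + (l.count j + 1) = l.length + l.count j + 2 by ring, pow_add,
        neg_one_sq, mul_one, ← mul_smul_comm, ← ih]
    · rw [lp_cons, List.count_cons_of_ne h, List.length_cons, ← mul_assoc,
        cl_anticomm (Ne.symm h), neg_mul, mul_assoc, ih,
        show l.length + 1 + l.count i = l.length + l.count i + 1 by ring, pow_succ]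
      simp [mul_assoc]

private theorem lp_mul_self (l : List (Fin n)) (hl : l.Nodup) :
    lp l * lp l = ((-1 : ℝ) ^ (l.length + 1).choose 2) • (1 : Cl n) := by
  induction l with
  | nil => simp
  | cons j l ih =>
    obtain ⟨hj, hl'⟩ := List.nodup_cons.1 hl
    have h1 := cl_mul_lp_comm j l
    rw [List.count_eq_zero_of_not_mem hj, add_zero] at h1
    have hs : ((-1 : ℝ) ^ l.length) * (-1) ^ l.length = 1 := by rw [← mul_pow]; simp
    have h2 : lp l * cl j = ((-1 : ℝ) ^ l.length) • (cl j * lp l) := by
      rw [h1, smul_smul, hs, one_smul]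
    have h3 : (l.length + 1 + 1).choose 2 = l.length + 1 + (l.length + 1).choose 2 := by
      rw [Nat.choose_succ_succ' (l.length + 1) 1, Nat.choose_one_right]
    rw [lp_cons, mul_assoc, ← mul_assoc (lp l), h2, smul_mul_assoc, mul_smul_comm, mul_assoc,
      ← mul_assoc, cl_mul_self, ih hl', List.length_cons, h3, pow_add, pow_succ]
    simp [smul_smul]

theorem vol_add : vol (a + b) = inl a b (vol a) * inr a b (vol b) := by
  rw [vol, vol, vol, List.ofFn_add, List.prod_append, map_list_prod, map_list_prod, List.map_ofFn,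
    List.map_ofFn]
  congr 3
  · funext i
    exact (inl_cl i).symm
  · funext j
    exact (inr_cl j).symm

theorem involute_vol : involute (vol n) = ((-1 : ℝ) ^ n) • vol n := by
  rw [vol_eq_lp, involute_lp, List.length_finRange]

theorem cl_mul_vol (i : Fin n) : cl i * vol n = ((-1 : ℝ) ^ (n + 1)) • (vol n * cl i) := by
  rw [vol_eq_lp, cl_mul_lp_comm, List.length_finRange,
    List.count_eq_one_of_mem (List.nodup_finRange n) (List.mem_finRange i)]

theorem star_vol_mul_self : star (vol n) * vol n = 1 := by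
  rw [vol_eq_lp, star_lp_mul_self]

theorem vol_mul_self (h : 8 ∣ n) : vol n * vol n = 1 := by
  rw [vol_eq_lp, lp_mul_self _ (List.nodup_finRange n), List.length_finRange]
  obtain ⟨m, rfl⟩ := h
  have e : (8 * m + 1).choose 2 = 2 * ((8 * m + 1) * (2 * m)) := by
    rw [Nat.choose_two_right, Nat.add_sub_cancel,
      show (8 * m + 1) * (8 * m) = 2 * (2 * ((8 * m + 1) * (2 * m))) by ring,
      Nat.mul_div_cancel_left _ two_pos]
  rw [e, pow_mul]
  simp

theorem star_vol (h : 8 ∣ n) : star (vol n) = vol n := by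
  rw [← mul_one (star (vol n)), ← vol_mul_self h, ← mul_assoc, star_vol_mul_self, one_mul]

theorem vol_succ_mul_self (h : 8 ∣ n) : vol (n + 1) * vol (n + 1) = -1 := by
  rw [vol_eq_lp, lp_mul_self _ (List.nodup_finRange _), List.length_finRange]
  obtain ⟨m, rfl⟩ := h
  have e : (8 * m + 1 + 1).choose 2 = 2 * (16 * m * m + 6 * m) + 1 := by
    rw [Nat.choose_two_right, Nat.add_sub_cancel,
      show (8 * m + 1 + 1) * (8 * m + 1) = 2 * (2 * (16 * m * m + 6 * m) + 1) by ring,
      Nat.mul_div_cancel_left _ two_pos]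
  rw [e, pow_succ, pow_mul]
  simp

theorem star_vol_succ (h : 8 ∣ n) : star (vol (n + 1)) = -vol (n + 1) := by
  have h1 : star (vol (n + 1)) * (vol (n + 1) * vol (n + 1)) = vol (n + 1) := by
    rw [← mul_assoc, star_vol_mul_self, one_mul]
  rw [vol_succ_mul_self h, mul_neg, mul_one] at h1
  exact neg_eq_iff_eq_neg.1 h1

theorem vol_one : vol 1 = cl 0 := by
  simp [vol]

private theorem neg_one_pow_eight (h : 8 ∣ n) : (-1 : ℝ) ^ n = 1 :=
  Even.neg_one_pow (even_iff_two_dvd.2 (Dvd.dvd.trans (by norm_num) h))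

private theorem involute_vol_even (h : 8 ∣ n) : involute (vol n) = vol n := by
  rw [involute_vol, neg_one_pow_eight h, one_smul]

private theorem involute_vol_succ (h : 8 ∣ n) : involute (vol (n + 1)) = -vol (n + 1) := by
  rw [involute_vol, pow_succ, neg_one_pow_eight h]
  simp

private theorem vol_mul_cl_even (h : 8 ∣ n) (i : Fin n) : vol n * cl i = -(cl i * vol n) := by
  rw [cl_mul_vol, pow_succ, neg_one_pow_eight h]
  simp

private theorem vol_mul_cl_succ (h : 8 ∣ n) (i : Fin (n + 1)) :
    vol (n + 1) * cl i = cl i * vol (n + 1) := by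
  rw [cl_mul_vol, pow_succ, pow_succ, neg_one_pow_eight h]
  simp

private theorem inner_odd (e : Fin n) (z w : Cl n) :
    ⟪involute z * cl e, w⟫ = ⟪z, involute w * cl e⟫ := by
  rw [inner_mul_right, inner_involute_left, star_cl, map_mul, map_neg, involute_cl, neg_neg]

/-! ### Gradings -/

/-- A grading `ε` and a potential `R` (possibly zero), both anticommuting with vectors. -/
structure Gr (n : ℕ) where
  R : Cl n →ₗ[ℝ] Cl n
  ε : Cl n →ₗ[ℝ] Cl n
  ρ : ℝ
  ρ01 : ρ = 0 ∨ ρ = 1
  R_anti : ∀ i z, R (cl i * z) = -(cl i * R z)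
  ε_anti : ∀ i z, ε (cl i * z) = -(cl i * ε z)
  R_sym : ∀ z w, ⟪R z, w⟫ = ⟪z, R w⟫
  ε_sym : ∀ z w, ⟪ε z, w⟫ = ⟪z, ε w⟫
  R_sq : ∀ z, R (R z) = ρ • z
  ε_sq : ∀ z, ε (ε z) = z
  R_ε : ∀ z, R (ε z) = -ε (R z)

/-- The grading by the volume element in dimensions divisible by `8`. -/
def grEven (n : ℕ) (h : 8 ∣ n) : Gr n where
  R := 0
  ε := LinearMap.mulLeft ℝ (vol n)
  ρ := 0
  ρ01 := Or.inl rfl
  R_anti := by intro i z; simp
  ε_anti := by
    intro i z
    rw [LinearMap.mulLeft_apply, LinearMap.mulLeft_apply, ← mul_assoc, vol_mul_cl_even h, neg_mul,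
      mul_assoc]
  R_sym := by intro z w; simp
  ε_sym := by
    intro z w
    rw [LinearMap.mulLeft_apply, LinearMap.mulLeft_apply, inner_mul_left, star_vol h]
  R_sq := by intro z; simp
  ε_sq := by
    intro z
    rw [LinearMap.mulLeft_apply, LinearMap.mulLeft_apply, ← mul_assoc, vol_mul_self h, one_mul]
  R_ε := by intro z; simp

/-- The potential `R z = α(z) e_last` and the grading `ω R` in dimensions `1 mod 8`. -/
def grOdd (n : ℕ) (h : 8 ∣ n) : Gr (n + 1) where
  R := LinearMap.mulRight ℝ (cl (Fin.last n)) ∘ₗ involute.toLinearMap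
  ε := LinearMap.mulLeft ℝ (vol (n + 1)) ∘ₗ LinearMap.mulRight ℝ (cl (Fin.last n)) ∘ₗ
    involute.toLinearMap
  ρ := 1
  ρ01 := Or.inr rfl
  R_anti := by
    intro i z
    change involute (cl i * z) * cl (Fin.last n) = -(cl i * (involute z * cl (Fin.last n)))
    rw [map_mul, involute_cl, neg_mul, neg_mul, mul_assoc]
  ε_anti := by
    intro i z
    change vol (n + 1) * (involute (cl i * z) * cl (Fin.last n)) =
      -(cl i * (vol (n + 1) * (involute z * cl (Fin.last n))))
    rw [map_mul, involute_cl, neg_mul, neg_mul, mul_neg, mul_assoc, ← mul_assoc,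
      vol_mul_cl_succ h, mul_assoc]
  R_sym := fun z w => inner_odd _ z w
  ε_sym := by
    intro z w
    change ⟪vol (n + 1) * (involute z * cl (Fin.last n)), w⟫ =
      ⟪z, vol (n + 1) * (involute w * cl (Fin.last n))⟫
    rw [inner_mul_left, inner_odd, star_vol_succ h, map_mul, map_neg, involute_vol_succ h, neg_neg,
      mul_assoc]
  R_sq := by
    intro z
    change involute (involute z * cl (Fin.last n)) * cl (Fin.last n) = (1 : ℝ) • z
    rw [map_mul, involute_involute, involute_cl, mul_assoc, neg_mul, cl_mul_self, neg_neg, mul_one,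
      one_smul]
  ε_sq := by
    intro z
    change vol (n + 1) * (involute (vol (n + 1) * (involute z * cl (Fin.last n))) *
      cl (Fin.last n)) = z
    rw [map_mul, map_mul, involute_involute, involute_cl, involute_vol_succ h, mul_assoc,
      mul_assoc z, neg_mul (cl _), cl_mul_self, neg_neg, mul_one, ← mul_assoc, mul_neg,
      vol_succ_mul_self h, neg_neg, one_mul]
  R_ε := by
    intro z
    change involute (vol (n + 1) * (involute z * cl (Fin.last n))) * cl (Fin.last n) =
      -(vol (n + 1) * (involute (involute z * cl (Fin.last n)) * cl (Fin.last n)))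
    rw [map_mul, involute_vol_succ h, neg_mul, neg_mul, mul_assoc]

/-- `G` is the product of the volume grading in dimension `a` and `G₂`. -/
def Gr.IsProd (G : Gr (a + b)) (G₂ : Gr b) : Prop :=
  G.ρ = G₂.ρ ∧ (∀ z w, G.R (inl a b z * inr a b w) = inl a b (involute z) * inr a b (G₂.R w)) ∧
    ∀ z w, G.ε (inl a b z * inr a b w) = inl a b (vol a * z) * inr a b (G₂.ε w)

theorem grEven_isProd (ha : 8 ∣ a) (hb : 8 ∣ b) (h : 8 ∣ a + b) :
    (grEven (a + b) h).IsProd (grEven b hb) := by
  refine ⟨rfl, fun z w => ?_, fun z w => ?_⟩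
  · simp [grEven]
  · change vol (a + b) * (inl a b z * inr a b w) = inl a b (vol a * z) * inr a b (vol b * w)
    rw [vol_add, map_mul, map_mul, mul_assoc, ← mul_assoc (inr a b (vol b)),
      inr_mul_inl_of_even (involute_vol_even hb), mul_assoc, mul_assoc]

theorem grOdd_isProd (ha : 8 ∣ a) :
    Gr.IsProd (a := a) (b := 1) (grOdd a ha) (grOdd 0 (dvd_zero 8)) := by
  have e : cl (Fin.last a) = inr a 1 (cl (Fin.last 0)) := by
    rw [inr_cl]
    rfl
  have hR : ∀ (z : Cl a) (w : Cl 1), involute (inl a 1 z * inr a 1 w) * cl (Fin.last a) =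
      inl a 1 (involute z) * inr a 1 (involute w * cl (Fin.last 0)) := by
    intro z w
    rw [e, map_mul, inl_involute, inr_involute, map_mul, mul_assoc]
  refine ⟨rfl, hR, fun z w => ?_⟩
  change vol (a + 1) * (involute (inl a 1 z * inr a 1 w) * cl (Fin.last a)) =
    inl a 1 (vol a * z) * inr a 1 (vol 1 * (involute w * cl (Fin.last 0)))
  rw [hR, vol_add, mul_assoc, ← mul_assoc (inr a 1 (vol 1)),
    inr_mul_inl_of_odd (involute_vol_succ (dvd_zero 8)), involute_involute, map_mul (inl a 1),
    map_mul (inr a 1) (vol 1), mul_assoc, mul_assoc]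

theorem Gr.norm_R_le (G : Gr n) (z : Cl n) : ‖G.R z‖ ≤ ‖z‖ := by
  have h : ‖G.R z‖ ^ 2 = G.ρ * ‖z‖ ^ 2 := by
    rw [← real_inner_self_eq_norm_sq, G.R_sym, G.R_sq, real_inner_smul_right,
      real_inner_self_eq_norm_sq]
  refine (pow_le_pow_iff_left₀ (norm_nonneg _) (norm_nonneg _) two_ne_zero).1 ?_
  rcases G.ρ01 with h0 | h0 <;> rw [h, h0]
  · simp
  · simp

theorem grOdd_zero_ε (z : Cl 1) :
    (grOdd 0 (dvd_zero 8)).ε z = cl 0 * (grOdd 0 (dvd_zero 8)).R z := by
  rw [← vol_one]
  rfl

private theorem grOdd_zero_R_cl' : (grOdd 0 (dvd_zero 8)).R (cl 0) = 1 := by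
  change involute (cl (0 : Fin 1)) * cl (0 : Fin 1) = 1
  rw [involute_cl, neg_mul, cl_mul_self, neg_neg]

theorem grOdd_zero_ε_cl : (grOdd 0 (dvd_zero 8)).ε (cl 0) = cl 0 := by
  rw [grOdd_zero_ε, grOdd_zero_R_cl', mul_one]

theorem grOdd_zero_R_cl : (grOdd 0 (dvd_zero 8)).R (cl 0) = 1 := grOdd_zero_R_cl'

end SZ
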