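import Pool.Agent.P.MP_8db816_gt.SZ.Meas
import Pool.Agent.P.MP_8db816_gt.SZ.POU

/-! Fubini's theorem for products of test functions. -/

noncomputable section

namespace SZ

open Set Filter Topology MeasureTheory
open scoped ContDiff

variable {a b : ℕ} {M : Atl a} {N : Atl b} {F : M.X → ℝ} {G : N.X → ℝ}

namespace MeasProd

/-- Splitting of coordinates as a measurable equivalence. -/
def spl (a b : ℕ) : E (a + b) ≃ᵐ E a × E b :=
  (MeasurableEquiv.piCongrLeft (fun _ => ℝ) finSumFinEquiv).symm.trans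
    (MeasurableEquiv.sumPiEquivProdPi fun _ => ℝ)

theorem spl_apply (z : E (a + b)) : spl a b z = (pl z, pr z) := rfl

theorem spl_pres (a b : ℕ) : MeasurePreserving (spl a b) volume volume :=
  (volume_measurePreserving_piCongrLeft (fun _ => ℝ) finSumFinEquiv).symm.trans
    (volume_measurePreserving_sumPiEquivProdPi fun _ => ℝ)

theorem setIntegral_split (U : Set (E a)) (V : Set (E b)) (f : E a → ℝ) (g : E b → ℝ) :
    ∫ z in {z : E (a + b) | pl z ∈ U ∧ pr z ∈ V}, f (pl z) * g (pr z) =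
      (∫ x in U, f x) * ∫ y in V, g y := by
  rw [← setIntegral_prod_mul, ← Measure.volume_eq_prod]
  exact (spl_pres a b).setIntegral_preimage_emb (spl a b).measurableEmbedding
    (fun w => f w.1 * g w.2) (U ×ˢ V)

theorem int_prod_chart (c : M.A) (d : N.A) (hF : ∀ x ∈ M.car, x ∉ (M.φ c).source → F x = 0)
    (hG : ∀ y ∈ N.car, y ∉ (N.φ d).source → G y = 0) :
    ((M.prod N).int fun z => F z.1 * G z.2) = M.int F * N.int G := by
  rw [Atl.int_chart c hF, Atl.int_chart d hG, Atl.int_chart (M := M.prod N) (c, d),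
    ← setIntegral_split]
  · refine setIntegral_congr_fun ((M.prod N).φ (c, d)).open_target.measurableSet fun z _ => ?_
    change dens (pfr (M.e c) (N.e d)) z * (F ((M.φ c).symm (pl z)) * G ((N.φ d).symm (pr z))) = _
    rw [dens_pfr]
    ring
  · intro z hz hz'
    rw [Atl.car_prod] at hz
    by_cases h1 : z.1 ∈ (M.φ c).source
    · rw [hG z.2 hz.2 fun h2 => hz' ⟨h1, h2⟩, mul_zero]
    · rw [hF z.1 hz.1 h1, zero_mul]

theorem exists_split {n : ℕ} {M : Atl n} {F : M.X → ℝ} (hF : M.Tst F) :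
    ∃ (s : Finset M.A) (u : M.A → M.X → ℝ), (∀ c, M.Tst (u c)) ∧
      (∀ c, ∀ x ∈ M.car, x ∉ (M.φ c).source → u c x = 0) ∧
      ∀ x ∈ M.car, F x = ∑ c ∈ s, u c x := by
  obtain ⟨K, hK, hKM, h0⟩ := hF.2
  obtain ⟨s, η, C, h1, -, -, h4, h5, h6, -⟩ := M.exists_pou_charts hK hKM
  refine ⟨s, fun c x => η c x * F x, fun c => hF.mul_left (h1 c).continuousOn,
    fun c x _ hx => ?_, fun x hx => ?_⟩
  · simp only [h5 c x fun h => hx (h4 c h), zero_mul]
  · rw [← Finset.sum_mul]
    by_cases h : x ∈ K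
    · rw [(h6 x h).self_of_nhds, one_mul]
    · rw [h0 x hx h, mul_zero]

end MeasProd

theorem Atl.Tst.prod (hF : M.Tst F) (hG : N.Tst G) :
    (M.prod N).Tst fun z => F z.1 * G z.2 := by
  obtain ⟨h1, K, hK, hKM, h0⟩ := hF
  obtain ⟨h2, L, hL, hLN, h0'⟩ := hG
  refine ⟨?_, K ×ˢ L, hK.prod hL, ?_, ?_⟩
  · rw [Atl.car_prod]
    exact (h1.comp continuousOn_fst fun _ h => h.1).mul (h2.comp continuousOn_snd fun _ h => h.2)
  · rw [Atl.car_prod]
    exact prod_mono hKM hLN
  · intro z hz hz'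
    rw [Atl.car_prod] at hz
    by_cases h : z.1 ∈ K
    · simp only [h0' z.2 hz.2 fun h2 => hz' ⟨h, h2⟩, mul_zero]
    · simp only [h0 z.1 hz.1 h, zero_mul]

theorem Atl.int_prod (hF : M.Tst F) (hG : N.Tst G) :
    ((M.prod N).int fun z => F z.1 * G z.2) = M.int F * N.int G := by
  obtain ⟨s, u, hu, hu', hFu⟩ := MeasProd.exists_split hF
  obtain ⟨t, v, hv, hv', hGv⟩ := MeasProd.exists_split hG
  have e1 : M.int F = ∑ c ∈ s, M.int (u c) :=
    (Atl.int_congr hFu).trans (Atl.int_sum s fun c _ => hu c)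
  have e2 : N.int G = ∑ d ∈ t, N.int (v d) :=
    (Atl.int_congr hGv).trans (Atl.int_sum t fun d _ => hv d)
  have e3 : ((M.prod N).int fun z => F z.1 * G z.2) =
      (M.prod N).int fun z => ∑ c ∈ s ×ˢ t, u c.1 z.1 * v c.2 z.2 := by
    refine Atl.int_congr fun z hz => ?_
    rw [Atl.car_prod] at hz
    simp only [hFu z.1 hz.1, hGv z.2 hz.2, Finset.sum_product, Finset.sum_mul_sum]
  rw [e3, Atl.int_sum (M := M.prod N) (s ×ˢ t) fun c _ => (hu c.1).prod (hv c.2), e1, e2,
    Finset.sum_mul_sum, Finset.sum_product]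
  exact Finset.sum_congr rfl fun c _ => Finset.sum_congr rfl fun d _ =>
    MeasProd.int_prod_chart c d (hu' c) (hv' d)

theorem int_line (F : ℝ → ℝ) : line.int F = ∫ t, F t := by
  rw [Atl.int_chart (M := line) () fun _ _ h => (h trivial).elim]
  change ∫ y in univ,
    dens (fun _ _ _ => (1 : ℝ) : Fr 1) y * F (MeasurableEquiv.funUnique (Fin 1) ℝ y) = _
  simp only [dens_line, one_mul, Measure.restrict_univ]
  exact (volume_preserving_funUnique (Fin 1) ℝ).integral_comp' F

end SZ
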