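import Pool.Agent.P.MP_8db816_gt.SZ.Good
import Pool.Agent.P.MP_8db816_gt.SZ.MeasProd

/-! The index of the Callias operator on the line, and of zero-dimensional manifolds. -/

noncomputable section

namespace SZ

open Set CliffordAlgebra Filter Topology MeasureTheory Atl.Sec
open scoped ContDiff RealInnerProductSpace

namespace LineAux

section Abstract

variable {C : Type} [NormedAddCommGroup C] [InnerProductSpace ℝ C]

/-- Without a spectral gap on the `p`-eigenspace there is a kernel element. -/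
theorem ker_ne_bot_of_no_gap {D ε : C →ₗ[ℝ] C} (h : Fred D ε) {p : ℝ}
    (H : ∀ δ : ℝ, 0 < δ → ∃ x : C, x ≠ 0 ∧ ε x = p • x ∧ ‖D x‖ ≤ δ * ‖x‖) : Ker D ε p ≠ ⊥ := by
  choose x hx0 hxε hxD using fun k : ℕ => H (1 / ((k : ℝ) + 1)) Nat.one_div_pos_of_nat
  have hn : ∀ k, ‖‖x k‖⁻¹ • x k‖ = 1 := fun k => norm_smul_inv_norm (𝕜 := ℝ) (hx0 k)
  have hD : Tendsto (fun k => ‖D (‖x k‖⁻¹ • x k)‖) atTop (𝓝 0) := by
    refine squeeze_zero (fun k => norm_nonneg _) (fun k => ?_) tendsto_one_div_add_atTop_nhds_zero_nat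
    have hpos : 0 < ‖x k‖ := norm_pos_iff.2 (hx0 k)
    rw [map_smul, norm_smul, norm_inv, norm_norm, inv_mul_le_iff₀ hpos, mul_comm]
    exact hxD k
  obtain ⟨φ, hφ, hc⟩ := h.proper (fun k => ‖x k‖⁻¹ • x k) (fun k => (hn k).le)
    (tendsto_zero_iff_norm_tendsto_zero.2 hD).cauchySeq
  refine ker_ne_bot h.sym h.εsym one_pos _ hc (fun k => (hn (φ k)).ge) (fun k => ?_)
    (hD.comp hφ.tendsto_atTop)
  simp only [Function.comp, map_smul, hxε, smul_comm p]

theorem ind_ne_zero {D ε : C →ₗ[ℝ] C} (h : Fred D ε) (h₁ : Ker D ε 1 ≠ ⊥)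
    (h₂ : Ker D ε (-1) = ⊥) : ind D ε ≠ 0 := by
  have := h.finiteDimensional 1
  rw [ind, h₂, finrank_bot, Nat.cast_zero, sub_zero, Nat.cast_ne_zero]
  exact fun h0 => h₁ (Submodule.finrank_eq_zero.1 h0)

end Abstract

/-- The hyperbolic secant. -/
def sh (t : ℝ) : ℝ := (Real.cosh t)⁻¹

/-- Minus the hyperbolic tangent. -/
def ph (t : ℝ) : ℝ := -(Real.sinh t * sh t)

theorem sh_pos (t : ℝ) : 0 < sh t := inv_pos.2 (Real.cosh_pos t)

theorem contDiff_sh : ContDiff ℝ ∞ sh :=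
  Real.contDiff_cosh.inv fun t => (Real.cosh_pos t).ne'

theorem contDiff_ph : ContDiff ℝ ∞ ph := (Real.contDiff_sinh.mul contDiff_sh).neg

theorem ph_sq (t : ℝ) : ph t ^ 2 = 1 - sh t ^ 2 := by
  have h := (Real.cosh_pos t).ne'
  have h2 := Real.cosh_sq t
  unfold ph sh
  field_simp
  linarith

theorem hasDerivAt_sh (t : ℝ) : HasDerivAt sh (ph t * sh t) t := by
  have h := (Real.cosh_pos t).ne'
  refine HasDerivAt.congr_deriv (f := sh) ((Real.hasDerivAt_cosh t).inv h) ?_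
  unfold ph sh
  field_simp

theorem hasDerivAt_ph (t : ℝ) : HasDerivAt ph (-sh t ^ 2) t := by
  have h := (Real.cosh_pos t).ne'
  have h2 := Real.cosh_sq t
  refine HasDerivAt.congr_deriv (f := ph) ((Real.hasDerivAt_sinh t).mul (hasDerivAt_sh t)).neg ?_
  unfold ph sh
  field_simp
  linarith

theorem sh_sq_le (t : ℝ) : sh t ^ 2 ≤ (1 + t ^ 2)⁻¹ := by
  have h1 : |t| ≤ |Real.sinh t| := by
    rw [Real.abs_sinh]
    exact Real.self_le_sinh_iff.2 (abs_nonneg t)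
  have h2 : t ^ 2 ≤ Real.sinh t ^ 2 := sq_le_sq.2 h1
  rw [sh, inv_pow, Real.cosh_sq]
  exact inv_anti₀ (by positivity) (by linarith)

theorem sh_sq_le' {t : ℝ} (h : 4 ≤ t ^ 2) : sh t ^ 2 ≤ 1 / 5 := by
  refine (sh_sq_le t).trans ?_
  rw [one_div]
  exact inv_anti₀ (by norm_num) (by linarith)

theorem abs_ph_le (t : ℝ) : |ph t| ≤ 1 := by
  rw [← sq_le_one_iff_abs_le_one, ph_sq]
  nlinarith [sq_nonneg (sh t)]

theorem ph_nonneg {t : ℝ} (h : t ≤ 0) : 0 ≤ ph t := by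
  have := Real.sinh_nonpos_iff.2 h
  have := sh_pos t
  unfold ph
  nlinarith

theorem ph_nonpos {t : ℝ} (h : 0 ≤ t) : ph t ≤ 0 := by
  have := Real.sinh_nonneg_iff.2 h
  have := sh_pos t
  unfold ph
  nlinarith

theorem mem_car (t : ℝ) : t ∈ line.car := by
  rw [car_line]
  exact mem_univ t

theorem ev_line (ψ : line.Sec) (t : ℝ) : ψ.ev t = ψ.fam () t := ev_of_mem ψ (mem_car t)

/-- The grading on the line. -/
abbrev G1 : Gr 1 := grOdd 0 (dvd_zero 8)

theorem sm_ph : line.Sm ph := sm_line.2 contDiff_ph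

theorem pot_ph : line.Pot ph := ⟨sm_ph, 1, fun t _ => abs_ph_le t⟩

theorem ev_gr (ψ : line.Sec) (t : ℝ) :
    (line.gr ph ψ).ev t = (-sh t ^ 2) • (cl 0 * ψ.ev t) := by
  rw [ev_line, fam_gr sm_ph, ← ev_line]
  have h : grad (fun _ _ _ => (1 : ℝ) : Fr 1) (fun w => ph (w 0)) (fun _ => t) =
      deriv ph t • cl 0 := grad_line (hasDerivAt_ph t).differentiableAt
  rw [(hasDerivAt_ph t).deriv] at h
  rw [← smul_mul_assoc, ← h]
  rfl

/-- The spectral gap on the negative eigenspace. -/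
theorem gap (ψ : line.Sec) (hψ : line.cend G1.ε ψ = (-1 : ℝ) • ψ) :
    1 * ‖ψ‖ ≤ ‖line.Op G1 ph ψ‖ := by
  set χ := line.mul ph (line.cend G1.R ψ) with hχ
  have hop : line.Op G1 ph ψ = line.Dir ψ + χ := rfl
  have hcomm : line.cend G1.R (line.mul ph ψ) = χ := by
    refine ext_ev fun t _ => ?_
    rw [hχ, ev_cend (G1.eqv_R line), ev_mul sm_ph, ev_mul sm_ph, ev_cend (G1.eqv_R line), map_smul]
  have h2 : 2 * ⟪line.Dir ψ, χ⟫ = ⟪ψ, line.gr ph (line.cend G1.R ψ)⟫ := by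
    have a1 : ⟪line.Dir ψ, χ⟫ = ⟪ψ, line.gr ph (line.cend G1.R ψ)⟫ - ⟪χ, line.Dir ψ⟫ := by
      rw [sym_dir, hχ, dir_mul sm_ph, dir_cend G1.R_anti, inner_add_right, map_neg, inner_neg_right,
        ← sym_mul, ← sym_cend G1.R_sym, hcomm, sub_eq_add_neg]
    rw [real_inner_comm] at a1
    rw [real_inner_comm]
    linarith
  have h3 : ⟪ψ, line.gr ph (line.cend G1.R ψ)⟫ + ‖χ‖ ^ 2 = ‖ψ‖ ^ 2 := by
    rw [Atl.Sec.inner_def, Atl.Sec.norm_sq, Atl.Sec.norm_sq,
      ← Atl.int_add (tst_inner _ _) (tst_norm_sq _)]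
    refine Atl.int_congr fun t _ => ?_
    have e1 : cl 0 * G1.R (ψ.ev t) = (-1 : ℝ) • ψ.ev t := by
      rw [← grOdd_zero_ε, ← ev_cend (G1.eqv_ε line), hψ, ev_smul]
    have e2 : ‖G1.R (ψ.ev t)‖ ^ 2 = ‖ψ.ev t‖ ^ 2 := by
      rw [← real_inner_self_eq_norm_sq, G1.R_sym, G1.R_sq, real_inner_smul_right,
        real_inner_self_eq_norm_sq]
      exact one_mul _
    rw [ev_gr, hχ, ev_mul sm_ph, ev_cend (G1.eqv_R line), e1, real_inner_smul_right,
      real_inner_smul_right, real_inner_self_eq_norm_sq, norm_smul, mul_pow, e2, Real.norm_eq_abs,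
      sq_abs, ph_sq]
    ring
  rw [one_mul, ← sq_le_sq₀ (norm_nonneg _) (norm_nonneg _), hop, norm_add_sq_real]
  nlinarith [sq_nonneg ‖line.Dir ψ‖]

/-- The section `u(t) e`. -/
def sec (u : ℝ → ℝ) : line.Sec := line.glob () fun y => u (y 0) • cl 0

/-- `u(t) e` is smooth with compact support. -/
def Gu (u : ℝ → ℝ) : Prop := line.Gl () fun y => u (y 0) • cl 0

theorem gl {u : ℝ → ℝ} (hu : ContDiff ℝ ∞ u) {K : Set ℝ} (hK : IsCompact K)
    (h0 : ∀ t ∉ K, u t = 0) : Gu u := by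
  refine ⟨((hu.comp (contDiff_apply ℝ ℝ (0 : Fin 1))).smul
    (contDiff_const (c := (cl 0 : Cl 1)))).contDiffOn,
    (fun t (_ : Fin 1) => t) '' K, hK.image (continuous_pi fun _ => continuous_id),
    fun _ _ => trivial, fun y _ hy => ?_⟩
  have : y 0 ∉ K := fun h => hy ⟨y 0, h, funext fun i => by rw [Subsingleton.elim i 0]⟩
  change u (y 0) • (cl 0 : Cl 1) = 0
  rw [h0 _ this, zero_smul]

theorem ev_sec {u : ℝ → ℝ} (h : Gu u) (t : ℝ) :
    (sec u).ev t = u t • cl 0 := by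
  rw [ev_line, sec, fam_glob h (x := t) trivial]
  rfl

theorem ev_dir_sec {u : ℝ → ℝ} (hu : ContDiff ℝ ∞ u) (h : Gu u)
    (t : ℝ) : (line.Dir (sec u)).ev t = (-deriv u t) • (1 : Cl 1) := by
  have hd : HasDerivAt (fun s => u s • (cl 0 : Cl 1)) (deriv u t • cl 0) t :=
    (hu.differentiable (by simp) t).hasDerivAt.smul_const _
  have h1 : dirac (fun _ _ _ => (1 : ℝ) : Fr 1) (fun w => u (w 0) • (cl 0 : Cl 1)) (fun _ => t) =
      cl 0 * deriv (fun s => u s • (cl 0 : Cl 1)) t :=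
    dirac_line (g := fun s => u s • (cl 0 : Cl 1)) hd.differentiableAt
  rw [hd.deriv, mul_smul_comm, cl_mul_self, smul_neg, ← neg_smul] at h1
  rw [ev_line, sec, dir_glob h, fam_glob (Atl.Gl.dirac h) (x := t) trivial, ← h1]
  rfl

theorem norm_cl0 : ‖(cl 0 : Cl 1)‖ = 1 := by
  have := norm_pin_mul (cl_mem_pin (0 : Fin 1)) 1
  rwa [mul_one, norm_one_cl] at this

/-- There is no spectral gap on the positive eigenspace. -/
theorem no_gap (δ : ℝ) (hδ : 0 < δ) : ∃ x : line.Sec, x ≠ 0 ∧ line.cend G1.ε x = (1 : ℝ) • x ∧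
    ‖line.Op G1 ph x‖ ≤ δ * ‖x‖ := by
  obtain ⟨θ₀, C₀, hθ₀, hθ₀01, hC₀, -, hz₀, h1₀, -⟩ :=
    complete_line.exists_cutoff (isCompact_singleton (x := (0 : ℝ))) (fun t _ => mem_car t) one_pos
  have hs₀ : ContDiff ℝ ∞ fun t => θ₀ t * sh t := (sm_line.1 hθ₀).mul contDiff_sh
  have hg₀ := gl hs₀ hC₀ fun t ht => by rw [hz₀ t (mem_car t) ht, zero_mul]
  have hne : sec (fun t => θ₀ t * sh t) ≠ 0 := by
    intro h
    have h' := congrArg (fun ψ : line.Sec => ‖ψ.ev (0 : ℝ)‖) h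
    simp only [ev_sec hg₀, ev_zero, norm_zero, norm_smul, norm_cl0, mul_one, h1₀ 0 rfl, one_mul,
      Real.norm_eq_abs, abs_eq_zero] at h'
    exact (sh_pos 0).ne' h'
  have hc : 0 < ‖sec fun t => θ₀ t * sh t‖ := norm_pos_iff.2 hne
  set c := ‖sec fun t => θ₀ t * sh t‖ with hcdef
  obtain ⟨θ, C, hθ, hθ01, hC, -, hz, h1, hgn⟩ :=
    complete_line.exists_cutoff hC₀ (fun t _ => mem_car t) (δ := δ * c / 2) (by positivity)
  have hθ' : ContDiff ℝ ∞ θ := sm_line.1 hθ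
  have hs : ContDiff ℝ ∞ fun t => θ t * sh t := hθ'.mul contDiff_sh
  have hg := gl hs hC fun t ht => by rw [hz t (mem_car t) ht, zero_mul]
  have hle : c ≤ 1 * ‖sec fun t => θ t * sh t‖ := by
    refine norm_le zero_le_one fun t _ => ?_
    rw [ev_sec hg₀, ev_sec hg, norm_smul, norm_smul, norm_cl0, mul_one, mul_one, one_mul,
      Real.norm_eq_abs, Real.norm_eq_abs, abs_of_nonneg (mul_nonneg (hθ₀01 t).1 (sh_pos t).le),
      abs_of_nonneg (mul_nonneg (hθ01 t).1 (sh_pos t).le)]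
    refine mul_le_mul_of_nonneg_right ?_ (sh_pos t).le
    by_cases ht : t ∈ C₀
    · rw [h1 t ht]
      exact (hθ₀01 t).2
    · rw [hz₀ t (mem_car t) ht]
      exact (hθ01 t).1
  rw [one_mul] at hle
  refine ⟨sec fun t => θ t * sh t, norm_pos_iff.1 (hc.trans_le hle), ?_, ?_⟩
  · refine ext_ev fun t _ => ?_
    rw [ev_cend (G1.eqv_ε line), one_smul, ev_sec hg, map_smul, grOdd_zero_ε_cl]
  · have hev : ∀ t, ‖(line.Op G1 ph (sec fun t => θ t * sh t)).ev t‖ ^ 2 ≤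
        (δ * c / 2) ^ 2 * (1 + t ^ 2)⁻¹ := by
      intro t
      have hdθ := (hθ'.differentiable (by simp) t).hasDerivAt
      have hd := (hdθ.mul (hasDerivAt_sh t)).deriv
      have hd' : deriv (fun t => θ t * sh t) t = deriv θ t * sh t + θ t * (ph t * sh t) := hd
      have hb : |deriv θ t| ≤ δ * c / 2 := by
        rw [← gn_line hdθ.differentiableAt]
        exact hgn t (mem_car t)
      have hb' : deriv θ t ^ 2 ≤ (δ * c / 2) ^ 2 := by
        rw [← sq_abs]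
        exact pow_le_pow_left₀ (abs_nonneg _) hb 2
      rw [ev_op G1 sm_ph, ev_dir_sec hs hg, ev_sec hg, map_smul, grOdd_zero_R_cl, smul_smul,
        ← add_smul, norm_smul, norm_one_cl, mul_one, Real.norm_eq_abs, sq_abs, hd']
      calc _ = deriv θ t ^ 2 * sh t ^ 2 := by ring
        _ ≤ _ := mul_le_mul hb' (sh_sq_le t) (sq_nonneg _) (sq_nonneg _)
    have hint : ‖line.Op G1 ph (sec fun t => θ t * sh t)‖ ^ 2 ≤ (δ * c / 2) ^ 2 * Real.pi := by
      rw [Atl.Sec.norm_sq, int_line, ← integral_univ_inv_one_add_sq, ← integral_const_mul]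
      exact integral_mono_of_nonneg (Eventually.of_forall fun t => sq_nonneg _)
        (integrable_inv_one_add_sq.const_mul _) (Eventually.of_forall hev)
    have h4 : ‖line.Op G1 ph (sec fun t => θ t * sh t)‖ ^ 2 ≤ (δ * c) ^ 2 := by
      have := mul_le_mul_of_nonneg_left Real.pi_le_four (sq_nonneg (δ * c / 2))
      nlinarith
    exact ((sq_le_sq₀ (norm_nonneg _) (by positivity)).1 h4).trans
      (mul_le_mul_of_nonneg_left hle hδ.le)

/-- The estimate along the straight homotopy from `g` to `ph`. -/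
theorem est {g : ℝ → ℝ} {α β : ℝ} (h₁ : ∀ t ≤ α, g t = 1) (h₂ : ∀ t ≥ β, g t = -1) {s : ℝ}
    (hs : s ∈ Icc (0 : ℝ) 1) :
    line.Est G1 (fun x => (1 - s) * g x + s * ph x) (Icc (min α (-2)) (max β 2)) := by
  refine ⟨0, 3 / 5, le_rfl, zero_le_one, by norm_num, fun t _ ht => ?_⟩
  have key : ∀ σ : ℝ, σ * σ = 1 → (∀ᶠ x in 𝓝 t, g x = σ) → 0 ≤ σ * ph t → 4 ≤ t ^ 2 →
      3 / 5 ≤ 0 * line.scal t / 4 + G1.ρ * ((1 - s) * g t + s * ph t) ^ 2 -
        line.gn (fun x => (1 - s) * g x + s * ph x) t := by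
    intro σ hσ hev hσp ht2
    have hg : HasDerivAt g 0 t := (hasDerivAt_const t σ).congr_of_eventuallyEq hev
    have hd : HasDerivAt (fun x => (1 - s) * g x + s * ph x) ((1 - s) * 0 + s * (-sh t ^ 2)) t :=
      (hg.const_mul _).add ((hasDerivAt_ph t).const_mul _)
    have hρ : G1.ρ = 1 := rfl
    have a1 := sh_sq_le' ht2
    have a2 := ph_sq t
    have a3 : σ * ph t ≤ 1 := by nlinarith [sq_nonneg (σ * ph t - 1), sq_nonneg (sh t)]
    have a4 : 0 ≤ s * sh t ^ 2 := mul_nonneg hs.1 (sq_nonneg _)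
    have a5 : s * sh t ^ 2 ≤ sh t ^ 2 := mul_le_of_le_one_left (sq_nonneg _) hs.2
    have a6 : σ * ph t ≤ (1 - s) + s * (σ * ph t) := by nlinarith [hs.1, hs.2]
    have a7 : (σ * ph t) ^ 2 ≤ ((1 - s) + s * (σ * ph t)) ^ 2 := pow_le_pow_left₀ hσp a6 2
    have a8 : ((1 - s) * σ + s * ph t) ^ 2 = ((1 - s) + s * (σ * ph t)) ^ 2 := by
      linear_combination ((1 - s) ^ 2 - s ^ 2 * ph t ^ 2) * hσ
    have a9 : (σ * ph t) ^ 2 = ph t ^ 2 := by linear_combination (ph t ^ 2) * hσ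
    rw [gn_line hd.differentiableAt, hd.deriv, hev.self_of_nhds, hρ, a8, mul_zero, zero_add,
      mul_neg, abs_neg, abs_of_nonneg a4]
    linarith
  rw [mem_Icc, not_and_or, not_le, not_le] at ht
  rcases ht with ht | ht
  · have hα : t < α := ht.trans_le (min_le_left _ _)
    have h2 : t < -2 := ht.trans_le (min_le_right _ _)
    refine key 1 (one_mul 1) ((gt_mem_nhds hα).mono fun x hx => h₁ x hx.le) ?_ (by nlinarith)
    rw [one_mul]
    exact ph_nonneg (by linarith)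
  · have hβ : β < t := (le_max_left _ _).trans_lt ht
    have h2 : 2 < t := (le_max_right _ _).trans_lt ht
    refine key (-1) (by norm_num) ((lt_mem_nhds hβ).mono fun x hx => h₂ x hx.le) ?_ (by nlinarith)
    have := ph_nonpos (t := t) (by linarith)
    linarith

end LineAux

open LineAux

theorem good_line {g : ℝ → ℝ} (hg : ContDiff ℝ ∞ g) {α β : ℝ} (h₁ : ∀ t ≤ α, g t = 1)
    (h₂ : ∀ t ≥ β, g t = -1) : line.Good (grOdd 0 (dvd_zero 8)) g := by
  refine good_callias complete_line rfl (sm_line.2 hg) (isCompact_Icc (a := α) (b := β))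
    (fun t _ => mem_car t) fun t _ ht => ?_
  rw [mem_Icc, not_and_or, not_le, not_le] at ht
  rcases ht with ht | ht
  · rw [h₁ t ht.le, one_pow]
  · rw [h₂ t ht.le, neg_one_sq]

theorem index_line {g : ℝ → ℝ} (hg : ContDiff ℝ ∞ g) {α β : ℝ} (h₁ : ∀ t ≤ α, g t = 1)
    (h₂ : ∀ t ≥ β, g t = -1) : line.index (grOdd 0 (dvd_zero 8)) g ≠ 0 := by
  have hgood : line.Good G1 ph := by
    refine ⟨complete_line, pot_ph, _, isCompact_Icc (a := min α (-2)) (b := max β 2),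
      fun t _ => mem_car t, ?_⟩
    have := est h₁ h₂ (s := 1) ⟨zero_le_one, le_rfl⟩
    simpa only [sub_self, zero_mul, one_mul, zero_add] using this
  rw [index_homotopy complete_line (good_line hg h₁ h₂).pot pot_ph fun s hs =>
    ⟨_, isCompact_Icc, fun t _ => mem_car t, est h₁ h₂ hs⟩]
  exact ind_ne_zero hgood.fred (ker_ne_bot_of_no_gap hgood.fred no_gap)
    (hgood.fred.ker_eq_bot (Or.inr rfl) one_pos gap)

theorem index_dim_zero (M : Atl 0) (hM : IsCompact M.car) (hne : M.car.Nonempty) :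
    M.index (grEven 0 (dvd_zero 8)) 0 ≠ 0 := by
  have hF := (good_of_compact hM (grEven 0 (dvd_zero 8)) Atl.sm_zero).fred
  have hD : ∀ ψ : M.Sec, M.Op (grEven 0 (dvd_zero 8)) 0 ψ = 0 := by
    intro ψ
    rw [op_zero]
    refine Atl.Sec.ext fun a x => ?_
    by_cases hx : x ∈ (M.φ a).source
    · rw [fam_dir ψ hx, dirac, Finset.univ_eq_empty, Finset.sum_empty, fam_zero]
    · rw [(M.Dir ψ).ok.off a x hx, fam_zero]
  have hε : ∀ ψ : M.Sec, M.cend (grEven 0 (dvd_zero 8)).ε ψ = ψ := by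
    intro ψ
    refine Atl.Sec.ext fun a x => ?_
    rw [fam_cend (Gr.eqv_ε _ M)]
    change vol 0 * _ = _
    rw [vol, List.ofFn_zero, List.prod_nil, one_mul]
  obtain ⟨x, hx⟩ := hne
  obtain ⟨a, ha⟩ := Atl.mem_car.1 hx
  have hgl : M.Gl a fun _ => 1 :=
    ⟨contDiffOn_const, (M.φ a).target, (Set.toFinite _).isCompact, subset_rfl,
      fun y hy hy' => absurd hy hy'⟩
  have hne' : (M.glob a fun _ => 1) ≠ 0 := by
    intro h
    have h' := fam_glob hgl ha
    rw [h, fam_zero] at h'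
    have h'' := norm_one_cl (n := 0)
    rw [← h', norm_zero] at h''
    exact zero_ne_one h''
  refine ind_ne_zero hF (ker_ne_bot_of_no_gap hF fun δ hδ => ⟨_, hne', ?_, ?_⟩)
    (hF.ker_eq_bot (Or.inr rfl) one_pos fun ψ hψ => ?_)
  · rw [hε, one_smul]
  · rw [hD, norm_zero]
    positivity
  · rw [hε, neg_one_smul, eq_neg_iff_add_eq_zero, ← two_smul ℝ, smul_eq_zero] at hψ
    rw [hψ.resolve_left two_ne_zero, norm_zero, mul_zero]
    exact norm_nonneg _

end SZ
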