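import Pool.Agent.P.MP_8db816_gt.SZ.IndexProd
import Pool.Agent.P.MP_8db816_gt.SZ.Line

/-! Cobordism invariance of the index (Higson's proof). -/

noncomputable section

namespace SZ

open Set CliffordAlgebra Filter Topology MeasureTheory Atl.Sec
open scoped ContDiff RealInnerProductSpace

private theorem good_const {n : ℕ} {M : Atl n} {G : Gr n} (hc : M.Complete) (hG : G.ρ = 1)
    {c : ℝ} (h : c ^ 2 = 1) : M.Good G fun _ => c :=
  good_callias hc hG (Atl.sm_const c) isCompact_empty (empty_subset _) fun _ _ _ => h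

theorem Col.index_bdry {m : ℕ} (W : Col m) (h : 8 ∣ m) : W.M.index (grEven m h) 0 = 0 := by
  obtain ⟨C⟩ : Nonempty (Cpl W) := inferInstance
  obtain ⟨u, hu, -, hu₁, hu₀, hus⟩ := exists_step (show (-2 : ℝ) < -1 by norm_num)
  have hβ : (-1 : ℝ) < C.β := by linarith [C.pos, C.lt]
  have hg : ContDiff ℝ ∞ fun t => 2 * u t - 1 := (contDiff_const.mul hu).sub contDiff_const
  have g₁ : ∀ t ≤ (-2 : ℝ), 2 * u t - 1 = 1 := fun t ht => by rw [hu₁ t ht]; norm_num
  have g₀ : ∀ t ≥ (-1 : ℝ), 2 * u t - 1 = -1 := fun t ht => by rw [hu₀ t ht]; norm_num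
  have hG : (grOdd m h).ρ = 1 := rfl
  have hcY := C.complete
  have hcM := complete_cyl W.cptM
  have hsm : C.Y.Sm fun y => 2 * u (C.τ y) - 1 :=
    ((Atl.sm_const 2).mul (C.neck.sm isOpen_Iio hu
      (hus.trans fun t ht => lt_of_le_of_lt ht.2 hβ))).sub (Atl.sm_const 1)
  obtain ⟨gN, iN⟩ := (good_const hcY hG (one_pow 2)).of_compact hsm (C.isCompact_Ici (-2))
    inter_subset_left fun y hy hy' => g₁ _ (le_of_lt (not_le.1 fun h' => hy' ⟨hy, h'⟩))
  have gN' : (cyl W.M).Good (grOdd m h) fun z => 2 * u z.2 - 1 :=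
    good_callias hcM hG (Atl.Sm.snd (M₁ := W.M) (M₂ := line) (sm_line.2 hg))
      ((isNeck_cyl W.M univ).isCompact W.cptM (isCompact_Icc (a := -2) (b := -1)) (subset_univ _))
      inter_subset_left fun z hz hz' => by
        rcases le_or_gt z.2 (-2) with h₁ | h₁
        · rw [g₁ _ h₁]; norm_num
        · rw [g₀ _ (le_of_lt (not_le.1 fun h' => hz' ⟨hz, h₁.le, h'⟩))]; norm_num
  have hcut := neck_cut W.cptM hβ (C.neck.mono Ioo_subset_Iio_self) (isNeck_cyl W.M _) C.neck
    (C.neck.match_cyl Ioo_subset_Iio_self).symm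
    ((C.neck.mono Ioo_subset_Iio_self).match_id _) gN gN'
    (good_const hcY hG (neg_one_sq (R := ℝ))) (good_const hcM hG (neg_one_sq (R := ℝ)))
    (fun y hy ht => by
      rw [← (C.neck.match_cyl subset_rfl).symm.val C.neck (isNeck_cyl W.M _) hy ht])
    (fun y _ ht => (g₀ _ ht.le).symm) (fun z _ ht => g₀ _ ht.le) fun _ _ _ => rfl
  rw [iN, index_callias_const hcY hG one_ne_zero, index_callias_const hcY hG (by norm_num),
    index_callias_const hcM hG (by norm_num),
    index_prod (N := line) (φ := fun t => 2 * u t - 1) h W.cptM (grOdd_isProd h)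
      (good_line hg g₁ g₀) gN'] at hcut
  have hl := index_line hg g₁ g₀
  simpa [hl] using hcut.symm

end SZ
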