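import Pool.Agent.P.MP_8db816_gt.SZ.LocBasic

/-! Covariance of the connection and the Dirac operator under isometries with a Pin lift. -/

noncomputable section

namespace SZ

open CliffordAlgebra Filter Topology Set MeasureTheory
open scoped RealInnerProductSpace ContDiff

variable {n : ℕ} {e e' : Fr n} {U U' : Set (E n)} {τ : E n → E n} {σ : E n → Cl n} {p : ℝ}
  {y : E n} {ψ ψ' χ χ' : E n → Cl n}

theorem cov_diff {F : Type} [NormedAddCommGroup F] [NormedSpace ℝ F] {f : E n → F}
    (hf : ContDiffOn ℝ ∞ f U) (hU : IsOpen U) (hy : y ∈ U) : DifferentiableAt ℝ f y :=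
  (hf.contDiffAt (hU.mem_nhds hy)).differentiableAt (by simp)

theorem cov_row {F : Type} [AddCommGroup F] [Module ℝ F] {s : Cl n} (hs : s ∈ pinGroup (Q n))
    (a : Fin n → F) (i : Fin n) : ∑ j, rmat s i j • ∑ l, rmat s l j • a l = a i := by
  simp only [Finset.smul_sum, smul_smul]
  rw [Finset.sum_comm]
  simp only [← Finset.sum_smul, rmat_row hs]
  simp

theorem cov_col {F : Type} [AddCommGroup F] [Module ℝ F] {s : Cl n} (hs : s ∈ pinGroup (Q n))
    (a : Fin n → F) (j : Fin n) : ∑ i, rmat s i j • ∑ l, rmat s i l • a l = a j := by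
  simp only [Finset.smul_sum, smul_smul]
  rw [Finset.sum_comm]
  simp only [← Finset.sum_smul, rmat_col hs]
  simp

theorem cov_der_comp {F : Type} [NormedAddCommGroup F] [NormedSpace ℝ F] (h : Lift p e e' U τ σ)
    (hU : IsOpen U) (hy : y ∈ U) {f' : E n → F} (hf : DifferentiableAt ℝ f' (τ y)) (j : Fin n) :
    der e j (fun z => f' (τ z)) y = ∑ l, rmat (σ y) l j • der e' l f' (τ y) := by
  have hτ := cov_diff h.1 hU hy
  have h1 : fderiv ℝ (fun z => f' (τ z)) y = (fderiv ℝ f' (τ y)).comp (fderiv ℝ τ y) :=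
    fderiv_comp y hf hτ
  unfold der
  rw [h1, ContinuousLinearMap.comp_apply, h.fderiv_frame hy, map_sum]
  simp only [map_smul]

/-- The twisted action, multiplied out. -/
theorem cov_twist (h : Lift p e e' U τ σ) (hy : y ∈ U) (k : Fin n) :
    (∑ l, rmat (σ y) l k • cl l) * σ y = p • (σ y * cl k) := by
  obtain ⟨hs, hi, -⟩ := h.2.2 y hy
  rw [← twist_cl hs, mul_assoc, pinGroup.star_mul_self_of_mem hs, mul_one, hi, smul_mul_assoc]

theorem cov_p_sq (h : Lift p e e' U τ σ) (hy : y ∈ U) : p * p = 1 := by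
  obtain ⟨hs, hi, -⟩ := h.2.2 y hy
  have h1 : σ y = (p * p) • σ y := by
    conv_lhs => rw [← involute_involute (σ y), hi, map_smul, hi, smul_smul]
  have h2 := congrArg (fun x => tr (star (σ y) * x)) h1
  simp only [mul_smul_comm, pinGroup.star_mul_self_of_mem hs, map_smul, tr_one, smul_eq_mul,
    mul_one] at h2
  exact h2.symm

theorem Lift.der_eq {F : Type} [NormedAddCommGroup F] [NormedSpace ℝ F] (h : Lift p e e' U τ σ)
    (hU : IsOpen U) (hy : y ∈ U) {f' : E n → F} (hf : DifferentiableAt ℝ f' (τ y)) (i : Fin n) :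
    der e' i f' (τ y) = ∑ j, rmat (σ y) i j • der e j (fun z => f' (τ z)) y := by
  simp only [cov_der_comp h hU hy hf]
  exact (cov_row (h.2.2 y hy).1 (fun l => der e' l f' (τ y)) i).symm

theorem cov_grad (h : Lift p e e' U τ σ) (hU : IsOpen U) (hy : y ∈ U) {f' : E n → ℝ}
    (hf : DifferentiableAt ℝ f' (τ y)) :
    grad e' f' (τ y) = involute (σ y) * grad e (fun z => f' (τ z)) y * star (σ y) := by
  unfold grad
  rw [twist_vec (h.2.2 y hy).1]
  congr 1
  funext i
  rw [h.der_eq hU hy hf i]
  simp only [smul_eq_mul]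

theorem Lift.grad_eq (h : Lift p e e' U τ σ) (hU : IsOpen U) (hy : y ∈ U) {f' : E n → ℝ}
    (hf : DifferentiableAt ℝ f' (τ y)) :
    grad e' f' (τ y) * σ y = p • (σ y * grad e (fun z => f' (τ z)) y) := by
  obtain ⟨hs, hi, -⟩ := h.2.2 y hy
  rw [cov_grad h hU hy hf, mul_assoc, pinGroup.star_mul_self_of_mem hs, mul_one, hi,
    smul_mul_assoc]

theorem Lift.norm_grad_eq (h : Lift p e e' U τ σ) (hU : IsOpen U) (hy : y ∈ U) {f' : E n → ℝ}
    (hf : DifferentiableAt ℝ f' (τ y)) :
    ‖grad e' f' (τ y)‖ = ‖grad e (fun z => f' (τ z)) y‖ := by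
  obtain ⟨hs, hi, -⟩ := h.2.2 y hy
  rw [cov_grad h hU hy hf, mul_assoc, norm_pin_mul (involute_mem_pin hs)]
  have h1 : ∀ x : Cl n, ‖x * star (σ y)‖ ^ 2 = ‖x‖ ^ 2 := by
    intro x
    rw [← real_inner_self_eq_norm_sq, ← real_inner_self_eq_norm_sq, inner_mul_right, star_star,
      mul_assoc, pinGroup.star_mul_self_of_mem hs, mul_one]
  exact (pow_left_inj₀ (norm_nonneg _) (norm_nonneg _) two_ne_zero).1 (h1 _)

theorem Lift.dens_eq (h : Lift p e e' U τ σ) (he : IsFr e U) (he' : IsFr e' U')
    (hτ : MapsTo τ U U') (hy : y ∈ U) :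
    dens e y = |(fderiv ℝ τ y).det| * dens e' (τ y) := by
  have hs := (h.2.2 y hy).1
  have h1 : LinearMap.toMatrix' (fderiv ℝ τ y : E n →ₗ[ℝ] E n) * fmat e y
      = fmat e' (τ y) * Matrix.of (rmat (σ y)) := by
    ext a j
    have h2 := congrFun (h.fderiv_frame hy j) a
    have h3 : (LinearMap.toMatrix' (fderiv ℝ τ y : E n →ₗ[ℝ] E n)).mulVec (e j y)
        = fderiv ℝ τ y (e j y) := by
      rw [← Matrix.toLin'_apply, Matrix.toLin'_toMatrix']
      rfl
    have h4 := congrFun h3 a
    rw [h2] at h4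
    simp only [Matrix.mulVec, dotProduct, Finset.sum_apply, Pi.smul_apply, smul_eq_mul] at h4
    simp only [Matrix.mul_apply, fmat, Matrix.of_apply]
    rw [h4]
    exact Finset.sum_congr rfl fun i _ => mul_comm _ _
  have h2 := congrArg (fun M => |Matrix.det M|) h1
  simp only [Matrix.det_mul, abs_mul, LinearMap.det_toMatrix'] at h2
  have h3 : |(Matrix.of (rmat (σ y))).det| = 1 := by
    have := rmat_det_sq hs
    rw [← sq_abs] at this
    exact (pow_eq_one_iff_of_nonneg (abs_nonneg _) two_ne_zero).1 this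
  have h4 := abs_pos.2 (he.det_ne_zero hy)
  have h5 := abs_pos.2 (he'.det_ne_zero (hτ hy))
  rw [h3, mul_one] at h2
  unfold dens ContinuousLinearMap.det
  field_simp
  linarith

/-- The right side of the transformation law. -/
def covB (e e' : Fr n) (τ : E n → E n) (σ : E n → Cl n) (y : E n) (j k l : Fin n) : ℝ :=
  der e j (fun z => rmat (σ z) l k) y +
    ∑ i, ∑ q, rmat (σ y) i j * rmat (σ y) q k * gam e' i q l (τ y)

theorem cov_der_sum {F : Type} [NormedAddCommGroup F] [NormedSpace ℝ F] {a : Fin n → E n → ℝ}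
    {b : Fin n → E n → F} (ha : ∀ l, DifferentiableAt ℝ (a l) y)
    (hb : ∀ l, DifferentiableAt ℝ (b l) y) (j : Fin n) :
    der e j (fun z => ∑ l, a l z • b l z) y
      = ∑ l, (der e j (a l) y • b l y + a l y • der e j (b l) y) := by
  unfold der
  rw [fderiv_fun_sum (A := fun l z => a l z • b l z) fun l _ => (ha l).smul (hb l),
    _root_.sum_apply]
  refine Finset.sum_congr rfl fun l _ => ?_
  rw [fderiv_fun_smul (ha l) (hb l)]
  simp [add_comm]

theorem cov_der_const {F : Type} [NormedAddCommGroup F] [NormedSpace ℝ F] (c : F) (j : Fin n) :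
    der e j (fun _ => c) y = 0 := by
  simp [der]

theorem cov_skew (h : Lift p e e' U τ σ) (hU : IsOpen U) (hy : y ∈ U) (j k m : Fin n) :
    ∑ l, rmat (σ y) l m * covB e e' τ σ y j k l
      + ∑ l, rmat (σ y) l k * covB e e' τ σ y j m l = 0 := by
  have hr : ∀ l k, DifferentiableAt ℝ (fun z => rmat (σ z) l k) y := fun l k =>
    cov_diff (contDiffOn_rmat h.2.1 l k) hU hy
  have h1 : der e j (fun z => ∑ l, rmat (σ z) l k • rmat (σ z) l m) y = 0 := by
    rw [← cov_der_const (e := e) (y := y) (if k = m then (1 : ℝ) else 0) j]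
    refine der_congr ?_ j
    filter_upwards [hU.mem_nhds hy] with z hz
    simpa only [smul_eq_mul] using rmat_col (h.2.2 z hz).1 k m
  rw [cov_der_sum (fun l => hr l k) (fun l => hr l m)] at h1
  simp only [smul_eq_mul, Finset.sum_add_distrib] at h1
  have h2 : ∑ l, rmat (σ y) l m *
        ∑ i, ∑ q, rmat (σ y) i j * rmat (σ y) q k * gam e' i q l (τ y)
      = -∑ l, rmat (σ y) l k *
        ∑ i, ∑ q, rmat (σ y) i j * rmat (σ y) q m * gam e' i q l (τ y) := by
    simp only [Finset.mul_sum, ← Finset.sum_neg_distrib]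
    rw [Finset.sum_comm]
    conv_rhs => rw [Finset.sum_comm]
    refine Finset.sum_congr rfl fun i _ => ?_
    rw [Finset.sum_comm]
    refine Finset.sum_congr rfl fun l _ => Finset.sum_congr rfl fun q _ => ?_
    rw [gam_swap e' i l q]
    ring
  unfold covB
  simp only [mul_add, Finset.sum_add_distrib]
  have h3 : ∑ l, rmat (σ y) l m * der e j (fun z => rmat (σ z) l k) y
      = ∑ l, der e j (fun z => rmat (σ z) l k) y * rmat (σ y) l m :=
    Finset.sum_congr rfl fun l _ => mul_comm _ _
  linarith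

theorem cov_tors (h : Lift p e e' U τ σ) (hU : IsOpen U) (hU' : IsOpen U') (he : IsFr e U)
    (he' : IsFr e' U') (hτ : MapsTo τ U U') (hy : y ∈ U) (j k m : Fin n) :
    ∑ l, rmat (σ y) l m * covB e e' τ σ y j k l
      - ∑ l, rmat (σ y) l m * covB e e' τ σ y k j l = cst e j k m y := by
  have hs := (h.2.2 y hy).1
  have hr : ∀ l k, DifferentiableAt ℝ (fun z => rmat (σ z) l k) y := fun l k =>
    cov_diff (contDiffOn_rmat h.2.1 l k) hU hy
  have hτd := cov_diff h.1 hU hy
  have he'd : ∀ l, DifferentiableAt ℝ (e' l) (τ y) := fun l => cov_diff (he'.1 l) hU' (hτ hy)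
  have hdd : ∀ j k, der e j (der e k τ) y
      = ∑ l, der e j (fun z => rmat (σ z) l k) y • e' l (τ y)
        + ∑ i, ∑ q, (rmat (σ y) i j * rmat (σ y) q k) • der e' i (e' q) (τ y) := by
    intro j k
    have h1 : der e j (der e k τ) y
        = der e j (fun z => ∑ l, rmat (σ z) l k • e' l (τ z)) y := by
      refine der_congr ?_ j
      filter_upwards [hU.mem_nhds hy] with z hz
      exact h.fderiv_frame hz k
    rw [h1, cov_der_sum (b := fun l z => e' l (τ z)) (fun l => hr l k)
      (fun l => (he'd l).comp y hτd), Finset.sum_add_distrib]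
    congr 1
    rw [Finset.sum_comm]
    refine Finset.sum_congr rfl fun q _ => ?_
    rw [cov_der_comp h hU hy (he'd q), Finset.smul_sum]
    refine Finset.sum_congr rfl fun i _ => ?_
    rw [smul_smul, mul_comm]
  have hbr : ∀ i q, der e' i (e' q) (τ y) - der e' q (e' i) (τ y)
      = ∑ l, (gam e' i q l (τ y) - gam e' q i l (τ y)) • e' l (τ y) := by
    intro i q
    simp only [gam_sub_gam]
    rw [← he'.lieBracket_eq (hτ hy)]
    rfl
  have h1 := he.der_der_sub hU hy h.1 j k
  have h2 : ∑ l, (covB e e' τ σ y j k l - covB e e' τ σ y k j l) • e' l (τ y)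
      = ∑ l, (∑ a, rmat (σ y) l a * cst e j k a y) • e' l (τ y) := by
    have h3 : ∑ l, (∑ a, rmat (σ y) l a * cst e j k a y) • e' l (τ y)
        = ∑ a, cst e j k a y • der e a τ y := by
      simp only [Finset.sum_smul]
      rw [Finset.sum_comm]
      refine Finset.sum_congr rfl fun a _ => ?_
      rw [der, h.fderiv_frame hy, Finset.smul_sum]
      refine Finset.sum_congr rfl fun l _ => ?_
      rw [smul_smul, mul_comm]
    rw [h3, ← h1, hdd, hdd]
    have h4 : ∑ i, ∑ q, (rmat (σ y) i k * rmat (σ y) q j) • der e' i (e' q) (τ y)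
        = ∑ i, ∑ q, (rmat (σ y) i j * rmat (σ y) q k) • der e' q (e' i) (τ y) := by
      rw [Finset.sum_comm]
      refine Finset.sum_congr rfl fun i _ => Finset.sum_congr rfl fun q _ => ?_
      rw [mul_comm]
    have h5 : ∑ i, ∑ q, (rmat (σ y) i j * rmat (σ y) q k) • der e' i (e' q) (τ y)
        - ∑ i, ∑ q, (rmat (σ y) i j * rmat (σ y) q k) • der e' q (e' i) (τ y)
        = ∑ l, (∑ i, ∑ q, rmat (σ y) i j * rmat (σ y) q k * gam e' i q l (τ y)
          - ∑ i, ∑ q, rmat (σ y) i k * rmat (σ y) q j * gam e' i q l (τ y)) • e' l (τ y) := by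
      have h6 : ∀ l, ∑ i, ∑ q, rmat (σ y) i k * rmat (σ y) q j * gam e' i q l (τ y)
          = ∑ i, ∑ q, rmat (σ y) i j * rmat (σ y) q k * gam e' q i l (τ y) := by
        intro l
        rw [Finset.sum_comm]
        refine Finset.sum_congr rfl fun i _ => Finset.sum_congr rfl fun q _ => ?_
        ring
      simp only [h6, ← Finset.sum_sub_distrib, ← smul_sub, hbr, ← mul_sub, Finset.sum_smul,
        Finset.smul_sum, smul_smul]
      conv_rhs => rw [Finset.sum_comm]
      refine Finset.sum_congr rfl fun i _ => ?_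
      rw [Finset.sum_comm]
    rw [h4, add_sub_add_comm, h5, ← Finset.sum_sub_distrib, ← Finset.sum_add_distrib]
    refine Finset.sum_congr rfl fun l _ => ?_
    rw [← sub_smul, ← add_smul]
    congr 1
    unfold covB
    ring
  have h3 := he'.coef_sum (hτ hy) fun l => covB e e' τ σ y j k l - covB e e' τ σ y k j l
  rw [h2, he'.coef_sum (hτ hy)] at h3
  rw [← Finset.sum_sub_distrib]
  have h4 := cov_col hs (fun a => cst e j k a y) m
  simp only [smul_eq_mul] at h4
  rw [← h4]
  refine Finset.sum_congr rfl fun l _ => ?_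
  rw [congrFun h3 l, mul_sub]

/-- Transformation law of the Levi-Civita connection. -/
theorem Lift.gam_eq (h : Lift p e e' U τ σ) (hU : IsOpen U) (hU' : IsOpen U') (he : IsFr e U)
    (he' : IsFr e' U') (hτ : MapsTo τ U U') (hy : y ∈ U) (j k m : Fin n) :
    gam e j k m y = ∑ l, rmat (σ y) l m * (der e j (fun z => rmat (σ z) l k) y +
      ∑ i, ∑ q, rmat (σ y) i j * rmat (σ y) q k * gam e' i q l (τ y)) := by
  change gam e j k m y = ∑ l, rmat (σ y) l m * covB e e' τ σ y j k l
  have t1 := cov_tors h hU hU' he he' hτ hy j k m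
  have t2 := cov_tors h hU hU' he he' hτ hy k m j
  have t3 := cov_tors h hU hU' he he' hτ hy m j k
  have s1 := cov_skew h hU hy j k m
  have s2 := cov_skew h hU hy k m j
  have s3 := cov_skew h hU hy m j k
  unfold gam
  linarith

theorem cov_der_mul {f g : E n → Cl n} (hf : DifferentiableAt ℝ f y) (hg : DifferentiableAt ℝ g y)
    (j : Fin n) : der e j (fun z => f z * g z) y = der e j f y * g y + f y * der e j g y :=
  fderiv_clmul hf hg _

theorem cov_der_smul (c : ℝ) {f : E n → Cl n} (hf : DifferentiableAt ℝ f y) (j : Fin n) :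
    der e j (fun z => c • f z) y = c • der e j f y := by
  unfold der
  rw [fderiv_fun_const_smul hf]
  rfl

theorem cov_diff_star {f : E n → Cl n} (hf : ContDiffOn ℝ ∞ f U) (hU : IsOpen U) (hy : y ∈ U) :
    DifferentiableAt ℝ (fun z => star (f z)) y :=
  cov_diff hf.clstar hU hy

/-- Transformation law of the spin connection form. -/
theorem Lift.omg_eq (h : Lift p e e' U τ σ) (hU : IsOpen U) (hU' : IsOpen U') (he : IsFr e U)
    (he' : IsFr e' U') (hτ : MapsTo τ U U') (hy : y ∈ U) (j : Fin n) :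
    der e j σ y + (∑ i, rmat (σ y) i j • omg e' i (τ y)) * σ y = σ y * omg e j y := by
  obtain ⟨hs, hi, -⟩ := h.2.2 y hy
  have hp := cov_p_sq h hy
  have hσd := cov_diff h.2.1 hU hy
  have hr : ∀ l k, DifferentiableAt ℝ (fun z => rmat (σ z) l k) y := fun l k =>
    cov_diff (contDiffOn_rmat h.2.1 l k) hU hy
  have hss := pinGroup.star_mul_self_of_mem hs
  have hss' := pinGroup.mul_star_self_of_mem hs
  -- parity of the derivative
  have hids : involute (der e j σ y) = p • der e j σ y := by
    rw [← cov_der_smul p hσd, der, ← fderiv_clinvolute hσd]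
    refine der_congr (e := e) ?_ j
    filter_upwards [hU.mem_nhds hy] with z hz
    exact (h.2.2 z hz).2.1
  -- derivative of unitarity
  have hun : star (der e j σ y) * σ y + star (σ y) * der e j σ y = 0 := by
    have h1 : der e j (fun z => star (σ z) * σ z) y = 0 := by
      rw [← cov_der_const (e := e) (y := y) (1 : Cl n) j]
      refine der_congr ?_ j
      filter_upwards [hU.mem_nhds hy] with z hz
      exact pinGroup.star_mul_self_of_mem (h.2.2 z hz).1
    rw [cov_der_mul (cov_diff_star h.2.1 hU hy) hσd] at h1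
    rw [← h1, der, der, fderiv_clstar hσd]
  -- derivative of the twisted action
  have htw : ∀ k, (∑ l, der e j (fun z => rmat (σ z) l k) y • cl l) * σ y
      + (∑ l, rmat (σ y) l k • cl l) * der e j σ y = p • (der e j σ y * cl k) := by
    intro k
    have hV : DifferentiableAt ℝ (fun z => ∑ l, rmat (σ z) l k • cl l) y :=
      DifferentiableAt.fun_sum fun l _ => (hr l k).smul_const _
    have h1 : der e j (fun z => (∑ l, rmat (σ z) l k • cl l) * σ z) y
        = der e j (fun z => p • (σ z * cl k)) y := by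
      refine der_congr ?_ j
      filter_upwards [hU.mem_nhds hy] with z hz
      exact cov_twist h hz k
    rw [cov_der_mul hV hσd, cov_der_smul p (hσd.clmul (differentiableAt_const _)),
      cov_der_mul hσd (differentiableAt_const _), cov_der_const, mul_zero, add_zero,
      cov_der_sum (b := fun l _ => cl l) (fun l => hr l k)
        (fun l => differentiableAt_const _)] at h1
    simpa only [cov_der_const, smul_zero, add_zero] using h1
  -- the commutator identity
  have hcomm : ∀ k, ∑ m, gam e j k m y • ∑ l, rmat (σ y) l m • cl l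
      = (∑ l, der e j (fun z => rmat (σ z) l k) y • cl l)
        + ((∑ i, rmat (σ y) i j • omg e' i (τ y)) * (∑ l, rmat (σ y) l k • cl l)
          - (∑ l, rmat (σ y) l k • cl l) * (∑ i, rmat (σ y) i j • omg e' i (τ y))) := by
    intro k
    have h1 : ∑ m, gam e j k m y • ∑ l, rmat (σ y) l m • cl l
        = ∑ l, covB e e' τ σ y j k l • cl l := by
      simp only [Finset.smul_sum, smul_smul]
      rw [Finset.sum_comm]
      refine Finset.sum_congr rfl fun l _ => ?_
      rw [← Finset.sum_smul]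
      congr 1
      have h2 := cov_row hs (fun l => covB e e' τ σ y j k l) l
      simp only [smul_eq_mul] at h2
      rw [← h2]
      refine Finset.sum_congr rfl fun m _ => ?_
      rw [h.gam_eq hU hU' he he' hτ hy j k m, mul_comm]
      rfl
    have h2 : (∑ i, rmat (σ y) i j • omg e' i (τ y)) * (∑ l, rmat (σ y) l k • cl l)
          - (∑ l, rmat (σ y) l k • cl l) * (∑ i, rmat (σ y) i j • omg e' i (τ y))
        = ∑ i, ∑ q, (rmat (σ y) i j * rmat (σ y) q k) • ∑ l, gam e' i q l (τ y) • cl l := by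
      rw [Finset.sum_mul_sum, Finset.sum_mul_sum]
      conv_lhs => rw [Finset.sum_comm (f := fun l i =>
        rmat (σ y) l k • cl l * rmat (σ y) i j • omg e' i (τ y))]
      rw [← Finset.sum_sub_distrib]
      refine Finset.sum_congr rfl fun i _ => ?_
      rw [← Finset.sum_sub_distrib]
      refine Finset.sum_congr rfl fun q _ => ?_
      rw [← omg_mul_cl, smul_mul_smul_comm, smul_mul_smul_comm, smul_sub,
        mul_comm (rmat (σ y) q k)]
    rw [h1, h2]
    unfold covB
    simp only [add_smul, Finset.sum_add_distrib, Finset.sum_smul, Finset.smul_sum, smul_smul]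
    congr 1
    rw [Finset.sum_comm]
    refine Finset.sum_congr rfl fun i _ => ?_
    rw [Finset.sum_comm]
  have hiW : involute (∑ i, rmat (σ y) i j • omg e' i (τ y))
      = ∑ i, rmat (σ y) i j • omg e' i (τ y) := by
    simp only [map_sum, map_smul, involute_omg]
  have hsW : star (∑ i, rmat (σ y) i j • omg e' i (τ y))
      = -∑ i, rmat (σ y) i j • omg e' i (τ y) := by
    simp only [star_sum, CliffordAlgebra.star_smul, star_omg, smul_neg, Finset.sum_neg_distrib]
  have hV := fun k => cov_twist h hy k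
  have hom := fun k => omg_mul_cl e j k y
  have hiom := involute_omg e j y
  have hsom := star_omg e j y
  generalize (∑ i, rmat (σ y) i j • omg e' i (τ y)) = W at *
  generalize der e j σ y = ds at *
  generalize omg e j y = om at *
  have hX : star (σ y) * (ds + W * σ y) - om = 0 := by
    refine eq_zero_of_comm_of_skew ?_ ?_ ?_
    · rw [map_sub, map_mul, map_add, map_mul, hids, hiW, hi, hiom, ← star_involute, hi,
        CliffordAlgebra.star_smul, mul_smul_comm, ← smul_add, smul_mul_smul_comm, hp, one_smul]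
    · intro k
      have h1 : p • (σ y * (cl k * (star (σ y) * (ds + W * σ y) - om)))
          = p • (σ y * ((star (σ y) * (ds + W * σ y) - om) * cl k)) := by
        have a1 : σ y * (star (σ y) * (ds + W * σ y) - om) = ds + W * σ y - σ y * om := by
          rw [mul_sub, ← mul_assoc, hss', one_mul]
        have a2 : p • (σ y * (om * cl k - cl k * om))
            = (∑ m, gam e j k m y • ∑ l, rmat (σ y) l m • cl l) * σ y := by
          rw [hom, Finset.mul_sum, Finset.smul_sum, Finset.sum_mul]
          refine Finset.sum_congr rfl fun m _ => ?_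
          rw [smul_mul_assoc, hV, mul_smul_comm, smul_comm]
        rw [hcomm] at a2
        have a3 := htw k
        have a4 := hV k
        generalize (∑ l, rmat (σ y) l k • cl l) = V at *
        generalize (∑ l, der e j (fun z => rmat (σ z) l k) y • cl l) = dV at *
        rw [← mul_assoc, ← smul_mul_assoc, ← a4, mul_assoc, a1, ← mul_assoc, a1]
        have a5 : p • ((ds + W * σ y - σ y * om) * cl k)
            = p • (ds * cl k) + W * (p • (σ y * cl k)) - p • (σ y * (om * cl k - cl k * om))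
              - p • (σ y * cl k) * om := by
          simp only [sub_mul, add_mul, mul_sub, smul_sub, smul_add, mul_smul_comm, smul_mul_assoc,
            mul_assoc]
          abel
        rw [a5, ← a3, a2, ← a4]
        noncomm_ring
      have h2 := congrArg (fun x => p • (star (σ y) * x)) h1
      simpa only [mul_smul_comm, smul_smul, hp, one_smul, ← mul_assoc, hss, one_mul] using h2
    · rw [star_sub, star_mul, star_add, star_mul, star_star, hsW, hsom]
      have : star ds * σ y = -(star (σ y) * ds) := eq_neg_of_add_eq_zero_left hun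
      rw [add_mul, this]
      noncomm_ring
  have h3 := congrArg (fun x => σ y * x) hX
  simp only [mul_sub, ← mul_assoc, hss', one_mul, mul_zero] at h3
  exact sub_eq_zero.1 h3

theorem Lift.nab_eq (h : Lift p e e' U τ σ) (hU : IsOpen U) (hU' : IsOpen U') (he : IsFr e U)
    (he' : IsFr e' U') (hτ : MapsTo τ U U') (hy : y ∈ U) (hψ' : DifferentiableAt ℝ ψ' (τ y))
    (hψ : DifferentiableAt ℝ ψ y) (heq : ∀ᶠ z in 𝓝 y, ψ' (τ z) = σ z * ψ z) (i : Fin n) :
    nab e' i ψ' (τ y) = σ y * ∑ j, rmat (σ y) i j • nab e j ψ y := by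
  have hs := (h.2.2 y hy).1
  have hσd := cov_diff h.2.1 hU hy
  rw [SZ.nab_eq, h.der_eq hU hy hψ' i, heq.self_of_nhds,
    ← cov_row hs (fun l => omg e' l (τ y)) i, Finset.sum_mul, Finset.mul_sum,
    ← Finset.sum_add_distrib]
  refine Finset.sum_congr rfl fun j _ => ?_
  rw [smul_mul_assoc, mul_smul_comm, ← smul_add, der_congr heq j, cov_der_mul hσd hψ, SZ.nab_eq,
    mul_add, ← mul_assoc (σ y), ← h.omg_eq hU hU' he he' hτ hy j]
  congr 1
  noncomm_ring

theorem Lift.dirac_eq (h : Lift p e e' U τ σ) (hU : IsOpen U) (hU' : IsOpen U') (he : IsFr e U)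
    (he' : IsFr e' U') (hτ : MapsTo τ U U') (hy : y ∈ U) (hψ' : DifferentiableAt ℝ ψ' (τ y))
    (hψ : DifferentiableAt ℝ ψ y) (heq : ∀ᶠ z in 𝓝 y, ψ' (τ z) = σ z * ψ z) :
    dirac e' ψ' (τ y) = p • (σ y * dirac e ψ y) := by
  unfold dirac
  simp only [h.nab_eq hU hU' he he' hτ hy hψ' hψ heq, Finset.mul_sum, Finset.smul_sum]
  rw [Finset.sum_comm]
  refine Finset.sum_congr rfl fun j _ => ?_
  rw [← mul_assoc, ← smul_mul_assoc, ← cov_twist h hy j, Finset.sum_mul, Finset.sum_mul]
  refine Finset.sum_congr rfl fun i _ => ?_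
  simp only [mul_smul_comm, smul_mul_assoc, mul_assoc]

theorem Lift.inner_nab_eq (h : Lift p e e' U τ σ) (hU : IsOpen U) (hU' : IsOpen U') (he : IsFr e U)
    (he' : IsFr e' U') (hτ : MapsTo τ U U') (hy : y ∈ U) (hψ' : DifferentiableAt ℝ ψ' (τ y))
    (hψ : DifferentiableAt ℝ ψ y) (heq : ∀ᶠ z in 𝓝 y, ψ' (τ z) = σ z * ψ z)
    (hχ' : DifferentiableAt ℝ χ' (τ y)) (hχ : DifferentiableAt ℝ χ y)
    (heq' : ∀ᶠ z in 𝓝 y, χ' (τ z) = σ z * χ z) :
    ∑ i, ⟪nab e' i ψ' (τ y), nab e' i χ' (τ y)⟫ = ∑ j, ⟪nab e j ψ y, nab e j χ y⟫ := by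
  have hs := (h.2.2 y hy).1
  simp only [h.nab_eq hU hU' he he' hτ hy hψ' hψ heq, h.nab_eq hU hU' he he' hτ hy hχ' hχ heq',
    inner_pin_mul hs]
  simp only [sum_inner, real_inner_smul_left]
  rw [Finset.sum_comm]
  refine Finset.sum_congr rfl fun j _ => ?_
  conv_rhs => rw [← cov_col hs (fun l => nab e l χ y) j]
  rw [inner_sum]
  simp only [real_inner_smul_right]

end SZ
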