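import Pool.Agent.P.MP_8db816_gt.SZ.Stretch
import Pool.Agent.P.MP_8db816_gt.SZ.CP

/-! The completion of a manifold with boundary by a half cylinder, and its index. -/

noncomputable section

namespace SZ

open Set CliffordAlgebra Filter Topology
open scoped ContDiff RealInnerProductSpace

variable {m : ℕ} {L : Col m}

open Classical in
/-- The collar coordinate, extended by `ε`. -/
def Col.τ (L : Col m) (y : L.Z.X) : ℝ := if y ∈ L.e.f.target then (L.e.f.symm y).2 else L.ε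

theorem Col.τ_of_mem (L : Col m) {y : L.Z.X} (hy : y ∈ L.e.f.target) :
    L.τ y = (L.e.f.symm y).2 := if_pos hy

theorem Col.τ_of_notMem (L : Col m) {y : L.Z.X} (hy : y ∉ L.e.f.target) : L.τ y = L.ε :=
  if_neg hy

theorem Col.symm_mem (L : Col m) {y : L.Z.X} (hy : y ∈ L.e.f.target) :
    (L.e.f.symm y).1 ∈ L.M.car ∧ (L.e.f.symm y).2 ∈ Ioo 0 L.ε := by
  have h := L.e.f.map_target hy
  rw [L.src] at h
  exact h

theorem Col.τ_apply (L : Col m) {z : L.M.X × ℝ} (hz : z ∈ L.e.f.source) :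
    L.τ (L.e.f z) = z.2 := by
  rw [L.τ_of_mem (L.e.f.map_source hz), L.e.f.left_inv hz]

theorem Col.τ_mem (L : Col m) (y : L.Z.X) : L.τ y ∈ Ioc 0 L.ε := by
  by_cases hy : y ∈ L.e.f.target
  · rw [L.τ_of_mem hy]
    exact Ioo_subset_Ioc_self (L.symm_mem hy).2
  · rw [L.τ_of_notMem hy]
    exact ⟨L.ε_pos, le_rfl⟩

theorem Col.mem_image_iff (L : Col m) {J : Set ℝ} (hJ : J ⊆ Ioo 0 L.ε) (y : L.Z.X) :
    y ∈ L.e.f '' (L.M.car ×ˢ J) ↔ L.τ y ∈ J := by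
  constructor
  · rintro ⟨z, hz, rfl⟩
    have hz' : z ∈ L.e.f.source := by
      rw [L.src]
      exact ⟨hz.1, hJ hz.2⟩
    rw [L.τ_apply hz']
    exact hz.2
  · intro h
    by_cases hy : y ∈ L.e.f.target
    · rw [L.τ_of_mem hy] at h
      exact ⟨L.e.f.symm y, ⟨(L.symm_mem hy).1, h⟩, L.e.f.right_inv hy⟩
    · rw [L.τ_of_notMem hy] at h
      exact absurd (hJ h).2 (lt_irrefl _)

theorem Col.continuousAt_τ (L : Col m) {y : L.Z.X} (hy : y ∈ L.Z.car) : ContinuousAt L.τ y := by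
  by_cases ht : y ∈ L.e.f.target
  · have h₁ : ContinuousAt (fun y => (L.e.f.symm y).2) y :=
      continuous_snd.continuousAt.comp (L.e.f.continuousAt_symm ht)
    refine h₁.congr ?_
    filter_upwards [L.e.f.open_target.mem_nhds ht] with z hz
    exact (L.τ_of_mem hz).symm
  · rw [ContinuousAt, L.τ_of_notMem ht]
    refine tendsto_order.2 ⟨fun a ha => ?_, fun a ha => ?_⟩
    · obtain ⟨δ, hδ₁, hδ₂⟩ := exists_between (max_lt ha L.ε_pos)
      have hδ : δ ∈ Ioo 0 L.ε := ⟨(le_max_right _ _).trans_lt hδ₁, hδ₂⟩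
      have hJ : Ioc 0 δ ⊆ Ioo 0 L.ε := Ioc_subset_Ioo_right hδ₂
      have hy' : y ∈ L.Z.car \ L.e.f '' (L.M.car ×ˢ Ioc 0 δ) := by
        refine ⟨hy, fun h => ?_⟩
        rw [L.mem_image_iff hJ, L.τ_of_notMem ht] at h
        exact absurd h.2 (not_le.2 hδ₂)
      filter_upwards [(L.opn δ hδ).mem_nhds hy'] with z hz
      have h₂ := hz.2
      rw [L.mem_image_iff hJ] at h₂
      have h₃ : δ < L.τ z := lt_of_not_ge fun h => h₂ ⟨(L.τ_mem z).1, h⟩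
      exact ((le_max_left _ _).trans_lt hδ₁).trans h₃
    · exact Eventually.of_forall fun z => (L.τ_mem z).2.trans_lt ha

theorem Col.neck (L : Col m) : IsNeck L.e L.τ (Ioo 0 L.ε) where
  cont y hy := (L.continuousAt_τ hy).continuousWithinAt
  src := L.src.ge
  val x hx t ht := L.τ_apply (z := (x, t)) (L.src.ge ⟨hx, ht⟩)
  surj y _ ht := by
    by_cases hy : y ∈ L.e.f.target
    · refine ⟨(L.e.f.symm y).1, (L.symm_mem hy).1, ?_⟩
      rw [L.τ_of_mem hy]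
      exact L.e.f.right_inv hy
    · rw [L.τ_of_notMem hy] at ht
      exact absurd ht.2 (lt_irrefl _)

theorem Col.τ_pos (L : Col m) (y : L.Z.X) : 0 < L.τ y := (L.τ_mem y).1

theorem Col.τ_le (L : Col m) (y : L.Z.X) : L.τ y ≤ L.ε := (L.τ_mem y).2

theorem isCompact_Ici_of_le {n : ℕ} {Y : Atl n} {τ : Y.X → ℝ} (hτ : ContinuousOn τ Y.car)
    {r s : ℝ} (hrs : r ≤ s) (h : IsCompact (Y.car ∩ τ ⁻¹' Ici r)) :
    IsCompact (Y.car ∩ τ ⁻¹' Ici s) := by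
  have h₁ : IsClosed ((Y.car ∩ τ ⁻¹' Ici r) ∩ τ ⁻¹' Ici s) :=
    (hτ.mono inter_subset_left).preimage_isClosed_of_isClosed h.isClosed isClosed_Ici
  have h₂ := h.of_isClosed_subset h₁ inter_subset_left
  have h₃ : (Y.car ∩ τ ⁻¹' Ici r) ∩ τ ⁻¹' Ici s = Y.car ∩ τ ⁻¹' Ici s :=
    Subset.antisymm (fun _ hy => ⟨hy.1.1, hy.2⟩) fun _ hy => ⟨⟨hy.1, hrs.trans hy.2⟩, hy.2⟩
  exact h₃ ▸ h₂

theorem Col.isCompact_Ici (L : Col m) {δ : ℝ} (hδ : 0 < δ) :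
    IsCompact (L.Z.car ∩ L.τ ⁻¹' Ici δ) := by
  have h₁ : min δ (L.ε / 2) ∈ Ioo 0 L.ε :=
    ⟨lt_min hδ (half_pos L.ε_pos), (min_le_right _ _).trans_lt (half_lt_self L.ε_pos)⟩
  refine isCompact_Ici_of_le L.neck.cont (min_le_left δ (L.ε / 2)) ?_
  have hJ : Ioo 0 (min δ (L.ε / 2)) ⊆ Ioo 0 L.ε := Ioo_subset_Ioo_right h₁.2.le
  have h₂ : L.Z.car \ L.e.f '' (L.M.car ×ˢ Ioo 0 (min δ (L.ε / 2))) =
      L.Z.car ∩ L.τ ⁻¹' Ici (min δ (L.ε / 2)) := by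
    ext y
    rw [mem_diff, L.mem_image_iff hJ]
    exact and_congr_right fun _ =>
      ⟨fun h => le_of_not_gt fun h' => h ⟨L.τ_pos y, h'⟩, fun h h' => absurd h'.2 (not_lt.2 h)⟩
  exact h₂ ▸ L.cptZ _ h₁

theorem Col.isCompact_of_closed (L : Col m) (h : L.M.car = ∅) : IsCompact L.Z.car := by
  have h₁ := L.cptZ (L.ε / 2) ⟨half_pos L.ε_pos, half_lt_self L.ε_pos⟩
  rwa [h, empty_prod, image_empty, diff_empty] at h₁

/-- `Y` is obtained from `L` by attaching a half cylinder. -/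
structure Cpl (L : Col m) where
  Y : Atl (m + 1)
  b : Emb (cyl L.M) Y
  τ : Y.X → ℝ
  ι : Emb L.Z Y
  γ : ℝ
  β : ℝ
  pos : 0 < γ
  lt : γ < β
  le : β ≤ L.ε
  par : b.p = 1
  neck : IsNeck b τ (Iio β)
  mat : Match ι L.e L.τ b τ (Ioo γ β) (Ioi γ)

theorem Col.exists_cpl (L : Col m) {γ β : ℝ} (h₀ : 0 < γ) (h₁ : γ < β) (h₂ : β ≤ L.ε) :
    ∃ C : Cpl L, C.γ = γ ∧ C.β = β := by
  obtain ⟨Y, b, τ, ι, hb, hn, hm⟩ := (L.neck.mono (Ioo_subset_Ioo_right h₂)).stretch_left h₀ h₁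
  exact ⟨⟨Y, b, τ, ι, γ, β, h₀, h₁, h₂, hb.trans L.par, hn, hm⟩, rfl, rfl⟩

instance : Nonempty (Cpl L) :=
  let ⟨C, _⟩ := L.exists_cpl (half_pos L.ε_pos) (half_lt_self L.ε_pos) le_rfl
  ⟨C⟩

theorem Cpl.ι_p (C : Cpl L) : C.ι.p = 1 := by
  rw [C.mat.par, L.par, C.par, one_mul]

theorem Cpl.neck_L (C : Cpl L) : IsNeck L.e L.τ (Ioo C.γ C.β) :=
  L.neck.mono (Ioo_subset_Ioo C.pos.le C.le)

theorem Cpl.neck_Y (C : Cpl L) : IsNeck C.b C.τ (Ioo C.γ C.β) := C.neck.mono Ioo_subset_Iio_self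

theorem Cpl.mat_shrink (C : Cpl L) {T : Set ℝ} (h₁ : T ⊆ Ioi C.γ) (h₂ : Ici C.β ⊆ T) :
    Match C.ι L.e L.τ C.b C.τ (Ioo C.γ C.β) T :=
  C.mat.shrink C.neck_L C.neck_Y h₁ fun _ ht => h₂ (le_of_not_gt fun h => ht.2 ⟨ht.1, h⟩)

theorem Cpl.isCompact_Ici (C : Cpl L) (r : ℝ) : IsCompact (C.Y.car ∩ C.τ ⁻¹' Ici r) := by
  obtain ⟨s, hs₁, hs₂⟩ := exists_between C.lt
  refine isCompact_Ici_of_le C.neck.cont (min_le_left r s) ?_
  have h₁ : IsCompact (C.Y.car ∩ C.τ ⁻¹' Ici s) :=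
    (C.mat_shrink (Ici_subset_Ioi.2 hs₁) (Ici_subset_Ici.2 hs₂.le)).isCompact
      (L.isCompact_Ici (C.pos.trans hs₁))
  have h₂ : IsCompact (C.Y.car ∩ C.τ ⁻¹' Icc (min r s) s) :=
    C.neck.isCompact L.cptM isCompact_Icc fun _ ht => ht.2.trans_lt hs₂
  have h₃ := h₂.union h₁
  rwa [← inter_union_distrib_left, ← preimage_union, Icc_union_Ici_eq_Ici (min_le_right r s)] at h₃

theorem Cpl.complete (C : Cpl L) : C.Y.Complete :=
  C.neck.complete_left L.cptM C.lt (C.isCompact_Ici C.γ)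

theorem Cpl.good (C : Cpl L) (hp : L.M.Psc univ) (G : Gr (m + 1)) : C.Y.Good G 0 := by
  obtain ⟨c, hc, h⟩ := C.neck.scal_ge L.cptM hp
  exact good_zero_iff.2 ⟨C.complete, _, c, C.isCompact_Ici C.β, inter_subset_left, hc,
    fun y hy hK => h y hy (mem_Iio.2 (lt_of_not_ge fun h' => hK ⟨hy, h'⟩))⟩

theorem Cpl.index_eq_of_le (C C' : Cpl L) (hγ : C'.γ ≤ C.γ) (hβ : C.β ≤ C'.β)
    (hp : L.M.Psc univ) (G : Gr (m + 1)) : C.Y.index G 0 = C'.Y.index G 0 := by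
  have hj : Match (C'.ι.comp C.ι.symm) C.b C.τ C'.b C'.τ (Ioo C.γ C.β) (Ioi C.γ) :=
    C.mat.symm.trans ((C'.mat_shrink (Ioi_subset_Ioi hγ)
      (Ici_subset_Ioi.2 (C.lt.trans_le hβ))).mono (Ioo_subset_Ioo hγ hβ))
  have h := neck_cut L.cptM C.lt C.neck_Y (isNeck_cyl L.M _) (C'.neck.mono (Iio_subset_Iio hβ))
    (C.neck.match_cyl Ioo_subset_Iio_self).symm hj (C.good hp G) (good_cyl_psc L.cptM hp G).1
    (C'.good hp G) (good_cyl_psc L.cptM hp G).1 (fun _ _ _ => rfl) (fun _ _ _ => rfl)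
    (fun _ _ _ => rfl) (fun _ _ _ => rfl)
  rw [C.par, C'.par, Emb.id_p] at h
  linarith

theorem Cpl.index_eq_index (C C' : Cpl L) (hp : L.M.Psc univ) (G : Gr (m + 1)) :
    C.Y.index G 0 = C'.Y.index G 0 := by
  obtain ⟨D, hγ, hβ⟩ := L.exists_cpl (lt_min C.pos C'.pos)
    ((min_le_left _ _).trans_lt (C.lt.trans_le C.le)) le_rfl
  exact (C.index_eq_of_le D (hγ ▸ min_le_left _ _) (hβ ▸ C.le) hp G).trans
    (C'.index_eq_of_le D (hγ ▸ min_le_right _ _) (hβ ▸ C'.le) hp G).symm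

/-- The index of a manifold whose boundary has positive scalar curvature. -/
def Col.ind (L : Col m) (G : Gr (m + 1)) : ℝ := (Classical.arbitrary (Cpl L)).Y.index G 0

theorem Cpl.index_eq (C : Cpl L) (hp : L.M.Psc univ) (G : Gr (m + 1)) :
    C.Y.index G 0 = L.ind G := C.index_eq_index _ hp G

theorem Col.ind_closed (L : Col m) (h : L.M.car = ∅) (G : Gr (m + 1)) :
    L.ind G = L.Z.index G 0 := by
  have hp : L.M.Psc univ := fun a x hx _ =>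
    absurd (L.M.source_subset a hx) (by rw [h]; exact notMem_empty x)
  have hn : IsNeck L.e L.τ (Iio L.ε) :=
    { cont := L.neck.cont
      src := by rw [h, empty_prod]; exact empty_subset _
      val := fun x hx => absurd hx (by rw [h]; exact notMem_empty x)
      surj := fun y hy ht => L.neck.surj y hy ⟨L.τ_pos y, ht⟩ }
  exact (Cpl.index_eq ⟨L.Z, L.e, L.τ, Emb.id _, L.ε / 2, L.ε, half_pos L.ε_pos,
    half_lt_self L.ε_pos, le_rfl, L.par, hn,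
    (hn.mono Ioo_subset_Iio_self).match_id _⟩ hp G).symm

end SZ
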