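import Pool.Agent.P.MP_8db816_gt.SZ.Symm
import Pool.Agent.P.MP_8db816_gt.SZ.EuRellich
import Pool.Agent.P.MP_8db816_gt.SZ.AbsESA

/-! Local compactness of the Dirac operator (Rellich). -/

noncomputable section

namespace SZ

open Set CliffordAlgebra Filter Topology MeasureTheory Atl.Sec
open scoped ContDiff RealInnerProductSpace

variable {n : ℕ} {M : Atl n}

theorem cpt_tb {α β : Type} [PseudoMetricSpace β] (f : α → β) (B : Set α)
    (h : ∀ ε > 0, ∃ t : Set α, t.Finite ∧ ∀ x ∈ B, ∃ y ∈ t, dist (f x) (f y) < ε) :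
    TotallyBounded (f '' B) := by
  refine Metric.totallyBounded_iff.2 fun ε hε => ?_
  obtain ⟨t, ht, h'⟩ := h ε hε
  refine ⟨f '' t, ht.image f, ?_⟩
  rintro _ ⟨x, hx, rfl⟩
  obtain ⟨y, hy, hxy⟩ := h' x hx
  exact mem_biUnion (mem_image_of_mem f hy) hxy

theorem GCpt.of_le {C C' C'' : Type} [NormedAddCommGroup C] [InnerProductSpace ℝ C]
    [NormedAddCommGroup C'] [InnerProductSpace ℝ C'] [NormedAddCommGroup C'']
    [InnerProductSpace ℝ C''] {D : C →ₗ[ℝ] C} {T : C →ₗ[ℝ] C'} (h : GCpt D T) {S : C →ₗ[ℝ] C''}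
    {c : ℝ} (hS : ∀ x, ‖S x‖ ≤ c * ‖T x‖) : GCpt D S := by
  refine cpt_tb S _ fun ε hε => ?_
  have hc : 0 < |c| + 1 := by positivity
  obtain ⟨t, ht, h1, h2⟩ := exists_subset_image_finite_and.1
    (Metric.finite_approx_of_totallyBounded h (ε / (|c| + 1)) (div_pos hε hc))
  refine ⟨t, h1, fun x hx => ?_⟩
  obtain ⟨_, ⟨y, hy, rfl⟩, hxy⟩ := mem_iUnion₂.1 (h2 (mem_image_of_mem T hx))
  refine ⟨y, hy, ?_⟩
  rw [Metric.mem_ball, dist_eq_norm, ← map_sub, lt_div_iff₀ hc] at hxy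
  rw [dist_eq_norm, ← map_sub]
  have h3 := hS (x - y)
  have h4 := norm_nonneg (T (x - y))
  have h5 := mul_le_mul_of_nonneg_right (le_abs_self c) h4
  nlinarith

theorem GCpt.smul_left {C C' : Type} [NormedAddCommGroup C] [InnerProductSpace ℝ C]
    [NormedAddCommGroup C'] [InnerProductSpace ℝ C'] {D : C →ₗ[ℝ] C} {T : C →ₗ[ℝ] C'}
    (h : GCpt D T) {p : ℝ} (hp : p = 1 ∨ p = -1) : GCpt (p • D) T := by
  refine TotallyBounded.subset (image_mono ?_) h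
  rintro ψ ⟨h1, h2⟩
  refine ⟨h1, ?_⟩
  rcases hp with rfl | rfl
  · simpa using h2
  · simpa using h2

theorem cpt_bound {K : Set M.X} (hK : IsCompact K) (hKM : K ⊆ M.car) {f : M.X → ℝ}
    (hf : ContinuousOn f M.car) (h0 : ∀ x ∈ M.car, x ∉ K → f x = 0) :
    ∃ c : ℝ, 0 ≤ c ∧ ∀ x ∈ M.car, |f x| ≤ c := by
  obtain ⟨c, hc⟩ := hK.exists_bound_of_continuousOn (hf.mono hKM)
  refine ⟨|c|, abs_nonneg c, fun x hx => ?_⟩
  by_cases hxK : x ∈ K
  · exact (hc x hxK).trans (le_abs_self c)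
  · rw [h0 x hx hxK, abs_zero]
    exact abs_nonneg c

theorem gcpt_mul_chart {η : M.X → ℝ} (hη : M.Sm η) {K : Set M.X} (hK : IsCompact K) {a : M.A}
    (hKa : K ⊆ (M.φ a).source) (h0 : ∀ x ∈ M.car, x ∉ K → η x = 0) : GCpt M.Dir (M.mul η) := by
  have hKM : K ⊆ M.car := hKa.trans (M.source_subset a)
  obtain ⟨c0, hc0, hb0⟩ := cpt_bound hK hKM hη.continuousOn h0
  obtain ⟨c1, hc1, hb1⟩ := cpt_bound hK hKM hη.continuousOn_gn fun x hx hxK => by
    rw [← M.gn_zero x]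
    refine Atl.gn_congr ?_
    filter_upwards [M.isOpen_car.mem_nhds hx, hK.isClosed.isOpen_compl.mem_nhds hxK] with y h1 h2
    exact h0 y h1 h2
  have hsup : ∀ ψ : M.Sec, (M.mul η ψ).Sup K := fun ψ x hx => by
    by_cases hxM : x ∈ M.car
    · rw [ev_mul hη, h0 x hxM hx, zero_smul]
    · exact ev_of_notMem _ hxM
  obtain ⟨C, hC, hC'⟩ := norm_loc_equiv hK hKa
  obtain ⟨G, hG, hG'⟩ := garding hK hKa
  refine cpt_tb _ _ fun ε hε => ?_
  have hδ : 0 < ε ^ 2 / (2 * C) := by positivity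
  obtain ⟨t, -, h1, h2⟩ := exists_subset_image_finite_and.1
    (rellich (isCompact_chart_image hK hKa)
      (max (C * c0 ^ 2) (G * (c0 ^ 2 + (c1 + c0) ^ 2))) hδ
      ((fun ψ : M.Sec => (M.mul η ψ).loc a) '' {ψ | ‖ψ‖ ≤ 1 ∧ ‖M.Dir ψ‖ ≤ 1}) (by
        rintro _ ⟨ψ, ⟨a1, a2⟩, rfl⟩
        have b1 : ‖M.mul η ψ‖ ≤ c0 :=
          (norm_mul_le hη hc0 hb0 ψ).trans (mul_le_of_le_one_right hc0 a1)
        have b2 : ‖M.Dir (M.mul η ψ)‖ ≤ c1 + c0 := by
          rw [dir_mul hη]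
          refine (norm_add_le _ _).trans (add_le_add ?_ ?_)
          · exact (norm_gr_le hη hc1 (fun x hx => (le_abs_self _).trans (hb1 x hx)) ψ).trans
              (mul_le_of_le_one_right hc1 a1)
          · exact (norm_mul_le hη hc0 hb0 _).trans (mul_le_of_le_one_right hc0 a2)
        have b3 := pow_le_pow_left₀ (norm_nonneg _) b1 2
        have b4 := pow_le_pow_left₀ (norm_nonneg _) b2 2
        refine ⟨contDiff_loc (hsup ψ) hK hKa, fun y hy => loc_eq_zero (hsup ψ) hy, ?_, fun j => ?_⟩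
        · exact ((hC' _ (hsup ψ)).1.trans (mul_le_mul_of_nonneg_left b3 hC.le)).trans
            (le_max_left _ _)
        · exact ((hG' _ (hsup ψ) j).trans
            (mul_le_mul_of_nonneg_left (add_le_add b3 b4) hG.le)).trans (le_max_right _ _)))
  refine ⟨t, h1, fun ψ hψ => ?_⟩
  obtain ⟨_, ⟨χ, hχ, rfl⟩, h3⟩ := h2 _ (mem_image_of_mem _ hψ)
  refine ⟨χ, hχ, ?_⟩
  have h4 : (M.mul η ψ - M.mul η χ).Sup K := fun x hx => by
    rw [ev_sub, hsup ψ x hx, hsup χ x hx, sub_self]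
  have h5 := (hC' _ h4).2
  rw [loc_sub] at h5
  have h6 := h5.trans (mul_le_mul_of_nonneg_left h3 hC.le)
  have h7 : C * (ε ^ 2 / (2 * C)) = ε ^ 2 / 2 := by field_simp
  rw [h7] at h6
  rw [dist_eq_norm]
  refine lt_of_pow_lt_pow_left₀ 2 hε.le (h6.trans_lt ?_)
  have : 0 < ε ^ 2 := by positivity
  linarith

theorem gcpt_mul {η : M.X → ℝ} (hη : M.Sm η) {K : Set M.X} (hK : IsCompact K) (hKM : K ⊆ M.car)
    (h0 : ∀ x ∈ M.car, x ∉ K → η x = 0) : GCpt M.Dir (M.mul η) := by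
  obtain ⟨s, θ, C, h1, -, h3, h4, h5, h6, -⟩ := M.exists_pou_charts hK hKM
  have h7 : M.mul η = ∑ a ∈ s, M.mul fun x => η x * θ a x := by
    rw [← mul_sum s (η := fun a x => η x * θ a x) fun a _ => hη.mul (h1 a)]
    refine mul_congr fun x hx => ?_
    rw [← Finset.mul_sum]
    by_cases hxK : x ∈ K
    · rw [(h6 x hxK).self_of_nhds, mul_one]
    · rw [h0 x hx hxK, zero_mul]
  rw [h7]
  exact gcpt_sum s _ fun a _ => gcpt_mul_chart (hη.mul (h1 a)) (h3 a) (h4 a) fun x _ hx => by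
    rw [h5 a x hx, mul_zero]

end SZ
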