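import Pool.Agent.P.MP_8db816_gt.SZ.ClAPI

/-! Elementary properties of the local objects of `Loc0`. -/

noncomputable section

namespace SZ

open CliffordAlgebra Filter Topology Set
open scoped RealInnerProductSpace ContDiff

variable {n : ℕ} {e : Fr n} {U : Set (E n)} {y : E n} {ψ χ : E n → Cl n}

/-- The matrix whose columns are the frame vectors. -/
def fmat (e : Fr n) (y : E n) : Matrix (Fin n) (Fin n) ℝ := Matrix.of fun r s => e s y r

/-- The Riemannian density. -/
def dens (e : Fr n) (y : E n) : ℝ := |(fmat e y).det|⁻¹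

/-- The connection form. -/
def omg (e : Fr n) (i : Fin n) (y : E n) : Cl n :=
  (1 / 4 : ℝ) • ∑ j, ∑ k, gam e i j k y • (cl j * cl k)

/-- The gradient of a function as a Clifford element. -/
def grad (e : Fr n) (f : E n → ℝ) (y : E n) : Cl n := vec fun i => der e i f y

theorem LocBasic_contDiffOn_det {A : E n → Matrix (Fin n) (Fin n) ℝ}
    (h : ∀ r s, ContDiffOn ℝ ∞ (fun y => A y r s) U) : ContDiffOn ℝ ∞ (fun y => (A y).det) U := by
  simp only [Matrix.det_apply']
  exact ContDiffOn.sum fun σ _ => contDiffOn_const.mul (contDiffOn_prod fun i _ => h _ _)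

theorem IsFr.LocBasic_entry (he : IsFr e U) (r s : Fin n) :
    ContDiffOn ℝ ∞ (fun y => fmat e y r s) U :=
  contDiffOn_pi.1 (he.1 s) r

theorem LocBasic_mulVec (e : Fr n) (y : E n) (c : Fin n → ℝ) :
    (fmat e y).mulVec c = ∑ i, c i • e i y := by
  funext r
  simp [fmat, Matrix.mulVec, dotProduct, mul_comm]

theorem LocBasic_comm (p q j : Fin n) : cl p * cl q * cl j - cl j * (cl p * cl q) =
    (if p = j then (2 : ℝ) • cl q else 0) - (if q = j then (2 : ℝ) • cl p else 0) := by
  by_cases hp : p = j <;> by_cases hq : q = j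
  · subst hp hq
    simp [mul_assoc]
  · subst hp
    rw [if_pos rfl, if_neg hq, mul_assoc, cl_anticomm hq, mul_neg, ← mul_assoc, cl_mul_self, two_smul]
    noncomm_ring
  · subst hq
    rw [if_pos rfl, if_neg hp, ← mul_assoc (cl q), cl_anticomm (Ne.symm hp), neg_mul, mul_assoc,
      cl_mul_self, two_smul]
    noncomm_ring
  · rw [if_neg hp, if_neg hq, mul_assoc, cl_anticomm hq, mul_neg, ← mul_assoc, cl_anticomm hp,
      neg_mul, neg_neg, mul_assoc, sub_self, sub_self]

theorem IsFr.mono (he : IsFr e U) {V : Set (E n)} (h : V ⊆ U) : IsFr e V :=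
  ⟨fun i => (he.1 i).mono h, fun y hy => he.2 y (h hy)⟩

theorem IsFr.det_ne_zero (he : IsFr e U) (hy : y ∈ U) : (fmat e y).det ≠ 0 := by
  have h : IsUnit (fmat e y) := Matrix.linearIndependent_cols_iff_isUnit.1 (he.2 y hy)
  exact ((Matrix.isUnit_iff_isUnit_det _).1 h).ne_zero

theorem IsFr.dens_pos (he : IsFr e U) (hy : y ∈ U) : 0 < dens e y :=
  inv_pos.2 (abs_pos.2 (he.det_ne_zero hy))

theorem dens_nonneg (e : Fr n) (y : E n) : 0 ≤ dens e y :=
  inv_nonneg.2 (abs_nonneg _)

theorem IsFr.contDiffOn_dens (he : IsFr e U) : ContDiffOn ℝ ∞ (dens e) U := by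
  have h := LocBasic_contDiffOn_det (he.LocBasic_entry)
  exact (h.abs fun y hy => he.det_ne_zero hy).inv fun y hy => abs_ne_zero.2 (he.det_ne_zero hy)

theorem IsFr.contDiffOn_inv (he : IsFr e U) (i j : Fin n) :
    ContDiffOn ℝ ∞ (fun y => (fmat e y)⁻¹ i j) U := by
  have h := LocBasic_contDiffOn_det (he.LocBasic_entry)
  have h2 : ContDiffOn ℝ ∞ (fun y => (fmat e y).adjugate i j) U := by
    simp only [Matrix.adjugate_apply]
    refine LocBasic_contDiffOn_det fun r s => ?_
    simp only [Matrix.updateRow_apply]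
    split_ifs
    · exact contDiffOn_const
    · exact he.LocBasic_entry r s
  have h3 : (fun y => (fmat e y)⁻¹ i j) =
      fun y => ((fmat e y).det)⁻¹ * (fmat e y).adjugate i j := by
    funext y
    rw [Matrix.inv_def, Ring.inverse_eq_inv', Matrix.smul_apply, smul_eq_mul]
  rw [h3]
  exact (h.inv fun y hy => he.det_ne_zero hy).mul h2

/-- Expansion of a vector in the frame. -/
theorem IsFr.eq_sum (he : IsFr e U) (hy : y ∈ U) (v : E n) :
    v = ∑ i, (fmat e y)⁻¹.mulVec v i • e i y := by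
  rw [← LocBasic_mulVec, Matrix.mulVec_mulVec,
    Matrix.mul_nonsing_inv _ (he.det_ne_zero hy).isUnit, Matrix.one_mulVec]

theorem IsFr.coef_sum (he : IsFr e U) (hy : y ∈ U) (c : Fin n → ℝ) :
    (fmat e y)⁻¹.mulVec (∑ i, c i • e i y) = c := by
  rw [← LocBasic_mulVec, Matrix.mulVec_mulVec,
    Matrix.nonsing_inv_mul _ (he.det_ne_zero hy).isUnit, Matrix.one_mulVec]

theorem IsFr.fderiv_eq_sum {F : Type} [NormedAddCommGroup F] [NormedSpace ℝ F] (he : IsFr e U)
    (hy : y ∈ U) (f : E n → F) (v : E n) :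
    fderiv ℝ f y v = ∑ i, (fmat e y)⁻¹.mulVec v i • der e i f y := by
  conv_lhs => rw [he.eq_sum hy v]
  simp only [map_sum, map_smul, der]

theorem der_eq_sum {F : Type} [NormedAddCommGroup F] [NormedSpace ℝ F] (e : Fr n) (i : Fin n)
    (f : E n → F) (y : E n) : der e i f y = ∑ r, e i y r • fderiv ℝ f y (Pi.single r 1) := by
  rw [der]
  conv_lhs => rw [pi_eq_sum_univ' (e i y)]
  simp only [map_sum, map_smul]

theorem IsFr.lieBracket_eq (he : IsFr e U) (hy : y ∈ U) (i j : Fin n) :
    VectorField.lieBracket ℝ (e i) (e j) y = ∑ k, cst e i j k y • e k y :=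
  he.eq_sum hy _

theorem cst_swap (e : Fr n) (i j k : Fin n) (y : E n) : cst e i j k y = -cst e j i k y := by
  rw [cst, cst, VectorField.lieBracket_swap, Matrix.mulVec_neg, Pi.neg_apply]

theorem gam_swap (e : Fr n) (i j k : Fin n) (y : E n) : gam e i j k y = -gam e i k j y := by
  rw [gam, gam, cst_swap e i k j, cst_swap e k j i, cst_swap e j i k]
  ring

theorem gam_sub_gam (e : Fr n) (i j k : Fin n) (y : E n) :
    gam e i j k y - gam e j i k y = cst e i j k y := by
  rw [gam, gam, cst_swap e i k j, cst_swap e k j i, cst_swap e j i k]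
  ring

theorem IsFr.contDiffOn_der {F : Type} [NormedAddCommGroup F] [NormedSpace ℝ F] (he : IsFr e U)
    (hU : IsOpen U) {f : E n → F} (hf : ContDiffOn ℝ ∞ f U) (i : Fin n) :
    ContDiffOn ℝ ∞ (der e i f) U :=
  (hf.fderiv_of_isOpen hU (m := ∞) le_rfl).clm_apply (he.1 i)

theorem IsFr.contDiffOn_cst (he : IsFr e U) (hU : IsOpen U) (i j k : Fin n) :
    ContDiffOn ℝ ∞ (cst e i j k) U := by
  have h : ContDiffOn ℝ ∞ (VectorField.lieBracket ℝ (e i) (e j)) U :=
    (he.contDiffOn_der hU (he.1 j) i).sub (he.contDiffOn_der hU (he.1 i) j)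
  exact ContDiffOn.sum (s := Finset.univ)
    (f := fun r y => (fmat e y)⁻¹ k r * VectorField.lieBracket ℝ (e i) (e j) y r)
    fun r _ => (he.contDiffOn_inv k r).mul (contDiffOn_pi.1 h r)

theorem IsFr.contDiffOn_gam (he : IsFr e U) (hU : IsOpen U) (i j k : Fin n) :
    ContDiffOn ℝ ∞ (gam e i j k) U :=
  (((he.contDiffOn_cst hU i j k).sub (he.contDiffOn_cst hU j k i)).add
    (he.contDiffOn_cst hU k i j)).div_const 2

theorem IsFr.contDiffOn_scal (he : IsFr e U) (hU : IsOpen U) : ContDiffOn ℝ ∞ (scal e) U := by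
  have hg := he.contDiffOn_gam hU
  refine ContDiffOn.sum fun i _ => ContDiffOn.sum fun j _ => ?_
  refine ((he.contDiffOn_der hU (hg j j i) i).sub (he.contDiffOn_der hU (hg i j i) j)).add ?_
  exact ContDiffOn.sum fun m _ => (((hg j j m).mul (hg i m i)).sub ((hg i j m).mul (hg j m i))).sub
    ((he.contDiffOn_cst hU i j m).mul (hg m j i))

theorem IsFr.contDiffOn_omg (he : IsFr e U) (hU : IsOpen U) (i : Fin n) :
    ContDiffOn ℝ ∞ (omg e i) U :=
  ContDiffOn.const_smul _ (ContDiffOn.sum fun j _ => ContDiffOn.sum fun k _ =>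
    (he.contDiffOn_gam hU i j k).smul (contDiffOn_const (c := cl j * cl k)))

theorem IsFr.contDiffOn_nab (he : IsFr e U) (hU : IsOpen U) (hψ : ContDiffOn ℝ ∞ ψ U) (i : Fin n) :
    ContDiffOn ℝ ∞ (nab e i ψ) U :=
  (he.contDiffOn_der hU hψ i).add
    (ContDiffOn.const_smul _ (ContDiffOn.sum fun j _ => ContDiffOn.sum fun k _ =>
      (he.contDiffOn_gam hU i j k).smul (contDiffOn_const.clmul hψ)))

theorem IsFr.contDiffOn_dirac (he : IsFr e U) (hU : IsOpen U) (hψ : ContDiffOn ℝ ∞ ψ U) :
    ContDiffOn ℝ ∞ (dirac e ψ) U :=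
  ContDiffOn.sum fun i _ => contDiffOn_const.clmul (he.contDiffOn_nab hU hψ i)

theorem IsFr.contDiffOn_grad (he : IsFr e U) (hU : IsOpen U) {f : E n → ℝ}
    (hf : ContDiffOn ℝ ∞ f U) : ContDiffOn ℝ ∞ (grad e f) U :=
  (LinearMap.toContinuousLinearMap (vec (n := n))).contDiff.comp_contDiffOn
    (contDiffOn_pi.2 fun i => he.contDiffOn_der hU hf i)

/-- Second derivatives along the frame commute up to the bracket. -/
theorem IsFr.der_der_sub {F : Type} [NormedAddCommGroup F] [NormedSpace ℝ F] (he : IsFr e U)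
    (hU : IsOpen U) (hy : y ∈ U) {f : E n → F} (hf : ContDiffOn ℝ ∞ f U) (i j : Fin n) :
    der e i (der e j f) y - der e j (der e i f) y = ∑ k, cst e i j k y • der e k f y := by
  have hn := hU.mem_nhds hy
  have h1 : ContDiffAt ℝ ∞ f y := hf.contDiffAt hn
  have h2 : DifferentiableAt ℝ (fderiv ℝ f) y :=
    ((hf.fderiv_of_isOpen hU (m := ∞) le_rfl).contDiffAt hn).differentiableAt (by simp)
  have h3 : ∀ j, DifferentiableAt ℝ (e j) y := fun j =>
    ((he.1 j).contDiffAt hn).differentiableAt (by simp)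
  have h4 : ∀ i j, der e i (der e j f) y = fderiv ℝ f y (fderiv ℝ (e j) y (e i y)) +
      fderiv ℝ (fderiv ℝ f) y (e i y) (e j y) := by
    intro i j
    have := fderiv_clm_apply h2 (h3 j)
    change fderiv ℝ (fun z => fderiv ℝ f z (e j z)) y (e i y) = _
    rw [this]
    rfl
  have h5 : IsSymmSndFDerivAt ℝ f y := h1.isSymmSndFDerivAt (by simp; exact ENat.LEInfty.out)
  rw [h4, h4, h5 (e i y) (e j y), add_sub_add_right_eq_sub, ← map_sub]
  change fderiv ℝ f y (VectorField.lieBracket ℝ (e i) (e j) y) = _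
  rw [he.lieBracket_eq hy]
  simp only [map_sum, map_smul, der]

theorem nab_eq (e : Fr n) (i : Fin n) (ψ : E n → Cl n) (y : E n) :
    nab e i ψ y = der e i ψ y + omg e i y * ψ y := by
  simp only [nab, omg, smul_mul_assoc, Finset.sum_mul]

theorem star_omg (e : Fr n) (i : Fin n) (y : E n) : star (omg e i y) = -omg e i y := by
  have h : ∀ j k : Fin n, star (gam e i j k y • (cl j * cl k)) =
      -(gam e i k j y • (cl k * cl j)) := by
    intro j k
    rw [CliffordAlgebra.star_smul, star_mul, star_cl, star_cl, neg_mul_neg, gam_swap e i j k,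
      neg_smul]
  rw [omg, CliffordAlgebra.star_smul, ← smul_neg, star_sum]
  simp only [star_sum, h, Finset.sum_neg_distrib]
  rw [Finset.sum_comm]

theorem involute_omg (e : Fr n) (i : Fin n) (y : E n) : involute (omg e i y) = omg e i y := by
  simp only [omg, map_smul, map_sum, map_mul, involute_cl, neg_mul_neg]

theorem omg_mul_cl (e : Fr n) (i j : Fin n) (y : E n) :
    omg e i y * cl j - cl j * omg e i y = ∑ k, gam e i j k y • cl k := by
  have h : ∀ p q : Fin n, gam e i p q y • (cl p * cl q) * cl j - cl j * gam e i p q y • (cl p * cl q) =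
      (if p = j then (2 * gam e i p q y) • cl q else 0) -
        (if q = j then (2 * gam e i p q y) • cl p else 0) := by
    intro p q
    rw [smul_mul_assoc, mul_smul_comm, ← smul_sub, LocBasic_comm]
    split_ifs <;> simp [smul_sub, smul_smul, mul_comm]
  rw [omg, smul_mul_assoc, mul_smul_comm, ← smul_sub, Finset.sum_mul, Finset.mul_sum,
    ← Finset.sum_sub_distrib]
  simp only [Finset.sum_mul, Finset.mul_sum, ← Finset.sum_sub_distrib, h]
  simp only [Finset.sum_sub_distrib]
  rw [Finset.sum_comm]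
  simp only [Finset.sum_ite_eq', Finset.mem_univ, if_true]
  rw [← Finset.sum_sub_distrib, Finset.smul_sum]
  refine Finset.sum_congr rfl fun k _ => ?_
  rw [gam_swap e i k j]
  module

theorem der_congr {F : Type} [NormedAddCommGroup F] [NormedSpace ℝ F] {f g : E n → F}
    (h : f =ᶠ[𝓝 y] g) (i : Fin n) : der e i f y = der e i g y := by
  rw [der, der, h.fderiv_eq]

theorem nab_congr (h : ψ =ᶠ[𝓝 y] χ) (i : Fin n) : nab e i ψ y = nab e i χ y := by
  rw [nab_eq, nab_eq, der_congr h, h.eq_of_nhds]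

theorem dirac_congr (h : ψ =ᶠ[𝓝 y] χ) : dirac e ψ y = dirac e χ y :=
  Finset.sum_congr rfl fun i _ => by rw [nab_congr h]

theorem grad_congr {f g : E n → ℝ} (h : f =ᶠ[𝓝 y] g) : grad e f y = grad e g y := by
  simp only [grad, der_congr h]

theorem nab_zero (i : Fin n) : nab e i (fun _ => 0) y = 0 := by
  simp [nab_eq, der]

theorem dirac_zero : dirac e (fun _ => 0) y = 0 := by
  simp [dirac, nab_zero]

theorem nab_add (hψ : DifferentiableAt ℝ ψ y) (hχ : DifferentiableAt ℝ χ y) (i : Fin n) :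
    nab e i (fun z => ψ z + χ z) y = nab e i ψ y + nab e i χ y := by
  simp only [nab_eq, der, fderiv_fun_add hψ hχ, add_apply, mul_add]
  abel

theorem dirac_add (hψ : DifferentiableAt ℝ ψ y) (hχ : DifferentiableAt ℝ χ y) :
    dirac e (fun z => ψ z + χ z) y = dirac e ψ y + dirac e χ y := by
  simp only [dirac, nab_add hψ hχ, mul_add, Finset.sum_add_distrib]

theorem nab_const_smul (c : ℝ) (i : Fin n) : nab e i (fun z => c • ψ z) y = c • nab e i ψ y := by
  have h : fderiv ℝ (fun z => c • ψ z) y = c • fderiv ℝ ψ y :=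
    congrFun (fderiv_const_smul_field (f := ψ) c) y
  simp only [nab_eq, der, h, smul_apply, mul_smul_comm, smul_add]

theorem dirac_const_smul (c : ℝ) : dirac e (fun z => c • ψ z) y = c • dirac e ψ y := by
  simp only [dirac, nab_const_smul, mul_smul_comm, Finset.smul_sum]

theorem nab_smul {f : E n → ℝ} (hf : DifferentiableAt ℝ f y) (hψ : DifferentiableAt ℝ ψ y)
    (i : Fin n) : nab e i (fun z => f z • ψ z) y = der e i f y • ψ y + f y • nab e i ψ y := by
  simp only [nab_eq, der, fderiv_fun_smul hf hψ, add_apply,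
    smul_apply, ContinuousLinearMap.smulRight_apply, mul_smul_comm, smul_add]
  abel

theorem dirac_smul {f : E n → ℝ} (hf : DifferentiableAt ℝ f y) (hψ : DifferentiableAt ℝ ψ y) :
    dirac e (fun z => f z • ψ z) y = grad e f y * ψ y + f y • dirac e ψ y := by
  simp only [dirac, nab_smul hf hψ, mul_add, Finset.sum_add_distrib, grad, vec_eq_sum,
    Finset.sum_mul, mul_smul_comm, smul_mul_assoc, Finset.smul_sum]

theorem nab_cl_mul (hψ : DifferentiableAt ℝ ψ y) (i j : Fin n) :
    nab e i (fun z => cl j * ψ z) y = cl j * nab e i ψ y + ∑ k, gam e i j k y • (cl k * ψ y) := by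
  have h := congrArg (· * ψ y) (omg_mul_cl e i j y)
  simp only [sub_mul, Finset.sum_mul, smul_mul_assoc] at h
  rw [nab_eq, nab_eq, der, fderiv_clmul (differentiableAt_const _) hψ, ← h, der]
  simp only [fderiv_fun_const, Pi.zero_apply, zero_apply, zero_mul, zero_add,
    mul_add, mul_assoc]
  abel

theorem nab_anti {T : Cl n →ₗ[ℝ] Cl n} (hT : ∀ i z, T (cl i * z) = -(cl i * T z))
    (hψ : DifferentiableAt ℝ ψ y) (i : Fin n) : nab e i (fun z => T (ψ z)) y = T (nab e i ψ y) := by
  have h : fderiv ℝ (fun z => T (ψ z)) y =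
      (LinearMap.toContinuousLinearMap T).comp (fderiv ℝ ψ y) :=
    ((LinearMap.toContinuousLinearMap T).hasFDerivAt.comp y hψ.hasFDerivAt).fderiv
  rw [nab_eq, nab_eq, map_add, anti_mul hT, involute_omg, der, h]
  rfl

theorem dirac_anti {T : Cl n →ₗ[ℝ] Cl n} (hT : ∀ i z, T (cl i * z) = -(cl i * T z))
    (hψ : DifferentiableAt ℝ ψ y) : dirac e (fun z => T (ψ z)) y = -T (dirac e ψ y) := by
  simp only [dirac, nab_anti hT hψ, map_sum, hT, Finset.sum_neg_distrib, neg_neg]

theorem der_inner (hψ : DifferentiableAt ℝ ψ y) (hχ : DifferentiableAt ℝ χ y) (i : Fin n) :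
    der e i (fun z => ⟪ψ z, χ z⟫) y = ⟪nab e i ψ y, χ y⟫ + ⟪ψ y, nab e i χ y⟫ := by
  rw [der, fderiv_inner_apply ℝ hψ hχ, nab_eq, nab_eq, inner_add_left, inner_add_right,
    inner_mul_left, star_omg, neg_mul, inner_neg_right, der, der]
  ring

theorem norm_grad_sq (e : Fr n) (f : E n → ℝ) (y : E n) :
    ‖grad e f y‖ ^ 2 = ∑ i, der e i f y ^ 2 := by
  have h := norm_vec_mul_sq (fun i => der e i f y) 1
  rwa [mul_one, norm_one_cl, one_pow, mul_one] at h

theorem norm_grad_mul (e : Fr n) (f : E n → ℝ) (y : E n) (z : Cl n) :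
    ‖grad e f y * z‖ = ‖grad e f y‖ * ‖z‖ := by
  refine (pow_left_inj₀ (norm_nonneg _) (by positivity) two_ne_zero).1 ?_
  rw [mul_pow, norm_grad_sq]
  exact norm_vec_mul_sq _ z

theorem grad_mul {f g : E n → ℝ} (hf : DifferentiableAt ℝ f y) (hg : DifferentiableAt ℝ g y) :
    grad e (fun z => f z * g z) y = f y • grad e g y + g y • grad e f y := by
  simp only [grad, ← map_smul, ← map_add]
  congr 1
  funext i
  simp [der, fderiv_fun_mul hf hg]

theorem grad_add {f g : E n → ℝ} (hf : DifferentiableAt ℝ f y) (hg : DifferentiableAt ℝ g y) :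
    grad e (fun z => f z + g z) y = grad e f y + grad e g y := by
  simp only [grad, ← map_add]
  congr 1
  funext i
  simp [der, fderiv_fun_add hf hg]

theorem grad_const (c : ℝ) : grad e (fun _ => c) y = 0 := by
  have h : (fun i => der e i (fun _ => c) y) = 0 := by
    funext i
    simp [der]
  rw [grad, h, map_zero]

theorem grad_comp {f : E n → ℝ} {g : ℝ → ℝ} (hf : DifferentiableAt ℝ f y)
    (hg : DifferentiableAt ℝ g (f y)) :
    grad e (fun z => g (f z)) y = deriv g (f y) • grad e f y := by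
  have h : fderiv ℝ (fun z => g (f z)) y = deriv g (f y) • fderiv ℝ f y :=
    (hg.hasDerivAt.comp_hasFDerivAt y hf.hasFDerivAt).fderiv
  simp only [grad, ← map_smul]
  congr 1
  funext i
  simp [der, h]

end SZ
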