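import Pool.Agent.P.MP_8db816_gt.SZ.LiftAPI
import Pool.Agent.P.MP_8db816_gt.SZ.LocBasic

/-! Local geometry of a product frame. -/

noncomputable section

namespace SZ

open CliffordAlgebra Filter Topology Set
open scoped RealInnerProductSpace ContDiff

variable {a b : ℕ} {e₁ : Fr a} {e₂ : Fr b} {U₁ : Set (E a)} {U₂ : Set (E b)} {z : E (a + b)}

namespace LocProd

/-- `pl` as a continuous linear map. -/
def plL (a b : ℕ) : E (a + b) →L[ℝ] E a :=
  ContinuousLinearMap.pi fun i => ContinuousLinearMap.proj (Fin.castAdd b i)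

/-- `pr` as a continuous linear map. -/
def prL (a b : ℕ) : E (a + b) →L[ℝ] E b :=
  ContinuousLinearMap.pi fun j => ContinuousLinearMap.proj (Fin.natAdd a j)

/-- The inclusion of the first factor. -/
def apL (a b : ℕ) : E a →L[ℝ] E (a + b) :=
  LinearMap.toContinuousLinearMap
    { toFun v := Fin.append v 0
      map_add' v w := by ext i; refine Fin.addCases (fun i => ?_) (fun i => ?_) i <;> simp
      map_smul' c v := by ext i; refine Fin.addCases (fun i => ?_) (fun i => ?_) i <;> simp }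

/-- The inclusion of the second factor. -/
def apR (a b : ℕ) : E b →L[ℝ] E (a + b) :=
  LinearMap.toContinuousLinearMap
    { toFun v := Fin.append 0 v
      map_add' v w := by ext i; refine Fin.addCases (fun i => ?_) (fun i => ?_) i <;> simp
      map_smul' c v := by ext i; refine Fin.addCases (fun i => ?_) (fun i => ?_) i <;> simp }

theorem apL_apply (v : E a) : apL a b v = Fin.append v 0 := rfl

theorem apR_apply (v : E b) : apR a b v = Fin.append 0 v := rfl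

section
variable {F G : Type} [NormedAddCommGroup F] [NormedSpace ℝ F] [NormedAddCommGroup G]
  [NormedSpace ℝ G]

theorem diff_pl {f : E a → F} (hf : DifferentiableAt ℝ f (pl z)) :
    DifferentiableAt ℝ (fun w => f (pl w)) z :=
  DifferentiableAt.comp (f := pl) z hf (plL a b).differentiableAt

theorem diff_pr {g : E b → F} (hg : DifferentiableAt ℝ g (pr z)) :
    DifferentiableAt ℝ (fun w => g (pr w)) z :=
  DifferentiableAt.comp (f := pr) z hg (prL a b).differentiableAt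

theorem fderiv_pl {f : E a → F} (hf : DifferentiableAt ℝ f (pl z)) (v : E (a + b)) :
    fderiv ℝ (fun w => f (pl w)) z v = fderiv ℝ f (pl z) (pl v) := by
  have h : HasFDerivAt (fun w => f (pl w)) ((fderiv ℝ f (pl z)).comp (plL a b)) z :=
    HasFDerivAt.comp (f := pl) z hf.hasFDerivAt (plL a b).hasFDerivAt
  rw [h.fderiv]
  rfl

theorem fderiv_pr {g : E b → F} (hg : DifferentiableAt ℝ g (pr z)) (v : E (a + b)) :
    fderiv ℝ (fun w => g (pr w)) z v = fderiv ℝ g (pr z) (pr v) := by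
  have h : HasFDerivAt (fun w => g (pr w)) ((fderiv ℝ g (pr z)).comp (prL a b)) z :=
    HasFDerivAt.comp (f := pr) z hg.hasFDerivAt (prL a b).hasFDerivAt
  rw [h.fderiv]
  rfl

theorem fderiv_lin {n : ℕ} (T : F →L[ℝ] G) {f : E n → F} {y : E n}
    (hf : DifferentiableAt ℝ f y) (v : E n) :
    fderiv ℝ (fun w => T (f w)) y v = T (fderiv ℝ f y v) := by
  have h : HasFDerivAt (fun w => T (f w)) (T.comp (fderiv ℝ f y)) y :=
    HasFDerivAt.comp y T.hasFDerivAt hf.hasFDerivAt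
  rw [h.fderiv]
  rfl

end

theorem diff_fr {n : ℕ} {e : Fr n} {U : Set (E n)} {y : E n} (he : IsFr e U) (hU : IsOpen U)
    (hy : y ∈ U) (i : Fin n) : DifferentiableAt ℝ (e i) y :=
  ((he.1 i).contDiffAt (hU.mem_nhds hy)).differentiableAt (by simp)

theorem fderiv_left (h₁ : IsFr e₁ U₁) (hU₁ : IsOpen U₁) (hz₁ : pl z ∈ U₁) (i : Fin a)
    (v : E (a + b)) : fderiv ℝ (pfr e₁ e₂ (Fin.castAdd b i)) z v =
      apL a b (fderiv ℝ (e₁ i) (pl z) (pl v)) := by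
  have h : pfr e₁ e₂ (Fin.castAdd b i) = fun w => apL a b (e₁ i (pl w)) :=
    funext fun w => pfr_left e₁ e₂ i w
  rw [h, fderiv_lin _ (diff_pl (diff_fr h₁ hU₁ hz₁ i)), fderiv_pl (diff_fr h₁ hU₁ hz₁ i)]

theorem fderiv_right (h₂ : IsFr e₂ U₂) (hU₂ : IsOpen U₂) (hz₂ : pr z ∈ U₂) (j : Fin b)
    (v : E (a + b)) : fderiv ℝ (pfr e₁ e₂ (Fin.natAdd a j)) z v =
      apR a b (fderiv ℝ (e₂ j) (pr z) (pr v)) := by
  have h : pfr e₁ e₂ (Fin.natAdd a j) = fun w => apR a b (e₂ j (pr w)) :=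
    funext fun w => pfr_right e₁ e₂ j w
  rw [h, fderiv_lin _ (diff_pr (diff_fr h₂ hU₂ hz₂ j)), fderiv_pr (diff_fr h₂ hU₂ hz₂ j)]

theorem cst_of {n : ℕ} {e : Fr n} {U : Set (E n)} {y : E n} (he : IsFr e U) (hy : y ∈ U)
    {i j : Fin n} (c : Fin n → ℝ)
    (h : VectorField.lieBracket ℝ (e i) (e j) y = ∑ k, c k • e k y) (k : Fin n) :
    cst e i j k y = c k := by
  change (fmat e y)⁻¹.mulVec (VectorField.lieBracket ℝ (e i) (e j) y) k = c k
  rw [h, he.coef_sum hy]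

theorem cst_ll (h₁ : IsFr e₁ U₁) (h₂ : IsFr e₂ U₂) (hU₁ : IsOpen U₁)
    (hz₁ : pl z ∈ U₁) (hz₂ : pr z ∈ U₂) (i j : Fin a) (k : Fin (a + b)) :
    cst (pfr e₁ e₂) (Fin.castAdd b i) (Fin.castAdd b j) k z =
      Fin.append (fun k => cst e₁ i j k (pl z)) 0 k := by
  refine cst_of (h₁.prod h₂) ⟨hz₁, hz₂⟩ _ ?_ k
  have h := h₁.lieBracket_eq hz₁ i j
  rw [VectorField.lieBracket] at h ⊢
  rw [fderiv_left h₁ hU₁ hz₁, fderiv_left h₁ hU₁ hz₁, pfr_left, pfr_left, pl_append, pl_append,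
    ← map_sub, h, map_sum, Fin.sum_univ_add]
  simp only [map_smul, apL_apply, Fin.append_left, Fin.append_right, pfr_left, Pi.zero_apply,
    zero_smul, Finset.sum_const_zero, add_zero]

theorem cst_rr (h₁ : IsFr e₁ U₁) (h₂ : IsFr e₂ U₂) (hU₂ : IsOpen U₂)
    (hz₁ : pl z ∈ U₁) (hz₂ : pr z ∈ U₂) (i j : Fin b) (k : Fin (a + b)) :
    cst (pfr e₁ e₂) (Fin.natAdd a i) (Fin.natAdd a j) k z =
      Fin.append 0 (fun k => cst e₂ i j k (pr z)) k := by
  refine cst_of (h₁.prod h₂) ⟨hz₁, hz₂⟩ _ ?_ k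
  have h := h₂.lieBracket_eq hz₂ i j
  rw [VectorField.lieBracket] at h ⊢
  rw [fderiv_right h₂ hU₂ hz₂, fderiv_right h₂ hU₂ hz₂, pfr_right, pfr_right, pr_append,
    pr_append, ← map_sub, h, map_sum, Fin.sum_univ_add]
  simp only [map_smul, apR_apply, Fin.append_left, Fin.append_right, pfr_right, Pi.zero_apply,
    zero_smul, Finset.sum_const_zero, zero_add]

theorem cst_lr (h₁ : IsFr e₁ U₁) (h₂ : IsFr e₂ U₂) (hU₁ : IsOpen U₁) (hU₂ : IsOpen U₂)
    (hz₁ : pl z ∈ U₁) (hz₂ : pr z ∈ U₂) (i : Fin a) (j : Fin b) (k : Fin (a + b)) :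
    cst (pfr e₁ e₂) (Fin.castAdd b i) (Fin.natAdd a j) k z = 0 := by
  refine cst_of (h₁.prod h₂) ⟨hz₁, hz₂⟩ (fun _ => 0) ?_ k
  rw [VectorField.lieBracket, fderiv_left h₁ hU₁ hz₁, fderiv_right h₂ hU₂ hz₂, pfr_left, pfr_right,
    pl_append, pr_append]
  simp

theorem cst_rl (h₁ : IsFr e₁ U₁) (h₂ : IsFr e₂ U₂) (hU₁ : IsOpen U₁) (hU₂ : IsOpen U₂)
    (hz₁ : pl z ∈ U₁) (hz₂ : pr z ∈ U₂) (j : Fin b) (i : Fin a) (k : Fin (a + b)) :
    cst (pfr e₁ e₂) (Fin.natAdd a j) (Fin.castAdd b i) k z = 0 := by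
  rw [cst_swap, cst_lr h₁ h₂ hU₁ hU₂ hz₁ hz₂, neg_zero]

theorem cst_line (i j k : Fin 1) (y : E 1) : cst (fun _ _ _ => (1 : ℝ) : Fr 1) i j k y = 0 := by
  simp [cst, VectorField.lieBracket]

theorem gam_line (i j k : Fin 1) : gam (fun _ _ _ => (1 : ℝ) : Fr 1) i j k = fun _ => 0 := by
  funext y
  simp [gam, cst_line]

theorem der_line {F : Type} [NormedAddCommGroup F] [NormedSpace ℝ F] {g : ℝ → F} {y : E 1}
    (hg : DifferentiableAt ℝ g (y 0)) (i : Fin 1) :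
    der (fun _ _ _ => (1 : ℝ) : Fr 1) i (fun w => g (w 0)) y = deriv g (y 0) := by
  have h : HasFDerivAt (fun w : E 1 => g (w 0))
      ((fderiv ℝ g (y 0)).comp (ContinuousLinearMap.proj (R := ℝ) (φ := fun _ : Fin 1 => ℝ) 0)) y :=
    HasFDerivAt.comp (f := fun w : E 1 => w 0) y hg.hasFDerivAt
      (ContinuousLinearMap.proj (R := ℝ) (φ := fun _ : Fin 1 => ℝ) 0).hasFDerivAt
  rw [der, h.fderiv]
  rfl

end LocProd

open LocProd

section
variable {F : Type} [NormedAddCommGroup F] [NormedSpace ℝ F]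

theorem der_pfr_left_pl {f : E a → F} (hf : DifferentiableAt ℝ f (pl z)) (i : Fin a) :
    der (pfr e₁ e₂) (Fin.castAdd b i) (fun w => f (pl w)) z = der e₁ i f (pl z) := by
  rw [der, der, fderiv_pl hf, pfr_left, pl_append]

theorem der_pfr_right_pl {f : E a → F} (hf : DifferentiableAt ℝ f (pl z)) (j : Fin b) :
    der (pfr e₁ e₂) (Fin.natAdd a j) (fun w => f (pl w)) z = 0 := by
  rw [der, fderiv_pl hf, pfr_right, pl_append, map_zero]

theorem der_pfr_left_pr {g : E b → F} (hg : DifferentiableAt ℝ g (pr z)) (i : Fin a) :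
    der (pfr e₁ e₂) (Fin.castAdd b i) (fun w => g (pr w)) z = 0 := by
  rw [der, fderiv_pr hg, pfr_left, pr_append, map_zero]

theorem der_pfr_right_pr {g : E b → F} (hg : DifferentiableAt ℝ g (pr z)) (j : Fin b) :
    der (pfr e₁ e₂) (Fin.natAdd a j) (fun w => g (pr w)) z = der e₂ j g (pr z) := by
  rw [der, der, fderiv_pr hg, pfr_right, pr_append]

end

theorem grad_pfr_pl {f : E a → ℝ} (hf : DifferentiableAt ℝ f (pl z)) :
    grad (pfr e₁ e₂) (fun w => f (pl w)) z = inl a b (grad e₁ f (pl z)) := by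
  rw [grad, grad, inl_vec]
  congr 1
  funext i
  refine Fin.addCases (fun i => ?_) (fun j => ?_) i
  · rw [der_pfr_left_pl hf, Fin.append_left]
  · rw [der_pfr_right_pl hf, Fin.append_right, Pi.zero_apply]

theorem grad_pfr_pr {g : E b → ℝ} (hg : DifferentiableAt ℝ g (pr z)) :
    grad (pfr e₁ e₂) (fun w => g (pr w)) z = inr a b (grad e₂ g (pr z)) := by
  rw [grad, grad, inr_vec]
  congr 1
  funext i
  refine Fin.addCases (fun i => ?_) (fun j => ?_) i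
  · rw [der_pfr_left_pr hg, Fin.append_left, Pi.zero_apply]
  · rw [der_pfr_right_pr hg, Fin.append_right]

theorem norm_grad_pfr_pl {f : E a → ℝ} (hf : DifferentiableAt ℝ f (pl z)) :
    ‖grad (pfr e₁ e₂) (fun w => f (pl w)) z‖ = ‖grad e₁ f (pl z)‖ := by
  rw [← sq_eq_sq₀ (norm_nonneg _) (norm_nonneg _), norm_grad_sq, norm_grad_sq, Fin.sum_univ_add]
  simp [der_pfr_left_pl hf, der_pfr_right_pl hf]

theorem norm_grad_pfr_pr {g : E b → ℝ} (hg : DifferentiableAt ℝ g (pr z)) :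
    ‖grad (pfr e₁ e₂) (fun w => g (pr w)) z‖ = ‖grad e₂ g (pr z)‖ := by
  rw [← sq_eq_sq₀ (norm_nonneg _) (norm_nonneg _), norm_grad_sq, norm_grad_sq, Fin.sum_univ_add]
  simp [der_pfr_left_pr hg, der_pfr_right_pr hg]

theorem dens_pfr (e₁ : Fr a) (e₂ : Fr b) (z : E (a + b)) :
    dens (pfr e₁ e₂) z = dens e₁ (pl z) * dens e₂ (pr z) := by
  have h : (fmat (pfr e₁ e₂) z).submatrix finSumFinEquiv finSumFinEquiv =
      Matrix.fromBlocks (fmat e₁ (pl z)) 0 0 (fmat e₂ (pr z)) := by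
    ext r s
    rcases r with r | r <;> rcases s with s | s <;> simp [fmat]
  rw [dens, dens, dens, ← Matrix.det_submatrix_equiv_self finSumFinEquiv, h,
    Matrix.det_fromBlocks_zero₂₁, abs_mul, mul_inv]

/-- The Levi-Civita connection of a product: all indices in the first block, all in the second
block, or zero. -/
theorem gam_pfr (h₁ : IsFr e₁ U₁) (h₂ : IsFr e₂ U₂) (hU₁ : IsOpen U₁) (hU₂ : IsOpen U₂)
    (hz₁ : pl z ∈ U₁) (hz₂ : pr z ∈ U₂) (i j k : Fin (a + b)) :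
    gam (pfr e₁ e₂) i j k z =
      Fin.addCases
        (fun i => Fin.addCases (fun j => Fin.addCases (fun k => gam e₁ i j k (pl z)) (fun _ => 0) k)
          (fun _ => 0) j)
        (fun i => Fin.addCases (fun _ => 0)
          (fun j => Fin.addCases (fun _ => 0) (fun k => gam e₂ i j k (pr z)) k) j) i := by
  refine Fin.addCases (fun i => ?_) (fun i => ?_) i <;>
    refine Fin.addCases (fun j => ?_) (fun j => ?_) j <;>
    refine Fin.addCases (fun k => ?_) (fun k => ?_) k <;>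
    simp [gam, cst_ll h₁ h₂ hU₁ hz₁ hz₂, cst_rr h₁ h₂ hU₂ hz₁ hz₂, cst_lr h₁ h₂ hU₁ hU₂ hz₁ hz₂,
      cst_rl h₁ h₂ hU₁ hU₂ hz₁ hz₂]

theorem omg_pfr_left (h₁ : IsFr e₁ U₁) (h₂ : IsFr e₂ U₂) (hU₁ : IsOpen U₁) (hU₂ : IsOpen U₂)
    (hz₁ : pl z ∈ U₁) (hz₂ : pr z ∈ U₂) (i : Fin a) :
    omg (pfr e₁ e₂) (Fin.castAdd b i) z = inl a b (omg e₁ i (pl z)) := by
  simp [omg, Fin.sum_univ_add, gam_pfr h₁ h₂ hU₁ hU₂ hz₁ hz₂, inl_cl]

theorem omg_pfr_right (h₁ : IsFr e₁ U₁) (h₂ : IsFr e₂ U₂) (hU₁ : IsOpen U₁) (hU₂ : IsOpen U₂)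
    (hz₁ : pl z ∈ U₁) (hz₂ : pr z ∈ U₂) (j : Fin b) :
    omg (pfr e₁ e₂) (Fin.natAdd a j) z = inr a b (omg e₂ j (pr z)) := by
  simp [omg, Fin.sum_univ_add, gam_pfr h₁ h₂ hU₁ hU₂ hz₁ hz₂, inr_cl]

theorem scal_pfr (h₁ : IsFr e₁ U₁) (h₂ : IsFr e₂ U₂) (hU₁ : IsOpen U₁) (hU₂ : IsOpen U₂)
    (hz₁ : pl z ∈ U₁) (hz₂ : pr z ∈ U₂) :
    scal (pfr e₁ e₂) z = scal e₁ (pl z) + scal e₂ (pr z) := by
  have hW : ∀ᶠ w in 𝓝 z, pl w ∈ U₁ ∧ pr w ∈ U₂ :=
    ((plL a b).continuous.continuousAt.eventually (hU₁.mem_nhds hz₁)).and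
      ((prL a b).continuous.continuousAt.eventually (hU₂.mem_nhds hz₂))
  have key : ∀ (I i j k : Fin (a + b)) (f : E (a + b) → ℝ),
      (∀ w, pl w ∈ U₁ → pr w ∈ U₂ → gam (pfr e₁ e₂) i j k w = f w) →
      der (pfr e₁ e₂) I (gam (pfr e₁ e₂) i j k) z = der (pfr e₁ e₂) I f z :=
    fun I i j k f hf => der_congr (hW.mono fun w hw => hf w hw.1 hw.2) I
  have d0 : ∀ I, der (pfr e₁ e₂) I (fun _ => (0 : ℝ)) z = 0 := fun I => by simp [der]
  have dl : ∀ l i j k : Fin a, der (pfr e₁ e₂) (Fin.castAdd b l)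
      (gam (pfr e₁ e₂) (Fin.castAdd b i) (Fin.castAdd b j) (Fin.castAdd b k)) z =
      der e₁ l (gam e₁ i j k) (pl z) := fun l i j k => by
    rw [key _ _ _ _ (fun w => gam e₁ i j k (pl w)) fun w h h' => by
      simp [gam_pfr h₁ h₂ hU₁ hU₂ h h']]
    exact der_pfr_left_pl (((h₁.contDiffOn_gam hU₁ i j k).contDiffAt
      (hU₁.mem_nhds hz₁)).differentiableAt (by simp)) l
  have dr : ∀ l i j k : Fin b, der (pfr e₁ e₂) (Fin.natAdd a l)
      (gam (pfr e₁ e₂) (Fin.natAdd a i) (Fin.natAdd a j) (Fin.natAdd a k)) z =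
      der e₂ l (gam e₂ i j k) (pr z) := fun l i j k => by
    rw [key _ _ _ _ (fun w => gam e₂ i j k (pr w)) fun w h h' => by
      simp [gam_pfr h₁ h₂ hU₁ hU₂ h h']]
    exact der_pfr_right_pr (((h₂.contDiffOn_gam hU₂ i j k).contDiffAt
      (hU₂.mem_nhds hz₂)).differentiableAt (by simp)) l
  have m1 : ∀ I (i j : Fin a) (k : Fin b), der (pfr e₁ e₂) I
      (gam (pfr e₁ e₂) (Fin.castAdd b i) (Fin.castAdd b j) (Fin.natAdd a k)) z = 0 :=
    fun I i j k => by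
      rw [key _ _ _ _ (fun _ => 0) fun w h h' => by simp [gam_pfr h₁ h₂ hU₁ hU₂ h h'], d0]
  have m2 : ∀ I (i j : Fin b) (k : Fin a), der (pfr e₁ e₂) I
      (gam (pfr e₁ e₂) (Fin.natAdd a i) (Fin.natAdd a j) (Fin.castAdd b k)) z = 0 :=
    fun I i j k => by
      rw [key _ _ _ _ (fun _ => 0) fun w h h' => by simp [gam_pfr h₁ h₂ hU₁ hU₂ h h'], d0]
  have m3 : ∀ I (i : Fin a) (j : Fin b) k, der (pfr e₁ e₂) I
      (gam (pfr e₁ e₂) (Fin.castAdd b i) (Fin.natAdd a j) k) z = 0 :=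
    fun I i j k => by
      rw [key _ _ _ _ (fun _ => 0) fun w h h' => by simp [gam_pfr h₁ h₂ hU₁ hU₂ h h'], d0]
  have m4 : ∀ I (i : Fin b) (j : Fin a) k, der (pfr e₁ e₂) I
      (gam (pfr e₁ e₂) (Fin.natAdd a i) (Fin.castAdd b j) k) z = 0 :=
    fun I i j k => by
      rw [key _ _ _ _ (fun _ => 0) fun w h h' => by simp [gam_pfr h₁ h₂ hU₁ hU₂ h h'], d0]
  simp only [scal, Fin.sum_univ_add, dl, dr, m1, m2, m3, m4]
  simp [gam_pfr h₁ h₂ hU₁ hU₂ hz₁ hz₂, cst_ll h₁ h₂ hU₁ hz₁ hz₂, cst_rr h₁ h₂ hU₂ hz₁ hz₂,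
    cst_lr h₁ h₂ hU₁ hU₂ hz₁ hz₂, cst_rl h₁ h₂ hU₁ hU₂ hz₁ hz₂]

theorem dirac_pfr (h₁ : IsFr e₁ U₁) (h₂ : IsFr e₂ U₂) (hU₁ : IsOpen U₁) (hU₂ : IsOpen U₂)
    (hz₁ : pl z ∈ U₁) (hz₂ : pr z ∈ U₂) {ψ : E a → Cl a} {χ : E b → Cl b}
    (hψ : DifferentiableAt ℝ ψ (pl z)) (hχ : DifferentiableAt ℝ χ (pr z)) :
    dirac (pfr e₁ e₂) (fun w => inl a b (ψ (pl w)) * inr a b (χ (pr w))) z =
      inl a b (dirac e₁ ψ (pl z)) * inr a b (χ (pr z)) +
        inl a b (involute (ψ (pl z))) * inr a b (dirac e₂ χ (pr z)) := by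
  let TL : Cl a →L[ℝ] Cl (a + b) := LinearMap.toContinuousLinearMap (inl a b).toLinearMap
  let TR : Cl b →L[ℝ] Cl (a + b) := LinearMap.toContinuousLinearMap (inr a b).toLinearMap
  have hψ' : DifferentiableAt ℝ (fun x => inl a b (ψ x)) (pl z) :=
    DifferentiableAt.comp (pl z) TL.differentiableAt hψ
  have hχ' : DifferentiableAt ℝ (fun x => inr a b (χ x)) (pr z) :=
    DifferentiableAt.comp (pr z) TR.differentiableAt hχ
  have dm : ∀ I, der (pfr e₁ e₂) I (fun w => inl a b (ψ (pl w)) * inr a b (χ (pr w))) z =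
      der (pfr e₁ e₂) I (fun w => inl a b (ψ (pl w))) z * inr a b (χ (pr z)) +
        inl a b (ψ (pl z)) * der (pfr e₁ e₂) I (fun w => inr a b (χ (pr w))) z :=
    fun I => fderiv_clmul (diff_pl hψ') (diff_pr hχ') _
  have dl : ∀ i, der e₁ i (fun x => inl a b (ψ x)) (pl z) = inl a b (der e₁ i ψ (pl z)) :=
    fun i => fderiv_lin TL hψ _
  have dr : ∀ j, der e₂ j (fun x => inr a b (χ x)) (pr z) = inr a b (der e₂ j χ (pr z)) :=
    fun j => fderiv_lin TR hχ _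
  rw [dirac, dirac, dirac, Fin.sum_univ_add, map_sum, map_sum, Finset.sum_mul, Finset.mul_sum]
  congr 1
  · refine Finset.sum_congr rfl fun i _ => ?_
    rw [nab_eq, nab_eq, dm, der_pfr_left_pl hψ', der_pfr_left_pr hχ', dl,
      omg_pfr_left h₁ h₂ hU₁ hU₂ hz₁ hz₂, ← inl_cl]
    simp only [map_mul, map_add, mul_zero, add_zero, mul_add, add_mul, mul_assoc]
  · refine Finset.sum_congr rfl fun j _ => ?_
    rw [nab_eq, nab_eq, dm, der_pfr_right_pl hψ', der_pfr_right_pr hχ', dr,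
      omg_pfr_right h₁ h₂ hU₁ hU₂ hz₁ hz₂, ← inr_cl, ← mul_assoc (inr a b (omg e₂ j (pr z))),
      inr_mul_inl_of_even (involute_omg e₂ j (pr z)), zero_mul, zero_add, mul_assoc, ← mul_add,
      ← mul_assoc, inr_cl_mul_inl]
    simp only [map_mul, map_add, mul_assoc]

theorem scal_line (y : E 1) : scal (fun _ _ _ => (1 : ℝ) : Fr 1) y = 0 := by
  simp [scal, gam_line, der]

theorem dens_line (y : E 1) : dens (fun _ _ _ => (1 : ℝ) : Fr 1) y = 1 := by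
  simp [dens, fmat]

theorem grad_line {g : ℝ → ℝ} {y : E 1} (hg : DifferentiableAt ℝ g (y 0)) :
    grad (fun _ _ _ => (1 : ℝ) : Fr 1) (fun w => g (w 0)) y = deriv g (y 0) • cl 0 := by
  rw [grad, vec_eq_sum, Fin.sum_univ_one, der_line hg]

theorem dirac_line {g : ℝ → Cl 1} {y : E 1} (hg : DifferentiableAt ℝ g (y 0)) :
    dirac (fun _ _ _ => (1 : ℝ) : Fr 1) (fun w => g (w 0)) y = cl 0 * deriv g (y 0) := by
  rw [dirac, Fin.sum_univ_one, nab, der_line hg]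
  simp [gam_line]

end SZ
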