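import Pool.Agent.P.MP_8db816_gt.SZ.Atl
import Pool.Agent.P.MP_8db816_gt.SZ.LocProd

/-!
The Stolz group `R^spin(pt)^Γ[𝔅⁻¹]` in degree `0 mod 8` for a finite group `Γ` (a point is a model of
the universal proper `Γ`-space, and proper cocompact means compact).
-/

noncomputable section

namespace SZ

open Set CliffordAlgebra
open scoped ContDiff

variable {n m : ℕ}

/-- An isometric action preserving the spin structure. -/
structure Act (Γ : Type) [Group Γ] (M : Atl n) where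
  ρ : Γ → Emb M M
  par : ∀ g, (ρ g).p = 1
  src : ∀ g, (ρ g).f.source = M.car
  mul : ∀ g h, Sq (ρ g) (ρ h) (ρ (g * h)) (Emb.id M) M.car

/-- A compact Riemannian spin `(m+1)`-manifold with boundary, a product near the boundary: the
interior `Z`, the closed boundary `M`, and a collar `e : M × (0, ε) → Z` whose complement is compact
and along which `t → 0` leaves every compact set. -/
structure Col (m : ℕ) where
  Z : Atl (m + 1)
  M : Atl m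
  ε : ℝ
  ε_pos : 0 < ε
  e : Emb (cyl M) Z
  par : e.p = 1
  src : e.f.source = M.car ×ˢ Ioo 0 ε
  cptM : IsCompact M.car
  cptZ : ∀ δ ∈ Ioo 0 ε, IsCompact (Z.car \ e.f '' (M.car ×ˢ Ioo 0 δ))
  opn : ∀ δ ∈ Ioo 0 ε, IsOpen (Z.car \ e.f '' (M.car ×ˢ Ioc 0 δ))

/-- The same with an action of `Γ`, a product on the collar. -/
structure GCol (Γ : Type) [Group Γ] (m : ℕ) extends Col m where
  ρZ : Act Γ Z
  ρM : Act Γ M
  eqv : ∀ g, Sq (ρZ.ρ g) e e ((ρM.ρ g).prod (Emb.id line)) e.f.source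

/-- Positive scalar curvature on `S`. -/
def Atl.Psc (M : Atl n) (S : Set M.X) : Prop :=
  ∀ a, ∀ x ∈ (M.φ a).source, x ∈ S → 0 < scal (M.e a) (M.φ a x)

/-- A cycle `(L, h)`: the boundary metric has positive scalar curvature. -/
abbrev Triple (Γ : Type) [Group Γ] (m : ℕ) := {L : GCol Γ m // L.M.Psc univ}

variable {Γ : Type} [Group Γ]

/-- `L₁` is an open part of `L`, compatibly with boundaries and collars. -/
structure Part (L₁ L : Col m) where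
  j : Emb L₁.Z L.Z
  k : Emb L₁.M L.M
  parj : j.p = 1
  park : k.p = 1
  srcj : j.f.source = L₁.Z.car
  srck : k.f.source = L₁.M.car
  δ : ℝ
  δ_pos : 0 < δ
  sq : Sq j L₁.e L.e (k.prod (Emb.id line)) (L₁.M.car ×ˢ Ioo 0 δ)

/-- `L` is the disjoint union of `L₁` and `L₂`. -/
def IsSum (L L₁ L₂ : GCol Γ m) : Prop :=
  ∃ (P₁ : Part L₁.toCol L.toCol) (P₂ : Part L₂.toCol L.toCol),
    Disjoint P₁.j.f.target P₂.j.f.target ∧ P₁.j.f.target ∪ P₂.j.f.target = L.Z.car ∧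
    Disjoint P₁.k.f.target P₂.k.f.target ∧ P₁.k.f.target ∪ P₂.k.f.target = L.M.car ∧
    (∀ g, Sq (L.ρZ.ρ g) P₁.j P₁.j (L₁.ρZ.ρ g) L₁.Z.car) ∧
    ∀ g, Sq (L.ρZ.ρ g) P₂.j P₂.j (L₂.ρZ.ρ g) L₂.Z.car

/-- `L` (for `p = 1`) or `-L` (for `p = -1`) sits in `N`, its collar extending to a bicollar `b`
whose half `t ≤ 0` lies outside the interior of `L`. -/
structure Side (p : ℝ) (L : Col m) (N : Atl (m + 1)) where
  i : Emb L.Z N
  b : Emb (cyl L.M) N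
  pari : i.p = p
  parb : b.p = p
  srci : i.f.source = L.Z.car
  δ : ℝ
  δ_pos : 0 < δ
  srcb : b.f.source = L.M.car ×ˢ Ioo (-δ) δ
  sq : Sq i L.e b (Emb.id _) (L.M.car ×ˢ Ioo 0 δ)
  disj : Disjoint i.f.target (b.f '' (L.M.car ×ˢ Ioc (-δ) 0))

/-- The identification of two cycles: the boundary of some `W` is `L₁ ∪ V ∪ (-L₂)`, where `V`, the
complement of the interiors of `L₁` and `L₂`, has positive scalar curvature (and is a product near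
its boundary `∂L₁ ⊔ ∂L₂`, by the bicollars). -/
def Ident (L₁ L₂ : GCol Γ m) : Prop :=
  ∃ (W : GCol Γ (m + 1)) (S₁ : Side 1 L₁.toCol W.M) (S₂ : Side (-1) L₂.toCol W.M),
    Disjoint (S₁.i.f.target ∪ S₁.b.f.target) (S₂.i.f.target ∪ S₂.b.f.target) ∧
    W.M.Psc (S₁.i.f.target ∪ S₂.i.f.target)ᶜ ∧
    (∀ g, Sq (W.ρM.ρ g) S₁.i S₁.i (L₁.ρZ.ρ g) L₁.Z.car) ∧
    ∀ g, Sq (W.ρM.ρ g) S₂.i S₂.i (L₂.ρZ.ρ g) L₂.Z.car

/-- Harmonic spinors (smooth sections of the bundle of Clifford algebras associated with the spin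
structure, killed by the Dirac operator) on which the volume element acts as `p`; they form a vector
space. -/
def Atl.harm (M : Atl n) (p : ℝ) : Set (M.A → M.X → Cl n) :=
  {ψ | (∀ a, ContDiffOn ℝ ∞ (ψ a ∘ (M.φ a).symm) (M.φ a).target) ∧
    (∀ a, ∀ x ∉ (M.φ a).source, ψ a x = 0) ∧
    (∀ a b, ∀ x ∈ (M.φ a).source, x ∈ (M.φ b).source → ψ a x = M.s a b x * ψ b x) ∧
    (∀ a, ∀ y ∈ (M.φ a).target, dirac (M.e a) (ψ a ∘ (M.φ a).symm) y = 0) ∧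
    ∀ a x, vol n * ψ a x = p • ψ a x}

/-- The dimension of the span of a set of functions. -/
def dimSpan {A X V : Type} [AddCommGroup V] [Module ℝ V] (S : Set (A → X → V)) : ℕ :=
  Module.finrank ℝ (Submodule.span ℝ S)

/-- A closed spin `8`-manifold with a scalar-flat metric whose Dirac operator has nonzero index,
such as a Bott manifold. -/
structure Bott where
  B : Atl 8
  cpt : IsCompact B.car
  flat : ∀ a, ∀ y ∈ (B.φ a).target, scal (B.e a) y = 0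
  idx : dimSpan (B.harm 1) ≠ dimSpan (B.harm (-1))

theorem inl_inr_mul {a b : ℕ} (x : Cl a) (y y' : Cl b) {x' : Cl a} (hx : involute x' = x') :
    inl a b x * inr a b y * (inl a b x' * inr a b y') = inl a b (x * x') * inr a b (y * y') := by
  rw [mul_assoc, ← mul_assoc (inr a b y), inr_mul_inl_of_even' _ hx, map_mul, map_mul]
  simp only [mul_assoc]

theorem actProd_mul {a : ℕ} (B : Atl a) {M : Atl n} (ρ : Act Γ M) (g h : Γ) :
    Sq ((Emb.id B).prod (ρ.ρ g)) ((Emb.id B).prod (ρ.ρ h)) ((Emb.id B).prod (ρ.ρ (g * h)))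
      (Emb.id (B.prod M)) (B.prod M).car := fun x hx => by
  have hx' := hx
  rw [Atl.car_prod] at hx'
  obtain ⟨h1, h2, -, h4, h5, h6⟩ := ρ.mul g h x.2 hx'.2
  refine ⟨⟨hx'.1, h1⟩, ⟨hx'.1, h2⟩, hx, ⟨hx'.1, h4⟩, Prod.ext rfl h5,
    fun c b b' a ha hb hb' hc => ?_⟩
  refine (inl_inr_mul _ _ _ (B.s_mem (x := x.1) hb.1 ha.1).2).trans
    (Eq.trans ?_ (inl_inr_mul _ _ _ (B.s_mem (x := x.1) hb'.1 ha.1).2).symm)
  exact congrArg₂ (fun u v => inl _ _ u * inr _ _ v)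
    ((B.cocycle _ _ _ x.1 hc.1 hb.1 ha.1).trans (B.cocycle _ _ _ x.1 hc.1 hb'.1 ha.1).symm)
    (h6 c.2 b.2 b'.2 a.2 ha.2 hb.2 hb'.2 hc.2)

/-- The action on `B × M` through the second factor. -/
def Act.prod {a : ℕ} (B : Atl a) {M : Atl n} (ρ : Act Γ M) : Act Γ (B.prod M) where
  ρ g := (Emb.id B).prod (ρ.ρ g)
  par g := by simp [Emb.prod, Emb.id, ρ.par]
  src g := by
    rw [Atl.car_prod, ← ρ.src g]
    rfl
  mul := actProd_mul B ρ

theorem Emb.cylProd_image {a : ℕ} (B : Atl a) {M : Atl m} {Z : Atl (m + 1)} (e : Emb (cyl M) Z)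
    (I : Set ℝ) : (B.prod Z).car \ (e.cylProd B).f '' ((B.prod M).car ×ˢ I) =
      B.car ×ˢ (Z.car \ e.f '' (M.car ×ˢ I)) := by
  rw [Atl.car_prod, Atl.car_prod]
  ext ⟨x, y⟩
  constructor
  · rintro ⟨⟨h1, h2⟩, h3⟩
    exact ⟨h1, h2, fun ⟨z, hz, hz'⟩ => h3 ⟨((x, z.1), z.2), ⟨⟨h1, hz.1⟩, hz.2⟩, Prod.ext rfl hz'⟩⟩
  · rintro ⟨h1, h2, h3⟩
    exact ⟨⟨h1, h2⟩, fun ⟨z, hz, hz'⟩ =>
      h3 ⟨(z.1.2, z.2), ⟨hz.1.2, hz.2⟩, congrArg Prod.snd hz'⟩⟩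

/-- The product `B × L` with a closed manifold. -/
def Col.prod {a : ℕ} (B : Atl a) (hB : IsCompact B.car) (L : Col m) : Col (a + m) where
  Z := B.prod L.Z
  M := B.prod L.M
  ε := L.ε
  ε_pos := L.ε_pos
  e := L.e.cylProd B
  par := L.par
  src := by
    rw [Atl.car_prod]
    ext x
    change (x.1.1 ∈ B.car ∧ (x.1.2, x.2) ∈ L.e.f.source) ↔ _
    rw [L.src]
    exact and_assoc.symm
  cptM := by rw [Atl.car_prod]; exact hB.prod L.cptM
  cptZ δ hδ := (L.e.cylProd_image B _).symm ▸ hB.prod (L.cptZ δ hδ)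
  opn δ hδ := (L.e.cylProd_image B _).symm ▸ B.isOpen_car.prod (L.opn δ hδ)

theorem gcolProd_eqv {a : ℕ} (B : Atl a) (L : GCol Γ m) (g : Γ) :
    Sq ((L.ρZ.prod B).ρ g) (L.e.cylProd B) (L.e.cylProd B)
      (((L.ρM.prod B).ρ g).prod (Emb.id line)) (L.e.cylProd B).f.source := fun x hx => by
  obtain ⟨h1, h2, h3, h4, h5, h6⟩ := L.eqv g (x.1.2, x.2) hx.2
  refine ⟨hx, ⟨hx.1, h2⟩, ⟨⟨hx.1, h3.1⟩, h3.2⟩, ⟨hx.1, h4⟩, Prod.ext rfl h5,
    fun c b b' a ha hb hb' hc => ?_⟩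
  refine (inl_inr_mul _ _ _ (B.s_mem (x := x.1.1) hb.1 ha.1.1).2).trans ?_
  have h7 := h6 c.2 b.2 (b'.1.2, b'.2) (a.1.2, a.2) ⟨ha.1.2, ha.2⟩ hb.2 ⟨hb'.1.2, hb'.2⟩ hc.2
  have h8 := inl_inr_mul (B.s c.1 b'.1.1 x.1.1)
    (L.e.σ c.2 (b'.1.2, b'.2) ((L.ρM.ρ g).f x.1.2, x.2))
    (((L.ρM.ρ g).prod (Emb.id line)).σ (b'.1.2, b'.2) (a.1.2, a.2) (x.1.2, x.2))
    (B.s_mem (x := x.1.1) hb'.1.1 ha.1.1).2
  refine (congrArg₂ (fun u v => inl _ _ u * inr _ _ v)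
    ((B.cocycle _ _ _ x.1.1 hc.1 hb.1 ha.1.1).trans
      (B.cocycle _ _ _ x.1.1 hc.1 hb'.1.1 ha.1.1).symm) h7).trans (h8.symm.trans ?_)
  congr 1
  simp only [Emb.prod, Act.prod, ten, map_mul, inl_inl, inl_inr, inr_inr, mul_assoc]
  rfl

/-- The product `B × L`, with `Γ` acting on `L`. -/
def GCol.prod {a : ℕ} (B : Atl a) (hB : IsCompact B.car) (L : GCol Γ m) : GCol Γ (a + m) where
  toCol := L.toCol.prod B hB
  ρZ := L.ρZ.prod B
  ρM := L.ρM.prod B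
  eqv := gcolProd_eqv B L

theorem Atl.scal_prod {a b : ℕ} (M : Atl a) (N : Atl b) (c : (M.prod N).A) {x : (M.prod N).X}
    (hx : x ∈ ((M.prod N).φ c).source) : scal ((M.prod N).e c) ((M.prod N).φ c x) =
      scal (M.e c.1) (M.φ c.1 x.1) + scal (N.e c.2) (N.φ c.2 x.2) := by
  have h := scal_pfr (z := ((M.prod N).φ c) x) (M.fr c.1) (N.fr c.2) (M.φ c.1).open_target
    (N.φ c.2).open_target (((M.prod N).φ c).map_source hx).1 (((M.prod N).φ c).map_source hx).2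
  have h1 : pl (((M.prod N).φ c) x) = M.φ c.1 x.1 := pl_append _ _
  have h2 : pr (((M.prod N).φ c) x) = N.φ c.2 x.2 := pr_append _ _
  rw [h1, h2] at h
  exact h

theorem Bott.psc (𝔅 : Bott) {M : Atl m} (h : M.Psc univ) : (𝔅.B.prod M).Psc univ :=
  fun c x hx _ => by
    have h' := Atl.scal_prod 𝔅.B M c hx
    rw [𝔅.flat c.1 _ ((𝔅.B.φ c.1).map_source hx.1), zero_add] at h'
    exact h' ▸ h c.2 x.2 hx.2 trivial

/-- The product `𝔅 × (L, h)`. -/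
def Triple.prod (𝔅 : Bott) (L : Triple Γ m) : Triple Γ (8 + m) :=
  ⟨L.1.prod 𝔅.B 𝔅.cpt, 𝔅.psc L.2⟩

/-- The boundary dimensions `7, 15, 23, ...`. -/
def bd : ℕ → ℕ
  | 0 => 7
  | k + 1 => 8 + bd k

/-- The relations: identification, disjoint union, and `[𝔅 × L] = [L]`. -/
def rel (Γ : Type) [Group Γ] (𝔅 : Bott) : Set (FreeAbelianGroup (Σ k, Triple Γ (bd k))) :=
  {r | ∃ k L₁ L₂, Ident L₁.1 L₂.1 ∧ r = .of ⟨k, L₁⟩ - .of ⟨k, L₂⟩} ∪
  {r | ∃ k L L₁ L₂, IsSum L.1 L₁.1 L₂.1 ∧ r = .of ⟨k, L⟩ - .of ⟨k, L₁⟩ - .of ⟨k, L₂⟩} ∪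
  {r | ∃ k L, r = .of ⟨k + 1, Triple.prod 𝔅 L⟩ - .of ⟨k, L⟩}

/-- The direct limit of `R_8 → R_16 → ⋯` under the product with `𝔅`. -/
def Rgrp (Γ : Type) [Group Γ] (𝔅 : Bott) : AddCommGrpCat :=
  AddCommGrpCat.of (FreeAbelianGroup (Σ k, Triple Γ (bd k)) ⧸ AddSubgroup.closure (rel Γ 𝔅))

end SZ
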