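import Pool.Agent.P.MP_8db816_gt.SZ.SecOp
import Pool.Agent.P.MP_8db816_gt.SZ.POU

/-! Passing between sections supported in a chart and functions on `ℝⁿ`. -/

noncomputable section

namespace SZ

open Set CliffordAlgebra Filter Topology MeasureTheory Atl.Sec
open scoped ContDiff RealInnerProductSpace

variable {n : ℕ} {M : Atl n}

/-- The expression of a section in a chart, extended by zero. -/
def Atl.Sec.loc (ψ : M.Sec) (a : M.A) : E n → Cl n :=
  (M.φ a).target.indicator (ψ.fam a ∘ (M.φ a).symm)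

/-- `w` is smooth with compact support in the target of the chart `a`. -/
def Atl.Gl (M : Atl n) (a : M.A) (w : E n → Cl n) : Prop :=
  ContDiffOn ℝ ∞ w (M.φ a).target ∧
    ∃ K, IsCompact K ∧ K ⊆ (M.φ a).target ∧ ∀ y ∈ (M.φ a).target, y ∉ K → w y = 0

theorem isSec_glob {a : M.A} {w : E n → Cl n} (h : M.Gl a w) : IsSec M fun b =>
    ((M.φ a).source ∩ (M.φ b).source).indicator fun x => M.s b a x * w (M.φ a x) := by
  obtain ⟨hw, K, hK, hKa, h0⟩ := h
  have hK' : IsCompact ((M.φ a).symm '' K) :=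
    hK.image_of_continuousOn ((M.φ a).continuousOn_symm.mono hKa)
  have hz : ∀ b, ∀ x ∉ (M.φ a).symm '' K, ((M.φ a).source ∩ (M.φ b).source).indicator
      (fun x => M.s b a x * w (M.φ a x)) x = 0 := fun b x hx => by
    by_cases hm : x ∈ (M.φ a).source ∩ (M.φ b).source
    · rw [indicator_of_mem hm, h0 _ ((M.φ a).map_source hm.1)
        fun hk => hx ⟨_, hk, (M.φ a).left_inv hm.1⟩, mul_zero]
    · exact indicator_of_notMem hm _
  refine ⟨fun b y hy => ?_, fun b x hx => indicator_of_notMem (fun hm => hx hm.2) _,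
    fun b c x hb hc => ?_, _, hK', ?_, hz⟩
  · have hc : ContinuousAt (M.φ b).symm y := (M.φ b).continuousAt_symm hy
    refine ContDiffAt.contDiffWithinAt ?_
    by_cases hx : (M.φ b).symm y ∈ (M.φ a).source
    · obtain ⟨hτ, hσ, -⟩ := lift_iff.1 (M.lift a b)
      have hU : ((M.φ b).symm.trans (M.φ a)).source ∈ 𝓝 y :=
        (OpenPartialHomeomorph.open_source _).mem_nhds ⟨hy, hx⟩
      have h1 : ContDiffOn ℝ ∞ (fun z => star ((M.s a b ∘ (M.φ b).symm) z) *
          (w ∘ ((M.φ b).symm.trans (M.φ a))) z) ((M.φ b).symm.trans (M.φ a)).source :=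
        hσ.clstar.clmul (hw.comp hτ fun z hz => (M.φ a).map_source hz.2)
      refine (h1.contDiffAt hU).congr_of_eventuallyEq ?_
      filter_upwards [hU] with z hz
      have hb : (M.φ b).symm z ∈ (M.φ b).source := (M.φ b).map_target hz.1
      have ha : (M.φ b).symm z ∈ (M.φ a).source := hz.2
      simp only [Function.comp]
      rw [indicator_of_mem (show _ ∈ (M.φ a).source ∩ (M.φ b).source from ⟨ha, hb⟩),
        M.star_s ha hb]
      rfl
    · have hn : (M.φ b).symm y ∉ (M.φ a).symm '' K := by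
        rintro ⟨z, hz, hz'⟩
        exact hx (hz' ▸ (M.φ a).map_target (hKa hz))
      refine (contDiffAt_const (c := (0 : Cl n))).congr_of_eventuallyEq ?_
      filter_upwards [hc.preimage_mem_nhds (hK'.isClosed.isOpen_compl.mem_nhds hn)] with z hz'
      exact hz b _ hz'
  · by_cases ha : x ∈ (M.φ a).source
    · simp only [indicator_of_mem (show x ∈ (M.φ a).source ∩ (M.φ b).source from ⟨ha, hb⟩),
        indicator_of_mem (show x ∈ (M.φ a).source ∩ (M.φ c).source from ⟨ha, hc⟩)]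
      rw [← mul_assoc, M.cocycle b c a x hb hc ha]
    · simp only [indicator_of_notMem (fun hm : x ∈ (M.φ a).source ∩ (M.φ b).source => ha hm.1),
        indicator_of_notMem (fun hm : x ∈ (M.φ a).source ∩ (M.φ c).source => ha hm.1), mul_zero]
  · rintro _ ⟨z, hz, rfl⟩
    exact M.source_subset a ((M.φ a).map_target (hKa hz))

open Classical in
/-- The section whose expression in the chart `a` is `w`. -/
def Atl.glob (M : Atl n) (a : M.A) (w : E n → Cl n) : M.Sec :=
  if h : M.Gl a w then mk' _ (isSec_glob h) else 0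

variable {a : M.A} {w w' : E n → Cl n} {ψ χ : M.Sec} {K : Set M.X} {x : M.X} {y : E n}

theorem loc_of_mem (ψ : M.Sec) (hy : y ∈ (M.φ a).target) :
    ψ.loc a y = ψ.fam a ((M.φ a).symm y) := indicator_of_mem hy _

theorem loc_apply (ψ : M.Sec) (hx : x ∈ (M.φ a).source) :
    ψ.loc a (M.φ a x) = ψ.fam a x := by
  rw [loc_of_mem ψ ((M.φ a).map_source hx), (M.φ a).left_inv hx]

theorem glob_loc_of_notMem (ψ : M.Sec) (hy : y ∉ (M.φ a).target) : ψ.loc a y = 0 :=
  indicator_of_notMem hy _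

theorem loc_add (ψ χ : M.Sec) (a : M.A) : (ψ + χ).loc a = ψ.loc a + χ.loc a := by
  funext y
  by_cases hy : y ∈ (M.φ a).target
  · simp only [Pi.add_apply, loc_of_mem _ hy, fam_add]
  · simp only [Pi.add_apply, glob_loc_of_notMem _ hy, add_zero]

theorem loc_sub (ψ χ : M.Sec) (a : M.A) : (ψ - χ).loc a = ψ.loc a - χ.loc a := by
  funext y
  by_cases hy : y ∈ (M.φ a).target
  · simp only [Pi.sub_apply, loc_of_mem _ hy, fam_sub]
  · simp only [Pi.sub_apply, glob_loc_of_notMem _ hy, sub_zero]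

theorem loc_smul (c : ℝ) (ψ : M.Sec) (a : M.A) : (c • ψ).loc a = c • ψ.loc a := by
  funext y
  by_cases hy : y ∈ (M.φ a).target
  · simp only [Pi.smul_apply, loc_of_mem _ hy, fam_smul]
  · simp only [Pi.smul_apply, glob_loc_of_notMem _ hy, smul_zero]

theorem contDiffOn_loc (ψ : M.Sec) (a : M.A) : ContDiffOn ℝ ∞ (ψ.loc a) (M.φ a).target :=
  (ψ.ok.sm a).congr fun _ hy => loc_of_mem ψ hy

theorem loc_dir (ψ : M.Sec) (hy : y ∈ (M.φ a).target) :
    (M.Dir ψ).loc a y = dirac (M.e a) (ψ.loc a) y := by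
  rw [loc_of_mem _ hy, fam_dir ψ ((M.φ a).map_target hy), (M.φ a).right_inv hy]
  refine dirac_congr ?_
  filter_upwards [(M.φ a).open_target.mem_nhds hy] with z hz
  exact (loc_of_mem ψ hz).symm

theorem isCompact_chart_image (hK : IsCompact K) (hKa : K ⊆ (M.φ a).source) :
    IsCompact (M.φ a '' K) := hK.image_of_continuousOn ((M.φ a).continuousOn.mono hKa)

theorem loc_eq_zero (h : ψ.Sup K) (hy : y ∉ M.φ a '' K) : ψ.loc a y = 0 := by
  by_cases ht : y ∈ (M.φ a).target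
  · rw [loc_of_mem _ ht]
    exact sup_iff.1 h a _ fun hk => hy ⟨_, hk, (M.φ a).right_inv ht⟩
  · exact glob_loc_of_notMem _ ht

theorem contDiff_loc (h : ψ.Sup K) (hK : IsCompact K) (hKa : K ⊆ (M.φ a).source) :
    ContDiff ℝ ∞ (ψ.loc a) := by
  refine contDiff_iff_contDiffAt.2 fun y => ?_
  by_cases hy : y ∈ M.φ a '' K
  · obtain ⟨x, hx, rfl⟩ := hy
    exact (contDiffOn_loc ψ a).contDiffAt
      ((M.φ a).open_target.mem_nhds ((M.φ a).map_source (hKa hx)))
  · refine (contDiffAt_const (c := (0 : Cl n))).congr_of_eventuallyEq ?_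
    filter_upwards [(isCompact_chart_image hK hKa).isClosed.isOpen_compl.mem_nhds hy] with z hz
    exact loc_eq_zero h hz

theorem hasCompactSupport_loc (h : ψ.Sup K) (hK : IsCompact K) (hKa : K ⊆ (M.φ a).source) :
    HasCompactSupport (ψ.loc a) :=
  HasCompactSupport.intro (isCompact_chart_image hK hKa) fun _ hy => loc_eq_zero h hy

theorem gl_loc (h : ψ.Sup K) (hK : IsCompact K) (hKa : K ⊆ (M.φ a).source) :
    M.Gl a (ψ.loc a) :=
  ⟨contDiffOn_loc ψ a, _, isCompact_chart_image hK hKa,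
    fun _ ⟨_, hx, e⟩ => e ▸ (M.φ a).map_source (hKa hx), fun _ _ hy => loc_eq_zero h hy⟩

theorem glob_ext (h : ψ.Sup (M.φ a).source) (h' : χ.Sup (M.φ a).source)
    (e : ∀ x ∈ (M.φ a).source, ψ.fam a x = χ.fam a x) : ψ = χ := by
  refine ext_ev fun x _ => ?_
  by_cases hx : x ∈ (M.φ a).source
  · rw [ev_eq ψ hx, ev_eq χ hx, e x hx]
  · rw [h x hx, h' x hx]

theorem glob_fam_eq (h : M.Gl a w) (b : M.A) (x : M.X) : (M.glob a w).fam b x =
    ((M.φ a).source ∩ (M.φ b).source).indicator (fun x => M.s b a x * w (M.φ a x)) x := by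
  rw [Atl.glob, dif_pos h]
  rfl

theorem glob_of_not (h : ¬M.Gl a w) : M.glob a w = 0 := by
  rw [Atl.glob, dif_neg h]

theorem glob_fam (h : M.Gl a w) (hx : x ∈ (M.φ a).source) :
    (M.glob a w).fam a x = w (M.φ a x) := by
  rw [glob_fam_eq h, indicator_of_mem (show x ∈ (M.φ a).source ∩ (M.φ a).source from ⟨hx, hx⟩),
    M.s_self hx, one_mul]

theorem glob_ev_zero (w : E n → Cl n) (hx : x ∉ (M.φ a).source) : (M.glob a w).ev x = 0 := by
  by_cases h : M.Gl a w
  · by_cases hc : x ∈ M.car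
    · rw [ev_of_mem _ hc, glob_fam_eq h]
      exact indicator_of_notMem (fun hm => hx hm.1) _
    · exact ev_of_notMem _ hc
  · rw [glob_of_not h, ev_zero]

theorem glob_sup_source (w : E n → Cl n) : (M.glob a w).Sup (M.φ a).source :=
  fun _ hx => glob_ev_zero w hx

theorem glob_loc (h : ψ.Sup K) (hK : IsCompact K) (hKa : K ⊆ (M.φ a).source) :
    M.glob a (ψ.loc a) = ψ :=
  glob_ext (fun _ hx => glob_ev_zero _ hx) (h.mono hKa) fun x hx => by
    rw [glob_fam (gl_loc h hK hKa) hx, loc_apply _ hx]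

theorem fam_glob (h : M.Gl a w) (hx : x ∈ (M.φ a).source) :
    (M.glob a w).fam a x = w (M.φ a x) := glob_fam h hx

theorem loc_glob (h : M.Gl a w) (hy : y ∈ (M.φ a).target) : (M.glob a w).loc a y = w y := by
  rw [loc_of_mem _ hy, fam_glob h ((M.φ a).map_target hy), (M.φ a).right_inv hy]

theorem ev_glob_of_notMem (w : E n → Cl n) (hx : x ∉ (M.φ a).source) :
    (M.glob a w).ev x = 0 := glob_ev_zero w hx

theorem sup_glob {L : Set (E n)} (h : ∀ y ∈ (M.φ a).target, y ∉ L → w y = 0) :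
    (M.glob a w).Sup ((M.φ a).symm '' (L ∩ (M.φ a).target)) := by
  intro x hx
  by_cases hg : M.Gl a w
  · by_cases ha : x ∈ (M.φ a).source
    · rw [ev_eq _ ha, fam_glob hg ha, h _ ((M.φ a).map_source ha)
        fun hl => hx ⟨_, ⟨hl, (M.φ a).map_source ha⟩, (M.φ a).left_inv ha⟩, mul_zero]
    · exact ev_glob_of_notMem w ha
  · rw [glob_of_not hg, ev_zero]

theorem glob_gl_congr (hg : M.Gl a w) (h : EqOn w w' (M.φ a).target) : M.Gl a w' := by
  obtain ⟨hw, K, hK, hKa, h0⟩ := hg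
  exact ⟨hw.congr fun y hy => (h hy).symm, K, hK, hKa, fun y hy hk => (h hy).symm.trans (h0 y hy hk)⟩

theorem glob_congr (h : EqOn w w' (M.φ a).target) : M.glob a w = M.glob a w' := by
  by_cases hg : M.Gl a w
  · exact glob_ext (glob_sup_source _) (glob_sup_source _) fun x hx => by
      rw [fam_glob hg hx, fam_glob (glob_gl_congr hg h) hx, h ((M.φ a).map_source hx)]
  · rw [glob_of_not hg, glob_of_not fun hg' => hg (glob_gl_congr hg' h.symm)]

theorem Atl.Gl.add (h : M.Gl a w) (h' : M.Gl a w') : M.Gl a (w + w') := by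
  obtain ⟨hw, K, hK, hKa, h0⟩ := h
  obtain ⟨hw', K', hK', hKa', h0'⟩ := h'
  refine ⟨hw.add hw', K ∪ K', hK.union hK', union_subset hKa hKa', fun y hy hk => ?_⟩
  rw [Pi.add_apply, h0 y hy fun h => hk (Or.inl h), h0' y hy fun h => hk (Or.inr h), add_zero]

theorem Atl.Gl.sub (h : M.Gl a w) (h' : M.Gl a w') : M.Gl a (w - w') := by
  obtain ⟨hw, K, hK, hKa, h0⟩ := h
  obtain ⟨hw', K', hK', hKa', h0'⟩ := h'
  refine ⟨hw.sub hw', K ∪ K', hK.union hK', union_subset hKa hKa', fun y hy hk => ?_⟩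
  rw [Pi.sub_apply, h0 y hy fun h => hk (Or.inl h), h0' y hy fun h => hk (Or.inr h), sub_zero]

theorem Atl.Gl.smul (h : M.Gl a w) (c : ℝ) : M.Gl a (c • w) := by
  obtain ⟨hw, K, hK, hKa, h0⟩ := h
  refine ⟨hw.const_smul c, K, hK, hKa, fun y hy hk => ?_⟩
  rw [Pi.smul_apply, h0 y hy hk, smul_zero]

theorem Atl.Gl.dirac (h : M.Gl a w) : M.Gl a (dirac (M.e a) w) := by
  obtain ⟨hw, K, hK, hKa, h0⟩ := h
  refine ⟨(M.fr a).contDiffOn_dirac (M.φ a).open_target hw, K, hK, hKa, fun y hy hk => ?_⟩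
  rw [← dirac_zero (e := M.e a) (y := y)]
  refine dirac_congr ?_
  filter_upwards [(M.φ a).open_target.mem_nhds hy, hK.isClosed.isOpen_compl.mem_nhds hk]
    with z hz hz'
  exact h0 z hz hz'

theorem glob_add (h : M.Gl a w) (h' : M.Gl a w') :
    M.glob a (w + w') = M.glob a w + M.glob a w' := by
  refine glob_ext (glob_sup_source _) (fun x hx => ?_) fun x hx => ?_
  · rw [ev_add, ev_glob_of_notMem w hx, ev_glob_of_notMem w' hx, add_zero]
  · rw [fam_add, fam_glob (h.add h') hx, fam_glob h hx, fam_glob h' hx, Pi.add_apply]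

theorem glob_sub (h : M.Gl a w) (h' : M.Gl a w') :
    M.glob a (w - w') = M.glob a w - M.glob a w' := by
  refine glob_ext (glob_sup_source _) (fun x hx => ?_) fun x hx => ?_
  · rw [ev_sub, ev_glob_of_notMem w hx, ev_glob_of_notMem w' hx, sub_zero]
  · rw [fam_sub, fam_glob (h.sub h') hx, fam_glob h hx, fam_glob h' hx, Pi.sub_apply]

theorem glob_smul (h : M.Gl a w) (c : ℝ) : M.glob a (c • w) = c • M.glob a w := by
  refine glob_ext (glob_sup_source _) (fun x hx => ?_) fun x hx => ?_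
  · rw [ev_smul, ev_glob_of_notMem w hx, smul_zero]
  · rw [fam_smul, fam_glob (h.smul c) hx, fam_glob h hx, Pi.smul_apply]

theorem dir_glob (h : M.Gl a w) : M.Dir (M.glob a w) = M.glob a (dirac (M.e a) w) := by
  refine glob_ext ?_ (glob_sup_source _) fun x hx => ?_
  · obtain ⟨-, K, hK, hKa, h0⟩ := h
    have h1 := sup_glob h0
    rw [inter_eq_left.2 hKa] at h1
    refine (h1.dir (hK.image_of_continuousOn
      ((M.φ a).continuousOn_symm.mono hKa)).isClosed).mono ?_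
    rintro _ ⟨z, hz, rfl⟩
    exact (M.φ a).map_target (hKa hz)
  · rw [← loc_apply _ hx, loc_dir _ ((M.φ a).map_source hx), fam_glob h.dirac hx]
    refine dirac_congr ?_
    filter_upwards [(M.φ a).open_target.mem_nhds ((M.φ a).map_source hx)] with z hz
    exact loc_glob h hz

/-- The inner product with a section that vanishes outside a chart. -/
theorem inner_eq_chart (ψ : M.Sec) (h : χ.Sup (M.φ a).source) :
    ⟪ψ, χ⟫ = ∫ y in (M.φ a).target, dens (M.e a) y * ⟪ψ.loc a y, χ.loc a y⟫ := by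
  rw [Atl.Sec.inner_def, Atl.int_chart a fun x _ hx => by rw [h x hx, inner_zero_right]]
  refine setIntegral_congr_fun (M.φ a).open_target.measurableSet fun y hy => ?_
  rw [inner_ev ψ χ ((M.φ a).map_target hy), loc_of_mem _ hy, loc_of_mem _ hy]

theorem inner_glob (h : M.Gl a w) (χ : M.Sec) :
    ⟪M.glob a w, χ⟫ = ∫ y in (M.φ a).target, dens (M.e a) y * ⟪w y, χ.loc a y⟫ := by
  rw [real_inner_comm, inner_eq_chart χ (glob_sup_source w)]
  refine setIntegral_congr_fun (M.φ a).open_target.measurableSet fun y hy => ?_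
  rw [loc_glob h hy, real_inner_comm]

theorem glob_dens_bound {L : Set (E n)} (hL : IsCompact L) (hLa : L ⊆ (M.φ a).target) :
    ∃ C : ℝ, 0 < C ∧ ∀ y ∈ L, dens (M.e a) y ≤ C ∧ 1 ≤ C * dens (M.e a) y := by
  have hc : ContinuousOn (dens (M.e a)) L := (M.fr a).contDiffOn_dens.continuousOn.mono hLa
  have hp : ∀ y ∈ L, 0 < dens (M.e a) y := fun y hy => (M.fr a).dens_pos (hLa hy)
  obtain ⟨C₁, h₁⟩ := hL.exists_bound_of_continuousOn hc
  obtain ⟨C₂, h₂⟩ := hL.exists_bound_of_continuousOn (hc.inv₀ fun y hy => (hp y hy).ne')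
  refine ⟨max 1 (max C₁ C₂), lt_max_of_lt_left one_pos, fun y hy => ⟨?_, ?_⟩⟩
  · exact ((le_abs_self _).trans (h₁ y hy)).trans ((le_max_left _ _).trans (le_max_right _ _))
  · rw [← div_le_iff₀ (hp y hy), one_div]
    exact ((le_abs_self _).trans (h₂ y hy)).trans ((le_max_right _ _).trans (le_max_right _ _))

theorem glob_int_cmp {L : Set (E n)} (hL : IsCompact L) (hLa : L ⊆ (M.φ a).target) {C : ℝ}
    (hb : ∀ y ∈ L, dens (M.e a) y ≤ C ∧ 1 ≤ C * dens (M.e a) y) (hw : ContinuousOn w L) :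
    ∫ y in L, ‖w y‖ ^ 2 ≤ C * ∫ y in L, dens (M.e a) y * ‖w y‖ ^ 2 ∧
      ∫ y in L, dens (M.e a) y * ‖w y‖ ^ 2 ≤ C * ∫ y in L, ‖w y‖ ^ 2 := by
  have hc : ContinuousOn (dens (M.e a)) L := (M.fr a).contDiffOn_dens.continuousOn.mono hLa
  have h1 : IntegrableOn (fun y => ‖w y‖ ^ 2) L := (hw.norm.pow 2).integrableOn_compact hL
  have h2 : IntegrableOn (fun y => dens (M.e a) y * ‖w y‖ ^ 2) L :=
    (hc.mul (hw.norm.pow 2)).integrableOn_compact hL
  rw [← integral_const_mul, ← integral_const_mul]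
  refine ⟨setIntegral_mono_on h1 (h2.const_mul C) hL.measurableSet fun y hy => ?_,
    setIntegral_mono_on h2 (h1.const_mul C) hL.measurableSet fun y hy => ?_⟩
  · rw [← mul_assoc]
    exact le_mul_of_one_le_left (sq_nonneg _) (hb y hy).2
  · exact mul_le_mul_of_nonneg_right (hb y hy).1 (sq_nonneg _)

/-- On a compact subset of a chart the Riemannian and the Euclidean `L²` norms are equivalent. -/
theorem norm_loc_equiv (hK : IsCompact K) (hKa : K ⊆ (M.φ a).source) : ∃ C : ℝ, 0 < C ∧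
    ∀ χ : M.Sec, χ.Sup K → ∫ y, ‖χ.loc a y‖ ^ 2 ≤ C * ‖χ‖ ^ 2 ∧
      ‖χ‖ ^ 2 ≤ C * ∫ y, ‖χ.loc a y‖ ^ 2 := by
  have hL := isCompact_chart_image hK hKa
  have hLa : M.φ a '' K ⊆ (M.φ a).target := fun _ ⟨_, hx, e⟩ => e ▸ (M.φ a).map_source (hKa hx)
  obtain ⟨C, hC, hb⟩ := glob_dens_bound hL hLa
  refine ⟨C, hC, fun χ hχ => ?_⟩
  have h0 : ∀ y ∉ M.φ a '' K, ‖χ.loc a y‖ ^ 2 = 0 := fun y hy => by
    rw [loc_eq_zero hχ hy, norm_zero, zero_pow two_ne_zero]
  have h1 : ‖χ‖ ^ 2 = ∫ y in M.φ a '' K, dens (M.e a) y * ‖χ.loc a y‖ ^ 2 := by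
    rw [← real_inner_self_eq_norm_sq, inner_eq_chart χ (hχ.mono hKa)]
    simp only [real_inner_self_eq_norm_sq]
    exact setIntegral_eq_of_subset_of_forall_sdiff_eq_zero (M.φ a).open_target.measurableSet hLa
      fun y hy => by rw [h0 y hy.2, mul_zero]
  rw [h1, ← setIntegral_eq_integral_of_forall_compl_eq_zero h0]
  exact glob_int_cmp hL hLa hb ((contDiffOn_loc χ a).continuousOn.mono hLa)

/-- The restriction of any section to a compact subset of a chart is controlled by its norm. -/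
theorem setIntegral_loc_le {L : Set (E n)} (hL : IsCompact L) (hLa : L ⊆ (M.φ a).target) :
    ∃ C : ℝ, 0 < C ∧ ∀ χ : M.Sec, ∫ y in L, ‖χ.loc a y‖ ^ 2 ≤ C * ‖χ‖ ^ 2 := by
  obtain ⟨C, hC, hb⟩ := glob_dens_bound hL hLa
  have hK : IsCompact ((M.φ a).symm '' L) :=
    hL.image_of_continuousOn ((M.φ a).continuousOn_symm.mono hLa)
  have hKa : (M.φ a).symm '' L ⊆ (M.φ a).source :=
    fun _ ⟨_, hy, e⟩ => e ▸ (M.φ a).map_target (hLa hy)
  obtain ⟨η, D, hη, hη01, hD, hDa, -, hη0, hη1⟩ :=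
    M.exists_cutoff hK (hKa.trans (M.source_subset a)) (M.φ a).open_source hKa
  have hDa' : D ⊆ (M.φ a).source := fun x hx => (hDa hx).1
  have hD' := isCompact_chart_image hD hDa'
  have hD'a : M.φ a '' D ⊆ (M.φ a).target := fun _ ⟨_, hx, e⟩ => e ▸ (M.φ a).map_source (hDa' hx)
  refine ⟨C, hC, fun χ => ?_⟩
  refine (glob_int_cmp hL hLa hb ((contDiffOn_loc χ a).continuousOn.mono hLa)).1.trans
    (mul_le_mul_of_nonneg_left ?_ hC.le)
  have h1 : (M.int fun x => η x * ‖χ.ev x‖ ^ 2) ≤ ‖χ‖ ^ 2 := by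
    rw [norm_sq]
    exact Atl.int_mono ((tst_norm_sq χ).mul_left hη.continuousOn) (tst_norm_sq χ)
      fun x _ => mul_le_of_le_one_left (sq_nonneg _) (hη01 x).2
  refine le_trans ?_ h1
  rw [Atl.int_chart a fun x _ hx => by rw [hη0 x fun hd => hx (hDa' hd), zero_mul]]
  have h2 : ∫ y in (M.φ a).target, dens (M.e a) y *
      (η ((M.φ a).symm y) * ‖χ.ev ((M.φ a).symm y)‖ ^ 2) =
      ∫ y in (M.φ a).target, dens (M.e a) y * (η ((M.φ a).symm y) * ‖χ.loc a y‖ ^ 2) :=
    setIntegral_congr_fun (M.φ a).open_target.measurableSet fun y hy => by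
      rw [norm_ev χ ((M.φ a).map_target hy), loc_of_mem _ hy]
  have h3 : ∫ y in L, dens (M.e a) y * ‖χ.loc a y‖ ^ 2 =
      ∫ y in L, dens (M.e a) y * (η ((M.φ a).symm y) * ‖χ.loc a y‖ ^ 2) :=
    setIntegral_congr_fun hL.measurableSet fun y hy => by
      rw [(hη1 _ ⟨y, hy, rfl⟩).self_of_nhds, one_mul]
  rw [h2, h3]
  have hc : ContinuousOn (fun y => dens (M.e a) y * (η ((M.φ a).symm y) * ‖χ.loc a y‖ ^ 2))
      (M.φ a).target :=
    (M.fr a).contDiffOn_dens.continuousOn.mul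
      ((hη a).continuousOn.mul ((contDiffOn_loc χ a).continuousOn.norm.pow 2))
  refine setIntegral_mono_set ?_ (Eventually.of_forall fun y => ?_) hLa.eventuallyLE
  · refine ((hc.mono hD'a).integrableOn_compact hD').of_forall_sdiff_eq_zero
      (M.φ a).open_target.measurableSet fun y hy => ?_
    rw [hη0 _ fun hd => hy.2 ⟨_, hd, (M.φ a).right_inv hy.1⟩, zero_mul, mul_zero]
  · exact mul_nonneg (dens_nonneg _ _) (mul_nonneg (hη01 _).1 (sq_nonneg _))

theorem norm_glob_le {L : Set (E n)} (hL : IsCompact L) (hLa : L ⊆ (M.φ a).target) :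
    ∃ C : ℝ, 0 < C ∧ ∀ w : E n → Cl n, ContDiffOn ℝ ∞ w (M.φ a).target →
      (∀ y ∈ (M.φ a).target, y ∉ L → w y = 0) →
      ‖M.glob a w‖ ^ 2 ≤ C * ∫ y in L, ‖w y‖ ^ 2 := by
  obtain ⟨C, hC, hb⟩ := glob_dens_bound hL hLa
  refine ⟨C, hC, fun w hw h0 => ?_⟩
  have hg : M.Gl a w := ⟨hw, L, hL, hLa, h0⟩
  refine le_trans (le_of_eq ?_) (glob_int_cmp hL hLa hb (hw.continuousOn.mono hLa)).2
  rw [← real_inner_self_eq_norm_sq, inner_glob hg,
    ← setIntegral_eq_of_subset_of_forall_sdiff_eq_zero (M.φ a).open_target.measurableSet hLa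
      fun y hy => by rw [h0 y hy.1 hy.2, norm_zero, zero_pow two_ne_zero, mul_zero]]
  refine setIntegral_congr_fun (M.φ a).open_target.measurableSet fun y hy => ?_
  rw [loc_glob hg hy, real_inner_self_eq_norm_sq]

end SZ
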