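import Pool.Agent.P.MP_8db816_gt.SZ.ProdSec
import Pool.Agent.P.MP_8db816_gt.SZ.Glob

/-! Exterior products span a dense subspace. -/

noncomputable section

namespace SZ

open Set CliffordAlgebra Filter Topology MeasureTheory Atl.Sec
open scoped ContDiff RealInnerProductSpace

variable {a b : ℕ}

namespace DenseAux

/-- Sums of products of smooth functions, restricted to `Z`. -/
def alg (Z : Set (E a × E b)) : Subalgebra ℝ C(Z, ℝ) where
  carrier := {g | ∃ (ι : Type) (_ : Fintype ι) (p : ι → E a → ℝ) (q : ι → E b → ℝ),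
    (∀ i, ContDiff ℝ ∞ (p i)) ∧ (∀ i, ContDiff ℝ ∞ (q i)) ∧
      ∀ z : Z, g z = ∑ i, p i z.1.1 * q i z.1.2}
  mul_mem' := by
    rintro g g' ⟨ι, _, p, q, hp, hq, h⟩ ⟨ι', _, p', q', hp', hq', h'⟩
    refine ⟨ι × ι', inferInstance, fun i x => p i.1 x * p' i.2 x, fun i y => q i.1 y * q' i.2 y,
      fun i => (hp _).mul (hp' _), fun i => (hq _).mul (hq' _), fun z => ?_⟩
    rw [ContinuousMap.mul_apply, h, h', Finset.sum_mul_sum, Fintype.sum_prod_type]
    exact Finset.sum_congr rfl fun i _ => Finset.sum_congr rfl fun j _ => by ring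
  add_mem' := by
    rintro g g' ⟨ι, _, p, q, hp, hq, h⟩ ⟨ι', _, p', q', hp', hq', h'⟩
    refine ⟨ι ⊕ ι', inferInstance, Sum.elim p p', Sum.elim q q', ?_, ?_, fun z => ?_⟩
    · rintro (i | i)
      exacts [hp i, hp' i]
    · rintro (i | i)
      exacts [hq i, hq' i]
    · rw [ContinuousMap.add_apply, h, h', Fintype.sum_sum_type]
      rfl
  algebraMap_mem' r := ⟨Unit, inferInstance, fun _ _ => r, fun _ _ => 1, fun _ => contDiff_const,
    fun _ => contDiff_const, fun z => by simp⟩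

theorem alg_sep (Z : Set (E a × E b)) : (alg Z).SeparatesPoints := by
  intro z z' h
  by_cases h1 : z.1.1 = z'.1.1
  · have h2 : z.1.2 ≠ z'.1.2 := fun h2 => h (Subtype.ext (Prod.ext h1 h2))
    obtain ⟨j, hj⟩ := Function.ne_iff.1 h2
    refine ⟨_, ⟨⟨fun w : Z => w.1.2 j, by fun_prop⟩, ⟨Unit, inferInstance, fun _ _ => 1,
      fun _ y => y j, fun _ => contDiff_const, fun _ => contDiff_apply ℝ ℝ j, fun w => by simp⟩,
      rfl⟩, hj⟩
  · obtain ⟨j, hj⟩ := Function.ne_iff.1 h1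
    refine ⟨_, ⟨⟨fun w : Z => w.1.1 j, by fun_prop⟩, ⟨Unit, inferInstance, fun _ x => x j,
      fun _ _ => 1, fun _ => contDiff_apply ℝ ℝ j, fun _ => contDiff_const, fun w => by simp⟩,
      rfl⟩, hj⟩

theorem exists_sec {n : ℕ} {M : Atl n} {c : M.A} {η : M.X → ℝ} (hη : M.Sm η) {C : Set M.X}
    (hC : IsCompact C) (hCc : C ⊆ (M.φ c).source) (h0 : ∀ x ∉ C, η x = 0) {p : E n → ℝ}
    (hp : ContDiff ℝ ∞ p) (m : Cl n) : ∃ A : M.Sec, A.Sup C ∧
      ∀ x ∈ (M.φ c).source, A.fam c x = (η x * p (M.φ c x)) • m := by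
  have h1 : ∀ y ∈ (M.φ c).target, y ∉ M.φ c '' C → (η ((M.φ c).symm y) * p y) • m = 0 := by
    intro y hy hy'
    rw [h0 _ fun h => hy' ⟨_, h, (M.φ c).right_inv hy⟩, zero_mul, zero_smul]
  have h2 : M.Gl c fun y => (η ((M.φ c).symm y) * p y) • m :=
    ⟨((hη c).mul hp.contDiffOn).smul contDiffOn_const, M.φ c '' C, isCompact_chart_image hC hCc,
      by rintro _ ⟨x, hx, rfl⟩; exact (M.φ c).map_source (hCc hx), h1⟩
  refine ⟨M.glob c _, (sup_glob h1).mono ?_, fun x hx => ?_⟩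
  · rintro _ ⟨_, ⟨⟨x, hx, rfl⟩, -⟩, rfl⟩
    rwa [(M.φ c).left_inv (hCc hx)]
  · rw [fam_glob h2 hx, (M.φ c).left_inv hx]

theorem fam_sum {n : ℕ} {M : Atl n} {ι : Type} (s : Finset ι) (ψ : ι → M.Sec) (c : M.A) (x : M.X) :
    (∑ i ∈ s, ψ i).fam c x = ∑ i ∈ s, (ψ i).fam c x := by
  classical
  induction s using Finset.induction_on with
  | empty => rfl
  | insert i s hi ih => rw [Finset.sum_insert hi, Finset.sum_insert hi, fam_add, ih]

end DenseAux

open DenseAux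

/-- Stone-Weierstrass on a product of compact sets. -/
theorem exists_sum_mul_near {K : Set (E a)} {L : Set (E b)} (hK : IsCompact K) (hL : IsCompact L)
    {f : E a × E b → ℝ} (hf : ContinuousOn f (K ×ˢ L)) {δ : ℝ} (hδ : 0 < δ) :
    ∃ (k : ℕ) (p : Fin k → E a → ℝ) (q : Fin k → E b → ℝ), (∀ i, ContDiff ℝ ∞ (p i)) ∧
      (∀ i, ContDiff ℝ ∞ (q i)) ∧ ∀ x ∈ K, ∀ y ∈ L, |f (x, y) - ∑ i, p i x * q i y| ≤ δ := by
  have : CompactSpace (K ×ˢ L : Set (E a × E b)) := isCompact_iff_compactSpace.1 (hK.prod hL)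
  obtain ⟨⟨g, ι, _, p, q, hp, hq, hg⟩, h⟩ :=
    ContinuousMap.exists_mem_subalgebra_near_continuous_of_separatesPoints (alg (K ×ˢ L))
      (alg_sep _) _ hf.domRestrict δ hδ
  refine ⟨Fintype.card ι, p ∘ (Fintype.equivFin ι).symm, q ∘ (Fintype.equivFin ι).symm,
    fun i => hp _, fun i => hq _, fun x hx y hy => ?_⟩
  have h1 := h ⟨(x, y), hx, hy⟩
  have h2 := hg ⟨(x, y), hx, hy⟩
  have h3 := (Fintype.equivFin ι).symm.sum_comp fun i => p i x * q i y
  rw [abs_sub_comm]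
  simp only [Function.comp]
  rw [h3, ← h2]
  exact h1.le

namespace DenseAux

theorem piece {M : Atl a} {N : Atl b} (ψ : (M.prod N).Sec) {c : M.A} {d : N.A} {η : M.X → ℝ}
    {θ : N.X → ℝ} (hη : M.Sm η) (hθ : N.Sm θ) {C : Set M.X} {D : Set N.X} (hC : IsCompact C)
    (hD : IsCompact D) (hCc : C ⊆ (M.φ c).source) (hDd : D ⊆ (N.φ d).source)
    (hη0 : ∀ x ∉ C, η x = 0) (hθ0 : ∀ y ∉ D, θ y = 0) (hη1 : ∀ x, |η x| ≤ 1) (hθ1 : ∀ y, |θ y| ≤ 1) :
    (M.prod N).mul (fun z => η z.1 * θ z.2) ψ ∈ (Submodule.span ℝ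
      (Set.range fun z : M.Sec × N.Sec => tens M N z.1 z.2)).topologicalClosure := by
  have hsm : (M.prod N).Sm fun z => η z.1 * θ z.2 := hη.fst.mul hθ.snd
  obtain ⟨B, hB0, hB⟩ := norm_le_of_compact (M := M.prod N) (hC.prod hD) (by
    rw [Atl.car_prod]
    exact prod_mono (hCc.trans (M.source_subset c)) (hDd.trans (N.source_subset d)))
  let m : Finset (Fin a) × Finset (Fin b) → Cl (a + b) := fun i => ten (mono i.1) (mono i.2)
  let R : ℝ := ∑ i, ‖m i‖
  have hR : 0 ≤ R := Finset.sum_nonneg fun _ _ => norm_nonneg _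
  refine Metric.mem_closure_iff.2 fun ε hε => ?_
  have hδ : 0 < ε / (B * R + 1) := by positivity
  set δ := ε / (B * R + 1) with hδ'
  have hcont : ContinuousOn (fun w : E a × E b =>
      ψ.fam (c, d) (((M.prod N).φ (c, d)).symm (Fin.appendHomeomorph a b w)))
      ((M.φ c '' C) ×ˢ (N.φ d '' D)) := by
    refine (ψ.ok.sm (c, d)).continuousOn.comp (Fin.appendHomeomorph a b).continuous.continuousOn ?_
    rintro ⟨_, _⟩ ⟨⟨x, hx, rfl⟩, ⟨y, hy, rfl⟩⟩
    exact ((M.prod N).φ (c, d)).map_source (x := (x, y)) ⟨hCc hx, hDd hy⟩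
  have h1 := fun i => exists_sum_mul_near (isCompact_chart_image hC hCc)
    (isCompact_chart_image hD hDd) ((continuousOn_const (c := m i)).inner (𝕜 := ℝ) hcont) hδ
  choose k p q hp hq hpq using h1
  choose A hA hA' using fun i j => exists_sec hη hC hCc hη0 (hp i j) (mono i.1)
  choose A' hA1 hA1' using fun i j => exists_sec hθ hD hDd hθ0 (hq i j) (mono i.2)
  refine ⟨∑ i, ∑ j, tens M N (A i j) (A' i j), Submodule.sum_mem _ fun i _ =>
    Submodule.sum_mem _ fun j _ => Submodule.subset_span ⟨(A i j, A' i j), rfl⟩, ?_⟩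
  rw [dist_eq_norm]
  refine (hB _ (δ * R) (by positivity) (sup_iff.2 fun e z hz => ?_) fun z hz => ?_).trans_lt ?_
  · rw [fam_sub, fam_mul hsm, fam_sum]
    simp only [fam_sum, fam_tens]
    rcases not_and_or.1 hz with h | h
    · simp [hη0 _ h, sup_iff.1 (hA _ _) _ _ h, ten]
    · simp [hθ0 _ h, sup_iff.1 (hA1 _ _) _ _ h, ten]
  · have hz' : z ∈ ((M.prod N).φ (c, d)).source := ⟨hCc hz.1, hDd hz.2⟩
    rw [norm_ev _ hz', fam_sub, fam_mul hsm, fam_sum]
    simp only [fam_sum, fam_tens]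
    have e1 : ψ.fam (c, d) z = ∑ i, ⟪m i, ψ.fam (c, d) z⟫ • m i := by
      rw [Fintype.sum_prod_type]; exact eq_sum_inl_inr _
    have e2 : ∀ i, ∑ j, ten ((A i j).fam c z.1) ((A' i j).fam d z.2) =
        (η z.1 * θ z.2 * ∑ j, p i j (M.φ c z.1) * q i j (N.φ d z.2)) • m i := by
      intro i
      rw [Finset.mul_sum, Finset.sum_smul]
      refine Finset.sum_congr rfl fun j _ => ?_
      rw [hA' i j _ hz'.1, hA1' i j _ hz'.2]
      simp only [ten, m, map_smul, smul_mul_assoc, mul_smul_comm, smul_smul]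
      congr 1
      ring
    rw [e1, Finset.smul_sum, ← Finset.sum_sub_distrib, Finset.mul_sum]
    refine (norm_sum_le _ _).trans (Finset.sum_le_sum fun i _ => ?_)
    have e3 := hpq i _ ⟨_, hz.1, rfl⟩ _ ⟨_, hz.2, rfl⟩
    have e4 : ((M.prod N).φ (c, d)).symm (Fin.appendHomeomorph a b (M.φ c z.1, N.φ d z.2)) = z :=
      ((M.prod N).φ (c, d)).left_inv hz'
    simp only [e4] at e3
    rw [e2, smul_smul, ← sub_smul, ← mul_sub, norm_smul, Real.norm_eq_abs, abs_mul, abs_mul]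
    refine mul_le_mul_of_nonneg_right ?_ (norm_nonneg _)
    calc _ ≤ 1 * 1 * δ := by gcongr; exacts [hη1 _, hθ1 _]
      _ = δ := by ring
  · rw [hδ', ← mul_assoc, mul_right_comm, ← mul_div_assoc, div_lt_iff₀ (by positivity)]
    nlinarith

end DenseAux

theorem dense_tens (M : Atl a) (N : Atl b) : Dense (Submodule.span ℝ
    (Set.range fun z : M.Sec × N.Sec => tens M N z.1 z.2) : Set (M.prod N).Sec) := by
  intro ψ
  obtain ⟨K, hK, hKc, hψ⟩ := exists_sup ψ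
  rw [Atl.car_prod] at hKc
  obtain ⟨s, η, C, h1, h2, h3, h4, h5, h6, h7⟩ := M.exists_pou_charts (hK.image continuous_fst)
    (by rintro _ ⟨z, hz, rfl⟩; exact (hKc hz).1)
  obtain ⟨t, θ, D, g1, g2, g3, g4, g5, g6, g7⟩ := N.exists_pou_charts (hK.image continuous_snd)
    (by rintro _ ⟨z, hz, rfl⟩; exact (hKc hz).2)
  have h := sum_mul_eq (M := M.prod N) (s ×ˢ t) (η := fun i z => η i.1 z.1 * θ i.2 z.2)
    (fun i _ => (h1 i.1).fst.mul (g1 i.2).snd) hψ fun z hz => by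
      rw [Finset.sum_product' s t fun c d => η c z.1 * θ d z.2, ← Finset.sum_mul_sum,
        (h6 _ ⟨z, hz, rfl⟩).self_of_nhds, (g6 _ ⟨z, hz, rfl⟩).self_of_nhds, one_mul]
  rw [← h, ← Submodule.topologicalClosure_coe]
  refine Submodule.sum_mem _ fun i hi => piece ψ (h1 _) (g1 _) (h3 _) (g3 _) (h4 _) (g4 _) (h5 _)
    (g5 _) (fun x => ?_) fun y => ?_
  · rw [abs_of_nonneg (h2 _ _)]
    exact (Finset.single_le_sum (fun c _ => h2 c x) (Finset.mem_product.1 hi).1).trans (h7 x)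
  · rw [abs_of_nonneg (g2 _ _)]
    exact (Finset.single_le_sum (fun c _ => g2 c y) (Finset.mem_product.1 hi).2).trans (g7 y)

end SZ
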