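import Pool.Agent.P.MP_8db816_gt.SZ.Fun

/-! Composition, inversion and restriction of spin embeddings. -/

noncomputable section

namespace SZ

open Set CliffordAlgebra Filter Topology
open scoped ContDiff RealInnerProductSpace

variable {n m a b : ℕ} {M N N' P : Atl n} {x : M.X}

open Classical in
/-- The lift of `f` at `x` in the chosen charts. -/
def Emb.mu (f : Emb M N) (x : M.X) : Cl n :=
  if h : x ∈ f.f.source then f.σ (N.ch (f.tgt (f.f.map_source h))) (M.ch (f.src h)) x else 1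

theorem Emb.map_car (f : Emb M N) (hx : x ∈ f.f.source) : f.f x ∈ N.car :=
  f.tgt (f.f.map_source hx)

private theorem ch_congr (M : Atl n) {x y : M.X} (h : x = y) (hx : x ∈ M.car) (hy : y ∈ M.car) :
    M.ch hx = M.ch hy := by
  subst h
  rfl

private theorem mu_eq (f : Emb M N) (hx : x ∈ f.f.source) :
    f.mu x = f.σ (N.ch (f.map_car hx)) (M.ch (f.src hx)) x := dif_pos hx

theorem Emb.p_mul_self (f : Emb M N) : f.p * f.p = 1 := by
  rcases f.hp with h | h <;> simp [h]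

theorem Emb.mu_mem (f : Emb M N) (x : M.X) : f.mu x ∈ pinGroup (Q n) := by
  by_cases hx : x ∈ f.f.source
  · rw [mu_eq f hx]
    exact (f.σ_mem hx (M.ch_spec _) (N.ch_spec _)).1
  · rw [Emb.mu, dif_neg hx]
    exact one_mem _

theorem Emb.involute_mu (f : Emb M N) (hx : x ∈ f.f.source) : involute (f.mu x) = f.p • f.mu x := by
  rw [mu_eq f hx]
  exact (f.σ_mem hx (M.ch_spec _) (N.ch_spec _)).2

theorem Emb.star_mu_mul (f : Emb M N) (x : M.X) : star (f.mu x) * f.mu x = 1 :=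
  pinGroup.star_mul_self_of_mem (f.mu_mem x)

theorem Emb.mu_mul_star (f : Emb M N) (x : M.X) : f.mu x * star (f.mu x) = 1 :=
  pinGroup.mul_star_self_of_mem (f.mu_mem x)

theorem Emb.σ_eq (f : Emb M N) (hx : x ∈ f.f.source) {c : M.A} {d : N.A}
    (hc : x ∈ (M.φ c).source) (hd : f.f x ∈ (N.φ d).source) :
    f.σ d c x = N.s d (N.ch (f.map_car hx)) (f.f x) * f.mu x * M.s (M.ch (f.src hx)) c x := by
  rw [mu_eq f hx, f.left _ _ _ x hx (M.ch_spec _) (N.ch_spec _) hd,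
    f.right _ _ _ x hx (M.ch_spec _) hc hd]

private theorem σ_mul_σ_chart (g : Emb N P) (f : Emb M N) (hx : x ∈ f.f.source)
    (hg : f.f x ∈ g.f.source) {c : P.A} {d d' : N.A} {a : M.A} (ha : x ∈ (M.φ a).source)
    (hd : f.f x ∈ (N.φ d).source) (hd' : f.f x ∈ (N.φ d').source)
    (hc : g.f (f.f x) ∈ (P.φ c).source) :
    g.σ c d (f.f x) * f.σ d a x = g.σ c d' (f.f x) * f.σ d' a x := by
  rw [← f.left d d' a x hx ha hd' hd, ← mul_assoc, g.right c d d' _ hg hd hd' hc]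

private theorem σ_mul_σ (g : Emb N P) (f : Emb M N) (hx : x ∈ f.f.source)
    (hg : f.f x ∈ g.f.source) {c : P.A} {d : N.A} {a : M.A} (ha : x ∈ (M.φ a).source)
    (hd : f.f x ∈ (N.φ d).source) (hc : g.f (f.f x) ∈ (P.φ c).source) :
    g.σ c d (f.f x) * f.σ d a x = P.s c (P.ch (g.map_car hg)) (g.f (f.f x)) *
      (g.mu (f.f x) * f.mu x) * M.s (M.ch (f.src hx)) a x := by
  rw [σ_mul_σ_chart g f hx hg ha hd (N.ch_spec (f.map_car hx)) hc, mu_eq f hx, mu_eq g hg,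
    ← mul_assoc, g.left _ _ _ _ hg (N.ch_spec _) (P.ch_spec _) hc, mul_assoc,
    f.right _ _ _ x hx (M.ch_spec _) ha (N.ch_spec _)]

theorem sq_iff {g : Emb N P} {f : Emb M N} {g' : Emb N' P} {f' : Emb M N'} {S : Set M.X} :
    Sq g f g' f' S ↔ ∀ x ∈ S, x ∈ f.f.source ∧ f.f x ∈ g.f.source ∧ x ∈ f'.f.source ∧
      f'.f x ∈ g'.f.source ∧ g.f (f.f x) = g'.f (f'.f x) ∧
      g.mu (f.f x) * f.mu x = g'.mu (f'.f x) * f'.mu x := by
  refine forall₂_congr fun x _ => and_congr_right fun h1 => and_congr_right fun h2 =>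
    and_congr_right fun h3 => and_congr_right fun h4 => and_congr_right fun h5 => ⟨?_, ?_⟩
  · intro h6
    rw [mu_eq f h1, mu_eq g h2, mu_eq f' h3, mu_eq g' h4,
      ← ch_congr P h5 (g.map_car h2) (g'.map_car h4)]
    exact h6 _ _ _ _ (M.ch_spec _) (N.ch_spec _) (N'.ch_spec _) (P.ch_spec _)
  · intro h6 c d d' a ha hd hd' hc
    rw [σ_mul_σ g f h1 h2 ha hd hc, σ_mul_σ g' f' h3 h4 ha hd' (h5 ▸ hc), h6,
      ch_congr P h5 (g.map_car h2) (g'.map_car h4), h5]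

theorem Sq.mono {g : Emb N P} {f : Emb M N} {g' : Emb N' P} {f' : Emb M N'} {S T : Set M.X}
    (h : Sq g f g' f' S) (hT : T ⊆ S) : Sq g f g' f' T := fun x hx => h x (hT hx)

theorem Sq.symm {g : Emb N P} {f : Emb M N} {g' : Emb N' P} {f' : Emb M N'} {S : Set M.X}
    (h : Sq g f g' f' S) : Sq g' f' g f S := fun x hx => by
  obtain ⟨h1, h2, h3, h4, h5, h6⟩ := h x hx
  exact ⟨h3, h4, h1, h2, h5.symm,
    fun c d d' a ha hd hd' hc => (h6 c d' d a ha hd' hd (h5 ▸ hc)).symm⟩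

@[simp] theorem Emb.id_p (M : Atl n) : (Emb.id M).p = 1 := rfl

@[simp] theorem Emb.id_apply (M : Atl n) (x : M.X) : (Emb.id M).f x = x := rfl

@[simp] theorem Emb.id_symm_apply (M : Atl n) (x : M.X) : (Emb.id M).f.symm x = x := rfl

@[simp] theorem Emb.id_source (M : Atl n) : (Emb.id M).f.source = M.car := rfl

@[simp] theorem Emb.id_target (M : Atl n) : (Emb.id M).f.target = M.car := rfl

@[simp] theorem Emb.mu_id (M : Atl n) (x : M.X) : (Emb.id M).mu x = 1 := by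
  by_cases hx : x ∈ (Emb.id M).f.source
  · rw [mu_eq _ hx]
    exact M.s_self (M.ch_spec hx)
  · rw [Emb.mu, dif_neg hx]

open Classical in
theorem comp_ok (g : Emb N P) (f : Emb M N) : EmbOK M P (g.p * f.p) (f.f.trans g.f)
    fun c a x => if h : f.f x ∈ N.car then g.σ c (N.ch h) (f.f x) * f.σ (N.ch h) a x else 1 where
  hp := by rcases f.hp with h | h <;> rcases g.hp with h' | h' <;> simp [h, h']
  src _ hx := f.src hx.1
  tgt _ hy := g.tgt hy.1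
  lift c a := by
    refine Lift.of_locally (OpenPartialHomeomorph.open_source _) fun y hy => ?_
    have hd0 := N.ch_spec (f.map_car hy.2.1.1)
    generalize N.ch (f.map_car hy.2.1.1) = d at hd0
    have hV := ((M.φ a).symm.trans (f.f.trans (N.φ d))).open_source
    have hVU := hV.inter ((M.φ a).symm.trans ((f.f.trans g.f).trans (P.φ c))).open_source
    refine ⟨_, hV, ⟨hy.1, hy.2.1.1, hd0⟩, ?_⟩
    have h1 := (f.lift d a).congr hVU inter_subset_left (fun _ _ => rfl) fun _ _ => rfl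
    have hli : ∀ z ∈ ((M.φ a).symm.trans (f.f.trans (N.φ d))).source,
        (N.φ d).symm (((M.φ a).symm.trans (f.f.trans (N.φ d))) z) = f.f ((M.φ a).symm z) :=
      fun z hz => (N.φ d).left_inv hz.2.2
    have h2 := (g.lift c d).comp h1 hVU (OpenPartialHomeomorph.open_source _) fun z hz =>
      ⟨(N.φ d).map_source hz.1.2.2, by
        change (N.φ d).symm _ ∈ (g.f.trans (P.φ c)).source
        rw [hli z hz.1]
        exact ⟨hz.2.2.1.2, hz.2.2.2⟩⟩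
    refine h2.congr hVU subset_rfl (fun z hz => ?_) fun z hz => ?_
    · change P.φ c (g.f (f.f ((M.φ a).symm z))) = P.φ c (g.f ((N.φ d).symm _))
      rw [hli z hz.1]
    · have hz' : f.f ((M.φ a).symm z) ∈ N.car := f.map_car hz.1.2.1
      change (if h : f.f ((M.φ a).symm z) ∈ N.car then _ else 1) =
        g.σ c d ((N.φ d).symm _) * f.σ d a ((M.φ a).symm z)
      rw [dif_pos hz', hli z hz.1]
      exact σ_mul_σ_chart g f hz.1.2.1 hz.2.2.1.2 ((M.φ a).map_target hz.1.1) (N.ch_spec _)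
        hz.1.2.2 hz.2.2.2
  left c' c a x hx ha hc hc' := by
    rw [dif_pos (f.map_car hx.1), dif_pos (f.map_car hx.1), ← mul_assoc]
    exact congrArg (· * _) (g.left c' c _ _ hx.2 (N.ch_spec _) hc hc')
  right c a a' x hx ha ha' hc := by
    rw [dif_pos (f.map_car hx.1), dif_pos (f.map_car hx.1), mul_assoc,
      f.right _ a a' x hx.1 ha ha' (N.ch_spec _)]

open Classical in
/-- The composition `g ∘ f`. -/
def Emb.comp (g : Emb N P) (f : Emb M N) : Emb M P :=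
  ⟨g.p * f.p, f.f.trans g.f,
    fun c a x => if h : f.f x ∈ N.car then g.σ c (N.ch h) (f.f x) * f.σ (N.ch h) a x else 1,
    comp_ok g f⟩

@[simp] theorem Emb.comp_p (g : Emb N P) (f : Emb M N) : (g.comp f).p = g.p * f.p := rfl

theorem Emb.comp_f (g : Emb N P) (f : Emb M N) : (g.comp f).f = f.f.trans g.f := rfl

@[simp] theorem Emb.comp_apply (g : Emb N P) (f : Emb M N) (x : M.X) :
    (g.comp f).f x = g.f (f.f x) := rfl

theorem Emb.comp_source (g : Emb N P) (f : Emb M N) :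
    (g.comp f).f.source = f.f.source ∩ f.f ⁻¹' g.f.source := rfl

theorem Emb.comp_target (g : Emb N P) (f : Emb M N) :
    (g.comp f).f.target = g.f.target ∩ g.f.symm ⁻¹' f.f.target := rfl

theorem Emb.comp_σ (g : Emb N P) (f : Emb M N) (hx : x ∈ (g.comp f).f.source) {c : P.A} {d : N.A}
    {a : M.A} (ha : x ∈ (M.φ a).source) (hd : f.f x ∈ (N.φ d).source)
    (hc : g.f (f.f x) ∈ (P.φ c).source) :
    (g.comp f).σ c a x = g.σ c d (f.f x) * f.σ d a x :=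
  (dif_pos (f.map_car hx.1)).trans (σ_mul_σ_chart g f hx.1 hx.2 ha (N.ch_spec _) hd hc)

theorem Emb.mu_comp (g : Emb N P) (f : Emb M N) (hx : x ∈ (g.comp f).f.source) :
    (g.comp f).mu x = g.mu (f.f x) * f.mu x := by
  rw [mu_eq _ hx, mu_eq g (x := f.f x) hx.2, mu_eq f hx.1]
  exact g.comp_σ f hx (M.ch_spec _) (N.ch_spec _) (P.ch_spec _)

theorem symm_ok (f : Emb M N) :
    EmbOK N M f.p f.f.symm fun a d y => star (f.σ d a (f.f.symm y)) where
  hp := f.hp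
  src := f.tgt
  tgt := f.src
  lift a d := by
    have h := Lift.symm _ (f.lift d a) ((M.fr a).mono fun _ hy => hy.1)
      ((N.fr d).mono fun _ hy => hy.1.1)
    refine h.congr (OpenPartialHomeomorph.open_source _)
      (fun y hy => ⟨⟨hy.1, hy.2.1⟩, hy.2.2⟩) (fun _ _ => rfl) fun y hy => ?_
    change star (f.σ d a (f.f.symm ((N.φ d).symm y))) =
      star (f.σ d a ((M.φ a).symm (M.φ a (f.f.symm ((N.φ d).symm y)))))
    rw [(M.φ a).left_inv (x := f.f.symm ((N.φ d).symm y)) hy.2.2]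
  left a' a d y hy hd ha ha' := by
    have hd' : f.f (f.f.symm y) ∈ (N.φ d).source := by rwa [f.f.right_inv hy]
    rw [← f.right d a a' _ (f.f.map_target hy) ha ha' hd', star_mul, M.star_s ha ha']
  right a d d' y hy hd hd' ha := by
    have h1 : f.f (f.f.symm y) = y := f.f.right_inv hy
    rw [← f.left d' d a _ (f.f.map_target hy) ha (h1.symm ▸ hd) (h1.symm ▸ hd'), star_mul, h1,
      N.star_s hd' hd]

/-- The inverse. -/
def Emb.symm (f : Emb M N) : Emb N M :=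
  ⟨f.p, f.f.symm, fun a d y => star (f.σ d a (f.f.symm y)), symm_ok f⟩

@[simp] theorem Emb.symm_p (f : Emb M N) : f.symm.p = f.p := rfl

@[simp] theorem Emb.symm_f (f : Emb M N) : f.symm.f = f.f.symm := rfl

theorem Emb.mu_symm (f : Emb M N) (hx : x ∈ f.f.source) :
    f.symm.mu (f.f x) = star (f.mu x) := by
  have hy : f.f x ∈ f.symm.f.source := f.f.map_source hx
  rw [mu_eq _ hy, mu_eq f hx,
    ch_congr M (x := f.symm.f (f.f x)) (f.f.left_inv hx) (f.symm.map_car hy) (f.src hx)]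
  change star (f.σ _ _ (f.f.symm (f.f x))) = _
  rw [f.f.left_inv hx]

theorem Emb.mu_symm' (f : Emb M N) {y : N.X} (hy : y ∈ f.f.target) :
    f.symm.mu y = star (f.mu (f.f.symm y)) := by
  rw [← f.mu_symm (f.f.map_target hy), f.f.right_inv hy]

theorem restr_ok (M : Atl n) {U : Set M.X} (hU : IsOpen U) :
    AtlOK (fun a => (M.φ a).restrOpen U hU) M.e M.s where
  fr a := (M.fr a).mono fun _ hy => hy.1
  lift a b := (M.lift a b).congr (OpenPartialHomeomorph.open_source _)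
    (fun _ hy => ⟨hy.1.1, hy.2.1⟩) (fun _ _ => rfl) fun _ _ => rfl
  cocycle a b c x ha hb hc := M.cocycle a b c x ha.1 hb.1 hc.1

/-- An open part of a manifold. -/
@[reducible] def Atl.restr (M : Atl n) (U : Set M.X) (hU : IsOpen U) : Atl n where
  X := M.X
  A := M.A
  φ a := (M.φ a).restrOpen U hU
  e := M.e
  s := M.s
  ok := restr_ok M hU

theorem Atl.car_restr (M : Atl n) (U : Set M.X) (hU : IsOpen U) :
    (M.restr U hU).car = M.car ∩ U := by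
  ext x
  constructor
  · intro h
    obtain ⟨a, ha⟩ := Atl.mem_car.1 h
    exact ⟨Atl.mem_car.2 ⟨a, ha.1⟩, ha.2⟩
  · rintro ⟨h, hx⟩
    obtain ⟨a, ha⟩ := Atl.mem_car.1 h
    exact Atl.mem_car.2 ⟨a, ha, hx⟩

theorem incl_ok (M : Atl n) {U : Set M.X} (hU : IsOpen U) : EmbOK (M.restr U hU) M 1
    (OpenPartialHomeomorph.ofSet (M.car ∩ U) (M.isOpen_car.inter hU)) M.s where
  hp := Or.inl rfl
  src := (M.car_restr U hU).ge
  tgt := inter_subset_left
  lift b a := (M.lift b a).congr (OpenPartialHomeomorph.open_source _)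
    (fun _ hy => ⟨hy.1.1, hy.2.2⟩) (fun _ _ => rfl) fun _ _ => rfl
  left b' b a x _ ha hb hb' := M.cocycle b' b a x hb' hb ha.1
  right b a a' x _ ha ha' hb := M.cocycle b a a' x hb ha.1 ha'.1

/-- The inclusion of an open part. -/
def Atl.incl (M : Atl n) (U : Set M.X) (hU : IsOpen U) : Emb (M.restr U hU) M :=
  ⟨1, OpenPartialHomeomorph.ofSet (M.car ∩ U) (M.isOpen_car.inter hU), M.s, incl_ok M hU⟩

@[simp] theorem Atl.incl_p (M : Atl n) (U : Set M.X) (hU : IsOpen U) : (M.incl U hU).p = 1 := rfl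

@[simp] theorem Atl.incl_apply (M : Atl n) (U : Set M.X) (hU : IsOpen U) (x : M.X) :
    (M.incl U hU).f x = x := rfl

@[simp] theorem Atl.incl_symm_apply (M : Atl n) (U : Set M.X) (hU : IsOpen U) (x : M.X) :
    (M.incl U hU).f.symm x = x := rfl

theorem Atl.incl_source (M : Atl n) (U : Set M.X) (hU : IsOpen U) :
    (M.incl U hU).f.source = M.car ∩ U := rfl

theorem Atl.incl_target (M : Atl n) (U : Set M.X) (hU : IsOpen U) :
    (M.incl U hU).f.target = M.car ∩ U := rfl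

theorem Atl.Psc.restr {S : Set M.X} (h : M.Psc S) (U : Set M.X) (hU : IsOpen U) :
    (M.restr U hU).Psc S := fun a x hx hS => h a x hx.1 hS

section Prod

variable {M₁ N₁ N₁' P₁ : Atl a} {M₂ N₂ N₂' P₂ : Atl b}

@[simp] theorem Emb.prod_p (f : Emb M₁ N₁) (g : Emb M₂ N₂) : (f.prod g).p = f.p * g.p := rfl

@[simp] theorem Emb.prod_apply (f : Emb M₁ N₁) (g : Emb M₂ N₂) (z : M₁.X × M₂.X) :
    (f.prod g).f z = (f.f z.1, g.f z.2) := rfl

theorem Emb.prod_source (f : Emb M₁ N₁) (g : Emb M₂ N₂) :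
    (f.prod g).f.source = f.f.source ×ˢ g.f.source := rfl

theorem Emb.prod_target (f : Emb M₁ N₁) (g : Emb M₂ N₂) :
    (f.prod g).f.target = f.f.target ×ˢ g.f.target := rfl

open Classical in
/-- The transition from the product of the chosen charts to the chosen chart of the product. -/
def kap (M₁ : Atl a) (M₂ : Atl b) (z : M₁.X × M₂.X) : Cl (a + b) :=
  if h : z.1 ∈ M₁.car ∧ z.2 ∈ M₂.car then
    (M₁.prod M₂).s ((M₁.prod M₂).ch ((M₁.car_prod M₂).ge h)) (M₁.ch h.1, M₂.ch h.2) z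
  else 1

private theorem ch_pair {z : M₁.X × M₂.X} (h₁ : z.1 ∈ M₁.car) (h₂ : z.2 ∈ M₂.car) :
    z ∈ ((M₁.prod M₂).φ (M₁.ch h₁, M₂.ch h₂)).source := ⟨M₁.ch_spec h₁, M₂.ch_spec h₂⟩

private theorem kap_eq {z : M₁.X × M₂.X} (h₁ : z.1 ∈ M₁.car) (h₂ : z.2 ∈ M₂.car)
    (h : z ∈ (M₁.prod M₂).car) :
    kap M₁ M₂ z = (M₁.prod M₂).s ((M₁.prod M₂).ch h) (M₁.ch h₁, M₂.ch h₂) z :=
  dif_pos (And.intro h₁ h₂)

private theorem ten_mul {x x' : Cl a} {y y' : Cl b} (h : involute y = y ∨ involute x' = x') :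
    ten x y * ten x' y' = ten (x * x') (y * y') := by
  have h' : inr a b y * inl a b x' = inl a b x' * inr a b y := by
    rcases h with h | h
    · exact inr_mul_inl_of_even h _
    · exact inr_mul_inl_of_even' _ h
  simp only [ten]
  rw [mul_assoc, ← mul_assoc (inr a b y), h', map_mul, map_mul]
  simp only [mul_assoc]

theorem kap_mem (z : M₁.X × M₂.X) : kap M₁ M₂ z ∈ pinGroup (Q (a + b)) := by
  by_cases h : z.1 ∈ M₁.car ∧ z.2 ∈ M₂.car
  · rw [kap_eq h.1 h.2 ((M₁.car_prod M₂).ge h)]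
    exact ((M₁.prod M₂).s_mem ((M₁.prod M₂).ch_spec _) (ch_pair h.1 h.2)).1
  · rw [kap, dif_neg h]
    exact one_mem _

theorem involute_kap (z : M₁.X × M₂.X) : involute (kap M₁ M₂ z) = kap M₁ M₂ z := by
  by_cases h : z.1 ∈ M₁.car ∧ z.2 ∈ M₂.car
  · rw [kap_eq h.1 h.2 ((M₁.car_prod M₂).ge h)]
    exact ((M₁.prod M₂).s_mem ((M₁.prod M₂).ch_spec _) (ch_pair h.1 h.2)).2
  · rw [kap, dif_neg h, map_one]

theorem Emb.mu_prod (f : Emb M₁ N₁) (g : Emb M₂ N₂) {z : M₁.X × M₂.X}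
    (hz : z ∈ (f.prod g).f.source) : (f.prod g).mu z =
      kap N₁ N₂ (f.f z.1, g.f z.2) * ten (f.mu z.1) (g.mu z.2) * star (kap M₁ M₂ z) := by
  have hc := ch_pair (f.src hz.1) (g.src hz.2)
  have hd := ch_pair (z := (f.f z.1, g.f z.2)) (f.map_car hz.1) (g.map_car hz.2)
  rw [mu_eq _ hz, mu_eq f hz.1, mu_eq g hz.2,
    kap_eq (f.src hz.1) (g.src hz.2) ((f.prod g).src hz),
    kap_eq (z := (f.f z.1, g.f z.2)) (f.map_car hz.1) (g.map_car hz.2) ((f.prod g).map_car hz),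
    (M₁.prod M₂).star_s ((M₁.prod M₂).ch_spec _) hc,
    ← (f.prod g).right _ _ _ z hz hc ((M₁.prod M₂).ch_spec _) ((N₁.prod N₂).ch_spec _),
    ← (f.prod g).left _ _ _ z hz hc hd ((N₁.prod N₂).ch_spec _)]
  rfl

theorem Emb.mu_prod_id (z : M₁.X × M₂.X) : ((Emb.id M₁).prod (Emb.id M₂)).mu z = 1 := by
  by_cases hz : z ∈ ((Emb.id M₁).prod (Emb.id M₂)).f.source
  · rw [Emb.mu_prod _ _ hz, Emb.mu_id, Emb.mu_id]
    simp only [ten, map_one, mul_one]
    exact pinGroup.mul_star_self_of_mem (kap_mem z)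
  · rw [Emb.mu, dif_neg hz]

theorem Sq.prod {g : Emb N₁ P₁} {f : Emb M₁ N₁} {g' : Emb N₁' P₁} {f' : Emb M₁ N₁'} {S : Set M₁.X}
    {k : Emb N₂ P₂} {h : Emb M₂ N₂} {k' : Emb N₂' P₂} {h' : Emb M₂ N₂'} {T : Set M₂.X}
    (h₁ : Sq g f g' f' S) (h₂ : Sq k h k' h' T) (hp : k.p = 1 ∨ f.p = 1)
    (hp' : k'.p = 1 ∨ f'.p = 1) :
    Sq (g.prod k) (f.prod h) (g'.prod k') (f'.prod h') (S ×ˢ T) := fun z hz => by
  obtain ⟨a1, a2, a3, a4, a5, a6⟩ := h₁ z.1 hz.1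
  obtain ⟨b1, b2, b3, b4, b5, b6⟩ := h₂ z.2 hz.2
  refine ⟨⟨a1, b1⟩, ⟨a2, b2⟩, ⟨a3, b3⟩, ⟨a4, b4⟩, Prod.ext a5 b5,
    fun c d d' e he hd hd' hc => ?_⟩
  have e1 : involute (k.σ c.2 d.2 (h.f z.2)) = k.σ c.2 d.2 (h.f z.2) ∨
      involute (f.σ d.1 e.1 z.1) = f.σ d.1 e.1 z.1 :=
    hp.imp (fun hp => by rw [(k.σ_mem b2 hd.2 hc.2).2, hp, one_smul])
      fun hp => by rw [(f.σ_mem a1 he.1 hd.1).2, hp, one_smul]
  have hc2 : k'.f (h'.f z.2) ∈ (P₂.φ c.2).source := b5 ▸ hc.2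
  have e2 : involute (k'.σ c.2 d'.2 (h'.f z.2)) = k'.σ c.2 d'.2 (h'.f z.2) ∨
      involute (f'.σ d'.1 e.1 z.1) = f'.σ d'.1 e.1 z.1 :=
    hp'.imp (fun hp => by rw [(k'.σ_mem b4 hd'.2 hc2).2, hp, one_smul])
      fun hp => by rw [(f'.σ_mem a3 he.1 hd'.1).2, hp, one_smul]
  exact (ten_mul e1).trans ((congrArg₂ ten (a6 c.1 d.1 d'.1 e.1 he.1 hd.1 hd'.1 hc.1)
    (b6 c.2 d.2 d'.2 e.2 he.2 hd.2 hd'.2 hc.2)).trans (ten_mul e2).symm)

/-- `mu` is multiplicative for compositions of products. -/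
theorem Emb.mu_prod_mul (g : Emb N₁ P₁) (f : Emb M₁ N₁) (k : Emb N₂ P₂) (h : Emb M₂ N₂)
    (hp : k.p = 1 ∨ f.p = 1) {z : M₁.X × M₂.X} (h₁ : z.1 ∈ (g.comp f).f.source)
    (h₂ : z.2 ∈ (k.comp h).f.source) :
    (g.prod k).mu (f.f z.1, h.f z.2) * (f.prod h).mu z = ((g.comp f).prod (k.comp h)).mu z := by
  have e1 : involute (k.mu (h.f z.2)) = k.mu (h.f z.2) ∨ involute (f.mu z.1) = f.mu z.1 :=
    hp.imp (fun hp => by rw [k.involute_mu (x := h.f z.2) h₂.2, hp, one_smul])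
      fun hp => by rw [f.involute_mu h₁.1, hp, one_smul]
  rw [Emb.mu_prod g k (z := (f.f z.1, h.f z.2)) ⟨h₁.2, h₂.2⟩, Emb.mu_prod f h ⟨h₁.1, h₂.1⟩,
    Emb.mu_prod (g.comp f) (k.comp h) ⟨h₁, h₂⟩, Emb.mu_comp g f h₁, Emb.mu_comp k h h₂,
    ← ten_mul e1]
  have h0 := pinGroup.star_mul_self_of_mem (kap_mem (M₁ := N₁) (M₂ := N₂) (f.f z.1, h.f z.2))
  simp only [mul_assoc]
  rw [← mul_assoc (star _) (kap N₁ N₂ _), h0, one_mul]
  rfl

/-- `mu` of a product only depends on the values and the `mu` of the factors. -/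
theorem Emb.mu_prod_congr {f f' : Emb M₁ N₁} {g g' : Emb M₂ N₂} {z : M₁.X × M₂.X}
    (hz : z ∈ (f.prod g).f.source) (hz' : z ∈ (f'.prod g').f.source) (h₁ : f.f z.1 = f'.f z.1)
    (h₂ : g.f z.2 = g'.f z.2) (m₁ : f.mu z.1 = f'.mu z.1) (m₂ : g.mu z.2 = g'.mu z.2) :
    (f.prod g).mu z = (f'.prod g').mu z := by
  rw [Emb.mu_prod f g hz, Emb.mu_prod f' g' hz', h₁, h₂, m₁, m₂]

end Prod

theorem flip_ok : EmbOK line line (-1) (Homeomorph.neg ℝ).toOpenPartialHomeomorph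
    fun _ _ _ => cl 0 where
  hp := Or.inr rfl
  src := car_line.ge.trans' (subset_univ _)
  tgt := car_line.ge.trans' (subset_univ _)
  lift _ _ := Lift.flip.congr (OpenPartialHomeomorph.open_source _) (subset_univ _)
    (fun y _ => funext fun i => by rw [Subsingleton.elim i default]; rfl) fun _ _ => rfl
  left _ _ _ _ _ _ _ _ := one_mul _
  right _ _ _ _ _ _ _ _ := mul_one _

/-- The reflection of the line. -/
def Emb.flip : Emb line line :=
  ⟨-1, (Homeomorph.neg ℝ).toOpenPartialHomeomorph, fun _ _ _ => cl 0, flip_ok⟩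

/-- The reflection `(x, t) ↦ (x, -t)` of a cylinder. -/
def Emb.refl (M : Atl m) : Emb (cyl M) (cyl M) := (Emb.id M).prod Emb.flip

@[simp] theorem Emb.refl_p (M : Atl m) : (Emb.refl M).p = -1 := one_mul _

@[simp] theorem Emb.refl_apply (M : Atl m) (z : M.X × ℝ) : (Emb.refl M).f z = (z.1, -z.2) := rfl

theorem Emb.refl_source (M : Atl m) : (Emb.refl M).f.source = (cyl M).car := by
  rw [Atl.car_prod, car_line]
  rfl

theorem Emb.refl_target (M : Atl m) : (Emb.refl M).f.target = (cyl M).car := by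
  rw [Atl.car_prod, car_line]
  rfl

@[simp] theorem Emb.refl_symm_apply (M : Atl m) (z : M.X × ℝ) :
    (Emb.refl M).f.symm z = (z.1, -z.2) := rfl

section CylProd

variable (B : Atl a) {M : Atl m} {Z Z' : Atl (m + 1)}

@[simp] theorem Emb.cylProd_p (e : Emb (cyl M) Z) : (e.cylProd B).p = e.p := rfl

@[simp] theorem Emb.cylProd_apply (e : Emb (cyl M) Z) (z : (B.X × M.X) × ℝ) :
    (e.cylProd B).f z = (z.1.1, e.f (z.1.2, z.2)) := rfl

theorem Emb.mem_cylProd_source (e : Emb (cyl M) Z) (z : (B.X × M.X) × ℝ) :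
    z ∈ (e.cylProd B).f.source ↔ z.1.1 ∈ B.car ∧ (z.1.2, z.2) ∈ e.f.source := Iff.rfl

/-- Squares of collars can be multiplied by `B`. -/
theorem Sq.cylProd {M' : Atl m} {j : Emb Z Z'} {e : Emb (cyl M) Z} {e' : Emb (cyl M') Z'}
    {k : Emb M M'} {V : Set M.X} {I : Set ℝ} (h : Sq j e e' (k.prod (Emb.id line)) (V ×ˢ I)) :
    Sq (n := a + m + 1) ((Emb.id B).prod j) (e.cylProd B) (e'.cylProd B)
      (((Emb.id B).prod k).prod (Emb.id line)) ((B.car ×ˢ V) ×ˢ I) := fun x hx => by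
  obtain ⟨h1, h2, h3, h4, h5, h6⟩ := h (x.1.2, x.2) ⟨hx.1.2, hx.2⟩
  refine ⟨⟨hx.1.1, h1⟩, ⟨hx.1.1, h2⟩, ⟨⟨hx.1.1, h3.1⟩, h3.2⟩, ⟨hx.1.1, h4⟩, Prod.ext rfl h5,
    fun c d d' u hu hd hd' hc => ?_⟩
  refine (inl_inr_mul _ _ _ (B.s_mem (x := x.1.1) hd.1 hu.1.1).2).trans ?_
  have h7 := h6 c.2 d.2 (d'.1.2, d'.2) (u.1.2, u.2) ⟨hu.1.2, hu.2⟩ hd.2 ⟨hd'.1.2, hd'.2⟩ hc.2
  have h8 := inl_inr_mul (B.s c.1 d'.1.1 x.1.1) (e'.σ c.2 (d'.1.2, d'.2) (k.f x.1.2, x.2))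
    ((k.prod (Emb.id line)).σ (d'.1.2, d'.2) (u.1.2, u.2) (x.1.2, x.2))
    (B.s_mem (x := x.1.1) hd'.1.1 hu.1.1).2
  refine (congrArg₂ (fun u v => inl _ _ u * inr _ _ v)
    ((B.cocycle _ _ _ x.1.1 hc.1 hd.1 hu.1.1).trans
      (B.cocycle _ _ _ x.1.1 hc.1 hd'.1.1 hu.1.1).symm) h7).trans (h8.symm.trans ?_)
  congr 1
  simp only [Emb.prod, ten, map_mul, inl_inl, inl_inr, inr_inr, mul_assoc]
  rfl

theorem Sq.cylProd_id {j : Emb Z Z'} {e : Emb (cyl M) Z} {e' : Emb (cyl M) Z'}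
    {V : Set M.X} {I : Set ℝ} (h : Sq j e e' (Emb.id _) (V ×ˢ I)) :
    Sq (n := a + m + 1) ((Emb.id B).prod j) (e.cylProd B) (e'.cylProd B) (Emb.id _)
      ((B.car ×ˢ V) ×ˢ I) := fun x hx => by
  obtain ⟨h1, h2, -, h4, h5, h6⟩ := h (x.1.2, x.2) ⟨hx.1.2, hx.2⟩
  have hs : x ∈ (e.cylProd B).f.source := ⟨hx.1.1, h1⟩
  have hs' : x ∈ (e'.cylProd B).f.source := ⟨hx.1.1, h4⟩
  refine ⟨hs, ⟨hx.1.1, h2⟩, (e.cylProd B).src hs, hs', Prod.ext rfl h5,
    fun c d d' u hu hd hd' hc => ?_⟩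
  have hc2 : e'.f (x.1.2, x.2) ∈ (Z'.φ c.2).source := h5 ▸ hc.2
  have hu' : (x.1.2, x.2) ∈ ((cyl M).φ (u.1.2, u.2)).source := ⟨hu.1.2, hu.2⟩
  refine (inl_inr_mul _ _ _ (B.s_mem (x := x.1.1) hd.1 hu.1.1).2).trans
    (Eq.trans ?_ ((e'.cylProd B).right c d' u x hs' hd' hu ⟨hc.1, hc2⟩).symm)
  exact congrArg₂ (fun u v => inl _ _ u * inr _ _ v) (B.cocycle _ _ _ x.1.1 hc.1 hd.1 hu.1.1)
    ((h6 c.2 d.2 (u.1.2, u.2) (u.1.2, u.2) hu' hd.2 hu' hc.2).trans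
      (e'.right c.2 _ _ _ h4 hu' hu' hc2))

end CylProd

end SZ
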