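import Mathlib

/-! Friedrichs mollifiers on `ℝⁿ`. -/

noncomputable section

namespace SZ

open Filter Topology Set MeasureTheory
open scoped RealInnerProductSpace ContDiff

variable {n : ℕ} {F : Type} [NormedAddCommGroup F] [InnerProductSpace ℝ F] [FiniteDimensional ℝ F]

/-- A family of Friedrichs mollifiers (convolution with `(k+1)^n ρ((k+1) x)`). -/
structure Moll (n : ℕ) (F : Type) [NormedAddCommGroup F] [InnerProductSpace ℝ F] where
  J : ℕ → ((Fin n → ℝ) → F) → (Fin n → ℝ) → F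
  add : ∀ k w w', Continuous w → HasCompactSupport w → Continuous w' → HasCompactSupport w' →
    J k (w + w') = J k w + J k w'
  smul : ∀ k (c : ℝ) w, J k (c • w) = c • J k w
  smooth : ∀ k w, Continuous w → HasCompactSupport w → ContDiff ℝ ∞ (J k w)
  supp : ∀ k w, Function.support (J k w) ⊆ Metric.cthickening (1 / ((k : ℝ) + 1)) (tsupport w)
  adj : ∀ k w v, Continuous w → HasCompactSupport w → Continuous v → HasCompactSupport v →
    ∫ y, ⟪J k w y, v y⟫ = ∫ y, ⟪w y, J k v y⟫
  bdd : ∀ k w, Continuous w → HasCompactSupport w → ∫ y, ‖J k w y‖ ^ 2 ≤ ∫ y, ‖w y‖ ^ 2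
  dbdd : ∀ k, ∃ c : ℝ, ∀ w j, Continuous w → HasCompactSupport w →
    ∫ y, ‖fderiv ℝ (J k w) y (Pi.single j 1)‖ ^ 2 ≤ c * ∫ y, ‖w y‖ ^ 2
  lim : ∀ w, Continuous w → HasCompactSupport w → TendstoUniformly (fun k => J k w) w atTop
  fried : ∀ (A : (Fin n → ℝ) → F →L[ℝ] F) (j : Fin n), ContDiff ℝ ∞ A → HasCompactSupport A →
    ∃ c : ℝ, ∀ k w, ContDiff ℝ ∞ w → HasCompactSupport w →
      ∫ y, ‖A y (fderiv ℝ (J k w) y (Pi.single j 1)) -
        J k (fun z => A z (fderiv ℝ w z (Pi.single j 1))) y‖ ^ 2 ≤ c * ∫ y, ‖w y‖ ^ 2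

namespace EuMoll

open scoped Convolution

/-- Cauchy-Schwarz against a weight. -/
theorem cs {X : Type*} [MeasurableSpace X] {μ : Measure X} {g a : X → ℝ} (hg : ∀ t, 0 ≤ g t)
    (h0 : Integrable g μ) (h1 : Integrable (fun t => g t * a t) μ)
    (h2 : Integrable (fun t => g t * a t ^ 2) μ) :
    (∫ t, g t * a t ∂μ) ^ 2 ≤ (∫ t, g t ∂μ) * ∫ t, g t * a t ^ 2 ∂μ := by
  have key : ∀ x : ℝ, 0 ≤ (∫ t, g t ∂μ) * (x * x) + (-2 * ∫ t, g t * a t ∂μ) * x +
      ∫ t, g t * a t ^ 2 ∂μ := by
    intro x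
    have e : (∫ t, g t ∂μ) * (x * x) + (-2 * ∫ t, g t * a t ∂μ) * x + ∫ t, g t * a t ^ 2 ∂μ =
        ∫ t, (g t * (x * x) + (-2 * x) * (g t * a t) + g t * a t ^ 2) ∂μ := by
      have a0 : Integrable (fun t => g t * (x * x)) μ := h0.mul_const _
      have a1 : Integrable (fun t => (-2 * x) * (g t * a t)) μ := h1.const_mul _
      have a2 : Integrable (fun t => g t * (x * x) + (-2 * x) * (g t * a t)) μ := a0.add a1
      rw [integral_add a2 h2, integral_add a0 a1, integral_mul_const, integral_const_mul]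
      ring
    rw [e]
    refine integral_nonneg fun t => ?_
    have : g t * (x * x) + (-2 * x) * (g t * a t) + g t * a t ^ 2 = g t * (a t - x) ^ 2 := by ring
    simp only [Pi.zero_apply]
    rw [this]
    exact mul_nonneg (hg t) (sq_nonneg _)
  have := discrim_le_zero key
  unfold discrim at this
  nlinarith

theorem cont_shift {G : Type*} [TopologicalSpace G] {g : (Fin n → ℝ) → G} (hg : Continuous g)
    (y : Fin n → ℝ) : Continuous fun t => g (y - t) := hg.comp (continuous_const.sub continuous_id)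

/-- Schur test. -/
theorem schur {G H : Type*} [NormedAddCommGroup G] [NormedAddCommGroup H]
    {g : (Fin n → ℝ) → ℝ} (hg : ∀ t, 0 ≤ g t) (hgc : Continuous g) (hgs : HasCompactSupport g)
    {w : (Fin n → ℝ) → G} (hw : Continuous w) (hws : HasCompactSupport w)
    {u : (Fin n → ℝ) → H} (hu : ∀ y, ‖u y‖ ≤ ∫ t, g (y - t) * ‖w t‖) :
    ∫ y, ‖u y‖ ^ 2 ≤ (∫ t, g t) ^ 2 * ∫ y, ‖w y‖ ^ 2 := by
  have hgi : Integrable g := hgc.integrable_of_hasCompactSupport hgs
  have hw2c : Continuous fun t => ‖w t‖ ^ 2 := hw.norm.pow 2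
  have hw2s : HasCompactSupport fun t => ‖w t‖ ^ 2 :=
    hws.comp_left (g := fun v : G => ‖v‖ ^ 2) (by simp)
  have hw2 : Integrable fun t => ‖w t‖ ^ 2 := hw2c.integrable_of_hasCompactSupport hw2s
  have hconv : Integrable ((fun t => ‖w t‖ ^ 2) ⋆[ContinuousLinearMap.mul ℝ ℝ] g) :=
    hw2.integrable_convolution _ hgi
  have hint : ∫ y, ((fun t => ‖w t‖ ^ 2) ⋆[ContinuousLinearMap.mul ℝ ℝ] g) y =
      (∫ y, ‖w y‖ ^ 2) * ∫ t, g t := integral_convolution _ hw2 hgi
  calc ∫ y, ‖u y‖ ^ 2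
      ≤ ∫ y, (∫ t, g t) * ((fun t => ‖w t‖ ^ 2) ⋆[ContinuousLinearMap.mul ℝ ℝ] g) y := by
        refine integral_mono_of_nonneg (Eventually.of_forall fun y => sq_nonneg _)
          (hconv.const_mul _) (Eventually.of_forall fun y => ?_)
        have h1 : Integrable fun t => g (y - t) * ‖w t‖ :=
          ((cont_shift hgc y).mul hw.norm).integrable_of_hasCompactSupport hws.norm.mul_left
        have h2 : Integrable fun t => g (y - t) * ‖w t‖ ^ 2 :=
          ((cont_shift hgc y).mul hw2c).integrable_of_hasCompactSupport hw2s.mul_left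
        have h3 := cs (fun t => hg (y - t)) (hgi.comp_sub_left y) h1 h2
        rw [integral_sub_left_eq_self g volume y] at h3
        have h4 : ((fun t => ‖w t‖ ^ 2) ⋆[ContinuousLinearMap.mul ℝ ℝ] g) y =
            ∫ t, g (y - t) * ‖w t‖ ^ 2 := by
          simp only [convolution_def, ContinuousLinearMap.mul_apply', mul_comm]
        simp only [h4]
        exact (pow_le_pow_left₀ (norm_nonneg _) (hu y) 2).trans h3
    _ = (∫ t, g t) ^ 2 * ∫ y, ‖w y‖ ^ 2 := by
        rw [integral_const_mul, hint]; ring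

/-- The basic bump. -/
def bump (n : ℕ) : ContDiffBump (0 : Fin n → ℝ) := ⟨1 / 2, 1, by norm_num, by norm_num⟩

def rho0 (n : ℕ) : (Fin n → ℝ) → ℝ := (bump n).normed volume

/-- `L¹`-preserving rescaling. -/
def sc (k : ℕ) (h : (Fin n → ℝ) → ℝ) : (Fin n → ℝ) → ℝ :=
  fun x => ((k : ℝ) + 1) ^ n * h (((k : ℝ) + 1) • x)

theorem integral_sc (k : ℕ) (h : (Fin n → ℝ) → ℝ) : ∫ x, sc k h x = ∫ x, h x := by
  have hk : (0 : ℝ) < ((k : ℝ) + 1) ^ n := by positivity
  simp only [sc]
  rw [integral_const_mul, Measure.integral_comp_smul]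
  simp only [Module.finrank_fin_fun, smul_eq_mul]
  rw [abs_of_pos (inv_pos.2 hk), ← mul_assoc, mul_inv_cancel₀ hk.ne', one_mul]

theorem sc_nonneg (k : ℕ) {h : (Fin n → ℝ) → ℝ} (h0 : ∀ x, 0 ≤ h x) (x : Fin n → ℝ) :
    0 ≤ sc k h x := mul_nonneg (by positivity) (h0 _)

theorem sc_cont (k : ℕ) {h : (Fin n → ℝ) → ℝ} (hc : Continuous h) : Continuous (sc k h) :=
  continuous_const.mul (hc.comp (continuous_const_smul _))

theorem sc_compact (k : ℕ) {h : (Fin n → ℝ) → ℝ} (hs : HasCompactSupport h) :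
    HasCompactSupport (sc k h) := by
  have hk : ((k : ℝ) + 1) ≠ 0 := by positivity
  have : HasCompactSupport fun x : Fin n → ℝ => h (((k : ℝ) + 1) • x) :=
    hs.comp_homeomorph (Homeomorph.smulOfNeZero _ hk)
  exact this.mul_left

def rho (n k : ℕ) : (Fin n → ℝ) → ℝ := sc k (rho0 n)

theorem rho0_smooth : ContDiff ℝ ∞ (rho0 n) := (bump n).contDiff_normed

theorem rho0_compact : HasCompactSupport (rho0 n) := (bump n).hasCompactSupport_normed

theorem rho_smooth (k : ℕ) : ContDiff ℝ ∞ (rho n k) :=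
  contDiff_const.mul (rho0_smooth.comp (contDiff_const_smul _))

theorem rho_compact (k : ℕ) : HasCompactSupport (rho n k) := sc_compact k rho0_compact

theorem rho_nonneg (k : ℕ) (x : Fin n → ℝ) : 0 ≤ rho n k x :=
  sc_nonneg k (fun y => (bump n).nonneg_normed y) x

theorem rho_int (k : ℕ) : ∫ x, rho n k x = 1 := by
  rw [rho, integral_sc]; exact (bump n).integral_normed

theorem rho_neg (k : ℕ) (x : Fin n → ℝ) : rho n k (-x) = rho n k x := by
  simp only [rho, sc, smul_neg, rho0, ContDiffBump.normed_neg]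

theorem rho_supp (k : ℕ) :
    Function.support (rho n k) ⊆ Metric.ball 0 (1 / ((k : ℝ) + 1)) := by
  intro x hx
  have hk : (0 : ℝ) < (k : ℝ) + 1 := by positivity
  have h1 : ((k : ℝ) + 1) • x ∈ Function.support (rho0 n) := fun h => hx (by simp [rho, sc, h])
  rw [rho0, ContDiffBump.support_normed_eq] at h1
  have h2 : ‖((k : ℝ) + 1) • x‖ < 1 := by simpa [bump] using h1
  rw [norm_smul, Real.norm_of_nonneg hk.le] at h2
  rw [mem_ball_zero_iff, lt_div_iff₀ hk]
  linarith

theorem fderiv_rho (k : ℕ) (x v : Fin n → ℝ) :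
    fderiv ℝ (rho n k) x v =
      ((k : ℝ) + 1) * sc k (fun z => fderiv ℝ (rho0 n) z v) x := by
  have h0 : Differentiable ℝ (rho0 n) := rho0_smooth.differentiable (by simp)
  have h1 : HasFDerivAt (fun x : Fin n → ℝ => ((k : ℝ) + 1) • x)
      (((k : ℝ) + 1) • ContinuousLinearMap.id ℝ (Fin n → ℝ)) x :=
    (((k : ℝ) + 1) • ContinuousLinearMap.id ℝ (Fin n → ℝ)).hasFDerivAt
  have h2 := ((h0 _).hasFDerivAt.comp x h1).const_mul (((k : ℝ) + 1) ^ n)
  have h3 : fderiv ℝ (rho n k) x = _ := h2.fderiv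
  rw [h3]
  simp only [sc, smul_apply, ContinuousLinearMap.comp_apply,
    ContinuousLinearMap.id_apply, map_smul, smul_eq_mul]
  ring

/-- The mollifier. -/
def J (k : ℕ) (w : (Fin n → ℝ) → F) : (Fin n → ℝ) → F :=
  w ⋆[(ContinuousLinearMap.lsmul ℝ ℝ : ℝ →L[ℝ] F →L[ℝ] F).flip] rho n k

omit [FiniteDimensional ℝ F] in
theorem J_apply (k : ℕ) (w : (Fin n → ℝ) → F) (y : Fin n → ℝ) :
    J k w y = ∫ t, rho n k (y - t) • w t := rfl

omit [FiniteDimensional ℝ F] in
theorem J_eq (k : ℕ) (w : (Fin n → ℝ) → F) :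
    J k w = rho n k ⋆[ContinuousLinearMap.lsmul ℝ ℝ] w := convolution_flip _

omit [FiniteDimensional ℝ F] in
theorem fderiv_J (k : ℕ) {w : (Fin n → ℝ) → F} (hw : Continuous w) (y v : Fin n → ℝ) :
    fderiv ℝ (J k w) y v = ∫ t, fderiv ℝ (rho n k) (y - t) v • w t := by
  have h1 : ContDiff ℝ 1 (rho n k) := (rho_smooth k).of_le (by simp)
  have h := (rho_compact (n := n) k).hasFDerivAt_convolution_right
    (ContinuousLinearMap.lsmul ℝ ℝ : ℝ →L[ℝ] F →L[ℝ] F).flip
    (hw.locallyIntegrable (μ := volume)) h1 y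
  rw [J, h.fderiv, convolution_precompR_apply _ hw.locallyIntegrable
    ((rho_compact k).fderiv ℝ) (h1.continuous_fderiv one_ne_zero)]
  rfl

omit [FiniteDimensional ℝ F] in
theorem norm_int_le {g : (Fin n → ℝ) → ℝ} {w : (Fin n → ℝ) → F} (y : Fin n → ℝ) :
    ‖∫ t, g (y - t) • w t‖ ≤ ∫ t, |g (y - t)| * ‖w t‖ := by
  refine (norm_integral_le_integral_norm _).trans (le_of_eq ?_)
  simp only [norm_smul, Real.norm_eq_abs]

theorem drho_cont (k : ℕ) (v : Fin n → ℝ) : Continuous fun z => fderiv ℝ (rho n k) z v :=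
  ((rho_smooth k).continuous_fderiv (by simp)).clm_apply continuous_const

theorem drho_compact (k : ℕ) (v : Fin n → ℝ) :
    HasCompactSupport fun z => fderiv ℝ (rho n k) z v :=
  (rho_compact k).fderiv_apply ℝ v

theorem J_adj (k : ℕ) {w v : (Fin n → ℝ) → F} (hw : Continuous w) (hws : HasCompactSupport w)
    (hv : Continuous v) (hvs : HasCompactSupport v) :
    ∫ y, ⟪J k w y, v y⟫ = ∫ y, ⟪w y, J k v y⟫ := by
  have hr : Continuous (rho n k) := (rho_smooth k).continuous
  have i1 : ∀ {u : (Fin n → ℝ) → F}, Continuous u → HasCompactSupport u → ∀ y,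
      Integrable fun t => rho n k (y - t) • u t := fun hu hus y =>
    ((cont_shift hr y).smul hu).integrable_of_hasCompactSupport hus.smul_left
  have e1 : ∀ y, ⟪J k w y, v y⟫ = ∫ t, rho n k (y - t) * ⟪w t, v y⟫ := fun y => by
    rw [J_apply, real_inner_comm, ← integral_inner (i1 hw hws y)]
    simp only [inner_smul_right, real_inner_comm]
  have e2 : ∀ t, ⟪w t, J k v t⟫ = ∫ y, rho n k (y - t) * ⟪w t, v y⟫ := fun t => by
    rw [J_apply, ← integral_inner (i1 hv hvs t)]
    refine integral_congr_ae (Eventually.of_forall fun y => ?_)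
    simp only [inner_smul_right]
    rw [← rho_neg k (y - t), neg_sub]
  simp only [e1, e2]
  refine integral_integral_swap ?_
  refine Continuous.integrable_of_hasCompactSupport ?_ ?_
  · exact (hr.comp (continuous_fst.sub continuous_snd)).mul
      ((hw.comp continuous_snd).inner (hv.comp continuous_fst))
  · refine HasCompactSupport.intro (hvs.isCompact.prod hws.isCompact) ?_
    rintro ⟨y, t⟩ h
    simp only [mem_prod, not_and_or] at h
    rcases h with h | h
    · simp [Function.uncurry, image_eq_zero_of_notMem_tsupport h]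
    · simp [Function.uncurry, image_eq_zero_of_notMem_tsupport h]

omit [FiniteDimensional ℝ F] in
theorem J_bdd (k : ℕ) {w : (Fin n → ℝ) → F} (hw : Continuous w) (hws : HasCompactSupport w) :
    ∫ y, ‖J k w y‖ ^ 2 ≤ ∫ y, ‖w y‖ ^ 2 := by
  have h := schur (rho_nonneg k) (rho_smooth k).continuous (rho_compact k) hw hws
    (u := J k w) (fun y => by
      refine (norm_int_le (g := rho n k) y).trans (le_of_eq ?_)
      simp only [abs_of_nonneg (rho_nonneg _ _)])
  rwa [rho_int, one_pow, one_mul] at h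

omit [FiniteDimensional ℝ F] in
theorem J_dbdd (k : ℕ) : ∃ c : ℝ, ∀ (w : (Fin n → ℝ) → F) (j : Fin n), Continuous w →
    HasCompactSupport w →
    ∫ y, ‖fderiv ℝ (J k w) y (Pi.single j 1)‖ ^ 2 ≤ c * ∫ y, ‖w y‖ ^ 2 := by
  refine ⟨∑ j : Fin n, (∫ z, |fderiv ℝ (rho n k) z (Pi.single j 1)|) ^ 2, fun w j hw hws => ?_⟩
  have h := schur (g := fun z => |fderiv ℝ (rho n k) z (Pi.single j 1)|) (fun _ => abs_nonneg _)
    (drho_cont k _).abs (drho_compact k _).abs hw hws
    (u := fun y => fderiv ℝ (J k w) y (Pi.single j 1)) (fun y => by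
      rw [fderiv_J k hw]
      exact norm_int_le (g := fun z => fderiv ℝ (rho n k) z (Pi.single j 1)) y)
  refine h.trans (mul_le_mul_of_nonneg_right ?_ (integral_nonneg fun _ => sq_nonneg _))
  exact Finset.single_le_sum
    (f := fun j : Fin n => (∫ z, |fderiv ℝ (rho n k) z (Pi.single j 1)|) ^ 2)
    (fun _ _ => sq_nonneg _) (Finset.mem_univ j)

theorem J_lim {w : (Fin n → ℝ) → F} (hw : Continuous w) (hws : HasCompactSupport w) :
    TendstoUniformly (fun k => J k w) w atTop := by
  rw [Metric.tendstoUniformly_iff]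
  intro ε hε
  obtain ⟨δ, hδ, hd⟩ := Metric.uniformContinuous_iff.1 (hws.uniformContinuous_of_continuous hw)
    (ε / 2) (half_pos hε)
  filter_upwards [(tendsto_one_div_add_atTop_nhds_zero_nat (𝕜 := ℝ)).eventually_lt_const hδ]
    with k hk x
  have h := dist_convolution_le (μ := volume) (g := w) (x₀ := x) (z₀ := w x) (half_pos hε).le
    (rho_supp k) (rho_nonneg k) (rho_int k) hw.aestronglyMeasurable
    (fun z hz => (hd ((Metric.mem_ball.1 hz).trans hk)).le)
  rw [dist_comm, J_eq]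
  exact h.trans_lt (half_lt_self hε)

omit [FiniteDimensional ℝ F] in
theorem J_supp (k : ℕ) (w : (Fin n → ℝ) → F) :
    Function.support (J k w) ⊆ Metric.cthickening (1 / ((k : ℝ) + 1)) (tsupport w) := by
  intro x hx
  obtain ⟨a, ha, b, hb, rfl⟩ := support_convolution_subset _ hx
  refine Metric.mem_cthickening_of_dist_le _ a _ _ (subset_tsupport _ ha) ?_
  have := rho_supp k hb
  rw [mem_ball_zero_iff] at this
  simpa using this.le

theorem lip {G : Type*} [NormedAddCommGroup G] [NormedSpace ℝ G] {A : (Fin n → ℝ) → G}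
    (hA : ContDiff ℝ ∞ A) (hAs : HasCompactSupport A) :
    ∃ L : ℝ, 0 ≤ L ∧ (∀ t, ‖fderiv ℝ A t‖ ≤ L) ∧ ∀ y t, ‖A y - A t‖ ≤ L * ‖y - t‖ := by
  have hAd : Differentiable ℝ A := hA.differentiable (by simp)
  have hdA : Continuous (fderiv ℝ A) := hA.continuous_fderiv (by simp)
  obtain ⟨L, hL⟩ := hdA.bounded_above_of_compact_support (hAs.fderiv ℝ)
  exact ⟨L, (norm_nonneg _).trans (hL 0), hL, fun y t =>
    Convex.norm_image_sub_le_of_norm_fderiv_le (𝕜 := ℝ) (s := univ) (fun x _ => hAd x)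
      (fun x _ => hL x) convex_univ (mem_univ t) (mem_univ y)⟩

omit [FiniteDimensional ℝ F] in
theorem int_aux {u : (Fin n → ℝ) → F} (hu : Continuous u) (hus : HasCompactSupport u)
    {B : (Fin n → ℝ) → F →L[ℝ] F} (hB : Continuous B) {r : (Fin n → ℝ) → ℝ}
    (hr : Continuous r) : Integrable fun t => r t • B t (u t) := by
  refine (hr.smul (hB.clm_apply hu)).integrable_of_hasCompactSupport ?_
  exact HasCompactSupport.intro hus.isCompact fun t ht => by
    simp [image_eq_zero_of_notMem_tsupport ht]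

theorem comm_eq {A : (Fin n → ℝ) → F →L[ℝ] F} (hA : ContDiff ℝ ∞ A) (k : ℕ)
    {w : (Fin n → ℝ) → F} (hw : ContDiff ℝ ∞ w) (hws : HasCompactSupport w) (v y : Fin n → ℝ) :
    A y (fderiv ℝ (J k w) y v) - J k (fun z => A z (fderiv ℝ w z v)) y =
      ∫ t, (fderiv ℝ (rho n k) (y - t) v • (A y - A t) (w t) +
        rho n k (y - t) • fderiv ℝ A t v (w t)) := by
  have hAd : Differentiable ℝ A := hA.differentiable (by simp)
  have hdA : Continuous (fderiv ℝ A) := hA.continuous_fderiv (by simp)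
  have hwd : Differentiable ℝ w := hw.differentiable (by simp)
  have hwc : Continuous w := hw.continuous
  have hdw : Continuous fun z => fderiv ℝ w z v :=
    (hw.continuous_fderiv (by simp)).clm_apply continuous_const
  have hdws : HasCompactSupport fun z => fderiv ℝ w z v := hws.fderiv_apply ℝ v
  have hr : Continuous fun t => rho n k (y - t) := cont_shift (rho_smooth k).continuous y
  have hdr : Continuous fun t => fderiv ℝ (rho n k) (y - t) v := cont_shift (drho_cont k v) y
  have hrd : ∀ t, HasFDerivAt (fun t => rho n k (y - t))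
      ((fderiv ℝ (rho n k) (y - t)).comp (-ContinuousLinearMap.id ℝ (Fin n → ℝ))) t := fun t =>
    (((rho_smooth k).differentiable (by simp)) _).hasFDerivAt.comp t
      ((hasFDerivAt_id t).const_sub y)
  have hf' : ∀ t, fderiv ℝ (fun t => rho n k (y - t)) t v = -fderiv ℝ (rho n k) (y - t) v :=
    fun t => by rw [(hrd t).fderiv]; simp
  have hg' : ∀ t, fderiv ℝ (fun t => A t (w t)) t v =
      fderiv ℝ A t v (w t) + A t (fderiv ℝ w t v) := fun t => by
    rw [fderiv_clm_apply (hAd t) (hwd t)]; simp [add_comm]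
  have hdAv : Continuous fun t => fderiv ℝ A t v := hdA.clm_apply continuous_const
  have i1 : Integrable fun t => fderiv ℝ (rho n k) (y - t) v • A t (w t) :=
    int_aux hwc hws hA.continuous hdr
  have i2 : Integrable fun t => rho n k (y - t) • fderiv ℝ A t v (w t) :=
    int_aux hwc hws hdAv hr
  have i3 : Integrable fun t => rho n k (y - t) • A t (fderiv ℝ w t v) :=
    int_aux hdw hdws hA.continuous hr
  have i4 : Integrable fun t => rho n k (y - t) • A t (w t) := int_aux hwc hws hA.continuous hr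
  have i5 : Integrable fun t => fderiv ℝ (rho n k) (y - t) v • w t :=
    (hdr.smul hwc).integrable_of_hasCompactSupport hws.smul_left
  have i6 : Integrable fun t => fderiv ℝ (rho n k) (y - t) v • A y (w t) :=
    int_aux (B := fun _ => A y) hwc hws continuous_const hdr
  have i7 : Integrable fun t => fderiv ℝ (fun t => rho n k (y - t)) t v • A t (w t) := by
    refine i1.neg.congr (Eventually.of_forall fun t => ?_)
    simp only [hf', neg_smul, Pi.neg_apply]
  have i8 : Integrable fun t => rho n k (y - t) • fderiv ℝ (fun t => A t (w t)) t v := by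
    refine (i2.add i3).congr (Eventually.of_forall fun t => ?_)
    simp only [hg', smul_add, Pi.add_apply]
  have ibp := integral_smul_fderiv_eq_neg_fderiv_smul_of_integrable (μ := volume)
    (f := fun t => rho n k (y - t)) (g := fun t => A t (w t)) (v := v) i7 i8 i4
    (fun t _ => (hrd t).differentiableAt) (fun t _ => (hAd t).clm_apply (hwd t))
  simp only [hf', hg', smul_add, neg_smul, integral_neg, neg_neg] at ibp
  rw [integral_add i2 i3] at ibp
  have i9 : Integrable fun t => fderiv ℝ (rho n k) (y - t) v • A y (w t) -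
      fderiv ℝ (rho n k) (y - t) v • A t (w t) := i6.sub i1
  rw [fderiv_J k hwc, J_apply, ← (A y).integral_comp_comm i5]
  simp only [map_smul, sub_apply, smul_sub]
  rw [integral_add i9 i2, integral_sub i6 i1, ← ibp]
  abel

theorem J_fried (A : (Fin n → ℝ) → F →L[ℝ] F) (j : Fin n) (hA : ContDiff ℝ ∞ A)
    (hAs : HasCompactSupport A) :
    ∃ c : ℝ, ∀ (k : ℕ) (w : (Fin n → ℝ) → F), ContDiff ℝ ∞ w → HasCompactSupport w →
      ∫ y, ‖A y (fderiv ℝ (J k w) y (Pi.single j 1)) -
        J k (fun z => A z (fderiv ℝ w z (Pi.single j 1))) y‖ ^ 2 ≤ c * ∫ y, ‖w y‖ ^ 2 := by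
  have hv1 : ‖(Pi.single j 1 : Fin n → ℝ)‖ = 1 := by rw [Pi.norm_single, norm_one]
  generalize (Pi.single j 1 : Fin n → ℝ) = v at hv1 ⊢
  obtain ⟨L, hL0, hL, hLip⟩ := lip hA hAs
  obtain ⟨h, hh⟩ : ∃ h : (Fin n → ℝ) → ℝ,
      h = fun z => L * (‖z‖ * |fderiv ℝ (rho0 n) z v| + rho0 n z) := ⟨_, rfl⟩
  have hd0c : Continuous fun z => fderiv ℝ (rho0 n) z v :=
    (rho0_smooth.continuous_fderiv (by simp)).clm_apply continuous_const
  have hd0s : HasCompactSupport fun z => fderiv ℝ (rho0 n) z v := rho0_compact.fderiv_apply ℝ v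
  have hh0 : ∀ z, 0 ≤ h z := fun z => by
    rw [hh]
    exact mul_nonneg hL0 (add_nonneg (by positivity) ((bump n).nonneg_normed z))
  have hhc : Continuous h := by
    rw [hh]
    exact continuous_const.mul ((continuous_norm.mul hd0c.abs).add rho0_smooth.continuous)
  have hhs : HasCompactSupport h := by
    have s1 : HasCompactSupport fun z => ‖z‖ * |fderiv ℝ (rho0 n) z v| := hd0s.abs.mul_left
    have s2 : HasCompactSupport fun z => ‖z‖ * |fderiv ℝ (rho0 n) z v| + rho0 n z :=
      s1.add rho0_compact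
    rw [hh]
    exact s2.mul_left
  refine ⟨(∫ z, h z) ^ 2, fun k w hw hws => ?_⟩
  have hk : (0 : ℝ) < (k : ℝ) + 1 := by positivity
  have hsc : ∀ z, sc k h z = L * (‖z‖ * |fderiv ℝ (rho n k) z v| + rho n k z) := fun z => by
    rw [fderiv_rho]
    simp only [sc, hh, rho, norm_smul, Real.norm_of_nonneg hk.le, abs_mul, abs_of_pos hk,
      abs_of_pos (pow_pos hk n)]
    ring
  rw [← integral_sc k h]
  refine schur (sc_nonneg k hh0) (sc_cont k hhc) (sc_compact k hhs) hw.continuous hws fun y => ?_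
  rw [comm_eq hA k hw hws]
  refine (norm_integral_le_integral_norm _).trans ?_
  have i0 : Integrable fun t => sc k h (y - t) * ‖w t‖ :=
    ((cont_shift (sc_cont k hhc) y).mul hw.continuous.norm).integrable_of_hasCompactSupport
      hws.norm.mul_left
  refine integral_mono_of_nonneg (Eventually.of_forall fun _ => norm_nonneg _) i0
    (Eventually.of_forall fun t => ?_)
  have b1 : ‖(A y - A t) (w t)‖ ≤ L * ‖y - t‖ * ‖w t‖ :=
    ((A y - A t).le_opNorm _).trans (mul_le_mul_of_nonneg_right (hLip y t) (norm_nonneg _))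
  have b2 : ‖fderiv ℝ A t v (w t)‖ ≤ L * ‖w t‖ := by
    refine ((fderiv ℝ A t v).le_opNorm _).trans (mul_le_mul_of_nonneg_right ?_ (norm_nonneg _))
    refine ((fderiv ℝ A t).le_opNorm v).trans ?_
    rw [hv1, mul_one]; exact hL t
  have r0 := rho_nonneg k (y - t)
  have c1 := mul_le_mul_of_nonneg_left b1 (abs_nonneg (fderiv ℝ (rho n k) (y - t) v))
  have c2 := mul_le_mul_of_nonneg_left b2 r0
  calc ‖fderiv ℝ (rho n k) (y - t) v • (A y - A t) (w t) +
          rho n k (y - t) • fderiv ℝ A t v (w t)‖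
      ≤ |fderiv ℝ (rho n k) (y - t) v| * ‖(A y - A t) (w t)‖ +
          rho n k (y - t) * ‖fderiv ℝ A t v (w t)‖ := by
        refine (norm_add_le _ _).trans (le_of_eq ?_)
        rw [norm_smul, norm_smul, Real.norm_eq_abs, Real.norm_of_nonneg r0]
    _ ≤ |fderiv ℝ (rho n k) (y - t) v| * (L * ‖y - t‖ * ‖w t‖) +
          rho n k (y - t) * (L * ‖w t‖) := add_le_add c1 c2
    _ = sc k h (y - t) * ‖w t‖ := by rw [hsc]; ring

end EuMoll

theorem nonempty_moll (n : ℕ) (F : Type) [NormedAddCommGroup F] [InnerProductSpace ℝ F]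
    [FiniteDimensional ℝ F] : Nonempty (Moll n F) :=
  ⟨{ J := EuMoll.J
     add := fun k _ _ hw _ hw' _ =>
       ConvolutionExists.add_distrib
         ((EuMoll.rho_compact k).convolutionExists_right _ hw.locallyIntegrable
           (EuMoll.rho_smooth k).continuous)
         ((EuMoll.rho_compact k).convolutionExists_right _ hw'.locallyIntegrable
           (EuMoll.rho_smooth k).continuous)
     smul := fun _ _ _ => smul_convolution
     smooth := fun k _ hw _ =>
       (EuMoll.rho_compact k).contDiff_convolution_right _ hw.locallyIntegrable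
         (EuMoll.rho_smooth k)
     supp := EuMoll.J_supp
     adj := fun k _ _ hw hws hv hvs => EuMoll.J_adj k hw hws hv hvs
     bdd := fun k _ hw hws => EuMoll.J_bdd k hw hws
     dbdd := EuMoll.J_dbdd
     lim := fun _ hw hws => EuMoll.J_lim hw hws
     fried := EuMoll.J_fried }⟩

end SZ
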