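import Pool.Agent.P.MP_8db816_gt.SZ.Restr

/-! The components on which a finite group acts trivially. -/

noncomputable section

namespace SZ

open Set CliffordAlgebra Filter Topology
open scoped ContDiff RealInnerProductSpace

variable {n m a : ℕ} {Γ : Type} [Group Γ] {M N : Atl n}

/-- The interior of the fixed point set of `H`. -/
def Act.fix (ρ : Act Γ M) (H : Subgroup Γ) : Set M.X :=
  interior {x | x ∈ M.car ∧ ∀ g ∈ H, (ρ.ρ g).f x = x}

theorem Act.fix_subset (ρ : Act Γ M) (H : Subgroup Γ) : ρ.fix H ⊆ M.car :=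
  fun _ hx => (interior_subset hx).1

theorem Act.isOpen_fix (ρ : Act Γ M) (H : Subgroup Γ) : IsOpen (ρ.fix H) := isOpen_interior

theorem Act.mem_fix {ρ : Act Γ M} {H : Subgroup Γ} {x : M.X} :
    x ∈ ρ.fix H ↔ ∀ᶠ z in 𝓝 x, z ∈ M.car ∧ ∀ g ∈ H, (ρ.ρ g).f z = z := mem_interior_iff_mem_nhds

/-- A local action of a finite group that is tangent to the identity at a fixed point is trivial
near that point. -/
theorem bochner {F G : Type} [NormedAddCommGroup F] [NormedSpace ℝ F] [CompleteSpace F] [Group G]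
    [Finite G] (h : G → F → F) (y : F) (hy : ∀ g, h g y = y)
    (hd : ∀ g, HasStrictFDerivAt (h g) (ContinuousLinearMap.id ℝ F) y)
    (hm : ∀ g k, ∀ᶠ z in 𝓝 y, h g (h k z) = h (g * k) z) (k : G) : ∀ᶠ z in 𝓝 y, h k z = z := by
  have := Fintype.ofFinite G
  have hc : (Fintype.card G : ℝ) ≠ 0 := Nat.cast_ne_zero.2 Fintype.card_ne_zero
  have h1 : HasStrictFDerivAt (fun z => (Fintype.card G : ℝ)⁻¹ • ∑ g, h g z)
      ((ContinuousLinearEquiv.refl ℝ F : F ≃L[ℝ] F) : F →L[ℝ] F) y := by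
    have h2 := (HasStrictFDerivAt.fun_sum (u := Finset.univ) fun g _ => hd g).fun_const_smul
      (Fintype.card G : ℝ)⁻¹
    convert h2 using 1
    rw [Finset.sum_const, Finset.card_univ, ← Nat.cast_smul_eq_nsmul ℝ, smul_smul,
      inv_mul_cancel₀ hc, one_smul]
    rfl
  have h3 := h1.eventually_left_inverse
  have h4 : Tendsto (h k) (𝓝 y) (𝓝 y) := by
    have := (hd k).continuousAt.tendsto
    rwa [hy] at this
  filter_upwards [h3, h4.eventually h3, eventually_all.2 fun g => hm g k] with z h5 h6 h7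
  rw [← h6, ← h5]
  congr 2
  simp only [h5, h7]
  exact Fintype.sum_equiv (Equiv.mulRight k) _ _ fun _ => rfl

theorem Act.mem_fix_of_closure [Finite Γ] (ρ : Act Γ M) (H : Subgroup Γ) {x : M.X}
    (hx : x ∈ M.car) (hc : x ∈ closure (ρ.fix H)) : x ∈ ρ.fix H := by
  obtain ⟨c, ha⟩ := Atl.mem_car.1 hx
  rw [mem_closure_iff_frequently] at hc
  have hsrc : ∀ g, x ∈ (ρ.ρ g).f.source := fun g => (ρ.src g).symm ▸ hx
  have hfx : ∀ g : H, (ρ.ρ g).f x = x := fun g =>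
    tendsto_nhds_unique_of_frequently_eq ((ρ.ρ g).f.continuousAt (hsrc g)).tendsto tendsto_id
      (hc.mono fun z hz => (interior_subset hz).2 g g.2)
  set φ := M.φ c with hφ
  let τ : H → OpenPartialHomeomorph (E n) (E n) := fun g => φ.symm.trans ((ρ.ρ g).f.trans φ)
  have hτ : ∀ g z, τ g z = φ ((ρ.ρ g).f (φ.symm z)) := fun _ _ => rfl
  have hys : ∀ g, φ x ∈ (τ g).source := fun g => by
    change φ x ∈ φ.target ∧ φ.symm (φ x) ∈ (ρ.ρ g).f.source ∧
      (ρ.ρ g).f (φ.symm (φ x)) ∈ φ.source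
    rw [φ.left_inv ha, hfx g]
    exact ⟨φ.map_source ha, hsrc g, ha⟩
  have hsm : ∀ g, ContDiffAt ℝ ∞ (τ g) (φ x) := fun g =>
    ((ρ.ρ g).lift c c).1.contDiffAt ((τ g).open_source.mem_nhds (hys g))
  have hφx : Tendsto φ (𝓝 x) (𝓝 (φ x)) := (φ.continuousAt ha).tendsto
  have hder : ∀ g, fderiv ℝ (τ g) (φ x) = ContinuousLinearMap.id ℝ (E n) := fun g => by
    have h1 : ContinuousAt (fderiv ℝ (τ g)) (φ x) := (hsm g).continuousAt_fderiv (by simp)
    refine tendsto_nhds_unique_of_frequently_eq (h1.tendsto.comp hφx) tendsto_const_nhds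
      ((hc.and_eventually (φ.open_source.mem_nhds ha)).mono fun z hz => ?_)
    have h2 : τ g =ᶠ[𝓝 (φ z)] id := by
      have h3 := (φ.tendsto_symm hz.2).eventually (Act.mem_fix.1 hz.1)
      filter_upwards [h3, φ.open_target.mem_nhds (φ.map_source hz.2)] with w h4 h5
      rw [hτ, h4.2 g g.2, φ.right_inv h5]
      rfl
    exact h2.fderiv_eq.trans fderiv_id
  have hb := bochner (fun g => τ g) (φ x) (fun g => by rw [hτ, φ.left_inv ha, hfx])
    (fun g => hder g ▸ (hsm g).hasStrictFDerivAt (by simp)) fun g k => by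
      filter_upwards [(τ k).open_source.mem_nhds (hys k)] with z hz
      have h1 : (ρ.ρ k).f (φ.symm z) ∈ φ.source := hz.2.2
      have h2 : φ.symm z ∈ M.car := (ρ.ρ k).src hz.2.1
      rw [hτ, hτ, hτ, φ.left_inv h1, (ρ.mul g k _ h2).2.2.2.2.1]
      rfl
  rw [Act.mem_fix]
  filter_upwards [hφx.eventually (eventually_all.2 hb), φ.open_source.mem_nhds ha,
    hφx.eventually (eventually_all.2 fun g => (τ g).open_source.mem_nhds (hys g))] with z h1 h2 h3
  refine ⟨Atl.mem_car.2 ⟨c, h2⟩, fun g hg => ?_⟩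
  have h4 := h1 ⟨g, hg⟩
  have h5 : (ρ.ρ g).f (φ.symm (φ z)) ∈ φ.source := (h3 ⟨g, hg⟩).2.2
  rw [hτ] at h4
  rw [φ.left_inv h2] at h4 h5
  exact φ.injOn h5 h2 h4

/-- Bochner linearisation. -/
theorem Act.isOpen_diff_fix [Finite Γ] (ρ : Act Γ M) (H : Subgroup Γ) :
    IsOpen (M.car \ ρ.fix H) := by
  have h : M.car \ ρ.fix H = M.car ∩ (closure (ρ.fix H))ᶜ := by
    ext x
    exact ⟨fun h => ⟨h.1, fun hc => h.2 (ρ.mem_fix_of_closure H h.1 hc)⟩,
      fun h => ⟨h.1, fun hc => h.2 (subset_closure hc)⟩⟩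
  rw [h]
  exact M.isOpen_car.inter isClosed_closure.isOpen_compl

/-- Transport of a local property along an open embedding. -/
theorem eventually_iff_of_emb {X Y : Type} [TopologicalSpace X] [TopologicalSpace Y]
    (f : OpenPartialHomeomorph X Y) {p : X → Prop} {q : Y → Prop}
    (h : ∀ z ∈ f.source, q (f z) ↔ p z) {x : X} (hx : x ∈ f.source) :
    (∀ᶠ w in 𝓝 (f x), q w) ↔ ∀ᶠ z in 𝓝 x, p z := by
  rw [← f.map_nhds_eq hx, eventually_map]
  refine eventually_congr ?_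
  filter_upwards [f.open_source.mem_nhds hx] with z hz using h z hz

theorem Act.fix_emb {ρ : Act Γ M} {ρ' : Act Γ N} (j : Emb M N) (hs : j.f.source = M.car)
    (h : ∀ g, Sq (ρ'.ρ g) j j (ρ.ρ g) M.car) (H : Subgroup Γ) :
    ∀ x ∈ M.car, j.f x ∈ ρ'.fix H ↔ x ∈ ρ.fix H := fun x hx => by
  rw [Act.mem_fix, Act.mem_fix]
  refine eventually_iff_of_emb j.f (fun z hz => ?_) (hs ▸ hx)
  have hz' : z ∈ M.car := hs ▸ hz
  refine and_congr (iff_of_true (j.map_car hz) hz') (forall₂_congr fun g _ => ?_)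
  obtain ⟨-, -, -, h4, h5, -⟩ := h g z hz'
  rw [h5]
  exact j.f.injOn.eq_iff h4 hz

theorem Act.fix_prod (ρ : Act Γ M) (B : Atl a) (H : Subgroup Γ) :
    (ρ.prod B).fix H = B.car ×ˢ ρ.fix H := by
  have h : {x : B.X × M.X | x ∈ (B.prod M).car ∧ ∀ g ∈ H, ((ρ.prod B).ρ g).f x = x} =
      B.car ×ˢ {x | x ∈ M.car ∧ ∀ g ∈ H, (ρ.ρ g).f x = x} := by
    rw [Atl.car_prod]
    ext x
    exact ⟨fun h => ⟨h.1.1, h.1.2, fun g hg => congrArg Prod.snd (h.2 g hg)⟩,
      fun h => ⟨⟨h.1, h.2.1⟩, fun g hg => Prod.ext rfl (h.2.2 g hg)⟩⟩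
  refine (congrArg interior h).trans ?_
  rw [interior_prod_eq, B.isOpen_car.interior_eq]
  rfl

theorem GCol.clo [Finite Γ] (L : GCol Γ m) (H : Subgroup Γ) :
    Clo L.toCol (L.ρZ.fix H) (L.ρM.fix H) where
  oU := L.ρZ.isOpen_fix H
  oV := L.ρM.isOpen_fix H
  cU := L.ρZ.isOpen_diff_fix H
  cV := L.ρM.isOpen_diff_fix H
  col x hx t ht := by
    have hs : (x, t) ∈ L.e.f.source := L.src ▸ mk_mem_prod hx ht
    have h1 : L.e.f (x, t) ∈ L.ρZ.fix H ↔
        ∀ᶠ z in 𝓝 (x, t), z.1 ∈ L.M.car ∧ ∀ g ∈ H, (L.ρM.ρ g).f z.1 = z.1 := by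
      rw [Act.mem_fix]
      refine eventually_iff_of_emb L.e.f (fun z hz => ?_) hs
      have hz' : z ∈ L.M.car ×ˢ Ioo 0 L.ε := L.src ▸ hz
      refine and_congr (iff_of_true (L.e.map_car hz) hz'.1) (forall₂_congr fun g _ => ?_)
      obtain ⟨-, -, -, h4, h5, -⟩ := L.eqv g z hz
      rw [h5]
      refine (L.e.f.injOn.eq_iff h4 hz).trans ?_
      exact ⟨fun h => congrArg Prod.fst h, fun h => Prod.ext h rfl⟩
    rw [h1, Act.mem_fix, ← map_fst_nhds (x, t), eventually_map]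

/-- The union of the components of `L` on which `H` acts trivially. -/
abbrev GCol.fix [Finite Γ] (L : GCol Γ m) (H : Subgroup Γ) : Col m := (L.clo H).restr

end SZ
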