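import Pool.Agent.P.MP_8db816_gt.SZ.LocBasic

/-! The pointwise Lichnerowicz formula. -/

noncomputable section

namespace SZ

open CliffordAlgebra Filter Topology Set MeasureTheory
open scoped RealInnerProductSpace ContDiff

variable {n : ℕ} {e : Fr n} {U : Set (E n)} {y : E n} {ψ : E n → Cl n}

/-- The curvature tensor `<R(e_i, e_j) e_k, e_l>`. -/
def riem (e : Fr n) (i j k l : Fin n) (y : E n) : ℝ :=
  der e i (gam e j k l) y - der e j (gam e i k l) y +
    ∑ m, (gam e j k m y * gam e i m l y - gam e i k m y * gam e j m l y -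
      cst e i j m y * gam e m k l y)

theorem scal_eq_riem (e : Fr n) (y : E n) : scal e y = ∑ i, ∑ j, riem e i j j i y := rfl

theorem lich_diffAt {F : Type} [NormedAddCommGroup F] [NormedSpace ℝ F] {f : E n → F}
    (hf : ContDiffOn ℝ ∞ f U) (hU : IsOpen U) (hy : y ∈ U) : DifferentiableAt ℝ f y :=
  (hf.contDiffAt (hU.mem_nhds hy)).differentiableAt (by simp)

theorem lich_sum_rot {M : Type} [AddCommMonoid M] (f : Fin n → Fin n → Fin n → M) :
    ∑ i, ∑ j, ∑ k, f i j k = ∑ j, ∑ k, ∑ i, f i j k := by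
  rw [Finset.sum_comm]
  exact Finset.sum_congr rfl fun j _ => Finset.sum_comm

theorem lich_der_neg (e : Fr n) (i : Fin n) (f g : E n → ℝ) (h : ∀ z, f z = -g z) (y : E n) :
    der e i f y = -der e i g y := by
  have : f = fun z => -g z := funext h
  rw [this, der, der, fderiv_fun_neg]
  rfl

/-! ### The Jacobi identity of the frame -/

theorem lich_bracket_bracket (he : IsFr e U) (hU : IsOpen U) (hy : y ∈ U) (i j k : Fin n) :
    VectorField.lieBracket ℝ (e i) (VectorField.lieBracket ℝ (e j) (e k)) y =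
      ∑ l, (der e i (cst e j k l) y + ∑ m, cst e j k m y * cst e i m l y) • e l y := by
  have hev : VectorField.lieBracket ℝ (e j) (e k) =ᶠ[𝓝 y] fun z => ∑ m, cst e j k m z • e m z := by
    filter_upwards [hU.mem_nhds hy] with z hz
    exact he.lieBracket_eq hz j k
  have hc : ∀ m, DifferentiableAt ℝ (cst e j k m) y := fun m =>
    lich_diffAt (he.contDiffOn_cst hU j k m) hU hy
  have hd : ∀ m, DifferentiableAt ℝ (e m) y := fun m => lich_diffAt (he.1 m) hU hy
  rw [(EventuallyEq.refl _ _).lieBracket_vectorField_eq hev]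
  have h1 : VectorField.lieBracket ℝ (e i) (fun z => ∑ m, cst e j k m z • e m z) y =
      ∑ m, (der e i (cst e j k m) y • e m y +
        cst e j k m y • VectorField.lieBracket ℝ (e i) (e m) y) := by
    simp only [VectorField.lieBracket]
    rw [fderiv_fun_sum (A := fun m z => cst e j k m z • e m z) (fun m _ => (hc m).smul (hd m)),
      _root_.sum_apply, map_sum, ← Finset.sum_sub_distrib]
    refine Finset.sum_congr rfl fun m _ => ?_
    rw [fderiv_fun_smul (hc m) (hd m)]
    simp only [_root_.add_apply, _root_.smul_apply,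
      ContinuousLinearMap.smulRight_apply, map_smul, der, smul_sub]
    abel
  rw [h1]
  simp only [he.lieBracket_eq hy, add_smul, Finset.sum_add_distrib, Finset.smul_sum, smul_smul,
    Finset.sum_smul]
  congr 1
  exact Finset.sum_comm

theorem lich_jacobi (he : IsFr e U) (hU : IsOpen U) (hy : y ∈ U) (i j k l : Fin n) :
    (der e i (cst e j k l) y + ∑ m, cst e j k m y * cst e i m l y) +
      (der e j (cst e k i l) y + ∑ m, cst e k i m y * cst e j m l y) +
      (der e k (cst e i j l) y + ∑ m, cst e i j m y * cst e k m l y) = 0 := by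
  have hs : ∀ m, ContDiffAt ℝ ∞ (e m) y := fun m => (he.1 m).contDiffAt (hU.mem_nhds hy)
  have h := VectorField.leibniz_identity_lieBracket (𝕜 := ℝ) (n := ∞)
    (by rw [minSmoothness_of_isRCLikeNormedField]; exact WithTop.coe_le_coe.2 le_top) (hs i) (hs j) (hs k)
  rw [VectorField.lieBracket_swap (V := VectorField.lieBracket ℝ (e i) (e j)),
    lich_bracket_bracket he hU hy, lich_bracket_bracket he hU hy,
    lich_bracket_bracket he hU hy] at h
  have h2 : ∑ l, ((der e i (cst e j k l) y + ∑ m, cst e j k m y * cst e i m l y) -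
      (der e j (cst e i k l) y + ∑ m, cst e i k m y * cst e j m l y) +
      (der e k (cst e i j l) y + ∑ m, cst e i j m y * cst e k m l y)) • e l y = 0 := by
    simp only [add_smul _ (der e k (cst e i j _) y + _), sub_smul, Finset.sum_add_distrib,
      Finset.sum_sub_distrib]
    rw [h]
    abel
  have h3 := Fintype.linearIndependent_iff.1 (he.2 y hy) _ h2 l
  have h4 : der e j (cst e k i l) y = -der e j (cst e i k l) y :=
    lich_der_neg e j _ _ (fun z => cst_swap e k i l z) y
  have h5 : ∑ m, cst e k i m y * cst e j m l y = -∑ m, cst e i k m y * cst e j m l y := by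
    rw [← Finset.sum_neg_distrib]
    exact Finset.sum_congr rfl fun m _ => by rw [cst_swap e k i m y]; ring
  rw [h4, h5]
  linarith

theorem lich_der_cst (he : IsFr e U) (hU : IsOpen U) (hy : y ∈ U) (i j k l : Fin n) :
    der e i (cst e j k l) y = der e i (gam e j k l) y - der e i (gam e k j l) y := by
  have : cst e j k l = fun z => gam e j k l z - gam e k j l z :=
    funext fun z => (gam_sub_gam e j k l z).symm
  rw [this, der, der, der, fderiv_fun_sub (lich_diffAt (he.contDiffOn_gam hU j k l) hU hy)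
    (lich_diffAt (he.contDiffOn_gam hU k j l) hU hy)]
  rfl

/-- First Bianchi identity (from the Jacobi identity). -/
theorem IsFr.bianchi (he : IsFr e U) (hU : IsOpen U) (hy : y ∈ U) (i j k l : Fin n) :
    riem e i j k l y + riem e j k i l y + riem e k i j l y = 0 := by
  have h := lich_jacobi he hU hy i j k l
  rw [lich_der_cst he hU hy, lich_der_cst he hU hy, lich_der_cst he hU hy] at h
  have h2 : ∑ m, (gam e j k m y * gam e i m l y - gam e i k m y * gam e j m l y -
        cst e i j m y * gam e m k l y) +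
      ∑ m, (gam e k i m y * gam e j m l y - gam e j i m y * gam e k m l y -
        cst e j k m y * gam e m i l y) +
      ∑ m, (gam e i j m y * gam e k m l y - gam e k j m y * gam e i m l y -
        cst e k i m y * gam e m j l y) =
      ∑ m, cst e j k m y * cst e i m l y + ∑ m, cst e k i m y * cst e j m l y +
        ∑ m, cst e i j m y * cst e k m l y := by
    simp only [← Finset.sum_add_distrib]
    refine Finset.sum_congr rfl fun m _ => ?_
    simp only [← gam_sub_gam]
    ring
  simp only [riem]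
  linarith

theorem lich_riem_swap (e : Fr n) (i j k l : Fin n) (y : E n) :
    riem e i j k l y = -riem e j i k l y := by
  simp only [riem]
  have : ∑ m, (gam e j k m y * gam e i m l y - gam e i k m y * gam e j m l y -
      cst e i j m y * gam e m k l y) =
      -∑ m, (gam e i k m y * gam e j m l y - gam e j k m y * gam e i m l y -
      cst e j i m y * gam e m k l y) := by
    rw [← Finset.sum_neg_distrib]
    exact Finset.sum_congr rfl fun m _ => by rw [cst_swap e i j m y]; ring
  rw [this]
  ring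

theorem lich_riem_swap' (e : Fr n) (i j k l : Fin n) (y : E n) :
    riem e i j k l y = -riem e i j l k y := by
  simp only [riem]
  have : ∑ m, (gam e j k m y * gam e i m l y - gam e i k m y * gam e j m l y -
      cst e i j m y * gam e m k l y) =
      -∑ m, (gam e j l m y * gam e i m k y - gam e i l m y * gam e j m k y -
      cst e i j m y * gam e m l k y) := by
    rw [← Finset.sum_neg_distrib]
    refine Finset.sum_congr rfl fun m _ => ?_
    rw [gam_swap e j l m y, gam_swap e i m k y, gam_swap e i l m y, gam_swap e j m k y,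
      gam_swap e m l k y]
    ring
  rw [this, lich_der_neg e i _ _ (fun z => gam_swap e j k l z) y,
    lich_der_neg e j _ _ (fun z => gam_swap e i k l z) y]
  ring

/-! ### Curvature of the spin connection -/

theorem lich_comm_pair {a : Cl n} {A : Fin n → Fin n → ℝ}
    (h : ∀ j, a * cl j - cl j * a = ∑ k, A j k • cl k) (k l : Fin n) :
    a * (cl k * cl l) - cl k * cl l * a =
      ∑ m, A k m • (cl m * cl l) + ∑ m, A l m • (cl k * cl m) := by
  have e1 : a * (cl k * cl l) - cl k * cl l * a =
      (a * cl k - cl k * a) * cl l + cl k * (a * cl l - cl l * a) := by noncomm_ring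
  rw [e1, h k, h l, Finset.sum_mul, Finset.mul_sum]
  simp only [smul_mul_assoc, mul_smul_comm]

theorem lich_omg_comm (e : Fr n) (i j : Fin n) (y : E n) :
    omg e i y * omg e j y - omg e j y * omg e i y =
      (1 / 4 : ℝ) • ∑ k, ∑ l, (∑ m, (gam e j k m y * gam e i m l y -
        gam e i k m y * gam e j m l y)) • (cl k * cl l) := by
  have h1 : omg e i y * omg e j y - omg e j y * omg e i y =
      (1 / 4 : ℝ) • ∑ k, ∑ l, gam e j k l y •
        (omg e i y * (cl k * cl l) - cl k * cl l * omg e i y) := by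
    generalize omg e i y = a
    simp only [omg, mul_smul_comm, smul_mul_assoc, Finset.mul_sum, Finset.sum_mul, smul_sub,
      Finset.sum_sub_distrib]
  rw [h1]
  congr 1
  simp only [lich_comm_pair (omg_mul_cl e i · y), smul_add, Finset.sum_add_distrib,
    Finset.smul_sum, smul_smul, Finset.sum_sub_distrib, sub_smul, Finset.sum_smul]
  have a1 : ∑ k, ∑ l, ∑ m, (gam e j k l y * gam e i l m y) • (cl k * cl m : Cl n) =
      ∑ k, ∑ l, ∑ m, (gam e j k m y * gam e i m l y) • (cl k * cl l : Cl n) :=
    Finset.sum_congr rfl fun k _ => Finset.sum_comm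
  have a2 : ∑ k, ∑ l, ∑ m, (gam e j k l y * gam e i k m y) • (cl m * cl l : Cl n) =
      -∑ k, ∑ l, ∑ m, (gam e i k m y * gam e j m l y) • (cl k * cl l : Cl n) := by
    rw [lich_sum_rot, lich_sum_rot, ← Finset.sum_neg_distrib]
    refine Finset.sum_congr rfl fun k _ => ?_
    rw [Finset.sum_comm, ← Finset.sum_neg_distrib]
    refine Finset.sum_congr rfl fun l _ => ?_
    rw [← Finset.sum_neg_distrib]
    refine Finset.sum_congr rfl fun m _ => ?_
    rw [gam_swap e i m k y, ← neg_smul]
    congr 1
    ring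
  rw [a1, a2]
  abel

theorem lich_der_omg (he : IsFr e U) (hU : IsOpen U) (hy : y ∈ U) (i j : Fin n) :
    der e i (omg e j) y = (1 / 4 : ℝ) • ∑ k, ∑ l, der e i (gam e j k l) y • (cl k * cl l) := by
  have hg : ∀ k l, HasFDerivAt (gam e j k l) (fderiv ℝ (gam e j k l) y) y := fun k l =>
    (lich_diffAt (he.contDiffOn_gam hU j k l) hU hy).hasFDerivAt
  have h : HasFDerivAt (omg e j) ((1 / 4 : ℝ) • ∑ k, ∑ l,
      (fderiv ℝ (gam e j k l) y).smulRight (cl k * cl l)) y :=
    (HasFDerivAt.fun_sum fun k _ => HasFDerivAt.fun_sum fun l _ =>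
      (hg k l).smul_const (cl k * cl l)).const_smul (1 / 4 : ℝ)
  rw [der, h.fderiv]
  simp only [_root_.smul_apply, _root_.sum_apply,
    ContinuousLinearMap.smulRight_apply, der]

theorem lich_nab_nab (he : IsFr e U) (hU : IsOpen U) (hy : y ∈ U) (hψ : ContDiffOn ℝ ∞ ψ U)
    (i j : Fin n) :
    nab e i (nab e j ψ) y = der e i (der e j ψ) y + (der e i (omg e j) y * ψ y +
      omg e j y * der e i ψ y) + omg e i y * (der e j ψ y + omg e j y * ψ y) := by
  have h1 : nab e j ψ = fun z => der e j ψ z + omg e j z * ψ z := funext fun z => nab_eq e j ψ z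
  have d1 := lich_diffAt (he.contDiffOn_der hU hψ j) hU hy
  have d2 := lich_diffAt (he.contDiffOn_omg hU j) hU hy
  have d3 := lich_diffAt hψ hU hy
  rw [nab_eq, nab_eq e j ψ y]
  congr 1
  rw [h1, der, fderiv_fun_add d1 (d2.clmul d3), _root_.add_apply, fderiv_clmul d2 d3]
  rfl

/-- The curvature of the spin connection. -/
theorem IsFr.nab_nab_sub (he : IsFr e U) (hU : IsOpen U) (hy : y ∈ U) (hψ : ContDiffOn ℝ ∞ ψ U)
    (i j : Fin n) :
    nab e i (nab e j ψ) y - nab e j (nab e i ψ) y - ∑ m, cst e i j m y • nab e m ψ y =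
      (1 / 4 : ℝ) • ∑ k, ∑ l, riem e i j k l y • (cl k * cl l * ψ y) := by
  have h1 := he.der_der_sub hU hy hψ i j
  have h2 : nab e i (nab e j ψ) y - nab e j (nab e i ψ) y - ∑ m, cst e i j m y • nab e m ψ y =
      (der e i (omg e j) y - der e j (omg e i) y + (omg e i y * omg e j y - omg e j y * omg e i y)
        - ∑ m, cst e i j m y • omg e m y) * ψ y := by
    rw [lich_nab_nab he hU hy hψ, lich_nab_nab he hU hy hψ]
    simp only [nab_eq, smul_add, Finset.sum_add_distrib, sub_mul, add_mul, Finset.sum_mul,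
      smul_mul_assoc]
    rw [← h1]
    noncomm_ring
  have h3 : ∑ m, cst e i j m y • omg e m y =
      (1 / 4 : ℝ) • ∑ k, ∑ l, (∑ m, cst e i j m y * gam e m k l y) • (cl k * cl l) := by
    simp only [omg, Finset.sum_smul, smul_comm _ (1 / 4 : ℝ), ← Finset.smul_sum]
    congr 1
    simp only [Finset.smul_sum, smul_smul]
    exact lich_sum_rot _
  rw [h2, lich_der_omg he hU hy, lich_der_omg he hU hy, lich_omg_comm, h3, ← smul_sub, ← smul_add,
    ← smul_sub, smul_mul_assoc]
  congr 1
  simp only [← Finset.sum_sub_distrib, ← Finset.sum_add_distrib, Finset.sum_mul]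
  refine Finset.sum_congr rfl fun k _ => Finset.sum_congr rfl fun l _ => ?_
  rw [← sub_smul, ← add_smul, ← sub_smul, smul_mul_assoc]
  congr 1
  simp only [riem, Finset.sum_sub_distrib]
  ring

/-! ### Clifford contractions -/

theorem lich_cl_swap (i j : Fin n) :
    (cl j * cl i : Cl n) = -(cl i * cl j) - (if i = j then (2 : ℝ) else 0) • (1 : Cl n) := by
  split_ifs with h
  · subst h
    rw [cl_mul_self, two_smul]
    abel
  · rw [cl_anticomm (Ne.symm h), zero_smul, sub_zero]

theorem lich_two (H : Fin n → Fin n → Cl n) :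
    (2 : ℝ) • ∑ i, ∑ j, cl i * cl j * H i j =
      -((2 : ℝ) • ∑ i, H i i) + ∑ i, ∑ j, cl i * cl j * (H i j - H j i) := by
  have h1 : ∑ i, ∑ j, cl i * cl j * H j i = -∑ i, ∑ j, cl i * cl j * H i j - (2 : ℝ) • ∑ i, H i i := by
    rw [Finset.sum_comm]
    have : ∀ i j, cl j * cl i * H i j =
        -(cl i * cl j * H i j) - (if i = j then (2 : ℝ) • H i j else 0) := by
      intro i j
      rw [lich_cl_swap i j, sub_mul, neg_mul, smul_mul_assoc, one_mul]
      split_ifs <;> simp
    simp only [this, Finset.sum_sub_distrib, Finset.sum_neg_distrib, Finset.sum_ite_eq,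
      Finset.mem_univ, if_true, Finset.smul_sum]
  simp only [mul_sub, Finset.sum_sub_distrib]
  rw [h1, two_smul, two_smul]
  abel

theorem lich_three (T : Fin n → Fin n → Fin n → ℝ) (hs : ∀ i j k, T i j k = -T j i k)
    (hc : ∀ i j k, T i j k + T j k i + T k i j = 0) :
    ∑ i, ∑ j, ∑ k, T i j k • (cl i * cl j * cl k : Cl n) =
      (-2 : ℝ) • ∑ i, ∑ j, T i j j • cl i := by
  set S : Cl n := ∑ i, ∑ j, ∑ k, T i j k • (cl i * cl j * cl k : Cl n) with hS
  set A : Cl n := ∑ i, ∑ j, T i j j • cl i with hA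
  have hd : ∀ i k, T i i k = 0 := fun i k => by linarith [hs i i k]
  have r1 : ∀ i j k : Fin n, (cl k * cl i * cl j : Cl n) = cl i * cl j * cl k +
      (if j = k then (2 : ℝ) else 0) • cl i - (if i = k then (2 : ℝ) else 0) • cl j := by
    intro i j k
    rw [lich_cl_swap i k, sub_mul, neg_mul, mul_assoc (cl i) (cl k), lich_cl_swap j k]
    simp only [mul_sub, mul_neg, mul_smul_comm, smul_mul_assoc, mul_one, one_mul, mul_assoc]
    abel
  have r2 : ∀ i j k : Fin n, (cl j * cl k * cl i : Cl n) = cl i * cl j * cl k +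
      (if i = j then (2 : ℝ) else 0) • cl k - (if i = k then (2 : ℝ) else 0) • cl j := by
    intro i j k
    rw [mul_assoc, lich_cl_swap i k, mul_sub, mul_neg, ← mul_assoc, lich_cl_swap i j]
    simp only [sub_mul, neg_mul, mul_smul_comm, smul_mul_assoc, mul_one, one_mul]
    abel
  have b1 : ∑ i, ∑ j, ∑ k, T i j k • ((if j = k then (2 : ℝ) else 0) • (cl i : Cl n)) =
      (2 : ℝ) • A := by
    simp only [hA, Finset.smul_sum, ite_smul, zero_smul, smul_ite, smul_zero, Finset.sum_ite_eq,
      Finset.mem_univ, if_true, smul_comm (T _ _ _) (2 : ℝ)]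
  have b2 : ∑ i, ∑ j, ∑ k, T i j k • ((if i = k then (2 : ℝ) else 0) • (cl j : Cl n)) =
      -((2 : ℝ) • A) := by
    simp only [hA, Finset.smul_sum, ite_smul, zero_smul, smul_ite, smul_zero, Finset.sum_ite_eq,
      Finset.mem_univ, if_true, smul_comm (T _ _ _) (2 : ℝ), ← Finset.sum_neg_distrib]
    rw [Finset.sum_comm]
    refine Finset.sum_congr rfl fun i _ => Finset.sum_congr rfl fun j _ => ?_
    rw [hs j i j, neg_smul, smul_neg]
  have b3 : ∑ i, ∑ j, ∑ k, T i j k • ((if i = j then (2 : ℝ) else 0) • (cl k : Cl n)) = 0 := by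
    refine Finset.sum_eq_zero fun i _ => Finset.sum_eq_zero fun j _ =>
      Finset.sum_eq_zero fun k _ => ?_
    split_ifs with h
    · subst h; rw [hd, zero_smul]
    · rw [zero_smul, smul_zero]
  have c1 : ∑ i, ∑ j, ∑ k, T j k i • (cl i * cl j * cl k : Cl n) =
      S + (2 : ℝ) • A + (2 : ℝ) • A := by
    rw [lich_sum_rot]
    rw [Finset.sum_congr rfl fun i _ => Finset.sum_congr rfl fun j _ =>
      Finset.sum_congr rfl fun k _ => congrArg (fun x => T i j k • x) (r1 i j k)]
    simp only [smul_sub, smul_add, Finset.sum_sub_distrib, Finset.sum_add_distrib]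
    rw [b1, b2, sub_neg_eq_add]
  have c2 : ∑ i, ∑ j, ∑ k, T k i j • (cl i * cl j * cl k : Cl n) = S + (2 : ℝ) • A := by
    rw [lich_sum_rot, lich_sum_rot]
    rw [Finset.sum_congr rfl fun i _ => Finset.sum_congr rfl fun j _ =>
      Finset.sum_congr rfl fun k _ => congrArg (fun x => T i j k • x) (r2 i j k)]
    simp only [smul_sub, smul_add, Finset.sum_sub_distrib, Finset.sum_add_distrib]
    rw [b2, b3, sub_neg_eq_add, add_zero]
  have c0 : S + ∑ i, ∑ j, ∑ k, T j k i • (cl i * cl j * cl k : Cl n) +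
      ∑ i, ∑ j, ∑ k, T k i j • (cl i * cl j * cl k : Cl n) = 0 := by
    simp only [hS, ← Finset.sum_add_distrib, ← add_smul, hc, zero_smul, Finset.sum_const_zero]
  rw [c1, c2] at c0
  have c3 : (3 : ℝ) • (S - (-2 : ℝ) • A) = 0 := by
    rw [← c0]
    module
  exact sub_eq_zero.1 ((smul_eq_zero.1 c3).resolve_left (by norm_num))

theorem lich_four (he : IsFr e U) (hU : IsOpen U) (hy : y ∈ U) :
    ∑ i, ∑ j, ∑ k, ∑ l, riem e i j k l y • (cl i * cl j * (cl k * cl l) : Cl n) =
      (2 * scal e y) • (1 : Cl n) := by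
  have h1 : ∑ i, ∑ j, ∑ k, ∑ l, riem e i j k l y • (cl i * cl j * (cl k * cl l) : Cl n) =
      ∑ l, (∑ i, ∑ j, ∑ k, riem e i j k l y • (cl i * cl j * cl k : Cl n)) * cl l := by
    simp only [Finset.sum_mul, smul_mul_assoc, mul_assoc]
    symm
    rw [Finset.sum_comm]
    exact Finset.sum_congr rfl fun i _ => lich_sum_rot _
  have h2 : ∀ l, ∑ i, ∑ j, ∑ k, riem e i j k l y • (cl i * cl j * cl k : Cl n) =
      (-2 : ℝ) • ∑ i, ∑ j, riem e i j j l y • cl i := fun l =>
    lich_three (fun i j k => riem e i j k l y) (fun i j k => lich_riem_swap e i j k l y)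
      (fun i j k => he.bianchi hU hy i j k l)
  have hsym : ∀ i j l, riem e i j j l y = riem e l j j i y := by
    intro i j l
    have a1 := he.bianchi hU hy i j l j
    have a2 := lich_riem_swap' e l i j j y
    have a3 := lich_riem_swap' e i j l j y
    have a4 := lich_riem_swap e j l i j y
    have a5 := lich_riem_swap' e l j i j y
    linarith
  have h3 := lich_two (n := n) (fun i l => (∑ j, riem e i j j l y) • (1 : Cl n))
  have h4 : ∀ i l, (∑ j, riem e i j j l y) • (1 : Cl n) - (∑ j, riem e l j j i y) • (1 : Cl n) = 0 := by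
    intro i l
    rw [Finset.sum_congr rfl fun j _ => hsym i j l, sub_self]
  simp only [h4, mul_zero, Finset.sum_const_zero, add_zero] at h3
  rw [← Finset.sum_smul, ← scal_eq_riem] at h3
  rw [h1]
  simp only [h2, smul_mul_assoc, ← Finset.smul_sum]
  rw [neg_smul, mul_smul, ← neg_eq_iff_eq_neg.2 h3]
  congr 2
  rw [Finset.sum_comm]
  refine Finset.sum_congr rfl fun l _ => ?_
  simp only [mul_smul_comm, mul_one]
  simp only [Finset.sum_mul, smul_mul_assoc, Finset.sum_smul]

theorem lich_nab_sum {ι : Type} (s : Finset ι) (f : ι → E n → Cl n)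
    (hf : ∀ a ∈ s, DifferentiableAt ℝ (f a) y) (i : Fin n) :
    nab e i (fun z => ∑ a ∈ s, f a z) y = ∑ a ∈ s, nab e i (f a) y := by
  simp only [nab_eq, der]
  rw [fderiv_fun_sum hf, _root_.sum_apply, Finset.mul_sum, Finset.sum_add_distrib]

theorem IsFr.lichnerowicz (he : IsFr e U) (hU : IsOpen U) (hy : y ∈ U) (hψ : ContDiffOn ℝ ∞ ψ U) :
    dirac e (dirac e ψ) y = -∑ i, nab e i (nab e i ψ) y + ∑ i, ∑ m, gam e i i m y • nab e m ψ y +
      (scal e y / 4) • ψ y := by
  have hd : ∀ j, DifferentiableAt ℝ (nab e j ψ) y := fun j =>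
    lich_diffAt (he.contDiffOn_nab hU hψ j) hU hy
  set H : Fin n → Fin n → Cl n := fun i j =>
    nab e i (nab e j ψ) y - ∑ m, gam e i j m y • nab e m ψ y with hH
  have h1 : dirac e (dirac e ψ) y = ∑ i, ∑ j, cl i * cl j * H i j := by
    have e0 : dirac e ψ = fun z => ∑ j, cl j * nab e j ψ z := rfl
    rw [dirac]
    refine Finset.sum_congr rfl fun i _ => ?_
    rw [e0, lich_nab_sum _ (fun j z => cl j * nab e j ψ z)
      (fun j _ => (differentiableAt_const _).clmul (hd j))]
    simp only [nab_cl_mul (hd _), hH, mul_sub, Finset.sum_sub_distrib, Finset.sum_add_distrib,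
      mul_add, Finset.mul_sum, mul_smul_comm, mul_assoc]
    rw [sub_eq_add_neg, Finset.sum_comm (f := fun j k =>
      gam e i j k y • (cl i * (cl k * nab e j ψ y))), ← Finset.sum_neg_distrib]
    congr 1
    refine Finset.sum_congr rfl fun j _ => ?_
    rw [← Finset.sum_neg_distrib]
    refine Finset.sum_congr rfl fun m _ => ?_
    rw [gam_swap e i m j y, neg_smul]
  have h2 : ∀ i j, H i j - H j i =
      (1 / 4 : ℝ) • ∑ k, ∑ l, riem e i j k l y • (cl k * cl l * ψ y) := by
    intro i j
    rw [← he.nab_nab_sub hU hy hψ i j]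
    simp only [hH, ← gam_sub_gam, sub_smul, Finset.sum_sub_distrib]
    abel
  have h3 := lich_two H
  have h4 : ∑ i, ∑ j, cl i * cl j * (H i j - H j i) = (scal e y / 2) • ψ y := by
    have a1 := congrArg (fun x => (1 / 4 : ℝ) • (x * ψ y)) (lich_four he hU hy)
    simp only [Finset.sum_mul, smul_mul_assoc, one_mul, smul_smul] at a1
    rw [show scal e y / 2 = 1 / 4 * (2 * scal e y) by ring, ← a1]
    simp only [h2, mul_smul_comm, Finset.mul_sum, Finset.smul_sum, mul_assoc]
  rw [h4, ← h1] at h3
  have h5 : ∑ i, H i i = ∑ i, nab e i (nab e i ψ) y - ∑ i, ∑ m, gam e i i m y • nab e m ψ y := by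
    simp only [hH, Finset.sum_sub_distrib]
  rw [h5] at h3
  have h6 : (2 : ℝ) • (dirac e (dirac e ψ) y - (-∑ i, nab e i (nab e i ψ) y +
      ∑ i, ∑ m, gam e i i m y • nab e m ψ y + (scal e y / 4) • ψ y)) = 0 := by
    rw [smul_sub, h3]
    module
  exact sub_eq_zero.1 ((smul_eq_zero.1 h6).resolve_left (by norm_num))

end SZ
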