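import Pool.Agent.P.MP_8db816_gt.SZ.Cov
import Pool.Agent.P.MP_8db816_gt.SZ.Lich

/-! The scalar curvature is invariant under isometries. -/

noncomputable section

namespace SZ

open CliffordAlgebra Filter Topology Set MeasureTheory
open scoped RealInnerProductSpace ContDiff

variable {n : ℕ} {e e' : Fr n} {U U' : Set (E n)} {τ : E n → E n} {σ : E n → Cl n} {p : ℝ}
  {y : E n}

private theorem scal_nab_sum {ι : Type} (s : Finset ι) {f : ι → E n → Cl n}
    (hf : ∀ j ∈ s, DifferentiableAt ℝ (f j) y) (i : Fin n) :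
    nab e i (fun z => ∑ j ∈ s, f j z) y = ∑ j ∈ s, nab e i (f j) y := by
  simp only [nab_eq, der]
  rw [fderiv_fun_sum hf, sum_apply, Finset.mul_sum, Finset.sum_add_distrib]

/-- A smooth section that equals `1` and is parallel at a given point. -/
private theorem scal_exists_parallel (he : IsFr e U) (hy : y ∈ U) :
    ∃ ψ : E n → Cl n, ContDiff ℝ ∞ ψ ∧ ψ y = 1 ∧ ∀ i, nab e i ψ y = 0 := by
  let L₀ : E n →ₗ[ℝ] Cl n := ∑ i : Fin n,
    ((LinearMap.proj i : (Fin n → ℝ) →ₗ[ℝ] ℝ) ∘ₗ Matrix.mulVecLin (fmat e y)⁻¹).smulRight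
      (-omg e i y)
  let L : E n →L[ℝ] Cl n := LinearMap.toContinuousLinearMap L₀
  have hL : ∀ v, L v = ∑ i, (fmat e y)⁻¹.mulVec v i • (-omg e i y) := by
    intro v
    simp [L, L₀]
  refine ⟨fun z => (1 - L y) + L z, contDiff_const.add L.contDiff, by simp, fun i => ?_⟩
  have hd : fderiv ℝ (fun z => (1 - L y) + L z) y = L := (L.hasFDerivAt.const_add _).fderiv
  have hc : (fmat e y)⁻¹.mulVec (e i y) = Pi.single i 1 := by
    rw [← he.coef_sum hy (Pi.single i 1)]
    congr 1
    simp [Pi.single_apply]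
  rw [nab_eq, der, hd, hL, hc]
  simp [Pi.single_apply]

theorem Lift.scal_eq (h : Lift p e e' U τ σ) (hU : IsOpen U) (hU' : IsOpen U') (he : IsFr e U)
    (he' : IsFr e' U') (hτ : MapsTo τ U U') (hy : y ∈ U) : scal e' (τ y) = scal e y := by
  obtain ⟨ψ', hψ'c, hψ'1, hψ'0⟩ := scal_exists_parallel he' (hτ hy)
  have hpin : ∀ z ∈ U, σ z ∈ pinGroup (Q n) := fun z hz => (h.2.2 z hz).1
  have hda : ∀ {F : Type} [NormedAddCommGroup F] [NormedSpace ℝ F] {f : E n → F} {V : Set (E n)}
      {z : E n}, IsOpen V → z ∈ V → ContDiffOn ℝ ∞ f V → DifferentiableAt ℝ f z := by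
    intro F _ _ f V z hV hz hf
    exact (hf.contDiffAt (hV.mem_nhds hz)).differentiableAt (by simp)
  set ψ : E n → Cl n := fun z => star (σ z) * ψ' (τ z) with hψdef
  have hψc : ContDiffOn ℝ ∞ ψ U := h.2.1.clstar.clmul (hψ'c.comp_contDiffOn h.1)
  have hψ'U : ContDiffOn ℝ ∞ ψ' U' := hψ'c.contDiffOn
  have hrel : ∀ z ∈ U, ψ' (τ z) = σ z * ψ z := by
    intro z hz
    simp only [hψdef]
    rw [← mul_assoc, pinGroup.mul_star_self_of_mem (hpin z hz), one_mul]
  have hev : ∀ z ∈ U, ∀ᶠ w in 𝓝 z, ψ' (τ w) = σ w * ψ w := fun z hz =>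
    Filter.eventually_of_mem (hU.mem_nhds hz) hrel
  have hone : (1 : Cl n) ≠ 0 := by
    intro h0
    have := norm_one_cl (n := n)
    rw [h0, norm_zero] at this
    exact zero_ne_one this
  have hσinj : ∀ x : Cl n, σ y * x = 0 → x = 0 := by
    intro x hx
    have := norm_pin_mul (hpin y hy) x
    rw [hx, norm_zero] at this
    exact norm_eq_zero.1 this.symm
  have hp : p * p = 1 := by
    have h1 := (h.2.2 y hy).2.1
    have h2 : σ y = (p * p) • σ y := by
      conv_lhs => rw [← involute_involute (σ y), h1, map_smul, h1, smul_smul]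
    have h3 : σ y * ((p * p - 1) • (1 : Cl n)) = 0 := by
      rw [mul_smul_comm, mul_one, sub_smul, one_smul, ← h2, sub_self]
    have h4 := hσinj _ h3
    rcases smul_eq_zero.1 h4 with h5 | h5
    · linarith
    · exact absurd h5 hone
  -- the square of the Dirac operator
  have hD : dirac e' (dirac e' ψ') (τ y) = σ y * dirac e (dirac e ψ) y := by
    have h1 : ∀ᶠ z in 𝓝 y, dirac e' ψ' (τ z) = σ z * (fun w => p • dirac e ψ w) z := by
      refine Filter.eventually_of_mem (hU.mem_nhds hy) fun z hz => ?_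
      rw [h.dirac_eq hU hU' he he' hτ hz (hda hU' (hτ hz) hψ'U) (hda hU hz hψc) (hev z hz),
        mul_smul_comm]
    have h2 := h.dirac_eq hU hU' he he' hτ hy
      (hda hU' (hτ hy) (he'.contDiffOn_dirac hU' hψ'U))
      ((hda hU hy (he.contDiffOn_dirac hU hψc)).const_smul p) h1
    rw [h2]
    have h3 := dirac_const_smul (e := e) (ψ := dirac e ψ) (y := y) p
    have h4 : dirac e (p • dirac e ψ) y = p • dirac e (dirac e ψ) y := h3
    rw [h4, mul_smul_comm, smul_smul, hp, one_smul]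
  -- first derivatives vanish at `y`
  have hn : ∀ z ∈ U, ∀ i, nab e' i ψ' (τ z) = σ z * ∑ j, rmat (σ z) i j • nab e j ψ z :=
    fun z hz i => h.nab_eq hU hU' he he' hτ hz (hda hU' (hτ hz) hψ'U) (hda hU hz hψc) (hev z hz) i
  have hcontr : ∀ f : Fin n → Fin n → Cl n,
      ∑ i, ∑ k, rmat (σ y) i k • ∑ j, rmat (σ y) i j • f k j = ∑ k, f k k := by
    intro f
    rw [Finset.sum_comm]
    refine Finset.sum_congr rfl fun k _ => ?_
    simp only [Finset.smul_sum, smul_smul]
    rw [Finset.sum_comm]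
    simp only [← Finset.sum_smul, rmat_col (hpin y hy)]
    simp
  have h0 : ∀ k, nab e k ψ y = 0 := by
    intro k
    have h1 : ∀ i, ∑ j, rmat (σ y) i j • nab e j ψ y = 0 := fun i =>
      hσinj _ ((hn y hy i).symm.trans (hψ'0 i))
    have h2 : ∑ i, rmat (σ y) i k • ∑ j, rmat (σ y) i j • nab e j ψ y = nab e k ψ y := by
      simp only [Finset.smul_sum, smul_smul]
      rw [Finset.sum_comm]
      simp only [← Finset.sum_smul, rmat_col (hpin y hy)]
      simp
    rw [← h2]
    simp [h1]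
  -- the rough Laplacian
  have hL : ∑ i, nab e' i (nab e' i ψ') (τ y) = σ y * ∑ k, nab e k (nab e k ψ) y := by
    have hr : ∀ i j, DifferentiableAt ℝ (fun z => rmat (σ z) i j) y := fun i j =>
      hda hU hy (contDiffOn_rmat h.2.1 i j)
    have hnd : ∀ j, DifferentiableAt ℝ (nab e j ψ) y := fun j =>
      hda hU hy (he.contDiffOn_nab hU hψc j)
    have h1 : ∀ i, nab e' i (nab e' i ψ') (τ y) =
        σ y * ∑ k, rmat (σ y) i k • ∑ j, rmat (σ y) i j • nab e k (nab e j ψ) y := by
      intro i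
      have h2 : ∀ᶠ z in 𝓝 y, nab e' i ψ' (τ z) =
          σ z * (fun w => ∑ j, rmat (σ w) i j • nab e j ψ w) z :=
        Filter.eventually_of_mem (hU.mem_nhds hy) fun z hz => hn z hz i
      rw [h.nab_eq hU hU' he he' hτ hy (hda hU' (hτ hy) (he'.contDiffOn_nab hU' hψ'U i))
        (DifferentiableAt.fun_sum fun j _ => (hr i j).fun_smul (hnd j)) h2 i]
      congr 1
      refine Finset.sum_congr rfl fun k _ => ?_
      congr 1
      rw [scal_nab_sum _ fun j _ => (hr i j).fun_smul (hnd j)]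
      refine Finset.sum_congr rfl fun j _ => ?_
      rw [nab_smul (hr i j) (hnd j), h0 j, smul_zero, zero_add]
    rw [Finset.sum_congr rfl fun i _ => h1 i, ← Finset.mul_sum,
      hcontr fun k j => nab e k (nab e j ψ) y]
  have e1 := he'.lichnerowicz hU' (hτ hy) hψ'U
  have e2 := he.lichnerowicz hU hy hψc
  simp only [hψ'0, h0, smul_zero, Finset.sum_const_zero, add_zero] at e1 e2
  rw [hD, e2, hL, mul_add, mul_neg, mul_smul_comm, ← hrel y hy, hψ'1] at e1
  have e3 : (scal e y / 4) • (1 : Cl n) = (scal e' (τ y) / 4) • (1 : Cl n) := add_left_cancel e1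
  have e4 : scal e y / 4 = scal e' (τ y) / 4 := smul_left_injective ℝ hone e3
  linarith

end SZ
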