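import Pool.Agent.P.MP_8db816_gt.SZ.Defs
import Pool.Agent.P.MP_8db816_gt.SZ.Scal

/-!
Smooth functions, the norm of the gradient and the scalar curvature on a manifold given by a spin
atlas.
-/

noncomputable section

namespace SZ

open Set CliffordAlgebra Filter Topology
open scoped ContDiff RealInnerProductSpace

variable {n : ℕ} {M : Atl n}

/-- A chosen chart at a point of the manifold. -/
def Atl.ch (M : Atl n) {x : M.X} (h : x ∈ M.car) : M.A := (Atl.mem_car.1 h).choose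

theorem Atl.ch_spec (M : Atl n) {x : M.X} (h : x ∈ M.car) : x ∈ (M.φ (M.ch h)).source :=
  (Atl.mem_car.1 h).choose_spec

theorem Atl.source_subset (M : Atl n) (a : M.A) : (M.φ a).source ⊆ M.car :=
  fun _ h => Atl.mem_car.2 ⟨a, h⟩

theorem Atl.s_self (M : Atl n) {a : M.A} {x : M.X} (ha : x ∈ (M.φ a).source) :
    M.s a a x = 1 := by
  have h1 := M.cocycle a a a x ha ha ha
  have h2 : star (M.s a a x) * M.s a a x = 1 := pinGroup.star_mul_self_of_mem (M.s_mem ha ha).1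
  calc M.s a a x = star (M.s a a x) * M.s a a x * M.s a a x := by rw [h2, one_mul]
    _ = 1 := by rw [mul_assoc, h1, h2]

theorem Atl.s_mul_swap (M : Atl n) {a b : M.A} {x : M.X} (ha : x ∈ (M.φ a).source)
    (hb : x ∈ (M.φ b).source) : M.s a b x * M.s b a x = 1 := by
  rw [M.cocycle a b a x ha hb ha, M.s_self ha]

theorem Atl.star_s (M : Atl n) {a b : M.A} {x : M.X} (ha : x ∈ (M.φ a).source)
    (hb : x ∈ (M.φ b).source) : star (M.s a b x) = M.s b a x := by
  have h2 : star (M.s a b x) * M.s a b x = 1 := pinGroup.star_mul_self_of_mem (M.s_mem ha hb).1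
  calc star (M.s a b x) = star (M.s a b x) * (M.s a b x * M.s b a x) := by
        rw [M.s_mul_swap ha hb, mul_one]
    _ = M.s b a x := by rw [← mul_assoc, h2, one_mul]

/-- The manifold is locally compact. -/
theorem Atl.exists_compact_nhds (M : Atl n) {x : M.X} (hx : x ∈ M.car) {U : Set M.X}
    (hU : U ∈ 𝓝 x) : ∃ K ∈ 𝓝 x, IsCompact K ∧ K ⊆ U ∩ M.car := by
  obtain ⟨a, ha⟩ := Atl.mem_car.1 hx
  have ht := (M.φ a).map_source ha
  have hW : (M.φ a).target ∩ (M.φ a).symm ⁻¹' U ∈ 𝓝 (M.φ a x) :=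
    inter_mem ((M.φ a).open_target.mem_nhds ht) ((M.φ a).tendsto_symm ha hU)
  obtain ⟨K, hK, hKW, hKc⟩ := local_compact_nhds hW
  refine ⟨(M.φ a).symm '' K, ?_, ?_, ?_⟩
  · have h := (M.φ a).symm.image_mem_nhds ht hK
    rwa [(M.φ a).left_inv ha] at h
  · exact hKc.image_of_continuousOn ((M.φ a).continuousOn_symm.mono fun y hy => (hKW hy).1)
  · rintro _ ⟨y, hy, rfl⟩
    exact ⟨(hKW hy).2, M.source_subset a ((M.φ a).map_target (hKW hy).1)⟩

/-- A smooth function. -/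
def Atl.Sm (M : Atl n) (f : M.X → ℝ) : Prop :=
  ∀ a, ContDiffOn ℝ ∞ (f ∘ (M.φ a).symm) (M.φ a).target

/-- A function that is smooth near `x` (meant for `x ∈ M.car`). -/
def Atl.SmAt (M : Atl n) (f : M.X → ℝ) (x : M.X) : Prop :=
  ∀ a, x ∈ (M.φ a).source → ContDiffAt ℝ ∞ (f ∘ (M.φ a).symm) (M.φ a x)

open Classical in
/-- The norm of the gradient. -/
def Atl.gn (M : Atl n) (f : M.X → ℝ) (x : M.X) : ℝ :=
  if h : x ∈ M.car then ‖grad (M.e (M.ch h)) (f ∘ (M.φ (M.ch h)).symm) (M.φ (M.ch h) x)‖ else 0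

open Classical in
/-- The scalar curvature. -/
def Atl.scal (M : Atl n) (x : M.X) : ℝ :=
  if h : x ∈ M.car then SZ.scal (M.e (M.ch h)) (M.φ (M.ch h) x) else 0

/-- Completeness: there is a proper smooth function with bounded gradient. -/
def Atl.Complete (M : Atl n) : Prop :=
  ∃ (h : M.X → ℝ) (C : ℝ), M.Sm h ∧ (∀ x ∈ M.car, M.gn h x ≤ C) ∧
    ∀ r, IsCompact (M.car ∩ h ⁻¹' Iic r)

section Transfer

variable {p : ℝ} {e e' : Fr n} {σ : E n → Cl n} {y : E n}

private theorem funTr_ev (T : OpenPartialHomeomorph (E n) (E n)) (hy : y ∈ T.source)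
    (f' : E n → ℝ) : f' =ᶠ[𝓝 (T y)] (fun z => f' (T z)) ∘ T.symm := by
  filter_upwards [T.eventually_right_inverse' hy] with w hw
  rw [Function.comp_apply, hw]

private theorem funTr_contDiffAt (T : OpenPartialHomeomorph (E n) (E n))
    (h : Lift p e e' T.source T σ) (he : IsFr e T.source) (he' : IsFr e' T.target)
    (hy : y ∈ T.source) (f' : E n → ℝ) :
    ContDiffAt ℝ ∞ f' (T y) ↔ ContDiffAt ℝ ∞ (fun z => f' (T z)) y := by
  constructor
  · intro h1
    exact h1.comp y (h.1.contDiffAt (T.open_source.mem_nhds hy))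
  · intro h1
    have h2 := (Lift.symm T h he he').1.contDiffAt (T.open_target.mem_nhds (T.map_source hy))
    rw [← T.left_inv hy] at h1
    exact (h1.comp _ h2).congr_of_eventuallyEq (funTr_ev T hy f')

private theorem funGrad_zero {f : E n → ℝ} (hf : ¬DifferentiableAt ℝ f y) : grad e f y = 0 := by
  have h : (fun i => der e i f y) = 0 := by
    funext i
    rw [der, fderiv_zero_of_not_differentiableAt hf]
    rfl
  rw [grad, h, map_zero]

private theorem funGrad_const_mul (c : ℝ) (f : E n → ℝ) :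
    grad e (fun z => c * f z) y = c • grad e f y := by
  have h : fderiv ℝ (fun z => c * f z) y = c • fderiv ℝ f y :=
    congrFun (fderiv_const_smul_field (f := f) c) y
  rw [grad, grad, ← map_smul]
  congr 1
  funext i
  rw [der, h]
  rfl

private theorem funTr_norm_grad (T : OpenPartialHomeomorph (E n) (E n))
    (h : Lift p e e' T.source T σ) (he : IsFr e T.source) (he' : IsFr e' T.target)
    (hy : y ∈ T.source) (f' : E n → ℝ) :
    ‖grad e' f' (T y)‖ = ‖grad e (fun z => f' (T z)) y‖ := by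
  by_cases hf : DifferentiableAt ℝ f' (T y)
  · exact h.norm_grad_eq T.open_source hy hf
  · have hf' : ¬DifferentiableAt ℝ (fun z => f' (T z)) y := by
      intro h1
      have h2 := ((Lift.symm T h he he').1.contDiffAt
        (T.open_target.mem_nhds (T.map_source hy))).differentiableAt (by simp)
      rw [← T.left_inv hy] at h1
      exact hf ((h1.comp _ h2).congr_of_eventuallyEq (funTr_ev T hy f'))
    rw [funGrad_zero hf, funGrad_zero hf']

variable {N : Atl n} (j : Emb M N) {a : M.A} {b : N.A} {x : M.X}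

private theorem funEmb_mem (hx : x ∈ j.f.source) (ha : x ∈ (M.φ a).source)
    (hb : j.f x ∈ (N.φ b).source) :
    M.φ a x ∈ ((M.φ a).symm.trans (j.f.trans (N.φ b))).source := by
  simp [ha, hb, hx]

private theorem funEmb_apply (ha : x ∈ (M.φ a).source) :
    ((M.φ a).symm.trans (j.f.trans (N.φ b))) (M.φ a x) = N.φ b (j.f x) := by
  simp [ha]

private theorem funEmb_fr (b : N.A) (a : M.A) :
    IsFr (M.e a) ((M.φ a).symm.trans (j.f.trans (N.φ b))).source :=
  (M.fr a).mono fun _ hy => hy.1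

private theorem funEmb_fr' (b : N.A) (a : M.A) :
    IsFr (N.e b) ((M.φ a).symm.trans (j.f.trans (N.φ b))).target :=
  (N.fr b).mono fun _ hy => hy.1.1

private theorem funEmb_ev (hx : x ∈ j.f.source) (ha : x ∈ (M.φ a).source)
    (hb : j.f x ∈ (N.φ b).source) (f' : N.X → ℝ) :
    (fun z => (f' ∘ (N.φ b).symm) (((M.φ a).symm.trans (j.f.trans (N.φ b))) z)) =ᶠ[𝓝 (M.φ a x)]
      (fun y => f' (j.f y)) ∘ (M.φ a).symm := by
  filter_upwards [(OpenPartialHomeomorph.open_source _).mem_nhds (funEmb_mem j hx ha hb)] with w hw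
  exact congrArg f' ((N.φ b).left_inv hw.2.2)

private theorem funEmb_contDiffAt (hx : x ∈ j.f.source) (ha : x ∈ (M.φ a).source)
    (hb : j.f x ∈ (N.φ b).source) (f' : N.X → ℝ) :
    ContDiffAt ℝ ∞ (f' ∘ (N.φ b).symm) (N.φ b (j.f x)) ↔
      ContDiffAt ℝ ∞ ((fun y => f' (j.f y)) ∘ (M.φ a).symm) (M.φ a x) := by
  have h := funTr_contDiffAt _ (j.lift b a) (funEmb_fr j b a) (funEmb_fr' j b a)
    (funEmb_mem j hx ha hb) (f' ∘ (N.φ b).symm)
  rw [funEmb_apply j ha] at h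
  have h1 := funEmb_ev j hx ha hb f'
  exact h.trans ⟨fun h2 => h2.congr_of_eventuallyEq h1.symm, fun h2 => h2.congr_of_eventuallyEq h1⟩

private theorem funEmb_norm_grad (hx : x ∈ j.f.source) (ha : x ∈ (M.φ a).source)
    (hb : j.f x ∈ (N.φ b).source) (f' : N.X → ℝ) :
    ‖grad (N.e b) (f' ∘ (N.φ b).symm) (N.φ b (j.f x))‖ =
      ‖grad (M.e a) ((fun y => f' (j.f y)) ∘ (M.φ a).symm) (M.φ a x)‖ := by
  have h := funTr_norm_grad _ (j.lift b a) (funEmb_fr j b a) (funEmb_fr' j b a)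
    (funEmb_mem j hx ha hb) (f' ∘ (N.φ b).symm)
  rwa [funEmb_apply j ha, grad_congr (funEmb_ev j hx ha hb f')] at h

private theorem funEmb_scal (hx : x ∈ j.f.source) (ha : x ∈ (M.φ a).source)
    (hb : j.f x ∈ (N.φ b).source) :
    SZ.scal (N.e b) (N.φ b (j.f x)) = SZ.scal (M.e a) (M.φ a x) := by
  have h := (j.lift b a).scal_eq (OpenPartialHomeomorph.open_source _)
    (OpenPartialHomeomorph.open_target _) (funEmb_fr j b a) (funEmb_fr' j b a)
    (OpenPartialHomeomorph.mapsTo _) (funEmb_mem j hx ha hb)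
  rwa [funEmb_apply j ha] at h

private theorem funGn_out (hx : x ∉ M.car) (f : M.X → ℝ) : M.gn f x = 0 := by
  rw [Atl.gn, dif_neg hx]

end Transfer

variable {f g : M.X → ℝ} {x : M.X}

theorem Atl.smAt_of_chart {a : M.A} (ha : x ∈ (M.φ a).source)
    (h : ContDiffAt ℝ ∞ (f ∘ (M.φ a).symm) (M.φ a x)) : M.SmAt f x := fun _ hb =>
  (funEmb_contDiffAt (Emb.id M) (M.source_subset a ha) ha hb f).2 h

theorem Atl.sm_iff_smAt : M.Sm f ↔ ∀ x ∈ M.car, M.SmAt f x := by
  constructor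
  · intro h x _ a ha
    exact (h a).contDiffAt ((M.φ a).open_target.mem_nhds ((M.φ a).map_source ha))
  · intro h a y hy
    have h1 := h _ (M.source_subset a ((M.φ a).map_target hy)) a ((M.φ a).map_target hy)
    rw [(M.φ a).right_inv hy] at h1
    exact h1.contDiffWithinAt

theorem Atl.Sm.smAt (h : M.Sm f) (x : M.X) : M.SmAt f x := fun a ha =>
  (h a).contDiffAt ((M.φ a).open_target.mem_nhds ((M.φ a).map_source ha))

theorem Atl.SmAt.congr (h : M.SmAt f x) (hfg : g =ᶠ[𝓝 x] f) : M.SmAt g x := fun a ha =>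
  (h a ha).congr_of_eventuallyEq (hfg.comp_tendsto ((M.φ a).tendsto_symm ha))

theorem Atl.Sm.congr (h : M.Sm f) (hfg : EqOn g f M.car) : M.Sm g := fun a =>
  (h a).congr fun _ hy => hfg (M.source_subset a ((M.φ a).map_target hy))

theorem Atl.SmAt.continuousAt (h : M.SmAt f x) (hx : x ∈ M.car) : ContinuousAt f x := by
  obtain ⟨a, ha⟩ := Atl.mem_car.1 hx
  exact ((M.φ a).symm.continuousAt_iff_continuousAt_comp_right ha).2 (h a ha).continuousAt

theorem Atl.Sm.continuousOn (h : M.Sm f) : ContinuousOn f M.car := fun x hx =>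
  ((h.smAt x).continuousAt hx).continuousWithinAt

theorem Atl.smAt_const (c : ℝ) : M.SmAt (fun _ => c) x := fun _ _ => contDiffAt_const

theorem Atl.SmAt.add (hf : M.SmAt f x) (hg : M.SmAt g x) : M.SmAt (fun y => f y + g y) x :=
  fun a ha => (hf a ha).add (hg a ha)

theorem Atl.SmAt.sub (hf : M.SmAt f x) (hg : M.SmAt g x) : M.SmAt (fun y => f y - g y) x :=
  fun a ha => (hf a ha).sub (hg a ha)

theorem Atl.SmAt.mul (hf : M.SmAt f x) (hg : M.SmAt g x) : M.SmAt (fun y => f y * g y) x :=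
  fun a ha => (hf a ha).mul (hg a ha)

theorem Atl.SmAt.comp (hf : M.SmAt f x) (hx : x ∈ M.car) {u : ℝ → ℝ}
    (hu : ContDiffAt ℝ ∞ u (f x)) : M.SmAt (fun y => u (f y)) x := fun a ha => by
  have h1 : ContDiffAt ℝ ∞ u ((f ∘ (M.φ a).symm) (M.φ a x)) := by
    rwa [Function.comp_apply, (M.φ a).left_inv ha]
  exact h1.comp _ (hf a ha)

theorem Atl.sm_const (c : ℝ) : M.Sm fun _ => c := fun _ => contDiffOn_const

theorem Atl.sm_zero : M.Sm 0 := Atl.sm_const 0

theorem Atl.Sm.add (hf : M.Sm f) (hg : M.Sm g) : M.Sm fun y => f y + g y := fun a =>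
  (hf a).add (hg a)

theorem Atl.Sm.sub (hf : M.Sm f) (hg : M.Sm g) : M.Sm fun y => f y - g y := fun a =>
  (hf a).sub (hg a)

theorem Atl.Sm.neg (hf : M.Sm f) : M.Sm fun y => -f y := fun a => (hf a).neg

theorem Atl.Sm.mul (hf : M.Sm f) (hg : M.Sm g) : M.Sm fun y => f y * g y := fun a =>
  (hf a).mul (hg a)

theorem Atl.Sm.comp (hf : M.Sm f) {u : ℝ → ℝ} (hu : ContDiff ℝ ∞ u) : M.Sm fun y => u (f y) :=
  fun a => hu.comp_contDiffOn (hf a)

theorem Atl.sm_sum {ι : Type} (s : Finset ι) {η : ι → M.X → ℝ} (h : ∀ i ∈ s, M.Sm (η i)) :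
    M.Sm fun y => ∑ i ∈ s, η i y := fun a =>
  ContDiffOn.sum (f := fun i => η i ∘ (M.φ a).symm) fun i hi => h i hi a

/-- A smooth function with compact support in a chart, extended by zero. -/
theorem Atl.sm_extend (a : M.A) {w : E n → ℝ} (hw : ContDiffOn ℝ ∞ w (M.φ a).target)
    {K : Set (E n)} (hK : IsCompact K) (hKa : K ⊆ (M.φ a).target)
    (h0 : ∀ y ∈ (M.φ a).target, y ∉ K → w y = 0) :
    M.Sm ((M.φ a).source.indicator fun x => w (M.φ a x)) := by
  refine Atl.sm_iff_smAt.2 fun x _ => ?_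
  by_cases ha : x ∈ (M.φ a).source
  · have hn := (M.φ a).open_target.mem_nhds ((M.φ a).map_source ha)
    refine Atl.smAt_of_chart ha ((hw.contDiffAt hn).congr_of_eventuallyEq ?_)
    filter_upwards [hn] with y hy
    rw [Function.comp_apply, indicator_of_mem ((M.φ a).map_target hy), (M.φ a).right_inv hy]
  · have hc : IsClosed ((M.φ a).symm '' K) :=
      (hK.image_of_continuousOn ((M.φ a).continuousOn_symm.mono hKa)).isClosed
    have hx : x ∉ (M.φ a).symm '' K := by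
      rintro ⟨y, hy, rfl⟩
      exact ha ((M.φ a).map_target (hKa hy))
    refine (Atl.smAt_const 0).congr ?_
    filter_upwards [hc.isOpen_compl.mem_nhds hx] with y hy
    by_cases hy' : y ∈ (M.φ a).source
    · rw [indicator_of_mem hy']
      exact h0 _ ((M.φ a).map_source hy') fun hk => hy ⟨_, hk, (M.φ a).left_inv hy'⟩
    · exact indicator_of_notMem hy' _

theorem Atl.gn_nonneg (f : M.X → ℝ) (x : M.X) : 0 ≤ M.gn f x := by
  unfold Atl.gn
  split_ifs
  · exact norm_nonneg _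
  · exact le_rfl

/-- No differentiability is needed: `f` is differentiable in one chart iff it is in the other, and
otherwise both sides vanish. -/
theorem Atl.gn_eq {a : M.A} (ha : x ∈ (M.φ a).source) (f : M.X → ℝ) :
    M.gn f x = ‖grad (M.e a) (f ∘ (M.φ a).symm) (M.φ a x)‖ := by
  have hx := M.source_subset a ha
  rw [Atl.gn, dif_pos hx]
  exact funEmb_norm_grad (Emb.id M) hx ha (M.ch_spec hx) f

theorem Atl.gn_congr (h : f =ᶠ[𝓝 x] g) : M.gn f x = M.gn g x := by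
  by_cases hx : x ∈ M.car
  · obtain ⟨a, ha⟩ := Atl.mem_car.1 hx
    rw [Atl.gn_eq ha, Atl.gn_eq ha, grad_congr (h.comp_tendsto ((M.φ a).tendsto_symm ha))]
  · rw [funGn_out hx, funGn_out hx]

theorem Atl.gn_const (c : ℝ) (x : M.X) : M.gn (fun _ => c) x = 0 := by
  by_cases hx : x ∈ M.car
  · obtain ⟨a, ha⟩ := Atl.mem_car.1 hx
    rw [Atl.gn_eq ha]
    exact norm_eq_zero.2 (grad_const c)
  · exact funGn_out hx _

theorem Atl.gn_zero (x : M.X) : M.gn 0 x = 0 := Atl.gn_const 0 x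

theorem Atl.gn_const_mul (c : ℝ) (f : M.X → ℝ) (x : M.X) :
    M.gn (fun y => c * f y) x = |c| * M.gn f x := by
  by_cases hx : x ∈ M.car
  · obtain ⟨a, ha⟩ := Atl.mem_car.1 hx
    rw [Atl.gn_eq ha, Atl.gn_eq ha, ← Real.norm_eq_abs, ← norm_smul, ← funGrad_const_mul]
    rfl
  · rw [funGn_out hx, funGn_out hx, mul_zero]

theorem Atl.gn_add_le (hf : M.SmAt f x) (hg : M.SmAt g x) :
    M.gn (fun y => f y + g y) x ≤ M.gn f x + M.gn g x := by
  by_cases hx : x ∈ M.car
  · obtain ⟨a, ha⟩ := Atl.mem_car.1 hx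
    rw [Atl.gn_eq ha, Atl.gn_eq ha, Atl.gn_eq ha]
    have h := grad_add (e := M.e a) ((hf a ha).differentiableAt (by simp))
      ((hg a ha).differentiableAt (by simp))
    exact (congrArg norm h).trans_le (norm_add_le _ _)
  · rw [funGn_out hx, funGn_out hx, funGn_out hx, add_zero]

theorem Atl.gn_mul_le (hf : M.SmAt f x) (hg : M.SmAt g x) :
    M.gn (fun y => f y * g y) x ≤ |f x| * M.gn g x + |g x| * M.gn f x := by
  by_cases hx : x ∈ M.car
  · obtain ⟨a, ha⟩ := Atl.mem_car.1 hx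
    rw [Atl.gn_eq ha, Atl.gn_eq ha, Atl.gn_eq ha]
    have h := grad_mul (e := M.e a) ((hf a ha).differentiableAt (by simp))
      ((hg a ha).differentiableAt (by simp))
    refine (congrArg norm h).trans_le ((norm_add_le _ _).trans_eq ?_)
    rw [norm_smul, norm_smul, Function.comp_apply, Function.comp_apply, (M.φ a).left_inv ha,
      Real.norm_eq_abs, Real.norm_eq_abs]
  · rw [funGn_out hx, funGn_out hx, funGn_out hx, mul_zero, mul_zero, add_zero]

theorem Atl.gn_comp (hf : M.SmAt f x) {u : ℝ → ℝ} (hu : DifferentiableAt ℝ u (f x)) :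
    M.gn (fun y => u (f y)) x = |deriv u (f x)| * M.gn f x := by
  by_cases hx : x ∈ M.car
  · obtain ⟨a, ha⟩ := Atl.mem_car.1 hx
    rw [Atl.gn_eq ha, Atl.gn_eq ha]
    have h1 : DifferentiableAt ℝ u ((f ∘ (M.φ a).symm) (M.φ a x)) := by
      rwa [Function.comp_apply, (M.φ a).left_inv ha]
    have h := grad_comp (e := M.e a) ((hf a ha).differentiableAt (by simp)) h1
    refine (congrArg norm h).trans ?_
    rw [norm_smul, Function.comp_apply, (M.φ a).left_inv ha, Real.norm_eq_abs]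
  · rw [funGn_out hx, funGn_out hx, mul_zero]

theorem Atl.Sm.continuousOn_gn (hf : M.Sm f) : ContinuousOn (M.gn f) M.car := by
  intro x hx
  obtain ⟨a, ha⟩ := Atl.mem_car.1 hx
  have h1 : ContinuousOn (fun y => ‖grad (M.e a) (f ∘ (M.φ a).symm) (M.φ a y)‖) (M.φ a).source :=
    (((M.fr a).contDiffOn_grad (M.φ a).open_target (hf a)).continuousOn.comp
      (M.φ a).continuousOn (M.φ a).mapsTo).norm
  have h2 : ContinuousOn (M.gn f) (M.φ a).source := h1.congr fun y hy => Atl.gn_eq hy f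
  exact (h2.continuousAt ((M.φ a).open_source.mem_nhds ha)).continuousWithinAt

theorem Atl.scal_eq {a : M.A} (ha : x ∈ (M.φ a).source) :
    M.scal x = SZ.scal (M.e a) (M.φ a x) := by
  have hx := M.source_subset a ha
  rw [Atl.scal, dif_pos hx]
  exact funEmb_scal (Emb.id M) hx ha (M.ch_spec hx)

theorem Atl.sm_scal (M : Atl n) : M.Sm M.scal := fun a =>
  ((M.fr a).contDiffOn_scal (M.φ a).open_target).congr fun y hy => by
    rw [Function.comp_apply, Atl.scal_eq ((M.φ a).map_target hy), (M.φ a).right_inv hy]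

theorem Atl.psc_iff {S : Set M.X} : M.Psc S ↔ ∀ x ∈ M.car, x ∈ S → 0 < M.scal x := by
  constructor
  · intro h x hx hS
    obtain ⟨a, ha⟩ := Atl.mem_car.1 hx
    rw [Atl.scal_eq ha]
    exact h a x ha hS
  · intro h a x ha hS
    rw [← Atl.scal_eq ha]
    exact h x (M.source_subset a ha) hS

theorem Atl.complete_of_compact (h : IsCompact M.car) : M.Complete :=
  ⟨fun _ => 0, 0, Atl.sm_const 0, fun x _ => (Atl.gn_const 0 x).le,
    fun _ => h.inter_right (isClosed_Iic.preimage continuous_const)⟩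

section Emb

variable {N : Atl n} (j : Emb M N)

theorem Emb.smAt_iff (hx : x ∈ j.f.source) (f' : N.X → ℝ) :
    N.SmAt f' (j.f x) ↔ M.SmAt (fun y => f' (j.f y)) x := by
  obtain ⟨a, ha⟩ := Atl.mem_car.1 (j.src hx)
  obtain ⟨b, hb⟩ := Atl.mem_car.1 (j.tgt (j.f.map_source hx))
  have h := funEmb_contDiffAt j hx ha hb f'
  exact ⟨fun h1 => Atl.smAt_of_chart ha (h.1 (h1 b hb)),
    fun h1 => Atl.smAt_of_chart hb (h.2 (h1 a ha))⟩

theorem Emb.gn_eq (hx : x ∈ j.f.source) (f' : N.X → ℝ) :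
    N.gn f' (j.f x) = M.gn (fun y => f' (j.f y)) x := by
  obtain ⟨a, ha⟩ := Atl.mem_car.1 (j.src hx)
  obtain ⟨b, hb⟩ := Atl.mem_car.1 (j.tgt (j.f.map_source hx))
  rw [Atl.gn_eq ha, Atl.gn_eq hb]
  exact funEmb_norm_grad j hx ha hb f'

theorem Emb.scal_eq (hx : x ∈ j.f.source) : N.scal (j.f x) = M.scal x := by
  obtain ⟨a, ha⟩ := Atl.mem_car.1 (j.src hx)
  obtain ⟨b, hb⟩ := Atl.mem_car.1 (j.tgt (j.f.map_source hx))
  rw [Atl.scal_eq ha, Atl.scal_eq hb]
  exact funEmb_scal j hx ha hb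

end Emb

section Prod

variable {a b : ℕ} {M₁ : Atl a} {M₂ : Atl b} {z : M₁.X × M₂.X}

theorem Atl.SmAt.fst {f : M₁.X → ℝ} (h : M₁.SmAt f z.1) :
    (M₁.prod M₂).SmAt (fun w => f w.1) z := fun c hc => by
  have h1 : pl (((M₁.prod M₂).φ c) z) = M₁.φ c.1 z.1 := pl_append _ _
  have h2 := h c.1 hc.1
  rw [← h1] at h2
  exact h2.comp _ contDiff_pl.contDiffAt

theorem Atl.SmAt.snd {g : M₂.X → ℝ} (h : M₂.SmAt g z.2) :
    (M₁.prod M₂).SmAt (fun w => g w.2) z := fun c hc => by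
  have h1 : pr (((M₁.prod M₂).φ c) z) = M₂.φ c.2 z.2 := pr_append _ _
  have h2 := h c.2 hc.2
  rw [← h1] at h2
  exact h2.comp _ contDiff_pr.contDiffAt

theorem Atl.Sm.fst {f : M₁.X → ℝ} (h : M₁.Sm f) : (M₁.prod M₂).Sm fun w => f w.1 :=
  Atl.sm_iff_smAt.2 fun z _ => (h.smAt z.1).fst

theorem Atl.Sm.snd {g : M₂.X → ℝ} (h : M₂.Sm g) : (M₁.prod M₂).Sm fun w => g w.2 :=
  Atl.sm_iff_smAt.2 fun z _ => (h.smAt z.2).snd

theorem Atl.gn_fst {f : M₁.X → ℝ} (h : M₁.SmAt f z.1) (hz : z ∈ (M₁.prod M₂).car) :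
    (M₁.prod M₂).gn (fun w => f w.1) z = M₁.gn f z.1 := by
  obtain ⟨c, hc⟩ := Atl.mem_car.1 hz
  have h1 : pl (((M₁.prod M₂).φ c) z) = M₁.φ c.1 z.1 := pl_append _ _
  have h2 := (h c.1 hc.1).differentiableAt (by simp)
  rw [← h1] at h2
  have h3 := norm_grad_pfr_pl (e₁ := M₁.e c.1) (e₂ := M₂.e c.2) h2
  have h4 : (fun w : M₁.X × M₂.X => f w.1) ∘ ((M₁.prod M₂).φ c).symm =
      fun w => (f ∘ (M₁.φ c.1).symm) (pl w) := rfl
  rw [h1, ← h4] at h3
  exact (Atl.gn_eq hc _).trans (h3.trans (Atl.gn_eq (M := M₁) hc.1 f).symm)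

theorem Atl.gn_snd {g : M₂.X → ℝ} (h : M₂.SmAt g z.2) (hz : z ∈ (M₁.prod M₂).car) :
    (M₁.prod M₂).gn (fun w => g w.2) z = M₂.gn g z.2 := by
  obtain ⟨c, hc⟩ := Atl.mem_car.1 hz
  have h1 : pr (((M₁.prod M₂).φ c) z) = M₂.φ c.2 z.2 := pr_append _ _
  have h2 := (h c.2 hc.2).differentiableAt (by simp)
  rw [← h1] at h2
  have h3 := norm_grad_pfr_pr (e₁ := M₁.e c.1) (e₂ := M₂.e c.2) h2
  have h4 : (fun w : M₁.X × M₂.X => g w.2) ∘ ((M₁.prod M₂).φ c).symm =
      fun w => (g ∘ (M₂.φ c.2).symm) (pr w) := rfl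
  rw [h1, ← h4] at h3
  exact (Atl.gn_eq hc _).trans (h3.trans (Atl.gn_eq (M := M₂) hc.2 g).symm)

theorem Atl.scal_prod' (hz : z ∈ (M₁.prod M₂).car) :
    (M₁.prod M₂).scal z = M₁.scal z.1 + M₂.scal z.2 := by
  obtain ⟨c, hc⟩ := Atl.mem_car.1 hz
  rw [Atl.scal_eq hc, Atl.scal_eq (M := M₁) hc.1, Atl.scal_eq (M := M₂) hc.2]
  exact Atl.scal_prod M₁ M₂ c hc

end Prod

theorem smAt_line {u : ℝ → ℝ} {t : ℝ} : line.SmAt u t ↔ ContDiffAt ℝ ∞ u t := by
  constructor
  · intro h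
    have h1 : ContDiffAt ℝ ∞ (fun w : E 1 => u (w 0)) (fun _ => t) := h () trivial
    have h2 : ContDiff ℝ ∞ fun s : ℝ => (fun _ => s : E 1) := contDiff_pi.2 fun _ => contDiff_id
    exact ContDiffAt.comp (g := fun w : E 1 => u (w 0)) (f := fun s : ℝ => (fun _ => s : E 1)) t h1
      h2.contDiffAt
  · intro h _ _
    have h2 : ContDiffAt ℝ ∞ (fun w : E 1 => w 0) (fun _ => t) :=
      (contDiff_apply ℝ ℝ (0 : Fin 1)).contDiffAt
    exact ContDiffAt.comp (f := fun w : E 1 => w 0) (fun _ => t) h h2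

theorem sm_line {u : ℝ → ℝ} : line.Sm u ↔ ContDiff ℝ ∞ u := by
  rw [Atl.sm_iff_smAt, contDiff_iff_contDiffAt, car_line]
  exact ⟨fun h t => smAt_line.1 (h t trivial), fun h t _ => smAt_line.2 (h t)⟩

theorem gn_line {u : ℝ → ℝ} {t : ℝ} (hu : DifferentiableAt ℝ u t) :
    line.gn u t = |deriv u t| := by
  have h1 : ‖(cl 0 : Cl 1)‖ = 1 := by
    have h := norm_pin_mul (cl_mem_pin (0 : Fin 1)) 1
    rwa [mul_one, norm_one_cl] at h
  have h2 := grad_line (g := u) (y := fun _ => t) hu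
  rw [Atl.gn_eq (M := line) (a := ()) trivial]
  refine (congrArg norm h2).trans ?_
  rw [norm_smul, h1, mul_one, Real.norm_eq_abs]

theorem scal_line' (t : ℝ) : line.scal t = 0 := by
  rw [Atl.scal_eq (M := line) (a := ()) trivial]
  exact scal_line _

theorem complete_line : line.Complete := by
  have hpos : ∀ t : ℝ, 0 < 1 + t ^ 2 := fun t => by positivity
  have hs : ContDiff ℝ ∞ fun t : ℝ => √(1 + t ^ 2) :=
    ContDiff.sqrt (by fun_prop) fun t => (hpos t).ne'
  have hle : ∀ t : ℝ, |t| ≤ √(1 + t ^ 2) := fun t => Real.abs_le_sqrt (by linarith)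
  refine ⟨fun t : ℝ => √(1 + t ^ 2), 1, sm_line.2 hs, fun t _ => ?_, fun r => ?_⟩
  · have hd : HasDerivAt (fun t : ℝ => √(1 + t ^ 2)) (2 * t / (2 * √(1 + t ^ 2))) t := by
      have h1 : HasDerivAt (fun t : ℝ => 1 + t ^ 2) (2 * t) t := by
        simpa using (hasDerivAt_pow 2 t).const_add 1
      exact h1.sqrt (hpos t).ne'
    have hq : 0 < √(1 + t ^ 2) := Real.sqrt_pos.2 (hpos t)
    rw [gn_line hd.differentiableAt, hd.deriv, mul_div_mul_left _ _ two_ne_zero, abs_div,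
      abs_of_pos hq, div_le_one hq]
    exact hle t
  · rw [car_line, univ_inter]
    refine (isCompact_Icc (a := -r) (b := r)).of_isClosed_subset
      (isClosed_Iic.preimage hs.continuous) fun t ht => ?_
    exact abs_le.1 ((hle t).trans ht)

theorem mem_car_cyl {m : ℕ} {M : Atl m} {z : M.X × ℝ} : z ∈ (cyl M).car ↔ z.1 ∈ M.car := by
  rw [Atl.car_prod, car_line]
  exact ⟨fun h => h.1, fun h => ⟨h, trivial⟩⟩

end SZ
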