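import Pool.Agent.P.MP_8db816_gt.SZ.Dense
import Pool.Agent.P.MP_8db816_gt.SZ.Cpl
import Pool.Agent.P.MP_8db816_gt.SZ.AbsProd

/-! The product formula for the index. -/

noncomputable section

namespace SZ

open Set CliffordAlgebra Filter Topology MeasureTheory Atl.Sec
open scoped ContDiff RealInnerProductSpace

variable {a b m : ℕ}

theorem index_prod {M : Atl a} {N : Atl b} (ha : 8 ∣ a) (hM : IsCompact M.car) {G : Gr (a + b)}
    {G₂ : Gr b} (hG : G.IsProd G₂) {φ : N.X → ℝ} (hN : N.Good G₂ φ)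
    (h : (M.prod N).Good G fun z => φ z.2) :
    ((M.prod N).index G fun z => φ z.2) = M.index (grEven a ha) 0 * N.index G₂ φ := by
  have hM' : M.Good (grEven a ha) 0 := good_of_compact hM _ Atl.sm_zero
  have hev : Even a := (even_iff_two_dvd).2 (Dvd.dvd.trans (by norm_num) ha)
  have hv : involute (vol a) = vol a := by rw [involute_vol, hev.neg_one_pow, one_smul]
  refine ind_prod (κ := (M.prod N).cend (LinearMap.mulLeft ℝ (inl a b (vol a))))
    (α := M.cend involute.toLinearMap) h.fred hM'.fred hN.fred (tens M N) inner_tens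
    (dense_tens M N) (fun ψ => ?_) (sym_cend inner_involute_left) (fun ψ => ?_) (fun ψ => ?_)
    (fun ψ χ => ?_) (eps_tens ha hG) (kappa_tens ha) (sym_cend fun z w => ?_) (fun ψ => ?_)
  · refine Atl.Sec.ext fun c x => ?_
    rw [fam_cend (eqv_involute M), fam_cend (eqv_involute M)]
    exact involute_involute _
  · rw [op_zero]
    refine dir_cend (fun i z => ?_) ψ
    change involute (cl i * z) = -(cl i * involute z)
    rw [map_mul, involute_cl, neg_mul]
  · refine Atl.Sec.ext fun c x => ?_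
    rw [fam_cend (eqv_involute M), fam_cend ((grEven a ha).eqv_ε M),
      fam_cend ((grEven a ha).eqv_ε M), fam_cend (eqv_involute M)]
    change involute (vol a * _) = vol a * involute _
    rw [map_mul, hv]
  · rw [op_zero]
    exact op_tens hG hN.pot.1 ψ χ
  · rw [LinearMap.mulLeft_apply, LinearMap.mulLeft_apply, inner_mul_left, inl_star, star_vol ha]
  · refine Atl.Sec.ext fun c x => ?_
    rw [fam_cend (eqv_inl_vol ha M N), fam_cend (eqv_inl_vol ha M N), LinearMap.mulLeft_apply,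
      LinearMap.mulLeft_apply, ← mul_assoc, ← map_mul, vol_mul_self ha, map_one, one_mul]

theorem IsNeck.cylProd (B : Atl a) {M : Atl m} {Y : Atl (m + 1)} {e : Emb (cyl M) Y}
    {τ : Y.X → ℝ} {I : Set ℝ} (h : IsNeck e τ I) :
    IsNeck (m := a + m) (e.cylProd B) (fun z => τ z.2) I where
  cont := by
    refine h.cont.comp continuous_snd.continuousOn fun z hz => ?_
    exact ((B.car_prod Y).le hz).2
  src z hz := by
    have h1 := (B.car_prod M).le hz.1
    exact ⟨h1.1, h.src ⟨h1.2, hz.2⟩⟩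
  val x hx t ht := h.val x.2 ((B.car_prod M).le hx).2 t ht
  surj y hy ht := by
    have h1 := (B.car_prod Y).le hy
    obtain ⟨x, hx, hx'⟩ := h.surj y.2 h1.2 ht
    exact ⟨(y.1, x), (B.car_prod M).ge ⟨h1.1, hx⟩, Prod.ext rfl hx'⟩

theorem Col.τ_prod (L : Col m) (B : Atl a) (hB : IsCompact B.car) {y : B.X × L.Z.X}
    (hy : y.1 ∈ B.car) : (L.prod B hB).τ y = L.τ y.2 := by
  by_cases h : y.2 ∈ L.e.f.target
  · have h' : y ∈ (L.prod B hB).e.f.target := ⟨hy, h⟩
    have e1 : L.τ y.2 = (L.e.f.symm y.2).2 := if_pos h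
    rw [e1]
    exact if_pos h'
  · have h' : y ∉ (L.prod B hB).e.f.target := fun h' => h h'.2
    have e1 : L.τ y.2 = L.ε := if_neg h
    rw [e1]
    exact if_neg h'

/-- The product of `B` with a completion of `L` is a completion of `B × L`. -/
theorem Cpl.exists_prod {L : Col m} (C : Cpl L) (B : Atl a) (hB : IsCompact B.car) :
    ∃ C' : Cpl (L.prod B hB), C'.Y = (B.prod C.Y : Atl (a + m + 1)) := by
  refine ⟨⟨(B.prod C.Y : Atl (a + m + 1)), C.b.cylProd B, fun z => C.τ z.2,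
    (Emb.id B).prod C.ι, C.γ, C.β, C.pos, C.lt, C.le, C.par, C.neck.cylProd B, ?_, ?_, ?_, ?_⟩, rfl⟩
  · exact (one_mul _).trans C.mat.par
  · rintro y ⟨hy, ht⟩
    have h1 := (B.car_prod L.Z).le hy
    refine ⟨h1.1, C.mat.src ⟨h1.2, ?_⟩⟩
    have h2 : (L.prod B hB).τ y ∈ Ioi C.γ := ht
    rwa [L.τ_prod B hB h1.1] at h2
  · ext z
    constructor
    · rintro ⟨y, ⟨hy, ht⟩, rfl⟩
      have h1 := (B.car_prod L.Z).le hy
      have h2 : (L.prod B hB).τ y ∈ Ioi C.γ := ht
      rw [L.τ_prod B hB h1.1] at h2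
      have h3 := C.mat.img.le ⟨y.2, ⟨h1.2, h2⟩, rfl⟩
      exact ⟨(B.car_prod C.Y).ge ⟨h1.1, h3.1⟩, h3.2⟩
    · rintro ⟨hz, ht⟩
      have h1 := (B.car_prod C.Y).le hz
      obtain ⟨y, ⟨hy, hy'⟩, hyz⟩ := C.mat.img.ge ⟨h1.2, ht⟩
      refine ⟨(z.1, y), ⟨(B.car_prod L.Z).ge ⟨h1.1, hy⟩, ?_⟩, Prod.ext rfl hyz⟩
      change (L.prod B hB).τ (z.1, y) ∈ Ioi C.γ
      rw [L.τ_prod B hB h1.1]
      exact hy'
  · exact (Sq.cylProd_id B C.mat.sq).mono (prod_mono (B.car_prod L.M).le subset_rfl)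

theorem Col.ind_prod (L : Col m) (B : Atl a) (hB : IsCompact B.car) (ha : 8 ∣ a)
    {G : Gr (a + (m + 1))} {G₂ : Gr (m + 1)} (hG : G.IsProd G₂) (hp : L.M.Psc univ)
    (hp' : (B.prod L.M).Psc univ) :
    (L.prod B hB).ind G = B.index (grEven a ha) 0 * L.ind G₂ := by
  obtain ⟨C⟩ : Nonempty (Cpl L) := inferInstance
  obtain ⟨C', hC'⟩ := C.exists_prod B hB
  have h1 := C'.index_eq hp' G
  have h2 := C'.good hp' G
  rw [hC'] at h1 h2
  have h3 := index_prod (M := B) (N := C.Y) (φ := 0) ha hB hG (C.good hp G₂) h2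
  rw [C.index_eq hp G₂] at h3
  exact h1.symm.trans h3

end SZ
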