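import Pool.Agent.P.MP_8db816_gt.SZ.Push

/-! The index is invariant under isometries and additive under disjoint unions. -/

noncomputable section

namespace SZ

open Set CliffordAlgebra Filter Topology MeasureTheory Atl.Sec
open scoped ContDiff RealInnerProductSpace

variable {n : ℕ} {M M₁ M₂ : Atl n} {G : Gr n}

namespace SumAux

theorem cut_one (j : Emb M₁ M) (hs : j.f.source = M₁.car) : Cut j (fun _ => 1) M₁.car where
  sm := Atl.sm_const 1
  sub := hs.ge
  opn := by rw [sdiff_self]; exact isOpen_empty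
  off _ h h' := absurd h h'

theorem inner_one (j : Emb M₁ M) (hs : j.f.source = M₁.car) (x y : M₁.Sec) :
    ⟪(cut_one j hs).push x, (cut_one j hs).push y⟫ = ⟪x, y⟫ := by
  rw [Cut.inner_push_push, Atl.Sec.inner_def]
  simp only [one_pow, one_mul]

theorem op_one (j : Emb M₁ M) (hp : j.p = 1) (hs : j.f.source = M₁.car) (G : Gr n) (x : M₁.Sec) :
    M.Op G 0 ((cut_one j hs).push x) = (cut_one j hs).push (M₁.Op G 0 x) := by
  have h := (cut_one j hs).norm_comm G (φ := 0) (φ' := 0) Atl.sm_zero Atl.sm_zero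
    (fun _ _ => rfl) x
  have h0 := norm_gr_le (M := M₁) (Atl.sm_const 1) le_rfl
    (fun y _ => (Atl.gn_const 1 y).le) x
  rw [← h, zero_mul, hp, one_smul] at h0
  exact sub_eq_zero.1 (norm_le_zero_iff.1 h0)

theorem eps_one (j : Emb M₁ M) (hp : j.p = 1) (hs : j.f.source = M₁.car) (G : Gr n) (x : M₁.Sec) :
    M.cend G.ε ((cut_one j hs).push x) = (cut_one j hs).push (M₁.cend G.ε x) := by
  rw [Cut.cend_push _ G.ε_anti, hp, one_smul]

theorem ev_one_off (j : Emb M₁ M) (hs : j.f.source = M₁.car) (x : M₁.Sec) {y : M.X}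
    (hy : y ∉ j.f.target) : ((cut_one j hs).push x).ev y = 0 :=
  Cut.ev_push_of_notMem _ _ (by rwa [← hs, j.f.image_source_eq_target])

theorem cut_back (j : Emb M₁ M) (ho : IsOpen (M.car \ j.f.target)) :
    Cut j.symm (j.f.target.indicator fun _ => 1) j.f.target where
  sm := Atl.sm_iff_smAt.2 fun y hy => by
    by_cases h : y ∈ j.f.target
    · refine (Atl.smAt_const 1).congr ?_
      filter_upwards [j.f.open_target.mem_nhds h] with z hz using indicator_of_mem hz _
    · refine (Atl.smAt_const 0).congr ?_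
      filter_upwards [ho.mem_nhds ⟨hy, h⟩] with z hz using indicator_of_notMem hz.2 _
  sub := subset_rfl
  opn := ho
  off _ _ h := indicator_of_notMem h _

theorem exists_back (j : Emb M₁ M) (hs : j.f.source = M₁.car)
    (ho : IsOpen (M.car \ j.f.target)) (z : M.Sec) :
    ∃ x : M₁.Sec, ∀ y ∈ j.f.target, ((cut_one j hs).push x).ev y = z.ev y := by
  refine ⟨(cut_back j ho).push z, fun y hy => ?_⟩
  have e : j.f.symm y = j.symm.f y := rfl
  rw [Cut.ev_push' _ _ hy, one_smul]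
  nth_rewrite 2 [e]
  rw [Cut.ev_push _ _ hy, indicator_of_mem hy, one_smul, Emb.mu_symm' j hy, ← mul_assoc,
    Emb.mu_mul_star, one_mul]

end SumAux

open SumAux

theorem index_iso (j : Emb M₁ M) (hp : j.p = 1) (hs : j.f.source = M₁.car)
    (ht : j.f.target = M.car) (h₁ : M₁.Good G 0) : M.index G 0 = M₁.index G 0 := by
  refine (ind_unitary h₁.fred (cut_one j hs).push (inner_one j hs) (fun z => ?_) (op_one j hp hs G)
    (eps_one j hp hs G)).2
  obtain ⟨x, hx⟩ := exists_back j hs (by rw [ht, sdiff_self]; exact isOpen_empty) z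
  exact ⟨x, ext_ev fun y hy => hx y (ht ▸ hy)⟩

theorem index_sum (j₁ : Emb M₁ M) (j₂ : Emb M₂ M) (hp₁ : j₁.p = 1) (hp₂ : j₂.p = 1)
    (hs₁ : j₁.f.source = M₁.car) (hs₂ : j₂.f.source = M₂.car)
    (hd : Disjoint j₁.f.target j₂.f.target) (ht : j₁.f.target ∪ j₂.f.target = M.car)
    (h₁ : M₁.Good G 0) (h₂ : M₂.Good G 0) : M.index G 0 = M₁.index G 0 + M₂.index G 0 := by
  refine (ind_add h₁.fred h₂.fred (cut_one j₁ hs₁).push (cut_one j₂ hs₂).push (inner_one j₁ hs₁)
    (inner_one j₂ hs₂) (fun x y => ?_) (fun z => ?_) (op_one j₁ hp₁ hs₁ G) (op_one j₂ hp₂ hs₂ G)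
    (eps_one j₁ hp₁ hs₁ G) (eps_one j₂ hp₂ hs₂ G)).2
  · rw [Atl.Sec.inner_def, ← Atl.int_zero (M := M)]
    refine Atl.int_congr fun w _ => ?_
    by_cases h : w ∈ j₁.f.target
    · simp only [ev_one_off j₂ hs₂ y (disjoint_left.1 hd h), inner_zero_right]
    · simp only [ev_one_off j₁ hs₁ x h, inner_zero_left]
  · obtain ⟨x, hx⟩ := exists_back j₁ hs₁
      (by rw [← ht, union_sdiff_cancel_left hd.le_bot]; exact j₂.f.open_target) z
    obtain ⟨y, hy⟩ := exists_back j₂ hs₂
      (by rw [← ht, union_sdiff_cancel_right hd.le_bot]; exact j₁.f.open_target) z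
    refine ⟨x, y, ext_ev fun w hw => ?_⟩
    rw [ev_add]
    rcases (ht ▸ hw : w ∈ j₁.f.target ∪ j₂.f.target) with h | h
    · rw [hx w h, ev_one_off j₂ hs₂ y (disjoint_left.1 hd h), add_zero]
    · rw [hy w h, ev_one_off j₁ hs₁ x (disjoint_right.1 hd h), zero_add]

end SZ
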