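import Pool.Agent.P.MP_8db816_gt.SZ.Fix
import Pool.Agent.P.MP_8db816_gt.SZ.IndexProd
import Pool.Agent.P.MP_8db816_gt.SZ.Line
import Pool.Agent.P.MP_8db816_gt.SZ.Sum
import Pool.Agent.P.MP_8db816_gt.SZ.BottIdx

/-! The cycles `𝔅 × Γ/K`. -/

noncomputable section

namespace SZ

open Set CliffordAlgebra Filter Topology
open scoped ContDiff RealInnerProductSpace

variable {Γ : Type}

namespace GenAux

theorem lift_zero (e e' : Fr 0) (U : Set (E 0)) (τ : E 0 → E 0) (σ : E 0 → Cl 0)
    (hσ : ∀ y, σ y = 1) : Lift 1 e e' U τ σ := by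
  have h1 : τ = fun _ => 0 := funext fun _ => Subsingleton.elim _ _
  have h2 : σ = fun _ => 1 := funext hσ
  refine lift_iff.2 ⟨h1 ▸ contDiffOn_const, h2 ▸ contDiffOn_const, fun y _ => ?_⟩
  rw [hσ y]
  exact ⟨one_mem _, by simp, fun _ _ _ => Subsingleton.elim _ _⟩

/-- The chart at a point of a discrete space. -/
def ptChart {ι : Type} [TopologicalSpace ι] [DiscreteTopology ι] (a : ι) :
    OpenPartialHomeomorph ι (E 0) where
  toFun _ := 0
  invFun _ := a
  source := {a}
  target := univ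
  map_source' _ _ := mem_univ _
  map_target' _ _ := rfl
  left_inv' _ h := h.symm
  right_inv' _ _ := Subsingleton.elim _ _
  open_source := isOpen_discrete _
  open_target := isOpen_univ
  continuousOn_toFun := continuousOn_const
  continuousOn_invFun := continuousOn_const

/-- A countable discrete space as a zero-dimensional spin manifold. -/
@[reducible] def pts (ι : Type) [TopologicalSpace ι] [DiscreteTopology ι] [Finite ι]
    [Nonempty ι] : Atl 0 where
  X := ι
  A := ι
  φ a := ptChart a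
  e _ i := i.elim0
  s _ _ _ := 1
  ok :=
    { fr := fun _ => ⟨fun i => i.elim0, fun _ _ => linearIndependent_empty_type⟩
      lift := fun _ _ => lift_zero _ _ _ _ _ fun _ => rfl
      cocycle := fun _ _ _ _ _ _ _ => one_mul _ }

theorem car_pts (ι : Type) [TopologicalSpace ι] [DiscreteTopology ι] [Finite ι] [Nonempty ι] :
    (pts ι).car = univ := eq_univ_of_forall fun x => Atl.mem_car.2 ⟨x, rfl⟩

/-- A permutation of the points. -/
def ptEmb {ι : Type} [TopologicalSpace ι] [DiscreteTopology ι] [Finite ι] [Nonempty ι]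
    (u : ι ≃ ι) : Emb (pts ι) (pts ι) where
  p := 1
  f := (Homeomorph.mk u continuous_of_discreteTopology
    continuous_of_discreteTopology).toOpenPartialHomeomorph
  σ _ _ _ := 1
  ok :=
    { hp := Or.inl rfl
      src := by rw [car_pts]; exact subset_univ _
      tgt := by rw [car_pts]; exact subset_univ _
      lift := fun _ _ => lift_zero _ _ _ _ _ fun _ => rfl
      left := fun _ _ _ _ _ _ _ _ => one_mul _
      right := fun _ _ _ _ _ _ _ _ => one_mul _ }

end GenAux

/-- A finite `Γ`-set is a closed zero-dimensional spin manifold. -/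
theorem exists_points [Group Γ] (ι : Type) [Finite ι] [Nonempty ι] [MulAction Γ ι] :
    ∃ (D : Atl 0) (ρ : Act Γ D) (q : D.X ≃ ι), D.car = univ ∧ DiscreteTopology D.X ∧
      ∀ g x, q ((ρ.ρ g).f x) = g • q x := by
  let _i : TopologicalSpace ι := ⊥
  have hd : DiscreteTopology ι := ⟨rfl⟩
  refine ⟨GenAux.pts ι,
    { ρ := fun g => GenAux.ptEmb (MulAction.toPerm g)
      par := fun _ => rfl
      src := fun _ => (GenAux.car_pts ι).symm
      mul := fun g h x hx => ⟨mem_univ _, mem_univ _, hx, mem_univ _, (mul_smul g h x).symm,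
        fun _ _ _ _ _ _ _ _ => rfl⟩ }, Equiv.refl ι, GenAux.car_pts ι, hd, fun _ _ => rfl⟩

/-- The empty manifold. -/
@[reducible] def Atl.empty (m : ℕ) : Atl m where
  X := Unit
  A := Empty
  φ a := a.elim
  e a := a.elim
  s a := a.elim
  ok := ⟨fun a => a.elim, fun a => a.elim, fun a => a.elim⟩

theorem Atl.car_empty (m : ℕ) : (Atl.empty m).car = ∅ := by
  simp [Atl.car]

/-- The embedding with empty source, from a manifold without charts. -/
def Emb.empty {n : ℕ} (M N : Atl n) [IsEmpty M.A] : Emb M N where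
  p := 1
  f :=
    { toFun _ := Classical.arbitrary _
      invFun _ := Classical.arbitrary _
      source := ∅
      target := ∅
      map_source' _ h := h.elim
      map_target' _ h := h.elim
      left_inv' _ h := h.elim
      right_inv' _ h := h.elim
      open_source := isOpen_empty
      open_target := isOpen_empty
      continuousOn_toFun := continuousOn_empty _
      continuousOn_invFun := continuousOn_empty _ }
  σ _ _ _ := 1
  ok := ⟨Or.inl rfl, empty_subset _, empty_subset _, fun _ a => isEmptyElim a,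
    fun _ _ a => isEmptyElim a, fun _ a => isEmptyElim a⟩

/-- A closed manifold is a manifold with empty boundary. -/
@[reducible] def GCol.closed [Group Γ] {m : ℕ} (Z : Atl (m + 1)) (hZ : IsCompact Z.car)
    (ρ : Act Γ Z) : GCol Γ m where
  Z := Z
  M := Atl.empty m
  ε := 1
  ε_pos := one_pos
  e := Emb.empty _ _
  par := rfl
  src := by rw [Atl.car_empty, empty_prod]; rfl
  cptM := by rw [Atl.car_empty]; exact isCompact_empty
  cptZ δ _ := by rw [Atl.car_empty, empty_prod, image_empty, diff_empty]; exact hZ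
  opn δ _ := by rw [Atl.car_empty, empty_prod, image_empty, diff_empty]; exact Z.isOpen_car
  ρZ := ρ
  ρM :=
    { ρ _ := Emb.empty _ _
      par _ := rfl
      src _ := (Atl.car_empty m).symm
      mul _ _ x hx := by rw [Atl.car_empty] at hx; exact hx.elim }
  eqv _ _ hx := hx.elim

theorem exists_gen [CommGroup Γ] [Finite Γ] (𝔅 : Bott) (K : Subgroup Γ) :
    ∃ L : Triple Γ 7, (L.1.fix K).ind (grEven 8 dvd_rfl) ≠ 0 ∧
      ∀ H : Subgroup Γ, ¬ H ≤ K → (L.1.fix H).ind (grEven 8 dvd_rfl) = 0 := by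
  obtain ⟨D, ρ, q, hcar, hd, hq⟩ := exists_points (Γ := Γ) (Γ ⧸ K)
  have hfin : Finite D.X := Finite.of_equiv _ q.symm
  have hD : IsCompact D.car := (toFinite _).isCompact
  have hZ : IsCompact (𝔅.B.prod D).car := by
    rw [Atl.car_prod]
    exact 𝔅.cpt.prod hD
  have hfix : ∀ (g : Γ) (x : D.X), (ρ.ρ g).f x = x ↔ g ∈ K := fun g x => by
    rw [← q.injective.eq_iff, hq]
    obtain ⟨y, hy⟩ := QuotientGroup.mk_surjective (q x)
    rw [← hy, MulAction.Quotient.smul_mk, eq_comm, QuotientGroup.eq, smul_eq_mul, mul_comm g y,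
      inv_mul_cancel_left]
  let L : GCol Γ 7 := GCol.closed (m := 7) (𝔅.B.prod D) hZ (ρ.prod 𝔅.B)
  have hind : ∀ H : Subgroup Γ, (L.fix H).ind (grEven 8 dvd_rfl) =
      ((𝔅.B.prod D).restr ((ρ.prod 𝔅.B).fix H) ((ρ.prod 𝔅.B).isOpen_fix H)).index
        (grEven 8 dvd_rfl) 0 := fun H => by
    refine Col.ind_closed _ ?_ _
    change ((Atl.empty 7).restr _ _).car = ∅
    rw [Atl.car_restr, Atl.car_empty, empty_inter]
  refine ⟨⟨L, fun a => a.elim⟩, ?_, fun H hH => ?_⟩
  · change (L.fix K).ind (grEven 8 dvd_rfl) ≠ 0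
    have h1 : ρ.fix K = D.car := by
      have : {x | x ∈ D.car ∧ ∀ g ∈ K, (ρ.ρ g).f x = x} = D.car := by
        ext x
        exact ⟨fun h => h.1, fun h => ⟨h, fun g hg => (hfix g x).2 hg⟩⟩
      rw [Act.fix, this, D.isOpen_car.interior_eq]
    have h2 : (𝔅.B.prod D).car ∩ (ρ.prod 𝔅.B).fix K = (𝔅.B.prod D).car := by
      rw [Act.fix_prod, h1, Atl.car_prod, inter_self]
    have h3 : ((𝔅.B.prod D).restr ((ρ.prod 𝔅.B).fix K) ((ρ.prod 𝔅.B).isOpen_fix K)).car =
        (𝔅.B.prod D).car := by rw [Atl.car_restr, h2]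
    have h4 := index_iso (G := grEven (8 + 0) dvd_rfl)
      ((𝔅.B.prod D).incl ((ρ.prod 𝔅.B).fix K) ((ρ.prod 𝔅.B).isOpen_fix K)) rfl
      (by rw [Atl.incl_source, Atl.car_restr]) (by rw [Atl.incl_target, h2])
      (good_of_compact (h3 ▸ hZ) _ (Atl.pot_zero _).1)
    have h5 := index_prod (M := 𝔅.B) (N := D) dvd_rfl 𝔅.cpt
      (grEven_isProd (a := 8) (b := 0) dvd_rfl (dvd_zero 8) dvd_rfl) (φ := 0)
      (good_of_compact hD _ (Atl.pot_zero _).1) (good_of_compact hZ _ (Atl.pot_zero _).1)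
    rw [hind]
    refine ne_of_eq_of_ne (h4.symm.trans h5) (mul_ne_zero 𝔅.index_ne_zero ?_)
    exact index_dim_zero D hD (hcar ▸ univ_nonempty)
  · change (L.fix H).ind (grEven 8 dvd_rfl) = 0
    have h1 : ρ.fix H = ∅ := by
      have : {x | x ∈ D.car ∧ ∀ g ∈ H, (ρ.ρ g).f x = x} = ∅ :=
        eq_empty_of_forall_notMem fun x hx => hH fun g hg => (hfix g x).1 (hx.2 g hg)
      rw [Act.fix, this, interior_empty]
    have h2 : (𝔅.B.prod D).car ∩ (ρ.prod 𝔅.B).fix H = ∅ := by
      rw [Act.fix_prod, h1, prod_empty, inter_empty]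
    rw [hind]
    exact index_empty ((Atl.car_restr _ _ _).trans h2) _ _

end SZ
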