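import Pool.Agent.P.MP_8db816_gt.SZ.Reg
import Pool.Agent.P.MP_8db816_gt.SZ.Cpt
import Pool.Agent.P.MP_8db816_gt.SZ.AbsHom

/-! Fredholm properties of Dirac and Callias operators on complete manifolds. -/

noncomputable section

namespace SZ

open Set CliffordAlgebra Filter Topology MeasureTheory Atl.Sec
open scoped ContDiff RealInnerProductSpace

variable {n : ℕ} {M : Atl n} {G : Gr n} {φ φ' : M.X → ℝ}

theorem reg_mul {η : M.X → ℝ} (hη : M.Sm η) {K : Set M.X} (hK : IsCompact K) (hKM : K ⊆ M.car)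
    (h0 : ∀ x ∈ M.car, x ∉ K → η x = 0) : Reg M.Dir (M.mul η) := by
  obtain ⟨s, ζ, C, hζ, -, hC, hCa, hz, h1, -⟩ := M.exists_pou_charts hK hKM
  have e : M.mul η = M.mul fun x => ∑ a ∈ s, η x * ζ a x := by
    refine mul_congr fun x hx => ?_
    rw [← Finset.mul_sum]
    by_cases hxK : x ∈ K
    · rw [(h1 x hxK).self_of_nhds, mul_one]
    · rw [h0 x hx hxK, zero_mul]
  rw [e, mul_sum s (η := fun a x => η x * ζ a x) fun a _ => hη.mul (hζ a)]
  exact reg_sum s _ fun a _ => reg_mul_chart (hη.mul (hζ a)) (hC a) (hCa a)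
    fun x _ hx => by rw [hz a x hx, mul_zero]

theorem Atl.Complete.esa (h : M.Complete) : ESA M.Dir := by
  refine esa_of_cutoffs (sym_dir M) fun s δ hδ => ?_
  choose K hK hKM hs using fun ψ : M.Sec => ψ.exists_sup
  obtain ⟨θ, C, hθ, h01, hC, hCM, h0, h1, hg⟩ := h.exists_cutoff (K := ⋃ ψ ∈ s, K ψ)
    (s.isCompact_biUnion fun ψ _ => hK ψ) (iUnion₂_subset fun ψ _ => hKM ψ) hδ
  refine ⟨M.mul θ, reg_mul hθ hC hCM h0, fun ψ hψ => ext_ev fun x _ => ?_, fun ψ => ?_,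
    fun ψ => ?_⟩
  · rw [ev_mul hθ]
    by_cases hx : x ∈ K ψ
    · rw [h1 x (mem_biUnion hψ hx), one_smul]
    · rw [hs ψ x hx, smul_zero]
  · have := norm_mul_le hθ zero_le_one
      (fun x _ => abs_le.2 ⟨by linarith [(h01 x).1], (h01 x).2⟩) ψ
    rwa [one_mul] at this
  · rw [dir_mul hθ, add_sub_cancel_right]
    exact norm_gr_le hθ hδ.le hg ψ

/-- Positivity of `θ scal / 4 + ρ φ² - |dφ|` outside `K`. -/
def Atl.Est (M : Atl n) (G : Gr n) (φ : M.X → ℝ) (K : Set M.X) : Prop :=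
  ∃ θ c : ℝ, 0 ≤ θ ∧ θ ≤ 1 ∧ 0 < c ∧
    ∀ x ∈ M.car, x ∉ K → c ≤ θ * M.scal x / 4 + G.ρ * φ x ^ 2 - M.gn φ x

/-- A smooth bounded potential. -/
def Atl.Pot (M : Atl n) (φ : M.X → ℝ) : Prop := M.Sm φ ∧ ∃ C, ∀ x ∈ M.car, |φ x| ≤ C

/-- The operator `D + φ R` is invertible at infinity. -/
structure Atl.Good (M : Atl n) (G : Gr n) (φ : M.X → ℝ) : Prop where
  cpl : M.Complete
  pot : M.Pot φ
  est : ∃ K, IsCompact K ∧ K ⊆ M.car ∧ M.Est G φ K

theorem Atl.pot_zero (M : Atl n) : M.Pot 0 := ⟨Atl.sm_zero, 0, fun _ _ => by simp⟩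

namespace GoodAux

theorem mul_of_not {f : M.X → ℝ} (hf : ¬M.Sm f) : M.mul f = 0 := dif_neg hf

theorem cend_mul {T : Cl n →ₗ[ℝ] Cl n} (hT : M.Eqv T) (f : M.X → ℝ) (ψ : M.Sec) :
    M.cend T (M.mul f ψ) = M.mul f (M.cend T ψ) := by
  by_cases hf : M.Sm f
  · refine ext_ev fun x _ => ?_
    rw [ev_cend hT, ev_mul hf, ev_mul hf, ev_cend hT, map_smul]
  · simp [mul_of_not hf]

theorem sym_pot (G : Gr n) (φ : M.X → ℝ) : Sym (M.mul φ ∘ₗ M.cend G.R) := fun x y => by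
  rw [LinearMap.comp_apply, LinearMap.comp_apply, sym_mul, sym_cend G.R_sym,
    cend_mul (G.eqv_R M)]

theorem pot_odd (G : Gr n) (φ : M.X → ℝ) (ψ : M.Sec) :
    (M.mul φ ∘ₗ M.cend G.R) (M.cend G.ε ψ) = -M.cend G.ε ((M.mul φ ∘ₗ M.cend G.R) ψ) := by
  rw [LinearMap.comp_apply, LinearMap.comp_apply, cend_mul (G.eqv_ε M), ← map_neg]
  congr 1
  refine ext_ev fun x _ => ?_
  rw [ev_neg, ev_cend (G.eqv_R M), ev_cend (G.eqv_ε M), ev_cend (G.eqv_ε M), ev_cend (G.eqv_R M),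
    G.R_ε]

theorem norm_R_sq (G : Gr n) (z : Cl n) : ‖G.R z‖ ^ 2 = G.ρ * ‖z‖ ^ 2 := by
  rw [← real_inner_self_eq_norm_sq, G.R_sym, G.R_sq, real_inner_smul_right,
    real_inner_self_eq_norm_sq]

theorem exists_bound {f : M.X → ℝ} (hf : ContinuousOn f M.car) {K : Set M.X} (hK : IsCompact K)
    (hKM : K ⊆ M.car) : ∃ B : ℝ, 0 ≤ B ∧ ∀ x ∈ K, |f x| ≤ B := by
  obtain ⟨B, hB⟩ := hK.exists_bound_of_continuousOn (hf.mono hKM)
  exact ⟨max B 0, le_max_right _ _, fun x hx => (hB x hx).trans (le_max_left _ _)⟩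

theorem continuousOn_w (G : Gr n) (hφ : M.Sm φ) (θ : ℝ) :
    ContinuousOn (fun x => θ * M.scal x / 4 + G.ρ * φ x ^ 2 - M.gn φ x) M.car :=
  (((continuousOn_const.mul M.sm_scal.continuousOn).div_const 4).add
    (continuousOn_const.mul (hφ.continuousOn.pow 2))).sub hφ.continuousOn_gn

theorem eventually_notMem {K : Set M.X} (hK : IsCompact K) {x : M.X} (hx : x ∈ M.car)
    (hxK : x ∉ K) : ∀ᶠ y in 𝓝 x, y ∈ M.car ∧ y ∉ K :=
  (M.isOpen_car.inter hK.isClosed.isOpen_compl).mem_nhds ⟨hx, hxK⟩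

theorem est_congr {K₀ K : Set M.X} (h : M.Est G φ K₀) (hK : IsCompact K)
    (h0 : ∀ x ∈ M.car, x ∉ K → φ' x = φ x) : M.Est G φ' (K₀ ∪ K) := by
  obtain ⟨θ, c, h1, h2, h3, h4⟩ := h
  refine ⟨θ, c, h1, h2, h3, fun x hx hxK => ?_⟩
  rw [mem_union, not_or] at hxK
  rw [h0 x hx hxK.2, Atl.gn_congr (f := φ') (g := φ)
    ((eventually_notMem hK hx hxK.2).mono fun y hy => h0 y hy.1 hy.2)]
  exact h4 x hx hxK.1

theorem pot_of_compact (hφ' : M.Sm φ') {K : Set M.X} (hK : IsCompact K) (hKM : K ⊆ M.car) {C : ℝ}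
    (h : ∀ x ∈ M.car, x ∉ K → |φ' x| ≤ C) : M.Pot φ' := by
  obtain ⟨B, -, hB⟩ := exists_bound hφ'.continuousOn hK hKM
  refine ⟨hφ', max B C, fun x hx => ?_⟩
  by_cases hxK : x ∈ K
  · exact (hB x hxK).trans (le_max_left _ _)
  · exact (h x hx hxK).trans (le_max_right _ _)

theorem pot_comb (hφ : M.Pot φ) (hφ' : M.Pot φ') (a b : ℝ) :
    M.Pot fun x => a * φ x + b * φ' x := by
  obtain ⟨h1, C, hC⟩ := hφ
  obtain ⟨h2, C', hC'⟩ := hφ'
  refine ⟨((Atl.sm_const a).mul h1).add ((Atl.sm_const b).mul h2), |a| * C + |b| * C',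
    fun x hx => (abs_add_le _ _).trans ?_⟩
  rw [abs_mul, abs_mul]
  exact add_le_add (mul_le_mul_of_nonneg_left (hC x hx) (abs_nonneg _))
    (mul_le_mul_of_nonneg_left (hC' x hx) (abs_nonneg _))

theorem le_of_sq {c a b x : ℝ} (hc : 0 < c) (ha : 0 ≤ a) (hb : 0 ≤ b) (hx : 0 ≤ x)
    (h : c * x ^ 2 ≤ a ^ 2 + b ^ 2) : √c * x ≤ a + b := by
  refine (pow_le_pow_iff_left₀ (by positivity) (by positivity) two_ne_zero).1 ?_
  rw [mul_pow, Real.sq_sqrt hc.le]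
  nlinarith [mul_nonneg ha hb]

end GoodAux

open GoodAux

theorem sym_op (G : Gr n) (φ : M.X → ℝ) : Sym (M.Op G φ) := fun x y => by
  rw [Atl.Op, LinearMap.add_apply, LinearMap.add_apply, inner_add_left, inner_add_right,
    sym_dir M, sym_pot G φ]

theorem bdd_pot (G : Gr n) (h : M.Pot φ) : Bdd (M.mul φ ∘ₗ M.cend G.R) := by
  obtain ⟨h1, C, hC⟩ := h
  obtain ⟨c, hc⟩ := bdd_cend (M := M) G.R
  refine ⟨|C| * c, fun ψ => ?_⟩
  rw [LinearMap.comp_apply, mul_assoc]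
  exact (norm_mul_le h1 (abs_nonneg C) (fun x hx => (hC x hx).trans (le_abs_self C)) _).trans
    (mul_le_mul_of_nonneg_left (hc ψ) (abs_nonneg C))

theorem op_odd (G : Gr n) (φ : M.X → ℝ) (ψ : M.Sec) :
    M.Op G φ (M.cend G.ε ψ) = -M.cend G.ε (M.Op G φ ψ) := by
  rw [Atl.Op, LinearMap.add_apply, LinearMap.add_apply, dir_cend G.ε_anti, pot_odd, map_add,
    neg_add]

theorem op_sq_ge (G : Gr n) (hφ : M.Sm φ) {θ : ℝ} (h0 : 0 ≤ θ) (h1 : θ ≤ 1) (ψ : M.Sec) :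
    (M.int fun x => (θ * M.scal x / 4 + G.ρ * φ x ^ 2 - M.gn φ x) * ‖ψ.ev x‖ ^ 2) ≤
      ‖M.Op G φ ψ‖ ^ 2 := by
  have tn := tst_norm_sq ψ
  have t1 : M.Tst fun x => M.scal x / 4 * ‖ψ.ev x‖ ^ 2 :=
    tn.mul_left (G := fun x => M.scal x / 4) (M.sm_scal.continuousOn.div_const 4)
  have t1' : M.Tst fun x => θ * (M.scal x / 4 * ‖ψ.ev x‖ ^ 2) :=
    t1.mul_left (G := fun _ => θ) continuousOn_const
  have t2 : M.Tst fun x => G.ρ * φ x ^ 2 * ‖ψ.ev x‖ ^ 2 :=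
    tn.mul_left (G := fun x => G.ρ * φ x ^ 2) (continuousOn_const.mul (hφ.continuousOn.pow 2))
  have t3 : M.Tst fun x => M.gn φ x * ‖ψ.ev x‖ ^ 2 := tn.mul_left hφ.continuousOn_gn
  have e0 : (M.int fun x => (θ * M.scal x / 4 + G.ρ * φ x ^ 2 - M.gn φ x) * ‖ψ.ev x‖ ^ 2) =
      θ * (M.int fun x => M.scal x / 4 * ‖ψ.ev x‖ ^ 2) +
        (M.int fun x => G.ρ * φ x ^ 2 * ‖ψ.ev x‖ ^ 2) -
        M.int fun x => M.gn φ x * ‖ψ.ev x‖ ^ 2 := by
    rw [← Atl.int_const_mul, ← Atl.int_add t1' t2, ← Atl.int_sub (t1'.add t2) t3]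
    exact Atl.int_congr fun x _ => by ring
  have e1 : ‖M.mul φ (M.cend G.R ψ)‖ ^ 2 = M.int fun x => G.ρ * φ x ^ 2 * ‖ψ.ev x‖ ^ 2 := by
    rw [norm_sq]
    refine Atl.int_congr fun x _ => ?_
    rw [ev_mul hφ, ev_cend (G.eqv_R M), norm_smul, mul_pow, norm_R_sq, Real.norm_eq_abs, sq_abs]
    ring
  have e2 : 2 * ⟪M.Dir ψ, M.mul φ (M.cend G.R ψ)⟫ = ⟪ψ, M.gr φ (M.cend G.R ψ)⟫ := by
    have a1 : ⟪M.Dir ψ, M.mul φ (M.cend G.R ψ)⟫ =
        ⟪ψ, M.gr φ (M.cend G.R ψ)⟫ - ⟪ψ, (M.mul φ ∘ₗ M.cend G.R) (M.Dir ψ)⟫ := by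
      rw [sym_dir M, dir_mul hφ, dir_cend G.R_anti, inner_add_right, map_neg, inner_neg_right,
        sub_eq_add_neg, LinearMap.comp_apply]
    rw [← sym_pot G φ, LinearMap.comp_apply, real_inner_comm (M.Dir ψ)] at a1
    linarith
  have e3 : -(M.int fun x => M.gn φ x * ‖ψ.ev x‖ ^ 2) ≤ ⟪ψ, M.gr φ (M.cend G.R ψ)⟫ := by
    rw [Atl.Sec.inner_def, ← Atl.int_neg]
    refine Atl.int_mono ?_ (tst_inner _ _) fun x _ => ?_
    · exact (t3.mul_left (G := fun _ => -1) continuousOn_const).congr fun x _ => by ring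
    · have b1 := abs_real_inner_le_norm (ψ.ev x) ((M.gr φ (M.cend G.R ψ)).ev x)
      rw [norm_ev_gr hφ, ev_cend (G.eqv_R M)] at b1
      have b2 := mul_le_mul_of_nonneg_left (mul_le_mul_of_nonneg_left (G.norm_R_le (ψ.ev x))
        (Atl.gn_nonneg φ x)) (norm_nonneg (ψ.ev x))
      have b3 := neg_abs_le ⟪ψ.ev x, (M.gr φ (M.cend G.R ψ)).ev x⟫
      nlinarith
  have e4 := lich_le ψ
  have e5 : θ * (M.int fun x => M.scal x / 4 * ‖ψ.ev x‖ ^ 2) ≤ ‖M.Dir ψ‖ ^ 2 := by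
    nlinarith [mul_le_mul_of_nonneg_left e4 h0, sq_nonneg ‖M.Dir ψ‖]
  rw [e0, Atl.Op, LinearMap.add_apply, LinearMap.comp_apply, norm_add_sq_real, e1]
  linarith

theorem gcpt_op (G : Gr n) (h : M.Pot φ) {η : M.X → ℝ} (hη : M.Sm η) {K : Set M.X}
    (hK : IsCompact K) (hKM : K ⊆ M.car) (h0 : ∀ x ∈ M.car, x ∉ K → η x = 0) :
    GCpt (M.Op G φ) (M.mul η) := (gcpt_mul hη hK hKM h0).add_bdd (bdd_pot G h)

theorem Atl.Good.fred (h : M.Good G φ) : Fred (M.Op G φ) (M.cend G.ε) := by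
  refine ⟨sym_op G φ, sym_cend G.ε_sym, fun ψ => ext_ev fun x _ => ?_, op_odd G φ,
    h.cpl.esa.add_bdd (sym_pot G φ) (bdd_pot G h.pot), ?_⟩
  · rw [ev_cend (G.eqv_ε M), ev_cend (G.eqv_ε M), G.ε_sq]
  obtain ⟨K, hK, hKM, θ, c, h0, h1, hc, hw⟩ := h.est
  have hφ := h.pot.1
  obtain ⟨B, hB0, hB⟩ := exists_bound (continuousOn_w G hφ θ) hK hKM
  obtain ⟨η, C, hη, -, hC, hCM, -, hz, ho⟩ := M.exists_cutoff hK hKM isOpen_univ (subset_univ _)
  have hη' : M.Sm fun x => √(c + B) * η x := (Atl.sm_const _).mul hη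
  refine proper_of_estimate (gcpt_op G h.pot hη' hC (fun x hx => (hCM hx).2)
    fun x _ hx => by rw [hz x hx, mul_zero]) (Real.sqrt_pos.2 hc) fun ψ => ?_
  refine le_of_sq hc (norm_nonneg _) (norm_nonneg _) (norm_nonneg _) ?_
  refine le_trans ?_ (add_le_add (op_sq_ge G hφ h0 h1 ψ) le_rfl)
  have tn := tst_norm_sq ψ
  have tw := tn.mul_left (continuousOn_w G hφ θ)
  rw [norm_sq, norm_sq, ← Atl.int_const_mul, ← Atl.int_add tw (tst_norm_sq _)]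
  refine Atl.int_mono (tn.mul_left (G := fun _ => c) continuousOn_const)
    (tw.add (tst_norm_sq _)) fun x hx => ?_
  rw [ev_mul hη', norm_smul, mul_pow, Real.norm_eq_abs, sq_abs, mul_pow,
    Real.sq_sqrt (by positivity), ← add_mul]
  refine mul_le_mul_of_nonneg_right ?_ (sq_nonneg _)
  by_cases hxK : x ∈ K
  · rw [(ho x hxK).self_of_nhds]
    linarith [(abs_le.1 (hB x hxK)).1]
  · have : 0 ≤ (c + B) * η x ^ 2 := by positivity
    linarith [hw x hx hxK]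

theorem index_eq_zero (hc : M.Complete) (hφ : M.Pot φ) (h : M.Est G φ ∅) : M.index G φ = 0 := by
  have hf := (Atl.Good.mk hc hφ ⟨∅, isCompact_empty, empty_subset _, h⟩).fred
  obtain ⟨θ, c, h0, h1, hc, hw⟩ := h
  refine hf.ind_eq_zero (Real.sqrt_pos.2 hc) fun ψ => ?_
  have := le_of_sq (b := 0) hc (norm_nonneg (M.Op G φ ψ)) le_rfl (norm_nonneg ψ) ?_
  · rwa [add_zero] at this
  rw [zero_pow two_ne_zero, add_zero]
  refine le_trans ?_ (op_sq_ge G hφ.1 h0 h1 ψ)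
  have tn := tst_norm_sq ψ
  rw [norm_sq, ← Atl.int_const_mul]
  exact Atl.int_mono (tn.mul_left (G := fun _ => c) continuousOn_const)
    (tn.mul_left (continuousOn_w G hφ.1 θ)) fun x hx =>
      mul_le_mul_of_nonneg_right (hw x hx (notMem_empty x)) (sq_nonneg _)

/-- Homotopy invariance. -/
theorem index_homotopy (hc : M.Complete) (hφ : M.Pot φ) (hφ' : M.Pot φ')
    (h : ∀ t ∈ Icc (0 : ℝ) 1, ∃ K, IsCompact K ∧ K ⊆ M.car ∧
      M.Est G (fun x => (1 - t) * φ x + t * φ' x) K) : M.index G φ = M.index G φ' := by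
  have hd := pot_comb hφ hφ' (-1) 1
  have key : ∀ t : ℝ, M.Op G φ + t • (M.mul (fun x => -1 * φ x + 1 * φ' x) ∘ₗ M.cend G.R) =
      M.Op G fun x => (1 - t) * φ x + t * φ' x := fun t => by
    refine LinearMap.ext fun ψ => ext_ev fun x _ => ?_
    rw [LinearMap.add_apply, LinearMap.smul_apply, LinearMap.comp_apply, ev_add, ev_smul,
      ev_op G hφ.1, ev_op G (pot_comb hφ hφ' _ _).1, ev_mul hd.1, ev_cend (G.eqv_R M)]
    module
  have hg : ∀ t ∈ Icc (0 : ℝ) 1, M.Good G fun x => (1 - t) * φ x + t * φ' x :=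
    fun t ht => ⟨hc, pot_comb hφ hφ' _ _, h t ht⟩
  have f0 : Fred (M.Op G φ) (M.cend G.ε) := by
    have := (hg 0 ⟨le_rfl, zero_le_one⟩).fred
    rwa [← key, zero_smul, add_zero] at this
  have e := f0.ind_homotopy (sym_pot G _) (bdd_pot G hd) (pot_odd G _) fun t ht => by
    rw [key]
    exact (hg t ht).fred.proper
  have k1 := key 1
  rw [one_smul] at k1
  rw [k1] at e
  rw [Atl.index_congr G (f := φ') (g := fun x => (1 - 1) * φ x + 1 * φ' x) fun x _ => by simp]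
  exact e.symm

/-- Changing the potential on a compact set. -/
theorem Atl.Good.of_compact (h : M.Good G φ) (hφ' : M.Sm φ') {K : Set M.X} (hK : IsCompact K)
    (hKM : K ⊆ M.car) (h0 : ∀ x ∈ M.car, x ∉ K → φ' x = φ x) :
    M.Good G φ' ∧ M.index G φ' = M.index G φ := by
  obtain ⟨K₀, hK₀, hK₀M, he⟩ := h.est
  obtain ⟨C, hC⟩ := h.pot.2
  have hp : M.Pot φ' := pot_of_compact hφ' hK hKM (C := C) fun x hx hxK => by
    rw [h0 x hx hxK]
    exact hC x hx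
  refine ⟨⟨h.cpl, hp, _, hK₀.union hK, union_subset hK₀M hKM, est_congr he hK h0⟩,
    (index_homotopy h.cpl h.pot hp fun t _ => ⟨_, hK₀.union hK, union_subset hK₀M hKM,
      est_congr he hK fun x hx hxK => ?_⟩).symm⟩
  rw [h0 x hx hxK]
  ring

theorem good_of_compact (hM : IsCompact M.car) (G : Gr n) (hφ : M.Sm φ) : M.Good G φ :=
  ⟨Atl.complete_of_compact hM, pot_of_compact hφ hM subset_rfl (C := 0) fun _ hx hx' => (hx' hx).elim,
    M.car, hM, subset_rfl, 0, 1, le_rfl, zero_le_one, one_pos, fun _ hx hx' => (hx' hx).elim⟩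

theorem good_zero_iff : M.Good G 0 ↔ M.Complete ∧
    ∃ K c, IsCompact K ∧ K ⊆ M.car ∧ 0 < c ∧ ∀ x ∈ M.car, x ∉ K → c ≤ M.scal x := by
  constructor
  · rintro ⟨hc, -, K, hK, hKM, θ, c, h0, h1, hc', hw⟩
    refine ⟨hc, K, c, hK, hKM, hc', fun x hx hxK => ?_⟩
    have := hw x hx hxK
    rw [Atl.gn_zero, Pi.zero_apply, zero_pow two_ne_zero, mul_zero, add_zero, sub_zero] at this
    have hs : 0 ≤ M.scal x := by
      by_contra hn
      nlinarith [mul_nonneg h0 (neg_nonneg.2 (not_le.1 hn).le)]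
    nlinarith [mul_nonneg (sub_nonneg.2 h1) hs]
  · rintro ⟨hc, K, c, hK, hKM, hc', hw⟩
    refine ⟨hc, M.pot_zero, K, hK, hKM, 1, c / 4, zero_le_one, le_rfl, by positivity,
      fun x hx hxK => ?_⟩
    rw [Atl.gn_zero, Pi.zero_apply, zero_pow two_ne_zero, mul_zero, add_zero, sub_zero]
    linarith [hw x hx hxK]

/-- The Lichnerowicz vanishing theorem. -/
theorem Atl.Good.index_psc (h : M.Good G 0) (hp : ∀ x ∈ M.car, 0 < M.scal x) :
    M.index G 0 = 0 := by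
  obtain ⟨hc, K, c, hK, hKM, hc', hw⟩ := good_zero_iff.1 h
  obtain ⟨c', hc'', hw'⟩ : ∃ c' : ℝ, 0 < c' ∧ ∀ x ∈ K, c' ≤ M.scal x := by
    rcases K.eq_empty_or_nonempty with rfl | hne
    · exact ⟨1, one_pos, fun x hx => hx.elim⟩
    · obtain ⟨x, hx, hm⟩ := hK.exists_isMinOn hne (M.sm_scal.continuousOn.mono hKM)
      exact ⟨_, hp x (hKM hx), fun y hy => hm hy⟩
  refine index_eq_zero hc M.pot_zero ⟨1, min c c' / 4, zero_le_one, le_rfl, by positivity,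
    fun x hx _ => ?_⟩
  rw [Atl.gn_zero, Pi.zero_apply, zero_pow two_ne_zero, mul_zero, add_zero, sub_zero]
  by_cases hxK : x ∈ K
  · linarith [hw' x hxK, min_le_right c c']
  · linarith [hw x hx hxK, min_le_left c c']

/-- Potentials that are locally constant with values `±1` at infinity. -/
theorem good_callias (hc : M.Complete) (hG : G.ρ = 1) (hφ : M.Sm φ) {K : Set M.X}
    (hK : IsCompact K) (hKM : K ⊆ M.car) (h : ∀ x ∈ M.car, x ∉ K → φ x ^ 2 = 1) :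
    M.Good G φ := by
  refine ⟨hc, pot_of_compact hφ hK hKM (C := 1) fun x hx hxK => ?_, K, hK, hKM, 0, 1, le_rfl,
    zero_le_one, one_pos, fun x hx hxK => ?_⟩
  · exact (sq_le_one_iff_abs_le_one _).1 (h x hx hxK).le
  have h1 := Atl.gn_comp (hφ.smAt x) (u := fun t => t ^ 2) (by fun_prop)
  rw [Atl.gn_congr (g := fun _ => 1)
    ((eventually_notMem hK hx hxK).mono fun y hy => h y hy.1 hy.2), Atl.gn_const] at h1
  have h2 : φ x ≠ 0 := fun h0 => by simpa [h0] using h x hx hxK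
  have h3 : M.gn φ x = 0 := by simpa [h2] using h1
  rw [h3, hG, h x hx hxK]
  norm_num

theorem index_callias_const (hc : M.Complete) (hG : G.ρ = 1) {c : ℝ} (h : c ≠ 0) :
    (M.index G fun _ => c) = 0 :=
  index_eq_zero hc ⟨Atl.sm_const c, |c|, fun _ _ => le_rfl⟩ ⟨0, c ^ 2, le_rfl, zero_le_one,
    by positivity, fun x _ _ => by rw [Atl.gn_const, hG]; norm_num⟩

theorem index_empty (hM : M.car = ∅) (G : Gr n) (φ : M.X → ℝ) : M.index G φ = 0 := by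
  have hx : ∀ x, x ∉ M.car := fun x => hM ▸ notMem_empty x
  exact index_eq_zero (Atl.complete_of_compact (hM ▸ isCompact_empty))
    ⟨Atl.sm_iff_smAt.2 fun x h => (hx x h).elim, 0, fun x h => (hx x h).elim⟩
    ⟨0, 1, le_rfl, zero_le_one, one_pos, fun x h => (hx x h).elim⟩

end SZ
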