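import Pool.Agent.P.MP_8db816_gt.SZ.Lich

/-! Integration by parts against the Riemannian density. -/

noncomputable section

namespace SZ

open CliffordAlgebra Filter Topology Set MeasureTheory
open scoped RealInnerProductSpace ContDiff

variable {n : ℕ} {e : Fr n} {U K : Set (E n)} {ψ χ : E n → Cl n}

namespace IBP

theorem diffAt {F : Type} [NormedAddCommGroup F] [NormedSpace ℝ F] {f : E n → F}
    (hf : ContDiffOn ℝ ∞ f U) (hU : IsOpen U) {y : E n} (hy : y ∈ U) : DifferentiableAt ℝ f y :=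
  (hf.contDiffAt (hU.mem_nhds hy)).differentiableAt (by simp)

theorem integrableOn (hU : IsOpen U) (hK : IsCompact K) (hKU : K ⊆ U) {g : E n → ℝ}
    (hg : ContinuousOn g U) (h0 : ∀ y ∈ U, y ∉ K → g y = 0) : IntegrableOn g U :=
  ((hg.mono hKU).integrableOn_compact hK).of_forall_sdiff_eq_zero hU.measurableSet
    fun y hy => h0 y hy.1 hy.2

theorem ev_zero {F : Type} [Zero F] (hU : IsOpen U) (hK : IsCompact K) {g : E n → F}
    (h0 : ∀ y ∈ U, y ∉ K → g y = 0) {y : E n} (hy : y ∈ U) (hyK : y ∉ K) :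
    g =ᶠ[𝓝 y] fun _ => 0 := by
  filter_upwards [hU.mem_nhds hy, hK.isClosed.isOpen_compl.mem_nhds hyK] with z hz hz'
  exact h0 z hz hz'

theorem integral_fderiv (hU : IsOpen U) (hK : IsCompact K) (hKU : K ⊆ U) {g : E n → ℝ}
    (hg : ContDiffOn ℝ ∞ g U) (h0 : ∀ y ∈ U, y ∉ K → g y = 0) (v : E n) :
    ∫ y in U, fderiv ℝ g y v = 0 := by
  set G : E n → ℝ := U.indicator g with hG
  have h1 : ∀ y ∈ U, G =ᶠ[𝓝 y] g := fun y hy => by
    filter_upwards [hU.mem_nhds hy] with z hz
    simp [hG, hz]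
  have hz : ∀ z, z ∉ K → G z = 0 := fun z hz => by
    by_cases h : z ∈ U
    · simp [hG, h, h0 z h hz]
    · simp [hG, h]
  have h2 : ∀ y, y ∉ K → G =ᶠ[𝓝 y] fun _ => 0 := fun y hy => by
    filter_upwards [hK.isClosed.isOpen_compl.mem_nhds hy] with z hz'
    exact hz z hz'
  have hsm : ContDiff ℝ 1 G := by
    refine contDiff_iff_contDiffAt.2 fun y => ?_
    by_cases hy : y ∈ U
    · exact ((hg.contDiffAt (hU.mem_nhds hy)).of_le (by simp)).congr_of_eventuallyEq (h1 y hy)
    · exact contDiffAt_const.congr_of_eventuallyEq (h2 y fun h => hy (hKU h))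
  have hcs : HasCompactSupport G := HasCompactSupport.intro hK hz
  have hcont : Continuous fun y => fderiv ℝ G y v :=
    (hsm.continuous_fderiv (by simp)).clm_apply continuous_const
  have hcs' : HasCompactSupport fun y => fderiv ℝ G y v :=
    HasCompactSupport.intro hK fun y hy => by rw [(h2 y hy).fderiv_eq]; simp
  have key := integral_mul_fderiv_eq_neg_fderiv_mul_of_integrable (μ := (volume : Measure (E n)))
    (f := fun _ : E n => (1 : ℝ)) (g := G) (v := v) (by simp)
    (by simpa using hcont.integrable_of_hasCompactSupport hcs')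
    (by simpa using hsm.continuous.integrable_of_hasCompactSupport hcs)
    (fun _ _ => differentiableAt_const _)
    (fun x _ => hsm.differentiable (by simp) x)
  simp only [one_mul, fderiv_fun_const, Pi.zero_apply, _root_.zero_apply, zero_mul,
    integral_zero, neg_zero] at key
  have h3 : ∫ y in U, fderiv ℝ G y v = ∫ y, fderiv ℝ G y v := by
    refine setIntegral_eq_integral_of_forall_compl_eq_zero fun y hy => ?_
    rw [(h2 y fun h => hy (hKU h)).fderiv_eq]
    simp
  rw [← key, ← h3]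
  refine setIntegral_congr_fun hU.measurableSet fun y hy => ?_
  have h4 : fderiv ℝ G y = fderiv ℝ g y := (h1 y hy).fderiv_eq
  simp only [h4]

theorem hasFDerivAt_coord (he : IsFr e U) (hU : IsOpen U) {y : E n} (hy : y ∈ U) (i r : Fin n) :
    HasFDerivAt (fun z => e i z r)
      ((ContinuousLinearMap.proj r : E n →L[ℝ] ℝ).comp (fderiv ℝ (e i) y)) y :=
  (ContinuousLinearMap.proj r : E n →L[ℝ] ℝ).hasFDerivAt.comp y (diffAt (he.1 i) hU hy).hasFDerivAt

/-- Jacobi's formula. -/
theorem jacobi (he : IsFr e U) (hU : IsOpen U) {y : E n} (hy : y ∈ U) :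
    ∃ D : E n →L[ℝ] ℝ, HasFDerivAt (fun z => (fmat e z).det) D y ∧
      ∀ v, D v = (fmat e y).det * ∑ s, (fmat e y)⁻¹.mulVec (fderiv ℝ (e s) y v) s := by
  have h1 : (fun z => (fmat e z).det) =
      fun z => ∑ σ : Equiv.Perm (Fin n), ((Equiv.Perm.sign σ : ℤ) : ℝ) * ∏ s, e s z (σ s) := by
    funext z
    rw [Matrix.det_apply']
    rfl
  have h2 : ∀ σ : Equiv.Perm (Fin n), HasFDerivAt
      (fun z => ((Equiv.Perm.sign σ : ℤ) : ℝ) * ∏ s, e s z (σ s))
      (((Equiv.Perm.sign σ : ℤ) : ℝ) • ∑ s, (∏ t ∈ Finset.univ.erase s, e t y (σ t)) •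
        ((ContinuousLinearMap.proj (σ s) : E n →L[ℝ] ℝ).comp (fderiv ℝ (e s) y))) y := fun σ =>
    (HasFDerivAt.finsetProd (u := Finset.univ) (g := fun s z => e s z (σ s))
      fun s _ => hasFDerivAt_coord he hU hy s (σ s)).const_mul _
  refine ⟨_, h1 ▸ HasFDerivAt.fun_sum fun σ _ => h2 σ, fun v => ?_⟩
  have hu : IsUnit (fmat e y).det := isUnit_iff_ne_zero.2 (he.det_ne_zero hy)
  have h3 : ∀ s, (fmat e y).det * (fmat e y)⁻¹.mulVec (fderiv ℝ (e s) y v) s =
      ∑ σ : Equiv.Perm (Fin n), ((Equiv.Perm.sign σ : ℤ) : ℝ) *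
        ((∏ t ∈ Finset.univ.erase s, e t y (σ t)) * fderiv ℝ (e s) y v (σ s)) := fun s => by
    have := congrFun (Matrix.det_smul_inv_mulVec_eq_cramer (fmat e y) (fderiv ℝ (e s) y v) hu) s
    rw [Pi.smul_apply, smul_eq_mul] at this
    rw [this, Matrix.cramer_apply, Matrix.det_apply']
    refine Finset.sum_congr rfl fun σ _ => ?_
    congr 1
    rw [← Finset.prod_erase_mul _ _ (Finset.mem_univ s)]
    congr 1
    · refine Finset.prod_congr rfl fun t ht => ?_
      rw [Matrix.updateCol_ne (Finset.ne_of_mem_erase ht)]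
      rfl
    · rw [Matrix.updateCol_self]
  rw [Finset.mul_sum, Finset.sum_congr rfl fun s _ => h3 s, Finset.sum_comm]
  simp only [_root_.sum_apply, _root_.smul_apply, smul_eq_mul,
    ContinuousLinearMap.comp_apply, ContinuousLinearMap.proj_apply, Finset.mul_sum]

theorem fderiv_dens (he : IsFr e U) (hU : IsOpen U) {y : E n} (hy : y ∈ U) (v : E n) :
    fderiv ℝ (dens e) y v = -(dens e y * ∑ s, (fmat e y)⁻¹.mulVec (fderiv ℝ (e s) y v) s) := by
  obtain ⟨D, hD, hDv⟩ := jacobi he hU hy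
  have hd := (diffAt he.contDiffOn_dens hU hy).hasFDerivAt
  have h1 : (fun z => (dens e z * (fmat e z).det) * (dens e z * (fmat e z).det)) =ᶠ[𝓝 y]
      fun _ => (1 : ℝ) := by
    filter_upwards [hU.mem_nhds hy] with z hz
    have h0 := he.det_ne_zero hz
    have h2 : |(fmat e z).det| ≠ 0 := abs_ne_zero.2 h0
    have h3 := abs_mul_abs_self (fmat e z).det
    unfold dens
    field_simp
    rw [sq, sq, h3]
  have h2 := ((hd.mul hD).mul (hd.mul hD)).fderiv
  have h3 : fderiv ℝ (fun z => (dens e z * (fmat e z).det) * (dens e z * (fmat e z).det)) y = 0 := by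
    rw [h1.fderiv_eq]; simp
  have h4 := congrArg (fun L : E n →L[ℝ] ℝ => L v) (h3.symm.trans h2)
  simp only [_root_.zero_apply, _root_.add_apply,
    _root_.smul_apply, smul_eq_mul, Pi.mul_apply, hDv] at h4
  have h5 := he.det_ne_zero hy
  have h6 := (he.dens_pos hy).ne'
  have h7 : dens e y * (fmat e y).det * (fmat e y).det * 2 ≠ 0 := by positivity
  apply mul_left_cancel₀ h7
  linear_combination -h4

theorem sum_inv_mulVec (he : IsFr e U) {y : E n} (hy : y ∈ U) (L : E n →L[ℝ] E n) :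
    ∑ j, (fmat e y)⁻¹.mulVec (L (e j y)) j = ∑ r, L (Pi.single r 1) r := by
  have hu : IsUnit (fmat e y).det := isUnit_iff_ne_zero.2 (he.det_ne_zero hy)
  have h1 : ∀ j, L (e j y) = ∑ r, e j y r • L (Pi.single r 1) := fun j => by
    conv_lhs => rw [← Finset.univ_sum_single (e j y)]
    rw [map_sum]
    refine Finset.sum_congr rfl fun r _ => ?_
    rw [← map_smul]
    congr 1
    ext t
    by_cases h : t = r <;> simp [h]
  have h2 : ∀ r t, ∑ j, e j y r * (fmat e y)⁻¹ j t = if r = t then 1 else 0 := fun r t => by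
    have := congrFun (congrFun (Matrix.mul_nonsing_inv _ hu) r) t
    rw [Matrix.mul_apply, Matrix.one_apply] at this
    exact this
  calc ∑ j, (fmat e y)⁻¹.mulVec (L (e j y)) j
      = ∑ j, ∑ t, ∑ r, (e j y r * (fmat e y)⁻¹ j t) * L (Pi.single r 1) t := by
        refine Finset.sum_congr rfl fun j _ => ?_
        rw [h1 j, Matrix.mulVec, dotProduct]
        refine Finset.sum_congr rfl fun t _ => ?_
        rw [Finset.sum_apply, Finset.mul_sum]
        refine Finset.sum_congr rfl fun r _ => ?_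
        simp only [Pi.smul_apply, smul_eq_mul]
        ring
    _ = ∑ t, ∑ r, (∑ j, e j y r * (fmat e y)⁻¹ j t) * L (Pi.single r 1) t := by
        rw [Finset.sum_comm]
        refine Finset.sum_congr rfl fun t _ => ?_
        rw [Finset.sum_comm]
        refine Finset.sum_congr rfl fun r _ => ?_
        rw [Finset.sum_mul]
    _ = ∑ r, L (Pi.single r 1) r := by
        simp [h2]

theorem clm_eq_sum (L : E n →L[ℝ] ℝ) (v : E n) : L v = ∑ r, v r * L (Pi.single r 1) := by
  conv_lhs => rw [← Finset.univ_sum_single v]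
  rw [map_sum]
  refine Finset.sum_congr rfl fun r _ => ?_
  rw [← smul_eq_mul, ← map_smul]
  congr 1
  ext t
  by_cases h : t = r <;> simp [h]

end IBP

/-- The divergence of a frame vector for the Riemannian density. -/
theorem IsFr.div_eq (he : IsFr e U) (hU : IsOpen U) {y : E n} (hy : y ∈ U) (i : Fin n) :
    ∑ r, fderiv ℝ (fun z => dens e z * e i z r) y (Pi.single r 1) =
      -(dens e y * ∑ j, gam e j j i y) := by
  have hd := (IBP.diffAt he.contDiffOn_dens hU hy).hasFDerivAt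
  have h1 : ∀ r, fderiv ℝ (fun z => dens e z * e i z r) y (Pi.single r 1) =
      dens e y * fderiv ℝ (e i) y (Pi.single r 1) r +
        e i y r * fderiv ℝ (dens e) y (Pi.single r 1) := fun r => by
    have := (hd.fun_mul (IBP.hasFDerivAt_coord he hU hy i r)).fderiv
    rw [this]
    simp
  have h2 : ∀ j, gam e j j i y = (fmat e y)⁻¹.mulVec (fderiv ℝ (e j) y (e i y)) j -
      (fmat e y)⁻¹.mulVec (fderiv ℝ (e i) y (e j y)) j := fun j => by
    have a1 := cst_swap e j j i y
    have a2 := cst_swap e j i j y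
    have a3 : cst e i j j y = (fmat e y)⁻¹.mulVec (fderiv ℝ (e j) y (e i y)) j -
        (fmat e y)⁻¹.mulVec (fderiv ℝ (e i) y (e j y)) j := by
      rw [← Pi.sub_apply, ← Matrix.mulVec_sub]
      rfl
    rw [gam, ← a3]
    linarith
  rw [Finset.sum_congr rfl fun r _ => h1 r, Finset.sum_add_distrib, ← IBP.clm_eq_sum,
    IBP.fderiv_dens he hU hy, Finset.sum_congr rfl fun j _ => h2 j, Finset.sum_sub_distrib,
    IBP.sum_inv_mulVec he hy, ← Finset.mul_sum]
  ring

theorem IsFr.integral_der (he : IsFr e U) (hU : IsOpen U) (hK : IsCompact K) (hKU : K ⊆ U)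
    {f : E n → ℝ} (hf : ContDiffOn ℝ ∞ f U) (h0 : ∀ y ∈ U, y ∉ K → f y = 0) (i : Fin n) :
    ∫ y in U, dens e y * der e i f y = ∫ y in U, dens e y * ((∑ j, gam e j j i y) * f y) := by
  have hc : ∀ r, ContDiffOn ℝ ∞ (fun z => dens e z * e i z r) U := fun r =>
    he.contDiffOn_dens.mul (contDiffOn_pi.1 (he.1 i) r)
  have hg : ∀ r, ContDiffOn ℝ ∞ (fun z => (dens e z * e i z r) * f z) U := fun r => (hc r).mul hf
  have hg0 : ∀ r, ∀ y ∈ U, y ∉ K → (dens e y * e i y r) * f y = 0 := fun r y hy hyK => by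
    rw [h0 y hy hyK, mul_zero]
  have h1 : ∀ r, ∫ y in U, fderiv ℝ (fun z => (dens e z * e i z r) * f z) y (Pi.single r 1) = 0 :=
    fun r => IBP.integral_fderiv hU hK hKU (hg r) (hg0 r) _
  have hi : ∀ r, IntegrableOn
      (fun y => fderiv ℝ (fun z => (dens e z * e i z r) * f z) y (Pi.single r 1)) U := fun r => by
    refine IBP.integrableOn hU hK hKU ?_ fun y hy hyK => ?_
    · exact ((hg r).continuousOn_fderiv_of_isOpen hU (by simp)).clm_apply continuousOn_const
    · rw [(IBP.ev_zero hU hK (hg0 r) hy hyK).fderiv_eq]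
      simp
  have h2 : ∫ y in U, ∑ r, fderiv ℝ (fun z => (dens e z * e i z r) * f z) y (Pi.single r 1) = 0 := by
    rw [integral_finsetSum _ fun r _ => hi r]
    simp [h1]
  have h3 : ∀ y ∈ U, ∑ r, fderiv ℝ (fun z => (dens e z * e i z r) * f z) y (Pi.single r 1) =
      dens e y * der e i f y - dens e y * ((∑ j, gam e j j i y) * f y) := fun y hy => by
    have a : ∀ r, fderiv ℝ (fun z => (dens e z * e i z r) * f z) y (Pi.single r 1) =
        dens e y * (e i y r * fderiv ℝ f y (Pi.single r 1)) +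
          f y * fderiv ℝ (fun z => dens e z * e i z r) y (Pi.single r 1) := fun r => by
      rw [fderiv_fun_mul (IBP.diffAt (hc r) hU hy) (IBP.diffAt hf hU hy)]
      simp only [_root_.add_apply, _root_.smul_apply, smul_eq_mul]
      ring
    rw [Finset.sum_congr rfl fun r _ => a r, Finset.sum_add_distrib, ← Finset.mul_sum,
      ← Finset.mul_sum, he.div_eq hU hy, ← IBP.clm_eq_sum, der]
    ring
  rw [setIntegral_congr_fun hU.measurableSet h3, integral_sub, sub_eq_zero] at h2
  · exact h2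
  · refine IBP.integrableOn hU hK hKU
      (he.contDiffOn_dens.mul (he.contDiffOn_der hU hf i)).continuousOn fun y hy hyK => ?_
    rw [der_congr (IBP.ev_zero hU hK h0 hy hyK), der]
    simp
  · refine IBP.integrableOn hU hK hKU (he.contDiffOn_dens.mul
      ((ContDiffOn.sum fun j _ => he.contDiffOn_gam hU j j i).mul hf)).continuousOn
      fun y hy hyK => ?_
    rw [h0 y hy hyK]
    simp

/-- The sum over `i` of `integral_der`. -/
theorem IBP.integral_sum (he : IsFr e U) (hU : IsOpen U) (hK : IsCompact K) (hKU : K ⊆ U)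
    {f : Fin n → E n → ℝ} (hf : ∀ i, ContDiffOn ℝ ∞ (f i) U)
    (h0 : ∀ i, ∀ y ∈ U, y ∉ K → f i y = 0) :
    ∫ y in U, dens e y * ∑ i, (der e i (f i) y - (∑ j, gam e j j i y) * f i y) = 0 := by
  have hi1 : ∀ i, IntegrableOn (fun y => dens e y * der e i (f i) y) U := fun i => by
    refine IBP.integrableOn hU hK hKU
      (he.contDiffOn_dens.mul (he.contDiffOn_der hU (hf i) i)).continuousOn fun y hy hyK => ?_
    rw [der_congr (IBP.ev_zero hU hK (h0 i) hy hyK), der]
    simp
  have hi2 : ∀ i, IntegrableOn (fun y => dens e y * ((∑ j, gam e j j i y) * f i y)) U := fun i => by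
    refine IBP.integrableOn hU hK hKU (he.contDiffOn_dens.mul
      ((ContDiffOn.sum fun j _ => he.contDiffOn_gam hU j j i).mul (hf i))).continuousOn
      fun y hy hyK => ?_
    rw [h0 i y hy hyK]
    simp
  have h1 : ∀ y, dens e y * ∑ i, (der e i (f i) y - (∑ j, gam e j j i y) * f i y) =
      ∑ i, (dens e y * der e i (f i) y - dens e y * ((∑ j, gam e j j i y) * f i y)) := fun y => by
    rw [Finset.mul_sum]
    exact Finset.sum_congr rfl fun i _ => mul_sub _ _ _
  simp only [h1]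
  rw [integral_finsetSum (f := fun i y =>
    dens e y * der e i (f i) y - dens e y * ((∑ j, gam e j j i y) * f i y)) _
    fun i _ => (hi1 i).sub (hi2 i)]
  refine Finset.sum_eq_zero fun i _ => ?_
  rw [integral_sub (hi1 i) (hi2 i), he.integral_der hU hK hKU (hf i) (h0 i) i, sub_self]

theorem IsFr.integral_dirac (he : IsFr e U) (hU : IsOpen U) (hK : IsCompact K) (hKU : K ⊆ U)
    (hψ : ContDiffOn ℝ ∞ ψ U) (hχ : ContDiffOn ℝ ∞ χ U) (h0 : ∀ y ∈ U, y ∉ K → χ y = 0) :
    ∫ y in U, dens e y * ⟪dirac e ψ y, χ y⟫ = ∫ y in U, dens e y * ⟪ψ y, dirac e χ y⟫ := by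
  have hc : ∀ i : Fin n, ContDiffOn ℝ ∞ (fun z => cl i * ψ z) U := fun i =>
    contDiffOn_const.clmul hψ
  have h1 := IBP.integral_sum he hU hK hKU (f := fun i z => ⟪cl i * ψ z, χ z⟫)
    (fun i => (hc i).inner ℝ hχ) (fun i y hy hyK => by simp [h0 y hy hyK])
  have h2 : ∀ y ∈ U, dens e y * ∑ i, (der e i (fun z => ⟪cl i * ψ z, χ z⟫) y -
      (∑ j, gam e j j i y) * ⟪cl i * ψ y, χ y⟫) =
      dens e y * ⟪dirac e ψ y, χ y⟫ - dens e y * ⟪ψ y, dirac e χ y⟫ := fun y hy => by
    rw [← mul_sub]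
    congr 1
    have a : ∀ i, der e i (fun z => ⟪cl i * ψ z, χ z⟫) y =
        ⟪cl i * nab e i ψ y, χ y⟫ + ∑ k, gam e i i k y * ⟪cl k * ψ y, χ y⟫ -
          ⟪ψ y, cl i * nab e i χ y⟫ := fun i => by
      rw [der_inner (IBP.diffAt (hc i) hU hy) (IBP.diffAt hχ hU hy),
        nab_cl_mul (IBP.diffAt hψ hU hy), inner_add_left, sum_inner,
        inner_cl_mul i (ψ y) (nab e i χ y)]
      simp only [real_inner_smul_left]
      ring
    simp only [a, dirac, sum_inner, inner_sum, Finset.sum_sub_distrib, Finset.sum_add_distrib,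
      Finset.sum_mul]
    rw [Finset.sum_comm (f := fun i j => gam e j j i y * ⟪cl i * ψ y, χ y⟫)]
    ring
  rw [setIntegral_congr_fun hU.measurableSet h2, integral_sub, sub_eq_zero] at h1
  · exact h1
  · refine IBP.integrableOn hU hK hKU
      (he.contDiffOn_dens.mul ((he.contDiffOn_dirac hU hψ).inner ℝ hχ)).continuousOn
      fun y hy hyK => ?_
    simp [h0 y hy hyK]
  · refine IBP.integrableOn hU hK hKU
      (he.contDiffOn_dens.mul (hψ.inner ℝ (he.contDiffOn_dirac hU hχ))).continuousOn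
      fun y hy hyK => ?_
    rw [dirac_congr (IBP.ev_zero hU hK h0 hy hyK), dirac_zero]
    simp

theorem IsFr.integral_lich (he : IsFr e U) (hU : IsOpen U) (hK : IsCompact K) (hKU : K ⊆ U)
    (hψ : ContDiffOn ℝ ∞ ψ U) (hχ : ContDiffOn ℝ ∞ χ U) (h0 : ∀ y ∈ U, y ∉ K → χ y = 0) :
    ∫ y in U, dens e y * ⟪dirac e (dirac e ψ) y, χ y⟫ =
      ∫ y in U, dens e y * (∑ i, ⟪nab e i ψ y, nab e i χ y⟫ + scal e y / 4 * ⟪ψ y, χ y⟫) := by
  have hc : ∀ i : Fin n, ContDiffOn ℝ ∞ (nab e i ψ) U := fun i => he.contDiffOn_nab hU hψ i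
  have h1 := IBP.integral_sum he hU hK hKU (f := fun i z => ⟪nab e i ψ z, χ z⟫)
    (fun i => (hc i).inner ℝ hχ) (fun i y hy hyK => by simp [h0 y hy hyK])
  have h2 : ∀ y ∈ U, dens e y * ∑ i, (der e i (fun z => ⟪nab e i ψ z, χ z⟫) y -
      (∑ j, gam e j j i y) * ⟪nab e i ψ y, χ y⟫) =
      dens e y * (∑ i, ⟪nab e i ψ y, nab e i χ y⟫ + scal e y / 4 * ⟪ψ y, χ y⟫) -
        dens e y * ⟪dirac e (dirac e ψ) y, χ y⟫ := fun y hy => by
    rw [← mul_sub]
    congr 1
    have a : ∀ i, der e i (fun z => ⟪nab e i ψ z, χ z⟫) y =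
        ⟪nab e i (nab e i ψ) y, χ y⟫ + ⟪nab e i ψ y, nab e i χ y⟫ := fun i =>
      der_inner (IBP.diffAt (hc i) hU hy) (IBP.diffAt hχ hU hy) i
    rw [he.lichnerowicz hU hy hψ]
    simp only [a, sum_inner, inner_add_left, inner_neg_left, real_inner_smul_left,
      Finset.sum_sub_distrib, Finset.sum_add_distrib, Finset.sum_mul]
    rw [Finset.sum_comm (f := fun i j => gam e j j i y * ⟪nab e i ψ y, χ y⟫)]
    ring
  rw [setIntegral_congr_fun hU.measurableSet h2, integral_sub, sub_eq_zero] at h1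
  · exact h1.symm
  · refine IBP.integrableOn hU hK hKU
      (he.contDiffOn_dens.mul ((ContDiffOn.sum fun i _ =>
        (hc i).inner ℝ (he.contDiffOn_nab hU hχ i)).add
        (((he.contDiffOn_scal hU).div_const 4).mul (hψ.inner ℝ hχ)))).continuousOn
      fun y hy hyK => ?_
    have : ∀ i, nab e i χ y = 0 := fun i => by
      rw [nab_congr (IBP.ev_zero hU hK h0 hy hyK), nab_zero]
    simp [h0 y hy hyK, this]
  · refine IBP.integrableOn hU hK hKU
      (he.contDiffOn_dens.mul
        ((he.contDiffOn_dirac hU (he.contDiffOn_dirac hU hψ)).inner ℝ hχ)).continuousOn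
      fun y hy hyK => ?_
    simp [h0 y hy hyK]

end SZ
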