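import Pool.Agent.P.MP_8db816_gt.SZ.Cpl
import Pool.Agent.P.MP_8db816_gt.SZ.Sum

/-! The index of manifolds with boundary is additive under disjoint unions. -/

noncomputable section

namespace SZ

open Set CliffordAlgebra Filter Topology
open scoped ContDiff RealInnerProductSpace

variable {m : ℕ} {L L₁ L₂ : Col m}

namespace IndSumAux

theorem k_car (P : Part L₁ L) {x : L₁.M.X} (hx : x ∈ L₁.M.car) : P.k.f x ∈ L.M.car :=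
  P.k.map_car (P.srck.symm ▸ hx)

theorem j_car (P : Part L₁ L) {z : L₁.Z.X} (hz : z ∈ L₁.Z.car) : P.j.f z ∈ L.Z.car :=
  P.j.map_car (P.srcj.symm ▸ hz)

theorem exists_k (P : Part L₁ L) {x : L.M.X} (hx : x ∈ P.k.f.target) :
    ∃ x₁ ∈ L₁.M.car, P.k.f x₁ = x :=
  ⟨P.k.f.symm x, P.srck ▸ P.k.f.map_target hx, P.k.f.right_inv hx⟩

theorem exists_j (P : Part L₁ L) {z : L.Z.X} (hz : z ∈ P.j.f.target) :
    ∃ z₁ ∈ L₁.Z.car, P.j.f z₁ = z :=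
  ⟨P.j.f.symm z, P.srcj ▸ P.j.f.map_target hz, P.j.f.right_inv hz⟩

theorem collar (P : Part L₁ L) {x : L₁.M.X} (hx : x ∈ L₁.M.car) {t : ℝ} (ht : t ∈ Ioo 0 P.δ) :
    L₁.e.f (x, t) ∈ L₁.Z.car ∧ P.j.f (L₁.e.f (x, t)) = L.e.f (P.k.f x, t) ∧
      P.j.mu (L₁.e.f (x, t)) * L₁.e.mu (x, t) =
        L.e.mu (P.k.f x, t) * (P.k.prod (Emb.id line)).mu (x, t) := by
  obtain ⟨h1, -, -, -, h5, h6⟩ := sq_iff.1 P.sq (x, t) ⟨hx, ht⟩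
  exact ⟨L₁.e.map_car h1, h5, h6⟩

theorem neckL (C : Cpl L) : IsNeck L.e L.τ (Ioo C.γ C.β) :=
  L.neck.mono (Ioo_subset_Ioo C.pos.le C.le)

theorem neckC (C : Cpl L) : IsNeck C.b C.τ (Ioo C.γ C.β) := C.neck.mono fun _ h => h.2

/-- The open part of the completion that belongs to `P`. -/
def T (P : Part L₁ L) (C : Cpl L) : Set C.Y.X :=
  C.ι.f '' (P.j.f.target ∩ L.τ ⁻¹' Ioi C.γ) ∪ C.b.f '' (P.k.f.target ×ˢ Iio C.β)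

theorem sub_ι (P : Part L₁ L) (C : Cpl L) :
    P.j.f.target ∩ L.τ ⁻¹' Ioi C.γ ⊆ C.ι.f.source :=
  fun _ h => C.mat.src ⟨P.j.tgt h.1, h.2⟩

theorem sub_b (P : Part L₁ L) (C : Cpl L) : P.k.f.target ×ˢ Iio C.β ⊆ C.b.f.source :=
  fun _ h => C.neck.src ⟨P.k.tgt h.1, h.2⟩

theorem isOpen_T (P : Part L₁ L) (C : Cpl L) : IsOpen (T P C) := by
  refine IsOpen.union (C.ι.f.isOpen_image_of_subset_source ?_ (sub_ι P C))
    (C.b.f.isOpen_image_of_subset_source (P.k.f.open_target.prod isOpen_Iio) (sub_b P C))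
  have h : P.j.f.target ∩ L.τ ⁻¹' Ioi C.γ =
      P.j.f.target ∩ (L.Z.car ∩ L.τ ⁻¹' Ioi C.γ) := by
    rw [← inter_assoc, inter_eq_left.2 P.j.tgt]
  rw [h]
  exact P.j.f.open_target.inter (L.neck.isOpen isOpen_Ioi)

theorem T_subset (P : Part L₁ L) (C : Cpl L) : T P C ⊆ C.Y.car := by
  rintro _ (⟨z, hz, rfl⟩ | ⟨z, hz, rfl⟩)
  · exact C.ι.map_car (sub_ι P C hz)
  · exact C.b.map_car (sub_b P C hz)

theorem low (P : Part L₁ L) (C : Cpl L)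
    (hk : ∀ x ∈ L.M.car, ∀ t ∈ Ioo 0 C.β, L.e.f (x, t) ∈ P.j.f.target → x ∈ P.k.f.target)
    {y : C.Y.X} (hy : y ∈ T P C) (ht : C.τ y < C.β) :
    ∃ x ∈ P.k.f.target, C.b.f (x, C.τ y) = y := by
  rcases hy with ⟨z, hz, rfl⟩ | ⟨⟨x, t⟩, hz, rfl⟩
  · have hzc := P.j.tgt hz.1
    have h1 := C.mat.mapsTo hzc hz.2
    have h2 : L.τ z ∈ Ioo C.γ C.β := by
      by_contra h
      exact C.mat.val_notMem (neckL C) (neckC C) hzc hz.2 h ⟨h1.2, ht⟩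
    obtain ⟨x, hx, hxz⟩ := (neckL C).surj z hzc h2
    have h3 := C.mat.val (neckL C) (neckC C) hzc h2
    refine ⟨x, hk x hx (L.τ z) ⟨C.pos.trans h2.1, h2.2⟩ (hxz.symm ▸ hz.1), ?_⟩
    rw [h3, ← (C.mat.apply hx h2).1, hxz]
  · refine ⟨x, hz.1, ?_⟩
    rw [C.neck.val x (P.k.tgt hz.1) t hz.2]

theorem high (P : Part L₁ L) (C : Cpl L) (hδ : C.β ≤ P.δ)
    {y : C.Y.X} (hy : y ∈ T P C) (ht : C.γ < C.τ y) :
    ∃ z ∈ P.j.f.target ∩ L.τ ⁻¹' Ioi C.γ, C.ι.f z = y := by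
  rcases hy with h | ⟨⟨x, t⟩, hz, rfl⟩
  · exact h
  · have hx := P.k.tgt hz.1
    rw [C.neck.val x hx t hz.2] at ht
    have h2 : t ∈ Ioo C.γ C.β := ⟨ht, hz.2⟩
    obtain ⟨x₁, hx₁, rfl⟩ := exists_k P hz.1
    obtain ⟨h3, h4, -⟩ := collar P hx₁ (t := t) ⟨C.pos.trans ht, h2.2.trans_le hδ⟩
    refine ⟨L.e.f (P.k.f x₁, t), ⟨?_, ?_⟩, (C.mat.apply hx h2).1⟩
    · rw [← h4]
      exact P.j.f.map_source (P.srcj.symm ▸ h3)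
    · change C.γ < L.τ _
      rw [(neckL C).val _ hx t h2]
      exact ht

theorem tau_iff (P : Part L₁ L) (C : Cpl L) (hδ : C.β ≤ P.δ) (hε : C.β ≤ L₁.ε)
    (hk : ∀ x ∈ L.M.car, ∀ t ∈ Ioo 0 C.β, L.e.f (x, t) ∈ P.j.f.target → x ∈ P.k.f.target)
    {z : L₁.Z.X} (hz : z ∈ L₁.Z.car) : C.γ < L₁.τ z ↔ C.γ < L.τ (P.j.f z) := by
  have hzs : z ∈ P.j.f.source := P.srcj.symm ▸ hz
  constructor
  · intro h
    by_contra h'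
    rw [not_lt] at h'
    have h0 := L.τ_pos (P.j.f z)
    have hβ := h'.trans_lt C.lt
    obtain ⟨x, hx, hxz⟩ := L.neck.surj _ (j_car P hz) ⟨h0, hβ.trans_le C.le⟩
    have h1 := hk x hx _ ⟨h0, hβ⟩ (hxz.symm ▸ P.j.f.map_source hzs)
    obtain ⟨x₁, hx₁, rfl⟩ := exists_k P h1
    obtain ⟨h3, h4, -⟩ := collar P hx₁ (t := L.τ (P.j.f z)) ⟨h0, hβ.trans_le hδ⟩
    have h5 := P.j.f.injOn (P.srcj.symm ▸ h3) hzs (h4.trans hxz)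
    have h6 := L₁.neck.val x₁ hx₁ _ ⟨h0, hβ.trans_le hε⟩
    rw [h5] at h6
    linarith
  · intro h
    by_contra h'
    rw [not_lt] at h'
    have h0 := L₁.τ_pos z
    have hβ := h'.trans_lt C.lt
    obtain ⟨x, hx, hxz⟩ := L₁.neck.surj _ hz ⟨h0, hβ.trans_le hε⟩
    obtain ⟨-, h4, -⟩ := collar P hx (t := L₁.τ z) ⟨h0, hβ.trans_le hδ⟩
    have h6 := L.neck.val _ (k_car P hx) _ ⟨h0, hβ.trans_le C.le⟩
    rw [← h4, hxz] at h6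
    linarith

/-- The inclusion of the part. -/
abbrev J (P : Part L₁ L) (C : Cpl L) : Emb (C.Y.restr (T P C) (isOpen_T P C)) C.Y :=
  C.Y.incl (T P C) (isOpen_T P C)

/-- The neck of the part. -/
abbrev b₁ (P : Part L₁ L) (C : Cpl L) : Emb (cyl L₁.M) (C.Y.restr (T P C) (isOpen_T P C)) :=
  (J P C).symm.comp (C.b.comp (P.k.prod (Emb.id line)))

/-- The embedding of the interior of the part. -/
abbrev ι₁ (P : Part L₁ L) (C : Cpl L) : Emb L₁.Z (C.Y.restr (T P C) (isOpen_T P C)) :=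
  (J P C).symm.comp (C.ι.comp P.j)

theorem car_eq (P : Part L₁ L) (C : Cpl L) :
    (C.Y.restr (T P C) (isOpen_T P C)).car = T P C := by
  rw [Atl.car_restr, inter_eq_right.2 (T_subset P C)]

theorem b₁_p (P : Part L₁ L) (C : Cpl L) : (b₁ P C).p = 1 := by
  simp [C.par, P.park]

theorem b₁_src (P : Part L₁ L) (C : Cpl L) {x : L₁.M.X} (hx : x ∈ L₁.M.car) {t : ℝ}
    (ht : t < C.β) : (x, t) ∈ (b₁ P C).f.source := by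
  have hxs : x ∈ P.k.f.source := P.srck.symm ▸ hx
  have h1 : (P.k.f x, t) ∈ P.k.f.target ×ˢ Iio C.β := ⟨P.k.f.map_source hxs, ht⟩
  have h2 : C.b.f (P.k.f x, t) ∈ T P C := Or.inr ⟨_, h1, rfl⟩
  have h3 : t ∈ line.car := by rw [car_line]; trivial
  exact ⟨⟨⟨hxs, h3⟩, sub_b P C h1⟩, T_subset P C h2, h2⟩

theorem ι₁_src (P : Part L₁ L) (C : Cpl L) {z : L₁.Z.X} (hz : z ∈ L₁.Z.car)
    (ht : C.γ < L.τ (P.j.f z)) : z ∈ (ι₁ P C).f.source := by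
  have hzs : z ∈ P.j.f.source := P.srcj.symm ▸ hz
  have h1 : P.j.f z ∈ P.j.f.target ∩ L.τ ⁻¹' Ioi C.γ := ⟨P.j.f.map_source hzs, ht⟩
  have h2 : C.ι.f (P.j.f z) ∈ T P C := Or.inl ⟨_, h1, rfl⟩
  exact ⟨⟨hzs, sub_ι P C h1⟩, T_subset P C h2, h2⟩

theorem neck₁ (P : Part L₁ L) (C : Cpl L)
    (hk : ∀ x ∈ L.M.car, ∀ t ∈ Ioo 0 C.β, L.e.f (x, t) ∈ P.j.f.target → x ∈ P.k.f.target) :
    IsNeck (b₁ P C) C.τ (Iio C.β) where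
  cont := C.neck.cont.mono (by rw [car_eq]; exact T_subset P C)
  src z hz := b₁_src P C hz.1 hz.2
  val x hx t ht := C.neck.val _ (k_car P hx) t ht
  surj y hy ht := by
    rw [car_eq] at hy
    obtain ⟨x, hx, h⟩ := low P C hk hy ht
    obtain ⟨x₁, hx₁, rfl⟩ := exists_k P hx
    exact ⟨x₁, hx₁, h⟩

theorem mat₁ (P : Part L₁ L) (C : Cpl L) (hδ : C.β ≤ P.δ) (hε : C.β ≤ L₁.ε)
    (hk : ∀ x ∈ L.M.car, ∀ t ∈ Ioo 0 C.β, L.e.f (x, t) ∈ P.j.f.target → x ∈ P.k.f.target) :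
    Match (ι₁ P C) L₁.e L₁.τ (b₁ P C) C.τ (Ioo C.γ C.β) (Ioi C.γ) where
  par := by
    rw [b₁_p, L₁.par]
    simp [C.ι_p, P.parj]
  src z hz := ι₁_src P C hz.1 ((tau_iff P C hδ hε hk hz.1).1 hz.2)
  img := by
    rw [car_eq]
    refine Subset.antisymm ?_ ?_
    · rintro _ ⟨z, hz, rfl⟩
      have h := (tau_iff P C hδ hε hk hz.1).1 hz.2
      exact ⟨Or.inl ⟨_, ⟨P.j.f.map_source (P.srcj.symm ▸ hz.1), h⟩, rfl⟩,
        (C.mat.mapsTo (j_car P hz.1) h).2⟩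
    · intro y hy
      obtain ⟨z, hz, rfl⟩ := high P C hδ hy.1 hy.2
      obtain ⟨z₁, hz₁, rfl⟩ := exists_j P hz.1
      exact ⟨z₁, ⟨hz₁, (tau_iff P C hδ hε hk hz₁).2 hz.2⟩, rfl⟩
  sq := by
    refine sq_iff.2 ?_
    rintro ⟨x, t⟩ ⟨hx, ht⟩
    have h0 : 0 < t := C.pos.trans ht.1
    obtain ⟨h3, h4, h5⟩ := collar P hx (t := t) ⟨h0, ht.2.trans_le hδ⟩
    obtain ⟨h6, h7⟩ := C.mat.apply (k_car P hx) ht
    have h8 : L₁.e.f (x, t) ∈ (ι₁ P C).f.source := by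
      refine ι₁_src P C h3 ?_
      rw [h4, (neckL C).val _ (k_car P hx) t ht]
      exact ht.1
    have h9 := b₁_src P C hx ht.2
    have h10 : C.ι.f (P.j.f (L₁.e.f (x, t))) = C.b.f (P.k.f x, t) := by rw [h4, h6]
    refine ⟨L₁.neck.src ⟨hx, h0, ht.2.trans_le hε⟩, h8, mem_car_cyl.2 hx, h9, h10, ?_⟩
    rw [Emb.mu_id, mul_one, Emb.id_apply, Emb.mu_comp _ _ h8, Emb.mu_comp _ _ h8.1,
      Emb.mu_comp _ _ h9, Emb.mu_comp _ _ h9.1, mul_assoc, mul_assoc, h5]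
    change (J P C).symm.mu (C.ι.f (P.j.f (L₁.e.f (x, t)))) * _ =
      (J P C).symm.mu (C.b.f (P.k.f x, t)) * (C.b.mu (P.k.f x, t) * _)
    rw [h10, ← h7, h4, mul_assoc]

theorem img_ι (C : Cpl L) : C.ι.f '' (L.Z.car ∩ L.τ ⁻¹' Ioi C.γ) ∪
    C.b.f '' (L.M.car ×ˢ Iio C.β) = C.Y.car := by
  rw [C.mat.img, C.neck.image subset_rfl, ← inter_union_distrib_left, ← preimage_union,
    union_comm, Iio_union_Ioi_of_lt C.lt, preimage_univ, inter_univ]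

theorem disjoint_T (P₁ : Part L₁ L) (P₂ : Part L₂ L) (C : Cpl L) (hδ₁ : C.β ≤ P₁.δ)
    (hδ₂ : C.β ≤ P₂.δ)
    (hk₁ : ∀ x ∈ L.M.car, ∀ t ∈ Ioo 0 C.β, L.e.f (x, t) ∈ P₁.j.f.target → x ∈ P₁.k.f.target)
    (hk₂ : ∀ x ∈ L.M.car, ∀ t ∈ Ioo 0 C.β, L.e.f (x, t) ∈ P₂.j.f.target → x ∈ P₂.k.f.target)
    (dj : Disjoint P₁.j.f.target P₂.j.f.target) (dk : Disjoint P₁.k.f.target P₂.k.f.target) :
    Disjoint (T P₁ C) (T P₂ C) := by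
  refine disjoint_left.2 fun y h₁ h₂ => ?_
  rcases lt_or_ge (C.τ y) C.β with ht | ht
  · obtain ⟨x₁, hx₁, e₁⟩ := low P₁ C hk₁ h₁ ht
    obtain ⟨x₂, hx₂, e₂⟩ := low P₂ C hk₂ h₂ ht
    have h := C.b.f.injOn (sub_b P₁ C (mk_mem_prod hx₁ ht)) (sub_b P₂ C (mk_mem_prod hx₂ ht))
      (e₁.trans e₂.symm)
    have h' : x₁ = x₂ := congrArg Prod.fst h
    exact disjoint_left.1 dk hx₁ (h' ▸ hx₂)
  · obtain ⟨z₁, hz₁, e₁⟩ := high P₁ C hδ₁ h₁ (C.lt.trans_le ht)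
    obtain ⟨z₂, hz₂, e₂⟩ := high P₂ C hδ₂ h₂ (C.lt.trans_le ht)
    have h := C.ι.f.injOn (sub_ι P₁ C hz₁) (sub_ι P₂ C hz₂) (e₁.trans e₂.symm)
    exact disjoint_left.1 dj hz₁.1 (h ▸ hz₂.1)

theorem k_of_j (P₁ : Part L₁ L) (P₂ : Part L₂ L) {β : ℝ} (hδ₂ : β ≤ P₂.δ)
    (dj : Disjoint P₁.j.f.target P₂.j.f.target) (uk : P₁.k.f.target ∪ P₂.k.f.target = L.M.car) :
    ∀ x ∈ L.M.car, ∀ t ∈ Ioo 0 β, L.e.f (x, t) ∈ P₁.j.f.target → x ∈ P₁.k.f.target := by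
  intro x hx t ht h
  rw [← uk] at hx
  refine hx.resolve_right fun hx₂ => ?_
  obtain ⟨x₂, hx₂', rfl⟩ := exists_k P₂ hx₂
  obtain ⟨h3, h4, -⟩ := collar P₂ hx₂' (t := t) ⟨ht.1, ht.2.trans_le hδ₂⟩
  exact disjoint_left.1 dj h (h4 ▸ P₂.j.f.map_source (P₂.srcj.symm ▸ h3))

end IndSumAux

open IndSumAux

/-- A completion of `L` contains a completion of a part of `L`. -/
theorem Part.exists_cpl (P : Part L₁ L) (C : Cpl L) (hδ : C.β ≤ P.δ) (hε : C.β ≤ L₁.ε)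
    (hk : ∀ x ∈ L.M.car, ∀ t ∈ Ioo 0 C.β, L.e.f (x, t) ∈ P.j.f.target → x ∈ P.k.f.target) :
    ∃ (C₁ : Cpl L₁) (J : Emb C₁.Y C.Y), J.p = 1 ∧ J.f.source = C₁.Y.car ∧
      J.f.target = C.ι.f '' (P.j.f.target ∩ L.τ ⁻¹' Ioi C.γ) ∪
        C.b.f '' (P.k.f.target ×ˢ Iio C.β) :=
  ⟨⟨C.Y.restr (T P C) (isOpen_T P C), b₁ P C, C.τ, ι₁ P C, C.γ, C.β, C.pos, C.lt, hε, b₁_p P C,
    neck₁ P C hk, mat₁ P C hδ hε hk⟩, J P C, rfl, (Atl.car_restr _ _ _).symm,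
    inter_eq_right.2 (T_subset P C)⟩

theorem Part.psc (P : Part L₁ L) (hp : L.M.Psc univ) : L₁.M.Psc univ := by
  refine Atl.psc_iff.2 fun x hx _ => ?_
  rw [← P.k.scal_eq (P.srck.symm ▸ hx)]
  exact Atl.psc_iff.1 hp _ (k_car P hx) trivial

theorem Part.ind_iso (P : Part L₁ L) (hj : P.j.f.target = L.Z.car) (hk : P.k.f.target = L.M.car)
    (hp : L.M.Psc univ) (G : Gr (m + 1)) : L.ind G = L₁.ind G := by
  have hβ : 0 < min (min P.δ L₁.ε) L.ε := lt_min (lt_min P.δ_pos L₁.ε_pos) L.ε_pos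
  obtain ⟨C, -, hC⟩ := L.exists_cpl (half_pos hβ) (half_lt_self hβ) (min_le_right _ _)
  obtain ⟨C₁, J, h1, h2, h3⟩ := P.exists_cpl C
    (hC ▸ (min_le_left _ _).trans (min_le_left _ _))
    (hC ▸ (min_le_left _ _).trans (min_le_right _ _)) fun x hx _ _ _ => hk.symm ▸ hx
  rw [hj, hk, img_ι] at h3
  rw [← C.index_eq hp G, ← C₁.index_eq (P.psc hp) G]
  exact index_iso J h1 h2 h3 (C₁.good (P.psc hp) G)

theorem Part.ind_sum (P₁ : Part L₁ L) (P₂ : Part L₂ L)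
    (dj : Disjoint P₁.j.f.target P₂.j.f.target) (uj : P₁.j.f.target ∪ P₂.j.f.target = L.Z.car)
    (dk : Disjoint P₁.k.f.target P₂.k.f.target) (uk : P₁.k.f.target ∪ P₂.k.f.target = L.M.car)
    (hp : L.M.Psc univ) (G : Gr (m + 1)) : L.ind G = L₁.ind G + L₂.ind G := by
  have hβ : 0 < min (min (min P₁.δ L₁.ε) (min P₂.δ L₂.ε)) L.ε :=
    lt_min (lt_min (lt_min P₁.δ_pos L₁.ε_pos) (lt_min P₂.δ_pos L₂.ε_pos)) L.ε_pos
  obtain ⟨C, -, hC⟩ := L.exists_cpl (half_pos hβ) (half_lt_self hβ) (min_le_right _ _)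
  have h0 : C.β ≤ min (min P₁.δ L₁.ε) (min P₂.δ L₂.ε) := hC ▸ min_le_left _ _
  have hδ₁ : C.β ≤ P₁.δ := h0.trans ((min_le_left _ _).trans (min_le_left _ _))
  have hε₁ : C.β ≤ L₁.ε := h0.trans ((min_le_left _ _).trans (min_le_right _ _))
  have hδ₂ : C.β ≤ P₂.δ := h0.trans ((min_le_right _ _).trans (min_le_left _ _))
  have hε₂ : C.β ≤ L₂.ε := h0.trans ((min_le_right _ _).trans (min_le_right _ _))
  have hk₁ := k_of_j P₁ P₂ hδ₂ dj uk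
  have hk₂ := k_of_j P₂ P₁ hδ₁ dj.symm ((union_comm _ _).trans uk)
  obtain ⟨C₁, J₁, a1, a2, a3⟩ := P₁.exists_cpl C hδ₁ hε₁ hk₁
  obtain ⟨C₂, J₂, c1, c2, c3⟩ := P₂.exists_cpl C hδ₂ hε₂ hk₂
  rw [← C.index_eq hp G, ← C₁.index_eq (P₁.psc hp) G, ← C₂.index_eq (P₂.psc hp) G]
  refine index_sum J₁ J₂ a1 c1 a2 c2 ?_ ?_ (C₁.good (P₁.psc hp) G) (C₂.good (P₂.psc hp) G)
  · rw [a3, c3]
    exact disjoint_T P₁ P₂ C hδ₁ hδ₂ hk₁ hk₂ dj dk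
  · rw [a3, c3, union_union_union_comm, ← image_union, ← image_union, ← union_inter_distrib_right,
      ← union_prod, uj, uk, img_ι]

end SZ
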