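import Pool.Agent.P.MP_8db816_gt.SZ.Loc0

/-! Product frames. -/

noncomputable section

namespace SZ

variable {a b : ℕ}

/-- The first `a` coordinates. -/
def pl (z : E (a + b)) : E a := fun i => z (Fin.castAdd b i)

/-- The last `b` coordinates. -/
def pr (z : E (a + b)) : E b := fun j => z (Fin.natAdd a j)

/-- The product frame (product metric). -/
def pfr (e : Fr a) (e' : Fr b) : Fr (a + b) :=
  Fin.append (fun i z => Fin.append (e i (pl z)) 0) (fun j z => Fin.append 0 (e' j (pr z)))

end SZ
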