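import Pool.Agent.P.MP_8db816_gt.SZ.ClProd
import Pool.Agent.P.MP_8db816_gt.SZ.Prod0

/-! Calculus of lifts: restriction, composition, inverse, products. -/

noncomputable section

namespace SZ

open CliffordAlgebra Filter Topology Set
open scoped RealInnerProductSpace ContDiff

variable {n a b : ℕ} {e e' e'' : Fr n} {U U' V : Set (E n)} {τ τ' : E n → E n}
  {σ σ' : E n → Cl n} {p q : ℝ}

theorem Lift.sq (h : Lift p e e' U τ σ) {y : E n} (hy : y ∈ U) : p = 1 ∨ p = -1 := by
  obtain ⟨hp, hi, -⟩ := h.2.2 y hy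
  have h1 : (p * p) • σ y = σ y := by
    have := congrArg involute hi
    rw [involute_involute, map_smul, hi, smul_smul] at this
    exact this.symm
  have h2 : star (σ y) * σ y = 1 := pinGroup.star_mul_self_of_mem hp
  have h3 : (p * p) • (1 : Cl n) = 1 := by
    rw [← h2, ← mul_smul_comm, h1]
  have h4 : (p * p - 1) • (1 : Cl n) = 0 := by rw [sub_smul, h3, one_smul, sub_self]
  have h5 : (1 : Cl n) ≠ 0 := by
    intro h0
    have := norm_one_cl (n := n)
    rw [h0, norm_zero] at this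
    exact zero_ne_one this
  have h6 : p * p - 1 = 0 := (smul_eq_zero.1 h4).resolve_right h5
  exact mul_self_eq_one_iff.1 (by linarith)

theorem Lift.congr (h : Lift p e e' U τ σ) (hV : IsOpen V) (hVU : V ⊆ U) (hτ : EqOn τ' τ V)
    (hσ : EqOn σ' σ V) : Lift p e e' V τ' σ' := by
  refine ⟨(h.1.mono hVU).congr hτ, (h.2.1.mono hVU).congr hσ, fun y hy => ?_⟩
  have h1 : fderiv ℝ τ' y = fderiv ℝ τ y :=
    Filter.EventuallyEq.fderiv_eq (Filter.eventuallyEq_of_mem (hV.mem_nhds hy) hτ)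
  rw [h1, hσ hy, hτ hy]
  exact h.2.2 y (hVU hy)

theorem Lift.of_locally (hU : IsOpen U)
    (h : ∀ y ∈ U, ∃ V, IsOpen V ∧ y ∈ V ∧ Lift p e e' (V ∩ U) τ σ) : Lift p e e' U τ σ := by
  refine ⟨contDiffOn_of_locally_contDiffOn fun y hy => ?_,
    contDiffOn_of_locally_contDiffOn fun y hy => ?_, fun y hy => ?_⟩
  · obtain ⟨V, hV, hyV, hl⟩ := h y hy
    exact ⟨V, hV, hyV, by rw [inter_comm]; exact hl.1⟩
  · obtain ⟨V, hV, hyV, hl⟩ := h y hy
    exact ⟨V, hV, hyV, by rw [inter_comm]; exact hl.2.1⟩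
  · obtain ⟨V, hV, hyV, hl⟩ := h y hy
    exact hl.2.2 y ⟨hyV, hy⟩

theorem Lift.refl (e : Fr n) (U : Set (E n)) : Lift 1 e e U id fun _ => 1 := by
  refine lift_iff.2
    ⟨contDiffOn_id, contDiffOn_const, fun y _ => ⟨one_mem _, by simp, fun v w hvw => ?_⟩⟩
  have : v = w := vec_injective (by simpa using hvw)
  subst this
  simp

theorem Lift.comp (h' : Lift q e' e'' U' τ' σ') (h : Lift p e e' U τ σ) (hU : IsOpen U)
    (hU' : IsOpen U') (hτ : MapsTo τ U U') :
    Lift (q * p) e e'' U (τ' ∘ τ) fun y => σ' (τ y) * σ y := by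
  refine lift_iff.2 ⟨h'.1.comp h.1 hτ, (h'.2.1.comp h.1 hτ).clmul h.2.1, fun y hy => ?_⟩
  obtain ⟨hp, hi, hf⟩ := (lift_iff.1 h).2.2 y hy
  obtain ⟨hp', hi', hf'⟩ := (lift_iff.1 h').2.2 (τ y) (hτ hy)
  refine ⟨mul_mem hp' hp, ?_, fun v w hvw => ?_⟩
  · rw [map_mul, hi, hi', smul_mul_smul_comm]
  · have d1 : DifferentiableAt ℝ τ y :=
      (h.1.contDiffAt (hU.mem_nhds hy)).differentiableAt (by simp)
    have d2 : DifferentiableAt ℝ τ' (τ y) :=
      (h'.1.contDiffAt (hU'.mem_nhds (hτ hy))).differentiableAt (by simp)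
    have hu := twist_vec hp v
    rw [fderiv_comp y d2 d1, ContinuousLinearMap.comp_apply, hf v _ hu]
    refine hf' _ w ?_
    rw [← hu, ← hvw, map_mul, star_mul]
    simp only [mul_assoc]

theorem Lift.symm (T : OpenPartialHomeomorph (E n) (E n)) (h : Lift p e e' T.source T σ)
    (he : IsFr e T.source) (he' : IsFr e' T.target) :
    Lift p e' e T.target T.symm fun y => star (σ (T.symm y)) := by
  have hd : ∀ x ∈ T.source, ContDiffAt ℝ ∞ T x := fun x hx =>
    h.1.contDiffAt (T.open_source.mem_nhds hx)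
  have key : ∀ x ∈ T.source, ∀ k,
      fderiv ℝ T x (∑ j, rmat (σ x) k j • e j x) = e' k (T x) := by
    intro x hx k
    have hp := (h.2.2 x hx).1
    rw [map_sum]
    simp only [map_smul, h.fderiv_frame hx, Finset.smul_sum, smul_smul]
    rw [Finset.sum_comm]
    simp only [← Finset.sum_smul, rmat_row hp]
    simp
  have hex : ∀ x ∈ T.source, ∃ A : E n ≃L[ℝ] E n, HasFDerivAt T (A : E n →L[ℝ] E n) x := by
    intro x hx
    have hli := he'.2 (T x) (T.map_source hx)
    have hspan : Submodule.span ℝ (Set.range fun i => e' i (T x)) = ⊤ :=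
      hli.span_eq_top_of_card_eq_finrank' (by simp)
    have hsurj : Function.Surjective (fderiv ℝ T x).toLinearMap := by
      rw [← LinearMap.range_eq_top, eq_top_iff, ← hspan, Submodule.span_le]
      rintro _ ⟨k, rfl⟩
      exact ⟨_, key x hx k⟩
    have hinj : Function.Injective (fderiv ℝ T x).toLinearMap :=
      LinearMap.injective_iff_surjective.2 hsurj
    refine ⟨(LinearEquiv.ofBijective _ ⟨hinj, hsurj⟩).toContinuousLinearEquiv, ?_⟩
    have := ((hd x hx).differentiableAt (by simp)).hasFDerivAt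
    exact this.congr_fderiv (ContinuousLinearMap.ext fun v => rfl)
  have hsm : ContDiffOn ℝ ∞ T.symm T.target := by
    intro y hy
    obtain ⟨A, hA⟩ := hex _ (T.map_target hy)
    exact (T.contDiffAt_symm hy hA (hd _ (T.map_target hy))).contDiffWithinAt
  refine Lift.of_frame hsm (h.2.1.comp hsm fun y hy => T.map_target hy).clstar
    (fun y hy => pinGroup.star_mem (h.2.2 _ (T.map_target hy)).1) (fun y hy => ?_)
    fun y hy j => ?_
  · rw [← star_involute, (h.2.2 _ (T.map_target hy)).2.1, CliffordAlgebra.star_smul]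
  · have hx := T.map_target hy
    obtain ⟨A, hA⟩ := hex _ hx
    have h1 := (T.hasFDerivAt_symm hy hA).fderiv
    have h2 := key _ hx j
    rw [hA.fderiv, T.right_inv hy] at h2
    rw [h1, ← h2]
    simp only [rmat_star (h.2.2 _ hx).1]
    exact A.symm_apply_apply _

/-- The reflection of the line. -/
theorem Lift.flip : Lift (-1) (fun _ _ _ => (1 : ℝ) : Fr 1) (fun _ _ _ => (1 : ℝ)) univ
    (fun y => -y) fun _ => cl 0 := by
  refine Lift.of_frame contDiff_neg.contDiffOn contDiffOn_const (fun _ _ => cl_mem_pin 0)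
    (fun _ _ => by rw [involute_cl]; simp) fun y _ j => ?_
  have hj : j = 0 := Subsingleton.elim _ _
  subst hj
  have hr : rmat (cl (0 : Fin 1)) 0 0 = -1 := by
    rw [rmat, involute_cl, star_cl, neg_mul, cl_mul_self, neg_neg, one_mul, inner_neg_right]
    have := inner_cl_vec (0 : Fin 1) (Pi.single 0 1)
    rw [Pi.single_eq_same] at this
    rw [show cl (0 : Fin 1) = vec (Pi.single 0 1) from rfl] at this ⊢
    rw [this]
  have hf : fderiv ℝ (fun y : E 1 => -y) y = -ContinuousLinearMap.id ℝ (E 1) :=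
    (hasFDerivAt_id y).neg.fderiv
  rw [hf, Fin.sum_univ_one, hr]
  ext i
  simp

@[simp] theorem pl_append (x : E a) (y : E b) : pl (Fin.append x y) = x := by
  ext i; simp [pl]

@[simp] theorem pr_append (x : E a) (y : E b) : pr (Fin.append x y) = y := by
  ext i; simp [pr]

theorem append_pl_pr (z : E (a + b)) : Fin.append (pl z) (pr z) = z := by
  ext i
  refine Fin.addCases (fun i => ?_) (fun i => ?_) i <;> simp [pl, pr]

theorem contDiff_pl {N : WithTop ℕ∞} : ContDiff ℝ N (pl : E (a + b) → E a) := contDiff_pi.2 fun i => contDiff_apply ℝ ℝ (Fin.castAdd b i)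

theorem contDiff_pr {N : WithTop ℕ∞} : ContDiff ℝ N (pr : E (a + b) → E b) := contDiff_pi.2 fun i => contDiff_apply ℝ ℝ (Fin.natAdd a i)

theorem contDiff_append {N : WithTop ℕ∞} :
    ContDiff ℝ N fun z : E a × E b => (Fin.append z.1 z.2 : E (a + b)) := by
  refine contDiff_pi.2 fun i => ?_
  refine Fin.addCases (fun i => ?_) (fun i => ?_) i
  · simp only [Fin.append_left]
    exact (contDiff_apply ℝ ℝ i).comp contDiff_fst
  · simp only [Fin.append_right]
    exact (contDiff_apply ℝ ℝ i).comp contDiff_snd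

@[simp] theorem pfr_left (e₁ : Fr a) (e₂ : Fr b) (i : Fin a) (z : E (a + b)) :
    pfr e₁ e₂ (Fin.castAdd b i) z = Fin.append (e₁ i (pl z)) 0 := by
  simp [pfr]

@[simp] theorem pfr_right (e₁ : Fr a) (e₂ : Fr b) (j : Fin b) (z : E (a + b)) :
    pfr e₁ e₂ (Fin.natAdd a j) z = Fin.append 0 (e₂ j (pr z)) := by
  simp [pfr]

theorem IsFr.prod {e₁ : Fr a} {e₂ : Fr b} {U₁ : Set (E a)} {U₂ : Set (E b)} (h₁ : IsFr e₁ U₁)
    (h₂ : IsFr e₂ U₂) : IsFr (pfr e₁ e₂) {z | pl z ∈ U₁ ∧ pr z ∈ U₂} := by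
  constructor
  · intro i
    refine Fin.addCases (fun i => ?_) (fun i => ?_) i
    · have : pfr e₁ e₂ (Fin.castAdd b i) = fun z => Fin.append (e₁ i (pl z)) 0 :=
        funext fun z => pfr_left e₁ e₂ i z
      rw [this]
      exact contDiff_append.comp_contDiffOn
        (((h₁.1 i).comp contDiff_pl.contDiffOn fun z hz => hz.1).prodMk contDiffOn_const)
    · have : pfr e₁ e₂ (Fin.natAdd a i) = fun z => Fin.append 0 (e₂ i (pr z)) :=
        funext fun z => pfr_right e₁ e₂ i z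
      rw [this]
      exact contDiff_append.comp_contDiffOn
        (contDiffOn_const.prodMk ((h₂.1 i).comp contDiff_pr.contDiffOn fun z hz => hz.2))
  · intro z hz
    rw [Fintype.linearIndependent_iff]
    intro g hg
    rw [Fin.sum_univ_add] at hg
    have g1 : ∑ i, g (Fin.castAdd b i) • e₁ i (pl z) = 0 := by
      ext r
      simpa using congrFun hg (Fin.castAdd b r)
    have g2 : ∑ j, g (Fin.natAdd a j) • e₂ j (pr z) = 0 := by
      ext r
      simpa using congrFun hg (Fin.natAdd a r)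
    intro i
    refine Fin.addCases (fun i => ?_) (fun i => ?_) i
    · exact Fintype.linearIndependent_iff.1 (h₁.2 _ hz.1) _ g1 i
    · exact Fintype.linearIndependent_iff.1 (h₂.2 _ hz.2) _ g2 i

theorem isFr_line : IsFr (fun _ _ _ => (1 : ℝ) : Fr 1) univ := by
  refine ⟨fun _ => contDiffOn_const, fun y _ => ?_⟩
  rw [Fintype.linearIndependent_iff]
  intro g hg i
  have := congrFun hg 0
  rw [Subsingleton.elim i 0]
  simpa using this

theorem liftapi_fderiv_append {τ₁ : E a → E a} {τ₂ : E b → E b} {z : E (a + b)}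
    (d1 : DifferentiableAt ℝ τ₁ (pl z)) (d2 : DifferentiableAt ℝ τ₂ (pr z)) (v : E (a + b)) :
    fderiv ℝ (fun z : E (a + b) => (Fin.append (τ₁ (pl z)) (τ₂ (pr z)) : E (a + b))) z v
      = Fin.append (fderiv ℝ τ₁ (pl z) (pl v)) (fderiv ℝ τ₂ (pr z) (pr v)) := by
  let PL : E (a + b) →L[ℝ] E a :=
    ContinuousLinearMap.pi fun i => ContinuousLinearMap.proj (Fin.castAdd b i)
  let PR : E (a + b) →L[ℝ] E b :=
    ContinuousLinearMap.pi fun i => ContinuousLinearMap.proj (Fin.natAdd a i)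
  have e1 : HasFDerivAt (fun z : E (a + b) => τ₁ (pl z)) ((fderiv ℝ τ₁ (pl z)).comp PL) z :=
    d1.hasFDerivAt.comp z PL.hasFDerivAt
  have e2 : HasFDerivAt (fun z : E (a + b) => τ₂ (pr z)) ((fderiv ℝ τ₂ (pr z)).comp PR) z :=
    d2.hasFDerivAt.comp z PR.hasFDerivAt
  let D : E (a + b) →L[ℝ] E (a + b) := ContinuousLinearMap.pi (Fin.append
    (fun i => (ContinuousLinearMap.proj i).comp ((fderiv ℝ τ₁ (pl z)).comp PL))
    (fun i => (ContinuousLinearMap.proj i).comp ((fderiv ℝ τ₂ (pr z)).comp PR)))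
  have e3 : HasFDerivAt
      (fun z : E (a + b) => (Fin.append (τ₁ (pl z)) (τ₂ (pr z)) : E (a + b))) D z := by
    refine hasFDerivAt_pi.2 fun i => ?_
    refine Fin.addCases (fun i => ?_) (fun i => ?_) i
    · simp only [Fin.append_left]
      exact (hasFDerivAt_apply i _).comp z e1
    · simp only [Fin.append_right]
      exact (hasFDerivAt_apply i _).comp z e2
  rw [e3.fderiv]
  ext r
  refine Fin.addCases (fun r => ?_) (fun r => ?_) r
  · simp only [D, ContinuousLinearMap.pi_apply, Fin.append_left]; rfl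
  · simp only [D, ContinuousLinearMap.pi_apply, Fin.append_right]; rfl

theorem Lift.prod {e₁ e₁' : Fr a} {e₂ e₂' : Fr b} {U₁ : Set (E a)} {U₂ : Set (E b)}
    {τ₁ : E a → E a} {τ₂ : E b → E b} {σ₁ : E a → Cl a} {σ₂ : E b → Cl b}
    (h₁ : Lift p e₁ e₁' U₁ τ₁ σ₁) (h₂ : Lift q e₂ e₂' U₂ τ₂ σ₂) (hU₁ : IsOpen U₁)
    (hU₂ : IsOpen U₂) :
    Lift (p * q) (pfr e₁ e₂) (pfr e₁' e₂') {z | pl z ∈ U₁ ∧ pr z ∈ U₂}
      (fun z => Fin.append (τ₁ (pl z)) (τ₂ (pr z)))
      fun z => inl a b (σ₁ (pl z)) * inr a b (σ₂ (pr z)) := by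
  have c1 : ContDiffOn ℝ ∞ (fun z : E (a + b) => τ₁ (pl z)) {z | pl z ∈ U₁ ∧ pr z ∈ U₂} :=
    h₁.1.comp contDiff_pl.contDiffOn fun z hz => hz.1
  have c2 : ContDiffOn ℝ ∞ (fun z : E (a + b) => τ₂ (pr z)) {z | pl z ∈ U₁ ∧ pr z ∈ U₂} :=
    h₂.1.comp contDiff_pr.contDiffOn fun z hz => hz.2
  have s1 : ContDiffOn ℝ ∞ (fun z : E (a + b) => σ₁ (pl z)) {z | pl z ∈ U₁ ∧ pr z ∈ U₂} :=
    h₁.2.1.comp contDiff_pl.contDiffOn fun z hz => hz.1
  have s2 : ContDiffOn ℝ ∞ (fun z : E (a + b) => σ₂ (pr z)) {z | pl z ∈ U₁ ∧ pr z ∈ U₂} :=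
    h₂.2.1.comp contDiff_pr.contDiffOn fun z hz => hz.2
  refine Lift.of_frame (contDiff_append.comp_contDiffOn (c1.prodMk c2))
    ((contDiff_inl.comp_contDiffOn s1).clmul (contDiff_inr.comp_contDiffOn s2))
    (fun z hz => mul_mem (inl_mem_pin (h₁.2.2 _ hz.1).1) (inr_mem_pin (h₂.2.2 _ hz.2).1))
    (fun z hz => ?_) fun z hz j => ?_
  · rw [map_mul, inl_involute, inr_involute, (h₁.2.2 _ hz.1).2.1, (h₂.2.2 _ hz.2).2.1, map_smul,
      map_smul, smul_mul_smul_comm]
  · obtain ⟨r1, r2, r3, r4⟩ := rmat_prod (h₁.2.2 _ hz.1).1 (h₂.2.2 _ hz.2).1 (h₁.sq hz.1)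
      (h₂.sq hz.2) (h₁.2.2 _ hz.1).2.1 (h₂.2.2 _ hz.2).2.1
    have d1 : DifferentiableAt ℝ τ₁ (pl z) :=
      (h₁.1.contDiffAt (hU₁.mem_nhds hz.1)).differentiableAt (by simp)
    have d2 : DifferentiableAt ℝ τ₂ (pr z) :=
      (h₂.1.contDiffAt (hU₂.mem_nhds hz.2)).differentiableAt (by simp)
    rw [liftapi_fderiv_append d1 d2, Fin.sum_univ_add]
    refine Fin.addCases (fun j => ?_) (fun j => ?_) j
    · simp only [pfr_left, pfr_right, pl_append, pr_append, map_zero, r1, r4, zero_smul,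
        Finset.sum_const_zero, add_zero, h₁.fderiv_frame hz.1]
      ext r
      refine Fin.addCases (fun r => ?_) (fun r => ?_) r <;> simp
    · simp only [pfr_left, pfr_right, pl_append, pr_append, map_zero, r2, r3, zero_smul,
        Finset.sum_const_zero, zero_add, h₂.fderiv_frame hz.2]
      ext r
      refine Fin.addCases (fun r => ?_) (fun r => ?_) r <;> simp

theorem liftapi_append_assoc {α : Type} (x : Fin a → α) (y : Fin b → α) (t : Fin 1 → α) :
    (Fin.append (Fin.append x y) t : Fin (a + b + 1) → α) =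
      (Fin.append x (Fin.append y t : Fin (b + 1) → α) : Fin (a + (b + 1)) → α) := by
  rw [Fin.append_assoc]
  rfl

theorem append_assoc_one (x : E a) (y : E b) (t : E 1) :
    (Fin.append (Fin.append x y) t : E (a + b + 1)) =
      (Fin.append x (Fin.append y t : E (b + 1)) : E (a + (b + 1))) := liftapi_append_assoc x y t

theorem pfr_assoc_one (e₁ : Fr a) (e₂ : Fr b) (e₃ : Fr 1) :
    (pfr (pfr e₁ e₂) e₃ : Fr (a + b + 1)) = (pfr e₁ (pfr e₂ e₃) : Fr (a + (b + 1))) := by
  funext i z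
  obtain ⟨x, y, t, rfl⟩ : ∃ (x : E a) (y : E b) (t : E 1),
      z = Fin.append (Fin.append x y) t :=
    ⟨pl (pl z), pr (pl z), pr z, by rw [append_pl_pr, append_pl_pr]⟩
  have z1 : (Fin.append (0 : E b) (0 : E 1) : E (b + 1)) = 0 := by
    ext r
    refine Fin.addCases (fun r => ?_) (fun r => ?_) r <;> simp
  have z2 : (Fin.append (0 : E a) (0 : E b) : E (a + b)) = 0 := by
    ext r
    refine Fin.addCases (fun r => ?_) (fun r => ?_) r <;> simp
  refine Fin.addCases (fun i => ?_) (fun k => ?_) i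
  · refine Fin.addCases (fun i => ?_) (fun j => ?_) i
    · rw [pfr_left, pl_append, pfr_left, pl_append, append_assoc_one, append_assoc_one, z1]
      have := pfr_left e₁ (pfr e₂ e₃) i (Fin.append x (Fin.append y t : E (b + 1)))
      rw [pl_append] at this
      exact this.symm
    · rw [pfr_left, pl_append, pfr_right, pr_append, append_assoc_one, append_assoc_one]
      have := pfr_right e₁ (pfr e₂ e₃) (Fin.castAdd 1 j)
        (Fin.append x (Fin.append y t : E (b + 1)))
      rw [pr_append, pfr_left, pl_append] at this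
      exact this.symm
  · rw [pfr_right, pr_append, ← z2, append_assoc_one, append_assoc_one]
    have := pfr_right e₁ (pfr e₂ e₃) (Fin.natAdd b k)
      (Fin.append x (Fin.append y t : E (b + 1)))
    rw [pr_append, pfr_right e₂ e₃, pr_append] at this
    have hk : (Fin.natAdd (a + b) k : Fin (a + (b + 1))) = Fin.natAdd a (Fin.natAdd b k) :=
      Fin.ext (Nat.add_assoc a b k)
    rw [← this, ← hk]

end SZ
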