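import Pool.Agent.P.MP_8db816_gt.SZ.Cl0

/-!
Local Riemannian spin geometry of an orthonormal frame on an open subset of `ℝⁿ`: structure
functions, Levi-Civita connection, scalar curvature, spin connection, Dirac operator, and maps with
a lift to `Spin(n)` or `Pin(n)`.
-/

noncomputable section

namespace SZ

open scoped ContDiff

variable {n : ℕ}

/-- `n` vector fields on `ℝⁿ`. -/
abbrev Fr (n : ℕ) := Fin n → E n → E n

/-- A smooth frame on `U`; it is declared orthonormal, which defines the metric. -/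
def IsFr (e : Fr n) (U : Set (E n)) : Prop :=
  (∀ i, ContDiffOn ℝ ∞ (e i) U) ∧ ∀ y ∈ U, LinearIndependent ℝ fun i => e i y

/-- The derivative `e_i f`. -/
def der {F : Type} [NormedAddCommGroup F] [NormedSpace ℝ F] (e : Fr n) (i : Fin n) (f : E n → F)
    (y : E n) : F :=
  fderiv ℝ f y (e i y)

/-- The structure functions: `[e_i, e_j] = ∑ c_ijk e_k`. -/
def cst (e : Fr n) (i j k : Fin n) (y : E n) : ℝ :=
  (Matrix.of fun r s => e s y r)⁻¹.mulVec (VectorField.lieBracket ℝ (e i) (e j) y) k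

/-- The Levi-Civita connection `Γ_ijk = <∇_{e_i} e_j, e_k>` (Koszul formula). -/
def gam (e : Fr n) (i j k : Fin n) (y : E n) : ℝ :=
  (cst e i j k y - cst e j k i y + cst e k i j y) / 2

/-- The scalar curvature `∑_{ij} <R(e_i, e_j) e_j, e_i>`. -/
def scal (e : Fr n) (y : E n) : ℝ :=
  ∑ i, ∑ j, (der e i (gam e j j i) y - der e j (gam e i j i) y +
    ∑ m, (gam e j j m y * gam e i m i y - gam e i j m y * gam e j m i y -
      cst e i j m y * gam e m j i y))

/-- The spin connection `∇_i ψ = e_i ψ + (1/4) ∑ Γ_ijk e_j e_k ψ`. -/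
def nab (e : Fr n) (i : Fin n) (ψ : E n → Cl n) (y : E n) : Cl n :=
  der e i ψ y + (1 / 4 : ℝ) • ∑ j, ∑ k, gam e i j k y • (cl j * cl k * ψ y)

/-- The (`Cl n`-linear) Dirac operator `∑ e_i ∇_i`. -/
def dirac (e : Fr n) (ψ : E n → Cl n) (y : E n) : Cl n := ∑ i, cl i * nab e i ψ y

/-- `σ ∈ Pin(q)` is even, that is in `Spin(q)`, if `p = 1` and odd if `p = -1`, and `A v = B w`
whenever the twisted adjoint action of `σ` takes `v` to `w`. -/
def PinLift {M : Type} [AddCommGroup M] [Module ℝ M] (q : QuadraticForm ℝ M) (p : ℝ)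
    (σ : CliffordAlgebra q) (A B : M → M) : Prop :=
  σ ∈ pinGroup q ∧ CliffordAlgebra.involute σ = p • σ ∧
    ∀ v w, CliffordAlgebra.involute σ * CliffordAlgebra.ι q v * star σ = CliffordAlgebra.ι q w →
      A v = B w

/-- On `U`, the map `τ` is an isometry from the frame `e` to the frame `e'`, and `σ` is a smooth lift
to `Pin(n)`, of parity `p`, of the matrix of its differential. -/
def Lift (p : ℝ) (e e' : Fr n) (U : Set (E n)) (τ : E n → E n) (σ : E n → Cl n) : Prop :=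
  ContDiffOn ℝ ∞ τ U ∧ ContDiffOn ℝ ∞ σ U ∧ ∀ y ∈ U, PinLift (Q n) p (σ y)
    (fun v => fderiv ℝ τ y (∑ j, v j • e j y)) fun w => ∑ i, w i • e' i (τ y)

theorem lift_iff {p : ℝ} {e e' : Fr n} {U : Set (E n)} {τ : E n → E n} {σ : E n → Cl n} :
    Lift p e e' U τ σ ↔ ContDiffOn ℝ ∞ τ U ∧ ContDiffOn ℝ ∞ σ U ∧ ∀ y ∈ U, σ y ∈ pinGroup (Q n) ∧
      CliffordAlgebra.involute (σ y) = p • σ y ∧
      ∀ v w : E n, CliffordAlgebra.involute (σ y) * vec v * star (σ y) = vec w →
        fderiv ℝ τ y (∑ j, v j • e j y) = ∑ i, w i • e' i (τ y) := Iff.rfl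

end SZ
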