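import Pool.Agent.P.MP_8db816_gt.SZ.Fun

/-! The integral with respect to the Riemannian measure. -/

noncomputable section

namespace SZ

open Set Filter Topology MeasureTheory
open scoped ContDiff

namespace Meas

section Pull

variable {X Y : Type} [TopologicalSpace X] [TopologicalSpace Y] [MeasurableSpace X] [BorelSpace X]
  [MeasurableSpace Y] [BorelSpace Y]

/-- The measure on the source of `φ` that corresponds to `ν` on the target. -/
def pull (φ : OpenPartialHomeomorph X Y) (ν : Measure Y) : Measure X :=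
  Measure.map (φ.symm.source.domRestrict φ.symm) (Measure.comap Subtype.val ν)

theorem pull_apply (φ : OpenPartialHomeomorph X Y) (ν : Measure Y) (S : Set X) :
    pull φ ν S = ν (φ.target ∩ φ.symm ⁻¹' S) := by
  rw [pull, φ.symm.isOpenEmbedding_restrict.measurableEmbedding.map_apply,
    (MeasurableEmbedding.subtype_coe φ.symm.open_source.measurableSet).comap_apply]
  congr 1
  ext y
  constructor
  · rintro ⟨z, hz, rfl⟩
    exact ⟨z.2, hz⟩
  · rintro ⟨h1, h2⟩
    exact ⟨⟨y, h1⟩, h2, rfl⟩

theorem integral_pull (φ : OpenPartialHomeomorph X Y) (ν : Measure Y) (F : X → ℝ) :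
    ∫ x, F x ∂pull φ ν = ∫ y in φ.target, F (φ.symm y) ∂ν := by
  rw [pull, φ.symm.isOpenEmbedding_restrict.measurableEmbedding.integral_map]
  exact integral_subtype_comap φ.open_target.measurableSet fun y => F (φ.symm y)

theorem meas_pre (φ : OpenPartialHomeomorph X Y) {P : Set Y} (hP : MeasurableSet P) :
    MeasurableSet (φ.source ∩ φ ⁻¹' P) := by
  have h := (MeasurableEmbedding.subtype_coe φ.open_source.measurableSet).measurableSet_image.2
    (φ.isOpenEmbedding_restrict.measurableEmbedding.measurable hP)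
  convert h using 1
  ext y
  constructor
  · rintro ⟨h1, h2⟩
    exact ⟨⟨y, h1⟩, h2, rfl⟩
  · rintro ⟨z, hz, rfl⟩
    exact ⟨z.2, hz⟩

theorem meas_pre' (φ : OpenPartialHomeomorph X Y) {S : Set X} (hS : MeasurableSet S) :
    MeasurableSet (φ.target ∩ φ.symm ⁻¹' S) := meas_pre φ.symm hS

theorem meas_image (φ : OpenPartialHomeomorph X Y) {S : Set X} (hS : MeasurableSet S)
    (h : S ⊆ φ.source) : MeasurableSet (φ '' S) := by
  rw [φ.image_eq_target_inter_inv_preimage h]
  exact meas_pre φ.symm hS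

end Pull

variable {n : ℕ}

theorem lint_lift {p : ℝ} {e e' : Fr n} {σ : E n → Cl n} {U U' : Set (E n)}
    (T : OpenPartialHomeomorph (E n) (E n)) (h : Lift p e e' T.source T σ) (he : IsFr e U)
    (he' : IsFr e' U') (hU : T.source ⊆ U) (hU' : T.target ⊆ U') {S : Set (E n)}
    (hS : MeasurableSet S) (hST : S ⊆ T.source) :
    ∫⁻ y in T '' S, ENNReal.ofReal (dens e' y) = ∫⁻ y in S, ENNReal.ofReal (dens e y) := by
  rw [lintegral_image_eq_lintegral_abs_det_fderiv_mul volume hS (f' := fderiv ℝ T)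
    (fun y hy => ((h.1.contDiffAt (T.open_source.mem_nhds (hST hy))).differentiableAt
      (by simp)).hasFDerivAt.hasFDerivWithinAt) (T.injOn.mono hST)]
  refine setLIntegral_congr_fun hS fun y hy => ?_
  rw [h.dens_eq (he.mono hU) (he'.mono hU') T.mapsTo (hST hy),
    ENNReal.ofReal_mul (abs_nonneg _)]

/-- The Borel sets. -/
@[reducible] def ms (M : Atl n) : MeasurableSpace M.X := borel M.X

attribute [local instance] ms

theorem bs (M : Atl n) : BorelSpace M.X := ⟨rfl⟩

attribute [local instance] bs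

/-- The Riemannian measure on one chart domain. -/
def muc (M : Atl n) (a : M.A) : Measure M.X :=
  pull (M.φ a) (volume.withDensity fun y => ENNReal.ofReal (dens (M.e a) y))

/-- An enumeration of the charts. -/
def enc (M : Atl n) : M.A → ℕ := (exists_injective_nat M.A).choose

theorem enc_inj (M : Atl n) : Function.Injective (enc M) := (exists_injective_nat M.A).choose_spec

/-- The part of the domain of the chart `a` that is not covered by earlier charts. -/
def pc (M : Atl n) (a : M.A) : Set M.X :=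
  (M.φ a).source \ ⋃ b, ⋃ _ : enc M b < enc M a, (M.φ b).source

/-- The Riemannian measure. -/
def mu (M : Atl n) : Measure M.X := Measure.sum fun a => (muc M a).restrict (pc M a)

variable {M N : Atl n}

theorem pc_meas (a : M.A) : MeasurableSet (pc M a) :=
  (M.φ a).open_source.measurableSet.diff
    (isOpen_iUnion fun b => isOpen_iUnion fun _ => (M.φ b).open_source).measurableSet

theorem pc_sub (a : M.A) : pc M a ⊆ (M.φ a).source := sdiff_subset

theorem pc_disj : Pairwise (Function.onFun Disjoint (pc M)) := fun a b hab => by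
  refine disjoint_left.2 fun x ha hb => ?_
  rcases lt_or_gt_of_ne ((enc_inj M).ne hab) with h | h
  · exact hb.2 (mem_iUnion₂.2 ⟨a, h, ha.1⟩)
  · exact ha.2 (mem_iUnion₂.2 ⟨b, h, hb.1⟩)

theorem exists_pc {x : M.X} (hx : x ∈ M.car) : ∃ a, x ∈ pc M a := by
  obtain ⟨a, ha, h⟩ := (InvImage.wf (enc M) wellFounded_lt).has_min
    {a | x ∈ (M.φ a).source} (Atl.mem_car.1 hx)
  refine ⟨a, ha, fun h0 => ?_⟩
  obtain ⟨b, hb, hx'⟩ := mem_iUnion₂.1 h0
  exact h b hx' hb

theorem muc_apply (a : M.A) {S : Set M.X} (hS : MeasurableSet S) :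
    muc M a S = ∫⁻ y in (M.φ a).target ∩ (M.φ a).symm ⁻¹' S, ENNReal.ofReal (dens (M.e a) y) := by
  rw [muc, pull_apply, withDensity_apply _ (meas_pre' (M.φ a) hS)]

theorem mu_apply {S : Set M.X} (hS : MeasurableSet S) : mu M S = ∑' a, muc M a (S ∩ pc M a) := by
  rw [mu, Measure.sum_apply _ hS]
  exact tsum_congr fun a => Measure.restrict_apply hS

theorem muc_image (j : Emb M N) (a : M.A) (b : N.A) {S : Set M.X} (hS : MeasurableSet S)
    (hj : S ⊆ j.f.source) (ha : S ⊆ (M.φ a).source) (hb : MapsTo j.f S (N.φ b).source) :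
    muc N b (j.f '' S) = muc M a S := by
  rw [muc_apply b (meas_image j.f hS hj), muc_apply a hS,
    ← lint_lift _ (j.lift b a) (M.fr a) (N.fr b) (fun y hy => hy.1) (fun y hy => hy.1.1)
      (meas_pre' (M.φ a) hS) fun y hy => ⟨hy.1, hj hy.2, hb hy.2⟩]
  congr 2
  rw [← (N.φ b).image_eq_target_inter_inv_preimage hb.image_subset, image_image]
  ext z
  constructor
  · rintro ⟨x, hx, rfl⟩
    refine ⟨M.φ a x, ⟨(M.φ a).map_source (ha hx), ?_⟩, ?_⟩
    · rwa [mem_preimage, (M.φ a).left_inv (ha hx)]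
    · change N.φ b (j.f ((M.φ a).symm (M.φ a x))) = _
      rw [(M.φ a).left_inv (ha hx)]
  · rintro ⟨y, hy, rfl⟩
    exact ⟨_, hy.2, rfl⟩

theorem mu_image_chart (j : Emb M N) (a : M.A) {S : Set M.X} (hS : MeasurableSet S)
    (hj : S ⊆ j.f.source) (ha : S ⊆ (M.φ a).source) : mu N (j.f '' S) = muc M a S := by
  have hm : ∀ b, MeasurableSet (S ∩ j.f ⁻¹' pc N b) := fun b => by
    have := hS.inter (meas_pre j.f (pc_meas b))
    rwa [← inter_assoc, inter_eq_left.2 hj] at this
  have hu : S = ⋃ b, S ∩ j.f ⁻¹' pc N b := by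
    refine Subset.antisymm (fun x hx => ?_) (iUnion_subset fun b => inter_subset_left)
    obtain ⟨b, hb⟩ := exists_pc (j.tgt (j.f.map_source (hj hx)))
    exact mem_iUnion.2 ⟨b, hx, hb⟩
  rw [mu_apply (meas_image j.f hS hj)]
  conv_rhs => rw [hu, measure_iUnion (fun b c hbc => ((pc_disj hbc).preimage j.f).mono
    inter_subset_right inter_subset_right) hm]
  refine tsum_congr fun b => ?_
  rw [← image_inter_preimage]
  exact muc_image j a b (hm b) (inter_subset_left.trans hj) (inter_subset_left.trans ha)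
    fun x hx => pc_sub b hx.2

theorem mu_chart (a : M.A) {S : Set M.X} (hS : MeasurableSet S) (ha : S ⊆ (M.φ a).source) :
    mu M S = muc M a S := by
  rw [← mu_image_chart (Emb.id M) a hS (ha.trans (M.source_subset a)) ha]
  exact congrArg _ (image_id S).symm

theorem mu_image (j : Emb M N) {S : Set M.X} (hS : MeasurableSet S) (hj : S ⊆ j.f.source) :
    mu N (j.f '' S) = mu M S := by
  have hu : j.f '' S = ⋃ a, j.f '' (S ∩ pc M a) := by
    rw [← image_iUnion]
    congr 1
    refine Subset.antisymm (fun x hx => ?_) (iUnion_subset fun b => inter_subset_left)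
    obtain ⟨b, hb⟩ := exists_pc (j.src (hj hx))
    exact mem_iUnion.2 ⟨b, hx, hb⟩
  rw [hu, measure_iUnion (fun a b hab => (((pc_disj hab).mono inter_subset_right
    inter_subset_right).image j.f.injOn (inter_subset_left.trans hj) (inter_subset_left.trans hj)))
    fun a => meas_image j.f (hS.inter (pc_meas a)) (inter_subset_left.trans hj), mu_apply hS]
  exact tsum_congr fun a => mu_image_chart j a (hS.inter (pc_meas a)) (inter_subset_left.trans hj)
    (inter_subset_right.trans (pc_sub a))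

theorem restrict_chart (a : M.A) : (mu M).restrict (M.φ a).source = muc M a := by
  ext S hS
  have h := hS.inter (M.φ a).open_source.measurableSet
  rw [Measure.restrict_apply hS, mu_chart a h inter_subset_right, muc_apply a h, muc_apply a hS]
  congr 2
  ext y
  exact ⟨fun hy => ⟨hy.1, hy.2.1⟩, fun hy => ⟨hy.1, hy.2, (M.φ a).map_target hy.1⟩⟩

theorem restrict_emb (j : Emb M N) : (mu M).restrict j.f.source = pull j.f (mu N) := by
  ext S hS
  rw [Measure.restrict_apply hS, pull_apply, ← j.f.image_source_inter_eq', inter_comm S,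
    mu_image j (j.f.open_source.measurableSet.inter hS) inter_subset_left]

theorem ae_car (M : Atl n) : ∀ᵐ x ∂mu M, x ∈ M.car := by
  change mu M M.carᶜ = 0
  rw [mu_apply M.isOpen_car.measurableSet.compl, ENNReal.tsum_eq_zero]
  intro a
  rw [eq_empty_of_forall_notMem (s := M.carᶜ ∩ pc M a)
    fun x hx => hx.1 (M.source_subset a (pc_sub a hx.2)), measure_empty]

theorem lt_top {K : Set M.X} (hK : IsCompact K) (hKM : K ⊆ M.car) : mu M K < ⊤ := by
  refine hK.measure_lt_top_of_nhdsWithin fun x hx => ?_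
  obtain ⟨a, ha⟩ := Atl.mem_car.1 (hKM hx)
  obtain ⟨L, hL, hLt, hLc⟩ := local_compact_nhds
    ((M.φ a).open_target.mem_nhds ((M.φ a).map_source ha))
  have hm := meas_pre (M.φ a) hLc.measurableSet
  refine ⟨(M.φ a).source ∩ M.φ a ⁻¹' L, mem_nhdsWithin_of_mem_nhds
    (inter_mem ((M.φ a).open_source.mem_nhds ha) ((M.φ a).continuousAt ha hL)), ?_⟩
  rw [mu_chart a hm inter_subset_left, muc_apply a hm]
  refine (lintegral_mono_set (t := L) fun y hy => ?_).trans_lt
    (((M.fr a).contDiffOn_dens.continuousOn.mono hLt).integrableOn_compact hLc).lintegral_lt_top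
  have h := hy.2.2
  rwa [mem_preimage, (M.φ a).right_inv hy.1] at h

theorem ne_zero {U : Set M.X} (hU : IsOpen U) {x : M.X} (hx : x ∈ U) (hxM : x ∈ M.car) :
    mu M U ≠ 0 := by
  obtain ⟨a, ha⟩ := Atl.mem_car.1 hxM
  intro h0
  have hm := (hU.inter (M.φ a).open_source).measurableSet
  have h1 : mu M (U ∩ (M.φ a).source) = 0 := measure_mono_null inter_subset_left h0
  have hV : IsOpen ((M.φ a).target ∩ (M.φ a).symm ⁻¹' (U ∩ (M.φ a).source)) :=
    (M.φ a).symm.isOpen_inter_preimage (hU.inter (M.φ a).open_source)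
  rw [mu_chart a hm inter_subset_right, muc_apply a hm, lintegral_eq_zero_iff'
    (((M.fr a).contDiffOn_dens.continuousOn.mono inter_subset_left).aemeasurable
      hV.measurableSet).ennreal_ofReal] at h1
  refine hV.measure_ne_zero volume ⟨M.φ a x, (M.φ a).map_source ha, ?_⟩ ?_
  · rw [mem_preimage, (M.φ a).left_inv ha]
    exact ⟨hx, ha⟩
  · rw [← Measure.restrict_eq_zero, ← ae_eq_bot, ← eventually_false_iff_eq_bot]
    filter_upwards [h1, ae_restrict_mem hV.measurableSet] with y h2 h3
    exact (ENNReal.ofReal_pos.2 ((M.fr a).dens_pos h3.1)).ne' h2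

theorem int_eq_set {F : M.X → ℝ} {S : Set M.X} (h : ∀ x ∈ M.car, x ∉ S → F x = 0) :
    ∫ x, F x ∂mu M = ∫ x in S, F x ∂mu M :=
  (setIntegral_eq_integral_of_ae_compl_eq_zero ((ae_car M).mono h)).symm

end Meas

attribute [local instance] Meas.ms Meas.bs

variable {n : ℕ} {M : Atl n} {F G : M.X → ℝ}

/-- A test function: continuous on the manifold, with compact support. -/
def Atl.Tst (M : Atl n) (F : M.X → ℝ) : Prop :=
  ContinuousOn F M.car ∧ ∃ K, IsCompact K ∧ K ⊆ M.car ∧ ∀ x ∈ M.car, x ∉ K → F x = 0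

/-- The integral with respect to the Riemannian measure. (The definition is up to the prover of this
file: the Bochner integral for a Borel measure on `M.X` concentrated on `M.car`. The other files only
use the lemmas below.) -/
def Atl.int (M : Atl n) (F : M.X → ℝ) : ℝ := ∫ x, F x ∂Meas.mu M

theorem Atl.Tst.integrable (h : M.Tst F) : Integrable F (Meas.mu M) := by
  obtain ⟨hc, K, hK, hKM, h0⟩ := h
  obtain ⟨C, hC⟩ := hK.exists_bound_of_continuousOn (hc.mono hKM)
  exact (IntegrableOn.of_bound (Meas.lt_top hK hKM)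
    ((hc.mono hKM).aestronglyMeasurable hK.measurableSet) C
    ((ae_restrict_mem hK.measurableSet).mono hC)).integrable_of_ae_notMem_eq_zero
      ((Meas.ae_car M).mono h0)

theorem Atl.tst_zero : M.Tst fun _ => 0 :=
  ⟨continuousOn_const, ∅, isCompact_empty, empty_subset _, fun _ _ _ => rfl⟩

theorem Atl.Tst.congr (h : M.Tst F) (hFG : EqOn G F M.car) : M.Tst G := by
  obtain ⟨hc, K, hK, hKM, h0⟩ := h
  exact ⟨hc.congr hFG, K, hK, hKM, fun x hx hx' => (hFG hx).trans (h0 x hx hx')⟩

theorem Atl.Tst.add (hF : M.Tst F) (hG : M.Tst G) : M.Tst fun x => F x + G x := by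
  obtain ⟨hc, K, hK, hKM, h0⟩ := hF
  obtain ⟨hc', K', hK', hKM', h0'⟩ := hG
  refine ⟨hc.add hc', K ∪ K', hK.union hK', union_subset hKM hKM', fun x hx hx' => ?_⟩
  simp only [h0 x hx fun h => hx' (Or.inl h), h0' x hx fun h => hx' (Or.inr h), add_zero]

theorem Atl.Tst.sub (hF : M.Tst F) (hG : M.Tst G) : M.Tst fun x => F x - G x := by
  obtain ⟨hc, K, hK, hKM, h0⟩ := hF
  obtain ⟨hc', K', hK', hKM', h0'⟩ := hG
  refine ⟨hc.sub hc', K ∪ K', hK.union hK', union_subset hKM hKM', fun x hx hx' => ?_⟩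
  simp only [h0 x hx fun h => hx' (Or.inl h), h0' x hx fun h => hx' (Or.inr h), sub_zero]

theorem Atl.Tst.mul_left (hF : M.Tst F) (hG : ContinuousOn G M.car) :
    M.Tst fun x => G x * F x := by
  obtain ⟨hc, K, hK, hKM, h0⟩ := hF
  exact ⟨hG.mul hc, K, hK, hKM, fun x hx hx' => by simp only [h0 x hx hx', mul_zero]⟩

theorem Atl.Tst.mul_right (hF : M.Tst F) (hG : ContinuousOn G M.car) :
    M.Tst fun x => F x * G x := by
  obtain ⟨hc, K, hK, hKM, h0⟩ := hF
  exact ⟨hc.mul hG, K, hK, hKM, fun x hx hx' => by simp only [h0 x hx hx', zero_mul]⟩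

theorem Atl.tst_sum {ι : Type} (s : Finset ι) {F : ι → M.X → ℝ} (h : ∀ i ∈ s, M.Tst (F i)) :
    M.Tst fun x => ∑ i ∈ s, F i x := by
  classical
  induction s using Finset.induction_on with
  | empty => simpa using Atl.tst_zero
  | insert a s ha ih =>
    simp only [Finset.sum_insert ha]
    exact (h a (Finset.mem_insert_self _ _)).add (ih fun i hi => h i (Finset.mem_insert_of_mem hi))

theorem Atl.int_congr (h : EqOn F G M.car) : M.int F = M.int G :=
  integral_congr_ae ((Meas.ae_car M).mono h)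

theorem Atl.int_zero : (M.int fun _ => 0) = 0 := integral_zero _ _

theorem Atl.int_add (hF : M.Tst F) (hG : M.Tst G) :
    (M.int fun x => F x + G x) = M.int F + M.int G := integral_add hF.integrable hG.integrable

theorem Atl.int_sub (hF : M.Tst F) (hG : M.Tst G) :
    (M.int fun x => F x - G x) = M.int F - M.int G := integral_sub hF.integrable hG.integrable

theorem Atl.int_neg (F : M.X → ℝ) : (M.int fun x => -F x) = -M.int F := integral_neg _

theorem Atl.int_const_mul (c : ℝ) (F : M.X → ℝ) : (M.int fun x => c * F x) = c * M.int F :=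
  integral_const_mul _ _

theorem Atl.int_sum {ι : Type} (s : Finset ι) {F : ι → M.X → ℝ} (h : ∀ i ∈ s, M.Tst (F i)) :
    (M.int fun x => ∑ i ∈ s, F i x) = ∑ i ∈ s, M.int (F i) :=
  integral_finsetSum s fun i hi => (h i hi).integrable

theorem Atl.int_nonneg (h : ∀ x ∈ M.car, 0 ≤ F x) : 0 ≤ M.int F :=
  integral_nonneg_of_ae ((Meas.ae_car M).mono h)

theorem Atl.int_mono (hF : M.Tst F) (hG : M.Tst G) (h : ∀ x ∈ M.car, F x ≤ G x) :
    M.int F ≤ M.int G :=
  integral_mono_ae hF.integrable hG.integrable ((Meas.ae_car M).mono h)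

theorem Atl.eq_zero_of_int (hF : M.Tst F) (h0 : ∀ x ∈ M.car, 0 ≤ F x) (h : M.int F = 0) :
    ∀ x ∈ M.car, F x = 0 := by
  intro x hx
  by_contra h1
  have h2 := (integral_eq_zero_iff_of_nonneg_ae ((Meas.ae_car M).mono h0) hF.integrable).1 h
  exact Meas.ne_zero (hF.1.isOpen_inter_preimage M.isOpen_car (isOpen_compl_singleton (x := 0)))
    ⟨hx, h1⟩ hx (measure_mono_null (fun y hy => hy.2) h2)

/-- The integral of a function that vanishes outside a chart domain. -/
theorem Atl.int_chart (a : M.A) (h : ∀ x ∈ M.car, x ∉ (M.φ a).source → F x = 0) :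
    M.int F = ∫ y in (M.φ a).target, dens (M.e a) y * F ((M.φ a).symm y) := by
  have hm := (M.φ a).open_target.measurableSet
  rw [Atl.int, Meas.int_eq_set h, Meas.restrict_chart, Meas.muc, Meas.integral_pull,
    restrict_withDensity hm, integral_withDensity_eq_integral_toReal_smul₀
      ((M.fr a).contDiffOn_dens.continuousOn.aemeasurable hm).ennreal_ofReal
      (Eventually.of_forall fun _ => ENNReal.ofReal_lt_top)]
  simp only [ENNReal.toReal_ofReal (dens_nonneg _ _), smul_eq_mul]

/-- Invariance under isometries. -/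
theorem Emb.int_eq {N : Atl n} (j : Emb M N) {F' : N.X → ℝ}
    (h : ∀ x ∈ M.car, x ∉ j.f.source → F x = 0) (h' : ∀ y ∈ N.car, y ∉ j.f.target → F' y = 0)
    (hF : ∀ x ∈ j.f.source, F' (j.f x) = F x) : N.int F' = M.int F := by
  rw [Atl.int, Atl.int, Meas.int_eq_set h, Meas.int_eq_set h', Meas.restrict_emb,
    Meas.integral_pull]
  refine setIntegral_congr_fun j.f.open_target.measurableSet fun y hy => ?_
  rw [← hF _ (j.f.map_target hy), j.f.right_inv hy]

/-- Compact sets have finite volume. -/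
theorem Atl.int_le_of_compact {K : Set M.X} (hK : IsCompact K) (hKM : K ⊆ M.car) :
    ∃ C : ℝ, 0 ≤ C ∧ ∀ (F : M.X → ℝ) (δ : ℝ), 0 ≤ δ → (∀ x ∈ M.car, x ∉ K → F x = 0) →
      (∀ x ∈ K, |F x| ≤ δ) → |M.int F| ≤ C * δ := by
  refine ⟨(Meas.mu M).real K, measureReal_nonneg, fun F δ _ h0 h1 => ?_⟩
  rw [Atl.int, Meas.int_eq_set h0, mul_comm]
  exact norm_setIntegral_le_of_norm_le_const (f := F) (Meas.lt_top hK hKM) h1

end SZ
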