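import Pool.Agent.P.MP_8db816_gt.SZ.SecOp
import Pool.Agent.P.MP_8db816_gt.SZ.MeasProd

/-! Exterior products of sections. -/

noncomputable section

namespace SZ

open Set CliffordAlgebra Filter Topology MeasureTheory Atl.Sec
open scoped ContDiff RealInnerProductSpace

variable {a b : ℕ} {M : Atl a} {N : Atl b}

private theorem ten_off (ψ : M.Sec) (χ : N.Sec) (c : M.A × N.A) {z : M.X × N.X}
    (hz : z ∉ ((M.prod N).φ c).source) : ψ.fam c.1 z.1 = 0 ∨ χ.fam c.2 z.2 = 0 := by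
  by_cases h1 : z.1 ∈ (M.φ c.1).source
  · exact Or.inr (χ.ok.off _ _ fun h2 => hz ⟨h1, h2⟩)
  · exact Or.inl (ψ.ok.off _ _ h1)

theorem isSec_tens (ψ : M.Sec) (χ : N.Sec) :
    IsSec (M.prod N) fun c z => ten (ψ.fam c.1 z.1) (χ.fam c.2 z.2) where
  sm c := by
    have h1 : ContDiffOn ℝ ∞ (fun w : E (a + b) => inl a b ((ψ.fam c.1 ∘ (M.φ c.1).symm) (pl w)))
        ((M.prod N).φ c).target :=
      contDiff_inl.comp_contDiffOn
        ((ψ.ok.sm c.1).comp (LocProd.plL a b).contDiff.contDiffOn fun _ hw => hw.1)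
    have h2 : ContDiffOn ℝ ∞ (fun w : E (a + b) => inr a b ((χ.fam c.2 ∘ (N.φ c.2).symm) (pr w)))
        ((M.prod N).φ c).target :=
      contDiff_inr.comp_contDiffOn
        ((χ.ok.sm c.2).comp (LocProd.prL a b).contDiff.contDiffOn fun _ hw => hw.2)
    exact h1.clmul h2
  off c z hz := by
    rcases ten_off ψ χ c hz with h | h <;> simp [ten, h]
  cmp c d z hc hd := by
    change inl a b _ * inr a b _ = inl a b (M.s c.1 d.1 z.1) * inr a b (N.s c.2 d.2 z.2) *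
      (inl a b _ * inr a b _)
    rw [mul_assoc, ← mul_assoc (inr a b _), inr_mul_inl_of_even (N.s_mem hc.2 hd.2).2, mul_assoc,
      ← mul_assoc, ← map_mul, ← map_mul, ← ψ.ok.cmp _ _ _ hc.1 hd.1, ← χ.ok.cmp _ _ _ hc.2 hd.2]
  cpt := by
    obtain ⟨K, hK, hKM, h0⟩ := ψ.ok.cpt
    obtain ⟨L, hL, hLN, h0'⟩ := χ.ok.cpt
    refine ⟨K ×ˢ L, hK.prod hL, ?_, fun c z hz => ?_⟩
    · rw [Atl.car_prod]
      exact prod_mono hKM hLN
    · by_cases h1 : z.1 ∈ K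
      · have h2 : z.2 ∉ L := fun h2 => hz ⟨h1, h2⟩
        simp [ten, h0' _ _ h2]
      · simp [ten, h0 _ _ h1]

/-- The exterior product of two sections. -/
def tens₀ (ψ : M.Sec) (χ : N.Sec) : (M.prod N).Sec := mk' _ (isSec_tens ψ χ)

private theorem fam_tens₀ (ψ : M.Sec) (χ : N.Sec) (c : M.A × N.A) (z : M.X × N.X) :
    (tens₀ ψ χ).fam c z = inl a b (ψ.fam c.1 z.1) * inr a b (χ.fam c.2 z.2) := rfl

theorem tens₀_add_left (ψ ψ' : M.Sec) (χ : N.Sec) :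
    tens₀ (ψ + ψ') χ = tens₀ ψ χ + tens₀ ψ' χ :=
  Atl.Sec.ext fun c z => by
    rw [fam_add, fam_tens₀, fam_tens₀, fam_tens₀, fam_add, map_add, add_mul]

theorem tens₀_smul_left (c : ℝ) (ψ : M.Sec) (χ : N.Sec) : tens₀ (c • ψ) χ = c • tens₀ ψ χ :=
  Atl.Sec.ext fun d z => by
    rw [fam_smul, fam_tens₀, fam_tens₀, fam_smul, map_smul, smul_mul_assoc]

theorem tens₀_add_right (ψ : M.Sec) (χ χ' : N.Sec) :
    tens₀ ψ (χ + χ') = tens₀ ψ χ + tens₀ ψ χ' :=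
  Atl.Sec.ext fun c z => by
    rw [fam_add, fam_tens₀, fam_tens₀, fam_tens₀, fam_add, map_add, mul_add]

theorem tens₀_smul_right (c : ℝ) (ψ : M.Sec) (χ : N.Sec) : tens₀ ψ (c • χ) = c • tens₀ ψ χ :=
  Atl.Sec.ext fun d z => by
    rw [fam_smul, fam_tens₀, fam_tens₀, fam_smul, map_smul, mul_smul_comm]

/-- The exterior product as a bilinear map. -/
def tens (M : Atl a) (N : Atl b) : M.Sec →ₗ[ℝ] N.Sec →ₗ[ℝ] (M.prod N).Sec :=
  LinearMap.mk₂ ℝ tens₀ tens₀_add_left tens₀_smul_left tens₀_add_right tens₀_smul_right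

theorem fam_tens (ψ : M.Sec) (χ : N.Sec) (c : M.A × N.A) (z : M.X × N.X) :
    (tens M N ψ χ).fam c z = ten (ψ.fam c.1 z.1) (χ.fam c.2 z.2) := rfl

theorem inner_ev_tens (ψ ψ' : M.Sec) (χ χ' : N.Sec) (z : M.X × N.X) :
    ⟪(tens M N ψ χ).ev z, (tens M N ψ' χ').ev z⟫ =
      ⟪ψ.ev z.1, ψ'.ev z.1⟫ * ⟪χ.ev z.2, χ'.ev z.2⟫ := by
  by_cases hz : z ∈ (M.prod N).car
  · obtain ⟨c, hc⟩ := Atl.mem_car.1 hz
    rw [inner_ev _ _ hc, inner_ev ψ ψ' (a := c.1) hc.1, inner_ev χ χ' (a := c.2) hc.2, fam_tens,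
      fam_tens]
    exact inner_inl_inr _ _ _ _
  · rw [ev_of_notMem _ hz, inner_zero_left]
    rw [Atl.car_prod] at hz
    by_cases h1 : z.1 ∈ M.car
    · have h2 : z.2 ∉ N.car := fun h2 => hz ⟨h1, h2⟩
      rw [ev_of_notMem χ h2, inner_zero_left, mul_zero]
    · rw [ev_of_notMem ψ h1, inner_zero_left, zero_mul]

theorem inner_tens (ψ : M.Sec) (χ : N.Sec) (ψ' : M.Sec) (χ' : N.Sec) :
    ⟪tens M N ψ χ, tens M N ψ' χ'⟫ = ⟪ψ, ψ'⟫ * ⟪χ, χ'⟫ := by
  rw [Atl.Sec.inner_def, Atl.Sec.inner_def, Atl.Sec.inner_def,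
    ← Atl.int_prod (tst_inner ψ ψ') (tst_inner χ χ')]
  congr 1
  funext z
  exact inner_ev_tens ψ ψ' χ χ' z

theorem dir_tens (ψ : M.Sec) (χ : N.Sec) : (M.prod N).Dir (tens M N ψ χ) =
    tens M N (M.Dir ψ) χ + tens M N (M.cend involute.toLinearMap ψ) (N.Dir χ) := by
  refine Atl.Sec.ext fun c z => ?_
  by_cases hz : z ∈ ((M.prod N).φ c).source
  · have hz1 : z.1 ∈ (M.φ c.1).source := hz.1
    have hz2 : z.2 ∈ (N.φ c.2).source := hz.2
    have e1 : pl ((M.prod N).φ c z) = M.φ c.1 z.1 := pl_append _ _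
    have e2 : pr ((M.prod N).φ c z) = N.φ c.2 z.2 := pr_append _ _
    have t1 : pl ((M.prod N).φ c z) ∈ (M.φ c.1).target := e1 ▸ (M.φ c.1).map_source hz1
    have t2 : pr ((M.prod N).φ c z) ∈ (N.φ c.2).target := e2 ▸ (N.φ c.2).map_source hz2
    have d1 : DifferentiableAt ℝ (ψ.fam c.1 ∘ (M.φ c.1).symm) (pl ((M.prod N).φ c z)) :=
      ((ψ.ok.sm c.1).contDiffAt ((M.φ c.1).open_target.mem_nhds t1)).differentiableAt (by simp)
    have d2 : DifferentiableAt ℝ (χ.fam c.2 ∘ (N.φ c.2).symm) (pr ((M.prod N).φ c z)) :=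
      ((χ.ok.sm c.2).contDiffAt ((N.φ c.2).open_target.mem_nhds t2)).differentiableAt (by simp)
    have h := dirac_pfr (M.fr c.1) (N.fr c.2) (M.φ c.1).open_target (N.φ c.2).open_target t1 t2 d1 d2
    rw [e1, e2, Function.comp_apply, Function.comp_apply, (M.φ c.1).left_inv hz1,
      (N.φ c.2).left_inv hz2] at h
    rw [fam_add, fam_tens, fam_tens, fam_dir _ hz, fam_dir ψ hz1, fam_dir χ hz2,
      fam_cend (eqv_involute M)]
    exact h
  · rw [Atl.Sec.ok _ |>.off c z hz, Atl.Sec.ok _ |>.off c z hz]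

theorem op_tens {G : Gr (a + b)} {G₂ : Gr b} (hG : G.IsProd G₂) {φ : N.X → ℝ} (hφ : N.Sm φ)
    (ψ : M.Sec) (χ : N.Sec) : (M.prod N).Op G (fun z => φ z.2) (tens M N ψ χ) =
      tens M N (M.Dir ψ) χ + tens M N (M.cend involute.toLinearMap ψ) (N.Op G₂ φ χ) := by
  have h : (M.prod N).mul (fun z => φ z.2) ((M.prod N).cend G.R (tens M N ψ χ)) =
      tens M N (M.cend involute.toLinearMap ψ) (N.mul φ (N.cend G₂.R χ)) := by
    refine Atl.Sec.ext fun c z => ?_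
    rw [fam_mul hφ.snd, fam_cend (G.eqv_R _), fam_tens, fam_tens, fam_cend (eqv_involute M),
      fam_mul hφ, fam_cend (G₂.eqv_R _), ten, ten, hG.2.1, map_smul, mul_smul_comm]
    rfl
  simp only [Atl.Op, LinearMap.add_apply, LinearMap.comp_apply]
  rw [dir_tens, h, map_add, add_assoc]

theorem eps_tens (ha : 8 ∣ a) {G : Gr (a + b)} {G₂ : Gr b} (hG : G.IsProd G₂) (ψ : M.Sec)
    (χ : N.Sec) : (M.prod N).cend G.ε (tens M N ψ χ) =
      tens M N (M.cend (grEven a ha).ε ψ) (N.cend G₂.ε χ) := by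
  refine Atl.Sec.ext fun c z => ?_
  rw [fam_cend (G.eqv_ε _), fam_tens, fam_tens, fam_cend ((grEven a ha).eqv_ε _),
    fam_cend (G₂.eqv_ε _), ten, ten, hG.2.2]
  rfl

theorem eqv_inl_vol (ha : 8 ∣ a) (M : Atl a) (N : Atl b) :
    (M.prod N).Eqv (LinearMap.mulLeft ℝ (inl a b (vol a))) := by
  intro c d z hc hd w
  have h : vol a * M.s c.1 d.1 z.1 = M.s c.1 d.1 z.1 * vol a := by
    have h := (grEven a ha).eqv_ε M c.1 d.1 z.1 hc.1 hd.1 1
    change vol a * (_ * 1) = _ * (vol a * 1) at h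
    rwa [mul_one, mul_one] at h
  change inl a b (vol a) * (inl a b (M.s c.1 d.1 z.1) * inr a b (N.s c.2 d.2 z.2) * w) =
    inl a b (M.s c.1 d.1 z.1) * inr a b (N.s c.2 d.2 z.2) * (inl a b (vol a) * w)
  rw [← mul_assoc, ← mul_assoc, ← mul_assoc, ← map_mul, h, map_mul, mul_assoc (inl a b _) (inr a b _),
    inr_mul_inl_of_even (N.s_mem hc.2 hd.2).2, ← mul_assoc]

theorem kappa_tens (ha : 8 ∣ a) (ψ : M.Sec) (χ : N.Sec) :
    (M.prod N).cend (LinearMap.mulLeft ℝ (inl a b (vol a))) (tens M N ψ χ) =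
      tens M N (M.cend (grEven a ha).ε ψ) χ := by
  refine Atl.Sec.ext fun c z => ?_
  rw [fam_cend (eqv_inl_vol ha M N), fam_tens, fam_tens, fam_cend ((grEven a ha).eqv_ε _)]
  change inl a b (vol a) * (inl a b _ * inr a b _) = inl a b (vol a * _) * inr a b _
  rw [map_mul, mul_assoc]

end SZ
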