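import Pool.Agent.P.MP_8db816_gt.SZ.Cpl

/-! The gluing formula for the index. -/

noncomputable section

namespace SZ

open Set CliffordAlgebra Filter Topology
open scoped ContDiff RealInnerProductSpace

variable {m : ℕ} {N : Atl (m + 1)}

open Classical in
/-- The collar coordinate of `L` transported along `i`, extended by zero. -/
def Col.sideτ (L : Col m) (i : Emb L.Z N) (y : N.X) : ℝ :=
  if y ∈ i.f.target then L.τ (i.f.symm y) else 0

theorem Col.sideτ_of_mem (L : Col m) (i : Emb L.Z N) {y : N.X} (hy : y ∈ i.f.target) :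
    L.sideτ i y = L.τ (i.f.symm y) := if_pos hy

theorem Col.sideτ_of_notMem (L : Col m) (i : Emb L.Z N) {y : N.X} (hy : y ∉ i.f.target) :
    L.sideτ i y = 0 := if_neg hy

theorem Col.sideτ_apply (L : Col m) (i : Emb L.Z N) {z : L.Z.X} (hz : z ∈ i.f.source) :
    L.sideτ i (i.f z) = L.τ z := by
  rw [L.sideτ_of_mem i (i.f.map_source hz), i.f.left_inv hz]

theorem Col.continuousAt_sideτ (L : Col m) (i : Emb L.Z N) (hi : i.f.source = L.Z.car)
    (y : N.X) : ContinuousAt (L.sideτ i) y := by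
  by_cases hy : y ∈ i.f.target
  · have h1 : ContinuousAt i.f.symm y := i.f.continuousAt_symm hy
    have h2 : i.f.symm y ∈ L.Z.car := hi ▸ i.f.map_target hy
    have h3 : ContinuousAt L.τ (i.f.symm y) :=
      L.neck.cont.continuousAt (L.Z.isOpen_car.mem_nhds h2)
    refine (h3.comp h1).congr ?_
    filter_upwards [i.f.open_target.mem_nhds hy] with w hw
    exact (L.sideτ_of_mem i hw).symm
  · rw [ContinuousAt, L.sideτ_of_notMem i hy, Metric.tendsto_nhds]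
    intro η hη
    have hK : IsCompact (i.f '' (L.Z.car ∩ L.τ ⁻¹' Ici η)) :=
      (L.isCompact_Ici hη).image_of_continuousOn
        (i.f.continuousOn.mono fun z hz => hi ▸ hz.1)
    have hyK : y ∉ i.f '' (L.Z.car ∩ L.τ ⁻¹' Ici η) := by
      rintro ⟨z, hz, rfl⟩
      exact hy (i.f.map_source (hi ▸ hz.1))
    filter_upwards [hK.isClosed.isOpen_compl.mem_nhds hyK] with w hw
    rw [Real.dist_eq, sub_zero]
    by_cases hwt : w ∈ i.f.target
    · rw [L.sideτ_of_mem i hwt, abs_of_pos (L.τ_pos _)]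
      by_contra hlt
      exact hw ⟨i.f.symm w, ⟨hi ▸ i.f.map_target hwt, not_lt.1 hlt⟩, i.f.right_inv hwt⟩
    · rwa [L.sideτ_of_notMem i hwt, abs_zero]

/-- The collar of `L` gives a neck in any manifold that contains `L`. -/
theorem Col.exists_neck (L : Col m) (i : Emb L.Z N) (hi : i.f.source = L.Z.car) :
    ∃ τ : N.X → ℝ, IsNeck (i.comp L.e) τ (Ioo 0 L.ε) ∧ (∀ y ∉ i.f.target, τ y = 0) ∧
      Match i L.e L.τ (i.comp L.e) τ (Ioo 0 L.ε) (Ioi 0) := by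
  have hsrc : L.M.car ×ˢ Ioo 0 L.ε ⊆ (i.comp L.e).f.source := fun z hz => by
    have h1 : z ∈ L.e.f.source := L.neck.src hz
    rw [Emb.comp_source]
    exact ⟨h1, by rw [mem_preimage, hi]; exact L.e.map_car h1⟩
  refine ⟨L.sideτ i, ⟨fun y _ => (L.continuousAt_sideτ i hi y).continuousWithinAt, hsrc, ?_, ?_⟩,
    fun y hy => L.sideτ_of_notMem i hy, ?_, ?_, ?_, ?_⟩
  · intro x hx t ht
    have h1 := hsrc (mk_mem_prod hx ht)
    rw [Emb.comp_source] at h1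
    rw [Emb.comp_apply, L.sideτ_apply i h1.2]
    exact L.neck.val x hx t ht
  · intro y _ ht
    have hy : y ∈ i.f.target := by
      by_contra hy
      rw [L.sideτ_of_notMem i hy] at ht
      exact lt_irrefl _ ht.1
    rw [L.sideτ_of_mem i hy] at ht ⊢
    obtain ⟨x, hx, hxe⟩ := L.neck.surj _ (hi ▸ i.f.map_target hy) ht
    exact ⟨x, hx, by rw [Emb.comp_apply, hxe, i.f.right_inv hy]⟩
  · rw [Emb.comp_p, L.par, one_mul, mul_one]
  · exact fun z hz => hi ▸ hz.1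
  · ext y
    constructor
    · rintro ⟨z, hz, rfl⟩
      have hz' : z ∈ i.f.source := hi ▸ hz.1
      exact ⟨i.map_car hz', by rw [mem_preimage, L.sideτ_apply i hz']; exact hz.2⟩
    · rintro ⟨-, ht⟩
      have hy : y ∈ i.f.target := by
        by_contra hy
        rw [mem_preimage, L.sideτ_of_notMem i hy] at ht
        exact lt_irrefl _ (mem_Ioi.1 ht)
      exact ⟨i.f.symm y, ⟨hi ▸ i.f.map_target hy, L.τ_pos _⟩, i.f.right_inv hy⟩
  · rw [sq_iff]
    intro z hz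
    have h1 := hsrc hz
    have h2 := h1
    rw [Emb.comp_source] at h2
    refine ⟨h2.1, h2.2, mem_car_cyl.2 hz.1, h1, rfl, ?_⟩
    rw [Emb.mu_id, mul_one, Emb.id_apply, Emb.mu_comp _ _ h1]

/-- Replace `L ⊆ N` by a half cylinder. -/
theorem Col.cut (L : Col m) (hp : L.M.Psc univ) {G : Gr (m + 1)} (hN : N.Good G 0)
    (i : Emb L.Z N) (hi : i.f.source = L.Z.car) :
    ∃ (N' : Atl (m + 1)) (ι : Emb N N'), ι.p = 1 ∧ N'.Good G 0 ∧
      N.car \ i.f.target ⊆ ι.f.source ∧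
      (∀ y ∈ N'.car, y ∉ ι.f '' (N.car \ i.f.target) → 0 < N'.scal y) ∧
      N.index G 0 = N'.index G 0 + i.p * L.ind G := by
  obtain ⟨τ, hτ, hτ0, hm⟩ := L.exists_neck i hi
  have hε := L.ε_pos
  obtain ⟨γ, hγ0, hγε⟩ := exists_between hε
  obtain ⟨β, hγβ, hβε⟩ := exists_between hγε
  have hsub : Ioo γ β ⊆ Ioo 0 L.ε := Ioo_subset_Ioo hγ0.le hβε.le
  obtain ⟨N', b', τ', ι, hb'p, hb', hι⟩ :=
    (hτ.mono (Ioo_subset_Ioo hγ0.le le_rfl : Ioo γ L.ε ⊆ Ioo 0 L.ε)).stretch_right hγβ hβε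
  obtain ⟨C, hCγ, hCβ⟩ := L.exists_cpl hγ0 hγβ hβε.le
  have hCn : IsNeck C.b C.τ (Iio β) := hCβ ▸ C.neck
  have hCm : Match C.ι L.e L.τ C.b C.τ (Ioo γ β) (Ioi γ) := by
    have := C.mat
    rwa [hCγ, hCβ] at this
  have hb : IsNeck (i.comp L.e) τ (Ioo γ β) := hτ.mono hsub
  have hj : Match (C.ι.comp i.symm) (i.comp L.e) τ C.b C.τ (Ioo γ β) (Ioi γ) := by
    refine Match.trans (Match.mono (hm.symm.shrink hτ L.neck (Ioi_subset_Ioi hγ0.le) ?_) hsub) hCm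
    rintro t ⟨h1, h2⟩
    by_contra h3
    exact h2 ⟨h1, lt_of_le_of_lt (not_lt.1 h3) hγε⟩
  have hbp : (i.comp L.e).p = i.p := by rw [Emb.comp_p, L.par, mul_one]
  obtain ⟨hNc, K, c, hK, hKN, hc, hKc⟩ := good_zero_iff.1 hN
  obtain ⟨c₁, hc₁, hc₁'⟩ := hb'.scal_ge L.cptM hp
  obtain ⟨c₂, hc₂, hc₂'⟩ := hτ.scal_ge L.cptM hp
  -- points of `N'` outside the half cylinder come from `τ ≤ γ`
  have hfrom : ∀ y ∈ N'.car, τ' y ≤ γ → ∃ z ∈ N.car, τ z ≤ γ ∧ z ∈ ι.f.source ∧ ι.f z = y := by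
    intro y hy hyγ
    have h1 : y ∈ N'.car ∩ τ' ⁻¹' Iio β := ⟨hy, lt_of_le_of_lt hyγ hγβ⟩
    rw [← hι.img] at h1
    obtain ⟨z, hz, rfl⟩ := h1
    refine ⟨z, hz.1, ?_, hι.src hz, rfl⟩
    by_contra hlt
    have h2 := hι.val hb (hb'.mono Ioo_subset_Ioi_self) hz.1 ⟨not_le.1 hlt, hz.2⟩
    exact hlt (h2 ▸ hyγ)
  have hN' : N'.Good G 0 := by
    refine good_zero_iff.2 ⟨hb.complete_glue hb' hι hγβ L.cptM hNc,
      ι.f '' (K ∩ τ ⁻¹' Iic γ), min c c₁, ?_, ?_, lt_min hc hc₁, ?_⟩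
    · have h1 : IsCompact (K ∩ τ ⁻¹' Iic γ) :=
        hK.of_isClosed_subset
          ((hτ.cont.mono hKN).preimage_isClosed_of_isClosed hK.isClosed isClosed_Iic)
          inter_subset_left
      exact h1.image_of_continuousOn (ι.f.continuousOn.mono fun z hz =>
        hι.src ⟨hKN hz.1, lt_of_le_of_lt (mem_Iic.1 hz.2) hγβ⟩)
    · rintro _ ⟨z, hz, rfl⟩
      exact ι.map_car (hι.src ⟨hKN hz.1, lt_of_le_of_lt (mem_Iic.1 hz.2) hγβ⟩)
    · intro y hy hyK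
      rcases lt_or_ge γ (τ' y) with h | h
      · exact (min_le_right _ _).trans (hc₁' y hy h)
      · obtain ⟨z, hz, hzγ, hzs, rfl⟩ := hfrom y hy h
        rw [ι.scal_eq hzs]
        exact (min_le_left _ _).trans (hKc z hz fun hzK => hyK ⟨z, ⟨hzK, hzγ⟩, rfl⟩)
  refine ⟨N', ι, ?_, hN', ?_, ?_, ?_⟩
  · rw [hι.par, hb'p, Emb.p_mul_self]
  · intro z hz
    refine hι.src ⟨hz.1, ?_⟩
    rw [mem_preimage, hτ0 z hz.2]
    exact hγ0.trans hγβ
  · intro y hy hyι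
    rcases lt_or_ge γ (τ' y) with h | h
    · exact hc₁.trans_le (hc₁' y hy h)
    · obtain ⟨z, hz, hzγ, hzs, rfl⟩ := hfrom y hy h
      rw [ι.scal_eq hzs]
      have hzt : z ∈ i.f.target := by
        by_contra hzt
        exact hyι ⟨z, ⟨hz, hzt⟩, rfl⟩
      have h1 := (hm.mapsTo (hi ▸ i.f.map_target hzt) (mem_Ioi.2 (L.τ_pos (i.f.symm z)))).2
      rw [i.f.right_inv hzt] at h1
      exact hc₂.trans_le (hc₂' z hz ⟨h1, lt_of_le_of_lt hzγ hγε⟩)
  · obtain ⟨g₀, hg₀⟩ := good_cyl_psc L.cptM hp G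
    have h := neck_cut L.cptM hγβ hb hb' hCn hι hj hN hN' (C.good hp G) g₀
      (fun _ _ _ => rfl) (fun _ _ _ => rfl) (fun _ _ _ => rfl) (fun _ _ _ => rfl)
    rw [hg₀, hb'p, hbp, C.par, C.index_eq hp G, add_zero, one_mul] at h
    have h2 := i.p_mul_self
    calc N.index G 0 = i.p * (i.p * N.index G 0) := by rw [← mul_assoc, h2, one_mul]
      _ = N'.index G 0 + i.p * L.ind G := by rw [h, mul_add, ← mul_assoc, h2, one_mul]

/-- The index of `L₁ ∪ V ∪ (-L₂)`, where `V` has positive scalar curvature. -/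
theorem index_glue (L₁ L₂ : Col m) (hp₁ : L₁.M.Psc univ) (hp₂ : L₂.M.Psc univ) (G : Gr (m + 1))
    (hN : IsCompact N.car) (i₁ : Emb L₁.Z N) (i₂ : Emb L₂.Z N) (h₁ : i₁.f.source = L₁.Z.car)
    (h₂ : i₂.f.source = L₂.Z.car) (p₁ : i₁.p = 1) (p₂ : i₂.p = -1)
    (hd : Disjoint i₁.f.target i₂.f.target) (hV : N.Psc (i₁.f.target ∪ i₂.f.target)ᶜ) :
    N.index G 0 = L₁.ind G - L₂.ind G := by
  obtain ⟨N', ι, hιp, hN', hιs, hιc, hιi⟩ :=
    L₁.cut hp₁ (good_of_compact hN G Atl.sm_zero) i₁ h₁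
  have hs : (ι.comp i₂).f.source = L₂.Z.car := by
    rw [Emb.comp_source, ← h₂]
    refine inter_eq_left.2 fun z hz => hιs ⟨i₂.map_car hz, fun h => ?_⟩
    exact disjoint_left.1 hd h (i₂.f.map_source hz)
  obtain ⟨N'', κ, -, hN'', hκs, hκc, hκi⟩ := L₂.cut hp₂ hN' (ι.comp i₂) hs
  have h0 : N''.index G 0 = 0 := by
    refine hN''.index_psc fun y hy => ?_
    by_cases hyκ : y ∈ κ.f '' (N'.car \ (ι.comp i₂).f.target)
    · obtain ⟨z, hz, rfl⟩ := hyκ
      rw [κ.scal_eq (hκs hz)]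
      by_cases hzι : z ∈ ι.f '' (N.car \ i₁.f.target)
      · obtain ⟨w, hw, rfl⟩ := hzι
        rw [ι.scal_eq (hιs hw)]
        refine Atl.psc_iff.1 hV w hw.1 ?_
        rintro (h | h)
        · exact hw.2 h
        · refine hz.2 ?_
          rw [Emb.comp_target]
          exact ⟨ι.f.map_source (hιs hw), by rw [mem_preimage, ι.f.left_inv (hιs hw)]; exact h⟩
      · exact hιc z hz.1 hzι
    · exact hκc y hy hyκ
  rw [hιi, hκi, h0, Emb.comp_p, hιp, p₁, p₂]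
  ring

end SZ
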