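import Pool.Agent.P.MP_8db816_gt.SZ.Gen
import Pool.Agent.P.MP_8db816_gt.SZ.IndSum
import Pool.Agent.P.MP_8db816_gt.SZ.Side
import Pool.Agent.P.MP_8db816_gt.SZ.Cobord

/-! The index of the components fixed by `H` is an invariant of the Stolz group. -/

noncomputable section

namespace SZ

open Set CliffordAlgebra Filter Topology
open scoped ContDiff RealInnerProductSpace

variable {Γ : Type} [Group Γ] [Finite Γ] {m : ℕ}

theorem Ident.ind_fix {L₁ L₂ : GCol Γ m} (h : Ident L₁ L₂) (h₁ : L₁.M.Psc univ)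
    (h₂ : L₂.M.Psc univ) (hm : 8 ∣ m + 1) (H : Subgroup Γ) :
    (L₁.fix H).ind (grEven _ hm) = (L₂.fix H).ind (grEven _ hm) := by
  obtain ⟨W, S₁, S₂, hd, hV, e₁, e₂⟩ := h
  have f₁ := Act.fix_emb S₁.i S₁.srci e₁ H
  have f₂ := Act.fix_emb S₂.i S₂.srci e₂ H
  have t₁ := S₁.i.restr_target_eq (L₁.clo H).oU (W.clo H).oV S₁.srci f₁
  have t₂ := S₂.i.restr_target_eq (L₂.clo H).oU (W.clo H).oV S₂.srci f₂
  have h0 := (W.fix H).index_bdry hm
  have hg := index_glue (N := (W.fix H).M) (L₁.fix H) (L₂.fix H) (h₁.restr _ _) (h₂.restr _ _)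
    (grEven _ hm) (W.fix H).cptM (S₁.i.restr _ (L₁.clo H).oU _ (W.clo H).oV)
    (S₂.i.restr _ (L₂.clo H).oU _ (W.clo H).oV)
    (S₁.i.restr_source_eq _ _ S₁.srci f₁) (S₂.i.restr_source_eq _ _ S₂.srci f₂)
    ((S₁.i.restr_p _ _).trans S₁.pari) ((S₂.i.restr_p _ _).trans S₂.pari)
    (by
      rw [t₁, t₂]
      exact (hd.mono subset_union_left subset_union_left).mono inter_subset_left inter_subset_left)
    (by
      rw [t₁, t₂]
      intro a x hx hx'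
      refine hV a x hx.1 ?_
      rintro (h | h)
      · exact hx' (Or.inl ⟨h, hx.2⟩)
      · exact hx' (Or.inr ⟨h, hx.2⟩))
  rw [h0] at hg
  linarith

theorem IsSum.ind_fix {L L₁ L₂ : GCol Γ m} (h : IsSum L L₁ L₂) (hp : L.M.Psc univ)
    (G : Gr (m + 1)) (H : Subgroup Γ) :
    (L.fix H).ind G = (L₁.fix H).ind G + (L₂.fix H).ind G := by
  obtain ⟨P₁, P₂, dj, uj, dk, uk, e₁, e₂⟩ := h
  obtain ⟨Q₁, j₁, k₁⟩ := P₁.exists_restr (L₁.clo H) (L.clo H) (Act.fix_emb P₁.j P₁.srcj e₁ H)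
  obtain ⟨Q₂, j₂, k₂⟩ := P₂.exists_restr (L₂.clo H) (L.clo H) (Act.fix_emb P₂.j P₂.srcj e₂ H)
  refine Part.ind_sum Q₁ Q₂ ?_ ?_ ?_ ?_ (hp.restr _ _) G
  · rw [j₁, j₂]
    exact dj.mono inter_subset_left inter_subset_left
  · rw [j₁, j₂, ← union_inter_distrib_right, uj]
    exact (Atl.car_restr _ _ _).symm
  · rw [k₁, k₂]
    exact dk.mono inter_subset_left inter_subset_left
  · rw [k₁, k₂, ← union_inter_distrib_right, uk]
    exact (Atl.car_restr _ _ _).symm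

theorem Triple.ind_fix_prod (𝔅 : Bott) (L : Triple Γ m) (hm : 8 ∣ m + 1) (hm' : 8 ∣ 8 + m + 1)
    (H : Subgroup Γ) : ((L.prod 𝔅).1.fix H).ind (grEven _ hm') =
      𝔅.B.index (grEven 8 dvd_rfl) 0 * (L.1.fix H).ind (grEven _ hm) := by
  obtain ⟨P, hj, hk⟩ := (L.1.clo H).exists_part_prod 𝔅.B 𝔅.cpt ((L.prod 𝔅).1.clo H)
    (L.1.ρZ.fix_prod 𝔅.B H) (L.1.ρM.fix_prod 𝔅.B H)
  have hp : (L.1.fix H).M.Psc univ := L.2.restr _ _
  rw [← Col.ind_prod (L.1.fix H) 𝔅.B 𝔅.cpt dvd_rfl (grEven_isProd dvd_rfl hm hm') hp (𝔅.psc hp)]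
  exact P.ind_iso hj hk ((L.prod 𝔅).2.restr _ _) _

theorem dvd_bd (k : ℕ) : 8 ∣ bd k + 1 := by
  induction k with
  | zero => exact dvd_rfl
  | succ k ih =>
    change 8 ∣ 8 + (bd k + 1)
    exact dvd_add dvd_rfl ih

theorem exists_psi (𝔅 : Bott) (H : Subgroup Γ) : ∃ ψ : Rgrp Γ 𝔅 →+ ℝ, ∀ L : Triple Γ 7,
    ψ (QuotientAddGroup.mk (FreeAbelianGroup.of ⟨0, L⟩)) =
      (L.1.fix H).ind (grEven 8 dvd_rfl) := by
  have hβ := 𝔅.index_ne_zero
  let F : (Σ k, Triple Γ (bd k)) → ℝ := fun L =>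
    (L.2.1.fix H).ind (grEven _ (dvd_bd L.1)) / 𝔅.B.index (grEven 8 dvd_rfl) 0 ^ L.1
  refine ⟨QuotientAddGroup.lift _ (FreeAbelianGroup.lift F) ?_, fun L => ?_⟩
  · rw [AddSubgroup.closure_le]
    rintro r ((⟨k, L₁, L₂, h, rfl⟩ | ⟨k, L, L₁, L₂, h, rfl⟩) | ⟨k, L, rfl⟩)
    · simp only [SetLike.mem_coe, AddMonoidHom.mem_ker, map_sub, FreeAbelianGroup.lift_apply_of, F]
      rw [h.ind_fix L₁.2 L₂.2 (dvd_bd k) H, sub_self]
    · simp only [SetLike.mem_coe, AddMonoidHom.mem_ker, map_sub, FreeAbelianGroup.lift_apply_of, F]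
      rw [h.ind_fix L.2 _ H]
      ring
    · simp only [SetLike.mem_coe, AddMonoidHom.mem_ker, map_sub, FreeAbelianGroup.lift_apply_of, F]
      have := Triple.ind_fix_prod 𝔅 L (dvd_bd k) (dvd_bd (k + 1)) H
      rw [sub_eq_zero, div_eq_div_iff (pow_ne_zero _ hβ) (pow_ne_zero _ hβ), pow_succ]
      refine (congrArg (· * _) this).trans ?_
      ring
  · change FreeAbelianGroup.lift F (FreeAbelianGroup.of ⟨0, L⟩) = _
    rw [FreeAbelianGroup.lift_apply_of]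
    simp only [F, pow_zero, div_one]
    rfl

/-- The classes of the cycles `𝔅 × Γ/K` for distinct subgroups `K` are linearly independent. -/
theorem exists_indep {Γ : Type} [CommGroup Γ] [Finite Γ] (𝔅 : Bott) {k : ℕ}
    (K : Fin k → Subgroup Γ) (hK : Function.Injective K) :
    ∃ v : Fin k → Rgrp Γ 𝔅, LinearIndependent ℤ v := by
  choose L h₁ h₂ using fun i => exists_gen 𝔅 (K i)
  refine ⟨fun i => QuotientAddGroup.mk (FreeAbelianGroup.of ⟨0, L i⟩), ?_⟩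
  rw [Fintype.linearIndependent_iff]
  intro c hc
  by_contra hne
  push Not at hne
  obtain ⟨i, hi, hmax⟩ := Set.Finite.exists_maximalFor K {i | c i ≠ 0} (Set.toFinite _) hne
  obtain ⟨ψ, hψ⟩ := exists_psi 𝔅 (K i)
  have h := congrArg ψ hc
  rw [map_sum, map_zero, Finset.sum_eq_single i] at h
  · rw [map_zsmul, hψ, zsmul_eq_mul] at h
    exact mul_ne_zero (Int.cast_ne_zero.2 hi) (h₁ i) h
  · intro j _ hj
    rw [map_zsmul, hψ]
    by_cases hc : c j = 0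
    · rw [hc, zero_smul]
    · rw [h₂ j _ fun hle => hj (hK (le_antisymm (hmax hc hle) hle)), smul_zero]
  · exact fun h => absurd (Finset.mem_univ i) h

end SZ
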