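import Pool.Agent.P.MP_8db816_gt.SZ.Good

/-! Transport of sections along embeddings. -/

noncomputable section

namespace SZ

open Set CliffordAlgebra Filter Topology MeasureTheory Atl.Sec
open scoped ContDiff RealInnerProductSpace

variable {n : ℕ} {M N : Atl n}

/-- `χ` is smooth and vanishes outside a relatively closed subset `F` of the source of `j`. -/
structure Cut (j : Emb M N) (χ : M.X → ℝ) (F : Set M.X) : Prop where
  sm : M.Sm χ
  sub : F ⊆ j.f.source
  opn : IsOpen (M.car \ F)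
  off : ∀ x ∈ M.car, x ∉ F → χ x = 0

theorem push_chart (j : Emb M N) (ψ : M.Sec) {x : M.X} (hx : x ∈ j.f.source) {a : M.A} {b : N.A}
    (ha : x ∈ (M.φ a).source) (hb : j.f x ∈ (N.φ b).source) :
    N.s b (N.ch (j.map_car hx)) (j.f x) * (j.mu x * ψ.ev x) = j.σ b a x * ψ.fam a x := by
  rw [j.σ_eq hx ha hb, ev_eq ψ ha, mul_assoc, mul_assoc]

theorem push_isCompact {j : Emb M N} {χ : M.X → ℝ} {F : Set M.X} (h : Cut j χ F) {K : Set M.X}
    (hK : IsCompact K) (hKM : K ⊆ M.car) : IsCompact (j.f '' (K ∩ F)) := by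
  have e : K ∩ F = K \ (M.car \ F) := by
    ext x
    constructor
    · rintro ⟨h1, h2⟩
      exact ⟨h1, fun h3 => h3.2 h2⟩
    · rintro ⟨h1, h2⟩
      exact ⟨h1, by_contra fun h3 => h2 ⟨hKM h1, h3⟩⟩
  have hc : IsCompact (K ∩ F) := by
    rw [e]
    exact hK.diff h.opn
  exact hc.image_of_continuousOn (j.f.continuousOn.mono fun x hx => h.sub hx.2)

theorem push_val_zero {j : Emb M N} {χ : M.X → ℝ} {F : Set M.X} (h : Cut j χ F) {ψ : M.Sec}
    {K : Set M.X} (hψ : ψ.Sup K) {y : N.X} (hy : y ∈ j.f.target) (hy' : y ∉ j.f '' (K ∩ F))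
    (c : Cl n) : χ (j.f.symm y) • (c * (j.mu (j.f.symm y) * ψ.ev (j.f.symm y))) = 0 := by
  by_cases hK : j.f.symm y ∈ K
  · rw [h.off _ (j.src (j.f.map_target hy)) fun hF => hy' ⟨_, ⟨hK, hF⟩, j.f.right_inv hy⟩,
      zero_smul]
  · rw [hψ _ hK, mul_zero, mul_zero, smul_zero]

open Classical in
theorem isSec_push {j : Emb M N} {χ : M.X → ℝ} {F : Set M.X} (h : Cut j χ F) (ψ : M.Sec) :
    IsSec N fun b y => if hy : y ∈ j.f.target ∧ y ∈ (N.φ b).source then
      χ (j.f.symm y) • (N.s b (N.ch (j.tgt hy.1)) y * (j.mu (j.f.symm y) * ψ.ev (j.f.symm y)))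
      else 0 := by
  obtain ⟨K, hK, hKM, hψ⟩ := exists_sup ψ
  have hc := push_isCompact h hK hKM
  have h0 : ∀ b, ∀ y ∉ j.f '' (K ∩ F), (if hy : y ∈ j.f.target ∧ y ∈ (N.φ b).source then
      χ (j.f.symm y) • (N.s b (N.ch (j.tgt hy.1)) y * (j.mu (j.f.symm y) * ψ.ev (j.f.symm y)))
      else 0) = 0 := by
    intro b y hy
    split_ifs with h1
    · exact push_val_zero h hψ h1.1 hy _
    · rfl
  refine ⟨fun b z hz => ?_, fun b y hy => dif_neg fun h1 => hy h1.2, fun a b y ha hb => ?_,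
    j.f '' (K ∩ F), hc, ?_, h0⟩
  · refine ContDiffAt.contDiffWithinAt ?_
    by_cases hy : (N.φ b).symm z ∈ j.f.target
    · have hx := j.f.map_target hy
      have ha := M.ch_spec (j.src hx)
      set a := M.ch (j.src hx)
      have hl := j.symm.lift a b
      set T := (N.φ b).symm.trans (j.symm.f.trans (M.φ a)) with hT
      have hm : MapsTo T T.source (M.φ a).target := fun w hw => (T.map_source hw).1.1
      have hzT : z ∈ T.source := ⟨hz, hy, ha⟩
      have h1 : ContDiffOn ℝ ∞ (fun w => (χ ∘ (M.φ a).symm) (T w) •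
          (star ((j.symm.σ a b ∘ (N.φ b).symm) w) * (ψ.fam a ∘ (M.φ a).symm) (T w))) T.source :=
        ((h.sm a).comp hl.1 hm).smul (hl.2.1.clstar.clmul ((ψ.ok.sm a).comp hl.1 hm))
      refine (h1.congr fun w hw => ?_).contDiffAt (T.open_source.mem_nhds hzT)
      obtain ⟨w1, w2, w3⟩ := hw
      have w2' : (N.φ b).symm w ∈ j.f.target := w2
      have w3' : j.f.symm ((N.φ b).symm w) ∈ (M.φ a).source := w3
      have w4 : (N.φ b).symm w ∈ (N.φ b).source := (N.φ b).map_target w1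
      have e1 : (M.φ a).symm (T w) = j.f.symm ((N.φ b).symm w) := (M.φ a).left_inv w3'
      have e2 := push_chart j ψ (j.f.map_target w2') w3' (b := b)
        (by rw [j.f.right_inv w2']; exact w4)
      simp only [j.f.right_inv w2'] at e2
      simp only [Function.comp_apply, e1]
      rw [dif_pos ⟨w2', w4⟩]
      congr 1
      refine e2.trans ?_
      congr 1
      exact (star_star _).symm
    · have hy' : (N.φ b).symm z ∉ j.f '' (K ∩ F) := by
        rintro ⟨x, hx, e⟩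
        exact hy (e ▸ j.f.map_source (h.sub hx.2))
      have h1 : ∀ᶠ w in 𝓝 z, (N.φ b).symm w ∉ j.f '' (K ∩ F) :=
        ((N.φ b).continuousAt_symm hz).eventually (hc.isClosed.isOpen_compl.mem_nhds hy')
      exact (contDiffAt_const (c := (0 : Cl n))).congr_of_eventuallyEq
        (h1.mono fun w hw => h0 b _ hw)
  · by_cases hy : y ∈ j.f.target
    · rw [dif_pos ⟨hy, ha⟩, dif_pos ⟨hy, hb⟩, mul_smul_comm, ← mul_assoc (N.s a b y),
        N.cocycle a b _ y ha hb (N.ch_spec _)]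
    · rw [dif_neg fun h1 => hy h1.1, dif_neg fun h1 => hy h1.1, mul_zero]
  · rintro _ ⟨x, hx, rfl⟩
    exact j.map_car (h.sub hx.2)

theorem push_add {j : Emb M N} {χ : M.X → ℝ} {F : Set M.X} (h : Cut j χ F) (ψ ψ' : M.Sec) :
    mk' _ (isSec_push h (ψ + ψ')) = mk' _ (isSec_push h ψ) + mk' _ (isSec_push h ψ') := by
  refine Atl.Sec.ext fun b y => ?_
  simp only [fam_add, fam_mk']
  split_ifs
  · rw [ev_add, mul_add, mul_add, smul_add]
  · rw [add_zero]

theorem push_smul {j : Emb M N} {χ : M.X → ℝ} {F : Set M.X} (h : Cut j χ F) (c : ℝ) (ψ : M.Sec) :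
    mk' _ (isSec_push h (c • ψ)) = c • mk' _ (isSec_push h ψ) := by
  refine Atl.Sec.ext fun b y => ?_
  simp only [fam_smul, fam_mk']
  split_ifs
  · rw [ev_smul, mul_smul_comm, mul_smul_comm, smul_comm]
  · rw [smul_zero]

/-- Multiply by `χ`, transport along `j`, extend by zero. -/
def Cut.push {j : Emb M N} {χ : M.X → ℝ} {F : Set M.X} (h : Cut j χ F) : M.Sec →ₗ[ℝ] N.Sec where
  toFun ψ := mk' _ (isSec_push h ψ)
  map_add' := push_add h
  map_smul' := push_smul h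

variable {j : Emb M N} {χ : M.X → ℝ} {F : Set M.X} {x : M.X} {y : N.X}

theorem push_ev (h : Cut j χ F) (ψ : M.Sec) (hy : y ∈ j.f.target) :
    (h.push ψ).ev y = χ (j.f.symm y) • (j.mu (j.f.symm y) * ψ.ev (j.f.symm y)) := by
  rw [ev_of_mem _ (j.tgt hy)]
  refine (dif_pos ⟨hy, N.ch_spec (j.tgt hy)⟩).trans ?_
  rw [N.s_self (N.ch_spec (j.tgt hy)), one_mul]

theorem push_ev_zero (h : Cut j χ F) (ψ : M.Sec) (hy : y ∉ j.f.target) : (h.push ψ).ev y = 0 := by
  by_cases hc : y ∈ N.car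
  · rw [ev_of_mem _ hc]
    exact dif_neg fun h1 => hy h1.1
  · exact ev_of_notMem _ hc

theorem push_off (h : Cut j χ F) (hc : x ∈ M.car) (hx : x ∉ j.f.source) : χ x = 0 :=
  h.off x hc fun hF => hx (h.sub hF)

theorem push_off_nhds (h : Cut j χ F) (hc : x ∈ M.car) (hx : x ∉ j.f.source) :
    ∀ᶠ z in 𝓝 x, χ z = 0 :=
  Filter.mem_of_superset (h.opn.mem_nhds ⟨hc, fun hF => hx (h.sub hF)⟩)
    fun z hz => h.off z hz.1 hz.2

theorem Cut.ev_push (h : Cut j χ F) (ψ : M.Sec) (hx : x ∈ j.f.source) :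
    (h.push ψ).ev (j.f x) = χ x • (j.mu x * ψ.ev x) := by
  rw [push_ev h ψ (j.f.map_source hx), j.f.left_inv hx]

theorem Cut.ev_push' (h : Cut j χ F) (ψ : M.Sec) (hy : y ∈ j.f.target) :
    (h.push ψ).ev y = χ (j.f.symm y) • (j.mu (j.f.symm y) * ψ.ev (j.f.symm y)) :=
  push_ev h ψ hy

theorem Cut.ev_push_of_notMem (h : Cut j χ F) (ψ : M.Sec) (hy : y ∉ j.f '' F) :
    (h.push ψ).ev y = 0 := by
  by_cases ht : y ∈ j.f.target
  · rw [push_ev h ψ ht, h.off _ (j.src (j.f.map_target ht)) fun hF => hy ⟨_, hF, j.f.right_inv ht⟩,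
      zero_smul]
  · exact push_ev_zero h ψ ht

theorem Cut.sup_push (h : Cut j χ F) {ψ : M.Sec} {K : Set M.X} (hψ : ψ.Sup K) :
    (h.push ψ).Sup (j.f '' (K ∩ F)) := by
  intro y hy
  by_cases ht : y ∈ j.f.target
  · have := push_val_zero h hψ ht hy 1
    rwa [one_mul, ← push_ev h ψ ht] at this
  · exact push_ev_zero h ψ ht

theorem Cut.isCompact_image (h : Cut j χ F) {K : Set M.X} (hK : IsCompact K) (hKM : K ⊆ M.car) :
    IsCompact (j.f '' (K ∩ F)) := push_isCompact h hK hKM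

/-- The Dirac operators of related sections are related. -/
theorem Emb.ev_dir (j : Emb M N) {ξ : M.Sec} {ξ' : N.Sec} (hx : x ∈ j.f.source)
    (h : ∀ᶠ z in 𝓝 x, ξ'.ev (j.f z) = j.mu z * ξ.ev z) :
    (N.Dir ξ').ev (j.f x) = j.p • (j.mu x * (M.Dir ξ).ev x) := by
  have ha := M.ch_spec (j.src hx)
  have hb := N.ch_spec (j.map_car hx)
  have hmu : j.mu x = j.σ (N.ch (j.map_car hx)) (M.ch (j.src hx)) x := dif_pos hx
  rw [ev_of_mem _ (j.map_car hx), ev_of_mem _ (j.src hx), fam_dir _ ha, fam_dir _ hb, hmu]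
  set a := M.ch (j.src hx)
  set b := N.ch (j.map_car hx)
  have hl := j.lift b a
  set T := (M.φ a).symm.trans (j.f.trans (N.φ b)) with hT
  have hm : MapsTo T T.source (N.φ b).target := fun w hw => (T.map_source hw).1.1
  have e0 : (M.φ a).symm (M.φ a x) = x := (M.φ a).left_inv ha
  have hy : M.φ a x ∈ T.source := by
    refine ⟨(M.φ a).map_source ha, ?_, ?_⟩
    · show (M.φ a).symm (M.φ a x) ∈ j.f.source
      rwa [e0]
    · show j.f ((M.φ a).symm (M.φ a x)) ∈ (N.φ b).source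
      rwa [e0]
  have e1 : T (M.φ a x) = N.φ b (j.f x) := by
    show N.φ b (j.f ((M.φ a).symm (M.φ a x))) = _
    rw [e0]
  have key := hl.dirac_eq T.open_source (N.φ b).open_target
    ((M.fr a).mono fun w hw => hw.1) (N.fr b) hm hy (ψ' := ξ'.fam b ∘ (N.φ b).symm)
    (ψ := ξ.fam a ∘ (M.φ a).symm)
    (((ξ'.ok.sm b).contDiffAt ((N.φ b).open_target.mem_nhds (hm hy))).differentiableAt (by simp))
    (((ξ.ok.sm a).contDiffAt ((M.φ a).open_target.mem_nhds hy.1)).differentiableAt (by simp))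
    (by
      filter_upwards [T.open_source.mem_nhds hy, ((M.φ a).tendsto_symm ha).eventually h]
        with w hw hw'
      obtain ⟨w1, w2, w3⟩ := hw
      have w2' : (M.φ a).symm w ∈ j.f.source := w2
      have w3' : j.f ((M.φ a).symm w) ∈ (N.φ b).source := w3
      have e2 : (N.φ b).symm (T w) = j.f ((M.φ a).symm w) := (N.φ b).left_inv w3'
      simp only [Function.comp_apply, e2]
      rw [fam_eq ξ' w3', hw']
      exact push_chart j ξ w2' ((M.φ a).map_target w1) w3')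
  rw [e1] at key
  simpa only [Function.comp_apply, e0] using key

theorem Emb.anti_mu (j : Emb M N) {T : Cl n →ₗ[ℝ] Cl n} (hT : ∀ i z, T (cl i * z) = -(cl i * T z))
    (hx : x ∈ j.f.source) (z : Cl n) : T (j.mu x * z) = j.p • (j.mu x * T z) := by
  rw [anti_mul hT, j.involute_mu hx, smul_mul_assoc]

theorem Cut.inner_push (h : Cut j χ F) (ψ : M.Sec) (ξ : N.Sec) :
    ⟪h.push ψ, ξ⟫ = M.int fun x => χ x * ⟪j.mu x * ψ.ev x, ξ.ev (j.f x)⟫ := by
  rw [Atl.Sec.inner_def]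
  refine j.int_eq (fun x hc hx => ?_) (fun y _ hy => ?_) fun x hx => ?_
  · rw [push_off h hc hx, zero_mul]
  · rw [push_ev_zero h ψ hy, inner_zero_left]
  · rw [h.ev_push ψ hx, real_inner_smul_left]

theorem Cut.tst_inner_push (h : Cut j χ F) (ψ : M.Sec) (ξ : N.Sec) :
    M.Tst fun x => χ x * ⟪j.mu x * ψ.ev x, ξ.ev (j.f x)⟫ := by
  obtain ⟨K, hK, hKM, hψ⟩ := exists_sup ψ
  refine ⟨fun x hc => ContinuousAt.continuousWithinAt ?_, K, hK, hKM, fun x _ hx => ?_⟩
  · by_cases hx : x ∈ j.f.source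
    · have h1 := ((tst_inner (h.push ψ) ξ).1.continuousAt
        (N.isOpen_car.mem_nhds (j.map_car hx))).comp (j.f.continuousAt hx)
      refine h1.congr ?_
      filter_upwards [j.f.open_source.mem_nhds hx] with z hz
      simp only [Function.comp_apply]
      rw [h.ev_push ψ hz, real_inner_smul_left]
    · refine (continuousAt_const (y := (0 : ℝ))).congr ?_
      filter_upwards [push_off_nhds h hc hx] with z hz
      rw [hz, zero_mul]
  · simp only [hψ x hx, mul_zero, inner_zero_left]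

theorem Cut.inner_push_push (h : Cut j χ F) (ψ ψ' : M.Sec) :
    ⟪h.push ψ, h.push ψ'⟫ = M.int fun x => χ x ^ 2 * ⟪ψ.ev x, ψ'.ev x⟫ := by
  rw [h.inner_push]
  refine Atl.int_congr fun x hc => ?_
  by_cases hx : x ∈ j.f.source
  · rw [h.ev_push ψ' hx, real_inner_smul_right, inner_pin_mul (j.mu_mem x), sq, mul_assoc]
  · simp only [push_off h hc hx, zero_mul, ne_eq, OfNat.ofNat_ne_zero, not_false_eq_true, zero_pow]

theorem Cut.cend_push (h : Cut j χ F) {T : Cl n →ₗ[ℝ] Cl n}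
    (hT : ∀ i z, T (cl i * z) = -(cl i * T z)) (ψ : M.Sec) :
    N.cend T (h.push ψ) = j.p • h.push (M.cend T ψ) := by
  refine ext_ev fun y _ => ?_
  rw [ev_cend (eqv_of_anti N hT), ev_smul]
  by_cases hy : y ∈ j.f.target
  · rw [push_ev h _ hy, push_ev h _ hy, ev_cend (eqv_of_anti M hT), map_smul,
      j.anti_mu hT (j.f.map_target hy), smul_comm]
  · rw [push_ev_zero h _ hy, push_ev_zero h _ hy, map_zero, smul_zero]

theorem Cut.norm_comm (h : Cut j χ F) (G : Gr n) {φ : M.X → ℝ} {φ' : N.X → ℝ} (hφ : M.Sm φ)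
    (hφ' : N.Sm φ') (hc : ∀ x ∈ F, φ' (j.f x) = φ x) (ψ : M.Sec) :
    ‖N.Op G φ' (h.push ψ) - j.p • h.push (M.Op G φ ψ)‖ = ‖M.gr χ ψ‖ := by
  obtain ⟨K, hK, hKM, hψ⟩ := exists_sup ψ
  refine (sq_eq_sq₀ (norm_nonneg _) (norm_nonneg _)).1 ?_
  rw [Atl.Sec.norm_sq, Atl.Sec.norm_sq]
  refine j.int_eq (fun x hc' hx => ?_) (fun y _ hy => ?_) fun x hx => ?_
  · rw [norm_ev_gr h.sm, Atl.gn_congr (g := fun _ => 0) (push_off_nhds h hc' hx), Atl.gn_const,
      zero_mul, sq, zero_mul]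
  · have h1 := (h.sup_push hψ).dir (h.isCompact_image hK hKM).isClosed y (by
      rintro ⟨x, hx, e⟩
      exact hy (e ▸ j.f.map_source (h.sub hx.2)))
    rw [ev_sub, ev_smul, ev_op G hφ', h1, push_ev_zero h _ hy, push_ev_zero h _ hy, map_zero,
      smul_zero, smul_zero, add_zero, sub_zero, norm_zero, sq, zero_mul]
  · have h1 := j.ev_dir (ξ := M.mul χ ψ) (ξ' := h.push ψ) hx (by
      filter_upwards [j.f.open_source.mem_nhds hx] with z hz
      rw [h.ev_push ψ hz, ev_mul h.sm, mul_smul_comm])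
    have h2 : χ x * φ' (j.f x) = χ x * φ x := by
      by_cases hF : x ∈ F
      · rw [hc x hF]
      · rw [h.off x (j.src hx) hF, zero_mul, zero_mul]
    have h3 : (N.Op G φ' (h.push ψ) - j.p • h.push (M.Op G φ ψ)).ev (j.f x)
        = j.p • (j.mu x * (M.gr χ ψ).ev x) := by
      rw [ev_sub, ev_smul, ev_op G hφ', h1, h.ev_push _ hx, h.ev_push _ hx, ev_op G hφ,
        dir_mul h.sm, ev_add, ev_mul h.sm, map_smul, j.anti_mu G.R_anti hx]
      simp only [mul_add, mul_smul_comm, smul_add, smul_smul]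
      have e : φ' (j.f x) * (χ x * j.p) = j.p * (χ x * φ x) := by
        rw [← h2]
        ring
      rw [e]
      abel
    have h4 : |j.p| = 1 := by
      rcases j.hp with e | e <;> simp [e]
    rw [h3, norm_smul, Real.norm_eq_abs, h4, one_mul, norm_pin_mul (j.mu_mem x)]

/-- The commutator with the operators is bounded and relatively compact. -/
theorem Cut.comm (h : Cut j χ F) (G : Gr n) {φ : M.X → ℝ} {φ' : N.X → ℝ} (hφ : M.Pot φ)
    (hφ' : N.Sm φ') (hc : ∀ x ∈ F, φ' (j.f x) = φ x) {K : Set M.X} (hK : IsCompact K)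
    (hKM : K ⊆ M.car) (h0 : ∀ x ∈ M.car, x ∉ K → M.gn χ x = 0) {p p' : ℝ} (hp : p = 1 ∨ p = -1)
    (hp' : p' = 1 ∨ p' = -1) (hj : j.p = p * p') :
    (∀ ψ, (p' • N.cend G.ε) (h.push ψ) = h.push ((p • M.cend G.ε) ψ)) ∧
    Bdd ((p' • N.Op G φ') ∘ₗ h.push - h.push ∘ₗ (p • M.Op G φ)) ∧
    GCpt (p • M.Op G φ) ((p' • N.Op G φ') ∘ₗ h.push - h.push ∘ₗ (p • M.Op G φ)) := by
  have e1 : p' * j.p = p := by
    rcases hp' with e | e <;> rw [hj, e] <;> ring
  have e2 : |p'| = 1 := by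
    rcases hp' with e | e <;> simp [e]
  have hn : ∀ ψ, ‖((p' • N.Op G φ') ∘ₗ h.push - h.push ∘ₗ (p • M.Op G φ)) ψ‖ = ‖M.gr χ ψ‖ := by
    intro ψ
    have e : ((p' • N.Op G φ') ∘ₗ h.push - h.push ∘ₗ (p • M.Op G φ)) ψ
        = p' • (N.Op G φ' (h.push ψ) - j.p • h.push (M.Op G φ ψ)) := by
      rw [smul_sub, smul_smul, e1, ← map_smul h.push]
      rfl
    rw [e, norm_smul, Real.norm_eq_abs, e2, one_mul, h.norm_comm G hφ.1 hφ' hc]
  obtain ⟨c, hc0, hcb⟩ : ∃ c : ℝ, 0 ≤ c ∧ ∀ x ∈ K, M.gn χ x ≤ c := by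
    obtain ⟨c, hc'⟩ := hK.bddAbove_image (h.sm.continuousOn_gn.mono hKM)
    exact ⟨max c 0, le_max_right _ _, fun x hx => (hc' ⟨x, hx, rfl⟩).trans (le_max_left _ _)⟩
  refine ⟨fun ψ => ?_, ⟨c, fun ψ => ?_⟩, ?_⟩
  · rw [LinearMap.smul_apply, LinearMap.smul_apply, h.cend_push G.ε_anti, smul_smul, e1, map_smul]
  · rw [hn]
    refine norm_gr_le h.sm hc0 (fun x hx => ?_) ψ
    by_cases hxK : x ∈ K
    · exact hcb x hxK
    · rw [h0 x hx hxK]
      exact hc0
  · obtain ⟨η, C, η1, -, η3, η4, -, η6, η7⟩ := M.exists_cutoff hK hKM isOpen_univ (subset_univ _)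
    refine ((gcpt_op G hφ η1 η3 (fun x hx => (η4 hx).2) fun x _ hx => η6 x hx).smul_left hp).of_le
      (c := c) fun ψ => ?_
    rw [hn]
    refine Atl.Sec.norm_le hc0 fun x hx => ?_
    rw [norm_ev_gr h.sm, ev_mul η1]
    by_cases hxK : x ∈ K
    · rw [(η7 x hxK).self_of_nhds, one_smul]
      exact mul_le_mul_of_nonneg_right (hcb x hxK) (norm_nonneg _)
    · rw [h0 x hx hxK, zero_mul]
      exact mul_nonneg hc0 (norm_nonneg _)

end SZ
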