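import Pool.Agent.P.MP_8db816_gt.SZ.EuMoll
import Pool.Agent.P.MP_8db816_gt.SZ.LocBasic

/-! Euclidean estimates for the Friedrichs argument. -/

noncomputable section

namespace SZ

namespace RegAux

open Set CliffordAlgebra Filter Topology MeasureTheory
open scoped ContDiff RealInnerProductSpace

variable {n : ℕ}

theorem contDiff_of_off {F : Type} [NormedAddCommGroup F] [NormedSpace ℝ F] {f : E n → F}
    {T L : Set (E n)} (hT : IsOpen T) (hL : IsClosed L) (hLT : L ⊆ T) (hf : ContDiffOn ℝ ∞ f T)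
    (h0 : ∀ y ∉ L, f y = 0) : ContDiff ℝ ∞ f := by
  rw [contDiff_iff_contDiffAt]
  intro y
  by_cases hy : y ∈ L
  · exact hf.contDiffAt (hT.mem_nhds (hLT hy))
  · exact (contDiffAt_const (c := (0 : F))).congr_of_eventuallyEq
      (eventually_of_mem (hL.isOpen_compl.mem_nhds hy) h0)

theorem exists_cut {T L : Set (E n)} (hT : IsOpen T) (hL : IsCompact L) (hLT : L ⊆ T) :
    ∃ (θ : E n → ℝ) (L' : Set (E n)), ContDiff ℝ ∞ θ ∧ IsCompact L' ∧ L' ⊆ T ∧
      (∀ y ∈ L, θ y = 1) ∧ ∀ y ∉ L', θ y = 0 := by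
  obtain ⟨L', h1, h2, h3⟩ := exists_compact_between hL hT hLT
  obtain ⟨f, f1, f0, -⟩ := exists_contMDiffMap_one_nhds_of_subset_interior
    (modelWithCornersSelf ℝ (E n)) (n := ⊤) hL.isClosed h2
  exact ⟨f, L', f.contMDiff.contDiff, h1, h3, fun y hy => f1.self_of_nhdsSet y hy, f0⟩

theorem int_sq {u : E n → Cl n} (hu : Continuous u) (hs : HasCompactSupport u) :
    Integrable fun y => ‖u y‖ ^ 2 := by
  have h1 : Continuous fun y => ‖u y‖ ^ 2 := hu.norm.pow 2
  have h2 : HasCompactSupport fun y => ‖u y‖ ^ 2 :=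
    hs.comp_left (g := fun v : Cl n => ‖v‖ ^ 2) (by simp)
  exact h1.integrable_of_hasCompactSupport h2

/-- Smooth with compact support. -/
def SC (u : E n → Cl n) : Prop := ContDiff ℝ ∞ u ∧ HasCompactSupport u

theorem SC.cont {u : E n → Cl n} (h : SC u) : Continuous u := h.1.continuous

theorem SC.int {u : E n → Cl n} (h : SC u) : Integrable fun y => ‖u y‖ ^ 2 := int_sq h.cont h.2

theorem sc_zero : SC (fun _ : E n => (0 : Cl n)) := ⟨contDiff_const, HasCompactSupport.zero⟩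

theorem SC.add {u v : E n → Cl n} (h : SC u) (h' : SC v) : SC fun y => u y + v y :=
  ⟨h.1.add h'.1, h.2.add h'.2⟩

theorem SC.neg {u : E n → Cl n} (h : SC u) : SC fun y => -u y := ⟨h.1.neg, h.2.neg⟩

theorem SC.sub {u v : E n → Cl n} (h : SC u) (h' : SC v) : SC fun y => u y - v y :=
  ⟨h.1.sub h'.1, h.2.sub h'.2⟩

theorem sc_sum {J : Type} (s : Finset J) {u : J → E n → Cl n} (h : ∀ j ∈ s, SC (u j)) :
    SC fun y => ∑ j ∈ s, u j y := by
  classical
  induction s using Finset.induction_on with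
  | empty => simpa using sc_zero
  | insert j s hj ih =>
    simp only [Finset.sum_insert hj]
    exact (h j (Finset.mem_insert_self _ _)).add
      (ih fun i hi => h i (Finset.mem_insert_of_mem hi))

theorem SC.clm {u : E n → Cl n} (h : SC u) {B : E n → Cl n →L[ℝ] Cl n} (hB : ContDiff ℝ ∞ B) :
    SC fun y => B y (u y) :=
  ⟨hB.clm_apply h.1, h.2.mono fun y hy h0 => hy (by simp [h0])⟩

theorem SC.der {u : E n → Cl n} (h : SC u) (v : E n) : SC fun y => fderiv ℝ u y v :=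
  ⟨(h.1.fderiv_right (m := ∞) le_rfl).clm_apply contDiff_const, h.2.fderiv_apply ℝ v⟩

theorem SC.moll {u : E n → Cl n} (h : SC u) (m : Moll n (Cl n)) (k : ℕ) : SC (m.J k u) :=
  ⟨m.smooth k u h.cont h.2, HasCompactSupport.intro (IsCompact.cthickening h.2)
    fun _ hy => by_contra fun h0 => hy (m.supp k u h0)⟩

theorem moll_add (m : Moll n (Cl n)) (k : ℕ) {u v : E n → Cl n} (h : SC u) (h' : SC v) (y : E n) :
    m.J k (fun z => u z + v z) y = m.J k u y + m.J k v y :=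
  congrFun (m.add k u v h.cont h.2 h'.cont h'.2) y

theorem moll_smul (m : Moll n (Cl n)) (k : ℕ) (c : ℝ) (u : E n → Cl n) (y : E n) :
    m.J k (fun z => c • u z) y = c • m.J k u y :=
  congrFun (m.smul k c u) y

theorem moll_sub (m : Moll n (Cl n)) (k : ℕ) {u v : E n → Cl n} (h : SC u) (h' : SC v) (y : E n) :
    m.J k (fun z => u z - v z) y = m.J k u y - m.J k v y := by
  have h1 := moll_add m k h h'.neg y
  have h2 := moll_smul m k (-1) v y
  simp only [neg_smul, one_smul] at h2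
  simp only [sub_eq_add_neg, h1, h2]

theorem moll_sum (m : Moll n (Cl n)) (k : ℕ) {J : Type} (s : Finset J) {u : J → E n → Cl n}
    (h : ∀ j ∈ s, SC (u j)) (y : E n) :
    m.J k (fun z => ∑ j ∈ s, u j z) y = ∑ j ∈ s, m.J k (u j) y := by
  classical
  induction s using Finset.induction_on with
  | empty =>
    have h2 := moll_smul m k 0 (fun _ => 0) y
    simpa using h2
  | insert j s hj ih =>
    have hs : ∀ i ∈ s, SC (u i) := fun i hi => h i (Finset.mem_insert_of_mem hi)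
    simp only [Finset.sum_insert hj]
    rw [moll_add m k (h j (Finset.mem_insert_self _ _)) (sc_sum s hs), ih hs]

/-- A family of test functions whose squared norms are bounded by a multiple of `ν`. -/
def Bd {ι : Type} (ν : ι → ℝ) (U : ι → E n → Cl n) : Prop :=
  (∀ i, SC (U i)) ∧ ∃ c : ℝ, 0 ≤ c ∧ ∀ i, ∫ y, ‖U i y‖ ^ 2 ≤ c * ν i

variable {ι : Type} {ν : ι → ℝ} {U V : ι → E n → Cl n}

theorem int_nn (u : E n → Cl n) : 0 ≤ ∫ y, ‖u y‖ ^ 2 := integral_nonneg fun _ => sq_nonneg _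

theorem Bd.of_le (h : Bd ν U) (hV : ∀ i, SC (V i)) {c : ℝ}
    (hc : ∀ i, ∫ y, ‖V i y‖ ^ 2 ≤ c * ∫ y, ‖U i y‖ ^ 2) : Bd ν V := by
  obtain ⟨-, a, a0, ha⟩ := h
  refine ⟨hV, max c 0 * a, mul_nonneg (le_max_right _ _) a0, fun i => ?_⟩
  calc _ ≤ c * ∫ y, ‖U i y‖ ^ 2 := hc i
    _ ≤ max c 0 * ∫ y, ‖U i y‖ ^ 2 := mul_le_mul_of_nonneg_right (le_max_left _ _) (int_nn _)
    _ ≤ max c 0 * (a * ν i) := mul_le_mul_of_nonneg_left (ha i) (le_max_right _ _)
    _ = _ := (mul_assoc _ _ _).symm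

theorem Bd.add (h : Bd ν U) (h' : Bd ν V) : Bd ν fun i y => U i y + V i y := by
  obtain ⟨s, a, a0, ha⟩ := h
  obtain ⟨t, b, b0, hb⟩ := h'
  refine ⟨fun i => (s i).add (t i), 2 * a + 2 * b, by positivity, fun i => ?_⟩
  have h1 : ∫ y, ‖U i y + V i y‖ ^ 2 ≤ ∫ y, (2 * ‖U i y‖ ^ 2 + 2 * ‖V i y‖ ^ 2) := by
    refine integral_mono ((s i).add (t i)).int
      (((s i).int.const_mul 2).add ((t i).int.const_mul 2)) fun y => ?_
    have h2 := norm_add_le (U i y) (V i y)
    have h3 := pow_le_pow_left₀ (norm_nonneg _) h2 2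
    simp only
    nlinarith [sq_nonneg (‖U i y‖ - ‖V i y‖)]
  rw [integral_add ((s i).int.const_mul 2) ((t i).int.const_mul 2), integral_const_mul,
    integral_const_mul] at h1
  have := ha i
  have := hb i
  linarith

theorem Bd.neg (h : Bd ν U) : Bd ν fun i y => -U i y :=
  h.of_le (fun i => (h.1 i).neg) (c := 1) fun i => by simp

theorem Bd.sub (h : Bd ν U) (h' : Bd ν V) : Bd ν fun i y => U i y - V i y := by
  simpa only [sub_eq_add_neg] using h.add h'.neg

theorem bd_sum {J : Type} (s : Finset J) {U : J → ι → E n → Cl n} (h : ∀ j ∈ s, Bd ν (U j)) :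
    Bd ν fun i y => ∑ j ∈ s, U j i y := by
  classical
  induction s using Finset.induction_on with
  | empty => exact ⟨fun _ => by simpa using sc_zero, 0, le_rfl, fun i => by simp⟩
  | insert j s hj ih =>
    simp only [Finset.sum_insert hj]
    exact (h j (Finset.mem_insert_self _ _)).add
      (ih fun i hi => h i (Finset.mem_insert_of_mem hi))

theorem Bd.clm (h : Bd ν U) {B : E n → Cl n →L[ℝ] Cl n} (hB : ContDiff ℝ ∞ B)
    (hs : HasCompactSupport B) : Bd ν fun i y => B y (U i y) := by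
  obtain ⟨b, hb⟩ := hB.continuous.bounded_above_of_compact_support hs
  refine h.of_le (fun i => (h.1 i).clm hB) (c := b ^ 2) fun i => ?_
  rw [← integral_const_mul]
  refine integral_mono ((h.1 i).clm hB).int ((h.1 i).int.const_mul _) fun y => ?_
  have h2 : ‖B y (U i y)‖ ≤ b * ‖U i y‖ := (B y).le_of_opNorm_le (hb y) _
  have h3 := pow_le_pow_left₀ (norm_nonneg _) h2 2
  simpa only [mul_pow] using h3

theorem Bd.moll (h : Bd ν U) (m : Moll n (Cl n)) (κ : ι → ℕ) : Bd ν fun i => m.J (κ i) (U i) :=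
  h.of_le (fun i => (h.1 i).moll m _) (c := 1) fun i => by
    rw [one_mul]; exact m.bdd _ _ (h.1 i).cont (h.1 i).2

theorem Bd.dmoll (h : Bd ν U) (m : Moll n (Cl n)) (k : ℕ) (j : Fin n) :
    Bd ν fun i y => fderiv ℝ (m.J k (U i)) y (Pi.single j 1) := by
  obtain ⟨c, hc⟩ := m.dbdd k
  exact h.of_le (fun i => ((h.1 i).moll m k).der _) fun i => hc _ j (h.1 i).cont (h.1 i).2

theorem Bd.fried (h : Bd ν U) (m : Moll n (Cl n)) (κ : ι → ℕ) {A : E n → Cl n →L[ℝ] Cl n}
    (hA : ContDiff ℝ ∞ A) (hs : HasCompactSupport A) (j : Fin n) :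
    Bd ν fun i y => A y (fderiv ℝ (m.J (κ i) (U i)) y (Pi.single j 1)) -
      m.J (κ i) (fun z => A z (fderiv ℝ (U i) z (Pi.single j 1))) y := by
  obtain ⟨c, hc⟩ := m.fried A j hA hs
  exact h.of_le (fun i => ((((h.1 i).moll m _).der _).clm hA).sub
    ((((h.1 i).der _).clm hA).moll m _)) fun i => hc _ _ (h.1 i).1 (h.1 i).2

/-- A first order operator. -/
def Pop (A : Fin n → E n → Cl n →L[ℝ] Cl n) (B : E n → Cl n →L[ℝ] Cl n) (w : E n → Cl n)
    (y : E n) : Cl n :=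
  ∑ j, A j y (fderiv ℝ w y (Pi.single j 1)) + B y (w y)

variable {A : Fin n → E n → Cl n →L[ℝ] Cl n} {B : E n → Cl n →L[ℝ] Cl n}

theorem Bd.pop_moll (h : Bd ν U) (m : Moll n (Cl n)) (k : ℕ) (hA : ∀ j, ContDiff ℝ ∞ (A j))
    (hAs : ∀ j, HasCompactSupport (A j)) (hB : ContDiff ℝ ∞ B) (hBs : HasCompactSupport B) :
    Bd ν fun i => Pop A B (m.J k (U i)) :=
  (bd_sum Finset.univ fun j _ => (h.dmoll m k j).clm (hA j) (hAs j)).add
    ((h.moll m fun _ => k).clm hB hBs)

theorem Bd.comm (h : Bd ν U) (h' : Bd ν V) (m : Moll n (Cl n)) (κ : ι → ℕ)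
    (hA : ∀ j, ContDiff ℝ ∞ (A j)) (hAs : ∀ j, HasCompactSupport (A j)) (hB : ContDiff ℝ ∞ B)
    (hBs : HasCompactSupport B) :
    Bd ν fun i y => Pop A B (m.J (κ i) (U i)) y -
      m.J (κ i) (fun z => Pop A B (U i) z - V i z) y := by
  have key := ((bd_sum Finset.univ fun j _ => h.fried m κ (hA j) (hAs j) j).add
    (((h.moll m κ).clm hB hBs).sub ((h.clm hB hBs).moll m κ))).add (h'.moll m κ)
  convert key using 3 with i y
  have s1 : ∀ j ∈ (Finset.univ : Finset (Fin n)),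
      SC fun z => A j z (fderiv ℝ (U i) z (Pi.single j 1)) :=
    fun j _ => ((h.1 i).der _).clm (hA j)
  have s2 := (h.1 i).clm hB
  unfold Pop
  rw [moll_sub m _ ((sc_sum _ s1).add s2) (h'.1 i), moll_add m _ (sc_sum _ s1) s2,
    moll_sum m _ _ s1, Finset.sum_sub_distrib]
  abel

/-- The coefficients of the Dirac operator, cut off. -/
theorem exists_coef {e : Fr n} {T L : Set (E n)} (he : IsFr e T) (hT : IsOpen T)
    (hL : IsCompact L) (hLT : L ⊆ T) :
    ∃ (A : Fin n → E n → Cl n →L[ℝ] Cl n) (B : E n → Cl n →L[ℝ] Cl n),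
      (∀ j, ContDiff ℝ ∞ (A j)) ∧ (∀ j, HasCompactSupport (A j)) ∧ ContDiff ℝ ∞ B ∧
      HasCompactSupport B ∧
      ∀ w : E n → Cl n, (∀ y ∉ L, w y = 0) → dirac e w = Pop A B w := by
  obtain ⟨θ, L', t1, t2, t3, t4, t5⟩ := exists_cut hT hL hLT
  refine ⟨fun j y => θ y • mulL n (∑ i, e i y j • cl i),
    fun y => θ y • mulL n (∑ i, cl i * omg e i y), fun j => ?_, fun j => ?_, ?_, ?_, ?_⟩
  · refine contDiff_of_off hT t2.isClosed t3 ?_ fun y hy => by simp only [t5 y hy, zero_smul]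
    exact t1.contDiffOn.smul ((mulL n).contDiff.comp_contDiffOn (ContDiffOn.sum fun i _ =>
      (contDiffOn_pi.1 (he.1 i) j).smul (contDiffOn_const (c := cl i))))
  · exact HasCompactSupport.intro t2 fun y hy => by simp only [t5 y hy, zero_smul]
  · refine contDiff_of_off hT t2.isClosed t3 ?_ fun y hy => by simp only [t5 y hy, zero_smul]
    exact t1.contDiffOn.smul ((mulL n).contDiff.comp_contDiffOn (ContDiffOn.sum fun i _ =>
      contDiffOn_const.clmul (he.contDiffOn_omg hT i)))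
  · exact HasCompactSupport.intro t2 fun y hy => by simp only [t5 y hy, zero_smul]
  · intro w hw
    funext y
    by_cases hy : y ∈ L
    · simp only [Pop, t4 y hy, one_smul, mulL_apply, dirac, nab_eq, der_eq_sum, mul_add,
        Finset.sum_add_distrib, Finset.sum_mul, Finset.mul_sum, mul_smul_comm, smul_mul_assoc,
        mul_assoc]
      rw [Finset.sum_comm]
    · have h0 : w =ᶠ[𝓝 y] fun _ => 0 :=
        eventually_of_mem (hL.isClosed.isOpen_compl.mem_nhds hy) hw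
      rw [dirac_congr h0, dirac_zero, Pop, h0.fderiv_eq, hw y hy]
      simp

theorem le_sqrt_mul {a b c : ℝ} (ha : 0 ≤ a) (hb : 0 ≤ b) (h : a ^ 2 ≤ c * b ^ 2) :
    a ≤ Real.sqrt c * b := by
  have h1 := Real.sqrt_le_sqrt h
  rwa [Real.sqrt_sq ha, Real.sqrt_mul' _ (sq_nonneg b), Real.sqrt_sq hb] at h1

end RegAux

end SZ
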