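import Pool.Agent.P.MP_8db816_gt.SZ.Symm
import Pool.Agent.P.MP_8db816_gt.SZ.EuMoll
import Pool.Agent.P.MP_8db816_gt.SZ.AbsESA
import Pool.Agent.P.MP_8db816_gt.SZ.RegAux

/-! Weak solutions are locally strong solutions (Friedrichs). -/

noncomputable section

namespace SZ

open Set CliffordAlgebra Filter Topology MeasureTheory Atl.Sec
open scoped ContDiff RealInnerProductSpace

variable {n : ℕ} {M : Atl n}

namespace RegAux

/-- A linear map built from an additive family of chart expressions. -/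
def mkLin (a : M.A) (Φ : M.Sec → E n → Cl n) (hadd : ∀ x y, Φ (x + y) = Φ x + Φ y)
    (hsmul : ∀ (c : ℝ) x, Φ (c • x) = c • Φ x) (hgl : ∀ x, M.Gl a (Φ x)) : M.Sec →ₗ[ℝ] M.Sec where
  toFun x := M.glob a (Φ x)
  map_add' x y := by rw [hadd, glob_add (hgl x) (hgl y)]
  map_smul' c x := by rw [hsmul, glob_smul (hgl x)]; rfl

theorem gl_of {a : M.A} {w : E n → Cl n} {L : Set (E n)} (hw : ContDiff ℝ ∞ w) (hL : IsCompact L)
    (hLa : L ⊆ (M.φ a).target) (h0 : ∀ y ∉ L, w y = 0) : M.Gl a w :=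
  ⟨hw.contDiffOn, L, hL, hLa, fun y _ hy => h0 y hy⟩

theorem Bd.glob_le {ι : Type} {ν : ι → ℝ} {U : ι → E n → Cl n} (hν : ∀ i, 0 ≤ ν i)
    (h : Bd (fun i => ν i ^ 2) U) {a : M.A} {L : Set (E n)} (hL : IsCompact L)
    (hLa : L ⊆ (M.φ a).target) (h0 : ∀ i, ∀ y ∉ L, U i y = 0) :
    ∃ c : ℝ, ∀ i, ‖M.glob a (U i)‖ ≤ c * ν i := by
  obtain ⟨s, c, c0, hc⟩ := h
  obtain ⟨C, C0, hC⟩ := norm_glob_le hL hLa
  refine ⟨Real.sqrt (C * c), fun i => le_sqrt_mul (norm_nonneg _) (hν i) ?_⟩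
  calc _ ≤ C * ∫ y in L, ‖U i y‖ ^ 2 := hC _ (s i).1.contDiffOn fun y _ hy => h0 i y hy
    _ ≤ C * ∫ y, ‖U i y‖ ^ 2 := mul_le_mul_of_nonneg_left
        (setIntegral_le_integral (s i).int (Eventually.of_forall fun _ => sq_nonneg _)) C0.le
    _ ≤ C * (c * ν i ^ 2) := mul_le_mul_of_nonneg_left (hc i) C0.le
    _ = _ := (mul_assoc _ _ _).symm

theorem bd_loc {ι : Type} {ν : ι → ℝ} {ψ : ι → M.Sec} {K : Set M.X} (hK : IsCompact K) {a : M.A}
    (hKa : K ⊆ (M.φ a).source) (hs : ∀ i, (ψ i).Sup K) {c : ℝ} (hc : ∀ i, ‖ψ i‖ ≤ c * ν i) :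
    Bd (fun i => ν i ^ 2) fun i => (ψ i).loc a := by
  obtain ⟨C, C0, hC⟩ := norm_loc_equiv hK hKa
  refine ⟨fun i => ⟨contDiff_loc (hs i) hK hKa, hasCompactSupport_loc (hs i) hK hKa⟩,
    C * c ^ 2, by positivity, fun i => ?_⟩
  calc _ ≤ C * ‖ψ i‖ ^ 2 := (hC _ (hs i)).1
    _ ≤ C * (c * ν i) ^ 2 :=
        mul_le_mul_of_nonneg_left (pow_le_pow_left₀ (norm_nonneg _) (hc i) 2) C0.le
    _ = _ := by ring

theorem exists_bound {f : M.X → ℝ} (hf : ContinuousOn f M.car) {K : Set M.X} (hK : IsCompact K)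
    (hKM : K ⊆ M.car) (h0 : ∀ x ∈ M.car, x ∉ K → f x = 0) :
    ∃ c : ℝ, 0 ≤ c ∧ ∀ x ∈ M.car, |f x| ≤ c := by
  obtain ⟨c, hc⟩ := hK.exists_bound_of_continuousOn (hf.mono hKM)
  refine ⟨max c 0, le_max_right _ _, fun x hx => ?_⟩
  by_cases h : x ∈ K
  · exact (hc x h).trans (le_max_left _ _)
  · rw [h0 x hx h, abs_zero]
    exact le_max_right _ _

theorem loc_mul {η : M.X → ℝ} (hη : M.Sm η) (x : M.Sec) {a : M.A} {z : E n}
    (hz : z ∈ (M.φ a).target) : (M.mul η x).loc a z = η ((M.φ a).symm z) • x.loc a z := by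
  rw [loc_of_mem _ hz, loc_of_mem _ hz, fam_mul hη]

theorem sup_mul {η : M.X → ℝ} (hη : M.Sm η) {K : Set M.X} (h0 : ∀ x ∈ M.car, x ∉ K → η x = 0)
    (x : M.Sec) : (M.mul η x).Sup K := by
  intro z hz
  rw [ev_mul hη]
  by_cases h : z ∈ M.car
  · rw [h0 z h hz, zero_smul]
  · rw [ev_of_notMem _ h, smul_zero]

theorem loc_dir_eq {ψ : M.Sec} {K : Set M.X} (h : ψ.Sup K) (hK : IsCompact K) {a : M.A}
    (hKa : K ⊆ (M.φ a).source) : (M.Dir ψ).loc a = dirac (M.e a) (ψ.loc a) := by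
  funext z
  by_cases hz : z ∈ (M.φ a).target
  · exact loc_dir ψ hz
  · have hz' : z ∉ M.φ a '' K := by
      rintro ⟨x, hx, rfl⟩
      exact hz ((M.φ a).map_source (hKa hx))
    have h0 : ψ.loc a =ᶠ[𝓝 z] fun _ => 0 :=
      eventually_of_mem ((isCompact_chart_image hK hKa).isClosed.isOpen_compl.mem_nhds hz')
        fun y hy => loc_eq_zero h hy
    rw [dirac_congr h0, dirac_zero]
    exact indicator_of_notMem hz _

end RegAux

open RegAux in
theorem reg_mul_chart {η : M.X → ℝ} (hη : M.Sm η) {K : Set M.X} (hK : IsCompact K) {a : M.A}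
    (hKa : K ⊆ (M.φ a).source) (h0 : ∀ x ∈ M.car, x ∉ K → η x = 0) : Reg M.Dir (M.mul η) := by
  obtain ⟨m⟩ := nonempty_moll n (Cl n)
  have hT : IsOpen (M.φ a).target := (M.φ a).open_target
  have hKM : K ⊆ M.car := hKa.trans (M.source_subset a)
  have hK0 : IsCompact (M.φ a '' K) := isCompact_chart_image hK hKa
  have hK0T : M.φ a '' K ⊆ (M.φ a).target := by
    rintro _ ⟨x, hx, rfl⟩
    exact (M.φ a).map_source (hKa hx)
  obtain ⟨r, r0, hLT⟩ := hK0.exists_cthickening_subset_open hT hK0T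
  set L := Metric.cthickening r (M.φ a '' K) with hLdef
  have hL : IsCompact L := hK0.cthickening
  have hK0L : M.φ a '' K ⊆ L := Metric.self_subset_cthickening _
  obtain ⟨k0, hk0⟩ := exists_nat_one_div_lt r0
  have hsupp : ∀ (k : ℕ) (w : E n → Cl n), (∀ y ∉ M.φ a '' K, w y = 0) →
      ∀ y ∉ L, m.J (k + k0) w y = 0 := by
    intro k w hw y hy
    by_contra h
    have h1 : tsupport w ⊆ M.φ a '' K :=
      closure_minimal (fun z hz => by_contra fun h' => hz (hw z h')) hK0.isClosed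
    have h2 : 1 / (((k + k0 : ℕ) : ℝ) + 1) ≤ r := by
      refine le_trans (one_div_le_one_div_of_le (by positivity) ?_) hk0.le
      push_cast
      linarith [Nat.cast_nonneg (α := ℝ) k]
    exact hy (Metric.cthickening_mono h2 _
      (Metric.cthickening_subset_of_subset _ h1 (m.supp _ w h)))
  obtain ⟨θ, L', t1, t2, t3, t4, t5⟩ := exists_cut hT hL hLT
  obtain ⟨A, B, hA, hAs, hB, hBs, hP⟩ := exists_coef (M.fr a) hT hL hLT
  have hη0 : ∀ z ∈ (M.φ a).target, z ∉ M.φ a '' K → η ((M.φ a).symm z) = 0 := by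
    intro z hz hzK
    refine h0 _ (M.source_subset a ((M.φ a).map_target hz)) fun h => hzK ⟨_, h, ?_⟩
    exact (M.φ a).right_inv hz
  have hd : ∀ z ∈ (M.φ a).target, dens (M.e a) z ≠ 0 := fun z hz => ((M.fr a).dens_pos hz).ne'
  -- the two scalar weights
  set q : E n → ℝ := (M.φ a).target.indicator
    fun z => η ((M.φ a).symm z) * (dens (M.e a) z)⁻¹ with hq
  have hq1 : ∀ z ∈ (M.φ a).target, q z = η ((M.φ a).symm z) * (dens (M.e a) z)⁻¹ :=
    fun z hz => indicator_of_mem hz _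
  have hq0 : ∀ z ∉ M.φ a '' K, q z = 0 := by
    intro z hz
    by_cases hzT : z ∈ (M.φ a).target
    · rw [hq1 z hzT, hη0 z hzT hz, zero_mul]
    · exact indicator_of_notMem hzT _
  have hqs : ContDiff ℝ ∞ q := contDiff_of_off hT hK0.isClosed hK0T
    (((hη a).mul ((M.fr a).contDiffOn_dens.inv hd)).congr hq1) hq0
  set V : M.Sec → E n → Cl n := fun y z => (θ z * dens (M.e a) z) • y.loc a z with hV
  have hV0 : ∀ y, ∀ z ∉ L', V y z = 0 := fun y z hz => by
    simp only [hV, t5 z hz, zero_mul, zero_smul]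
  have hVs : ∀ y, SC (V y) := fun y =>
    ⟨contDiff_of_off hT t2.isClosed t3
      ((t1.contDiffOn.mul (M.fr a).contDiffOn_dens).smul (contDiffOn_loc y a)) (hV0 y),
      HasCompactSupport.intro t2 (hV0 y)⟩
  set W : M.Sec → E n → Cl n := fun x => (M.mul η x).loc a with hW
  have hW0 : ∀ x, ∀ z ∉ M.φ a '' K, W x z = 0 := fun x z hz => loc_eq_zero (sup_mul hη h0 x) hz
  have hWs : ∀ x, SC (W x) := fun x => ⟨contDiff_loc (sup_mul hη h0 x) hK hKa,
    hasCompactSupport_loc (sup_mul hη h0 x) hK hKa⟩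
  have hgl : ∀ k x, M.Gl a (m.J (k + k0) (W x)) := fun k x =>
    gl_of ((hWs x).moll m _).1 hL hLT (hsupp k _ (hW0 x))
  have hgl' : ∀ k y, M.Gl a (fun z => q z • m.J (k + k0) (V y) z) := fun k y =>
    gl_of (hqs.smul ((hVs y).moll m _).1) hK0 hK0T fun z hz => by rw [hq0 z hz, zero_smul]
  let J : ℕ → M.Sec →ₗ[ℝ] M.Sec := fun k => mkLin a (fun x => m.J (k + k0) (W x))
    (fun x y => by
      simp only [hW, map_add, loc_add]
      exact m.add _ _ _ (hWs x).cont (hWs x).2 (hWs y).cont (hWs y).2)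
    (fun c x => by
      simp only [hW, map_smul, loc_smul]
      exact m.smul _ _ _) (hgl k)
  let J' : ℕ → M.Sec →ₗ[ℝ] M.Sec := fun k => mkLin a (fun y z => q z • m.J (k + k0) (V y) z)
    (fun x y => by
      funext z
      have h1 : V (x + y) = fun z => V x z + V y z := by
        funext z
        simp only [hV, loc_add, Pi.add_apply, smul_add]
      rw [h1, moll_add m _ (hVs x) (hVs y), smul_add]
      rfl)
    (fun c x => by
      funext z
      have h1 : V (c • x) = fun z => c • V x z := by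
        funext z
        simp only [hV, loc_smul, Pi.smul_apply]
        exact smul_comm _ _ _
      rw [h1, moll_smul m, smul_comm]
      rfl) (hgl' k)
  have hJ : ∀ k x, J k x = M.glob a (m.J (k + k0) (W x)) := fun _ _ => rfl
  have hJ' : ∀ k y, J' k y = M.glob a (fun z => q z • m.J (k + k0) (V y) z) := fun _ _ => rfl
  -- bounds
  obtain ⟨c1, c10, hc1⟩ := exists_bound hη.continuousOn hK hKM h0
  obtain ⟨c2, c20, hc2⟩ := exists_bound hη.continuousOn_gn hK hKM (fun x hx hxK => by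
    have h1 : η =ᶠ[𝓝 x] fun _ => 0 :=
      eventually_of_mem (inter_mem (M.isOpen_car.mem_nhds hx)
        (hK.isClosed.isOpen_compl.mem_nhds hxK)) fun y hy => h0 y hy.1 hy.2
    rw [Atl.gn_congr h1, Atl.gn_const])
  have hgr : ∀ x : M.Sec, M.gr η x = M.Dir (M.mul η x) - M.mul η (M.Dir x) := fun x => by
    rw [dir_mul hη, add_sub_cancel_right]
  have hgs : ∀ x : M.Sec, (M.gr η x).Sup K := fun x z hz => by
    rw [hgr, ev_sub, (sup_mul hη h0 x).dir hK.isClosed z hz, sup_mul hη h0 _ z hz, sub_zero]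
  have bW : Bd (fun i : ℕ × M.Sec => ‖i.2‖ ^ 2) fun i => W i.2 :=
    bd_loc hK hKa (fun i => sup_mul hη h0 i.2) fun i => norm_mul_le hη c10 hc1 i.2
  have bW' : Bd (fun x : M.Sec => ‖x‖ ^ 2) fun x => W x :=
    bd_loc hK hKa (fun x => sup_mul hη h0 x) fun x => norm_mul_le hη c10 hc1 x
  have bG : Bd (fun i : ℕ × M.Sec => ‖i.2‖ ^ 2) fun i => (M.gr η i.2).loc a :=
    bd_loc hK hKa (fun i => hgs i.2) fun i =>
      norm_gr_le hη c20 (fun x hx => (le_abs_self _).trans (hc2 x hx)) i.2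
  have hPoff : ∀ w : E n → Cl n, (∀ y ∉ L, w y = 0) → ∀ y ∉ L, Pop A B w y = 0 := by
    intro w hw y hy
    have h1 : w =ᶠ[𝓝 y] fun _ => 0 := eventually_of_mem (hL.isClosed.isOpen_compl.mem_nhds hy) hw
    rw [← hP w hw, dirac_congr h1, dirac_zero]
  have hDJ : ∀ k x, M.Dir (J k x) = M.glob a (Pop A B (m.J (k + k0) (W x))) := fun k x => by
    rw [hJ, dir_glob (hgl k x), hP _ (hsupp k _ (hW0 x))]
  have hWD : ∀ x, W (M.Dir x) = fun z => Pop A B (W x) z - (M.gr η x).loc a z := fun x => by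
    have h1 : M.mul η (M.Dir x) = M.Dir (M.mul η x) - M.gr η x := by
      rw [dir_mul hη, add_sub_cancel_left]
    simp only [hW]
    rw [h1, loc_sub, loc_dir_eq (sup_mul hη h0 x) hK hKa,
      hP _ fun y hy => hW0 x y fun h => hy (hK0L h)]
    rfl
  obtain ⟨d1, hd1⟩ := Bd.glob_le (ν := fun i : ℕ × M.Sec => ‖i.2‖) (fun i => norm_nonneg i.2)
    (bW.moll m fun i => i.1 + k0) hL hLT fun i => hsupp i.1 _ (hW0 i.2)
  obtain ⟨d2, hd2⟩ := Bd.glob_le (ν := fun i : ℕ × M.Sec => ‖i.2‖) (fun i => norm_nonneg i.2)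
    (bW.comm bG m (fun i => i.1 + k0) hA hAs hB hBs) hL hLT fun i y hy => by
      rw [hPoff _ (hsupp i.1 _ (hW0 i.2)) y hy, ← hWD, hsupp i.1 _ (hW0 _) y hy, sub_zero]
  refine reg_of_moll (sym_dir M) J J' (max d1 d2) ?_ ?_ ?_ ?_ ?_
  · intro k x y
    rw [real_inner_comm (J' k y) x, hJ, hJ', inner_glob (hgl k x), inner_glob (hgl' k y)]
    have e1 : ∫ z in (M.φ a).target, dens (M.e a) z * ⟪m.J (k + k0) (W x) z, y.loc a z⟫ =
        ∫ z, ⟪m.J (k + k0) (W x) z, V y z⟫ := by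
      refine Eq.trans ?_ (setIntegral_eq_integral_of_forall_compl_eq_zero (s := (M.φ a).target)
        fun z hz => by rw [hsupp k _ (hW0 x) z fun h => hz (hLT h), inner_zero_left])
      refine setIntegral_congr_fun hT.measurableSet fun z _ => ?_
      by_cases hz : z ∈ L
      · simp only [hV, t4 z hz, one_mul, real_inner_smul_right]
      · simp only [hsupp k _ (hW0 x) z hz, inner_zero_left, mul_zero]
    have e2 : ∫ z in (M.φ a).target, dens (M.e a) z * ⟪q z • m.J (k + k0) (V y) z, x.loc a z⟫ =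
        ∫ z, ⟪W x z, m.J (k + k0) (V y) z⟫ := by
      refine Eq.trans ?_ (setIntegral_eq_integral_of_forall_compl_eq_zero (s := (M.φ a).target)
        fun z hz => by rw [hW0 x z fun h => hz (hK0T h), inner_zero_left])
      refine setIntegral_congr_fun hT.measurableSet fun z hz => ?_
      simp only [hW]
      rw [loc_mul hη x hz, hq1 z hz, real_inner_smul_left, real_inner_smul_left,
        real_inner_comm]
      have := hd z hz
      field_simp
    rw [e1, e2]
    exact m.adj _ _ _ (hWs x).cont (hWs x).2 (hVs y).cont (hVs y).2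
  · intro k x
    exact (hd1 (k, x)).trans (mul_le_mul_of_nonneg_right (le_max_left _ _) (norm_nonneg _))
  · intro k
    obtain ⟨d, hd⟩ := Bd.glob_le (ν := fun x : M.Sec => ‖x‖) (fun x => norm_nonneg x)
      (bW'.pop_moll m (k + k0) hA hAs hB hBs) hL hLT fun x => hPoff _ (hsupp k _ (hW0 x))
    exact ⟨d, fun x => by rw [LinearMap.comp_apply, hDJ]; exact hd x⟩
  · intro k x
    refine le_trans (le_of_eq ?_)
      ((hd2 (k, x)).trans (mul_le_mul_of_nonneg_right (le_max_right _ _) (norm_nonneg _)))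
    have g1 : M.Gl a (Pop A B (m.J (k + k0) (W x))) := by
      rw [← hP _ (hsupp k _ (hW0 x))]
      exact (hgl k x).dirac
    rw [hDJ, hJ, ← glob_sub g1 (hgl k _), hWD]
    rfl
  · intro y
    obtain ⟨C, C0, hC⟩ := norm_le_of_compact hK hKM
    obtain ⟨Q, hQ⟩ := hqs.continuous.bounded_above_of_compact_support
      (HasCompactSupport.intro hK0 hq0)
    have Q0 : 0 ≤ Q := (norm_nonneg _).trans (hQ 0)
    have hlim := Metric.tendstoUniformly_iff.1 (m.lim (V y) (hVs y).cont (hVs y).2)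
    rw [Metric.tendsto_atTop]
    intro ε ε0
    have δ0 : 0 < ε / (C * Q + 1) := by positivity
    obtain ⟨N, hN⟩ := eventually_atTop.1 (hlim _ δ0)
    refine ⟨N, fun k hk => ?_⟩
    have hs : (J' k y - M.mul η y).Sup K := by
      intro z hz
      have h1 : (J' k y).Sup K := by
        rw [hJ']
        refine (sup_glob (L := M.φ a '' K) fun z _ hz => by rw [hq0 z hz, zero_smul]).mono ?_
        rintro _ ⟨_, ⟨⟨x, hx, rfl⟩, -⟩, rfl⟩
        rwa [(M.φ a).left_inv (hKa hx)]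
      rw [ev_sub, h1 z hz, sup_mul hη h0 y z hz, sub_zero]
    have hb : ∀ x ∈ K, ‖(J' k y - M.mul η y).ev x‖ ≤ Q * (ε / (C * Q + 1)) := by
      intro x hx
      have hxa := hKa hx
      have hz := (M.φ a).map_source hxa
      have h1 : (M.mul η y).fam a x = q (M.φ a x) • V y (M.φ a x) := by
        simp only [hV]
        rw [fam_mul hη, hq1 _ hz, t4 _ (hK0L ⟨x, hx, rfl⟩), loc_apply y hxa,
          (M.φ a).left_inv hxa, smul_smul, one_mul, mul_assoc, inv_mul_cancel₀ (hd _ hz), mul_one]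
      rw [norm_ev _ hxa, fam_sub, hJ', fam_glob (hgl' k y) hxa, h1, ← smul_sub, norm_smul,
        ← dist_eq_norm, dist_comm]
      exact mul_le_mul (hQ _) (hN (k + k0) (le_add_right hk) _).le dist_nonneg Q0
    rw [dist_eq_norm]
    refine lt_of_le_of_lt (hC _ _ (by positivity) hs hb) ?_
    rw [← mul_assoc, ← mul_div_assoc, div_lt_iff₀ (by positivity)]
    nlinarith

end SZ
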