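import Pool.Agent.P.MP_8db816_gt.SZ.EmbCalc

/-! Restriction of a manifold with boundary to a union of components. -/

noncomputable section

namespace SZ

open Set CliffordAlgebra Filter Topology
open scoped ContDiff RealInnerProductSpace

variable {n m a : ℕ}

/-- `U` and `V` cut out open and closed parts of the interior and of the boundary of `L` that are
compatible with the collar. -/
structure Clo (L : Col m) (U : Set L.Z.X) (V : Set L.M.X) : Prop where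
  oU : IsOpen U
  oV : IsOpen V
  cU : IsOpen (L.Z.car \ U)
  cV : IsOpen (L.M.car \ V)
  col : ∀ x ∈ L.M.car, ∀ t ∈ Ioo 0 L.ε, L.e.f (x, t) ∈ U ↔ x ∈ V

/-- The restriction of an embedding to open parts. -/
def Emb.restr {M N : Atl n} (f : Emb M N) (U : Set M.X) (hU : IsOpen U) (T : Set N.X)
    (hT : IsOpen T) : Emb (M.restr U hU) (N.restr T hT) :=
  (N.incl T hT).symm.comp (f.comp (M.incl U hU))

section

variable {M N : Atl n} (f : Emb M N) {U : Set M.X} (hU : IsOpen U) {T : Set N.X} (hT : IsOpen T)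

theorem Emb.restr_p : (f.restr U hU T hT).p = f.p := by
  simp [Emb.restr]

theorem Emb.restr_apply (x : M.X) : (f.restr U hU T hT).f x = f.f x := rfl

theorem Emb.restr_source : (f.restr U hU T hT).f.source = U ∩ f.f.source ∩ f.f ⁻¹' T := by
  ext x
  exact ⟨fun h => ⟨⟨h.1.1.2, h.1.2⟩, h.2.2⟩,
    fun h => ⟨⟨⟨f.src h.1.2, h.1.1⟩, h.1.2⟩, f.map_car h.1.2, h.2⟩⟩

theorem Emb.restr_source_eq (hs : f.f.source = M.car) (h : ∀ x ∈ M.car, f.f x ∈ T ↔ x ∈ U) :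
    (f.restr U hU T hT).f.source = (M.restr U hU).car := by
  rw [Emb.restr_source, Atl.car_restr, hs]
  ext x
  exact ⟨fun k => ⟨k.1.2, k.1.1⟩, fun k => ⟨⟨k.2, k.1⟩, (h x k.1).2 k.2⟩⟩

theorem Emb.restr_target_eq (hs : f.f.source = M.car) (h : ∀ x ∈ M.car, f.f x ∈ T ↔ x ∈ U) :
    (f.restr U hU T hT).f.target = f.f.target ∩ T := by
  ext y
  refine ⟨fun k => ⟨k.2.1, k.1.2⟩, fun k => ⟨⟨f.tgt k.1, k.2⟩, k.1, ?_⟩⟩
  have h1 : f.f.symm y ∈ M.car := hs ▸ f.f.map_target k.1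
  exact ⟨h1, (h _ h1).1 ((f.f.right_inv k.1).symm ▸ k.2)⟩

/-- Corestriction to an open part does not change the lift. -/
theorem Emb.corestr_σ {x : M.X} (hx : x ∈ f.f.source) {a : M.A} {c : N.A}
    (ha : x ∈ (M.φ a).source) (hc : f.f x ∈ (N.φ c).source) (hc' : f.f x ∈ T) :
    ((N.incl T hT).symm.comp f).σ c a x = f.σ c a x := by
  have h1 : x ∈ ((N.incl T hT).symm.comp f).f.source := ⟨hx, f.map_car hx, hc'⟩
  have h2 : f.f x ∈ ((N.restr T hT).φ c).source := ⟨hc, hc'⟩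
  rw [Emb.comp_σ _ _ (d := c) h1 ha hc h2]
  change star (N.s c c (f.f x)) * _ = _
  rw [N.s_self hc, star_one, one_mul]

theorem Emb.restr_σ {x : M.X} (hx : x ∈ f.f.source) {a : M.A} {c : N.A}
    (ha : x ∈ (M.φ a).source) (ha' : x ∈ U) (hc : f.f x ∈ (N.φ c).source) (hc' : f.f x ∈ T) :
    (f.restr U hU T hT).σ c a x = f.σ c a x := by
  have h1 : x ∈ (f.comp (M.incl U hU)).f.source := ⟨⟨f.src hx, ha'⟩, hx⟩
  refine (Emb.corestr_σ (f.comp (M.incl U hU)) hT h1 ⟨ha, ha'⟩ hc hc').trans ?_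
  rw [Emb.comp_σ _ _ (d := a) h1 ⟨ha, ha'⟩ ha hc]
  exact f.right c a a x hx ha ha hc

end

variable {L L₁ : Col m} {U : Set L.Z.X} {V : Set L.M.X} {U₁ : Set L₁.Z.X} {V₁ : Set L₁.M.X}

/-- The restricted collar. -/
def Clo.e (h : Clo L U V) : Emb (cyl (L.M.restr V h.oV)) (L.Z.restr U h.oU) :=
  (L.Z.incl U h.oU).symm.comp (L.e.comp ((L.M.incl V h.oV).prod (Emb.id line)))

theorem Clo.e_apply (h : Clo L U V) (z : L.M.X × ℝ) : h.e.f z = L.e.f z := rfl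

theorem Clo.par (h : Clo L U V) : h.e.p = 1 := by
  simp [Clo.e, L.par]

theorem Clo.src (h : Clo L U V) : h.e.f.source = (L.M.restr V h.oV).car ×ˢ Ioo 0 L.ε := by
  rw [Atl.car_restr]
  ext z
  constructor
  · intro k
    have h1 : z ∈ L.M.car ×ˢ Ioo 0 L.ε := L.src ▸ k.1.2
    exact ⟨k.1.1.1, h1.2⟩
  · intro k
    have h1 : z ∈ L.e.f.source := L.src ▸ ⟨k.1.1, k.2⟩
    exact ⟨⟨⟨k.1, by simp [car_line]⟩, h1⟩, L.e.map_car h1, (h.col _ k.1.1 _ k.2).2 k.1.2⟩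

theorem Clo.e_σ (h : Clo L U V) {z : L.M.X × ℝ} (hz : z ∈ L.e.f.source) {b : (cyl L.M).A}
    {c : L.Z.A} (hb : z ∈ ((cyl L.M).φ b).source) (hb' : z.1 ∈ V)
    (hc : L.e.f z ∈ (L.Z.φ c).source) (hc' : L.e.f z ∈ U) : h.e.σ c b z = L.e.σ c b z := by
  have h1 : z ∈ (L.e.comp ((L.M.incl V h.oV).prod (Emb.id line))).f.source :=
    ⟨⟨⟨Atl.mem_car.2 ⟨_, hb.1⟩, hb'⟩, by simp [car_line]⟩, hz⟩
  have h2 : z ∈ ((cyl (L.M.restr V h.oV)).φ b).source := ⟨⟨hb.1, hb'⟩, hb.2⟩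
  refine (Emb.corestr_σ _ h.oU h1 h2 hc hc').trans ?_
  rw [Emb.comp_σ _ _ (d := b) h1 h2 hb hc]
  exact L.e.right c b b z hz hb hb hc

theorem Clo.diff_eq (h : Clo L U V) {I : Set ℝ} (hI : I ⊆ Ioo 0 L.ε) :
    (L.Z.restr U h.oU).car \ h.e.f '' ((L.M.restr V h.oV).car ×ˢ I) =
      (L.Z.car \ L.e.f '' (L.M.car ×ˢ I)) ∩ U := by
  rw [Atl.car_restr, Atl.car_restr]
  ext y
  constructor
  · rintro ⟨h1, h2⟩
    refine ⟨⟨h1.1, ?_⟩, h1.2⟩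
    rintro ⟨z, hz, rfl⟩
    exact h2 ⟨z, ⟨⟨hz.1, (h.col _ hz.1 _ (hI hz.2)).1 h1.2⟩, hz.2⟩, rfl⟩
  · rintro ⟨⟨h1, h2⟩, h3⟩
    exact ⟨⟨h1, h3⟩, fun ⟨z, hz, hz'⟩ => h2 ⟨z, ⟨hz.1.1, hz.2⟩, hz'⟩⟩

theorem Clo.cptM (h : Clo L U V) : IsCompact (L.M.restr V h.oV).car := by
  rw [Atl.car_restr]
  convert L.cptM.diff h.cV using 1
  rw [sdiff_sdiff_right_self]

theorem Clo.cptZ (h : Clo L U V) : ∀ δ ∈ Ioo 0 L.ε, IsCompact ((L.Z.restr U h.oU).car \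
    h.e.f '' ((L.M.restr V h.oV).car ×ˢ Ioo 0 δ)) := by
  intro δ hδ
  rw [h.diff_eq (Ioo_subset_Ioo_right hδ.2.le)]
  convert (L.cptZ δ hδ).diff h.cU using 1
  ext y
  exact ⟨fun k => ⟨k.1, fun k' => k'.2 k.2⟩, fun k => ⟨k.1, not_not.1 fun k' => k.2 ⟨k.1.1, k'⟩⟩⟩

theorem Clo.opn (h : Clo L U V) : ∀ δ ∈ Ioo 0 L.ε, IsOpen ((L.Z.restr U h.oU).car \
    h.e.f '' ((L.M.restr V h.oV).car ×ˢ Ioc 0 δ)) := by
  intro δ hδ
  rw [h.diff_eq (Ioc_subset_Ioo_right hδ.2)]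
  exact (L.opn δ hδ).inter h.oU

/-- The restriction of `L`. -/
@[reducible] def Clo.restr (h : Clo L U V) : Col m where
  Z := L.Z.restr U h.oU
  M := L.M.restr V h.oV
  ε := L.ε
  ε_pos := L.ε_pos
  e := h.e
  par := h.par
  src := h.src
  cptM := h.cptM
  cptZ := h.cptZ
  opn := h.opn

theorem Part.k_mem_iff (P : Part L₁ L) (h₁ : Clo L₁ U₁ V₁) (h : Clo L U V)
    (hj : ∀ z ∈ L₁.Z.car, P.j.f z ∈ U ↔ z ∈ U₁) : ∀ x ∈ L₁.M.car, P.k.f x ∈ V ↔ x ∈ V₁ := by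
  intro x hx
  obtain ⟨h1, -, -, h4, h5, -⟩ :=
    P.sq (x, P.δ / 2) ⟨hx, half_pos P.δ_pos, half_lt_self P.δ_pos⟩
  have h6 := L₁.e.map_car h1
  rw [L₁.src] at h1
  rw [L.src] at h4
  rw [← h₁.col _ hx _ h1.2, ← hj _ h6, h5]
  exact (h.col _ h4.1 _ h4.2).symm

theorem Part.exists_restr (P : Part L₁ L) (h₁ : Clo L₁ U₁ V₁) (h : Clo L U V)
    (hj : ∀ z ∈ L₁.Z.car, P.j.f z ∈ U ↔ z ∈ U₁) :
    ∃ P' : Part h₁.restr h.restr, P'.j.f.target = P.j.f.target ∩ U ∧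
      P'.k.f.target = P.k.f.target ∩ V := by
  have hk := P.k_mem_iff h₁ h hj
  refine ⟨⟨P.j.restr U₁ h₁.oU U h.oU, P.k.restr V₁ h₁.oV V h.oV,
    (P.j.restr_p _ _).trans P.parj, (P.k.restr_p _ _).trans P.park,
    P.j.restr_source_eq _ _ P.srcj hj, P.k.restr_source_eq _ _ P.srck hk, P.δ, P.δ_pos,
    fun x hx => ?_⟩, P.j.restr_target_eq _ _ P.srcj hj, P.k.restr_target_eq _ _ P.srck hk⟩
  have hx1 : x.1 ∈ L₁.M.car ∩ V₁ := L₁.M.car_restr V₁ h₁.oV ▸ hx.1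
  obtain ⟨h1, h2, h3, h4, h5, h6⟩ := P.sq x ⟨hx1.1, hx.2⟩
  have k1 : x ∈ L₁.M.car ×ˢ Ioo 0 L₁.ε := L₁.src ▸ h1
  have k4 : (P.k.f x.1, x.2) ∈ L.M.car ×ˢ Ioo 0 L.ε := L.src ▸ h4
  have k5 : P.k.f x.1 ∈ V := (hk _ hx1.1).2 hx1.2
  have g1 : x ∈ h₁.e.f.source := h₁.src ▸ ⟨hx.1, k1.2⟩
  refine ⟨g1, ?_, ⟨?_, h3.2⟩, ?_, h5, fun c b b' a ha hb hb' hc => ?_⟩
  · exact P.j.restr_source_eq h₁.oU h.oU P.srcj hj ▸ h₁.e.map_car g1
  · exact P.k.restr_source_eq h₁.oV h.oV P.srck hk ▸ hx.1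
  · exact h.src ▸ ⟨L.M.car_restr V h.oV ▸ ⟨k4.1, k5⟩, k4.2⟩
  · have e1 := P.j.restr_σ h₁.oU h.oU h2 hb.1 hb.2 hc.1 hc.2
    have e2 := h₁.e_σ h1 (b := a) ⟨ha.1.1, ha.2⟩ ha.1.2 hb.1 hb.2
    have e3 := h.e_σ h4 (b := b') (c := c) ⟨hb'.1.1, hb'.2⟩ hb'.1.2 (h5 ▸ hc.1) (h5 ▸ hc.2)
    have e4 := P.k.restr_σ h₁.oV h.oV h3.1 ha.1.1 ha.1.2 hb'.1.1 hb'.1.2
    exact (congrArg₂ (· * ·) e1 e2).trans
      ((h6 c b b' a ⟨ha.1.1, ha.2⟩ hb.1 ⟨hb'.1.1, hb'.2⟩ hc.1).trans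
        (congrArg₂ (· * ·) e3 (congrArg (ten · _) e4)).symm)

section

variable (B : Atl a) (N : Atl n) {T : Set N.X} (hT : IsOpen T) {T' : Set (B.X × N.X)}
  (hT' : IsOpen T')

/-- The identity `B × (N | T) → (B × N) | T'`. -/
def prodRestr : Emb (B.prod (N.restr T hT)) ((B.prod N).restr T' hT') :=
  ((B.prod N).incl T' hT').symm.comp ((Emb.id B).prod (N.incl T hT))

theorem prodRestr_p : (prodRestr B N hT hT').p = 1 := by simp [prodRestr]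

theorem prodRestr_source (h : T' = B.car ×ˢ T) :
    (prodRestr B N hT hT').f.source = (B.prod (N.restr T hT)).car := by
  rw [Atl.car_prod, Atl.car_restr]
  ext z
  exact ⟨fun k => k.1, fun k => ⟨k, (B.car_prod N).ge ⟨k.1, k.2.1⟩, h.ge ⟨k.1, k.2.2⟩⟩⟩

theorem prodRestr_target (h : T' = B.car ×ˢ T) :
    (prodRestr B N hT hT').f.target = ((B.prod N).restr T' hT').car := by
  rw [Atl.car_restr]
  ext z
  exact ⟨fun k => k.1, fun k => ⟨k, (h.le k.2).1, ((B.car_prod N).le k.1).2, (h.le k.2).2⟩⟩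

theorem prodRestr_σ {z : B.X × N.X} {b c : B.A × N.A}
    (hb : z ∈ ((B.prod (N.restr T hT)).φ b).source) (hc : z ∈ ((B.prod N).φ c).source)
    (hc' : z ∈ T') : (prodRestr B N hT hT').σ c b z = (B.prod N).s c b z :=
  Emb.corestr_σ ((Emb.id B).prod (N.incl T hT)) hT'
    ⟨Atl.mem_car.2 ⟨_, hb.1⟩, Atl.mem_car.2 ⟨_, hb.2.1⟩, hb.2.2⟩ hb hc hc'

end

theorem Clo.exists_part_prod (h : Clo L U V) (B : Atl a) (hB : IsCompact B.car)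
    {U' : Set (B.X × L.Z.X)} {V' : Set (B.X × L.M.X)} (h' : Clo (L.prod B hB) U' V')
    (hU : U' = B.car ×ˢ U) (hV : V' = B.car ×ˢ V) :
    ∃ P : Part (h.restr.prod B hB) h'.restr, P.j.f.target = h'.restr.Z.car ∧
      P.k.f.target = h'.restr.M.car := by
  refine ⟨⟨prodRestr B L.Z h.oU h'.oU, prodRestr B L.M h.oV h'.oV, prodRestr_p .., prodRestr_p ..,
    prodRestr_source _ _ _ _ hU, prodRestr_source _ _ _ _ hV, L.ε, L.ε_pos, fun x hx => ?_⟩,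
    prodRestr_target _ _ h.oU h'.oU hU, prodRestr_target _ _ h.oV h'.oV hV⟩
  have g1 : x ∈ (h.restr.prod B hB).e.f.source := (h.restr.prod B hB).src ▸ hx
  have g2 : x.1 ∈ (prodRestr B L.M h.oV h'.oV).f.source :=
    prodRestr_source B L.M h.oV h'.oV hV ▸ hx.1
  have g3 : x ∈ h'.e.f.source := h'.src ▸ ⟨(prodRestr B L.M h.oV h'.oV).map_car g2, hx.2⟩
  have g4 : x ∈ (L.e.cylProd B).f.source := g3.1.2
  refine ⟨g1, ?_, ⟨g2, by simp [car_line]⟩, g3, rfl, fun c b b' a ha hb hb' hc => ?_⟩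
  · exact prodRestr_source B L.Z h.oU h'.oU hU ▸ (h.restr.prod B hB).e.map_car g1
  · have e1 := prodRestr_σ B L.Z h.oU h'.oU hb hc.1 hc.2
    have e2 := h.e_σ (z := (x.1.2, x.2)) g4.2 (b := (a.1.2, a.2)) ⟨ha.1.2.1, ha.2⟩ ha.1.2.2 hb.2.1
      hb.2.2
    have e3 := h'.e_σ g4 (b := b') (c := c) ⟨hb'.1.1, hb'.2⟩ hb'.1.2 hc.1 hc.2
    have e4 := prodRestr_σ B L.M h.oV h'.oV ha.1 hb'.1.1 hb'.1.2
    have ha' : x ∈ ((cyl (B.prod L.M)).φ a).source := ⟨⟨ha.1.1, ha.1.2.1⟩, ha.2⟩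
    exact (congrArg₂ (· * ·) e1 (congrArg (ten _ ·) e2)).trans
      (((L.e.cylProd B).left c b a x g4 ha' ⟨hb.1, hb.2.1⟩ hc.1).trans
        (((L.e.cylProd B).right c b' a x g4 ⟨hb'.1.1, hb'.2⟩ ha' hc.1).symm.trans
          (congrArg₂ (· * ·) e3 (congrArg (ten · _) e4)).symm))

end SZ
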