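import Pool.Agent.P.MP_8db816_gt.SZ.Meas
import Pool.Agent.P.MP_8db816_gt.SZ.EmbCalc
import Pool.Agent.P.MP_8db816_gt.SZ.Abs0

/-!
The pre-Hilbert space of smooth compactly supported spinors.
-/

noncomputable section

namespace SZ

open Set CliffordAlgebra Filter Topology
open scoped ContDiff RealInnerProductSpace

variable {n : ℕ} {M : Atl n}

/-- A smooth compactly supported section, given in all charts. -/
structure IsSec (M : Atl n) (ψ : M.A → M.X → Cl n) : Prop where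
  sm : ∀ a, ContDiffOn ℝ ∞ (ψ a ∘ (M.φ a).symm) (M.φ a).target
  off : ∀ a, ∀ x ∉ (M.φ a).source, ψ a x = 0
  cmp : ∀ a b, ∀ x ∈ (M.φ a).source, x ∈ (M.φ b).source → ψ a x = M.s a b x * ψ b x
  cpt : ∃ K, IsCompact K ∧ K ⊆ M.car ∧ ∀ a, ∀ x ∉ K, ψ a x = 0

theorem IsSec.add {ψ χ : M.A → M.X → Cl n} (h : IsSec M ψ) (h' : IsSec M χ) : IsSec M (ψ + χ) := by
  obtain ⟨K, k1, k2, k3⟩ := h.cpt
  obtain ⟨K', l1, l2, l3⟩ := h'.cpt
  refine ⟨fun a => (h.sm a).add (h'.sm a), fun a x hx => ?_, fun a b x ha hb => ?_,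
    K ∪ K', k1.union l1, union_subset k2 l2, fun a x hx => ?_⟩
  · rw [Pi.add_apply, Pi.add_apply, h.off a x hx, h'.off a x hx, add_zero]
  · simp only [Pi.add_apply]
    rw [h.cmp a b x ha hb, h'.cmp a b x ha hb, mul_add]
  · rw [Pi.add_apply, Pi.add_apply, k3 a x fun e => hx (Or.inl e), l3 a x fun e => hx (Or.inr e),
      add_zero]

theorem isSec_zero (M : Atl n) : IsSec M 0 :=
  ⟨fun _ => contDiffOn_const, fun _ _ _ => rfl, fun _ _ _ _ _ => (mul_zero _).symm,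
    ∅, isCompact_empty, empty_subset _, fun _ _ _ => rfl⟩

theorem IsSec.smul (c : ℝ) {ψ : M.A → M.X → Cl n} (h : IsSec M ψ) : IsSec M (c • ψ) := by
  obtain ⟨K, k1, k2, k3⟩ := h.cpt
  refine ⟨fun a => (h.sm a).const_smul c, fun a x hx => ?_, fun a b x ha hb => ?_,
    K, k1, k2, fun a x hx => ?_⟩
  · rw [Pi.smul_apply, Pi.smul_apply, h.off a x hx, smul_zero]
  · simp only [Pi.smul_apply]
    rw [h.cmp a b x ha hb, mul_smul_comm]
  · rw [Pi.smul_apply, Pi.smul_apply, k3 a x hx, smul_zero]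

/-- The sections as a submodule. -/
def secSub (M : Atl n) : Submodule ℝ (M.A → M.X → Cl n) where
  carrier := {ψ | IsSec M ψ}
  add_mem' := IsSec.add
  zero_mem' := isSec_zero M
  smul_mem' c _ h := IsSec.smul c h

/-- Smooth compactly supported spinors. -/
def Atl.Sec (M : Atl n) : Type := secSub M

instance : AddCommGroup M.Sec := inferInstanceAs (AddCommGroup (secSub M))

instance : Module ℝ M.Sec := inferInstanceAs (Module ℝ (secSub M))

namespace Atl.Sec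

/-- The components in the charts. -/
def fam (ψ : M.Sec) : M.A → M.X → Cl n := Subtype.val ψ

/-- The section with given components. -/
def mk' (ψ : M.A → M.X → Cl n) (h : IsSec M ψ) : M.Sec := Subtype.mk ψ h

theorem ok (ψ : M.Sec) : IsSec M ψ.fam := Subtype.property ψ

@[simp] theorem fam_mk' (ψ : M.A → M.X → Cl n) (h : IsSec M ψ) : (mk' ψ h).fam = ψ := rfl

theorem ext {ψ χ : M.Sec} (h : ∀ a x, ψ.fam a x = χ.fam a x) : ψ = χ :=
  Subtype.ext (funext fun a => funext (h a))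

@[simp] theorem fam_add (ψ χ : M.Sec) (a : M.A) (x : M.X) :
    (ψ + χ).fam a x = ψ.fam a x + χ.fam a x := rfl

@[simp] theorem fam_smul (c : ℝ) (ψ : M.Sec) (a : M.A) (x : M.X) :
    (c • ψ).fam a x = c • ψ.fam a x := rfl

@[simp] theorem fam_zero (a : M.A) (x : M.X) : (0 : M.Sec).fam a x = 0 := rfl

@[simp] theorem fam_neg (ψ : M.Sec) (a : M.A) (x : M.X) : (-ψ).fam a x = -ψ.fam a x := rfl

@[simp] theorem fam_sub (ψ χ : M.Sec) (a : M.A) (x : M.X) :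
    (ψ - χ).fam a x = ψ.fam a x - χ.fam a x := rfl

open Classical in
/-- The value at `x` in the chosen chart. -/
def ev (ψ : M.Sec) (x : M.X) : Cl n := if h : x ∈ M.car then ψ.fam (M.ch h) x else 0

/-- `ψ` vanishes outside `K`. -/
def Sup (ψ : M.Sec) (K : Set M.X) : Prop := ∀ x ∉ K, ψ.ev x = 0

variable {ψ χ : M.Sec} {x : M.X} {a : M.A} {K : Set M.X}

theorem ev_of_mem (ψ : M.Sec) (h : x ∈ M.car) : ψ.ev x = ψ.fam (M.ch h) x := dif_pos h

theorem ev_of_notMem (ψ : M.Sec) (h : x ∉ M.car) : ψ.ev x = 0 := dif_neg h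

theorem fam_eq (ψ : M.Sec) (ha : x ∈ (M.φ a).source) :
    ψ.fam a x = M.s a (M.ch (M.source_subset a ha)) x * ψ.ev x := by
  rw [ψ.ev_of_mem (M.source_subset a ha)]
  exact ψ.ok.cmp _ _ x ha (M.ch_spec _)

theorem ev_eq (ψ : M.Sec) (ha : x ∈ (M.φ a).source) :
    ψ.ev x = M.s (M.ch (M.source_subset a ha)) a x * ψ.fam a x := by
  rw [ψ.ev_of_mem (M.source_subset a ha)]
  exact ψ.ok.cmp _ _ x (M.ch_spec _) ha

theorem ext_ev (h : ∀ x ∈ M.car, ψ.ev x = χ.ev x) : ψ = χ := by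
  refine ext fun a x => ?_
  by_cases ha : x ∈ (M.φ a).source
  · rw [ψ.fam_eq ha, χ.fam_eq ha, h x (M.source_subset a ha)]
  · rw [ψ.ok.off a x ha, χ.ok.off a x ha]

@[simp] theorem ev_add (ψ χ : M.Sec) (x : M.X) : (ψ + χ).ev x = ψ.ev x + χ.ev x := by
  by_cases h : x ∈ M.car
  · simp only [ev_of_mem _ h, fam_add]
  · simp only [ev_of_notMem _ h, add_zero]

@[simp] theorem ev_smul (c : ℝ) (ψ : M.Sec) (x : M.X) : (c • ψ).ev x = c • ψ.ev x := by
  by_cases h : x ∈ M.car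
  · simp only [ev_of_mem _ h, fam_smul]
  · simp only [ev_of_notMem _ h, smul_zero]

@[simp] theorem ev_zero (x : M.X) : (0 : M.Sec).ev x = 0 := by
  by_cases h : x ∈ M.car
  · simp only [ev_of_mem _ h, fam_zero]
  · simp only [ev_of_notMem _ h]

@[simp] theorem ev_neg (ψ : M.Sec) (x : M.X) : (-ψ).ev x = -ψ.ev x := by
  by_cases h : x ∈ M.car
  · simp only [ev_of_mem _ h, fam_neg]
  · simp only [ev_of_notMem _ h, neg_zero]

@[simp] theorem ev_sub (ψ χ : M.Sec) (x : M.X) : (ψ - χ).ev x = ψ.ev x - χ.ev x := by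
  by_cases h : x ∈ M.car
  · simp only [ev_of_mem _ h, fam_sub]
  · simp only [ev_of_notMem _ h, sub_zero]

theorem ev_sum {ι : Type} (s : Finset ι) (ψ : ι → M.Sec) (x : M.X) :
    (∑ i ∈ s, ψ i).ev x = ∑ i ∈ s, (ψ i).ev x := by
  classical
  induction s using Finset.induction_on with
  | empty => simp
  | insert i s hi ih => rw [Finset.sum_insert hi, Finset.sum_insert hi, ev_add, ih]

theorem inner_ev (ψ χ : M.Sec) (ha : x ∈ (M.φ a).source) :
    ⟪ψ.ev x, χ.ev x⟫ = ⟪ψ.fam a x, χ.fam a x⟫ := by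
  rw [ψ.fam_eq ha, χ.fam_eq ha, inner_pin_mul (M.s_mem ha (M.ch_spec _)).1]

theorem norm_ev (ψ : M.Sec) (ha : x ∈ (M.φ a).source) : ‖ψ.ev x‖ = ‖ψ.fam a x‖ := by
  rw [ψ.fam_eq ha, norm_pin_mul (M.s_mem ha (M.ch_spec _)).1]

theorem sup_iff : ψ.Sup K ↔ ∀ a, ∀ x ∉ K, ψ.fam a x = 0 := by
  refine ⟨fun h a x hx => ?_, fun h x hx => ?_⟩
  · by_cases ha : x ∈ (M.φ a).source
    · rw [ψ.fam_eq ha, h x hx, mul_zero]
    · exact ψ.ok.off a x ha
  · by_cases hc : x ∈ M.car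
    · rw [ψ.ev_of_mem hc, h _ x hx]
    · exact ψ.ev_of_notMem hc

theorem exists_sup (ψ : M.Sec) : ∃ K, IsCompact K ∧ K ⊆ M.car ∧ ψ.Sup K := by
  obtain ⟨K, k1, k2, k3⟩ := ψ.ok.cpt
  exact ⟨K, k1, k2, sup_iff.2 k3⟩

theorem Sup.mono (h : ψ.Sup K) {K' : Set M.X} (h' : K ⊆ K') : ψ.Sup K' :=
  fun x hx => h x fun e => hx (h' e)

theorem sm_inner (ψ χ : M.Sec) : M.Sm fun x => ⟪ψ.ev x, χ.ev x⟫ := fun a =>
  ((ψ.ok.sm a).inner ℝ (χ.ok.sm a)).congr fun _ hy => inner_ev ψ χ ((M.φ a).map_target hy)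

theorem tst_inner (ψ χ : M.Sec) : M.Tst fun x => ⟪ψ.ev x, χ.ev x⟫ := by
  obtain ⟨K, k1, k2, k3⟩ := ψ.exists_sup
  exact ⟨(sm_inner ψ χ).continuousOn, K, k1, k2, fun x _ hx => by
    simp only [k3 x hx, inner_zero_left]⟩

theorem tst_norm_sq (ψ : M.Sec) : M.Tst fun x => ‖ψ.ev x‖ ^ 2 := by
  simpa only [real_inner_self_eq_norm_sq] using tst_inner ψ ψ

theorem int_symm (ψ χ : M.Sec) :
    (M.int fun x => ⟪χ.ev x, ψ.ev x⟫) = M.int fun x => ⟪ψ.ev x, χ.ev x⟫ :=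
  Atl.int_congr fun _ _ => real_inner_comm _ _

theorem int_self_nonneg (ψ : M.Sec) : 0 ≤ M.int fun x => ⟪ψ.ev x, ψ.ev x⟫ :=
  Atl.int_nonneg fun _ _ => real_inner_self_nonneg

theorem int_add_left (ψ ψ' χ : M.Sec) : (M.int fun x => ⟪(ψ + ψ').ev x, χ.ev x⟫) =
    (M.int fun x => ⟪ψ.ev x, χ.ev x⟫) + M.int fun x => ⟪ψ'.ev x, χ.ev x⟫ := by
  simp only [ev_add, inner_add_left]
  exact Atl.int_add (tst_inner ψ χ) (tst_inner ψ' χ)

theorem int_smul_left (ψ χ : M.Sec) (c : ℝ) : (M.int fun x => ⟪(c • ψ).ev x, χ.ev x⟫) =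
    c * M.int fun x => ⟪ψ.ev x, χ.ev x⟫ := by
  simp only [ev_smul, real_inner_smul_left]
  exact Atl.int_const_mul c _

theorem eq_zero_of_int (ψ : M.Sec) (h : (M.int fun x => ⟪ψ.ev x, ψ.ev x⟫) = 0) : ψ = 0 :=
  ext_ev fun x hx => by
    rw [ev_zero]
    exact inner_self_eq_zero.1
      (Atl.eq_zero_of_int (tst_inner ψ ψ) (fun _ _ => real_inner_self_nonneg) h x hx)

/-- The `L²` inner product. -/
@[reducible] def core (M : Atl n) : InnerProductSpace.Core ℝ M.Sec where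
  inner ψ χ := M.int fun x => ⟪ψ.ev x, χ.ev x⟫
  conj_inner_symm ψ χ := int_symm ψ χ
  re_inner_nonneg ψ := int_self_nonneg ψ
  add_left := int_add_left
  smul_left := int_smul_left
  definite := eq_zero_of_int

instance : NormedAddCommGroup M.Sec := (core M).toNormedAddCommGroup

instance : InnerProductSpace ℝ M.Sec := InnerProductSpace.ofCore (core M).toCore

theorem inner_def (ψ χ : M.Sec) : ⟪ψ, χ⟫ = M.int fun x => ⟪ψ.ev x, χ.ev x⟫ := rfl

theorem norm_sq (ψ : M.Sec) : ‖ψ‖ ^ 2 = M.int fun x => ‖ψ.ev x‖ ^ 2 := by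
  rw [← real_inner_self_eq_norm_sq, inner_def]
  simp only [real_inner_self_eq_norm_sq]

theorem norm_le {c : ℝ} (hc : 0 ≤ c) (h : ∀ x ∈ M.car, ‖ψ.ev x‖ ≤ c * ‖χ.ev x‖) :
    ‖ψ‖ ≤ c * ‖χ‖ := by
  refine (pow_le_pow_iff_left₀ (norm_nonneg _) (by positivity) two_ne_zero).1 ?_
  rw [mul_pow, norm_sq, norm_sq, ← Atl.int_const_mul]
  refine Atl.int_mono (tst_norm_sq ψ) ((tst_norm_sq χ).mul_left continuousOn_const) fun x hx => ?_
  rw [← mul_pow]
  exact pow_le_pow_left₀ (norm_nonneg _) (h x hx) 2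

/-- Uniform bounds give `L²` bounds for sections supported in a fixed compact set. -/
theorem norm_le_of_compact (hK : IsCompact K) (hKM : K ⊆ M.car) : ∃ C : ℝ, 0 ≤ C ∧
    ∀ (ψ : M.Sec) (δ : ℝ), 0 ≤ δ → ψ.Sup K → (∀ x ∈ K, ‖ψ.ev x‖ ≤ δ) → ‖ψ‖ ≤ C * δ := by
  obtain ⟨C, hC, h⟩ := Atl.int_le_of_compact hK hKM
  refine ⟨√C, Real.sqrt_nonneg _, fun ψ δ hδ hψ hb => ?_⟩
  refine (pow_le_pow_iff_left₀ (norm_nonneg _) (by positivity) two_ne_zero).1 ?_
  rw [mul_pow, Real.sq_sqrt hC, norm_sq]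
  refine (le_abs_self _).trans (h _ _ (by positivity) (fun x _ hx => by simp [hψ x hx])
    fun x hx => ?_)
  rw [abs_of_nonneg (by positivity)]
  exact pow_le_pow_left₀ (norm_nonneg _) (hb x hx) 2

end Atl.Sec

end SZ
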