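import Pool.Agent.P.MP_8db816_gt.SZ.Sec

/-!
The Dirac operator, multiplication by functions, bundle endomorphisms and Clifford multiplication by
gradients.
-/

noncomputable section

namespace SZ

open Set CliffordAlgebra Filter Topology
open scoped ContDiff RealInnerProductSpace

variable {n : ℕ} {M : Atl n}

open Atl.Sec

theorem SecOp_diff {F : Type} [NormedAddCommGroup F] [NormedSpace ℝ F] {a : M.A} {x : M.X}
    {w : E n → F} (hw : ContDiffOn ℝ ∞ w (M.φ a).target) (ha : x ∈ (M.φ a).source) :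
    DifferentiableAt ℝ w (M.φ a x) :=
  cov_diff hw (M.φ a).open_target ((M.φ a).map_source ha)

theorem SecOp_mem {a b : M.A} {x : M.X} (ha : x ∈ (M.φ a).source) (hb : x ∈ (M.φ b).source) :
    M.φ b x ∈ ((M.φ b).symm.trans (M.φ a)).source := by
  simp [ha, hb]

theorem SecOp_app {a b : M.A} {x : M.X} (hb : x ∈ (M.φ b).source) :
    ((M.φ b).symm.trans (M.φ a)) (M.φ b x) = M.φ a x := by
  simp [hb]

theorem isSec_dir (ψ : M.Sec) : IsSec M fun a => (M.φ a).source.indicator fun x =>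
    dirac (M.e a) (ψ.fam a ∘ (M.φ a).symm) (M.φ a x) where
  sm a := by
    refine ((M.fr a).contDiffOn_dirac (M.φ a).open_target (ψ.ok.sm a)).congr fun y hy => ?_
    simp only [Function.comp_apply, indicator_of_mem ((M.φ a).map_target hy),
      (M.φ a).right_inv hy]
  off a x hx := indicator_of_notMem hx _
  cmp a b x ha hb := by
    rw [indicator_of_mem ha, indicator_of_mem hb]
    have hU := ((M.φ b).symm.trans (M.φ a)).open_source
    have h := (M.lift a b).dirac_eq (ψ' := ψ.fam a ∘ (M.φ a).symm) (ψ := ψ.fam b ∘ (M.φ b).symm)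
      hU (M.φ a).open_target ((M.fr b).mono fun y hy => hy.1) (M.fr a)
      (fun y hy => (M.φ a).map_source hy.2) (SecOp_mem ha hb)
      (by rw [SecOp_app hb]; exact SecOp_diff (ψ.ok.sm a) ha) (SecOp_diff (ψ.ok.sm b) hb) (by
        filter_upwards [hU.mem_nhds (SecOp_mem ha hb)] with z hz
        have h1 : (M.φ b).symm z ∈ (M.φ a).source := hz.2
        have h2 : (M.φ b).symm z ∈ (M.φ b).source := (M.φ b).map_target hz.1
        change ψ.fam a ((M.φ a).symm (M.φ a ((M.φ b).symm z))) =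
          M.s a b ((M.φ b).symm z) * ψ.fam b ((M.φ b).symm z)
        rw [(M.φ a).left_inv h1]
        exact ψ.ok.cmp a b _ h1 h2)
    rw [SecOp_app hb, one_smul] at h
    rw [h, Function.comp_apply, (M.φ b).left_inv hb]
  cpt := by
    obtain ⟨K, hK, hKM, h0⟩ := ψ.ok.cpt
    refine ⟨K, hK, hKM, fun a x hx => ?_⟩
    by_cases ha : x ∈ (M.φ a).source
    · rw [indicator_of_mem ha, ← dirac_zero (e := M.e a) (y := M.φ a x)]
      refine dirac_congr ?_
      filter_upwards [(M.φ a).tendsto_symm ha (hK.isClosed.isOpen_compl.mem_nhds hx)] with y hy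
      exact h0 a _ hy
    · exact indicator_of_notMem ha _

theorem dir_add (ψ χ : M.Sec) : mk' _ (isSec_dir (ψ + χ)) =
    mk' _ (isSec_dir ψ) + mk' _ (isSec_dir χ) := by
  refine Atl.Sec.ext fun a x => ?_
  simp only [fam_add, fam_mk']
  by_cases ha : x ∈ (M.φ a).source
  · simp only [indicator_of_mem ha]
    exact dirac_add (SecOp_diff (ψ.ok.sm a) ha) (SecOp_diff (χ.ok.sm a) ha)
  · simp only [indicator_of_notMem ha, add_zero]

theorem dir_smul (c : ℝ) (ψ : M.Sec) : mk' _ (isSec_dir (c • ψ)) = c • mk' _ (isSec_dir ψ) := by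
  refine Atl.Sec.ext fun a x => ?_
  simp only [fam_smul, fam_mk']
  by_cases ha : x ∈ (M.φ a).source
  · simp only [indicator_of_mem ha]
    exact dirac_const_smul (ψ := ψ.fam a ∘ (M.φ a).symm) c
  · simp only [indicator_of_notMem ha, smul_zero]

/-- The Dirac operator. -/
def Atl.Dir (M : Atl n) : M.Sec →ₗ[ℝ] M.Sec where
  toFun ψ := mk' _ (isSec_dir ψ)
  map_add' := dir_add
  map_smul' := dir_smul

theorem isSec_mul {f : M.X → ℝ} (hf : M.Sm f) (ψ : M.Sec) :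
    IsSec M fun a x => f x • ψ.fam a x where
  sm a := (hf a).smul (ψ.ok.sm a)
  off a x hx := by rw [ψ.ok.off a x hx, smul_zero]
  cmp a b x ha hb := by rw [ψ.ok.cmp a b x ha hb, mul_smul_comm]
  cpt := by
    obtain ⟨K, hK, hKM, h0⟩ := ψ.ok.cpt
    exact ⟨K, hK, hKM, fun a x hx => by rw [h0 a x hx, smul_zero]⟩

open Classical in
/-- Multiplication by a smooth function. -/
def Atl.mul (M : Atl n) (f : M.X → ℝ) : M.Sec →ₗ[ℝ] M.Sec :=
  if hf : M.Sm f then
    { toFun ψ := mk' _ (isSec_mul hf ψ)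
      map_add' _ _ := Atl.Sec.ext fun _ _ => smul_add _ _ _
      map_smul' c ψ := Atl.Sec.ext fun a x => smul_comm (f x) c (ψ.fam a x) }
  else 0

/-- `T` commutes with the transition functions. -/
def Atl.Eqv (M : Atl n) (T : Cl n →ₗ[ℝ] Cl n) : Prop :=
  ∀ a b, ∀ x ∈ (M.φ a).source, x ∈ (M.φ b).source → ∀ z, T (M.s a b x * z) = M.s a b x * T z

theorem isSec_cend {T : Cl n →ₗ[ℝ] Cl n} (hT : M.Eqv T) (ψ : M.Sec) :
    IsSec M fun a x => T (ψ.fam a x) where
  sm a := (LinearMap.toContinuousLinearMap T).contDiff.comp_contDiffOn (ψ.ok.sm a)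
  off a x hx := by rw [ψ.ok.off a x hx, map_zero]
  cmp a b x ha hb := by rw [ψ.ok.cmp a b x ha hb, hT a b x ha hb]
  cpt := by
    obtain ⟨K, hK, hKM, h0⟩ := ψ.ok.cpt
    exact ⟨K, hK, hKM, fun a x hx => by rw [h0 a x hx, map_zero]⟩

open Classical in
/-- A constant bundle endomorphism. -/
def Atl.cend (M : Atl n) (T : Cl n →ₗ[ℝ] Cl n) : M.Sec →ₗ[ℝ] M.Sec :=
  if hT : M.Eqv T then
    { toFun ψ := mk' _ (isSec_cend hT ψ)
      map_add' _ _ := Atl.Sec.ext fun _ _ => map_add _ _ _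
      map_smul' c ψ := Atl.Sec.ext fun a x => map_smul T c (ψ.fam a x) }
  else 0

theorem isSec_gr {f : M.X → ℝ} (hf : M.Sm f) (ψ : M.Sec) :
    IsSec M fun a x => grad (M.e a) (f ∘ (M.φ a).symm) (M.φ a x) * ψ.fam a x where
  sm a := by
    refine (((M.fr a).contDiffOn_grad (M.φ a).open_target (hf a)).clmul (ψ.ok.sm a)).congr
      fun y hy => ?_
    simp only [Function.comp_apply, (M.φ a).right_inv hy]
  off a x hx := by rw [ψ.ok.off a x hx, mul_zero]
  cmp a b x ha hb := by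
    have hU := ((M.φ b).symm.trans (M.φ a)).open_source
    have h := (M.lift a b).grad_eq (f' := f ∘ (M.φ a).symm) hU (SecOp_mem ha hb)
      (by rw [SecOp_app hb]; exact SecOp_diff (hf a) ha)
    have h2 : grad (M.e b) (fun z => (f ∘ (M.φ a).symm) (((M.φ b).symm.trans (M.φ a)) z))
        (M.φ b x) = grad (M.e b) (f ∘ (M.φ b).symm) (M.φ b x) := by
      refine grad_congr ?_
      filter_upwards [hU.mem_nhds (SecOp_mem ha hb)] with z hz
      have h1 : (M.φ b).symm z ∈ (M.φ a).source := hz.2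
      change f ((M.φ a).symm (M.φ a ((M.φ b).symm z))) = f ((M.φ b).symm z)
      rw [(M.φ a).left_inv h1]
    rw [h2, SecOp_app hb, one_smul, Function.comp_apply, (M.φ b).left_inv hb] at h
    rw [ψ.ok.cmp a b x ha hb, ← mul_assoc, h, mul_assoc]
  cpt := by
    obtain ⟨K, hK, hKM, h0⟩ := ψ.ok.cpt
    exact ⟨K, hK, hKM, fun a x hx => by rw [h0 a x hx, mul_zero]⟩

open Classical in
/-- Clifford multiplication by the gradient of a smooth function. -/
def Atl.gr (M : Atl n) (f : M.X → ℝ) : M.Sec →ₗ[ℝ] M.Sec :=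
  if hf : M.Sm f then
    { toFun ψ := mk' _ (isSec_gr hf ψ)
      map_add' _ _ := Atl.Sec.ext fun _ _ => mul_add _ _ _
      map_smul' c ψ := Atl.Sec.ext fun a x => mul_smul_comm c _ (ψ.fam a x) }
  else 0

/-- The Dirac operator with the potential `φ R`. -/
def Atl.Op (M : Atl n) (G : Gr n) (φ : M.X → ℝ) : M.Sec →ₗ[ℝ] M.Sec :=
  M.Dir + M.mul φ ∘ₗ M.cend G.R

/-- The index. -/
def Atl.index (M : Atl n) (G : Gr n) (φ : M.X → ℝ) : ℝ := ind (M.Op G φ) (M.cend G.ε)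

variable {ψ χ : M.Sec} {x : M.X} {a : M.A} {K : Set M.X} {f g : M.X → ℝ} {T : Cl n →ₗ[ℝ] Cl n}

theorem fam_dir (ψ : M.Sec) (ha : x ∈ (M.φ a).source) :
    (M.Dir ψ).fam a x = dirac (M.e a) (ψ.fam a ∘ (M.φ a).symm) (M.φ a x) :=
  indicator_of_mem ha (fun x => dirac (M.e a) (ψ.fam a ∘ (M.φ a).symm) (M.φ a x))

theorem fam_mul (hf : M.Sm f) (ψ : M.Sec) (a : M.A) (x : M.X) :
    (M.mul f ψ).fam a x = f x • ψ.fam a x := by
  rw [Atl.mul, dif_pos hf]; rfl

theorem fam_cend (hT : M.Eqv T) (ψ : M.Sec) (a : M.A) (x : M.X) :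
    (M.cend T ψ).fam a x = T (ψ.fam a x) := by
  rw [Atl.cend, dif_pos hT]; rfl

theorem fam_gr (hf : M.Sm f) (ψ : M.Sec) (a : M.A) (x : M.X) :
    (M.gr f ψ).fam a x = grad (M.e a) (f ∘ (M.φ a).symm) (M.φ a x) * ψ.fam a x := by
  rw [Atl.gr, dif_pos hf]; rfl

theorem ev_mul (hf : M.Sm f) (ψ : M.Sec) (x : M.X) : (M.mul f ψ).ev x = f x • ψ.ev x := by
  by_cases h : x ∈ M.car
  · rw [ev_of_mem _ h, ev_of_mem _ h, fam_mul hf]
  · rw [ev_of_notMem _ h, ev_of_notMem _ h, smul_zero]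

theorem ev_cend (hT : M.Eqv T) (ψ : M.Sec) (x : M.X) : (M.cend T ψ).ev x = T (ψ.ev x) := by
  by_cases h : x ∈ M.car
  · rw [ev_of_mem _ h, ev_of_mem _ h, fam_cend hT]
  · rw [ev_of_notMem _ h, ev_of_notMem _ h, map_zero]

theorem norm_ev_gr (hf : M.Sm f) (ψ : M.Sec) (x : M.X) :
    ‖(M.gr f ψ).ev x‖ = M.gn f x * ‖ψ.ev x‖ := by
  by_cases h : x ∈ M.car
  · rw [ev_of_mem _ h, ev_of_mem _ h, fam_gr hf, norm_grad_mul, Atl.gn, dif_pos h]
  · rw [ev_of_notMem _ h, ev_of_notMem _ h, norm_zero, mul_zero]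

theorem SecOp_eqv (M : Atl n) (hT : ∀ i z, T (cl i * z) = -(cl i * T z)) : M.Eqv T :=
  fun _ _ _ ha hb z => by rw [anti_mul hT, (M.s_mem ha hb).2]

theorem ev_op (G : Gr n) (hf : M.Sm f) (ψ : M.Sec) (x : M.X) :
    (M.Op G f ψ).ev x = (M.Dir ψ).ev x + f x • G.R (ψ.ev x) := by
  rw [Atl.Op, LinearMap.add_apply, LinearMap.comp_apply, ev_add, ev_mul hf,
    ev_cend (SecOp_eqv M G.R_anti)]

theorem eqv_of_anti (M : Atl n) (hT : ∀ i z, T (cl i * z) = -(cl i * T z)) : M.Eqv T :=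
  SecOp_eqv M hT

theorem Gr.eqv_R (G : Gr n) (M : Atl n) : M.Eqv G.R := eqv_of_anti M G.R_anti

theorem Gr.eqv_ε (G : Gr n) (M : Atl n) : M.Eqv G.ε := eqv_of_anti M G.ε_anti

theorem eqv_involute (M : Atl n) : M.Eqv involute.toLinearMap :=
  eqv_of_anti M fun i z => by
    simp only [AlgHom.toLinearMap_apply, map_mul, involute_cl, neg_mul]

theorem dir_mul (hf : M.Sm f) (ψ : M.Sec) :
    M.Dir (M.mul f ψ) = M.gr f ψ + M.mul f (M.Dir ψ) := by
  refine Atl.Sec.ext fun a x => ?_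
  by_cases ha : x ∈ (M.φ a).source
  · have e1 : (M.mul f ψ).fam a ∘ (M.φ a).symm =
        fun z => (f ∘ (M.φ a).symm) z • (ψ.fam a ∘ (M.φ a).symm) z :=
      funext fun z => fam_mul hf ψ a _
    rw [fam_add, fam_dir _ ha, fam_gr hf, fam_mul hf, fam_dir _ ha, e1,
      dirac_smul (SecOp_diff (hf a) ha) (SecOp_diff (ψ.ok.sm a) ha)]
    simp only [Function.comp_apply, (M.φ a).left_inv ha]
  · rw [(ok _).off a x ha, (ok _).off a x ha]

theorem dir_cend (hT : ∀ i z, T (cl i * z) = -(cl i * T z)) (ψ : M.Sec) :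
    M.Dir (M.cend T ψ) = -M.cend T (M.Dir ψ) := by
  have hT' := eqv_of_anti M hT
  refine Atl.Sec.ext fun a x => ?_
  by_cases ha : x ∈ (M.φ a).source
  · have e1 : (M.cend T ψ).fam a ∘ (M.φ a).symm = fun z => T ((ψ.fam a ∘ (M.φ a).symm) z) :=
      funext fun z => fam_cend hT' ψ a _
    rw [fam_neg, fam_dir _ ha, fam_cend hT', fam_dir _ ha, e1,
      dirac_anti hT (SecOp_diff (ψ.ok.sm a) ha)]
  · rw [(ok _).off a x ha, (ok _).off a x ha]

theorem gr_mul (hf : M.Sm f) (hg : M.Sm g) (ψ : M.Sec) :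
    M.gr f (M.mul g ψ) = M.mul g (M.gr f ψ) :=
  Atl.Sec.ext fun a x => by rw [fam_gr hf, fam_mul hg, fam_mul hg, fam_gr hf, mul_smul_comm]

/-- The Dirac operator is local. -/
theorem ev_dir_congr (h : ∀ᶠ y in 𝓝 x, ψ.ev y = χ.ev y) : (M.Dir ψ).ev x = (M.Dir χ).ev x := by
  by_cases hx : x ∈ M.car
  · have ha := M.ch_spec hx
    rw [ev_of_mem _ hx, ev_of_mem _ hx, fam_dir _ ha, fam_dir _ ha]
    refine dirac_congr ?_
    have h1 : ∀ᶠ y in 𝓝 x, ψ.fam (M.ch hx) y = χ.fam (M.ch hx) y := by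
      filter_upwards [h, (M.φ (M.ch hx)).open_source.mem_nhds ha] with y hy hy'
      rw [fam_eq _ hy', fam_eq _ hy', hy]
    exact ((M.φ (M.ch hx)).tendsto_symm ha).eventually h1
  · rw [ev_of_notMem _ hx, ev_of_notMem _ hx]

theorem Atl.Sec.Sup.dir (h : ψ.Sup K) (hK : IsClosed K) : (M.Dir ψ).Sup K := by
  intro x hx
  have h1 : (M.Dir ψ).ev x = (M.Dir 0).ev x := by
    refine ev_dir_congr ?_
    filter_upwards [hK.isOpen_compl.mem_nhds hx] with y hy
    rw [h y hy, ev_zero]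
  rw [h1, map_zero, ev_zero]

theorem sym_mul (f : M.X → ℝ) : Sym (M.mul f) := by
  intro ψ χ
  by_cases hf : M.Sm f
  · rw [Atl.Sec.inner_def, Atl.Sec.inner_def]
    refine Atl.int_congr fun x _ => ?_
    simp only [ev_mul hf, real_inner_smul_left, real_inner_smul_right]
  · rw [Atl.mul, dif_neg hf]
    simp only [LinearMap.zero_apply, inner_zero_left, inner_zero_right]

theorem sym_cend (hT : ∀ z w, ⟪T z, w⟫ = ⟪z, T w⟫) : Sym (M.cend T) := by
  intro ψ χ
  by_cases hT' : M.Eqv T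
  · rw [Atl.Sec.inner_def, Atl.Sec.inner_def]
    refine Atl.int_congr fun x _ => ?_
    simp only [ev_cend hT', hT]
  · rw [Atl.cend, dif_neg hT']
    simp only [LinearMap.zero_apply, inner_zero_left, inner_zero_right]

theorem norm_mul_le (hf : M.Sm f) {c : ℝ} (hc : 0 ≤ c) (h : ∀ x ∈ M.car, |f x| ≤ c) (ψ : M.Sec) :
    ‖M.mul f ψ‖ ≤ c * ‖ψ‖ :=
  norm_le hc fun x hx => by
    rw [ev_mul hf, norm_smul, Real.norm_eq_abs]
    exact mul_le_mul_of_nonneg_right (h x hx) (norm_nonneg _)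

theorem norm_gr_le (hf : M.Sm f) {c : ℝ} (hc : 0 ≤ c) (h : ∀ x ∈ M.car, M.gn f x ≤ c)
    (ψ : M.Sec) : ‖M.gr f ψ‖ ≤ c * ‖ψ‖ :=
  norm_le hc fun x hx => by
    rw [norm_ev_gr hf]
    exact mul_le_mul_of_nonneg_right (h x hx) (norm_nonneg _)

theorem bdd_cend (T : Cl n →ₗ[ℝ] Cl n) : Bdd (M.cend T) := by
  by_cases hT : M.Eqv T
  · refine ⟨‖LinearMap.toContinuousLinearMap T‖, fun ψ => norm_le (norm_nonneg _) fun x _ => ?_⟩
    rw [ev_cend hT]
    exact (LinearMap.toContinuousLinearMap T).le_opNorm _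
  · refine ⟨0, fun ψ => ?_⟩
    rw [Atl.cend, dif_neg hT]
    simp only [LinearMap.zero_apply, norm_zero, zero_mul, le_refl]

theorem mul_congr (h : EqOn f g M.car) : M.mul f = M.mul g := by
  by_cases hg : M.Sm g
  · have hf : M.Sm f := hg.congr h
    refine LinearMap.ext fun ψ => ext_ev fun x hx => ?_
    rw [ev_mul hf, ev_mul hg, h hx]
  · have hf : ¬M.Sm f := fun hf => hg (hf.congr h.symm)
    rw [Atl.mul, Atl.mul, dif_neg hf, dif_neg hg]

theorem mul_zero' : M.mul 0 = 0 :=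
  LinearMap.ext fun ψ => Atl.Sec.ext fun a x => by
    rw [fam_mul Atl.sm_zero, Pi.zero_apply, zero_smul, LinearMap.zero_apply, fam_zero]

theorem op_zero (G : Gr n) : M.Op G 0 = M.Dir := by
  rw [Atl.Op, mul_zero', LinearMap.zero_comp, add_zero]

theorem Atl.index_congr (G : Gr n) (h : EqOn f g M.car) : M.index G f = M.index G g := by
  rw [Atl.index, Atl.index, Atl.Op, Atl.Op, mul_congr h]

/-- A partition of unity on the support of `ψ` decomposes `ψ`. -/
theorem sum_mul_eq {ι : Type} (s : Finset ι) {η : ι → M.X → ℝ} (hη : ∀ i ∈ s, M.Sm (η i))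
    (hψ : ψ.Sup K) (h : ∀ x ∈ K, ∑ i ∈ s, η i x = 1) : ∑ i ∈ s, M.mul (η i) ψ = ψ := by
  refine ext_ev fun x _ => ?_
  rw [ev_sum, Finset.sum_congr rfl fun i hi => ev_mul (hη i hi) ψ x, ← Finset.sum_smul]
  by_cases hx : x ∈ K
  · rw [h x hx, one_smul]
  · rw [hψ x hx, smul_zero]

theorem mul_sum {ι : Type} (s : Finset ι) {η : ι → M.X → ℝ} (hη : ∀ i ∈ s, M.Sm (η i)) :
    (M.mul fun x => ∑ i ∈ s, η i x) = ∑ i ∈ s, M.mul (η i) := by
  refine LinearMap.ext fun ψ => ext_ev fun x _ => ?_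
  rw [ev_mul (Atl.sm_sum s hη), LinearMap.sum_apply, ev_sum,
    Finset.sum_congr rfl fun i hi => ev_mul (hη i hi) ψ x, ← Finset.sum_smul]

end SZ
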