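import Pool.Agent.P.MP_8db816_gt.SZ.Union
import Pool.Agent.P.MP_8db816_gt.SZ.Neck

/-! Cutting a manifold along a neck and attaching a half cylinder. -/

noncomputable section

namespace SZ

open Set CliffordAlgebra Filter Topology
open scoped ContDiff RealInnerProductSpace

variable {m : ℕ} {M : Atl m} {Y : Atl (m + 1)} {b : Emb (cyl M) Y} {τ : Y.X → ℝ} {α β γ : ℝ}

/-- A homeomorphism `(α, ∞) → ℝ` that is the identity on `[γ, ∞)`. -/
theorem exists_reparam_left (h : α < γ) : ∃ Λ : OpenPartialHomeomorph ℝ ℝ, Λ.source = Ioi α ∧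
    Λ.target = univ ∧ (∀ t ≥ γ, Λ t = t) ∧ StrictMonoOn Λ (Ioi α) := by
  have hd : 0 < γ - α := sub_pos.2 h
  have f1 : ∀ t : ℝ, γ ≤ t → max t γ + Real.log ((min t γ - α) / (γ - α)) = t := fun t ht => by
    rw [max_eq_left ht, min_eq_right ht, div_self hd.ne', Real.log_one, add_zero]
  have f2 : ∀ t : ℝ, t ≤ γ → max t γ + Real.log ((min t γ - α) / (γ - α)) =
      γ + Real.log ((t - α) / (γ - α)) := fun t ht => by
    rw [max_eq_right ht, min_eq_left ht]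
  have g1 : ∀ s : ℝ, γ ≤ s → max s γ + (γ - α) * (Real.exp (min s γ - γ) - 1) = s := fun s hs => by
    rw [max_eq_left hs, min_eq_right hs, sub_self, Real.exp_zero, sub_self, mul_zero, add_zero]
  have g2 : ∀ s : ℝ, s ≤ γ → max s γ + (γ - α) * (Real.exp (min s γ - γ) - 1) =
      α + (γ - α) * Real.exp (s - γ) := fun s hs => by
    rw [max_eq_right hs, min_eq_left hs]; ring
  have l1 : ∀ t : ℝ, α < t → t ≤ γ → Real.log ((t - α) / (γ - α)) ≤ 0 := fun t h1 h2 =>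
    Real.log_nonpos (div_nonneg (by linarith) hd.le) ((div_le_one hd).2 (by linarith))
  have l2 : ∀ s : ℝ, s ≤ γ → α + (γ - α) * Real.exp (s - γ) ≤ γ := fun s hs => by
    have : Real.exp (s - γ) ≤ 1 := Real.exp_le_one_iff.2 (by linarith)
    nlinarith
  refine ⟨{ toFun := fun t => max t γ + Real.log ((min t γ - α) / (γ - α))
            invFun := fun s => max s γ + (γ - α) * (Real.exp (min s γ - γ) - 1)
            source := Ioi α
            target := univ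
            map_source' := fun _ _ => mem_univ _
            map_target' := fun s _ => ?_
            left_inv' := fun t ht => ?_
            right_inv' := fun s _ => ?_
            open_source := isOpen_Ioi
            open_target := isOpen_univ
            continuousOn_toFun := ?_
            continuousOn_invFun := by fun_prop }, rfl, rfl, f1, ?_⟩
  · rcases le_total γ s with hs | hs
    · rw [g1 s hs]; exact h.trans_le hs
    · rw [g2 s hs]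
      have := mul_pos hd (Real.exp_pos (s - γ))
      exact lt_add_of_pos_right _ this
  · have ht' : α < t := ht
    rcases le_total γ t with h1 | h1
    · rw [f1 t h1, g1 t h1]
    · rw [f2 t h1, g2 _ (by linarith [l1 t ht' h1]), add_sub_cancel_left,
        Real.exp_log (div_pos (by linarith) hd)]
      field_simp
      ring
  · rcases le_total γ s with hs | hs
    · rw [g1 s hs, f1 s hs]
    · rw [g2 s hs, f2 _ (l2 s hs), add_sub_cancel_left, mul_div_cancel_left₀ _ hd.ne',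
        Real.log_exp]
      ring
  · refine ContinuousOn.add (by fun_prop) (ContinuousOn.log (by fun_prop) fun t ht => ?_)
    have ht' : α < t := ht
    exact (div_pos (sub_pos.2 (lt_min ht' h)) hd).ne'
  · intro t ht t' ht' htt
    have h1 : α < t := ht
    have h2 : α < t' := ht'
    change max t γ + Real.log ((min t γ - α) / (γ - α)) <
      max t' γ + Real.log ((min t' γ - α) / (γ - α))
    rcases le_total γ t with c | c
    · rw [f1 t c, f1 t' (by linarith)]; exact htt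
    · rcases lt_or_ge γ t' with c' | c'
      · rw [f2 t c, f1 t' c'.le]; linarith [l1 t h1 c]
      · rw [f2 t c, f2 t' c']
        have := Real.log_lt_log (div_pos (sub_pos.2 h1) hd)
          (div_lt_div_of_pos_right (sub_lt_sub_right htt α) hd)
        linarith

/-- A homeomorphism `(-∞, β) → ℝ` that is the identity on `(-∞, γ]`. -/
theorem exists_reparam_right (h : γ < β) : ∃ Λ : OpenPartialHomeomorph ℝ ℝ, Λ.source = Iio β ∧
    Λ.target = univ ∧ (∀ t ≤ γ, Λ t = t) ∧ StrictMonoOn Λ (Iio β) := by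
  obtain ⟨Λ, h1, h2, h3, h4⟩ := exists_reparam_left (neg_lt_neg h)
  refine ⟨((Homeomorph.neg ℝ).transOpenPartialHomeomorph Λ).transHomeomorph (Homeomorph.neg ℝ),
    ?_, ?_, fun t ht => ?_, fun t ht t' ht' htt => ?_⟩
  · ext t
    change -t ∈ Λ.source ↔ t < β
    rw [h1, mem_Ioi, neg_lt_neg_iff]
  · ext t
    change -t ∈ Λ.target ↔ t ∈ univ
    rw [h2]; simp
  · change -(Λ (-t)) = t
    rw [h3 _ (neg_le_neg ht), neg_neg]
  · change -(Λ (-t)) < -(Λ (-t'))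
    have c1 : -β < -t := neg_lt_neg ht
    have c2 : -β < -t' := neg_lt_neg ht'
    exact neg_lt_neg (h4 c2 c1 (neg_lt_neg htt))

/-- Keep the part over `S` and stretch the neck over `I` to a neck over `J` by means of `Λ`. -/
theorem IsNeck.stretch_gen {I J K S : Set ℝ} (h : IsNeck b τ I) (hp : b.p = 1) (hS : IsOpen S)
    (hJ : IsOpen J) (Λ : OpenPartialHomeomorph ℝ ℝ) (hT : Λ.target = univ) (hI : I ⊆ Λ.source)
    (hST : S ⊆ Λ.source) (hid : ∀ t ∈ S, Λ t = t) (hSΛ : ∀ t ∈ Λ.source, Λ t ∈ S → t ∈ S)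
    (hJΛ : ∀ t ∈ Λ.source, Λ t ∈ J ↔ t ∈ I) (hKI : K ⊆ I) (hKS : K ⊆ S) :
    ∃ (Y' : Atl (m + 1)) (b' : Emb (cyl M) Y') (τ' : Y'.X → ℝ) (ι : Emb Y Y'),
      b'.p = b.p ∧ IsNeck b' τ' J ∧ Match ι b τ b' τ' K S := by
  have tg : ∀ t : ℝ, t ∈ Λ.target := fun t => hT ▸ mem_univ t
  have sI : ∀ t ∈ J, Λ.symm t ∈ I := fun t ht =>
    (hJΛ _ (Λ.map_target (tg t))).1 (by rwa [Λ.right_inv (tg t)])
  obtain ⟨h₁, e₁s, e₁t, e₁⟩ : ∃ h₁ : OpenPartialHomeomorph Y.X Y.X,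
      h₁.source = Y.car ∩ τ ⁻¹' S ∧ h₁.target = Y.car ∩ τ ⁻¹' S ∧ ∀ y, h₁ y = y :=
    ⟨OpenPartialHomeomorph.ofSet _ (h.isOpen hS), rfl, rfl, fun _ => rfl⟩
  obtain ⟨h₂, e₂s, e₂t, e₂⟩ : ∃ h₂ : OpenPartialHomeomorph (cyl M).X Y.X,
      h₂.source = M.car ×ˢ J ∧ h₂.target = Y.car ∩ τ ⁻¹' I ∧
        ∀ x t, h₂ (x, t) = b.f (x, Λ.symm t) := by
    refine ⟨((OpenPartialHomeomorph.ofSet M.car M.isOpen_car).prod
      (Λ.symm.restrOpen J hJ)).trans b.f, ?_, ?_, fun _ _ => rfl⟩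
    · ext ⟨x, t⟩
      constructor
      · rintro ⟨⟨c1, -, c2⟩, -⟩
        exact ⟨c1, c2⟩
      · rintro ⟨c1, c2⟩
        exact ⟨⟨c1, tg t, c2⟩, h.src ⟨c1, sI t c2⟩⟩
    · ext y
      constructor
      · rintro ⟨c1, c2, c3, c4⟩
        have c5 : (b.f.symm y).2 ∈ I := (hJΛ _ c3).1 c4
        have c6 := h.val _ c2 _ c5
        rw [Prod.mk.eta, b.f.right_inv c1] at c6
        exact ⟨b.tgt c1, by rw [mem_preimage, c6]; exact c5⟩
      · rintro ⟨c1, c2⟩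
        obtain ⟨x, hx, e⟩ := h.surj y c1 c2
        have c3 : (x, τ y) ∈ b.f.source := h.src ⟨hx, c2⟩
        have c4 : b.f.symm y = (x, τ y) := by
          conv_lhs => rw [← e]
          exact b.f.left_inv c3
        refine ⟨e ▸ b.f.map_source c3, ?_⟩
        rw [mem_preimage, c4]
        exact ⟨hx, hI c2, (hJΛ _ (hI c2)).2 c2⟩
  have fix : ∀ t ∈ S, Λ.symm t = t := fun t ht => by
    conv_lhs => rw [← hid t ht]
    exact Λ.left_inv (hST ht)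
  have G : Glue h₁ h₂ b.symm := by
    refine ⟨e₁s ▸ inter_subset_left, fun z hz => mem_car_cyl.2 (e₂s ▸ hz).1, hp, ?_⟩
    intro y hy hy'
    rw [e₁s] at hy
    rw [e₁, e₂t] at hy'
    obtain ⟨x, hx, e⟩ := h.surj y hy.1 hy'.2
    have c3 : (x, τ y) ∈ b.f.source := h.src ⟨hx, hy'.2⟩
    have c4 : b.f.symm y = (x, τ y) := by
      conv_lhs => rw [← e]
      exact b.f.left_inv c3
    have c5 : τ y ∈ J := by
      rw [← hid _ hy.2]; exact (hJΛ _ (hST hy.2)).2 hy'.2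
    refine ⟨e ▸ b.f.map_source c3, ?_, ?_⟩
    · rw [Emb.symm_f, c4, e₂s]; exact ⟨hx, c5⟩
    · rw [Emb.symm_f, c4, e₂, e₁, fix _ hy.2, e]
  have car : ∀ y : Y.X, y ∈ G.atl.car ↔ y ∈ Y.car ∧ (τ y ∈ S ∨ τ y ∈ I) := fun y => by
    rw [G.car_atl, e₁t, e₂t, ← inter_union_distrib_left]
    rfl
  have car' : ∀ y ∈ G.atl.car, τ y ∈ Λ.source := fun y hy =>
    ((car y).1 hy).2.elim (fun c => hST c) fun c => hI c
  refine ⟨G.atl, G.j₂, fun y => Λ (τ y), G.j₁, hp.symm, ⟨?_, e₂s.ge, fun x hx t ht => ?_,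
    fun y hy ht => ?_⟩, ⟨?_, e₁s.ge, ?_, sq_iff.2 ?_⟩⟩
  · exact Λ.continuousOn.comp (h.cont.mono fun y hy => ((car y).1 hy).1) car'
  · change Λ (τ (h₂ (x, t))) = t
    rw [e₂, h.val x hx _ (sI t ht), Λ.right_inv (tg t)]
  · obtain ⟨x, hx, e⟩ := h.surj y ((car y).1 hy).1 ((hJΛ _ (car' y hy)).1 ht)
    refine ⟨x, hx, ?_⟩
    change h₂ (x, Λ (τ y)) = y
    rw [e₂, Λ.left_inv (car' y hy), e]
  · change (1 : ℝ) = b.p * 1
    rw [hp, mul_one]
  · ext y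
    constructor
    · rintro ⟨y', ⟨c1, c2⟩, rfl⟩
      change h₁ y' ∈ G.atl.car ∧ Λ (τ (h₁ y')) ∈ S
      rw [e₁, hid _ c2]
      exact ⟨(car y').2 ⟨c1, Or.inl c2⟩, c2⟩
    · rintro ⟨c1, c2⟩
      exact ⟨y, ⟨((car y).1 c1).1, hSΛ _ (car' y c1) c2⟩, e₁ y⟩
  · rintro ⟨x, t⟩ ⟨hx, ht⟩
    have c1 : (x, t) ∈ b.f.source := h.src ⟨hx, hKI ht⟩
    have c2 : τ (b.f (x, t)) = t := h.val x hx t (hKI ht)
    have c3 : b.f (x, t) ∈ h₁.source := by
      rw [e₁s]; exact ⟨b.map_car c1, by rw [mem_preimage, c2]; exact hKS ht⟩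
    have c4 : h₁ (b.f (x, t)) ∈ h₂.target := by
      rw [e₁, e₂t]; exact ⟨b.map_car c1, by rw [mem_preimage, c2]; exact hKI ht⟩
    obtain ⟨-, d2, -, -, d5, d6⟩ := sq_iff.1 G.sq _ ⟨c3, c4⟩
    rw [Emb.symm_f, b.f.left_inv c1] at d2 d5 d6
    rw [Emb.id_apply] at d5 d6
    rw [Emb.mu_id, mul_one, b.mu_symm c1] at d6
    refine ⟨c1, c3, mem_car_cyl.2 hx, d2, d5.symm, ?_⟩
    rw [Emb.id_apply, Emb.mu_id, ← d6, mul_assoc, b.star_mu_mul]

theorem IsNeck.stretch_left_pos (h : IsNeck b τ (Ioo α β)) (hp : b.p = 1) (h₁ : α < γ)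
    (h₂ : γ < β) : ∃ (Y' : Atl (m + 1)) (b' : Emb (cyl M) Y') (τ' : Y'.X → ℝ) (ι : Emb Y Y'),
      b'.p = b.p ∧ IsNeck b' τ' (Iio β) ∧ Match ι b τ b' τ' (Ioo γ β) (Ioi γ) := by
  obtain ⟨Λ, e1, e2, e3, e4⟩ := exists_reparam_left h₁
  refine h.stretch_gen hp isOpen_Ioi isOpen_Iio Λ e2 (e1 ▸ Ioo_subset_Ioi_self)
    (e1 ▸ Ioi_subset_Ioi h₁.le) (fun t ht => e3 t (le_of_lt ht)) (fun t ht c => ?_)
    (fun t ht => ?_) (Ioo_subset_Ioo_left h₁.le) Ioo_subset_Ioi_self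
  · rw [e1] at ht
    rw [mem_Ioi, ← e3 γ le_rfl] at c
    exact (e4.lt_iff_lt h₁ ht).1 c
  · rw [e1] at ht
    rw [mem_Iio, ← e3 β h₂.le, e4.lt_iff_lt ht (h₁.trans h₂), e3 β h₂.le]
    exact ⟨fun c => ⟨ht, c⟩, fun c => c.2⟩

theorem IsNeck.stretch_right_pos (h : IsNeck b τ (Ioo α β)) (hp : b.p = 1) (h₁ : α < γ)
    (h₂ : γ < β) : ∃ (Y' : Atl (m + 1)) (b' : Emb (cyl M) Y') (τ' : Y'.X → ℝ) (ι : Emb Y Y'),
      b'.p = b.p ∧ IsNeck b' τ' (Ioi α) ∧ Match ι b τ b' τ' (Ioo α γ) (Iio γ) := by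
  obtain ⟨Λ, e1, e2, e3, e4⟩ := exists_reparam_right h₂
  refine h.stretch_gen hp isOpen_Iio isOpen_Ioi Λ e2 (e1 ▸ Ioo_subset_Iio_self)
    (e1 ▸ Iio_subset_Iio h₂.le) (fun t ht => e3 t (le_of_lt ht)) (fun t ht c => ?_)
    (fun t ht => ?_) (Ioo_subset_Ioo_right h₂.le) Ioo_subset_Iio_self
  · rw [e1] at ht
    rw [mem_Iio, ← e3 γ le_rfl] at c
    exact (e4.lt_iff_lt ht h₂).1 c
  · rw [e1] at ht
    rw [mem_Ioi, ← e3 α h₁.le, e4.lt_iff_lt (h₁.trans h₂) ht, e3 α h₁.le]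
    exact ⟨fun c => ⟨c, ht⟩, fun c => c.1⟩

/-- Undo a reflection of the neck. -/
theorem stretch_unreflect {J K S J' K' S' : Set ℝ} (hJ : ∀ t, t ∈ J' ↔ -t ∈ J)
    (hK : ∀ t, t ∈ K' ↔ -t ∈ K) (hS : ∀ t, t ∈ S' ↔ -t ∈ S)
    (H : ∃ (Y' : Atl (m + 1)) (b' : Emb (cyl M) Y') (τ' : Y'.X → ℝ) (ι : Emb Y Y'),
      b'.p = (b.comp (Emb.refl M)).p ∧ IsNeck b' τ' J ∧
        Match ι (b.comp (Emb.refl M)) (fun y => -τ y) b' τ' K S) :
    ∃ (Y' : Atl (m + 1)) (b' : Emb (cyl M) Y') (τ' : Y'.X → ℝ) (ι : Emb Y Y'),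
      b'.p = b.p ∧ IsNeck b' τ' J' ∧ Match ι b τ b' τ' K' S' := by
  obtain ⟨Y', b', τ', ι, hp, hn, hm⟩ := H
  have ap : ∀ (x : M.X) (t : ℝ), (b'.comp (Emb.refl M).symm).f (x, t) = b'.f (x, -t) :=
    fun _ _ => rfl
  have src : ∀ (x : M.X) (t : ℝ), x ∈ M.car → (x, -t) ∈ b'.f.source →
      (x, t) ∈ (b'.comp (Emb.refl M).symm).f.source := fun x t hx c =>
    ⟨(Emb.refl_target M).ge (mem_car_cyl.2 hx), c⟩
  have s1 : τ ⁻¹' S' = (fun y => -τ y) ⁻¹' S := Set.ext fun y => hS _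
  have s2 : (fun y => -τ' y) ⁻¹' S' = τ' ⁻¹' S := Set.ext fun y => by
    rw [mem_preimage, hS, neg_neg]; rfl
  refine ⟨Y', b'.comp (Emb.refl M).symm, fun y => -τ' y, ι, ?_, ⟨hn.cont.neg, ?_,
    fun x hx t ht => ?_, fun y hy ht => ?_⟩, ⟨?_, s1 ▸ hm.src, ?_, sq_iff.2 ?_⟩⟩
  · rw [Emb.comp_p, hp]; simp
  · rintro ⟨x, t⟩ ⟨hx, ht⟩
    exact src x t hx (hn.src ⟨hx, (hJ t).1 ht⟩)
  · rw [ap, hn.val x hx _ ((hJ t).1 ht), neg_neg]
  · rw [hJ, neg_neg] at ht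
    obtain ⟨x, hx, e⟩ := hn.surj y hy ht
    exact ⟨x, hx, by rw [ap, neg_neg, e]⟩
  · rw [hm.par]; simp
  · rw [s1, s2]; exact hm.img
  · rintro ⟨x, t⟩ ⟨hx, ht⟩
    obtain ⟨d1, d2, -, d4, d5, d6⟩ := sq_iff.1 hm.sq (x, -t) ⟨hx, (hK t).1 ht⟩
    have r1 : (Emb.refl M).f (x, -t) = (x, t) := by rw [Emb.refl_apply, neg_neg]
    have r2 : (b.comp (Emb.refl M)).f (x, -t) = b.f (x, t) := by rw [Emb.comp_apply, r1]
    have r3 : (x, t) ∈ b.f.source := r1 ▸ d1.2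
    have r4 : (x, t) ∈ (Emb.refl M).f.target := by
      rw [Emb.refl_target]; exact mem_car_cyl.2 hx
    rw [Emb.mu_comp _ _ d1, r1, Emb.mu_id, mul_one, Emb.id_apply, r2] at d6
    rw [Emb.id_apply] at d4 d5
    rw [r2] at d2 d5
    refine ⟨r3, d2, mem_car_cyl.2 hx, src x t hx d4, d5, ?_⟩
    rw [Emb.id_apply, Emb.mu_id, mul_one, Emb.mu_comp _ _ (src x t hx d4), Emb.mu_symm' _ r4]
    change _ = b'.mu (x, -t) * star ((Emb.refl M).mu (x, -t))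
    rw [← d6, mul_assoc, mul_assoc, Emb.mu_mul_star, mul_one]

theorem IsNeck.refl_Ioo (h : IsNeck b τ (Ioo α β)) :
    IsNeck (b.comp (Emb.refl M)) (fun y => -τ y) (Ioo (-β) (-α)) :=
  h.refl.mono fun _ ht => ⟨lt_neg.1 ht.2, neg_lt.1 ht.1⟩

/-- Keep `τ > γ` and attach `M × (-∞, γ]`. -/
theorem IsNeck.stretch_left (h : IsNeck b τ (Ioo α β)) (h₁ : α < γ) (h₂ : γ < β) :
    ∃ (Y' : Atl (m + 1)) (b' : Emb (cyl M) Y') (τ' : Y'.X → ℝ) (ι : Emb Y Y'),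
      b'.p = b.p ∧ IsNeck b' τ' (Iio β) ∧ Match ι b τ b' τ' (Ioo γ β) (Ioi γ) := by
  rcases b.hp with hp | hp
  · exact h.stretch_left_pos hp h₁ h₂
  · refine stretch_unreflect (fun t => ?_) (fun t => ?_) (fun t => ?_)
      (h.refl_Ioo.stretch_right_pos (by simp [hp]) (neg_lt_neg h₂) (neg_lt_neg h₁))
    · simp
    · simp [and_comm]
    · simp

/-- Keep `τ < γ` and attach `M × [γ, ∞)`. -/
theorem IsNeck.stretch_right (h : IsNeck b τ (Ioo α β)) (h₁ : α < γ) (h₂ : γ < β) :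
    ∃ (Y' : Atl (m + 1)) (b' : Emb (cyl M) Y') (τ' : Y'.X → ℝ) (ι : Emb Y Y'),
      b'.p = b.p ∧ IsNeck b' τ' (Ioi α) ∧ Match ι b τ b' τ' (Ioo α γ) (Iio γ) := by
  rcases b.hp with hp | hp
  · exact h.stretch_right_pos hp h₁ h₂
  · refine stretch_unreflect (fun t => ?_) (fun t => ?_) (fun t => ?_)
      (h.refl_Ioo.stretch_left_pos (by simp [hp]) (neg_lt_neg h₂) (neg_lt_neg h₁))
    · simp
    · simp [and_comm]
    · simp

end SZ
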