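import Pool.Agent.P.MP_8db816_gt.SZ.Glob
import Pool.Agent.P.MP_8db816_gt.SZ.IBP

/-! Symmetry of the Dirac operator and the integrated Lichnerowicz formula. -/

noncomputable section

namespace SZ

open Set CliffordAlgebra Filter Topology MeasureTheory Atl.Sec
open scoped ContDiff RealInnerProductSpace

variable {n : ℕ} {M : Atl n} {ψ χ : M.Sec} {x : M.X} {a : M.A}

namespace SymmAux

theorem diffAt_loc (ψ : M.Sec) {y : E n} (hy : y ∈ (M.φ a).target) :
    DifferentiableAt ℝ (ψ.loc a) y :=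
  IBP.diffAt (contDiffOn_loc ψ a) (M.φ a).open_target hy

/-- Every section is a finite sum of sections with compact support in a chart. -/
theorem decomp (χ : M.Sec) : ∃ (s : Finset M.A) (χ' : M.A → M.Sec) (C : M.A → Set M.X),
    (∀ a, IsCompact (C a)) ∧ (∀ a, C a ⊆ (M.φ a).source) ∧ (∀ a, (χ' a).Sup (C a)) ∧
      ∑ a ∈ s, χ' a = χ := by
  obtain ⟨K, k1, k2, k3⟩ := χ.exists_sup
  obtain ⟨s, η, C, h1, -, h3, h4, h5, h6, -⟩ := M.exists_pou_charts k1 k2
  refine ⟨s, fun a => M.mul (η a) χ, C, h3, h4, fun a x hx => ?_,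
    sum_mul_eq s (fun a _ => h1 a) k3 fun x hx => (h6 x hx).self_of_nhds⟩
  rw [ev_mul (h1 a), h5 a x hx, zero_smul]

theorem image_subset_target {K : Set M.X} (hKa : K ⊆ (M.φ a).source) :
    M.φ a '' K ⊆ (M.φ a).target := by
  rintro _ ⟨x, hx, rfl⟩
  exact (M.φ a).map_source (hKa hx)

theorem sym_loc (ψ : M.Sec) {K : Set M.X} (hK : IsCompact K) (hKa : K ⊆ (M.φ a).source)
    (h : χ.Sup K) : ⟪M.Dir ψ, χ⟫ = ⟪ψ, M.Dir χ⟫ := by
  have hm : MeasurableSet (M.φ a).target := (M.φ a).open_target.measurableSet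
  rw [inner_eq_chart _ (h.mono hKa), inner_eq_chart _ ((h.dir hK.isClosed).mono hKa),
    setIntegral_congr_fun hm (g := fun y => dens (M.e a) y * ⟪dirac (M.e a) (ψ.loc a) y, χ.loc a y⟫)
      (fun y hy => by simp only [loc_dir ψ hy]),
    setIntegral_congr_fun hm (f := fun y => dens (M.e a) y * ⟪ψ.loc a y, (M.Dir χ).loc a y⟫)
      (g := fun y => dens (M.e a) y * ⟪ψ.loc a y, dirac (M.e a) (χ.loc a) y⟫)
      (fun y hy => by simp only [loc_dir χ hy])]
  exact (M.fr a).integral_dirac (M.φ a).open_target (isCompact_chart_image hK hKa)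
    (image_subset_target hKa) (contDiffOn_loc ψ a) (contDiffOn_loc χ a)
    fun y _ hy => loc_eq_zero h hy

theorem nab_change (ψ χ : M.Sec) {b : M.A} (ha : x ∈ (M.φ a).source) (hb : x ∈ (M.φ b).source) :
    ∑ i, ⟪nab (M.e a) i (ψ.loc a) (M.φ a x), nab (M.e a) i (χ.loc a) (M.φ a x)⟫ =
      ∑ i, ⟪nab (M.e b) i (ψ.loc b) (M.φ b x), nab (M.e b) i (χ.loc b) (M.φ b x)⟫ := by
  have hy : M.φ b x ∈ ((M.φ b).symm.trans (M.φ a)).source := by simp [ha, hb]
  have hT : ((M.φ b).symm.trans (M.φ a)) (M.φ b x) = M.φ a x := by simp [hb]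
  have hsub : ((M.φ b).symm.trans (M.φ a)).source ⊆ (M.φ b).target := fun z hz => hz.1
  have hmap : MapsTo ((M.φ b).symm.trans (M.φ a)) ((M.φ b).symm.trans (M.φ a)).source
      (M.φ a).target := fun z hz => (M.φ a).map_source hz.2
  have key : ∀ ψ : M.Sec, ∀ᶠ z in 𝓝 (M.φ b x), ψ.loc a (((M.φ b).symm.trans (M.φ a)) z) =
      (M.s a b ∘ (M.φ b).symm) z * ψ.loc b z := by
    intro ψ
    filter_upwards [((M.φ b).symm.trans (M.φ a)).open_source.mem_nhds hy] with z hz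
    have h1 : (M.φ b).symm z ∈ (M.φ a).source := hz.2
    have h2 : (M.φ b).symm z ∈ (M.φ b).source := (M.φ b).map_target hz.1
    rw [loc_of_mem ψ hz.1]
    exact (loc_apply ψ h1).trans (ψ.ok.cmp a b _ h1 h2)
  have hd : ∀ ψ : M.Sec, DifferentiableAt ℝ (ψ.loc a) (((M.φ b).symm.trans (M.φ a)) (M.φ b x)) :=
    fun ψ => diffAt_loc ψ (hmap hy)
  have h := (M.lift a b).inner_nab_eq (OpenPartialHomeomorph.open_source _) (M.φ a).open_target
    ((M.fr b).mono hsub) (M.fr a) hmap hy (hd ψ) (diffAt_loc ψ (hsub hy)) (key ψ) (hd χ)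
    (diffAt_loc χ (hsub hy)) (key χ)
  rwa [hT] at h

theorem loc_ev_zero {K : Set M.X} (hK : IsClosed K) (h : χ.Sup K) (ha : x ∈ (M.φ a).source)
    (hx : x ∉ K) : χ.loc a =ᶠ[𝓝 (M.φ a x)] fun _ => 0 := by
  have hy := (M.φ a).map_source ha
  have hc : ContinuousAt (M.φ a).symm (M.φ a x) := (M.φ a).continuousAt_symm hy
  have h1 : Kᶜ ∈ 𝓝 ((M.φ a).symm (M.φ a x)) := by
    rw [(M.φ a).left_inv ha]
    exact hK.isOpen_compl.mem_nhds hx
  filter_upwards [(M.φ a).open_target.mem_nhds hy, hc.preimage_mem_nhds h1] with z hz hz'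
  rw [loc_of_mem χ hz]
  exact sup_iff.1 h a _ hz'

end SymmAux

open SymmAux

theorem sym_dir (M : Atl n) : Sym M.Dir := by
  intro ψ χ
  obtain ⟨s, χ', C, h1, h2, h3, rfl⟩ := decomp χ
  rw [map_sum, inner_sum, inner_sum]
  exact Finset.sum_congr rfl fun a _ => sym_loc ψ (h1 a) (h2 a) (h3 a)

open Classical in
/-- The pointwise inner product of the covariant derivatives. -/
def Atl.Sec.nn (ψ χ : M.Sec) (x : M.X) : ℝ :=
  if h : x ∈ M.car then ∑ i, ⟪nab (M.e (M.ch h)) i (ψ.loc (M.ch h)) (M.φ (M.ch h) x),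
    nab (M.e (M.ch h)) i (χ.loc (M.ch h)) (M.φ (M.ch h) x)⟫ else 0

theorem nn_eq (ψ χ : M.Sec) (ha : x ∈ (M.φ a).source) : ψ.nn χ x =
    ∑ i, ⟪nab (M.e a) i (ψ.loc a) (M.φ a x), nab (M.e a) i (χ.loc a) (M.φ a x)⟫ := by
  rw [Atl.Sec.nn, dif_pos (M.source_subset a ha)]
  exact nab_change ψ χ (M.ch_spec _) ha

theorem nn_nonneg (ψ : M.Sec) (x : M.X) : 0 ≤ ψ.nn ψ x := by
  rw [Atl.Sec.nn]
  split_ifs
  · exact Finset.sum_nonneg fun _ _ => real_inner_self_nonneg
  · exact le_rfl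

namespace SymmAux

theorem nn_of_notMem (ψ χ : M.Sec) (hx : x ∉ M.car) : ψ.nn χ x = 0 := dif_neg hx

theorem nn_symm (ψ χ : M.Sec) {y : E n} (hy : y ∈ (M.φ a).target) : ψ.nn χ ((M.φ a).symm y) =
    ∑ i, ⟪nab (M.e a) i (ψ.loc a) y, nab (M.e a) i (χ.loc a) y⟫ := by
  rw [nn_eq ψ χ ((M.φ a).map_target hy), (M.φ a).right_inv hy]

theorem nn_eq_zero (ψ : M.Sec) {K : Set M.X} (hK : IsClosed K) (h : χ.Sup K) (hx : x ∉ K) :
    ψ.nn χ x = 0 := by
  by_cases hc : x ∈ M.car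
  · rw [nn_eq ψ χ (M.ch_spec hc)]
    refine Finset.sum_eq_zero fun i _ => ?_
    rw [nab_congr (loc_ev_zero hK h (M.ch_spec hc) hx), nab_zero, inner_zero_right]
  · exact nn_of_notMem ψ χ hc

theorem sm_nn (ψ χ : M.Sec) : M.Sm (ψ.nn χ) := fun a =>
  (ContDiffOn.sum fun i _ =>
    ((M.fr a).contDiffOn_nab (M.φ a).open_target (contDiffOn_loc ψ a) i).inner ℝ
      ((M.fr a).contDiffOn_nab (M.φ a).open_target (contDiffOn_loc χ a) i)).congr
    fun _ hy => nn_symm ψ χ hy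

theorem nn_add_right (ψ χ χ' : M.Sec) (x : M.X) :
    ψ.nn (χ + χ') x = ψ.nn χ x + ψ.nn χ' x := by
  by_cases hc : x ∈ M.car
  · have ha := M.ch_spec hc
    have hy := (M.φ _).map_source ha
    rw [nn_eq ψ _ ha, nn_eq ψ _ ha, nn_eq ψ _ ha, ← Finset.sum_add_distrib]
    refine Finset.sum_congr rfl fun i _ => ?_
    rw [loc_add, ← inner_add_right, ← nab_add (diffAt_loc χ hy) (diffAt_loc χ' hy)]
    rfl
  · simp only [nn_of_notMem _ _ hc, add_zero]

end SymmAux

theorem tst_nn (ψ χ : M.Sec) : M.Tst (ψ.nn χ) := by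
  obtain ⟨K, k1, k2, k3⟩ := χ.exists_sup
  exact ⟨(sm_nn ψ χ).continuousOn, K, k1, k2, fun x _ hx => nn_eq_zero ψ k1.isClosed k3 hx⟩

theorem nn_sum_right {ι : Type} (s : Finset ι) (ψ : M.Sec) (χ : ι → M.Sec) (x : M.X) :
    ψ.nn (∑ i ∈ s, χ i) x = ∑ i ∈ s, ψ.nn (χ i) x := by
  classical
  induction s using Finset.induction_on with
  | empty =>
    rw [Finset.sum_empty, Finset.sum_empty]
    exact nn_eq_zero ψ isClosed_empty (fun y _ => ev_zero y) (notMem_empty x)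
  | insert i s hi ih => rw [Finset.sum_insert hi, Finset.sum_insert hi, nn_add_right, ih]

namespace SymmAux

theorem tst_lich (ψ χ : M.Sec) :
    M.Tst fun x => ψ.nn χ x + M.scal x / 4 * ⟪ψ.ev x, χ.ev x⟫ :=
  (tst_nn ψ χ).add ((tst_inner ψ χ).mul_left (M.sm_scal.continuousOn.div_const 4))

theorem lich_loc (ψ : M.Sec) {K : Set M.X} (hK : IsCompact K) (hKa : K ⊆ (M.φ a).source)
    (h : χ.Sup K) : ⟪M.Dir (M.Dir ψ), χ⟫ =
      M.int fun x => ψ.nn χ x + M.scal x / 4 * ⟪ψ.ev x, χ.ev x⟫ := by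
  have hm : MeasurableSet (M.φ a).target := (M.φ a).open_target.measurableSet
  have h1 : ∀ y ∈ (M.φ a).target, (M.Dir (M.Dir ψ)).loc a y =
      dirac (M.e a) (dirac (M.e a) (ψ.loc a)) y := fun y hy => by
    rw [loc_dir _ hy]
    refine dirac_congr ?_
    filter_upwards [(M.φ a).open_target.mem_nhds hy] with z hz
    exact loc_dir ψ hz
  rw [inner_eq_chart _ (h.mono hKa), setIntegral_congr_fun hm
      (g := fun y => dens (M.e a) y * ⟪dirac (M.e a) (dirac (M.e a) (ψ.loc a)) y, χ.loc a y⟫)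
      (fun y hy => by simp only [h1 y hy]),
    (M.fr a).integral_lich (M.φ a).open_target (isCompact_chart_image hK hKa)
      (image_subset_target hKa) (contDiffOn_loc ψ a) (contDiffOn_loc χ a)
      fun y _ hy => loc_eq_zero h hy,
    Atl.int_chart a fun x _ hx => by
      have hx' : x ∉ K := fun e => hx (hKa e)
      rw [nn_eq_zero ψ hK.isClosed h hx', h x hx', inner_zero_right, mul_zero, add_zero]]
  refine setIntegral_congr_fun hm fun y hy => ?_
  have hx := (M.φ a).map_target hy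
  rw [nn_symm ψ χ hy, Atl.scal_eq hx, (M.φ a).right_inv hy, inner_ev ψ χ hx, loc_of_mem ψ hy,
    loc_of_mem χ hy]

theorem lich_inner (ψ χ : M.Sec) : ⟪M.Dir (M.Dir ψ), χ⟫ =
    M.int fun x => ψ.nn χ x + M.scal x / 4 * ⟪ψ.ev x, χ.ev x⟫ := by
  obtain ⟨s, χ', C, h1, h2, h3, rfl⟩ := decomp χ
  rw [inner_sum, Finset.sum_congr rfl fun a _ => lich_loc ψ (h1 a) (h2 a) (h3 a),
    ← Atl.int_sum s fun a _ => tst_lich ψ (χ' a)]
  refine Atl.int_congr fun x _ => ?_
  simp only [nn_sum_right, ev_sum, inner_sum, Finset.mul_sum, Finset.sum_add_distrib]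

end SymmAux

/-- The Lichnerowicz formula. -/
theorem lich (ψ : M.Sec) :
    ‖M.Dir ψ‖ ^ 2 = M.int (ψ.nn ψ) + M.int fun x => M.scal x / 4 * ‖ψ.ev x‖ ^ 2 := by
  rw [← real_inner_self_eq_norm_sq, ← sym_dir M, lich_inner,
    Atl.int_add (tst_nn ψ ψ) ((tst_inner ψ ψ).mul_left (M.sm_scal.continuousOn.div_const 4))]
  simp only [real_inner_self_eq_norm_sq]

theorem lich_le (ψ : M.Sec) : (M.int fun x => M.scal x / 4 * ‖ψ.ev x‖ ^ 2) ≤ ‖M.Dir ψ‖ ^ 2 := by
  rw [lich]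
  exact le_add_of_nonneg_left (Atl.int_nonneg fun x _ => nn_nonneg ψ x)

namespace SymmAux

theorem exists_bound {L : Set (E n)} (hL : IsCompact L) {g : E n → ℝ} (hg : ContinuousOn g L) :
    ∃ B : ℝ, 0 < B ∧ ∀ y ∈ L, g y ≤ B := by
  obtain ⟨B, hB⟩ := hL.exists_bound_of_continuousOn hg
  exact ⟨max B 1, lt_max_of_lt_right one_pos, fun y hy =>
    ((le_abs_self _).trans (hB y hy)).trans (le_max_left _ _)⟩

theorem continuousOn_comp_symm {F : M.X → ℝ} (hF : ContinuousOn F M.car) (a : M.A) :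
    ContinuousOn (fun y => F ((M.φ a).symm y)) (M.φ a).target :=
  hF.comp (M.φ a).continuousOn_symm fun _ hy => M.source_subset a ((M.φ a).map_target hy)

/-- The Lebesgue integral over a compact part of a chart is controlled by the Riemannian
integral. -/
theorem setIntegral_le_int {L : Set (E n)} (hL : IsCompact L) (hLa : L ⊆ (M.φ a).target) :
    ∃ C : ℝ, 0 < C ∧ ∀ F : M.X → ℝ, M.Tst F → (∀ x ∈ M.car, 0 ≤ F x) →
      ∫ y in L, F ((M.φ a).symm y) ≤ C * M.int F := by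
  have hU := (M.φ a).open_target
  have hd : ContinuousOn (dens (M.e a)) (M.φ a).target := (M.fr a).contDiffOn_dens.continuousOn
  obtain ⟨B, hB, hB'⟩ := exists_bound hL (g := fun y => (dens (M.e a) y)⁻¹)
    ((hd.mono hLa).inv₀ fun y hy => ((M.fr a).dens_pos (hLa hy)).ne')
  have hK : IsCompact ((M.φ a).symm '' L) :=
    hL.image_of_continuousOn ((M.φ a).continuousOn_symm.mono hLa)
  have hKa : (M.φ a).symm '' L ⊆ (M.φ a).source := by
    rintro _ ⟨y, hy, rfl⟩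
    exact (M.φ a).map_target (hLa hy)
  obtain ⟨η, C, e1, e2, e3, e4, -, e6, e7⟩ := M.exists_cutoff hK (hKa.trans (M.source_subset a))
    (M.φ a).open_source hKa
  have hCa : C ⊆ (M.φ a).source := fun x hx => (e4 hx).1
  refine ⟨B, hB, fun F hF h0 => ?_⟩
  have hmem : ∀ y ∈ (M.φ a).target, (M.φ a).symm y ∈ M.car := fun y hy =>
    M.source_subset a ((M.φ a).map_target hy)
  have hG : M.Tst fun x => η x * F x := hF.mul_left e1.continuousOn
  have hGc : ContinuousOn (fun y => dens (M.e a) y * (η ((M.φ a).symm y) * F ((M.φ a).symm y)))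
      (M.φ a).target := hd.mul (continuousOn_comp_symm hG.1 a)
  have hI : IntegrableOn (fun y => dens (M.e a) y * (η ((M.φ a).symm y) * F ((M.φ a).symm y)))
      (M.φ a).target := by
    refine IBP.integrableOn hU (isCompact_chart_image e3 hCa) (image_subset_target hCa) hGc
      fun y hy hy' => ?_
    rw [e6 _ fun e => hy' ⟨_, e, (M.φ a).right_inv hy⟩, zero_mul, mul_zero]
  calc ∫ y in L, F ((M.φ a).symm y)
      ≤ ∫ y in L, B * (dens (M.e a) y * (η ((M.φ a).symm y) * F ((M.φ a).symm y))) := by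
        refine setIntegral_mono_on
          (((continuousOn_comp_symm hF.1 a).mono hLa).integrableOn_compact hL)
          ((hI.mono_set hLa).const_mul B) hL.measurableSet fun y hy => ?_
        have hp := (M.fr a).dens_pos (hLa hy)
        have h1 : 1 ≤ B * dens (M.e a) y := by
          have := mul_le_mul_of_nonneg_right (hB' y hy) hp.le
          rwa [inv_mul_cancel₀ hp.ne'] at this
        rw [(e7 _ ⟨y, hy, rfl⟩).self_of_nhds, one_mul, ← mul_assoc]
        exact le_mul_of_one_le_left (h0 _ (hmem y (hLa hy))) h1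
    _ = B * ∫ y in L, dens (M.e a) y * (η ((M.φ a).symm y) * F ((M.φ a).symm y)) :=
        integral_const_mul _ _
    _ ≤ B * ∫ y in (M.φ a).target, dens (M.e a) y * (η ((M.φ a).symm y) * F ((M.φ a).symm y)) := by
        refine mul_le_mul_of_nonneg_left (setIntegral_mono_set hI ?_ hLa.eventuallyLE) hB.le
        refine (ae_restrict_iff' hU.measurableSet).2 (Eventually.of_forall fun y hy => ?_)
        exact mul_nonneg (dens_nonneg _ _) (mul_nonneg (e2 _).1 (h0 _ (hmem y hy)))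
    _ = B * M.int fun x => η x * F x := by
        rw [Atl.int_chart a fun x _ hx => by rw [e6 x fun e => hx (hCa e), zero_mul]]
    _ ≤ B * M.int F := by
        refine mul_le_mul_of_nonneg_left (Atl.int_mono hG hF fun x hx => ?_) hB.le
        exact mul_le_of_le_one_left (h0 x hx) (e2 x).2

theorem pointwise {V : Type} [NormedAddCommGroup V] [NormedSpace ℝ V] (c : Fin n → ℝ)
    (N w : Fin n → V) {B r : ℝ} (hB : 0 ≤ B) (hc : ∀ j, |c j| ≤ B)
    (hw : ∀ j, ‖w j‖ ≤ B * r) :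
    ‖∑ j, c j • (N j - w j)‖ ^ 2 ≤ (n * (B * (1 + B))) ^ 2 * (∑ j, ‖N j‖ ^ 2 + r ^ 2) := by
  set S := ∑ j, ‖N j‖ ^ 2 + r ^ 2 with hS
  have h0 : 0 ≤ ∑ j, ‖N j‖ ^ 2 := Finset.sum_nonneg fun _ _ => by positivity
  have hS0 : 0 ≤ S := by positivity
  have h1 : ∀ j, ‖N j‖ ≤ √S := fun j => Real.le_sqrt_of_sq_le (le_add_of_le_of_nonneg
    (Finset.single_le_sum (f := fun j => ‖N j‖ ^ 2) (fun _ _ => by positivity)
      (Finset.mem_univ j)) (by positivity))
  have h2 : r ≤ √S := Real.le_sqrt_of_sq_le (le_add_of_nonneg_left h0)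
  have h3 : ‖∑ j, c j • (N j - w j)‖ ≤ n * (B * (1 + B)) * √S := by
    refine (norm_sum_le _ _).trans ((Finset.sum_le_card_nsmul _ _ (B * (1 + B) * √S)
      fun j _ => ?_).trans_eq ?_)
    · rw [norm_smul, Real.norm_eq_abs, mul_assoc]
      refine mul_le_mul (hc j) ((norm_sub_le _ _).trans ?_) (norm_nonneg _) hB
      have := mul_le_mul_of_nonneg_left h2 hB
      linarith [h1 j, hw j]
    · rw [Finset.card_univ, Fintype.card_fin, nsmul_eq_mul]; ring
  calc _ ≤ (n * (B * (1 + B)) * √S) ^ 2 := pow_le_pow_left₀ (norm_nonneg _) h3 2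
    _ = _ := by rw [mul_pow, Real.sq_sqrt hS0]

theorem fderiv_sq_le {L : Set (E n)} (hL : IsCompact L) (hLa : L ⊆ (M.φ a).target) :
    ∃ A : ℝ, 0 ≤ A ∧ ∀ (f : E n → Cl n) (i : Fin n), ∀ y ∈ L,
      ‖fderiv ℝ f y (Pi.single i 1)‖ ^ 2 ≤ A * (∑ j, ‖nab (M.e a) j f y‖ ^ 2 + ‖f y‖ ^ 2) := by
  have hU := (M.φ a).open_target
  obtain ⟨B, hB, hB'⟩ := exists_bound hL (g := fun y => ∑ j, ∑ i, |(fmat (M.e a) y)⁻¹ j i| +
      ∑ j, ‖mulL n‖ * ‖omg (M.e a) j y‖) (ContinuousOn.add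
    (continuousOn_finsetSum _ fun j _ => continuousOn_finsetSum _ fun i _ =>
      (((M.fr a).contDiffOn_inv j i).continuousOn.mono hLa).abs)
    (continuousOn_finsetSum _ fun j _ => continuousOn_const.mul
      (((M.fr a).contDiffOn_omg hU j).continuousOn.mono hLa).norm))
  refine ⟨(n * (B * (1 + B))) ^ 2, by positivity, fun f i y hy => ?_⟩
  have p1 : 0 ≤ ∑ j, ∑ i, |(fmat (M.e a) y)⁻¹ j i| :=
    Finset.sum_nonneg fun _ _ => Finset.sum_nonneg fun _ _ => abs_nonneg _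
  have p2 : 0 ≤ ∑ j, ‖mulL n‖ * ‖omg (M.e a) j y‖ := Finset.sum_nonneg fun _ _ => by positivity
  have h := pointwise (fun j => (fmat (M.e a) y)⁻¹.mulVec (Pi.single i 1) j)
    (fun j => nab (M.e a) j f y) (fun j => omg (M.e a) j y * f y) (r := ‖f y‖) hB.le
    (fun j => ?_) fun j => ?_
  · rw [(M.fr a).fderiv_eq_sum (hLa hy)]
    simpa only [nab_eq, add_sub_cancel_right] using h
  · rw [Matrix.mulVec_single_one]
    refine le_trans ?_ ((le_add_of_nonneg_right p2).trans (hB' y hy))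
    refine le_trans ?_ (Finset.single_le_sum (f := fun j => ∑ i, |(fmat (M.e a) y)⁻¹ j i|)
      (fun _ _ => Finset.sum_nonneg fun _ _ => abs_nonneg _) (Finset.mem_univ j))
    exact Finset.single_le_sum (f := fun i => |(fmat (M.e a) y)⁻¹ j i|)
      (fun _ _ => abs_nonneg _) (Finset.mem_univ i)
  · refine ((mulL n).le_opNorm₂ _ _).trans (mul_le_mul_of_nonneg_right ?_ (norm_nonneg _))
    refine le_trans ?_ ((le_add_of_nonneg_left p1).trans (hB' y hy))
    exact Finset.single_le_sum (f := fun j => ‖mulL n‖ * ‖omg (M.e a) j y‖)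
      (fun _ _ => by positivity) (Finset.mem_univ j)

end SymmAux

/-- Coordinate derivatives are controlled by covariant derivatives. -/
theorem setIntegral_fderiv_le {L : Set (E n)} (hL : IsCompact L) (hLa : L ⊆ (M.φ a).target) :
    ∃ C : ℝ, 0 < C ∧ ∀ (χ : M.Sec) (i : Fin n),
      ∫ y in L, ‖nab (M.e a) i (χ.loc a) y‖ ^ 2 ≤ C * M.int (χ.nn χ) ∧
      ∫ y in L, ‖fderiv ℝ (χ.loc a) y (Pi.single i 1)‖ ^ 2 ≤ C * (M.int (χ.nn χ) + ‖χ‖ ^ 2) := by
  have hU := (M.φ a).open_target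
  obtain ⟨B, hB, hB'⟩ := setIntegral_le_int hL hLa
  obtain ⟨A, hA, hA'⟩ := fderiv_sq_le hL hLa
  refine ⟨(A + 1) * B, by positivity, fun χ i => ?_⟩
  have hn : 0 ≤ M.int (χ.nn χ) := Atl.int_nonneg fun x _ => nn_nonneg χ x
  have hs : ∀ y ∈ L, χ.nn χ ((M.φ a).symm y) = ∑ j, ‖nab (M.e a) j (χ.loc a) y‖ ^ 2 :=
    fun y hy => by simp only [nn_symm χ χ (hLa hy), real_inner_self_eq_norm_sq]
  constructor
  · calc ∫ y in L, ‖nab (M.e a) i (χ.loc a) y‖ ^ 2 ≤ ∫ y in L, χ.nn χ ((M.φ a).symm y) := by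
          refine setIntegral_mono_on (((((M.fr a).contDiffOn_nab hU (contDiffOn_loc χ a)
            i).continuousOn.mono hLa).norm.pow 2).integrableOn_compact hL)
            (((continuousOn_comp_symm (tst_nn χ χ).1 a).mono hLa).integrableOn_compact hL)
            hL.measurableSet fun y hy => ?_
          rw [hs y hy]
          exact Finset.single_le_sum (f := fun j => ‖nab (M.e a) j (χ.loc a) y‖ ^ 2)
            (fun _ _ => by positivity) (Finset.mem_univ i)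
      _ ≤ B * M.int (χ.nn χ) := hB' _ (tst_nn χ χ) fun x _ => nn_nonneg χ x
      _ ≤ (A + 1) * B * M.int (χ.nn χ) :=
          mul_le_mul_of_nonneg_right (le_mul_of_one_le_left hB.le (by linarith)) hn
  · have hT : M.Tst fun x => χ.nn χ x + ‖χ.ev x‖ ^ 2 := (tst_nn χ χ).add (tst_norm_sq χ)
    have hc : ContinuousOn (fun y => fderiv ℝ (χ.loc a) y (Pi.single i 1)) (M.φ a).target :=
      ((contDiffOn_loc χ a).continuousOn_fderiv_of_isOpen hU (by simp)).clm_apply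
        continuousOn_const
    calc ∫ y in L, ‖fderiv ℝ (χ.loc a) y (Pi.single i 1)‖ ^ 2
        ≤ ∫ y in L, A * (χ.nn χ ((M.φ a).symm y) + ‖χ.ev ((M.φ a).symm y)‖ ^ 2) := by
          refine setIntegral_mono_on (((hc.mono hLa).norm.pow 2).integrableOn_compact hL)
            ((((continuousOn_comp_symm hT.1 a).mono hLa).integrableOn_compact hL).const_mul A)
            hL.measurableSet fun y hy => ?_
          rw [hs y hy, norm_ev χ ((M.φ a).map_target (hLa hy)), ← loc_of_mem χ (hLa hy)]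
          exact hA' _ i y hy
      _ = A * ∫ y in L, (χ.nn χ ((M.φ a).symm y) + ‖χ.ev ((M.φ a).symm y)‖ ^ 2) :=
          integral_const_mul _ _
      _ ≤ A * (B * M.int fun x => χ.nn χ x + ‖χ.ev x‖ ^ 2) :=
          mul_le_mul_of_nonneg_left (hB' _ hT fun x _ =>
            add_nonneg (nn_nonneg χ x) (by positivity)) hA
      _ = A * B * (M.int (χ.nn χ) + ‖χ‖ ^ 2) := by
          rw [Atl.int_add (tst_nn χ χ) (tst_norm_sq χ), ← norm_sq, mul_assoc]
      _ ≤ (A + 1) * B * (M.int (χ.nn χ) + ‖χ‖ ^ 2) :=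
          mul_le_mul_of_nonneg_right (mul_le_mul_of_nonneg_right (by linarith) hB.le)
            (by positivity)

/-- Gårding's inequality. -/
theorem garding {K : Set M.X} (hK : IsCompact K) (hKa : K ⊆ (M.φ a).source) :
    ∃ C : ℝ, 0 < C ∧ ∀ χ : M.Sec, χ.Sup K → ∀ j,
      ∫ y, ‖fderiv ℝ (χ.loc a) y (Pi.single j 1)‖ ^ 2 ≤ C * (‖χ‖ ^ 2 + ‖M.Dir χ‖ ^ 2) := by
  have hL := isCompact_chart_image hK hKa
  obtain ⟨C, hC, hC'⟩ := setIntegral_fderiv_le hL (image_subset_target hKa)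
  obtain ⟨B, hB⟩ := hK.exists_bound_of_continuousOn
    ((M.sm_scal.continuousOn.div_const 4).mono (hKa.trans (M.source_subset a)))
  refine ⟨C * (1 + |B|), by positivity, fun χ hχ j => ?_⟩
  have h1 : ∫ y in M.φ a '' K, ‖fderiv ℝ (χ.loc a) y (Pi.single j 1)‖ ^ 2 =
      ∫ y, ‖fderiv ℝ (χ.loc a) y (Pi.single j 1)‖ ^ 2 := by
    refine setIntegral_eq_integral_of_forall_compl_eq_zero fun y hy => ?_
    have h : χ.loc a =ᶠ[𝓝 y] fun _ => 0 := by
      filter_upwards [hL.isClosed.isOpen_compl.mem_nhds hy] with z hz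
      exact loc_eq_zero hχ hz
    rw [h.fderiv_eq]
    simp
  have h2 : -|B| * ‖χ‖ ^ 2 ≤ M.int fun x => M.scal x / 4 * ‖χ.ev x‖ ^ 2 := by
    rw [norm_sq, ← Atl.int_const_mul]
    refine Atl.int_mono ((tst_norm_sq χ).mul_left continuousOn_const)
      ((tst_norm_sq χ).mul_left (M.sm_scal.continuousOn.div_const 4)) fun x _ => ?_
    by_cases hx : x ∈ K
    · refine mul_le_mul_of_nonneg_right ?_ (by positivity)
      exact (neg_le_neg ((hB x hx).trans (le_abs_self B))).trans (neg_abs_le _)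
    · simp [hχ x hx]
  have h3 := lich χ
  rw [← h1]
  refine (hC' χ j).2.trans ?_
  rw [mul_assoc]
  refine mul_le_mul_of_nonneg_left ?_ hC.le
  have h4 : 0 ≤ |B| * ‖M.Dir χ‖ ^ 2 := by positivity
  nlinarith

end SZ
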