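import Pool.Agent.P.MP_8db816_gt.SZ.EmbCalc

/-! The union of two spin manifolds that are topologically embedded in a common space. -/

noncomputable section

namespace SZ

open Set CliffordAlgebra Filter Topology
open scoped ContDiff RealInnerProductSpace

variable {n : ℕ} {M₁ M₂ : Atl n} {X : Type} [TopologicalSpace X]

/-- Two topological embeddings of open parts of `M₁`, `M₂` into `X` whose transition map is the
restriction of a spin isometry `g`. -/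
structure Glue (h₁ : OpenPartialHomeomorph M₁.X X) (h₂ : OpenPartialHomeomorph M₂.X X)
    (g : Emb M₁ M₂) : Prop where
  s₁ : h₁.source ⊆ M₁.car
  s₂ : h₂.source ⊆ M₂.car
  par : g.p = 1
  ov : ∀ x ∈ h₁.source, h₁ x ∈ h₂.target → x ∈ g.f.source ∧ g.f x ∈ h₂.source ∧ h₂ (g.f x) = h₁ x

variable {h₁ : OpenPartialHomeomorph M₁.X X} {h₂ : OpenPartialHomeomorph M₂.X X} {g : Emb M₁ M₂}

/-- The transition functions of the union. -/
def unionS (h₁ : OpenPartialHomeomorph M₁.X X) (h₂ : OpenPartialHomeomorph M₂.X X)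
    (g : Emb M₁ M₂) : M₁.A ⊕ M₂.A → M₁.A ⊕ M₂.A → X → Cl n
  | .inl a, .inl a', y => M₁.s a a' (h₁.symm y)
  | .inr c, .inl a, y => g.σ c a (h₁.symm y)
  | .inl a, .inr c, y => star (g.σ c a (h₁.symm y))
  | .inr c, .inr c', y => M₂.s c c' (h₂.symm y)

theorem Glue.ov_symm (h : Glue h₁ h₂ g) {y : X} (y₁ : y ∈ h₁.target) (y₂ : y ∈ h₂.target) :
    h₁.symm y ∈ g.f.source ∧ g.f (h₁.symm y) = h₂.symm y := by
  obtain ⟨a₁, a₂, a₃⟩ := h.ov _ (h₁.map_target y₁) (by rwa [h₁.right_inv y₁])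
  exact ⟨a₁, by rw [← h₂.left_inv a₂, a₃, h₁.right_inv y₁]⟩

theorem Glue.ov_inv (h : Glue h₁ h₂ g) {w : M₂.X} (w₂ : w ∈ h₂.source) (w₁ : h₂ w ∈ h₁.target) :
    w ∈ g.f.target ∧ g.f.symm w = h₁.symm (h₂ w) := by
  obtain ⟨a₁, a₂⟩ := h.ov_symm w₁ (h₂.map_source w₂)
  rw [h₂.left_inv w₂] at a₂
  refine ⟨a₂ ▸ g.f.map_source a₁, ?_⟩
  conv_lhs => rw [← a₂]
  exact g.f.left_inv a₁

theorem Glue.ov_fwd (h : Glue h₁ h₂ g) {x : M₁.X} (x₁ : x ∈ h₁.source) (x₂ : h₁ x ∈ h₂.target) :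
    g.f x = h₂.symm (h₁ x) := by
  have := (h.ov_symm (h₁.map_source x₁) x₂).2
  rwa [h₁.left_inv x₁] at this

theorem lift_transport {M : Atl n} (k : OpenPartialHomeomorph M.X X) (a b : M.A) :
    Lift 1 (M.e b) (M.e a)
      ((k.symm.trans (M.φ b)).symm.trans (k.symm.trans (M.φ a))).source
      ((k.symm.trans (M.φ b)).symm.trans (k.symm.trans (M.φ a)))
      ((fun y => M.s a b (k.symm y)) ∘ (k.symm.trans (M.φ b)).symm) := by
  refine (M.lift a b).congr (OpenPartialHomeomorph.open_source _) (fun y hy => ⟨hy.1.1, ?_⟩)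
    (fun y hy => ?_) fun y hy => ?_
  · have : k.symm (k ((M.φ b).symm y)) ∈ (M.φ a).source := hy.2.2
    rwa [k.left_inv hy.1.2] at this
  · exact congrArg (M.φ a) (k.left_inv hy.1.2)
  · exact congrArg (M.s a b) (k.left_inv hy.1.2)

theorem union_ok (h : Glue h₁ h₂ g) :
    AtlOK (Sum.elim (fun a => h₁.symm.trans (M₁.φ a)) fun c => h₂.symm.trans (M₂.φ c))
      (Sum.elim M₁.e M₂.e) (unionS h₁ h₂ g) where
  fr := by
    rintro (a | c)
    · exact (M₁.fr a).mono inter_subset_left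
    · exact (M₂.fr c).mono inter_subset_left
  lift := by
    rintro (a | c) (a' | c')
    · exact lift_transport h₁ a a'
    · have hl := g.symm.lift a c'
      rw [Emb.symm_p, h.par] at hl
      refine hl.congr (OpenPartialHomeomorph.open_source _) (fun y hy => ?_) (fun y hy => ?_)
        fun y hy => ?_
      · obtain ⟨a₁, a₂⟩ := h.ov_inv hy.1.2 hy.2.1
        refine ⟨hy.1.1, a₁, ?_⟩
        change g.f.symm ((M₂.φ c').symm y) ∈ (M₁.φ a).source
        rw [a₂]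
        exact hy.2.2
      · exact congrArg (M₁.φ a) (h.ov_inv hy.1.2 hy.2.1).2.symm
      · exact congrArg (fun x => star (g.σ c' a x)) (h.ov_inv hy.1.2 hy.2.1).2.symm
    · have hl := g.lift c a'
      rw [h.par] at hl
      refine hl.congr (OpenPartialHomeomorph.open_source _) (fun y hy => ?_) (fun y hy => ?_)
        fun y hy => ?_
      · refine ⟨hy.1.1, (h.ov _ hy.1.2 hy.2.1).1, ?_⟩
        change g.f ((M₁.φ a').symm y) ∈ (M₂.φ c).source
        rw [h.ov_fwd hy.1.2 hy.2.1]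
        exact hy.2.2
      · exact congrArg (M₂.φ c) (h.ov_fwd hy.1.2 hy.2.1).symm
      · exact congrArg (g.σ c a') (h₁.left_inv hy.1.2)
    · exact lift_transport h₂ c c'
  cocycle := by
    rintro (a | a) (b | b) (c | c) y ⟨ha, ha'⟩ ⟨hb, hb'⟩ ⟨hc, hc'⟩ <;> simp only [unionS]
    · exact M₁.cocycle a b c _ ha' hb' hc'
    · obtain ⟨e₁, e₂⟩ := h.ov_symm ha hc
      rw [← g.right c b a _ e₁ hb' ha' (e₂ ▸ hc'), star_mul,
        M₁.star_s (x := h₁.symm y) hb' ha']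
    · obtain ⟨e₁, e₂⟩ := h.ov_symm ha hb
      rw [← g.right b a c _ e₁ ha' hc' (e₂ ▸ hb'), ← mul_assoc,
        pinGroup.star_mul_self_of_mem (g.σ_mem e₁ ha' (e₂ ▸ hb')).1, one_mul]
    · obtain ⟨e₁, e₂⟩ := h.ov_symm ha hb
      rw [← g.left c b a _ e₁ ha' (e₂ ▸ hb') (e₂ ▸ hc'), star_mul, e₂,
        M₂.star_s (x := h₂.symm y) hc' hb']
    · obtain ⟨e₁, e₂⟩ := h.ov_symm hb ha
      exact g.right a b c _ e₁ hb' hc' (e₂ ▸ ha')
    · obtain ⟨e₁, e₂⟩ := h.ov_symm hb ha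
      rw [← g.left a c b _ e₁ hb' (e₂ ▸ hc') (e₂ ▸ ha'), mul_assoc,
        pinGroup.mul_star_self_of_mem (g.σ_mem e₁ hb' (e₂ ▸ hc')).1, mul_one, e₂]
    · obtain ⟨e₁, e₂⟩ := h.ov_symm hc ha
      rw [← e₂]
      exact g.left a b c _ e₁ hc' (e₂ ▸ hb') (e₂ ▸ ha')
    · exact M₂.cocycle a b c _ ha' hb' hc'

theorem mem_transport {M : Atl n} {k : OpenPartialHomeomorph M.X X} {a : M.A} {x : M.X}
    (hx : x ∈ k.source) (ha : x ∈ (M.φ a).source) : k x ∈ (k.symm.trans (M.φ a)).source :=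
  ⟨k.map_source hx, by
    change k.symm (k x) ∈ (M.φ a).source
    rwa [k.left_inv hx]⟩

variable [T2Space X] [SecondCountableTopology X] [Nonempty X]

/-- The union. -/
@[reducible] def Glue.atl (h : Glue h₁ h₂ g) : Atl n where
  X := X
  A := M₁.A ⊕ M₂.A
  φ := Sum.elim (fun a => h₁.symm.trans (M₁.φ a)) fun c => h₂.symm.trans (M₂.φ c)
  e := Sum.elim M₁.e M₂.e
  s := unionS h₁ h₂ g
  ok := union_ok h

theorem Glue.car_atl (h : Glue h₁ h₂ g) : h.atl.car = h₁.target ∪ h₂.target := by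
  ext y
  rw [Atl.mem_car]
  constructor
  · rintro ⟨a | c, hy⟩
    · exact Or.inl hy.1
    · exact Or.inr hy.1
  · rintro (hy | hy)
    · obtain ⟨a, ha⟩ := Atl.mem_car.1 (h.s₁ (h₁.map_target hy))
      exact ⟨.inl a, hy, ha⟩
    · obtain ⟨c, hc⟩ := Atl.mem_car.1 (h.s₂ (h₂.map_target hy))
      exact ⟨.inr c, hy, hc⟩

theorem union_ok₁ (h : Glue h₁ h₂ g) :
    EmbOK M₁ h.atl 1 h₁ fun d a x => unionS h₁ h₂ g d (.inl a) (h₁ x) where
  hp := Or.inl rfl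
  src := h.s₁
  tgt := h.car_atl ▸ subset_union_left
  lift d a := (h.atl.lift d (.inl a)).congr (OpenPartialHomeomorph.open_source _)
    (fun _ hy => ⟨⟨hy.1, hy.2.1⟩, hy.2.2⟩) (fun _ _ => rfl) fun _ _ => rfl
  left d' d a _ hx ha hd hd' := h.atl.cocycle d' d (.inl a) _ hd' hd (mem_transport hx ha)
  right d a a' x hx ha ha' hd :=
    (congrArg (fun z => unionS h₁ h₂ g d (.inl a) (h₁ x) * M₁.s a a' z) (h₁.left_inv hx).symm).trans
      (h.atl.cocycle d (.inl a) (.inl a') _ hd (mem_transport hx ha) (mem_transport hx ha'))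

theorem union_ok₂ (h : Glue h₁ h₂ g) :
    EmbOK M₂ h.atl 1 h₂ fun d c x => unionS h₁ h₂ g d (.inr c) (h₂ x) where
  hp := Or.inl rfl
  src := h.s₂
  tgt := h.car_atl ▸ subset_union_right
  lift d a := (h.atl.lift d (.inr a)).congr (OpenPartialHomeomorph.open_source _)
    (fun _ hy => ⟨⟨hy.1, hy.2.1⟩, hy.2.2⟩) (fun _ _ => rfl) fun _ _ => rfl
  left d' d a _ hx ha hd hd' := h.atl.cocycle d' d (.inr a) _ hd' hd (mem_transport hx ha)
  right d a a' x hx ha ha' hd :=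
    (congrArg (fun z => unionS h₁ h₂ g d (.inr a) (h₂ x) * M₂.s a a' z) (h₂.left_inv hx).symm).trans
      (h.atl.cocycle d (.inr a) (.inr a') _ hd (mem_transport hx ha) (mem_transport hx ha'))

/-- The first inclusion. -/
def Glue.j₁ (h : Glue h₁ h₂ g) : Emb M₁ h.atl :=
  ⟨1, h₁, fun d a x => unionS h₁ h₂ g d (.inl a) (h₁ x), union_ok₁ h⟩

/-- The second inclusion. -/
def Glue.j₂ (h : Glue h₁ h₂ g) : Emb M₂ h.atl :=
  ⟨1, h₂, fun d c x => unionS h₁ h₂ g d (.inr c) (h₂ x), union_ok₂ h⟩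

theorem Glue.sq (h : Glue h₁ h₂ g) :
    Sq h.j₂ g h.j₁ (Emb.id M₁) (h₁.source ∩ h₁ ⁻¹' h₂.target) := by
  rintro x ⟨x₁, x₂⟩
  obtain ⟨a₁, a₂, a₃⟩ := h.ov x x₁ x₂
  refine ⟨a₁, a₂, h.s₁ x₁, x₁, a₃, fun c b b' a ha hb hb' hc => ?_⟩
  have hc' : h₁ x ∈ (h.atl.φ c).source := a₃ ▸ hc
  have e₁ := h.atl.cocycle c (.inr b) (.inl a) _ hc' (a₃ ▸ mem_transport a₂ hb)
    (mem_transport x₁ ha)
  have e₂ := h.j₁.right c b' a x x₁ hb' ha hc'
  change unionS h₁ h₂ g c (.inr b) (h₁ x) * g.σ b a (h₁.symm (h₁ x)) = _ at e₁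
  rw [h₁.left_inv x₁] at e₁
  change unionS h₁ h₂ g c (.inr b) (h₂ (g.f x)) * g.σ b a x = _
  rw [a₃, e₁]
  exact e₂.symm

end SZ
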